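import Pool.Agent.IDX.Defs

/-! Row IDX-B1: elementary facts on proportions `pr` and densities `dn`. -/

open Finset

namespace Pool.Agent.IDX

theorem B1_eq (U : Finset ℕ) (p : Finset ℕ → Prop) [inst : DecidablePred p] :
    pr U p = ((U.powerset.filter p).card : ℝ) / 2 ^ U.card := by
  unfold pr
  rw [Finset.filter_congr_decidable]

theorem mem_vx {H : HG} {v : ℕ} : v ∈ vx H ↔ ∃ e ∈ H, v ∈ e := by
  unfold vx
  rw [Finset.mem_sup]
  rfl

theorem subset_vx {H : HG} {e : Finset ℕ} (he : e ∈ H) : e ⊆ vx H := fun _ hv => mem_vx.2 ⟨e, he, hv⟩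

theorem pr_nonneg (U : Finset ℕ) (p : Finset ℕ → Prop) : 0 ≤ pr U p := by
  unfold pr
  positivity

theorem pr_le_one (U : Finset ℕ) (p : Finset ℕ → Prop) : pr U p ≤ 1 := by
  classical
  unfold pr
  rw [div_le_one (by positivity)]
  have h : (U.powerset.filter p).card ≤ 2 ^ U.card := by
    rw [← Finset.card_powerset]
    exact Finset.card_filter_le _ _
  exact_mod_cast h

theorem pr_congr {U : Finset ℕ} {p q : Finset ℕ → Prop} (h : ∀ R ⊆ U, (p R ↔ q R)) :
    pr U p = pr U q := by
  classical
  unfold pr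
  rw [Finset.filter_congr fun R hR => h R (Finset.mem_powerset.1 hR)]

theorem pr_mono {U : Finset ℕ} {p q : Finset ℕ → Prop} (h : ∀ R ⊆ U, p R → q R) :
    pr U p ≤ pr U q := by
  classical
  unfold pr
  have h1 : (U.powerset.filter p).card ≤ (U.powerset.filter q).card := by
    refine Finset.card_le_card fun R hR => ?_
    rw [Finset.mem_filter] at hR ⊢
    exact ⟨hR.1, h R (Finset.mem_powerset.1 hR.1) hR.2⟩
  have h2 : ((U.powerset.filter p).card : ℝ) ≤ ((U.powerset.filter q).card : ℝ) := by
    exact_mod_cast h1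
  exact div_le_div_of_nonneg_right h2 (by positivity)

/-- A single set witnessing `q` and not `p` makes the proportions differ by at least
`1/2^|U|`. -/
theorem pr_lt {U : Finset ℕ} {p q : Finset ℕ → Prop} (h : ∀ R ⊆ U, p R → q R) {R : Finset ℕ}
    (hR : R ⊆ U) (hq : q R) (hp : ¬ p R) : pr U p + 1 / 2 ^ U.card ≤ pr U q := by
  classical
  unfold pr
  have h1 : (U.powerset.filter p).card + 1 ≤ (U.powerset.filter q).card := by
    refine Finset.card_lt_card ⟨fun S hS => ?_, fun hc => ?_⟩
    · rw [Finset.mem_filter] at hS ⊢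
      exact ⟨hS.1, h S (Finset.mem_powerset.1 hS.1) hS.2⟩
    · have h2 := hc (Finset.mem_filter.2 ⟨Finset.mem_powerset.2 hR, hq⟩)
      exact hp (Finset.mem_filter.1 h2).2
  have h2 : ((U.powerset.filter p).card : ℝ) + 1 ≤ ((U.powerset.filter q).card : ℝ) := by
    exact_mod_cast h1
  rw [← add_div]
  exact div_le_div_of_nonneg_right h2 (by positivity)

theorem pr_or_le (U : Finset ℕ) (p q : Finset ℕ → Prop) :
    pr U (fun R => p R ∨ q R) ≤ pr U p + pr U q := by
  classical
  rw [B1_eq U p, B1_eq U q, B1_eq U (fun R => p R ∨ q R), ← add_div]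
  have h1 : (U.powerset.filter (fun R => p R ∨ q R)).card ≤
      (U.powerset.filter p).card + (U.powerset.filter q).card := by
    rw [Finset.filter_or]
    exact Finset.card_union_le _ _
  have h2 : ((U.powerset.filter (fun R => p R ∨ q R)).card : ℝ) ≤
      ((U.powerset.filter p).card : ℝ) + ((U.powerset.filter q).card : ℝ) := by
    exact_mod_cast h1
  exact div_le_div_of_nonneg_right h2 (by positivity)

theorem pr_add_of_disjoint {U : Finset ℕ} {p q : Finset ℕ → Prop} (h : ∀ R ⊆ U, ¬ (p R ∧ q R)) :
    pr U (fun R => p R ∨ q R) = pr U p + pr U q := by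
  classical
  rw [B1_eq U p, B1_eq U q, B1_eq U (fun R => p R ∨ q R), ← add_div]
  have h1 : (U.powerset.filter (fun R => p R ∨ q R)).card =
      (U.powerset.filter p).card + (U.powerset.filter q).card := by
    rw [Finset.filter_or]
    refine Finset.card_union_of_disjoint (Finset.disjoint_left.2 fun R h2 h3 => ?_)
    rw [Finset.mem_filter] at h2 h3
    exact h R (Finset.mem_powerset.1 h2.1) ⟨h2.2, h3.2⟩
  have h2 : ((U.powerset.filter (fun R => p R ∨ q R)).card : ℝ) =
      ((U.powerset.filter p).card : ℝ) + ((U.powerset.filter q).card : ℝ) := by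
    exact_mod_cast h1
  rw [h2]

theorem B1_true (U : Finset ℕ) : pr U (fun _ => True) = 1 := by
  classical
  unfold pr
  rw [Finset.filter_true, Finset.card_powerset]
  push_cast
  exact div_self (by positivity)

theorem pr_not (U : Finset ℕ) (p : Finset ℕ → Prop) : pr U (fun R => ¬ p R) = 1 - pr U p := by
  have h1 := pr_add_of_disjoint (U := U) (p := p) (q := fun R => ¬ p R) fun R _ h => h.2 h.1
  have h2 : pr U (fun R => p R ∨ ¬ p R) = 1 := by
    rw [← B1_true U]
    exact pr_congr fun R _ => ⟨fun _ => trivial, fun _ => Classical.em _⟩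
  rw [h2] at h1
  linarith

theorem pr_true (U : Finset ℕ) : pr U (fun _ => True) = 1 := B1_true U

/-- Splitting a proportion according to the values of a function on the subsets. -/
theorem pr_fiber {β : Type} [DecidableEq β] (U : Finset ℕ) (p : Finset ℕ → Prop)
    (g : Finset ℕ → β) (s : Finset β) (h : ∀ R ⊆ U, p R → g R ∈ s) :
    pr U p = ∑ b ∈ s, pr U (fun R => p R ∧ g R = b) := by
  classical
  rw [B1_eq U p, Finset.sum_congr rfl fun b _ => B1_eq U (fun R => p R ∧ g R = b), ← Finset.sum_div]
  have h1 : (U.powerset.filter p).card =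
      ∑ b ∈ s, (U.powerset.filter (fun R => p R ∧ g R = b)).card := by
    rw [Finset.card_eq_sum_card_fiberwise (f := g) (t := s)]
    · refine Finset.sum_congr rfl fun b _ => ?_
      rw [Finset.filter_filter]
    · intro R hR
      rw [Finset.mem_coe, Finset.mem_filter] at hR
      exact h R (Finset.mem_powerset.1 hR.1) hR.2
  have h2 : ((U.powerset.filter p).card : ℝ) =
      ∑ b ∈ s, ((U.powerset.filter (fun R => p R ∧ g R = b)).card : ℝ) := by
    exact_mod_cast h1
  rw [h2]

end Pool.Agent.IDX
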