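import Pool.Agent.IDX.B1

/-! Row IDX-B2: product structure of proportions, independence of the ambient set. -/

open Finset

namespace Pool.Agent.IDX

/-- Conditioning on the trace on `T`. -/
theorem pr_split {U T : Finset ℕ} (hT : T ⊆ U) (p : Finset ℕ → Prop) :
    pr U p = (∑ S ∈ T.powerset, pr (U \ T) (fun R => p (S ∪ R))) / 2 ^ T.card := by
  classical
  have h1 : (U.powerset.filter p).card =
      ∑ S ∈ T.powerset, ((U \ T).powerset.filter (fun R => p (S ∪ R))).card := by
    rw [Finset.card_eq_sum_card_fiberwise (f := fun R => R ∩ T) (t := T.powerset)]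
    · refine Finset.sum_congr rfl fun S hS => ?_
      have hST : S ⊆ T := Finset.mem_powerset.1 hS
      refine Finset.card_bij' (fun R _ => R \ T) (fun R _ => S ∪ R) ?_ ?_ ?_ ?_
      · intro R hR
        rw [Finset.mem_filter, Finset.mem_filter, Finset.mem_powerset] at hR
        rw [Finset.mem_filter, Finset.mem_powerset]
        refine ⟨Finset.sdiff_subset_sdiff hR.1.1 (Finset.Subset.refl _), ?_⟩
        rw [← hR.2, Finset.union_comm, Finset.sdiff_union_inter]
        exact hR.1.2
      · intro R hR
        rw [Finset.mem_filter, Finset.mem_powerset] at hR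
        rw [Finset.mem_filter, Finset.mem_filter, Finset.mem_powerset]
        refine ⟨⟨Finset.union_subset (hST.trans hT) (hR.1.trans Finset.sdiff_subset), hR.2⟩, ?_⟩
        ext x
        rw [Finset.mem_inter, Finset.mem_union]
        constructor
        · rintro ⟨hx | hx, hxT⟩
          · exact hx
          · exact absurd hxT (Finset.mem_sdiff.1 (hR.1 hx)).2
        · exact fun hx => ⟨Or.inl hx, hST hx⟩
      · intro R hR
        rw [Finset.mem_filter] at hR
        show S ∪ R \ T = R
        rw [← hR.2, Finset.union_comm, Finset.sdiff_union_inter]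
      · intro R hR
        rw [Finset.mem_filter, Finset.mem_powerset] at hR
        show (S ∪ R) \ T = R
        ext x
        rw [Finset.mem_sdiff, Finset.mem_union]
        constructor
        · rintro ⟨hx | hx, hxT⟩
          · exact absurd (hST hx) hxT
          · exact hx
        · exact fun hx => ⟨Or.inr hx, (Finset.mem_sdiff.1 (hR.1 hx)).2⟩
    · intro R _
      exact Finset.mem_coe.2 (Finset.mem_powerset.2 Finset.inter_subset_right)
  rw [B1_eq U p, Finset.sum_congr rfl fun S _ => B1_eq (U \ T) (fun R => p (S ∪ R)),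
    ← Finset.sum_div, div_div, ← pow_add, Finset.card_sdiff_add_card_eq_card hT, h1]
  push_cast
  rfl

/-- Independence of the traces on disjoint sets. -/
theorem pr_mul {U V : Finset ℕ} (h : Disjoint U V) (p q : Finset ℕ → Prop) :
    pr (U ∪ V) (fun R => p (R ∩ U) ∧ q (R ∩ V)) = pr U p * pr V q := by
  classical
  rw [pr_split (T := U) Finset.subset_union_left]
  have hV : (U ∪ V) \ U = V := by
    rw [Finset.union_sdiff_left]
    exact Finset.sdiff_eq_self_of_disjoint h.symm
  rw [hV]
  have h1 : ∀ S ∈ U.powerset, pr V (fun R => p ((S ∪ R) ∩ U) ∧ q ((S ∪ R) ∩ V)) =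
      if p S then pr V q else 0 := by
    intro S hS
    have hSU : S ⊆ U := Finset.mem_powerset.1 hS
    have h2 : pr V (fun R => p ((S ∪ R) ∩ U) ∧ q ((S ∪ R) ∩ V)) = pr V (fun R => p S ∧ q R) := by
      refine pr_congr fun R hR => ?_
      have e1 : (S ∪ R) ∩ U = S := by
        rw [Finset.union_inter_distrib_right, Finset.inter_eq_left.2 hSU,
          Finset.disjoint_iff_inter_eq_empty.1 (Finset.disjoint_of_subset_left hR h.symm),
          Finset.union_empty]
      have e2 : (S ∪ R) ∩ V = R := by
        rw [Finset.union_inter_distrib_right, Finset.inter_eq_left.2 hR,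
          Finset.disjoint_iff_inter_eq_empty.1 (Finset.disjoint_of_subset_left hSU h),
          Finset.empty_union]
      rw [e1, e2]
    rw [h2]
    by_cases hp : p S
    · rw [if_pos hp]
      exact pr_congr fun R _ => ⟨fun h => h.2, fun h => ⟨hp, h⟩⟩
    · rw [if_neg hp]
      have h3 : pr V (fun R => p S ∧ q R) = pr V (fun R => ¬ True) :=
        pr_congr fun R _ => ⟨fun h => absurd h.1 hp, fun h => absurd trivial h⟩
      rw [h3, pr_not, pr_true, sub_self]
  rw [Finset.sum_congr rfl h1, ← Finset.sum_filter, Finset.sum_const, nsmul_eq_mul, B1_eq U p]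
  ring

/-- A property depending only on the trace on `U` has the same proportion in any larger set. -/
theorem pr_extend {U W : Finset ℕ} (h : U ⊆ W) (p : Finset ℕ → Prop) :
    pr W (fun R => p (R ∩ U)) = pr U p := by
  have h1 := pr_mul (U := U) (V := W \ U) Finset.disjoint_sdiff p (fun _ => True)
  rw [Finset.union_sdiff_of_subset h, pr_true, mul_one] at h1
  rw [← h1]
  exact pr_congr fun R _ => ⟨fun h => ⟨h, trivial⟩, fun h => h.1⟩

theorem pr_eq_singleton {U S : Finset ℕ} (h : S ⊆ U) : pr U (fun R => R = S) = 1 / 2 ^ U.card := by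
  classical
  rw [B1_eq U (fun R => R = S), Finset.filter_eq', if_pos (Finset.mem_powerset.2 h),
    Finset.card_singleton, Nat.cast_one]

theorem pr_inter_empty {U X : Finset ℕ} (h : X ⊆ U) :
    pr U (fun R => R ∩ X = ∅) = 1 / 2 ^ X.card := by
  rw [pr_extend h (fun R => R = ∅), pr_eq_singleton (Finset.empty_subset X)]

/-- `dn H` may be computed in any finite set containing all vertices. -/
theorem dn_eq {H : HG} {U : Finset ℕ} (h : vx H ⊆ U) : dn H = pr U (Ind H) := by
  unfold dn
  rw [← pr_extend h (Ind H)]
  refine pr_congr fun R _ => ⟨fun h1 e he hs => ?_, fun h1 e he hs => ?_⟩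
  · exact h1 e he (Finset.subset_inter hs (subset_vx he))
  · exact h1 e he (hs.trans Finset.inter_subset_left)

theorem dn_nonneg (H : HG) : 0 ≤ dn H := pr_nonneg _ _

theorem dn_le_one (H : HG) : dn H ≤ 1 := pr_le_one _ _

end Pool.Agent.IDX
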