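import Pool.Agent.IDX.B2

/-! Row IDX-B3: monotonicity. -/

open Finset

namespace Pool.Agent.IDX

theorem up_refl (H : HG) : Up H H := by
  intro e he
  exact ⟨e, he, Finset.Subset.refl e⟩

theorem up_trans {H K L : HG} (h : Up H K) (h' : Up K L) : Up H L := by
  intro e he
  obtain ⟨f, hf, hfe⟩ := h e he
  obtain ⟨g, hg, hgf⟩ := h' f hf
  exact ⟨g, hg, hgf.trans hfe⟩

theorem up_of_subset {H K : HG} (h : H ⊆ K) : Up H K := by
  intro e he
  exact ⟨e, h he, Finset.Subset.refl e⟩

theorem ind_of_up {H K : HG} (h : Up H K) {R : Finset ℕ} (hR : Ind K R) : Ind H R := by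
  intro e he heR
  obtain ⟨f, hf, hfe⟩ := h e he
  exact hR f hf (hfe.trans heR)

theorem dn_mono {H K : HG} (h : Up H K) : dn K ≤ dn H := by
  rw [dn_eq (H := K) (U := vx H ∪ vx K) Finset.subset_union_right,
    dn_eq (H := H) (U := vx H ∪ vx K) Finset.subset_union_left]
  exact pr_mono fun R _ hR => ind_of_up h hR

/-- An edge of `K` containing no edge of `H` is independent in `H` and not in `K`. -/
theorem up_of_dn_eq {H K : HG} (h : Up H K) (he : dn H = dn K) : Up K H := by
  intro e heK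
  by_contra hcon
  push Not at hcon
  have h1 : pr (vx H ∪ vx K) (Ind K) + 1 / 2 ^ (vx H ∪ vx K).card ≤ pr (vx H ∪ vx K) (Ind H) := by
    refine pr_lt (fun R _ hR => ind_of_up h hR) (R := e)
      ((subset_vx heK).trans Finset.subset_union_right) ?_ ?_
    · intro f hf hfe
      exact hcon f hf hfe
    · intro hK
      exact hK e heK (Finset.Subset.refl e)
  rw [← dn_eq (H := K) (U := vx H ∪ vx K) Finset.subset_union_right,
    ← dn_eq (H := H) (U := vx H ∪ vx K) Finset.subset_union_left, he] at h1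
  have h2 : (0 : ℝ) < 1 / 2 ^ (vx H ∪ vx K).card := by positivity
  linarith

/-- Equal upward closures and clutters: equal. -/
theorem eq_of_up_up {H K : HG} (h : Up H K) (h' : Up K H) (hH : AC H) (hK : AC K) : H = K := by
  apply Finset.Subset.antisymm
  · intro e he
    obtain ⟨f, hf, hfe⟩ := h e he
    obtain ⟨g, hg, hgf⟩ := h' f hf
    have h1 : g = e := hH g hg e he (hgf.trans hfe)
    have h2 : f = e := Finset.Subset.antisymm hfe (h1 ▸ hgf)
    exact h2 ▸ hf
  · intro e he
    obtain ⟨f, hf, hfe⟩ := h' e he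
    obtain ⟨g, hg, hgf⟩ := h f hf
    have h1 : g = e := hK g hg e he (hgf.trans hfe)
    have h2 : f = e := Finset.Subset.antisymm hfe (h1 ▸ hgf)
    exact h2 ▸ hf

/-- `dn` is positive unless the empty set is an edge. -/
theorem dn_pos {H : HG} (h : ∅ ∉ H) : 0 < dn H := by
  have h1 : pr (vx H) (fun _ => False) + 1 / 2 ^ (vx H).card ≤ pr (vx H) (Ind H) := by
    refine pr_lt (fun R _ hR => hR.elim) (R := ∅) (Finset.empty_subset _) ?_ (fun hf => hf)
    intro e he hsub
    rw [Finset.subset_empty.mp hsub] at he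
    exact h he
  have h2 : (0 : ℝ) < 1 / 2 ^ (vx H).card := by positivity
  have h3 := pr_nonneg (vx H) (fun _ => False)
  show 0 < pr (vx H) (Ind H)
  linarith

theorem dn_zero {H : HG} (h : ∅ ∈ H) : dn H = 0 := by
  have h1 : pr (vx H) (Ind H) ≤ pr (vx H) (fun R => ¬ True) := by
    refine pr_mono fun R _ hR => ?_
    exact absurd (Finset.empty_subset R) (hR ∅ h)
  rw [pr_not, pr_true, sub_self] at h1
  exact le_antisymm h1 (pr_nonneg _ _)

theorem dn_empty : dn ∅ = 1 := by
  have h1 : pr (vx ∅) (Ind ∅) = pr (vx ∅) (fun _ => True) := by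
    refine pr_congr fun R _ => ⟨fun _ => trivial, fun _ e he => ?_⟩
    exact absurd he (Finset.notMem_empty e)
  show pr (vx ∅) (Ind ∅) = 1
  rw [h1, pr_true]

/-- The minimal edges. -/
theorem exists_clutter (H : HG) : ∃ K ⊆ H, AC K ∧ Up H K ∧ dn K = dn H := by
  classical
  have hsub : H.filter (fun e => ∀ f ∈ H, f ⊆ e → f = e) ⊆ H := Finset.filter_subset _ _
  have hup : Up H (H.filter (fun e => ∀ f ∈ H, f ⊆ e → f = e)) := by
    intro e he
    obtain ⟨m, hm, hmin⟩ := Finset.exists_min_image (H.filter (fun f => f ⊆ e)) Finset.card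
      ⟨e, Finset.mem_filter.mpr ⟨he, Finset.Subset.refl e⟩⟩
    rw [Finset.mem_filter] at hm
    refine ⟨m, Finset.mem_filter.mpr ⟨hm.1, ?_⟩, hm.2⟩
    intro f hf hfm
    have h1 := hmin f (Finset.mem_filter.mpr ⟨hf, hfm.trans hm.2⟩)
    exact Finset.eq_of_subset_of_card_le hfm h1
  refine ⟨H.filter (fun e => ∀ f ∈ H, f ⊆ e → f = e), hsub, ?_, hup, ?_⟩
  · intro e he f hf hef
    rw [Finset.mem_filter] at he hf
    exact hf.2 e he.1 hef
  · exact le_antisymm (dn_mono hup) (dn_mono (up_of_subset hsub))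

end Pool.Agent.IDX
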