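import Pool.Agent.IDX.B3

/-! Row IDX-B4b: deletions -/

open Finset

namespace Pool.Agent.IDX

theorem del_subset (H : HG) (X : Finset ℕ) : del H X ⊆ H := by
  exact Finset.filter_subset _ _

theorem dn_le_del (H : HG) (X : Finset ℕ) : dn H ≤ dn (del H X) := by
  exact dn_mono (up_of_subset (del_subset H X))

theorem B4b_vx_del {H : HG} {U X : Finset ℕ} (hU : vx H ⊆ U) : vx (del H X) ⊆ U \ X := by
  intro v hv
  obtain ⟨e, he, hve⟩ := mem_vx.1 hv
  have h1 := Finset.mem_filter.1 he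
  exact Finset.mem_sdiff.2 ⟨hU (mem_vx.2 ⟨e, h1.1, hve⟩),
    fun hx => Finset.disjoint_left.1 h1.2 hve hx⟩

/-- Turning `X` off: `pr (R ∩ X = ∅ and R independent) = dn (del H X) / 2^|X|`. -/
theorem pr_off {H : HG} {U X : Finset ℕ} (hU : vx H ⊆ U) (hX : X ⊆ U) :
    pr U (fun R => Ind H R ∧ R ∩ X = ∅) = dn (del H X) / 2 ^ X.card := by
  have h1 : U = (U \ X) ∪ X := (Finset.sdiff_union_of_subset hX).symm
  have h2 : pr U (fun R => Ind H R ∧ R ∩ X = ∅) =
      pr U (fun R => Ind (del H X) (R ∩ (U \ X)) ∧ R ∩ X = ∅) := by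
    apply pr_congr
    intro R hR
    constructor
    · rintro ⟨h3, h4⟩
      refine ⟨fun e he hs => h3 e (del_subset H X he) (hs.trans Finset.inter_subset_left), h4⟩
    · rintro ⟨h3, h4⟩
      refine ⟨fun e he hs => h3 e (Finset.mem_filter.2 ⟨he, ?_⟩) ?_, h4⟩
      · rw [Finset.disjoint_left]
        intro v hv hx
        have h5 : v ∈ R ∩ X := Finset.mem_inter.2 ⟨hs hv, hx⟩
        rw [h4] at h5
        exact absurd h5 (Finset.notMem_empty v)
      · intro v hv
        refine Finset.mem_inter.2 ⟨hs hv, Finset.mem_sdiff.2 ⟨hR (hs hv), fun hx => ?_⟩⟩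
        have h5 : v ∈ R ∩ X := Finset.mem_inter.2 ⟨hs hv, hx⟩
        rw [h4] at h5
        exact absurd h5 (Finset.notMem_empty v)
  have h3 : pr ((U \ X) ∪ X) (fun R => Ind (del H X) (R ∩ (U \ X)) ∧ R ∩ X = ∅) =
      pr (U \ X) (Ind (del H X)) * pr X (fun R => R = ∅) :=
    pr_mul Finset.sdiff_disjoint (Ind (del H X)) (fun R => R = ∅)
  have h4 : pr U (fun R => Ind (del H X) (R ∩ (U \ X)) ∧ R ∩ X = ∅) =
      pr ((U \ X) ∪ X) (fun R => Ind (del H X) (R ∩ (U \ X)) ∧ R ∩ X = ∅) := by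
    rw [← h1]
  rw [h2, h4, h3, pr_eq_singleton (Finset.empty_subset X), dn_eq (B4b_vx_del hU)]
  ring

theorem dn_del_ge (H : HG) (X : Finset ℕ) : dn (del H X) / 2 ^ X.card ≤ dn H := by
  rw [← pr_off (U := vx H ∪ X) Finset.subset_union_left Finset.subset_union_right,
    dn_eq (H := H) (U := vx H ∪ X) Finset.subset_union_left]
  exact pr_mono fun R _ h => h.1

/-- Strict version: if `x ∈ X` is a vertex which alone is independent then there is a strict
inequality. -/
theorem dn_del_gt {H : HG} {X : Finset ℕ} (h : ∀ e ∈ H, 2 ≤ e.card) (hX : X.Nonempty) :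
    dn (del H X) / 2 ^ X.card < dn H := by
  obtain ⟨x, hx⟩ := hX
  rw [← pr_off (U := vx H ∪ X) Finset.subset_union_left Finset.subset_union_right,
    dn_eq (H := H) (U := vx H ∪ X) Finset.subset_union_left]
  have h1 := pr_lt (U := vx H ∪ X) (p := fun R => Ind H R ∧ R ∩ X = ∅) (q := Ind H)
    (fun R _ h => h.1) (R := {x})
    (Finset.singleton_subset_iff.2 (Finset.mem_union_right _ hx)) (by
      intro e he hs
      have h2 := h e he
      have h3 := Finset.card_le_card hs
      rw [Finset.card_singleton] at h3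
      omega) (by
      rintro ⟨_, h4⟩
      have h5 : x ∈ ({x} : Finset ℕ) ∩ X := Finset.mem_inter.2 ⟨Finset.mem_singleton_self x, hx⟩
      rw [h4] at h5
      exact absurd h5 (Finset.notMem_empty x))
  have h2 : (0 : ℝ) < 1 / 2 ^ (vx H ∪ X).card := by positivity
  linarith

theorem dn_singletons (H : HG) (N : Finset ℕ) :
    dn (H ∪ N.image (fun v => {v})) = dn (del H N) / 2 ^ N.card := by
  rw [← pr_off (U := vx H ∪ N) Finset.subset_union_left Finset.subset_union_right]
  have h1 : vx (H ∪ N.image (fun v => {v})) ⊆ vx H ∪ N := by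
    intro v hv
    obtain ⟨e, he, hve⟩ := mem_vx.1 hv
    rcases Finset.mem_union.1 he with h2 | h2
    · exact Finset.mem_union_left _ (mem_vx.2 ⟨e, h2, hve⟩)
    · obtain ⟨w, hw, hwe⟩ := Finset.mem_image.1 h2
      rw [← hwe] at hve
      rw [Finset.mem_singleton.1 hve]
      exact Finset.mem_union_right _ hw
  rw [dn_eq h1]
  apply pr_congr
  intro R _
  constructor
  · intro h2
    refine ⟨fun e he => h2 e (Finset.mem_union_left _ he), ?_⟩
    rw [Finset.eq_empty_iff_forall_notMem]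
    intro v hv
    have h3 := Finset.mem_inter.1 hv
    exact h2 {v} (Finset.mem_union_right _ (Finset.mem_image.2 ⟨v, h3.2, rfl⟩))
      (Finset.singleton_subset_iff.2 h3.1)
  · rintro ⟨h2, h3⟩ e he hs
    rcases Finset.mem_union.1 he with h4 | h4
    · exact h2 e h4 hs
    · obtain ⟨w, hw, hwe⟩ := Finset.mem_image.1 h4
      rw [← hwe] at hs
      have h5 : w ∈ R ∩ N := Finset.mem_inter.2 ⟨Finset.singleton_subset_iff.1 hs, hw⟩
      rw [h3] at h5
      exact absurd h5 (Finset.notMem_empty w)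

/-- If deleting `X` does not change the density then every edge contains an edge avoiding `X`. -/
theorem avoid_of_dn_del_eq {H : HG} {X : Finset ℕ} (h : dn (del H X) = dn H) :
    ∀ e ∈ H, ∃ f ∈ H, f ⊆ e ∧ Disjoint f X := by
  intro e he
  obtain ⟨f, hf, hfe⟩ := up_of_dn_eq (up_of_subset (del_subset H X)) h e he
  have h1 := Finset.mem_filter.1 hf
  exact ⟨f, h1.1, hfe, h1.2⟩

theorem dn_del_of_avoid {H : HG} {X : Finset ℕ} (h : ∀ e ∈ H, ∃ f ∈ H, f ⊆ e ∧ Disjoint f X) :
    dn (del H X) = dn H := by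
  apply le_antisymm
  · apply dn_mono
    intro e he
    obtain ⟨f, hf, hfe, hd⟩ := h e he
    exact ⟨f, Finset.mem_filter.2 ⟨hf, hd⟩, hfe⟩
  · exact dn_le_del H X

theorem del_del (H : HG) (X Y : Finset ℕ) : del (del H X) Y = del H (X ∪ Y) := by
  ext e
  unfold del
  rw [Finset.mem_filter, Finset.mem_filter, Finset.mem_filter, Finset.disjoint_union_right,
    and_assoc]

end Pool.Agent.IDX
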