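import Pool.Agent.IDX.B2

/-! Row IDX-B4c: relabelling -/

open Finset

namespace Pool.Agent.IDX

/-- Relabelling. -/
theorem dn_image {H : HG} {f : ℕ → ℕ} (hf : Set.InjOn f (vx H : Set ℕ)) :
    dn (H.image (Finset.image f)) = dn H := by
  classical
  have hvx : vx (H.image (Finset.image f)) = (vx H).image f := by
    ext v
    rw [mem_vx, Finset.mem_image]
    constructor
    · rintro ⟨e', he', hv⟩
      obtain ⟨e, he, rfl⟩ := Finset.mem_image.1 he'
      obtain ⟨w, hw, rfl⟩ := Finset.mem_image.1 hv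
      exact ⟨w, mem_vx.2 ⟨e, he, hw⟩, rfl⟩
    · rintro ⟨w, hw, rfl⟩
      obtain ⟨e, he, hwe⟩ := mem_vx.1 hw
      exact ⟨e.image f, Finset.mem_image.2 ⟨e, he, rfl⟩, Finset.mem_image.2 ⟨w, hwe, rfl⟩⟩
  have hsub : ∀ A ⊆ vx H, ∀ R ⊆ vx H, (A.image f ⊆ R.image f ↔ A ⊆ R) := by
    intro A hA R hR
    constructor
    · intro h x hx
      obtain ⟨y, hy, hxy⟩ := Finset.mem_image.1 (h (Finset.mem_image.2 ⟨x, hx, rfl⟩))
      have h1 : y = x := hf (Finset.mem_coe.2 (hR hy)) (Finset.mem_coe.2 (hA hx)) hxy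
      rwa [← h1]
    · exact fun h => Finset.image_subset_image h
  have hind : ∀ R ⊆ vx H, (Ind (H.image (Finset.image f)) (R.image f) ↔ Ind H R) := by
    intro R hR
    constructor
    · intro h e he hs
      exact h (e.image f) (Finset.mem_image.2 ⟨e, he, rfl⟩) (Finset.image_subset_image hs)
    · intro h e' he' hs
      obtain ⟨e, he, rfl⟩ := Finset.mem_image.1 he'
      exact h e he ((hsub e (subset_vx he) R hR).1 hs)
  unfold dn
  rw [hvx, B1_eq (vx H) (Ind H), B1_eq ((vx H).image f) (Ind (H.image (Finset.image f))),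
    Finset.card_image_of_injOn hf]
  have h1 : (((vx H).image f).powerset.filter (Ind (H.image (Finset.image f)))).card =
      ((vx H).powerset.filter (Ind H)).card := by
    symm
    refine Finset.card_bij (fun R _ => R.image f) ?_ ?_ ?_
    · intro R hR
      rw [Finset.mem_filter, Finset.mem_powerset] at hR ⊢
      exact ⟨Finset.image_subset_image hR.1, (hind R hR.1).2 hR.2⟩
    · intro R hR R' hR' h
      rw [Finset.mem_filter, Finset.mem_powerset] at hR hR'
      exact Finset.Subset.antisymm ((hsub R hR.1 R' hR'.1).1 (le_of_eq h))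
        ((hsub R' hR'.1 R hR.1).1 (le_of_eq h.symm))
    · intro R' hR'
      rw [Finset.mem_filter, Finset.mem_powerset] at hR'
      have h2 : ((vx H).filter (fun x => f x ∈ R')).image f = R' := by
        ext y
        rw [Finset.mem_image]
        constructor
        · rintro ⟨x, hx, rfl⟩
          exact (Finset.mem_filter.1 hx).2
        · intro hy
          obtain ⟨x, hx, rfl⟩ := Finset.mem_image.1 (hR'.1 hy)
          exact ⟨x, Finset.mem_filter.2 ⟨hx, hy⟩, rfl⟩
      refine ⟨(vx H).filter (fun x => f x ∈ R'), ?_, h2⟩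
      rw [Finset.mem_filter, Finset.mem_powerset]
      refine ⟨Finset.filter_subset _ _, ?_⟩
      rw [← hind _ (Finset.filter_subset _ _), h2]
      exact hR'.2
  rw [h1]

end Pool.Agent.IDX
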