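import Pool.Agent.IDX.B3

/-! Row IDX-B4a: links, conditioning -/

open Finset

namespace Pool.Agent.IDX

theorem vx_lk_subset (H : HG) (T S : Finset ℕ) : vx (lk H T S) ⊆ vx H \ T := by
  intro v hv
  obtain ⟨e', he', hve'⟩ := mem_vx.1 hv
  unfold lk at he'
  obtain ⟨e, he, rfl⟩ := Finset.mem_image.1 he'
  rw [Finset.mem_sdiff] at hve' ⊢
  exact ⟨mem_vx.2 ⟨e, (Finset.mem_filter.1 he).1, hve'.1⟩, hve'.2⟩

/-- `S ∪ R` is independent iff `R` is independent in the link of `S`. -/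
theorem ind_lk {H : HG} {T S R : Finset ℕ} (hS : S ⊆ T) (hR : Disjoint R T) :
    Ind (lk H T S) R ↔ Ind H (S ∪ R) := by
  constructor
  · intro h e he hs
    have h1 : e ∩ T ⊆ S := by
      intro x hx
      rw [Finset.mem_inter] at hx
      rcases Finset.mem_union.1 (hs hx.1) with h2 | h2
      · exact h2
      · exact absurd hx.2 (Finset.disjoint_left.1 hR h2)
    refine h (e \ T) (Finset.mem_image.2 ⟨e, Finset.mem_filter.2 ⟨he, h1⟩, rfl⟩) fun x hx => ?_
    rw [Finset.mem_sdiff] at hx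
    rcases Finset.mem_union.1 (hs hx.1) with h2 | h2
    · exact absurd (hS h2) hx.2
    · exact h2
  · intro h e' he' hs
    unfold lk at he'
    obtain ⟨e, he, rfl⟩ := Finset.mem_image.1 he'
    rw [Finset.mem_filter] at he
    refine h e he.1 fun x hx => ?_
    by_cases hxT : x ∈ T
    · exact Finset.mem_union_left _ (he.2 (Finset.mem_inter.2 ⟨hx, hxT⟩))
    · exact Finset.mem_union_right _ (hs (Finset.mem_sdiff.2 ⟨hx, hxT⟩))

theorem B4a_pr {H : HG} {U T S : Finset ℕ} (hU : vx H ⊆ U) (hS : S ⊆ T) :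
    pr (U \ T) (fun R => Ind H (S ∪ R)) = dn (lk H T S) := by
  have h1 : vx (lk H T S) ⊆ U \ T :=
    (vx_lk_subset H T S).trans (Finset.sdiff_subset_sdiff hU (Finset.Subset.refl _))
  rw [dn_eq h1]
  exact pr_congr fun R hR => (ind_lk hS (Finset.disjoint_left.2 fun x hx =>
    (Finset.mem_sdiff.1 (hR hx)).2)).symm

theorem dn_cond (H : HG) (T : Finset ℕ) :
    dn H = (∑ S ∈ T.powerset, dn (lk H T S)) / 2 ^ T.card := by
  rw [dn_eq (U := vx H ∪ T) Finset.subset_union_left, pr_split (T := T) Finset.subset_union_right]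
  rw [Finset.sum_congr rfl fun S hS =>
    B4a_pr (T := T) (Finset.subset_union_left : vx H ⊆ vx H ∪ T) (Finset.mem_powerset.1 hS)]

theorem pr_cond {H : HG} {U T S : Finset ℕ} (hU : vx H ⊆ U) (hT : T ⊆ U) (hS : S ⊆ T) :
    pr U (fun R => Ind H R ∧ R ∩ T = S) = dn (lk H T S) / 2 ^ T.card := by
  have key : ∀ S' ⊆ T, ∀ R ⊆ U \ T, (S' ∪ R) ∩ T = S' := by
    intro S' hS' R hR
    ext x
    rw [Finset.mem_inter, Finset.mem_union]
    constructor
    · rintro ⟨hx | hx, hxT⟩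
      · exact hx
      · exact absurd hxT (Finset.mem_sdiff.1 (hR hx)).2
    · exact fun hx => ⟨Or.inl hx, hS' hx⟩
  rw [pr_split hT, Finset.sum_eq_single S]
  · have h1 : pr (U \ T) (fun R => Ind H (S ∪ R) ∧ (S ∪ R) ∩ T = S) =
        pr (U \ T) (fun R => Ind H (S ∪ R)) :=
      pr_congr fun R hR => ⟨fun h => h.1, fun h => ⟨h, key S hS R hR⟩⟩
    rw [h1, B4a_pr hU hS]
  · intro S' hS' hne
    have h1 : pr (U \ T) (fun R => Ind H (S' ∪ R) ∧ (S' ∪ R) ∩ T = S) =
        pr (U \ T) (fun R => ¬ True) :=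
      pr_congr fun R hR => ⟨fun h => absurd ((key S' (Finset.mem_powerset.1 hS') R hR).symm.trans h.2)
        hne, fun h => absurd trivial h⟩
    rw [h1, pr_not, pr_true, sub_self]
  · intro h
    exact absurd (Finset.mem_powerset.2 hS) h

end Pool.Agent.IDX
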