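import Pool.Agent.IDX.B4

/-! Row IDX-B5: the core formula.  If every edge has at most one vertex outside `Γ` then for
`S ⊆ Γ` independent the conditional probability of independence is `2^{-|kill S|}`. -/

open Finset

namespace Pool.Agent.IDX

theorem B5_disj (H : HG) (Γ S : Finset ℕ) : Disjoint Γ (kill H Γ S) := by
  rw [Finset.disjoint_left]
  intro z hz hz'
  exact (Finset.mem_sdiff.1 (Finset.mem_filter.1 hz').1).2 hz

theorem B5_ind {H : HG} {Γ S R : Finset ℕ} (hΓ : ∀ e ∈ H, (e \ Γ).card ≤ 1)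
    (hS : Ind H S) (hRS : R ∩ Γ = S) : Ind H R ↔ R ∩ kill H Γ S = ∅ := by
  constructor
  · intro hR
    rw [Finset.eq_empty_iff_forall_notMem]
    intro z hz
    obtain ⟨hzR, hzk⟩ := Finset.mem_inter.1 hz
    obtain ⟨_, e, he, _, hes⟩ := Finset.mem_filter.1 hzk
    refine hR e he (fun x hx => ?_)
    rcases Finset.mem_insert.1 (hes hx) with h1 | h1
    · rw [h1]
      exact hzR
    · rw [← hRS] at h1
      exact (Finset.mem_inter.1 h1).1
  · intro hR e he heR
    have h1 := hΓ e he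
    rcases Finset.eq_empty_or_nonempty (e \ Γ) with h2 | ⟨z, hz⟩
    · refine hS e he (fun x hx => ?_)
      rw [← hRS]
      refine Finset.mem_inter.2 ⟨heR hx, ?_⟩
      exact Finset.sdiff_eq_empty_iff_subset.1 h2 hx
    · obtain ⟨hze, hzΓ⟩ := Finset.mem_sdiff.1 hz
      have hzk : z ∈ kill H Γ S := by
        refine Finset.mem_filter.2 ⟨Finset.mem_sdiff.2 ⟨subset_vx he hze, hzΓ⟩, e, he, hze, ?_⟩
        intro x hx
        by_cases hxΓ : x ∈ Γ
        · refine Finset.mem_insert_of_mem ?_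
          rw [← hRS]
          exact Finset.mem_inter.2 ⟨heR hx, hxΓ⟩
        · have h3 : x = z := Finset.card_le_one.1 h1 x (Finset.mem_sdiff.2 ⟨hx, hxΓ⟩) z hz
          rw [h3]
          exact Finset.mem_insert_self z S
      have h4 : z ∈ R ∩ kill H Γ S := Finset.mem_inter.2 ⟨heR hze, hzk⟩
      rw [hR] at h4
      exact absurd h4 (Finset.notMem_empty z)

theorem B5_one {H : HG} {Γ U S : Finset ℕ} (hΓ : ∀ e ∈ H, (e \ Γ).card ≤ 1) (hU : vx H ⊆ U)
    (hΓU : Γ ⊆ U) (hSΓ : S ⊆ Γ) (hS : Ind H S) :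
    pr U (fun R => Ind H R ∧ R ∩ Γ = S) = 1 / 2 ^ (Γ.card + (kill H Γ S).card) := by
  have hW : Γ ∪ kill H Γ S ⊆ U := by
    refine Finset.union_subset hΓU (fun z hz => hU ?_)
    exact (Finset.mem_sdiff.1 (Finset.mem_filter.1 hz).1).1
  have h1 : pr U (fun R => Ind H R ∧ R ∩ Γ = S) = pr U (fun R => R ∩ (Γ ∪ kill H Γ S) = S) := by
    refine pr_congr (fun R _ => ?_)
    constructor
    · rintro ⟨h2, h3⟩
      rw [Finset.inter_union_distrib_left, h3, (B5_ind hΓ hS h3).1 h2, Finset.union_empty]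
    · intro h2
      have h3 : R ∩ Γ = S := by
        ext x
        constructor
        · intro hx
          obtain ⟨h4, h5⟩ := Finset.mem_inter.1 hx
          rw [← h2]
          exact Finset.mem_inter.2 ⟨h4, Finset.mem_union_left _ h5⟩
        · intro hx
          have h4 := hx
          rw [← h2] at h4
          exact Finset.mem_inter.2 ⟨(Finset.mem_inter.1 h4).1, hSΓ hx⟩
      refine ⟨(B5_ind hΓ hS h3).2 ?_, h3⟩
      rw [Finset.eq_empty_iff_forall_notMem]
      intro z hz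
      obtain ⟨h4, h5⟩ := Finset.mem_inter.1 hz
      have h6 : z ∈ R ∩ (Γ ∪ kill H Γ S) := Finset.mem_inter.2 ⟨h4, Finset.mem_union_right _ h5⟩
      rw [h2] at h6
      exact Finset.disjoint_left.1 (B5_disj H Γ S) (hSΓ h6) h5
  rw [h1, pr_extend hW (fun R => R = S), pr_eq_singleton (hSΓ.trans Finset.subset_union_left),
    Finset.card_union_of_disjoint (B5_disj H Γ S)]

theorem B5_ind_inter {H : HG} {R X : Finset ℕ} (h : Ind H R) : Ind H (R ∩ X) :=
  fun e he hs => h e he (hs.trans Finset.inter_subset_left)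

open Classical in
theorem core {H : HG} {Γ U : Finset ℕ} (hΓ : ∀ e ∈ H, (e \ Γ).card ≤ 1) (hU : vx H ⊆ U)
    (hΓU : Γ ⊆ U) (q : Finset ℕ → Prop) :
    pr U (fun R => Ind H R ∧ q (R ∩ Γ)) =
      ∑ S ∈ Γ.powerset.filter (fun S => Ind H S ∧ q S),
        (1 : ℝ) / 2 ^ (Γ.card + (kill H Γ S).card) := by
  rw [pr_fiber U (fun R => Ind H R ∧ q (R ∩ Γ)) (fun R => R ∩ Γ)
    (Γ.powerset.filter (fun S => Ind H S ∧ q S)) (by
      rintro R _ ⟨h1, h2⟩
      exact Finset.mem_filter.2 ⟨Finset.mem_powerset.2 Finset.inter_subset_right,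
        B5_ind_inter h1, h2⟩)]
  refine Finset.sum_congr rfl (fun S hS => ?_)
  obtain ⟨h1, h2, h3⟩ := Finset.mem_filter.1 hS
  rw [← B5_one hΓ hU hΓU (Finset.mem_powerset.1 h1) h2]
  refine pr_congr (fun R _ => ?_)
  constructor
  · rintro ⟨⟨h4, _⟩, h5⟩
    exact ⟨h4, h5⟩
  · rintro ⟨h4, h5⟩
    refine ⟨⟨h4, ?_⟩, h5⟩
    rw [h5]
    exact h3

theorem core_dn {H : HG} {Γ : Finset ℕ} (hΓ : ∀ e ∈ H, (e \ Γ).card ≤ 1) :
    dn H = ∑ S ∈ Γ.powerset.filter (fun S => Ind H S),
        (1 : ℝ) / 2 ^ (Γ.card + (kill H Γ S).card) := by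
  classical
  have h1 : dn H = pr (vx H ∪ Γ) (fun R => Ind H R ∧ (fun _ : Finset ℕ => True) (R ∩ Γ)) := by
    rw [dn_eq (Finset.subset_union_left (s₁ := vx H) (s₂ := Γ))]
    exact pr_congr (fun R _ => ⟨fun h => ⟨h, trivial⟩, fun h => h.1⟩)
  refine (h1.trans (core hΓ Finset.subset_union_left Finset.subset_union_right
    (fun _ => True))).trans ?_
  refine Finset.sum_congr ?_ (fun _ _ => rfl)
  ext S
  simp only [Finset.mem_filter, and_true]

/-- The difference of two densities: `T0` contains all vertices of `K`, all edges of `F` contain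
edges of `K` and have at most one vertex outside `T0`. -/
theorem core_diff {F K : HG} {T0 : Finset ℕ} (hT : vx K ⊆ T0) (hF : ∀ e ∈ F, (e \ T0).card ≤ 1)
    (hUp : Up F K) :
    dn F - dn K = ∑ S ∈ T0.powerset.filter (fun S => Ind F S ∧ ¬ Ind K S),
        (1 : ℝ) / 2 ^ (T0.card + (kill F T0 S).card) := by
  classical
  have hK : ∀ R : Finset ℕ, Ind K R ↔ Ind K (R ∩ T0) := by
    intro R
    refine ⟨B5_ind_inter, fun h e he hs => h e he ?_⟩
    exact Finset.subset_inter hs ((subset_vx he).trans hT)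
  have h1 : dn F = dn K + pr (vx F ∪ T0) (fun R => Ind F R ∧ (fun S => ¬ Ind K S) (R ∩ T0)) := by
    rw [dn_eq (Finset.subset_union_left (s₁ := vx F) (s₂ := T0)),
      dn_eq (hT.trans (Finset.subset_union_right (s₁ := vx F) (s₂ := T0))),
      ← pr_add_of_disjoint (fun R _ h => h.2.2 ((hK R).1 h.1))]
    refine pr_congr (fun R _ => ?_)
    constructor
    · intro h
      by_cases h2 : Ind K (R ∩ T0)
      · exact Or.inl ((hK R).2 h2)
      · exact Or.inr ⟨h, h2⟩
    · rintro (h | h)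
      · exact ind_of_up hUp h
      · exact h.1
  rw [h1, add_sub_cancel_left]
  refine (core hF Finset.subset_union_left Finset.subset_union_right
    (fun S => ¬ Ind K S)).trans ?_
  refine Finset.sum_congr ?_ (fun _ _ => rfl)
  ext S
  simp only [Finset.mem_filter]

end Pool.Agent.IDX
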