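import Pool.Agent.IDX.B6a

/-! Row IDX-B6b: covers of graphs, big stars -/

open Finset

namespace Pool.Agent.IDX

/-- A graph with density at least `2^{-q}` has a vertex cover with at most `6 q + 6` vertices. -/
theorem graph_cover {G : HG} {q : ℕ} (hG : ∀ e ∈ G, e.card = 2) (hq : (1 : ℝ) / 2 ^ q ≤ dn G) :
    ∃ T : Finset ℕ, T.card ≤ 6 * q + 6 ∧ ∀ e ∈ G, (e \ T).card ≤ 1 := by
  classical
  obtain ⟨M, hM, hd, hc, hcov⟩ := exists_cover G (k := 2) (fun e he => (hG e he).le)
    (fun e he => Finset.card_pos.1 (by rw [hG e he]; norm_num))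
  have hb := match_bound (k := 2) hM hd (fun e he => (hG e (hM he)).le)
  refine ⟨vx M, ?_, ?_⟩
  · have hMc : M.card ≤ 3 * q + 3 := by
      by_contra hcon
      push Not at hcon
      have h1 : ((1 : ℝ) - 1 / 2 ^ 2) ^ M.card ≤ (1 - 1 / 2 ^ 2) ^ (3 * (q + 1)) := by
        apply pow_le_pow_of_le_one (by norm_num) (by norm_num)
        omega
      have h2 : ((1 : ℝ) - 1 / 2 ^ 2) ^ (3 * (q + 1)) ≤ (1 / 2) ^ (q + 1) := by
        rw [pow_mul]
        apply pow_le_pow_left₀ (by norm_num)
        norm_num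
      have h3 : (1 : ℝ) / 2 ^ q ≤ (1 / 2) ^ (q + 1) := by linarith
      rw [one_div_pow, pow_succ] at h3
      have h4 : (0 : ℝ) < 2 ^ q := by positivity
      rw [div_le_div_iff₀ (by positivity) (by positivity)] at h3
      linarith
    omega
  · intro e he
    have h1 := hcov e he
    rw [Finset.not_disjoint_iff] at h1
    obtain ⟨x, hx, hx'⟩ := h1
    have h2 : e \ vx M ⊆ e.erase x := by
      intro y hy
      rw [Finset.mem_sdiff] at hy
      rw [Finset.mem_erase]
      refine ⟨?_, hy.1⟩
      rintro rfl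
      exact hy.2 hx'
    have h3 := Finset.card_le_card h2
    rw [Finset.card_erase_of_mem hx, hG e he] at h3
    omega

/-- Big stars: if each `v ∈ L` is joined (by 2-edges) to a set `M v` of at least `b` vertices then
the density is at most `2^{-|L|} + |L| 2^{-b}`. -/
theorem bigstar {H : HG} {L : Finset ℕ} (M : ℕ → Finset ℕ) {b : ℕ}
    (hM : ∀ v ∈ L, b ≤ (M v).card) (hE : ∀ v ∈ L, ∀ z ∈ M v, {v, z} ∈ H) :
    dn H ≤ 1 / 2 ^ L.card + L.card / 2 ^ b := by
  classical
  set U : Finset ℕ := vx H ∪ L with hU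
  have hL : L ⊆ U := Finset.subset_union_right
  have hMU : ∀ v ∈ L, M v ⊆ U := by
    intro v hv z hz
    rw [hU, Finset.mem_union]
    left
    rw [mem_vx]
    exact ⟨{v, z}, hE v hv z hz, by simp⟩
  have hunion : ∀ (L' : Finset ℕ), L' ⊆ L →
      pr U (fun R => ∃ v ∈ L', R ∩ M v = ∅) ≤ L'.card / 2 ^ b := by
    intro L'
    induction L' using Finset.induction_on with
    | empty =>
      intro _
      have h1 : pr U (fun R => ∃ v ∈ (∅ : Finset ℕ), R ∩ M v = ∅) = pr U (fun R => ¬ True) := by
        apply pr_congr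
        intro R _
        simp
      rw [h1, pr_not, pr_true]
      simp
    | insert a s ha ih =>
      intro hsub
      have h1 : pr U (fun R => ∃ v ∈ insert a s, R ∩ M v = ∅) =
          pr U (fun R => R ∩ M a = ∅ ∨ ∃ v ∈ s, R ∩ M v = ∅) := by
        apply pr_congr
        intro R _
        simp
      rw [h1]
      have h2 := pr_or_le U (fun R => R ∩ M a = ∅) (fun R => ∃ v ∈ s, R ∩ M v = ∅)
      have h3 := ih (fun x hx => hsub (Finset.mem_insert_of_mem hx))
      have haL : a ∈ L := hsub (Finset.mem_insert_self _ _)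
      have h4 := pr_inter_empty (hMU a haL)
      have h5 : (1 : ℝ) / 2 ^ (M a).card ≤ 1 / 2 ^ b := by
        apply one_div_le_one_div_of_le (by positivity)
        exact pow_le_pow_right₀ (by norm_num) (hM a haL)
      rw [Finset.card_insert_of_notMem ha]
      push_cast
      rw [add_div]
      linarith
  have h1 : dn H = pr U (Ind H) := dn_eq Finset.subset_union_left
  have h2 : pr U (Ind H) ≤ pr U (fun R => R ∩ L = ∅ ∨ ∃ v ∈ L, R ∩ M v = ∅) := by
    apply pr_mono
    intro R _ hR
    by_cases h : R ∩ L = ∅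
    · exact Or.inl h
    · right
      obtain ⟨v, hv⟩ := Finset.nonempty_iff_ne_empty.2 h
      rw [Finset.mem_inter] at hv
      refine ⟨v, hv.2, ?_⟩
      by_contra hcon
      obtain ⟨z, hz⟩ := Finset.nonempty_iff_ne_empty.2 hcon
      rw [Finset.mem_inter] at hz
      apply hR _ (hE v hv.2 z hz.2)
      intro x hx
      rw [Finset.mem_insert, Finset.mem_singleton] at hx
      rcases hx with rfl | rfl
      · exact hv.1
      · exact hz.1
  have h3 := pr_or_le U (fun R => R ∩ L = ∅) (fun R => ∃ v ∈ L, R ∩ M v = ∅)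
  have h4 := pr_inter_empty hL
  have h5 := hunion L (Finset.Subset.refl L)
  rw [h1]
  linarith

end Pool.Agent.IDX
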