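import Pool.Agent.IDX.B4

/-! Row IDX-B6a: matchings and covers -/

open Finset

namespace Pool.Agent.IDX

theorem B6a_single (e : Finset ℕ) : dn {e} = 1 - 1 / 2 ^ e.card := by
  have hv : vx ({e} : HG) ⊆ e := by
    intro x hx
    obtain ⟨f, hf, hxf⟩ := mem_vx.1 hx
    rw [Finset.mem_singleton.1 hf] at hxf
    exact hxf
  rw [dn_eq hv, ← pr_eq_singleton (Finset.Subset.refl e), ← pr_not]
  refine pr_congr (fun R hR => ?_)
  constructor
  · intro h h1
    refine h e (Finset.mem_singleton_self e) ?_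
    rw [h1]
  · intro h f hf hfR
    rw [Finset.mem_singleton.1 hf] at hfR
    exact h (Finset.Subset.antisymm hR hfR)

theorem B6a_insert {M : HG} {e : Finset ℕ} (hd : ∀ f ∈ M, Disjoint e f) :
    dn (insert e M) = dn {e} * dn M := by
  have hde : Disjoint e (vx M) := by
    rw [Finset.disjoint_left]
    intro x hx hx'
    obtain ⟨f, hf, hxf⟩ := mem_vx.1 hx'
    exact Finset.disjoint_left.1 (hd f hf) hx hxf
  have hv : vx ({e} : HG) ⊆ e := by
    intro x hx
    obtain ⟨f, hf, hxf⟩ := mem_vx.1 hx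
    rw [Finset.mem_singleton.1 hf] at hxf
    exact hxf
  have hU : vx (insert e M) ⊆ e ∪ vx M := by
    intro x hx
    obtain ⟨f, hf, hxf⟩ := mem_vx.1 hx
    rcases Finset.mem_insert.1 hf with h1 | h1
    · rw [h1] at hxf
      exact Finset.mem_union_left _ hxf
    · exact Finset.mem_union_right _ (mem_vx.2 ⟨f, h1, hxf⟩)
  rw [dn_eq hU, dn_eq hv, dn_eq (Finset.Subset.refl (vx M)), ← pr_mul hde]
  refine pr_congr (fun R _ => ?_)
  constructor
  · intro h
    refine ⟨fun f hf hs => ?_, fun f hf hs => ?_⟩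
    · rw [Finset.mem_singleton.1 hf] at hs
      exact h e (Finset.mem_insert_self e M) (hs.trans Finset.inter_subset_left)
    · exact h f (Finset.mem_insert_of_mem hf) (hs.trans Finset.inter_subset_left)
  · rintro ⟨h1, h2⟩ f hf hs
    rcases Finset.mem_insert.1 hf with h3 | h3
    · rw [h3] at hs
      exact h1 e (Finset.mem_singleton_self e) (Finset.subset_inter hs (Finset.Subset.refl e))
    · exact h2 f h3 (Finset.subset_inter hs (subset_vx h3))

theorem B6a_match {k : ℕ} (M : HG) : (∀ e ∈ M, ∀ f ∈ M, e ≠ f → Disjoint e f) →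
    (∀ e ∈ M, e.card ≤ k) → dn M ≤ (1 - 1 / 2 ^ k) ^ M.card := by
  classical
  induction M using Finset.induction_on with
  | empty =>
    intro _ _
    rw [Finset.card_empty, pow_zero]
    exact dn_le_one _
  | @insert e M he ih =>
    intro hd hk
    have h1 : ∀ f ∈ M, Disjoint e f := by
      intro f hf
      refine hd e (Finset.mem_insert_self e M) f (Finset.mem_insert_of_mem hf) ?_
      rintro rfl
      exact he hf
    rw [B6a_insert h1, Finset.card_insert_of_notMem he, pow_succ, mul_comm, B6a_single]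
    have h2 : (1 : ℝ) / 2 ^ k ≤ 1 / 2 ^ e.card :=
      one_div_le_one_div_of_le (by positivity)
        (pow_le_pow_right₀ one_le_two (hk e (Finset.mem_insert_self e M)))
    have h3 : (1 : ℝ) / 2 ^ k ≤ 1 := by
      rw [div_le_one (by positivity)]
      exact one_le_pow₀ one_le_two
    have h4 : (1 : ℝ) / 2 ^ e.card ≤ 1 := by
      rw [div_le_one (by positivity)]
      exact one_le_pow₀ one_le_two
    have h5 := ih (fun a ha b hb => hd a (Finset.mem_insert_of_mem ha) b (Finset.mem_insert_of_mem hb))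
      (fun a ha => hk a (Finset.mem_insert_of_mem ha))
    refine mul_le_mul h5 (by linarith) (by linarith) ?_
    exact pow_nonneg (by linarith) _

/-- Disjoint edges: the density is at most `(1 - 2^{-k})^ν`. -/
theorem match_bound {H M : HG} {k : ℕ} (hM : M ⊆ H)
    (hd : ∀ e ∈ M, ∀ f ∈ M, e ≠ f → Disjoint e f) (hk : ∀ e ∈ M, e.card ≤ k) :
    dn H ≤ (1 - 1 / 2 ^ k) ^ M.card :=
  (dn_mono (up_of_subset hM)).trans (B6a_match M hd hk)

/-- A maximal matching gives a cover. -/
theorem exists_cover (H : HG) {k : ℕ} (hk : ∀ e ∈ H, e.card ≤ k) (h0 : ∀ e ∈ H, e.Nonempty) :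
    ∃ M ⊆ H, (∀ e ∈ M, ∀ f ∈ M, e ≠ f → Disjoint e f) ∧ (vx M).card ≤ k * M.card ∧
      ∀ e ∈ H, ¬ Disjoint e (vx M) := by
  classical
  obtain ⟨M, hM, hmax⟩ := Finset.exists_max_image
    (H.powerset.filter (fun M => ∀ e ∈ M, ∀ f ∈ M, e ≠ f → Disjoint e f)) Finset.card
    ⟨∅, Finset.mem_filter.2 ⟨Finset.mem_powerset.2 (Finset.empty_subset H), by simp⟩⟩
  obtain ⟨hMH, hd⟩ := Finset.mem_filter.1 hM
  rw [Finset.mem_powerset] at hMH
  refine ⟨M, hMH, hd, ?_, ?_⟩
  · have h1 : vx M = M.biUnion id := Finset.sup_eq_biUnion M id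
    rw [h1]
    refine Finset.card_biUnion_le.trans ?_
    refine (Finset.sum_le_card_nsmul M _ k (fun e he => hk e (hMH he))).trans ?_
    rw [smul_eq_mul, mul_comm]
  · intro e he hdis
    have heM : e ∉ M := by
      intro heM
      obtain ⟨x, hx⟩ := h0 e he
      exact Finset.disjoint_left.1 hdis hx (subset_vx heM hx)
    have h1 : insert e M ∈ H.powerset.filter
        (fun M => ∀ e ∈ M, ∀ f ∈ M, e ≠ f → Disjoint e f) := by
      refine Finset.mem_filter.2 ⟨Finset.mem_powerset.2 (Finset.insert_subset he hMH), ?_⟩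
      have h2 : ∀ f ∈ M, Disjoint e f := fun f hf => hdis.mono_right (subset_vx hf)
      intro a ha b hb hab
      rcases Finset.mem_insert.1 ha with h3 | h3
      · rcases Finset.mem_insert.1 hb with h4 | h4
        · exact absurd (h3.trans h4.symm) hab
        · rw [h3]
          exact h2 b h4
      · rcases Finset.mem_insert.1 hb with h4 | h4
        · rw [h4]
          exact (h2 a h3).symm
        · exact hd a h3 b h4 hab
    have h2 := hmax _ h1
    rw [Finset.card_insert_of_notMem heM] at h2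
    omega

end Pool.Agent.IDX
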