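import Pool.Agent.IDX.B6

/-! The compactness theorem (CT), statement of the step. -/

open Finset Filter Topology

namespace Pool.Agent.IDX

/-- The conclusion of the compactness theorem for a coloured sequence `H j c` with edges of size at
most `k` avoiding the finite sets `X j`. -/
def CTConc (k : ℕ) {C : Type} [DecidableEq C] (H : ℕ → C → HG) (X : ℕ → Finset ℕ) : Prop :=
  ∃ (θ : ℕ → ℕ) (t : ℕ) (K : C → HG) (i : ℕ → ℕ → ℕ), StrictMono θ ∧
    (∀ c, ∀ f ∈ K c, f ⊆ range t ∧ f.card ≤ k) ∧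
    (∀ j, Set.InjOn (i j) (range t : Set ℕ)) ∧ (∀ j, ∀ x < t, i j x ∉ X (θ j)) ∧
    (∀ j c, Up (H (θ j) c) ((K c).image (Finset.image (i j)))) ∧
    ∀ I : Finset C, Tendsto (fun j => dn (I.biUnion (H (θ j)))) atTop (𝓝 (dn (I.biUnion K)))

/-- The compactness theorem for edges of size at most `k`. -/
def CT (k : ℕ) : Prop :=
  ∀ (C : Type) [Fintype C] [DecidableEq C] (H : ℕ → C → HG) (X : ℕ → Finset ℕ),
    (∀ j c, ∀ e ∈ H j c, e.card ≤ k) → (∀ j c, ∀ e ∈ H j c, Disjoint e (X j)) → CTConc k H X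

end Pool.Agent.IDX
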