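import Pool.Agent.IDX.C0

/-! Row IDX-C1b: conditioning and gluing -/

open Finset Filter Topology

namespace Pool.Agent.IDX

/-- Conditioning on a set `T = i '' (range t)` meeting all edges of the hypergraphs
`L c` (`c ∈ I`): the density is the average over `S ⊆ range t` of the densities of the unions of
the coloured links `{e \ T : e ∈ L c, e ∩ T = i '' Q}`, `∅ ≠ Q ⊆ S`. -/
theorem ct_cond {C : Type} [DecidableEq C] (L : C → HG) (i : ℕ → ℕ) (t : ℕ)
    (hi : Set.InjOn i (range t : Set ℕ)) (I : Finset C)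
    (hmeet : ∀ c ∈ I, ∀ e ∈ L c, ¬ Disjoint e ((range t).image i)) :
    dn (I.biUnion L) = (∑ S ∈ (range t).powerset,
      dn ((I ×ˢ (S.powerset.erase ∅)).biUnion (fun p =>
        ((L p.1).filter (fun e => e ∩ (range t).image i = p.2.image i)).image
          (fun e => e \ (range t).image i)))) / 2 ^ t := by
  classical
  have hinj : ∀ {a b : ℕ}, a ∈ range t → b ∈ range t → i a = i b → a = b :=
    fun ha hb h => hi (mem_coe.2 ha) (mem_coe.2 hb) h
  have hcard : ((range t).image i).card = t := by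
    rw [card_image_of_injOn hi, card_range]
  rw [dn_cond (I.biUnion L) ((range t).image i), hcard]
  congr 1
  symm
  refine sum_bij (fun S _ => S.image i) ?_ ?_ ?_ ?_
  · intro S hS
    exact mem_powerset.2 (image_subset_image (mem_powerset.1 hS))
  · intro S hS S' hS' h
    rw [mem_powerset] at hS hS'
    have h' : S.image i = S'.image i := h
    ext x
    constructor
    · intro hx
      have h1 : i x ∈ S'.image i := h' ▸ mem_image_of_mem i hx
      obtain ⟨y, hy, hxy⟩ := mem_image.1 h1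
      rw [← hinj (hS' hy) (hS hx) hxy]; exact hy
    · intro hx
      have h1 : i x ∈ S.image i := h'.symm ▸ mem_image_of_mem i hx
      obtain ⟨y, hy, hxy⟩ := mem_image.1 h1
      rw [← hinj (hS hy) (hS' hx) hxy]; exact hy
  · intro S' hS'
    rw [mem_powerset] at hS'
    refine ⟨(range t).filter (fun x => i x ∈ S'), mem_powerset.2 (filter_subset _ _), ?_⟩
    ext y
    constructor
    · intro hy
      obtain ⟨x, hx, rfl⟩ := mem_image.1 hy
      exact (mem_filter.1 hx).2
    · intro hy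
      obtain ⟨x, hx, rfl⟩ := mem_image.1 (hS' hy)
      exact mem_image_of_mem i (mem_filter.2 ⟨hx, hy⟩)
  · intro S hS
    rw [mem_powerset] at hS
    congr 1
    ext g
    simp only [mem_biUnion, mem_product, mem_erase, mem_powerset, mem_image, mem_filter, lk]
    constructor
    · rintro ⟨⟨c, Q⟩, ⟨hc, hQ0, hQS⟩, e, ⟨he, heT⟩, rfl⟩
      refine ⟨e, ⟨⟨c, hc, he⟩, ?_⟩, rfl⟩
      rw [heT]
      exact image_subset_image hQS
    · rintro ⟨e, ⟨⟨c, hc, he⟩, heS⟩, rfl⟩
      refine ⟨(c, S.filter (fun x => i x ∈ e)), ⟨hc, ?_, filter_subset _ _⟩, e, ⟨he, ?_⟩, rfl⟩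
      · intro h0
        obtain ⟨y, hye, hyT⟩ := not_disjoint_iff.1 (hmeet c hc e he)
        have h1 : y ∈ S.image i := heS (mem_inter.2 ⟨hye, hyT⟩)
        obtain ⟨x, hx, rfl⟩ := mem_image.1 h1
        have h2 : x ∈ S.filter (fun x => i x ∈ e) := mem_filter.2 ⟨hx, hye⟩
        have h0' : S.filter (fun x => i x ∈ e) = ∅ := h0
        rw [h0'] at h2
        exact absurd h2 (notMem_empty x)
      · ext y
        constructor
        · intro hy
          have h1 : y ∈ S.image i := heS hy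
          obtain ⟨x, hx, rfl⟩ := mem_image.1 h1
          exact mem_image_of_mem i (mem_filter.2 ⟨hx, (mem_inter.1 hy).1⟩)
        · intro hy
          obtain ⟨x, hx, rfl⟩ := mem_image.1 hy
          obtain ⟨hxS, hxe⟩ := mem_filter.1 hx
          exact mem_inter.2 ⟨hxe, mem_image_of_mem i (hS hxS)⟩

/-- The same for the glued kernel: `K' (c, Q)` on `range t'`, glued hypergraph
`{Q ∪ (t + f) : f ∈ K' (c, Q)}` on `range (t + t')`. -/
theorem ct_glue {C : Type} [DecidableEq C] (K' : C × Finset ℕ → HG) (t t' : ℕ)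
    (hK : ∀ p, ∀ f ∈ K' p, f ⊆ range t') (I : Finset C) :
    dn (I.biUnion (fun c => ((range t).powerset.erase ∅).biUnion (fun Q =>
      (K' (c, Q)).image (fun f => Q ∪ f.image (fun x => t + x))))) =
      (∑ S ∈ (range t).powerset, dn ((I ×ˢ (S.powerset.erase ∅)).biUnion K')) / 2 ^ t := by
  classical
  rw [dn_cond _ (range t), card_range]
  congr 1
  refine sum_congr rfl (fun S hS => ?_)
  rw [mem_powerset] at hS
  have hinj : Set.InjOn (fun x => t + x)
      (vx ((I ×ˢ (S.powerset.erase ∅)).biUnion K') : Set ℕ) :=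
    fun a _ b _ h => Nat.add_left_cancel h
  rw [← dn_image hinj]
  congr 1
  have hdj : ∀ Q ⊆ range t, ∀ f : Finset ℕ,
      (Q ∪ f.image (fun x => t + x)) ∩ range t = Q ∧
      (Q ∪ f.image (fun x => t + x)) \ range t = f.image (fun x => t + x) := by
    intro Q hQ f
    have h1 : ∀ x ∈ f.image (fun x => t + x), x ∉ range t := by
      intro x hx
      obtain ⟨y, _, rfl⟩ := mem_image.1 hx
      rw [mem_range]; omega
    constructor
    · ext x
      rw [mem_inter, mem_union]
      constructor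
      · rintro ⟨h | h, h2⟩
        · exact h
        · exact absurd h2 (h1 x h)
      · intro h; exact ⟨Or.inl h, hQ h⟩
    · ext x
      rw [Finset.mem_sdiff, Finset.mem_union]
      constructor
      · rintro ⟨h | h, h2⟩
        · exact absurd (hQ h) h2
        · exact h
      · intro h; exact ⟨Or.inr h, h1 x h⟩
  ext g
  simp only [mem_biUnion, mem_product, mem_erase, mem_powerset, mem_image, mem_filter, lk]
  constructor
  · rintro ⟨e, ⟨⟨c, hc, Q, ⟨hQ0, hQt⟩, f, hf, rfl⟩, heS⟩, rfl⟩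
    obtain ⟨e1, e2⟩ := hdj Q hQt f
    rw [e1] at heS
    exact ⟨f, ⟨(c, Q), ⟨hc, hQ0, heS⟩, hf⟩, e2.symm⟩
  · rintro ⟨f, ⟨⟨c, Q⟩, ⟨hc, hQ0, hQS⟩, hf⟩, rfl⟩
    obtain ⟨e1, e2⟩ := hdj Q (hQS.trans hS) f
    exact ⟨Q ∪ f.image (fun x => t + x),
      ⟨⟨c, hc, Q, ⟨hQ0, hQS.trans hS⟩, f, hf, rfl⟩, by rw [e1]; exact hQS⟩, e2⟩

end Pool.Agent.IDX
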