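import Pool.Agent.IDX.C1a
import Pool.Agent.IDX.C1b

/-! Row IDX-C1c: the induction step -/

open Finset Filter Topology

namespace Pool.Agent.IDX

theorem C1c_biUnion_up {D : Type} [DecidableEq D] {I : Finset D} {F G : D → HG}
    (h : ∀ c ∈ I, Up (F c) (G c)) : Up (I.biUnion F) (I.biUnion G) := by
  intro e he
  rw [Finset.mem_biUnion] at he
  obtain ⟨c, hc, he⟩ := he
  obtain ⟨f, hf, hfe⟩ := h c hc e he
  exact ⟨f, Finset.mem_biUnion.mpr ⟨c, hc, hf⟩, hfe⟩

theorem C1c_vx_subset {H : HG} {s : Finset ℕ} (h : ∀ e ∈ H, e ⊆ s) : vx H ⊆ s := by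
  intro v hv
  rw [mem_vx] at hv
  obtain ⟨e, he, hve⟩ := hv
  exact h e he hve

theorem C1c_up_filter {G K : HG} {i : ℕ → ℕ} {t n : ℕ} (hi : Set.InjOn i (range t : Set ℕ))
    (hK : ∀ f ∈ K, f ⊆ range t) (hG : ∀ e ∈ G, e.card ≤ n) (h : Up G (K.image (Finset.image i))) :
    Up G ((K.filter (fun f => f.card ≤ n)).image (Finset.image i)) := by
  intro e he
  obtain ⟨g, hg, hge⟩ := h e he
  rw [Finset.mem_image] at hg
  obtain ⟨f, hf, rfl⟩ := hg
  refine ⟨f.image i, Finset.mem_image.mpr ⟨f, Finset.mem_filter.mpr ⟨hf, ?_⟩, rfl⟩, hge⟩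
  have h1 : (f.image i).card = f.card :=
    Finset.card_image_of_injOn (hi.mono (Finset.coe_subset.mpr (hK f hf)))
  have h2 := Finset.card_le_card hge
  have h3 := hG e he
  omega

/-- dropping the large edges of the limit does not change the density -/
theorem C1c_filter {D : Type} [DecidableEq D] (I : Finset D) (G : ℕ → D → HG) (K : D → HG)
    (sz : D → ℕ) (t : ℕ) (i : ℕ → ℕ → ℕ) (hK : ∀ c ∈ I, ∀ f ∈ K c, f ⊆ range t)
    (hi : ∀ j, Set.InjOn (i j) (range t : Set ℕ))
    (hsz : ∀ j, ∀ c ∈ I, ∀ e ∈ G j c, e.card ≤ sz c)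
    (hup : ∀ j, ∀ c ∈ I, Up (G j c) ((K c).image (Finset.image (i j))))
    (hlim : Tendsto (fun j => dn (I.biUnion (G j))) atTop (𝓝 (dn (I.biUnion K)))) :
    dn (I.biUnion (fun c => (K c).filter (fun f => f.card ≤ sz c))) = dn (I.biUnion K) := by
  apply le_antisymm
  · refine ge_of_tendsto' hlim fun j => ?_
    have hv : vx (I.biUnion (fun c => (K c).filter (fun f => f.card ≤ sz c))) ⊆ range t := by
      apply C1c_vx_subset
      intro e he
      rw [Finset.mem_biUnion] at he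
      obtain ⟨c, hc, he⟩ := he
      exact hK c hc e (Finset.mem_filter.mp he).1
    rw [← dn_image (H := I.biUnion (fun c => (K c).filter (fun f => f.card ≤ sz c))) (f := i j)
      ((hi j).mono (Finset.coe_subset.mpr hv)), Finset.biUnion_image]
    apply dn_mono
    apply C1c_biUnion_up
    intro c hc
    exact C1c_up_filter (hi j) (hK c hc) (hsz j c hc) (hup j c hc)
  · apply dn_mono
    apply up_of_subset
    intro e he
    rw [Finset.mem_biUnion] at he ⊢
    obtain ⟨c, hc, he⟩ := he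
    exact ⟨c, hc, (Finset.mem_filter.mp he).1⟩

/-- `CT k` for a finite set of colours of any type, with sizes -/
theorem C1c_ct {k : ℕ} (h : CT k) {D : Type} [DecidableEq D] (U : Finset D) (H : ℕ → D → HG)
    (X : ℕ → Finset ℕ) (sz : D → ℕ) (hszk : ∀ c ∈ U, sz c ≤ k)
    (hsz : ∀ j, ∀ c ∈ U, ∀ e ∈ H j c, e.card ≤ sz c)
    (hX : ∀ j, ∀ c ∈ U, ∀ e ∈ H j c, Disjoint e (X j)) :
    ∃ (θ : ℕ → ℕ) (t : ℕ) (K : D → HG) (i : ℕ → ℕ → ℕ), StrictMono θ ∧
      (∀ c, ∀ f ∈ K c, f ⊆ range t ∧ f.card ≤ sz c) ∧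
      (∀ j, Set.InjOn (i j) (range t : Set ℕ)) ∧ (∀ j, ∀ x < t, i j x ∉ X (θ j)) ∧
      (∀ j, ∀ c ∈ U, Up (H (θ j) c) ((K c).image (Finset.image (i j)))) ∧
      ∀ I ⊆ U, Tendsto (fun j => dn (I.biUnion (H (θ j)))) atTop (𝓝 (dn (I.biUnion K))) := by
  obtain ⟨θ, t, K', i, h1, h2, h3, h4, h5, h6⟩ := h U (fun j c => H j c.1) X
    (fun j c e he => (hsz j c.1 c.2 e he).trans (hszk c.1 c.2)) (fun j c e he => hX j c.1 c.2 e he)
  set K0 : D → HG := fun c => if hc : c ∈ U then K' ⟨c, hc⟩ else ∅ with hK0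
  have hK0c : ∀ c (hc : c ∈ U), K0 c = K' ⟨c, hc⟩ := fun c hc => dif_pos hc
  have hK0n : ∀ c, c ∉ U → K0 c = ∅ := fun c hc => dif_neg hc
  have hK0f : ∀ c, ∀ f ∈ K0 c, f ⊆ range t := by
    intro c f hf
    by_cases hc : c ∈ U
    · rw [hK0c c hc] at hf
      exact (h2 _ f hf).1
    · rw [hK0n c hc] at hf
      exact absurd hf (Finset.notMem_empty f)
  have hup : ∀ j, ∀ c ∈ U, Up (H (θ j) c) ((K0 c).image (Finset.image (i j))) := by
    intro j c hc
    rw [hK0c c hc]
    exact h5 j ⟨c, hc⟩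
  have hlim : ∀ I ⊆ U, Tendsto (fun j => dn (I.biUnion (H (θ j)))) atTop
      (𝓝 (dn (I.biUnion K0))) := by
    intro I hI
    have key : ∀ F : D → HG, (U.attach.filter (fun c => c.1 ∈ I)).biUnion (fun c => F c.1) =
        I.biUnion F := by
      intro F
      ext e
      rw [Finset.mem_biUnion, Finset.mem_biUnion]
      constructor
      · rintro ⟨c, hc, he⟩
        exact ⟨c.1, (Finset.mem_filter.mp hc).2, he⟩
      · rintro ⟨c, hc, he⟩
        exact ⟨⟨c, hI hc⟩, Finset.mem_filter.mpr ⟨Finset.mem_attach _ _, hc⟩, he⟩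
    have h7 := h6 (U.attach.filter (fun c => c.1 ∈ I))
    have e1 : (U.attach.filter (fun c => c.1 ∈ I)).biUnion K' = I.biUnion K0 := by
      rw [← key K0]
      apply Finset.biUnion_congr rfl
      intro c _
      exact (hK0c c.1 c.2).symm
    rw [e1] at h7
    simp only [key] at h7
    exact h7
  refine ⟨θ, t, fun c => (K0 c).filter (fun f => f.card ≤ sz c), i, h1, ?_, h3, h4, ?_, ?_⟩
  · intro c f hf
    rw [Finset.mem_filter] at hf
    exact ⟨hK0f c f hf.1, hf.2⟩
  · intro j c hc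
    exact C1c_up_filter (h3 j) (hK0f c) (hsz (θ j) c hc) (hup j c hc)
  · intro I hI
    rw [C1c_filter I (fun j => H (θ j)) K0 sz t i (fun c _ => hK0f c) h3
      (fun j c hc => hsz (θ j) c (hI hc)) (fun j c hc => hup j c (hI hc)) (hlim I hI)]
    exact hlim I hI

/-- one colour: the density tends to zero or the covers are bounded -/
theorem C1c_one {k : ℕ} (G : ℕ → HG) (hk : ∀ j, ∀ e ∈ G j, e.card ≤ k) :
    ∃ θ : ℕ → ℕ, StrictMono θ ∧ (Tendsto (fun j => dn (G (θ j))) atTop (𝓝 0) ∨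
      ∃ b : ℕ, ∀ j, ∃ T ⊆ vx (G (θ j)), T.card ≤ b ∧ ∀ e ∈ G (θ j), ¬ Disjoint e T) := by
  have h1 : ∀ j, ∃ (a : ℕ) (T : Finset ℕ), T ⊆ vx (G j) ∧
      dn (G j) ≤ (1 - 1 / 2 ^ k : ℝ) ^ (a - 1) ∧ (a = 0 → dn (G j) = 0) ∧
      (1 ≤ a → T.card ≤ k * a ∧ ∀ e ∈ G j, ¬ Disjoint e T) := by
    intro j
    by_cases h0 : ∅ ∈ G j
    · refine ⟨0, ∅, Finset.empty_subset _, ?_, fun _ => dn_zero h0, fun h => absurd h (by norm_num)⟩
      rw [dn_zero h0]
      norm_num
    · obtain ⟨M, hM, hMd, hMc, hMm⟩ := exists_cover (G j) (hk j) (fun e he => by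
        rw [Finset.nonempty_iff_ne_empty]
        rintro rfl
        exact h0 he)
      refine ⟨M.card + 1, vx M, ?_, ?_, fun h => absurd h (Nat.succ_ne_zero _), fun _ => ⟨?_, hMm⟩⟩
      · intro v hv
        rw [mem_vx] at hv ⊢
        obtain ⟨e, he, hve⟩ := hv
        exact ⟨e, hM he, hve⟩
      · rw [Nat.add_sub_cancel]
        exact match_bound hM hMd (fun e he => hk j e (hM he))
      · exact hMc.trans (Nat.mul_le_mul_left _ (Nat.le_succ _))
  choose a T hT ha ha0 hb using h1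
  obtain ⟨θ, hθ, h2⟩ := nat_subseq a
  refine ⟨θ, hθ, ?_⟩
  have hr0 : (0 : ℝ) ≤ 1 - 1 / 2 ^ k := by
    have : (1 : ℝ) / 2 ^ k ≤ 1 := by
      rw [div_le_one (by positivity)]
      exact one_le_pow₀ (by norm_num)
    linarith
  have hr1 : (1 - 1 / 2 ^ k : ℝ) < 1 := by
    have : (0 : ℝ) < 1 / 2 ^ k := by positivity
    linarith
  rcases h2 with h2 | ⟨b, h2⟩
  · left
    have h3 : Tendsto (fun j => (1 - 1 / 2 ^ k : ℝ) ^ (a (θ j) - 1)) atTop (𝓝 0) :=
      (tendsto_pow_atTop_nhds_zero_of_lt_one hr0 hr1).comp ((tendsto_sub_atTop_nat 1).comp h2)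
    exact squeeze_zero (fun j => dn_nonneg _) (fun j => ha (θ j)) h3
  · rcases Nat.eq_zero_or_pos b with hb0 | hb0
    · left
      have h3 : (fun j => dn (G (θ j))) = fun _ => (0 : ℝ) := by
        funext j
        exact ha0 (θ j) (by rw [h2 j, hb0])
      rw [h3]
      exact tendsto_const_nhds
    · right
      refine ⟨k * b, fun j => ⟨T (θ j), hT (θ j), ?_⟩⟩
      have h3 := hb (θ j) (by rw [h2 j]; exact hb0)
      rw [h2 j] at h3
      exact h3

/-- the same for all colours of a finite set -/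
theorem C1c_all {k : ℕ} {C : Type} [DecidableEq C] (H : ℕ → C → HG)
    (hk : ∀ j c, ∀ e ∈ H j c, e.card ≤ k) (s : Finset C) :
    ∃ θ : ℕ → ℕ, StrictMono θ ∧ ∀ c ∈ s, (Tendsto (fun j => dn (H (θ j) c)) atTop (𝓝 0) ∨
      ∃ b : ℕ, ∀ j, ∃ T ⊆ vx (H (θ j) c), T.card ≤ b ∧ ∀ e ∈ H (θ j) c, ¬ Disjoint e T) := by
  induction s using Finset.induction_on with
  | empty => exact ⟨id, strictMono_id, fun c hc => absurd hc (Finset.notMem_empty c)⟩
  | insert c s _ ih =>
    obtain ⟨θ, hθ, h1⟩ := ih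
    obtain ⟨φ, hφ, h2⟩ := C1c_one (fun j => H (θ j) c) (fun j => hk (θ j) c)
    refine ⟨fun j => θ (φ j), hθ.comp hφ, ?_⟩
    intro c' hc'
    rw [Finset.mem_insert] at hc'
    rcases hc' with rfl | hc'
    · exact h2
    · rcases h1 c' hc' with h3 | ⟨b, h3⟩
      · left
        exact h3.comp hφ.tendsto_atTop
      · right
        exact ⟨b, fun j => h3 (φ j)⟩

/-- the cores -/
theorem C1c_core {k : ℕ} {C : Type} [Fintype C] [DecidableEq C] (H : ℕ → C → HG)
    (hk : ∀ j c, ∀ e ∈ H j c, e.card ≤ k) :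
    ∃ (θ : ℕ → ℕ) (Bd : Finset C) (t : ℕ) (TT : ℕ → Finset ℕ), StrictMono θ ∧
      (∀ c, c ∉ Bd → Tendsto (fun j => dn (H (θ j) c)) atTop (𝓝 0)) ∧
      (∀ j, (TT j).card = t) ∧ (∀ j, ∀ c ∈ Bd, ∀ e ∈ H (θ j) c, ¬ Disjoint e (TT j)) ∧
      ∀ j, ∀ x ∈ TT j, ∃ c, x ∈ vx (H (θ j) c) := by
  classical
  obtain ⟨θ, hθ, h1⟩ := C1c_all H hk Finset.univ
  set Bd : Finset C := Finset.univ.filter (fun c => ∃ b : ℕ, ∀ j, ∃ T ⊆ vx (H (θ j) c),
    T.card ≤ b ∧ ∀ e ∈ H (θ j) c, ¬ Disjoint e T) with hBd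
  have h2 : ∀ c, ∃ b : ℕ, c ∈ Bd → ∀ j, ∃ T ⊆ vx (H (θ j) c),
      T.card ≤ b ∧ ∀ e ∈ H (θ j) c, ¬ Disjoint e T := by
    intro c
    by_cases hc : c ∈ Bd
    · obtain ⟨b, hb⟩ := (Finset.mem_filter.mp hc).2
      exact ⟨b, fun _ => hb⟩
    · exact ⟨0, fun h => absurd h hc⟩
  choose b hb using h2
  have h3 : ∀ c j, ∃ T : Finset ℕ, c ∈ Bd → T ⊆ vx (H (θ j) c) ∧
      T.card ≤ b c ∧ ∀ e ∈ H (θ j) c, ¬ Disjoint e T := by
    intro c j
    by_cases hc : c ∈ Bd
    · obtain ⟨T, hT⟩ := hb c hc j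
      exact ⟨T, fun _ => hT⟩
    · exact ⟨∅, fun h => absurd h hc⟩
  choose T hT using h3
  have hcard : ∀ j, (Bd.biUnion (fun c => T c j)).card ≤ ∑ c ∈ Bd, b c := by
    intro j
    refine Finset.card_biUnion_le.trans (Finset.sum_le_sum fun c hc => (hT c j hc).2.1)
  obtain ⟨φ, hφ, h4⟩ := nat_subseq (fun j => (Bd.biUnion (fun c => T c j)).card)
  rcases h4 with h4 | ⟨t, h4⟩
  · exfalso
    obtain ⟨j, hj⟩ := (h4.eventually (eventually_gt_atTop (∑ c ∈ Bd, b c))).exists
    exact absurd (hcard (φ j)) (not_le.mpr hj)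
  · refine ⟨fun j => θ (φ j), Bd, t, fun j => Bd.biUnion (fun c => T c (φ j)), hθ.comp hφ,
      ?_, h4, ?_, ?_⟩
    · intro c hc
      rcases h1 c (Finset.mem_univ c) with h5 | h5
      · exact h5.comp hφ.tendsto_atTop
      · exact absurd (Finset.mem_filter.mpr ⟨Finset.mem_univ c, h5⟩) hc
    · intro j c hc e he hd
      refine (hT c (φ j) hc).2.2 e he ?_
      rw [Finset.disjoint_biUnion_right] at hd
      exact hd c hc
    · intro j x hx
      rw [Finset.mem_biUnion] at hx
      obtain ⟨c, hc, hx⟩ := hx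
      exact ⟨c, (hT c (φ j) hc).1 hx⟩

/-- enumeration of a finite set -/
theorem C1c_enum (T : Finset ℕ) (t : ℕ) (h : T.card = t) :
    ∃ i : ℕ → ℕ, Set.InjOn i (range t : Set ℕ) ∧ (range t).image i = T := by
  classical
  let e := T.equivFinOfCardEq h
  refine ⟨fun x => if hx : x < t then (e.symm ⟨x, hx⟩).1 else 0, ?_, ?_⟩
  · intro x hx y hy hxy
    have hx' : x < t := Finset.mem_range.mp (Finset.mem_coe.mp hx)
    have hy' : y < t := Finset.mem_range.mp (Finset.mem_coe.mp hy)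
    simp only [hx', hy', dif_pos] at hxy
    have h1 := e.symm.injective (Subtype.ext hxy)
    exact congrArg Fin.val h1
  · ext v
    rw [Finset.mem_image]
    constructor
    · rintro ⟨x, hx, rfl⟩
      have hx' : x < t := Finset.mem_range.mp hx
      simp only [hx', dif_pos]
      exact (e.symm ⟨x, hx'⟩).2
    · intro hv
      refine ⟨(e ⟨v, hv⟩).1, Finset.mem_range.mpr (e ⟨v, hv⟩).2, ?_⟩
      simp only [Fin.is_lt, dif_pos, Fin.eta, Equiv.symm_apply_apply]

/-- The induction step.  Let `H`, `X` be given, edges of size `≤ k + 1`.  For each colour `c` let `M j c`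
be a maximal matching of the nonempty edges.. (if `∅ ∈ H j c` for infinitely many `j` treat `c` as
unbounded: `dn = 0`).  After passing to a subsequence, for each `c`: either `|M j c| → ∞` (or
`∅ ∈ H j c` for all `j`): put `K c = {∅}`, the densities of all unions containing `c` tend to `0`, by
`match_bound`; or `∅ ∉ H j c` and `|M j c|` is bounded.  Let `T j` be the union of the sets
`vx (M j c)` over the bounded colours, `|T j| = t` constant after passing to a subsequence,
`T j = e_j '' (range t)`.  Apply `CT k` to the colours `(c, Q)` (`c` a colour, `Q ⊆ range t`), with the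
hypergraph `{e \ T j : e ∈ H j c, e ∩ T j = e_j '' Q}` if `c` is bounded and `Q ≠ ∅`, and `∅` otherwise,
and the sets `X j ∪ T j`.  Glue (`ct_glue`, `ct_cond`).  The colour type is
`C × {Q // Q ⊆ range t}` (or `C × Finset (Fin t)`). -/
theorem ct_succ {k : ℕ} (h : CT k) : CT (k + 1) := by
  classical
  intro C _ _ H X hk hX
  obtain ⟨θ, Bd, t, TT, hθ, hUn, hTt, hTm, hTv⟩ := C1c_core H hk
  apply ct_sub hθ
  choose ee hee heeT using fun j => C1c_enum (TT j) t (hTt j)
  have hTX : ∀ j, Disjoint (TT j) (X (θ j)) := by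
    intro j
    rw [Finset.disjoint_left]
    intro x hx hxX
    obtain ⟨c, hc⟩ := hTv j x hx
    obtain ⟨e, he, hxe⟩ := mem_vx.mp hc
    exact Finset.disjoint_left.mp (hX (θ j) c e he) hxe hxX
  -- the coloured links
  set L : ℕ → C × Finset ℕ → HG := fun j p =>
    ((H (θ j) p.1).filter (fun e => e ∩ (range t).image (ee j) = p.2.image (ee j))).image
      (fun e => e \ (range t).image (ee j)) with hL
  have hLm : ∀ j p g, g ∈ L j p ↔ ∃ e ∈ H (θ j) p.1,
      e ∩ (range t).image (ee j) = p.2.image (ee j) ∧ e \ (range t).image (ee j) = g := by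
    intro j p g
    rw [hL]
    simp only [Finset.mem_image, Finset.mem_filter, and_assoc]
  set U : Finset (C × Finset ℕ) := Bd ×ˢ ((range t).powerset.erase ∅) with hU
  have hUm : ∀ c Q, (c, Q) ∈ U ↔ c ∈ Bd ∧ Q ≠ ∅ ∧ Q ⊆ range t := by
    intro c Q
    rw [hU, Finset.mem_product, Finset.mem_erase, Finset.mem_powerset]
  obtain ⟨φ, t', K', i', hφ, hK', hi', hiX, hup, hlim⟩ := C1c_ct h U L
    (fun j => X (θ j) ∪ TT j) (fun p => k + 1 - p.2.card) (by
      rintro ⟨c, Q⟩ hp
      rw [hUm] at hp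
      have : 0 < Q.card := Finset.card_pos.mpr (Finset.nonempty_iff_ne_empty.mpr hp.2.1)
      show k + 1 - Q.card ≤ k
      omega) (by
      rintro j ⟨c, Q⟩ hp g hg
      rw [hUm] at hp
      rw [hLm] at hg
      obtain ⟨e, he, heQ, rfl⟩ := hg
      have h1 := hk (θ j) c e he
      have h2 := Finset.card_sdiff_add_card_inter e ((range t).image (ee j))
      rw [heQ, Finset.card_image_of_injOn ((hee j).mono (Finset.coe_subset.mpr hp.2.2))] at h2
      show (e \ (range t).image (ee j)).card ≤ k + 1 - Q.card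
      omega) (by
      rintro j ⟨c, Q⟩ hp g hg
      rw [hLm] at hg
      obtain ⟨e, he, heQ, rfl⟩ := hg
      rw [heeT, Finset.disjoint_union_right]
      exact ⟨Finset.disjoint_of_subset_left Finset.sdiff_subset (hX (θ j) c e he),
        Finset.sdiff_disjoint⟩)
  have hφT : ∀ j, ∀ x < t', i' j x ∉ TT (φ j) := fun j x hx hxT =>
    hiX j x hx (Finset.mem_union_right _ hxT)
  have hφX : ∀ j, ∀ x < t', i' j x ∉ X (θ (φ j)) := fun j x hx hxT =>
    hiX j x hx (Finset.mem_union_left _ hxT)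
  have heT : ∀ j, ∀ x < t, ee j x ∈ TT j := by
    intro j x hx
    rw [← heeT j]
    exact Finset.mem_image_of_mem _ (Finset.mem_range.mpr hx)
  set KB : C → HG := fun c => ((range t).powerset.erase ∅).biUnion (fun Q =>
    (K' (c, Q)).image (fun f => Q ∪ f.image (fun x => t + x))) with hKB
  have hKBm : ∀ c g, g ∈ KB c ↔ ∃ Q, (Q ≠ ∅ ∧ Q ⊆ range t) ∧ ∃ f ∈ K' (c, Q),
      Q ∪ f.image (fun x => t + x) = g := by
    intro c g
    rw [hKB]
    simp only [Finset.mem_biUnion, Finset.mem_erase, Finset.mem_powerset, Finset.mem_image]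
  set K : C → HG := fun c => if c ∈ Bd then KB c else {∅} with hKdef
  set i : ℕ → ℕ → ℕ := fun j x => if x < t then ee (φ j) x else i' j (x - t) with hidef
  have hi1 : ∀ j x, x < t → i j x = ee (φ j) x := fun j x hx => if_pos hx
  have hi2 : ∀ j x, i j (t + x) = i' j x := by
    intro j x
    show (if t + x < t then ee (φ j) (t + x) else i' j (t + x - t)) = i' j x
    rw [if_neg (by omega), Nat.add_sub_cancel_left]
  refine ⟨φ, t + t', K, i, hφ, ?_, ?_, ?_, ?_, ?_⟩
  · intro c f hf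
    by_cases hc : c ∈ Bd
    · have hKc : K c = KB c := if_pos hc
      rw [hKc, hKBm] at hf
      obtain ⟨Q, ⟨hQ1, hQ2⟩, g, hg, rfl⟩ := hf
      obtain ⟨hg1, hg2⟩ := hK' (c, Q) g hg
      constructor
      · intro x hx
        rw [Finset.mem_union, Finset.mem_image] at hx
        rw [Finset.mem_range]
        rcases hx with hx | ⟨y, hy, rfl⟩
        · have := Finset.mem_range.mp (hQ2 hx)
          omega
        · have := Finset.mem_range.mp (hg1 hy)
          omega
      · have h1 : (Q ∪ g.image (fun x => t + x)).card ≤ Q.card + g.card :=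
          (Finset.card_union_le _ _).trans (Nat.add_le_add_left Finset.card_image_le _)
        by_cases h2 : Q.card ≤ k + 1
        · have h3 : g.card ≤ k + 1 - Q.card := hg2
          omega
        · exfalso
          have h3 : ∀ j, L j (c, Q) = ∅ := by
            intro j
            rw [Finset.eq_empty_iff_forall_notMem]
            intro g' hg'
            rw [hLm] at hg'
            obtain ⟨e, he, heQ, -⟩ := hg'
            have h4 := hk (θ j) c e he
            have h5 := Finset.card_le_card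
              (Finset.inter_subset_left : e ∩ (range t).image (ee j) ⊆ e)
            rw [heQ, Finset.card_image_of_injOn ((hee j).mono (Finset.coe_subset.mpr hQ2))] at h5
            have h6 : Q.card ≤ e.card := h5
            omega
          have h4 := hlim {(c, Q)} (Finset.singleton_subset_iff.mpr ((hUm c Q).mpr ⟨hc, hQ1, hQ2⟩))
          simp only [Finset.singleton_biUnion, h3] at h4
          have h5 : dn ∅ = dn (K' (c, Q)) := tendsto_nhds_unique tendsto_const_nhds h4
          have h6 := up_of_dn_eq (H := ∅) (K := K' (c, Q))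
            (fun e he => absurd he (Finset.notMem_empty e)) h5 g hg
          obtain ⟨f, hf, -⟩ := h6
          exact absurd hf (Finset.notMem_empty f)
    · have hKc : K c = {∅} := if_neg hc
      rw [hKc, Finset.mem_singleton] at hf
      subst hf
      exact ⟨Finset.empty_subset _, by simp⟩
  · intro j x hx y hy hxy
    have hx' : x < t + t' := Finset.mem_range.mp (Finset.mem_coe.mp hx)
    have hy' : y < t + t' := Finset.mem_range.mp (Finset.mem_coe.mp hy)
    rcases lt_or_ge x t with hxt | hxt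
    · rcases lt_or_ge y t with hyt | hyt
      · rw [hi1 j x hxt, hi1 j y hyt] at hxy
        exact hee (φ j) (Finset.mem_coe.mpr (Finset.mem_range.mpr hxt))
          (Finset.mem_coe.mpr (Finset.mem_range.mpr hyt)) hxy
      · exfalso
        obtain ⟨z, rfl⟩ := Nat.exists_eq_add_of_le hyt
        rw [hi1 j x hxt, hi2 j z] at hxy
        exact hφT j z (by omega) (hxy ▸ heT (φ j) x hxt)
    · obtain ⟨w, rfl⟩ := Nat.exists_eq_add_of_le hxt
      rcases lt_or_ge y t with hyt | hyt
      · exfalso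
        rw [hi1 j y hyt, hi2 j w] at hxy
        exact hφT j w (by omega) (hxy ▸ heT (φ j) y hyt)
      · obtain ⟨z, rfl⟩ := Nat.exists_eq_add_of_le hyt
        rw [hi2 j w, hi2 j z] at hxy
        rw [hi' j (Finset.mem_coe.mpr (Finset.mem_range.mpr (by omega)))
          (Finset.mem_coe.mpr (Finset.mem_range.mpr (by omega))) hxy]
  · intro j x hx
    rcases lt_or_ge x t with hxt | hxt
    · rw [hi1 j x hxt]
      exact Finset.disjoint_left.mp (hTX (φ j)) (heT (φ j) x hxt)
    · obtain ⟨w, rfl⟩ := Nat.exists_eq_add_of_le hxt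
      rw [hi2 j w]
      exact hφX j w (by omega)
  · intro j c
    by_cases hc : c ∈ Bd
    · have hKc : K c = KB c := if_pos hc
      rw [hKc]
      intro e he
      set Q : Finset ℕ := (range t).filter (fun x => ee (φ j) x ∈ e) with hQ
      have hQr : Q ⊆ range t := Finset.filter_subset _ _
      have hQe : e ∩ (range t).image (ee (φ j)) = Q.image (ee (φ j)) := by
        ext v
        rw [Finset.mem_inter, Finset.mem_image, Finset.mem_image]
        constructor
        · rintro ⟨hv, x, hx, rfl⟩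
          exact ⟨x, Finset.mem_filter.mpr ⟨hx, hv⟩, rfl⟩
        · rintro ⟨x, hx, rfl⟩
          exact ⟨(Finset.mem_filter.mp hx).2, x, (Finset.mem_filter.mp hx).1, rfl⟩
      have hQ0 : Q ≠ ∅ := by
        intro h0
        rw [h0, Finset.image_empty, heeT] at hQe
        exact hTm (φ j) c hc e he (Finset.disjoint_iff_inter_eq_empty.mpr hQe)
      have h1 : e \ (range t).image (ee (φ j)) ∈ L (φ j) (c, Q) := (hLm _ _ _).mpr ⟨e, he, hQe, rfl⟩
      obtain ⟨g', hg', hge⟩ := hup j (c, Q) ((hUm c Q).mpr ⟨hc, hQ0, hQr⟩) _ h1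
      rw [Finset.mem_image] at hg'
      obtain ⟨f, hf, rfl⟩ := hg'
      refine ⟨(Q ∪ f.image (fun x => t + x)).image (i j), Finset.mem_image_of_mem _
        ((hKBm c _).mpr ⟨Q, ⟨hQ0, hQr⟩, f, hf, rfl⟩), ?_⟩
      intro v hv
      rw [Finset.mem_image] at hv
      obtain ⟨x, hx, rfl⟩ := hv
      rw [Finset.mem_union] at hx
      rcases hx with hx | hx
      · rw [hi1 j x (Finset.mem_range.mp (hQr hx))]
        exact (Finset.mem_filter.mp hx).2
      · rw [Finset.mem_image] at hx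
        obtain ⟨y, hy, rfl⟩ := hx
        rw [hi2 j y]
        exact (Finset.mem_sdiff.mp (hge (Finset.mem_image_of_mem _ hy))).1
    · have hKc : K c = {∅} := if_neg hc
      rw [hKc]
      intro e _
      exact ⟨∅, by simp, Finset.empty_subset _⟩
  · intro I
    by_cases hI : I ⊆ Bd
    · have hKI : I.biUnion K = I.biUnion KB := by
        apply Finset.biUnion_congr rfl
        intro c hc
        exact if_pos (hI hc)
      rw [hKI, hKB, ct_glue K' t t' (fun p f hf => (hK' p f hf).1) I]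
      have h1 : (fun j => dn (I.biUnion (H (θ (φ j))))) = fun j =>
          (∑ S ∈ (range t).powerset, dn ((I ×ˢ (S.powerset.erase ∅)).biUnion (L (φ j)))) / 2 ^ t := by
        funext j
        exact ct_cond (H (θ (φ j))) (ee (φ j)) t (hee (φ j)) I (fun c hc e he => by
          rw [heeT]
          exact hTm (φ j) c (hI hc) e he)
      rw [h1]
      refine Tendsto.div_const (tendsto_finsetSum _ fun S hS => ?_) _
      apply hlim
      rintro ⟨c, Q⟩ hp
      rw [Finset.mem_product, Finset.mem_erase, Finset.mem_powerset] at hp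
      exact (hUm c Q).mpr ⟨hI hp.1, hp.2.1, hp.2.2.trans (Finset.mem_powerset.mp hS)⟩
    · rw [Finset.not_subset] at hI
      obtain ⟨c, hcI, hcB⟩ := hI
      have h0 : dn (I.biUnion K) = 0 := by
        apply dn_zero
        rw [Finset.mem_biUnion]
        refine ⟨c, hcI, ?_⟩
        have hKc : K c = {∅} := if_neg hcB
        rw [hKc]
        exact Finset.mem_singleton_self _
      rw [h0]
      refine squeeze_zero (fun j => dn_nonneg _) (fun j => ?_) ((hUn c hcB).comp hφ.tendsto_atTop)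
      exact dn_mono (up_of_subset (Finset.subset_biUnion_of_mem (H (θ (φ j))) hcI))

end Pool.Agent.IDX
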