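import Pool.Agent.IDX.C1c

/-! Row IDX-C1d: the compactness theorem -/

open Finset Filter Topology

namespace Pool.Agent.IDX

theorem ct_all (k : ℕ) : CT k := by
  induction k with
  | zero => exact ct_zero
  | succ k ih => exact ct_succ ih

/-- One colour, no forbidden sets, edges of size at most 3. -/
theorem ct_three (H : ℕ → HG) (h3 : ∀ j, ∀ e ∈ H j, e.card ≤ 3) :
    ∃ (θ : ℕ → ℕ) (t : ℕ) (K : HG) (i : ℕ → ℕ → ℕ), StrictMono θ ∧
      (∀ f ∈ K, f ⊆ range t ∧ f.card ≤ 3) ∧ AC K ∧ (∀ j, Set.InjOn (i j) (range t : Set ℕ)) ∧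
      (∀ j, Up (H (θ j)) (K.image (Finset.image (i j)))) ∧
      Tendsto (fun j => dn (H (θ j))) atTop (𝓝 (dn K)) := by
  obtain ⟨θ, t, K, i, hθ, h1, h2, _, h4, h5⟩ :=
    ct_all 3 Unit (fun j _ => H j) (fun _ => ∅) (fun j _ => h3 j) (fun j _ e _ => by simp)
  obtain ⟨K', hK', hAC, hup, hdn⟩ := exists_clutter (K ())
  refine ⟨θ, t, K', i, hθ, fun f hf => h1 () f (hK' hf), hAC, h2, ?_, ?_⟩
  · intro j e he
    obtain ⟨f, hf, hfe⟩ := h4 j () e he
    obtain ⟨g, hg, rfl⟩ := Finset.mem_image.1 hf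
    obtain ⟨g', hg', hgg⟩ := hup g hg
    exact ⟨g'.image (i j), Finset.mem_image_of_mem _ hg',
      (Finset.image_subset_image hgg).trans hfe⟩
  · have := h5 {()}
    simp only [Finset.singleton_biUnion] at this
    rw [hdn]
    exact this

end Pool.Agent.IDX
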