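import Pool.Agent.IDX.C0

/-! Row IDX-C1a: subsequences, edges of size 0 -/

open Finset Filter Topology

namespace Pool.Agent.IDX

/-- Passing to a subsequence first. -/
theorem ct_sub {k : ℕ} {C : Type} [DecidableEq C] {H : ℕ → C → HG} {X : ℕ → Finset ℕ}
    {θ : ℕ → ℕ} (hθ : StrictMono θ) (h : CTConc k (fun j => H (θ j)) (fun j => X (θ j))) :
    CTConc k H X := by
  obtain ⟨η, t, K, i, hη, h1, h2, h3, h4, h5⟩ := h
  exact ⟨fun j => θ (η j), t, K, i, hθ.comp hη, h1, h2, h3, h4, h5⟩

/-- Edges of size 0: pass to a subsequence on which all `H j c` are constant. -/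
theorem ct_zero : CT 0 := by
  intro C _ _ H X hH _
  have h0 : ∀ j c, ∀ e ∈ H j c, e = ∅ := fun j c e he => Finset.card_eq_zero.1
    (Nat.le_zero.1 (hH j c e he))
  -- the code of `H j`
  classical
  let g : ℕ → (C → Bool) := fun j c => decide (∅ ∈ H j c)
  have hg : ∀ j j', g j = g j' → ∀ c, H j c = H j' c := by
    intro j j' hjj c
    have hc : (∅ ∈ H j c) ↔ (∅ ∈ H j' c) := by
      have := congrFun hjj c
      simpa [g] using this
    ext e
    constructor
    · intro he
      have := h0 j c e he
      subst this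
      exact hc.1 he
    · intro he
      have := h0 j' c e he
      subst this
      exact hc.2 he
  obtain ⟨b, hb⟩ : ∃ b : C → Bool, ∃ᶠ j in atTop, g j = b := by
    by_contra hcon
    push Not at hcon
    have h1 : ∀ᶠ j in atTop, ∀ b : C → Bool, g j ≠ b := by
      rw [Filter.eventually_all]
      intro b
      have := hcon b
      simpa [Filter.not_frequently] using this
    obtain ⟨j, hj⟩ := h1.exists
    exact hj (g j) rfl
  obtain ⟨θ, hθ, hθb⟩ := Filter.extraction_of_frequently_atTop hb
  refine ⟨θ, 0, H (θ 0), fun _ => id, hθ, ?_, ?_, ?_, ?_, ?_⟩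
  · intro c f hf
    have := h0 _ c f hf
    subst this
    simp
  · intro j
    simp
  · intro j x hx
    omega
  · intro j c
    have e1 : H (θ j) c = H (θ 0) c := hg _ _ ((hθb j).trans (hθb 0).symm) c
    intro e he
    have := h0 _ c e he
    subst this
    refine ⟨∅, ?_, Finset.Subset.refl _⟩
    rw [e1] at he
    exact Finset.mem_image.2 ⟨∅, he, by simp⟩
  · intro I
    have e1 : ∀ j, I.biUnion (H (θ j)) = I.biUnion (H (θ 0)) := by
      intro j
      have : H (θ j) = H (θ 0) := funext fun c => hg _ _ ((hθb j).trans (hθb 0).symm) c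
      rw [this]
    simp only [e1]
    exact tendsto_const_nhds

/-- A sequence of natural numbers has a subsequence which tends to infinity or is constant. -/
theorem nat_subseq (a : ℕ → ℕ) :
    ∃ θ : ℕ → ℕ, StrictMono θ ∧ (Tendsto (fun j => a (θ j)) atTop atTop ∨
      ∃ b, ∀ j, a (θ j) = b) := by
  by_cases h : Tendsto a atTop atTop
  · exact ⟨id, strictMono_id, Or.inl (by simpa using h)⟩
  · rw [Filter.tendsto_atTop] at h
    push Not at h
    obtain ⟨B, hB⟩ := h
    have hfr : ∃ᶠ j in atTop, a j < B := by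
      have : ∃ᶠ j in atTop, ¬ B ≤ a j := by simpa [Filter.not_eventually] using hB
      exact this.mono fun j hj => not_le.1 hj
    obtain ⟨b, hb⟩ : ∃ b, ∃ᶠ j in atTop, a j = b := by
      by_contra hcon
      push Not at hcon
      have h1 : ∀ᶠ j in atTop, ∀ b ∈ Finset.range B, a j ≠ b := by
        rw [Filter.eventually_all_finset]
        intro b _
        have := hcon b
        simpa [Filter.not_frequently] using this
      obtain ⟨j, hj1, hj2⟩ := (hfr.and_eventually h1).exists
      exact hj2 (a j) (Finset.mem_range.2 hj1) rfl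
    obtain ⟨θ, hθ, hθb⟩ := Filter.extraction_of_frequently_atTop hb
    exact ⟨θ, hθ, Or.inr ⟨b, hθb⟩⟩

end Pool.Agent.IDX
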