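import Pool.Agent.IDX.B6
import Pool.Agent.IDX.B5

/-! Row IDX-C2b: the gap (13/16, 7/8), 1-edges -/

open Finset Filter Topology

namespace Pool.Agent.IDX

theorem C2b_pr_subset {U e : Finset ℕ} (h : e ⊆ U) : pr U (fun R => e ⊆ R) = 1 / 2 ^ e.card := by
  have h1 : pr U (fun R => e ⊆ R) = pr U (fun R => (fun S => S = e) (R ∩ e)) := by
    apply pr_congr
    intro R _
    exact inter_eq_right.symm
  rw [h1, pr_extend h (fun S => S = e), pr_eq_singleton (subset_refl e)]

theorem C2b_dn_single (e : Finset ℕ) : dn {e} = 1 - 1 / 2 ^ e.card := by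
  have hv : vx {e} ⊆ e := by
    intro x hx
    rw [mem_vx] at hx
    obtain ⟨f, hf, hxf⟩ := hx
    rw [mem_singleton] at hf
    rwa [← hf]
  rw [dn_eq hv, ← C2b_pr_subset (subset_refl e), ← pr_not]
  apply pr_congr
  intro R _
  unfold Ind
  simp

theorem C2b_pr_or (U : Finset ℕ) (p q : Finset ℕ → Prop) :
    pr U (fun R => p R ∨ q R) = pr U p + pr U q - pr U (fun R => p R ∧ q R) := by
  have h1 : pr U (fun R => p R ∨ q R) = pr U (fun R => p R ∨ (q R ∧ ¬ p R)) := by
    apply pr_congr
    intro R _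
    tauto
  have h2 : pr U q = pr U (fun R => (p R ∧ q R) ∨ (q R ∧ ¬ p R)) := by
    apply pr_congr
    intro R _
    tauto
  rw [h1, pr_add_of_disjoint (by intro R _; tauto), h2, pr_add_of_disjoint (by intro R _; tauto)]
  ring

theorem C2b_dn_pair {e f : Finset ℕ} (he : e.card = 3) (hf : f.card = 3) (hef : e ≠ f) :
    dn {e, f} ≤ 13 / 16 := by
  have hv : vx {e, f} ⊆ e ∪ f := by
    intro x hx
    rw [mem_vx] at hx
    obtain ⟨g, hg, hxg⟩ := hx
    rw [mem_insert, mem_singleton] at hg
    rcases hg with rfl | rfl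
    · exact mem_union_left _ hxg
    · exact mem_union_right _ hxg
  have h1 : dn {e, f} = 1 - pr (e ∪ f) (fun R => e ⊆ R ∨ f ⊆ R) := by
    rw [dn_eq hv, ← pr_not]
    apply pr_congr
    intro R _
    unfold Ind
    simp
  have h2 : pr (e ∪ f) (fun R => e ⊆ R ∧ f ⊆ R) = 1 / 2 ^ (e ∪ f).card := by
    rw [← C2b_pr_subset (subset_refl (e ∪ f))]
    apply pr_congr
    intro R _
    exact union_subset_iff.symm
  have h3 : 4 ≤ (e ∪ f).card := by
    by_contra hlt
    push Not at hlt
    have h4 : e = e ∪ f := eq_of_subset_of_card_le subset_union_left (by omega)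
    have h5 : f = e ∪ f := eq_of_subset_of_card_le subset_union_right (by omega)
    exact hef (h4.trans h5.symm)
  have h6 : (1 : ℝ) / 2 ^ (e ∪ f).card ≤ 1 / 16 := by
    have h7 : (16 : ℝ) ≤ 2 ^ (e ∪ f).card := by
      calc (16 : ℝ) = 2 ^ 4 := by norm_num
        _ ≤ 2 ^ (e ∪ f).card := pow_le_pow_right₀ (by norm_num) h3
    exact one_div_le_one_div_of_le (by norm_num) h7
  rw [h1, C2b_pr_or, C2b_pr_subset subset_union_left, C2b_pr_subset subset_union_right, h2, he, hf]
  norm_num at h6 ⊢
  linarith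

/-- The density set has the gap `(13/16, 7/8)`, for edges of size 2 and 3. -/
theorem gap (K : HG) (h : ∀ e ∈ K, e.card = 2 ∨ e.card = 3) : dn K ≤ 13 / 16 ∨ 7 / 8 ≤ dn K := by
  by_cases h2 : ∃ e ∈ K, e.card = 2
  · left
    obtain ⟨e, he, hc⟩ := h2
    have h1 : dn K ≤ dn {e} := dn_mono (up_of_subset (singleton_subset_iff.mpr he))
    rw [C2b_dn_single, hc] at h1
    norm_num at h1
    linarith
  push Not at h2
  have h3 : ∀ e ∈ K, e.card = 3 := fun e he => (h e he).resolve_left (h2 e he)
  by_cases h4 : ∃ e ∈ K, ∃ f ∈ K, e ≠ f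
  · left
    obtain ⟨e, he, f, hf, hef⟩ := h4
    have h1 : dn K ≤ dn {e, f} := by
      apply dn_mono
      apply up_of_subset
      intro x hx
      rw [mem_insert, mem_singleton] at hx
      rcases hx with rfl | rfl
      · exact he
      · exact hf
    exact h1.trans (C2b_dn_pair (h3 e he) (h3 f hf) hef)
  · right
    push Not at h4
    rcases K.eq_empty_or_nonempty with h5 | ⟨e, he⟩
    · rw [h5, dn_empty]
      norm_num
    · have h6 : K = {e} := by
        ext x
        rw [mem_singleton]
        constructor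
        · intro hx
          exact h4 x hx e he
        · rintro rfl
          exact he
      rw [h6, C2b_dn_single, h3 e he]
      norm_num

/-- The 1-edges of a clutter. -/
theorem clutter_ones {K : HG} (hK : AC K) (h3 : ∀ e ∈ K, e.card ≤ 3) (h0 : ∅ ∉ K) :
    ∃ V : Finset ℕ, (∀ v, v ∈ V ↔ {v} ∈ K) ∧ dn K = dn (del K V) / 2 ^ V.card ∧
      (∀ e ∈ del K V, e.card = 2 ∨ e.card = 3) ∧ AC (del K V) ∧
      ∀ e ∈ K, e ∈ del K V ∨ ∃ v ∈ V, e = {v} := by
  classical
  have hV : ∀ v, v ∈ (vx K).filter (fun v => {v} ∈ K) ↔ ({v} : Finset ℕ) ∈ K := by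
    intro v
    rw [mem_filter]
    constructor
    · exact fun h => h.2
    · intro h
      refine ⟨?_, h⟩
      rw [mem_vx]
      exact ⟨{v}, h, mem_singleton_self v⟩
  set V : Finset ℕ := (vx K).filter (fun v => {v} ∈ K) with hVdef
  have hlast : ∀ e ∈ K, e ∈ del K V ∨ ∃ v ∈ V, e = {v} := by
    intro e he
    by_cases hd : Disjoint e V
    · left
      unfold del
      exact mem_filter.mpr ⟨he, hd⟩
    · right
      rw [not_disjoint_iff] at hd
      obtain ⟨v, hve, hvV⟩ := hd
      refine ⟨v, hvV, ?_⟩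
      exact (hK {v} ((hV v).mp hvV) e he (singleton_subset_iff.mpr hve)).symm
  have hKeq : K = del K V ∪ V.image (fun v => {v}) := by
    ext e
    rw [mem_union, mem_image]
    constructor
    · intro he
      rcases hlast e he with h | ⟨v, hv, rfl⟩
      · exact Or.inl h
      · exact Or.inr ⟨v, hv, rfl⟩
    · rintro (h | ⟨v, hv, rfl⟩)
      · exact del_subset K V h
      · exact (hV v).mp hv
  refine ⟨V, hV, ?_, ?_, ?_, hlast⟩
  · conv_lhs => rw [hKeq]
    rw [dn_singletons, del_del, union_self]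
  · intro e he
    have heK : e ∈ K := del_subset K V he
    have hdis : Disjoint e V := by
      unfold del at he
      exact (mem_filter.mp he).2
    have h1 := h3 e heK
    have h2 : e.card ≠ 0 := by
      intro h
      rw [card_eq_zero] at h
      exact h0 (h ▸ heK)
    have h4 : e.card ≠ 1 := by
      intro h
      obtain ⟨v, rfl⟩ := card_eq_one.mp h
      have : v ∈ V := (hV v).mpr heK
      exact (disjoint_left.mp hdis) (mem_singleton_self v) this
    omega
  · intro e he f hf hef
    exact hK e (del_subset K V he) f (del_subset K V hf) hef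

end Pool.Agent.IDX
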