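import Pool.Agent.IDX.G1

/-! Row IDX-G2: the grouping lemma for a family of blocks. -/

open Finset

namespace Pool.Agent.IDX

theorem G2_sum_Ico (m n : ℕ) :
    ∑ k ∈ Ico m (m + n), (1 : ℝ) / 2 ^ k = 2 / 2 ^ m - 2 / 2 ^ (m + n) := by
  induction n with
  | zero => simp
  | succ n ih =>
    rw [← add_assoc, Finset.sum_Ico_succ_top (by omega), ih, pow_succ]
    field_simp
    ring

/-- Distinct exponents `≥ m`. -/
theorem G2_sum_le (K : Finset ℕ) (m : ℕ) (h : ∀ k ∈ K, m ≤ k) :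
    ∑ k ∈ K, (1 : ℝ) / 2 ^ k ≤ 2 / 2 ^ m := by
  have hsub : K ⊆ Ico m (m + (K.sup id + 1)) := by
    intro k hk
    have h1 : k ≤ K.sup id := Finset.le_sup (f := id) hk
    rw [Finset.mem_Ico]
    exact ⟨h k hk, by omega⟩
  have h1 : ∑ k ∈ K, (1 : ℝ) / 2 ^ k ≤ ∑ k ∈ Ico m (m + (K.sup id + 1)), (1 : ℝ) / 2 ^ k :=
    Finset.sum_le_sum_of_subset_of_nonneg hsub (fun i _ _ => by positivity)
  rw [G2_sum_Ico] at h1
  have h2 : (0 : ℝ) ≤ 2 / 2 ^ (m + (K.sup id + 1)) := by positivity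
  linarith

/-- The cut after the block `D`, with a tail. -/
theorem G2_cut {ι β : Type} [DecidableEq β] (s : Finset ι) (a : ι → ℕ) (N P c : ℕ) (BB : Finset β)
    (t : β → ℕ) (tail : ℝ) (hN : s.card ≤ N) (hcP : c ≤ 2 ^ P)
    (hgap : ∀ D ∈ BB, ∀ D' ∈ BB, D ≠ D' → t D + (P + N + 1) < t D' ∨ t D' + (P + N + 1) < t D)
    (ht0 : 0 ≤ tail) (ht : ∀ D ∈ BB, tail < 1 / 2 ^ (t D + (P + N + 2)))
    (hsum : ∑ i ∈ s, (1 : ℝ) / 2 ^ (a i) = ∑ D ∈ BB, (c : ℝ) / 2 ^ (P + t D) + tail)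
    (D : β) (hD : D ∈ BB) :
    ∑ i ∈ s.filter (fun i => a i ≤ t D + (P + N)), (1 : ℝ) / 2 ^ (a i) =
      ∑ D' ∈ BB.filter (fun D' => t D' ≤ t D), (c : ℝ) / 2 ^ (P + t D') := by
  classical
  have hsplit := Finset.sum_filter_add_sum_filter_not BB (fun D' => t D' ≤ t D)
    (fun D' => (c : ℝ) / 2 ^ (P + t D'))
  -- the upper part
  set up : ℝ := ∑ D' ∈ BB.filter (fun D' => ¬ t D' ≤ t D), (c : ℝ) / 2 ^ (P + t D') with hup
  have hup0 : 0 ≤ up := Finset.sum_nonneg (fun i _ => by positivity)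
  have hup1 : up ≤ 2 / 2 ^ (t D + (P + N + 2)) := by
    have h1 : up ≤ ∑ D' ∈ BB.filter (fun D' => ¬ t D' ≤ t D), (1 : ℝ) / 2 ^ (t D') := by
      apply Finset.sum_le_sum
      intro D' _
      rw [pow_add, div_le_div_iff₀ (by positivity) (by positivity)]
      have h2 : (c : ℝ) ≤ 2 ^ P := by exact_mod_cast hcP
      have h3 : (0 : ℝ) < 2 ^ (t D') := by positivity
      nlinarith
    have h4 : ∑ D' ∈ BB.filter (fun D' => ¬ t D' ≤ t D), (1 : ℝ) / 2 ^ (t D') =
        ∑ k ∈ (BB.filter (fun D' => ¬ t D' ≤ t D)).image t, (1 : ℝ) / 2 ^ k := by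
      rw [Finset.sum_image]
      intro x hx y hy hxy
      by_contra hne
      simp only [Finset.coe_filter, Set.mem_ofPred_eq] at hx hy
      have hxy' : t x = t y := hxy
      rcases hgap x hx.1 y hy.1 hne with h | h <;> omega
    have h5 := G2_sum_le ((BB.filter (fun D' => ¬ t D' ≤ t D)).image t) (t D + (P + N + 2)) (by
      intro k hk
      rw [Finset.mem_image] at hk
      obtain ⟨D', hD', rfl⟩ := hk
      rw [Finset.mem_filter] at hD'
      have hne : D ≠ D' := by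
        rintro rfl
        exact hD'.2 le_rfl
      rcases hgap D hD D' hD'.1 hne with h | h
      · omega
      · omega)
    linarith
  -- the lower part is an integer multiple
  have hlow : ∃ c' : ℕ, ∑ D' ∈ BB.filter (fun D' => t D' ≤ t D), (c : ℝ) / 2 ^ (P + t D') =
      (c' : ℝ) / 2 ^ (P + t D) := by
    refine ⟨∑ D' ∈ BB.filter (fun D' => t D' ≤ t D), c * 2 ^ (t D - t D'), ?_⟩
    rw [Nat.cast_sum, Finset.sum_div]
    apply Finset.sum_congr rfl
    intro D' hD'
    rw [Finset.mem_filter] at hD'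
    have h1 : P + t D = (P + t D') + (t D - t D') := by omega
    rw [h1, pow_add 2 (P + t D') (t D - t D')]
    push_cast
    field_simp
  obtain ⟨c', hc'⟩ := hlow
  rw [hc'] at hsplit
  have hq : ∑ i ∈ s, (1 : ℝ) / 2 ^ (a i) = (c' : ℝ) / 2 ^ (P + t D) + (up + tail) := by
    rw [hsum, ← hsplit]; ring
  have hlt : up + tail < 1 / 2 ^ ((P + t D) + N) := by
    have h1 := ht D hD
    have h2 : t D + (P + N + 2) = ((P + t D) + N) + 2 := by ring
    rw [h2, pow_add] at h1 hup1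
    have h3 : (0 : ℝ) < 1 / 2 ^ ((P + t D) + N) := by positivity
    have h4 : (1 : ℝ) / (2 ^ ((P + t D) + N) * 2 ^ 2) = (1 / 2 ^ ((P + t D) + N)) * (1 / 4) := by
      field_simp; norm_num
    have h5 : (2 : ℝ) / (2 ^ ((P + t D) + N) * 2 ^ 2) = (1 / 2 ^ ((P + t D) + N)) * (1 / 2) := by
      field_simp
    rw [h4] at h1
    rw [h5] at hup1
    linarith
  obtain ⟨_, h2⟩ := gl_cut s a N N (P + t D) c' (up + tail) hN le_rfl (by linarith) hlt hq
  rw [hc', ← h2]
  have h3 : t D + (P + N) = P + t D + N := by ring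
  rw [h3]

/-- The exponents between two consecutive blocks. -/
theorem G2_block {ι β : Type} [DecidableEq β] (s : Finset ι) (a : ι → ℕ) (N P c : ℕ) (BB : Finset β)
    (t : β → ℕ) (tail : ℝ) (hN : s.card ≤ N) (hcP : c ≤ 2 ^ P)
    (hgap : ∀ D ∈ BB, ∀ D' ∈ BB, D ≠ D' → t D + (P + N + 1) < t D' ∨ t D' + (P + N + 1) < t D)
    (ht0 : 0 ≤ tail) (ht : ∀ D ∈ BB, tail < 1 / 2 ^ (t D + (P + N + 2)))
    (hsum : ∑ i ∈ s, (1 : ℝ) / 2 ^ (a i) = ∑ D ∈ BB, (c : ℝ) / 2 ^ (P + t D) + tail)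
    (D : β) (hD : D ∈ BB) :
    ∑ i ∈ s.filter (fun i => a i ≤ t D + (P + N) ∧ ∀ D' ∈ BB, t D' < t D → t D' + (P + N) < a i),
      (1 : ℝ) / 2 ^ (a i) = (c : ℝ) / 2 ^ (P + t D) := by
  classical
  have hcutD := G2_cut s a N P c BB t tail hN hcP hgap ht0 ht hsum D hD
  have hinj : ∀ D' ∈ BB, t D' = t D → D' = D := by
    intro D' hD' h
    by_contra hne
    rcases hgap D' hD' D hD hne with h1 | h1 <;> omega
  rcases (BB.filter (fun D' => t D' < t D)).eq_empty_or_nonempty with hemp | hne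
  · have h1 : BB.filter (fun D' => t D' ≤ t D) = {D} := by
      ext D'
      rw [Finset.mem_filter, Finset.mem_singleton]
      constructor
      · rintro ⟨h1, h2⟩
        rcases Nat.lt_or_ge (t D') (t D) with h | h
        · exfalso
          have : D' ∈ BB.filter (fun D' => t D' < t D) := Finset.mem_filter.2 ⟨h1, h⟩
          rw [hemp] at this
          simp at this
        · exact hinj D' h1 (by omega)
      · rintro rfl
        exact ⟨hD, le_rfl⟩
    rw [h1, Finset.sum_singleton] at hcutD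
    rw [← hcutD]
    apply Finset.sum_congr _ (fun _ _ => rfl)
    apply Finset.filter_congr
    intro i _
    constructor
    · exact fun h => h.1
    · intro h
      refine ⟨h, ?_⟩
      intro D' hD' hlt
      exfalso
      have : D' ∈ BB.filter (fun D' => t D' < t D) := Finset.mem_filter.2 ⟨hD', hlt⟩
      rw [hemp] at this
      simp at this
  · obtain ⟨D1, hD1, hmax⟩ := Finset.exists_max_image _ t hne
    rw [Finset.mem_filter] at hD1
    have hcut1 := G2_cut s a N P c BB t tail hN hcP hgap ht0 ht hsum D1 hD1.1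
    have h1 : BB.filter (fun D' => t D' ≤ t D) = insert D (BB.filter (fun D' => t D' ≤ t D1)) := by
      ext D'
      rw [Finset.mem_filter, Finset.mem_insert, Finset.mem_filter]
      constructor
      · rintro ⟨h1, h2⟩
        rcases Nat.lt_or_ge (t D') (t D) with h | h
        · right
          exact ⟨h1, hmax D' (Finset.mem_filter.2 ⟨h1, h⟩)⟩
        · left
          exact hinj D' h1 (by omega)
      · rintro (rfl | ⟨h1, h2⟩)
        · exact ⟨hD, le_rfl⟩
        · exact ⟨h1, by omega⟩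
    have hnot : D ∉ BB.filter (fun D' => t D' ≤ t D1) := by
      rw [Finset.mem_filter]
      rintro ⟨_, h⟩
      omega
    rw [h1, Finset.sum_insert hnot, ← hcut1] at hcutD
    have h2 : s.filter (fun i => a i ≤ t D + (P + N)) =
        s.filter (fun i => a i ≤ t D + (P + N) ∧ ∀ D' ∈ BB, t D' < t D → t D' + (P + N) < a i) ∪
          s.filter (fun i => a i ≤ t D1 + (P + N)) := by
      ext i
      rw [Finset.mem_union, Finset.mem_filter, Finset.mem_filter, Finset.mem_filter]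
      constructor
      · rintro ⟨hi, h⟩
        rcases Nat.lt_or_ge (t D1 + (P + N)) (a i) with h' | h'
        · left
          refine ⟨hi, h, ?_⟩
          intro D' hD' hlt
          have := hmax D' (Finset.mem_filter.2 ⟨hD', hlt⟩)
          omega
        · right
          exact ⟨hi, h'⟩
      · rintro (⟨hi, h, _⟩ | ⟨hi, h⟩)
        · exact ⟨hi, h⟩
        · exact ⟨hi, by omega⟩
    have h3 : Disjoint (s.filter (fun i => a i ≤ t D + (P + N) ∧
        ∀ D' ∈ BB, t D' < t D → t D' + (P + N) < a i)) (s.filter (fun i => a i ≤ t D1 + (P + N))) := by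
      rw [Finset.disjoint_left]
      intro i hi hi'
      rw [Finset.mem_filter] at hi hi'
      have := hi.2.2 D1 hD1.1 hD1.2
      omega
    rw [h2, Finset.sum_union h3] at hcutD
    linarith

/-- (GL) Exponents `a i` (`i ∈ s`, at most `N` of them) and blocks `D ∈ BB` at positions `t D`,
pairwise at distance `> P + N + 1`, with `∑ 2^{-a i} = ∑_D c / 2^{P + t D}`, `0 < c ≤ 2^P`.
Then there is an assignment of a block to each `i`, with `t D ≤ a i ≤ t D + P + N`, such that the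
block sums agree.

Proof.  For `D ∈ BB` apply `gl_cut` with `q = P + t D`, `u = ∑_{D' : t D' ≤ t D} c / 2^{P + t D'}`
and tail `∑_{t D' > t D} c/2^{P + t D'} ≤ ∑ 2^{-t D'} < 2 · 2^{-(t D + P + N + 2)}`
(the positions are distinct; sum of distinct powers), `g = N`.  So exponents lie in
`≤ t D + P + N` or beyond; ordering the blocks by position, every `i` lies in exactly one
`(prev + P + N, t D + P + N]`, all exponents are `≤` the last bound because the last tail is `0`,
and the sum over this range is `c/2^{P + t D}` (difference of two cuts).  Finally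
`2^{-a i} ≤ c / 2^{P + t D} ≤ 2^{-t D}` gives `t D ≤ a i`. -/
theorem gl {ι β : Type} [DecidableEq β] (s : Finset ι) (a : ι → ℕ) (N P c : ℕ) (BB : Finset β)
    (t : β → ℕ) (hBB : BB.Nonempty) (hN : s.card ≤ N) (hc : 0 < c) (hcP : c ≤ 2 ^ P)
    (hgap : ∀ D ∈ BB, ∀ D' ∈ BB, D ≠ D' → t D + (P + N + 1) < t D' ∨ t D' + (P + N + 1) < t D)
    (hsum : ∑ i ∈ s, (1 : ℝ) / 2 ^ (a i) = ∑ D ∈ BB, (c : ℝ) / 2 ^ (P + t D)) :
    ∃ f : ι → β, (∀ i ∈ s, f i ∈ BB ∧ t (f i) ≤ a i ∧ a i ≤ t (f i) + (P + N)) ∧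
      ∀ D ∈ BB, ∑ i ∈ s.filter (fun i => f i = D), (1 : ℝ) / 2 ^ (a i) = (c : ℝ) / 2 ^ (P + t D) := by
  classical
  have hsum' : ∑ i ∈ s, (1 : ℝ) / 2 ^ (a i) = ∑ D ∈ BB, (c : ℝ) / 2 ^ (P + t D) + 0 := by
    rw [hsum, add_zero]
  have ht : ∀ D ∈ BB, (0 : ℝ) < 1 / 2 ^ (t D + (P + N + 2)) := fun D _ => by positivity
  have hblock := G2_block s a N P c BB t 0 hN hcP hgap le_rfl ht hsum'
  -- the last block
  obtain ⟨D0, hD0, hmax⟩ := Finset.exists_max_image BB t hBB
  have hcut0 := G2_cut s a N P c BB t 0 hN hcP hgap le_rfl ht hsum' D0 hD0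
  have hall : BB.filter (fun D' => t D' ≤ t D0) = BB := by
    apply Finset.filter_true_of_mem
    exact fun D' hD' => hmax D' hD'
  rw [hall, ← hsum] at hcut0
  have hlast : ∀ i ∈ s, a i ≤ t D0 + (P + N) := by
    intro i hi
    by_contra hcon
    have h1 := Finset.sum_filter_add_sum_filter_not s (fun i => a i ≤ t D0 + (P + N))
      (fun i => (1 : ℝ) / 2 ^ (a i))
    rw [hcut0] at h1
    have h2 : (1 : ℝ) / 2 ^ (a i) ≤ ∑ i ∈ s.filter (fun i => ¬ a i ≤ t D0 + (P + N)), (1 : ℝ) / 2 ^ (a i) :=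
      Finset.single_le_sum (f := fun i => (1 : ℝ) / 2 ^ (a i)) (fun i _ => by positivity)
        (Finset.mem_filter.2 ⟨hi, hcon⟩)
    have h3 : (0 : ℝ) < 1 / 2 ^ (a i) := by positivity
    linarith
  -- choose the block
  have hex : ∀ i : ι, ∃ D : β, i ∈ s → (D ∈ BB ∧ a i ≤ t D + (P + N) ∧
      ∀ D' ∈ BB, t D' < t D → t D' + (P + N) < a i) := by
    intro i
    by_cases hi : i ∈ s
    · obtain ⟨D, hD, hmin⟩ := Finset.exists_min_image (BB.filter (fun D => a i ≤ t D + (P + N))) t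
        ⟨D0, Finset.mem_filter.2 ⟨hD0, hlast i hi⟩⟩
      rw [Finset.mem_filter] at hD
      refine ⟨D, fun _ => ⟨hD.1, hD.2, ?_⟩⟩
      intro D' hD' hlt
      by_contra hcon
      have := hmin D' (Finset.mem_filter.2 ⟨hD', by omega⟩)
      omega
    · exact ⟨D0, fun h => absurd h hi⟩
  choose f hf using hex
  have hfD : ∀ D ∈ BB, s.filter (fun i => f i = D) =
      s.filter (fun i => a i ≤ t D + (P + N) ∧ ∀ D' ∈ BB, t D' < t D → t D' + (P + N) < a i) := by
    intro D hD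
    apply Finset.filter_congr
    intro i hi
    obtain ⟨h1, h2, h3⟩ := hf i hi
    constructor
    · rintro rfl
      exact ⟨h2, h3⟩
    · rintro ⟨h4, h5⟩
      by_contra hne
      rcases hgap (f i) h1 D hD hne with h | h
      · have := h5 (f i) h1 (by omega)
        omega
      · have := h3 D hD (by omega)
        omega
  have hres : ∀ D ∈ BB, ∑ i ∈ s.filter (fun i => f i = D), (1 : ℝ) / 2 ^ (a i) =
      (c : ℝ) / 2 ^ (P + t D) := by
    intro D hD
    rw [hfD D hD]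
    exact hblock D hD
  refine ⟨f, ?_, hres⟩
  intro i hi
  obtain ⟨h1, h2, _⟩ := hf i hi
  refine ⟨h1, ?_, h2⟩
  have h4 := hres (f i) h1
  have h5 : (1 : ℝ) / 2 ^ (a i) ≤ ∑ j ∈ s.filter (fun j => f j = f i), (1 : ℝ) / 2 ^ (a j) :=
    Finset.single_le_sum (f := fun i => (1 : ℝ) / 2 ^ (a i)) (fun i _ => by positivity)
      (Finset.mem_filter.2 ⟨hi, rfl⟩)
  rw [h4] at h5
  have h6 : (c : ℝ) / 2 ^ (P + t (f i)) ≤ 1 / 2 ^ (t (f i)) := by
    rw [pow_add, div_le_div_iff₀ (by positivity) (by positivity)]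
    have h2 : (c : ℝ) ≤ 2 ^ P := by exact_mod_cast hcP
    have h3 : (0 : ℝ) < 2 ^ (t (f i)) := by positivity
    nlinarith
  have h7 : (1 : ℝ) / 2 ^ (a i) ≤ 1 / 2 ^ (t (f i)) := le_trans h5 h6
  rw [div_le_div_iff₀ (by positivity) (by positivity), one_mul, one_mul] at h7
  exact (Nat.pow_le_pow_iff_right (by norm_num : 1 < 2)).1 (by exact_mod_cast h7)

/-- (GL) with a tail: there are at least as many exponents as blocks. -/
theorem gl_count {ι β : Type} [DecidableEq β] (s : Finset ι) (a : ι → ℕ) (N P c : ℕ)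
    (BB : Finset β) (t : β → ℕ) (tail : ℝ) (hN : s.card ≤ N) (hc : 0 < c) (hcP : c ≤ 2 ^ P)
    (hgap : ∀ D ∈ BB, ∀ D' ∈ BB, D ≠ D' → t D + (P + N + 1) < t D' ∨ t D' + (P + N + 1) < t D)
    (ht0 : 0 ≤ tail) (ht : ∀ D ∈ BB, tail < 1 / 2 ^ (t D + (P + N + 2)))
    (hsum : ∑ i ∈ s, (1 : ℝ) / 2 ^ (a i) = ∑ D ∈ BB, (c : ℝ) / 2 ^ (P + t D) + tail) :
    BB.card ≤ s.card := by
  classical
  have hblock := G2_block s a N P c BB t tail hN hcP hgap ht0 ht hsum
  have hex : ∀ D ∈ BB, ∃ i ∈ s, a i ≤ t D + (P + N) ∧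
      ∀ D' ∈ BB, t D' < t D → t D' + (P + N) < a i := by
    intro D hD
    have h1 := hblock D hD
    have hne : (s.filter (fun i => a i ≤ t D + (P + N) ∧
        ∀ D' ∈ BB, t D' < t D → t D' + (P + N) < a i)).Nonempty := by
      by_contra hcon
      rw [Finset.not_nonempty_iff_eq_empty] at hcon
      rw [hcon, Finset.sum_empty] at h1
      have hc' : (0 : ℝ) < c := by exact_mod_cast hc
      have h2 : (0 : ℝ) < (c : ℝ) / 2 ^ (P + t D) := by positivity
      linarith
    obtain ⟨i, hi⟩ := hne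
    rw [Finset.mem_filter] at hi
    exact ⟨i, hi.1, hi.2.1, hi.2.2⟩
  rcases BB.eq_empty_or_nonempty with hemp | ⟨D0, hD0⟩
  · rw [hemp]; simp
  have hne : Nonempty ι := ⟨(hex D0 hD0).choose⟩
  choose! g hg1 hg2 hg3 using hex
  apply Finset.card_le_card_of_injOn g (fun D hD => Finset.mem_coe.2 (hg1 D (Finset.mem_coe.1 hD)))
  intro D hD D' hD' h
  rw [Finset.mem_coe] at hD hD'
  by_contra hne
  rcases hgap D hD D' hD' hne with h' | h'
  · have h1 := hg3 D' hD' D hD (by omega)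
    have h2 := hg2 D hD
    have h3 : a (g D) = a (g D') := by rw [h]
    omega
  · have h1 := hg3 D hD D' hD' (by omega)
    have h2 := hg2 D' hD'
    have h3 : a (g D) = a (g D') := by rw [h]
    omega

end Pool.Agent.IDX
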