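import Pool.Agent.IDX.G3a

/-! Row IDX-G3b: uniqueness of digits -/

open Finset

namespace Pool.Agent.IDX

theorem G3b_sum_Ico {B s i : ℕ} (hB : 2 ≤ B) :
    (∑ j ∈ Ico s i, (B : ℤ) ^ (j + 1)) + 2 ≤ 2 * (B : ℤ) ^ i := by
  have h1 := num_le (B := B) (n := i) hB (D := Ico s i) (by
    intro x hx
    exact mem_range.mpr (mem_Ico.mp hx).2)
  have h2 : ((num B (Ico s i) : ℕ) : ℤ) = ∑ j ∈ Ico s i, (B : ℤ) ^ (j + 1) := by
    unfold num
    push_cast
    rfl
  rw [← h2]
  exact_mod_cast h1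

/-- Uniqueness of bounded integer combinations, windows `≥ s`.
If `|c i| ≤ M` for `s ≤ i < m`, `4 (M + 1) ≤ B` and
`|∑_{s ≤ i < m} c i B^{i+1}| * 2 < B^{s+1}` then `c = 0` on `[s, m)`. -/
theorem G3b_digits_unique {B M s m : ℕ} (hB : 4 * (M + 1) ≤ B) (c : ℕ → ℤ)
    (hc : ∀ i ∈ Ico s m, |c i| ≤ M)
    (h : |∑ i ∈ Ico s m, c i * (B : ℤ) ^ (i + 1)| * 2 < (B : ℤ) ^ (s + 1)) :
    ∀ i ∈ Ico s m, c i = 0 := by
  induction m with
  | zero =>
    intro i hi
    simp at hi
  | succ m ih =>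
    by_cases hsm : s ≤ m
    · have hBz : (4 : ℤ) * ((M : ℤ) + 1) ≤ B := by exact_mod_cast hB
      have hB0 : (1 : ℤ) ≤ B := by
        have : (0 : ℤ) ≤ M := by positivity
        linarith
      have hsplit : ∑ i ∈ Ico s (m + 1), c i * (B : ℤ) ^ (i + 1) =
          (∑ i ∈ Ico s m, c i * (B : ℤ) ^ (i + 1)) + c m * (B : ℤ) ^ (m + 1) :=
        sum_Ico_succ_top hsm _
      have hlow : |∑ i ∈ Ico s m, c i * (B : ℤ) ^ (i + 1)| ≤ M * (2 * (B : ℤ) ^ m) := by
        calc |∑ i ∈ Ico s m, c i * (B : ℤ) ^ (i + 1)|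
            ≤ ∑ i ∈ Ico s m, |c i * (B : ℤ) ^ (i + 1)| := abs_sum_le_sum_abs _ _
          _ ≤ ∑ i ∈ Ico s m, (M : ℤ) * (B : ℤ) ^ (i + 1) := by
              apply sum_le_sum
              intro i hi
              have hp : (0 : ℤ) ≤ (B : ℤ) ^ (i + 1) := by positivity
              rw [abs_mul, abs_of_nonneg hp]
              refine mul_le_mul_of_nonneg_right (hc i ?_) hp
              rw [mem_Ico] at hi ⊢
              omega
          _ = M * ∑ i ∈ Ico s m, (B : ℤ) ^ (i + 1) := by rw [mul_sum]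
          _ ≤ M * (2 * (B : ℤ) ^ m) := by
              apply mul_le_mul_of_nonneg_left _ (by positivity)
              have := G3b_sum_Ico (B := B) (s := s) (i := m) (by omega)
              linarith
      have hpm : (0 : ℤ) < (B : ℤ) ^ m := by positivity
      have hps : (B : ℤ) ^ (s + 1) ≤ (B : ℤ) ^ (m + 1) :=
        pow_le_pow_right₀ hB0 (by omega)
      have hcm : c m = 0 := by
        by_contra hne
        have h1 : (1 : ℤ) ≤ |c m| := Int.one_le_abs hne
        have h2 : (B : ℤ) ^ (m + 1) ≤ |c m * (B : ℤ) ^ (m + 1)| := by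
          rw [abs_mul, abs_of_nonneg (by positivity : (0 : ℤ) ≤ (B : ℤ) ^ (m + 1))]
          nlinarith [pow_pos (by linarith : (0 : ℤ) < B) (m + 1)]
        have h3 : |c m * (B : ℤ) ^ (m + 1)| ≤
            |∑ i ∈ Ico s (m + 1), c i * (B : ℤ) ^ (i + 1)| +
              |∑ i ∈ Ico s m, c i * (B : ℤ) ^ (i + 1)| := by
          have h4 : c m * (B : ℤ) ^ (m + 1) = (∑ i ∈ Ico s (m + 1), c i * (B : ℤ) ^ (i + 1)) -
              ∑ i ∈ Ico s m, c i * (B : ℤ) ^ (i + 1) := by
            rw [hsplit]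
            ring
          rw [h4]
          exact abs_sub _ _
        have h5 : (B : ℤ) ^ (m + 1) = (B : ℤ) ^ m * B := pow_succ _ _
        have h6 : 4 * ((M : ℤ) * (B : ℤ) ^ m) + 4 * (B : ℤ) ^ m ≤ (B : ℤ) ^ (m + 1) := by
          rw [h5]
          nlinarith
        nlinarith
      have hrec := ih (by
        intro i hi
        apply hc
        rw [mem_Ico] at hi ⊢
        omega) (by
        rw [hsplit, hcm] at h
        simpa using h)
      intro i hi
      rw [mem_Ico] at hi
      rcases Nat.lt_succ_iff_lt_or_eq.mp hi.2 with h7 | h7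
      · exact hrec i (mem_Ico.mpr ⟨hi.1, h7⟩)
      · rw [h7]
        exact hcm
    · intro i hi
      rw [mem_Ico] at hi
      omega

/-- The difference of two numbers as a signed sum. -/
theorem G3b_num_sub {B m : ℕ} {D E : Finset ℕ} (hD : D ⊆ range m) (hE : E ⊆ range m) :
    (num B D : ℤ) - num B E =
      ∑ i ∈ range m, ((if i ∈ D then (1 : ℤ) else 0) - (if i ∈ E then 1 else 0)) *
        (B : ℤ) ^ (i + 1) := by
  have key : ∀ S : Finset ℕ, S ⊆ range m → ((num B S : ℕ) : ℤ) =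
      ∑ i ∈ range m, (if i ∈ S then (1 : ℤ) else 0) * (B : ℤ) ^ (i + 1) := by
    intro S hS
    unfold num
    push_cast
    rw [← sum_filter_add_sum_filter_not (range m) (fun i => i ∈ S)]
    have h1 : ∑ i ∈ range m with i ∉ S, (if i ∈ S then (1 : ℤ) else 0) * (B : ℤ) ^ (i + 1) = 0 := by
      apply sum_eq_zero
      intro i hi
      rw [mem_filter] at hi
      simp [hi.2]
    rw [h1, add_zero]
    have h2 : (range m).filter (fun i => i ∈ S) = S := by
      ext i
      rw [mem_filter]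
      exact ⟨fun h => h.2, fun h => ⟨hS h, h⟩⟩
    rw [h2]
    apply sum_congr rfl
    intro i hi
    simp [hi]
  rw [key D hD, key E hE, ← sum_sub_distrib]
  apply sum_congr rfl
  intro i _
  ring

/-- Distinct sets: the numbers differ by at least `B`. -/
theorem G3b_gap_aux {B k : ℕ} (hB : 3 ≤ B) {D E : Finset ℕ} (hk : k ∈ E) (hk' : k ∉ D)
    (hab : ∀ i, k < i → (i ∈ D ↔ i ∈ E)) : num B D + B ≤ num B E := by
  have hDs : D = (D.filter (fun i => i < k)) ∪ (D.filter (fun i => ¬ i < k)) :=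
    (filter_union_filter_not_eq _ _).symm
  have hD1 : num B D = num B (D.filter (fun i => i < k)) + num B (D.filter (fun i => ¬ i < k)) := by
    conv_lhs => rw [hDs]
    exact num_union (disjoint_filter_filter_not _ _ _)
  have hD2 : insert k (D.filter (fun i => ¬ i < k)) ⊆ E := by
    intro x hx
    rw [mem_insert, mem_filter] at hx
    rcases hx with rfl | ⟨hx1, hx2⟩
    · exact hk
    · have hne : x ≠ k := fun h => hk' (h ▸ hx1)
      exact (hab x (by omega)).mp hx1
  have hD3 : B ^ (k + 1) + num B (D.filter (fun i => ¬ i < k)) ≤ num B E := by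
    have h1 : num B (insert k (D.filter (fun i => ¬ i < k))) =
        B ^ (k + 1) + num B (D.filter (fun i => ¬ i < k)) := by
      unfold num
      rw [sum_insert]
      simp [hk']
    rw [← h1]
    exact num_mono hD2
  have hlow : num B (D.filter (fun i => i < k)) + B ≤ B ^ (k + 1) := by
    rcases Nat.eq_zero_or_pos k with h0 | h0
    · subst h0
      simp [num]
    · have h1 := num_le (B := B) (n := k) (by omega) (D := D.filter (fun i => i < k)) (by
        intro x hx
        exact mem_range.mpr (mem_filter.mp hx).2)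
      have h2 : B ^ (k + 1) = B ^ k * B := pow_succ B k
      have h3 : B ^ k * 3 ≤ B ^ k * B := Nat.mul_le_mul_left _ hB
      have h4 : B ^ 1 ≤ B ^ k := Nat.pow_le_pow_right (by omega) h0
      rw [pow_one] at h4
      omega
  omega

theorem num_gap {B : ℕ} (hB : 3 ≤ B) {D E : Finset ℕ} (h : D ≠ E) :
    num B D + B ≤ num B E ∨ num B E + B ≤ num B D := by
  have hne : (symmDiff D E).Nonempty := by
    rw [nonempty_iff_ne_empty]
    intro h0
    exact h (symmDiff_eq_bot.mp (by simpa using h0))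
  obtain ⟨k, hk, hmax⟩ : ∃ k ∈ symmDiff D E, ∀ i ∈ symmDiff D E, i ≤ k :=
    ⟨(symmDiff D E).max' hne, max'_mem _ _, fun i hi => le_max' _ i hi⟩
  have hab : ∀ i, k < i → (i ∈ D ↔ i ∈ E) := by
    intro i hi
    by_contra hcon
    have : i ∈ symmDiff D E := by
      rw [mem_symmDiff]
      tauto
    have := hmax i this
    omega
  rw [mem_symmDiff] at hk
  rcases hk with ⟨h1, h2⟩ | ⟨h1, h2⟩
  · right
    exact G3b_gap_aux hB h1 h2 (fun i hi => (hab i hi).symm)
  · left
    exact G3b_gap_aux hB h1 h2 hab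

theorem num_inj {B : ℕ} (hB : 3 ≤ B) {D E : Finset ℕ} (h : num B D = num B E) : D = E := by
  by_contra hne
  rcases num_gap hB hne with h1 | h1 <;> omega

/-- Uniqueness of bounded integer combinations, windows `≥ s`.
If `|c i| ≤ M` for `s ≤ i < m`, `4 (M + 1) ≤ B` and
`|∑_{s ≤ i < m} c i B^{i+1}| * 2 < B^{s+1}` then `c = 0` on `[s, m)`. -/
theorem digits_unique {B M s m : ℕ} (hB : 4 * (M + 1) ≤ B) (c : ℕ → ℤ)
    (hc : ∀ i ∈ Ico s m, |c i| ≤ M)
    (h : |∑ i ∈ Ico s m, c i * (B : ℤ) ^ (i + 1)| * 2 < (B : ℤ) ^ (s + 1)) :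
    ∀ i ∈ Ico s m, c i = 0 :=
  G3b_digits_unique hB c hc h

/-- Comparison of two digit sets whose numbers differ by `x`, up to an error, on windows `≥ s`. -/
theorem digits_eq_of_close {B s m x e : ℕ} (hB : 8 ≤ B) {D E : Finset ℕ} (hD : D ⊆ range m)
    (hE : E ⊆ range m) (h1 : num B D ≤ x + e) (h2 : x ≤ num B D + e) (h3 : num B E ≤ x + e)
    (h4 : x ≤ num B E + e) (he : 4 * (e + B ^ s) + 4 * B ^ s < B ^ (s + 1)) :
    D.filter (fun i => s ≤ i) = E.filter (fun i => s ≤ i) := by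
  rcases le_total m s with hms | hsm
  · have h5 : ∀ S : Finset ℕ, S ⊆ range m → S.filter (fun i => s ≤ i) = ∅ := by
      intro S hS
      apply filter_eq_empty_iff.mpr
      intro i hi
      have := mem_range.mp (hS hi)
      omega
    rw [h5 D hD, h5 E hE]
  · let c : ℕ → ℤ := fun i => (if i ∈ D then (1 : ℤ) else 0) - (if i ∈ E then 1 else 0)
    have hc1 : ∀ i, |c i| ≤ 1 := by
      intro i
      simp only [c]
      split_ifs <;> simp
    have hsub := G3b_num_sub (B := B) hD hE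
    have hsplit : ∑ i ∈ range m, c i * (B : ℤ) ^ (i + 1) =
        (∑ i ∈ range s, c i * (B : ℤ) ^ (i + 1)) + ∑ i ∈ Ico s m, c i * (B : ℤ) ^ (i + 1) := by
      rw [sum_range_add_sum_Ico _ hsm]
    have hlow : |∑ i ∈ range s, c i * (B : ℤ) ^ (i + 1)| ≤ 2 * (B : ℤ) ^ s := by
      calc |∑ i ∈ range s, c i * (B : ℤ) ^ (i + 1)|
          ≤ ∑ i ∈ range s, |c i * (B : ℤ) ^ (i + 1)| := abs_sum_le_sum_abs _ _
        _ ≤ ∑ i ∈ range s, (B : ℤ) ^ (i + 1) := by
            apply sum_le_sum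
            intro i hi
            have hp : (0 : ℤ) ≤ (B : ℤ) ^ (i + 1) := by positivity
            rw [abs_mul, abs_of_nonneg hp]
            have := hc1 i
            nlinarith
        _ = ∑ i ∈ Ico 0 s, (B : ℤ) ^ (i + 1) := by rw [range_eq_Ico]
        _ ≤ 2 * (B : ℤ) ^ s := by
            have := G3b_sum_Ico (B := B) (s := 0) (i := s) (by omega)
            linarith
    have hdiff : |(num B D : ℤ) - num B E| ≤ 2 * e := by
      rw [abs_le]
      constructor <;> push_cast <;> omega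
    have hkey : |∑ i ∈ Ico s m, c i * (B : ℤ) ^ (i + 1)| * 2 < (B : ℤ) ^ (s + 1) := by
      have h6 : ∑ i ∈ Ico s m, c i * (B : ℤ) ^ (i + 1) =
          ((num B D : ℤ) - num B E) - ∑ i ∈ range s, c i * (B : ℤ) ^ (i + 1) := by
        rw [hsub]
        change _ = (∑ i ∈ range m, c i * (B : ℤ) ^ (i + 1)) - _
        rw [hsplit]
        ring
      have h7 : |∑ i ∈ Ico s m, c i * (B : ℤ) ^ (i + 1)| ≤ 2 * e + 2 * (B : ℤ) ^ s := by
        rw [h6]
        exact (abs_sub _ _).trans (add_le_add hdiff hlow)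
      have h8 : (4 * ((e : ℤ) + (B : ℤ) ^ s) + 4 * (B : ℤ) ^ s) < (B : ℤ) ^ (s + 1) := by
        exact_mod_cast he
      have h9 : (0 : ℤ) < (B : ℤ) ^ s := by
        have : (0 : ℤ) < B := by exact_mod_cast (by omega : 0 < B)
        positivity
      linarith
    have hz := G3b_digits_unique (B := B) (M := 1) (s := s) (m := m) (by omega) c
      (fun i _ => by simpa using hc1 i) hkey
    ext i
    rw [mem_filter, mem_filter]
    constructor
    · rintro ⟨hi, hsi⟩
      have h6 := hz i (mem_Ico.mpr ⟨hsi, mem_range.mp (hD hi)⟩)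
      simp only [c, hi, if_true] at h6
      refine ⟨?_, hsi⟩
      by_contra hn
      simp [hn] at h6
    · rintro ⟨hi, hsi⟩
      have h6 := hz i (mem_Ico.mpr ⟨hsi, mem_range.mp (hE hi)⟩)
      simp only [c, hi, if_true] at h6
      refine ⟨?_, hsi⟩
      by_contra hn
      simp [hn] at h6

end Pool.Agent.IDX
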