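import Pool.Agent.IDX.N1
import Pool.Agent.IDX.G2
import Pool.Agent.IDX.G3
import Pool.Agent.IDX.B5

/-! Row IDX-C2c: too few binary digits -/

open Finset Filter Topology

namespace Pool.Agent.IDX

theorem C2c_prod (m B : ℕ) : ∏ i ∈ range m, (1 + (1 : ℝ) / 2 ^ (B ^ (i + 1))) =
    ∑ D ∈ (range m).powerset, (1 : ℝ) / 2 ^ num B D := by
  rw [prod_one_add]
  apply sum_congr rfl
  intro D _
  unfold num
  rw [prod_div_distrib, prod_const_one, prod_pow_eq_pow_sum]

theorem C2c_Psi (r B0 m B : ℕ) : ∃ c : ℕ, 0 < c ∧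
    c ≤ 2 ^ (m + 1 + (r + 18 + num B0 (range (r + 18)))) ∧ Psi r B0 m B / 2 =
      ∑ D ∈ (range m).powerset,
        (c : ℝ) / 2 ^ (m + 1 + (r + 18 + num B0 (range (r + 18))) + num B D) := by
  obtain ⟨c, hc, hphi⟩ := phi_dyadic r B0
  have h1 := (phi_bounds r B0).2
  refine ⟨c, hc, ?_, ?_⟩
  · rw [hphi, div_le_one (by positivity)] at h1
    have h2 : c ≤ 2 ^ (r + 18 + num B0 (range (r + 18))) := by exact_mod_cast h1
    exact h2.trans (Nat.pow_le_pow_right (by norm_num) (by omega))
  · unfold Psi
    rw [C2c_prod, hphi, mul_sum, sum_div]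
    apply sum_congr rfl
    intro D _
    rw [pow_add _ (m + 1 + (r + 18 + num B0 (range (r + 18)))) (num B D), pow_add _ (m + 1), pow_succ]
    field_simp

/-- `h = 0` is impossible: too few binary digits. -/
theorem few_digits {H K : HG} {i : ℕ → ℕ} {t r B0 m B : ℕ} (hK : ∀ f ∈ K, f ⊆ range t)
    (hK2 : ∀ f ∈ K, f.card = 2 ∨ f.card = 3) (h3 : ∀ e ∈ H, e.card = 3)
    (hi : Set.InjOn i (range t : Set ℕ)) (hUp : Up H (K.image (Finset.image i)))
    (hm : 2 ^ t < 2 ^ m)
    (hB : 2 ^ m + (m + r + 20 + num B0 (range (r + 18))) + 10 < B)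
    (hd : dn H - dn K = Psi r B0 m B / 2) : False := by
  classical
  set T0 : Finset ℕ := (range t).image i with hT0
  have hT0c : T0.card ≤ t := card_image_le.trans (card_range t).le
  have hvK : vx K ⊆ range t := by
    intro x hx
    rw [mem_vx] at hx
    obtain ⟨e, he, hxe⟩ := hx
    exact hK e he hxe
  have hsub : ∀ f ∈ K.image (Finset.image i), f ⊆ T0 ∧ 2 ≤ f.card := by
    intro f hf
    obtain ⟨f', hf', rfl⟩ := mem_image.mp hf
    refine ⟨image_subset_image (hK f' hf'), ?_⟩
    rw [card_image_of_injOn (hi.mono (by exact_mod_cast hK f' hf'))]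
    rcases hK2 f' hf' with h | h <;> omega
  have hv : vx (K.image (Finset.image i)) ⊆ T0 := by
    intro x hx
    rw [mem_vx] at hx
    obtain ⟨e, he, hxe⟩ := hx
    exact (hsub e he).1 hxe
  have hout : ∀ e ∈ H, (e \ T0).card ≤ 1 := by
    intro e he
    obtain ⟨f, hf, hfe⟩ := hUp e he
    have h1 : e \ T0 ⊆ e \ f := sdiff_subset_sdiff (subset_refl e) (hsub f hf).1
    have h2 := card_le_card h1
    rw [card_sdiff_of_subset hfe, h3 e he] at h2
    have := (hsub f hf).2
    omega
  have hdK : dn (K.image (Finset.image i)) = dn K := by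
    apply dn_image
    exact hi.mono (by exact_mod_cast hvK)
  have hcore := core_diff hv hout hUp
  rw [hdK, hd] at hcore
  obtain ⟨c, hc, hcP, hPsi⟩ := C2c_Psi r B0 m B
  set P : ℕ := m + 1 + (r + 18 + num B0 (range (r + 18))) with hP
  have hpm : 0 < 2 ^ m := by positivity
  have hcount := gl_count (T0.powerset.filter (fun S => Ind H S ∧ ¬ Ind (K.image (Finset.image i)) S))
    (fun S => T0.card + (kill H T0 S).card) (2 ^ t) P c (range m).powerset (fun D => num B D) 0
    (by
      refine (card_filter_le _ _).trans ?_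
      rw [card_powerset]
      exact Nat.pow_le_pow_right (by norm_num) hT0c) hc hcP
    (by
      intro D _ D' _ hne
      rcases num_gap (B := B) (by omega) hne with h | h
      · left
        show num B D + (P + 2 ^ t + 1) < num B D'
        omega
      · right
        show num B D' + (P + 2 ^ t + 1) < num B D
        omega) le_rfl (by intro D _; positivity)
    (by
      rw [add_zero, ← hPsi, hcore])
  rw [card_powerset, card_range] at hcount
  have h2 : (T0.powerset.filter
      (fun S => Ind H S ∧ ¬ Ind (K.image (Finset.image i)) S)).card ≤ 2 ^ t := by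
    refine (card_filter_le _ _).trans ?_
    rw [card_powerset]
    exact Nat.pow_le_pow_right (by norm_num) hT0c
  omega

end Pool.Agent.IDX
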