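import Pool.Agent.IDX.C1
import Pool.Agent.IDX.C2b
import Pool.Agent.IDX.C2c

/-! Row IDX-C2d: the vertex a' -/

open Finset Filter Topology

namespace Pool.Agent.IDX

theorem C2d_AC {K : HG} {i : ℕ → ℕ} {t : ℕ} (hK : AC K) (hs : ∀ f ∈ K, f ⊆ range t)
    (hi : Set.InjOn i (range t : Set ℕ)) : AC (K.image (Finset.image i)) := by
  intro e he f hf h
  rw [mem_image] at he hf
  obtain ⟨e', he', rfl⟩ := he
  obtain ⟨f', hf', rfl⟩ := hf
  have h0 : e' ⊆ f' := by
    intro x hx
    have h1 := h (mem_image_of_mem i hx)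
    obtain ⟨y, hy, hxy⟩ := mem_image.mp h1
    have h2 : y = x := hi (mem_coe.mpr (hs f' hf' hy)) (mem_coe.mpr (hs e' he' hx)) hxy
    rwa [← h2]
  rw [hK e' he' f' hf' h0]

theorem C2d_Psi_nonneg (r B0 m B : ℕ) : 0 ≤ Psi r B0 m B := by
  unfold Psi
  have h : 0 ≤ phi r B0 := le_trans (by positivity) (phi_bounds r B0).1
  exact mul_nonneg (div_nonneg h (by positivity)) (Finset.prod_nonneg fun i _ => by positivity)

theorem C2d_Psi_le {r B0 m B : ℕ} (hB : 2 ≤ B) : Psi r B0 m B ≤ (5 / 8 : ℝ) ^ m := by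
  have h0 : 0 ≤ phi r B0 := le_trans (by positivity) (phi_bounds r B0).1
  have h1 := (phi_bounds r B0).2
  have h2 : ∏ i ∈ range m, (1 + (1 : ℝ) / 2 ^ (B ^ (i + 1))) ≤ (5 / 4 : ℝ) ^ m := by
    calc ∏ i ∈ range m, (1 + (1 : ℝ) / 2 ^ (B ^ (i + 1))) ≤ ∏ _i ∈ range m, (5 / 4 : ℝ) := by
          apply Finset.prod_le_prod
          · intro i _
            positivity
          · intro i _
            have h3 : 2 ≤ B ^ (i + 1) := by
              calc 2 ≤ B := hB
                _ = B ^ 1 := (pow_one B).symm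
                _ ≤ B ^ (i + 1) := Nat.pow_le_pow_right (by omega) (by omega)
            have h4 : (4 : ℝ) ≤ 2 ^ (B ^ (i + 1)) := by
              calc (4 : ℝ) = 2 ^ 2 := by norm_num
                _ ≤ 2 ^ (B ^ (i + 1)) := pow_le_pow_right₀ (by norm_num) h3
            have h5 : (1 : ℝ) / 2 ^ (B ^ (i + 1)) ≤ 1 / 4 := one_div_le_one_div_of_le (by norm_num) h4
            linarith
      _ = (5 / 4 : ℝ) ^ m := by rw [prod_const, card_range]
  unfold Psi
  have h6 : phi r B0 / 2 ^ m ≤ 1 / 2 ^ m := div_le_div_of_nonneg_right h1 (by positivity)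
  calc phi r B0 / 2 ^ m * ∏ i ∈ range m, (1 + (1 : ℝ) / 2 ^ (B ^ (i + 1)))
      ≤ 1 / 2 ^ m * (5 / 4 : ℝ) ^ m :=
        mul_le_mul h6 h2 (Finset.prod_nonneg fun i _ => by positivity) (by positivity)
    _ = (5 / 8 : ℝ) ^ m := by
        rw [one_div, ← inv_pow, ← mul_pow]
        norm_num

theorem C2d_lk0 (H : HG) (a : ℕ) : lk H {a} ∅ = del H {a} := by
  unfold lk del
  ext e
  simp only [mem_image, mem_filter]
  constructor
  · rintro ⟨e', ⟨he', h1⟩, rfl⟩
    have h2 : Disjoint e' {a} := by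
      rw [disjoint_iff_inter_eq_empty]
      exact subset_empty.mp h1
    rw [sdiff_eq_self_of_disjoint h2]
    exact ⟨he', h2⟩
  · rintro ⟨he, h1⟩
    refine ⟨e, ⟨he, ?_⟩, sdiff_eq_self_of_disjoint h1⟩
    rw [disjoint_iff_inter_eq_empty] at h1
    rw [h1]

theorem C2d_lk1 (H : HG) (a : ℕ) : lk H {a} {a} =
    del H {a} ∪ (H.filter (fun e => a ∈ e)).image (fun e => e.erase a) := by
  unfold lk del
  ext e
  simp only [mem_image, mem_filter, mem_union]
  constructor
  · rintro ⟨e', ⟨he', _⟩, rfl⟩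
    by_cases ha : a ∈ e'
    · right
      exact ⟨e', ⟨he', ha⟩, (sdiff_singleton_eq_erase a e').symm⟩
    · left
      have h2 : Disjoint e' {a} := disjoint_singleton_right.mpr ha
      rw [sdiff_eq_self_of_disjoint h2]
      exact ⟨he', h2⟩
  · rintro (⟨he, h1⟩ | ⟨e', ⟨he', ha⟩, rfl⟩)
    · exact ⟨e, ⟨he, inter_subset_right⟩, sdiff_eq_self_of_disjoint h1⟩
    · exact ⟨e', ⟨he', inter_subset_right⟩, sdiff_singleton_eq_erase a e'⟩

theorem C2d_cond (H : HG) (a : ℕ) : dn (del H {a}) +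
    dn (del H {a} ∪ (H.filter (fun e => a ∈ e)).image (fun e => e.erase a)) = 2 * dn H := by
  have h1 := dn_cond H {a}
  have h2 : ({a} : Finset ℕ).powerset = {∅, {a}} := by
    ext s
    rw [mem_powerset, mem_insert, mem_singleton, subset_singleton_iff]
  rw [h2, sum_pair (singleton_ne_empty a).symm, C2d_lk0, C2d_lk1, card_singleton, pow_one] at h1
  linarith

/-- (S1) Suppose `dn (H m) = (209/512 + Ψ_m)/2` for all `m`, `H m` 3-uniform.  Then for arbitrarily
large `m` there is a vertex `a` such that, with `F` the edges of `H m` not containing `a` and `G` the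
link of `a`, `F` is below a clutter `K` with edges of size 2, 3 and density `209/512`. -/
theorem kernel (r B0 : ℕ) (Bf : ℕ → ℕ)
    (hBf : ∀ m, 2 ^ m + (m + r + 20 + num B0 (range (r + 18))) + 10 < Bf m) (H : ℕ → HG)
    (h3 : ∀ m, ∀ e ∈ H m, e.card = 3)
    (hd : ∀ m, dn (H m) = (209 / 512 + Psi r B0 m (Bf m)) / 2) (m0 : ℕ) :
    ∃ m ≥ m0, ∃ F G K : HG, (∀ e ∈ F, e.card = 3) ∧ (∀ e ∈ G, e.card = 2) ∧
      (∀ e ∈ K, e.card = 2 ∨ e.card = 3) ∧ AC K ∧ Up F K ∧ dn K = 209 / 512 ∧
      dn F + dn (F ∪ G) = dn K + Psi r B0 m (Bf m) := by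
  classical
  obtain ⟨θ, t, K, i, hθ, hK0, hAC, hi, hUp, hlim⟩ := ct_three H (fun j e he => (h3 j e he).le)
  have hs : ∀ f ∈ K, f ⊆ range t := fun f hf => (hK0 f hf).1
  -- the density of the kernel
  have hPsi : Tendsto (fun j => Psi r B0 (θ j) (Bf (θ j))) atTop (𝓝 0) := by
    have h1 : Tendsto (fun j => (5 / 8 : ℝ) ^ (θ j)) atTop (𝓝 0) :=
      (tendsto_pow_atTop_nhds_zero_of_lt_one (by norm_num) (by norm_num)).comp hθ.tendsto_atTop
    refine squeeze_zero (fun j => C2d_Psi_nonneg _ _ _ _) (fun j => ?_) h1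
    exact C2d_Psi_le (by have := hBf (θ j); have h0 := Nat.zero_le (2 ^ (θ j)); omega)
  have hdK : dn K = 209 / 1024 := by
    have h1 : Tendsto (fun j => dn (H (θ j))) atTop (𝓝 ((209 / 512 + 0) / 2)) := by
      have h2 : (fun j => dn (H (θ j))) = fun j => (209 / 512 + Psi r B0 (θ j) (Bf (θ j))) / 2 :=
        funext fun j => hd _
      rw [h2]
      exact (hPsi.const_add _).div_const _
    have h3 := tendsto_nhds_unique hlim h1
    rw [h3]
    norm_num
  have h0 : ∅ ∉ K := by
    intro h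
    rw [dn_zero h] at hdK
    norm_num at hdK
  obtain ⟨V, hV, hVd, hV3, hVAC, hVK⟩ := clutter_ones hAC (fun f hf => (hK0 f hf).2) h0
  have hdV : dn (del K V) = 209 / 1024 * 2 ^ V.card := by
    rw [hdK, eq_div_iff (by positivity)] at hVd
    exact hVd.symm
  have hV2 : V.card < 3 := by
    by_contra hcon
    push Not at hcon
    have h1 := dn_le_one (del K V)
    rw [hdV] at h1
    have h2 : (8 : ℝ) ≤ 2 ^ V.card := by
      calc (8 : ℝ) = 2 ^ 3 := by norm_num
        _ ≤ 2 ^ V.card := pow_le_pow_right₀ (by norm_num) hcon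
    linarith
  have hVne2 : V.card ≠ 2 := by
    intro h2
    rw [h2] at hdV
    rcases gap (del K V) hV3 with h | h <;> rw [hdV] at h <;> norm_num at h
  have hVne0 : V.card ≠ 0 := by
    intro h
    rw [card_eq_zero] at h
    have h1 : ∀ f ∈ K, f.card = 2 ∨ f.card = 3 := by
      intro f hf
      rcases hVK f hf with h2 | ⟨v, hv, _⟩
      · exact hV3 f h2
      · rw [h] at hv
        exact absurd hv (notMem_empty v)
    have h4 : t < θ (t + 1) := lt_of_lt_of_le (Nat.lt_succ_self t) hθ.le_apply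
    exact few_digits hs h1 (h3 (θ (t + 1))) (hi (t + 1)) (hUp (t + 1))
      (Nat.pow_lt_pow_right (by norm_num) h4) (hBf (θ (t + 1))) (by
        rw [hd, hdK]
        ring)
  have hV1 : V.card = 1 := by omega
  obtain ⟨a, rfl⟩ := card_eq_one.mp hV1
  -- the objects
  have haK : {a} ∈ K := (hV a).mp (mem_singleton_self a)
  have hat : a ∈ range t := hs _ haK (mem_singleton_self a)
  set j := m0 with hj
  set K0 := del K {a} with hK0def
  have hK0K : K0 ⊆ K := del_subset K {a}
  have hs0 : ∀ f ∈ K0, f ⊆ range t := fun f hf => hs f (hK0K hf)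
  refine ⟨θ j, hθ.le_apply, del (H (θ j)) {i j a},
    ((H (θ j)).filter (fun e => i j a ∈ e)).image (fun e => e.erase (i j a)),
    K0.image (Finset.image (i j)), ?_, ?_, ?_, ?_, ?_, ?_, ?_⟩
  · intro e he
    exact h3 _ e (del_subset _ _ he)
  · intro e he
    obtain ⟨e', he', rfl⟩ := mem_image.mp he
    rw [mem_filter] at he'
    rw [card_erase_of_mem he'.2, h3 _ e' he'.1]
  · intro e he
    obtain ⟨e', he', rfl⟩ := mem_image.mp he
    rw [card_image_of_injOn ((hi j).mono (by exact_mod_cast hs0 e' he'))]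
    exact hV3 e' he'
  · exact C2d_AC hVAC hs0 (hi j)
  · intro e he
    obtain ⟨f, hf, hfe⟩ := hUp j e (del_subset _ _ he)
    obtain ⟨f', hf', rfl⟩ := mem_image.mp hf
    rcases hVK f' hf' with h | ⟨v, hv, rfl⟩
    · exact ⟨_, mem_image_of_mem _ h, hfe⟩
    · exfalso
      rw [mem_singleton] at hv
      subst hv
      have h1 : i j v ∈ e := hfe (mem_image_of_mem _ (mem_singleton_self v))
      have h2 : Disjoint e {i j v} := by
        unfold del at he
        exact (mem_filter.mp he).2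
      exact disjoint_singleton_right.mp h2 h1
  · have h1 : dn (K0.image (Finset.image (i j))) = dn K0 := by
      apply dn_image
      refine (hi j).mono ?_
      intro x hx
      have hx' : x ∈ vx K0 := by exact_mod_cast hx
      rw [mem_vx] at hx'
      obtain ⟨e, he, hxe⟩ := hx'
      exact_mod_cast hs0 e he hxe
    rw [h1, hdV, hV1]
    norm_num
  · have h1 : dn (K0.image (Finset.image (i j))) = dn K0 := by
      apply dn_image
      refine (hi j).mono ?_
      intro x hx
      have hx' : x ∈ vx K0 := by exact_mod_cast hx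
      rw [mem_vx] at hx'
      obtain ⟨e, he, hxe⟩ := hx'
      exact_mod_cast hs0 e he hxe
    rw [C2d_cond, h1, hdV, hV1, hd]
    ring

end Pool.Agent.IDX
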