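import Pool.Agent.IDX.N0
import Pool.Agent.IDX.B5

/-! Row IDX-N1b: the blocks Delta0 -/

open Finset

namespace Pool.Agent.IDX

theorem N1b_card_ge : ∀ e ∈ Fm, 2 ≤ e.card := by decide

theorem N1b_card_two : ∀ e ∈ Fm, e.card ≤ 2 → e = {0, 1} := by decide

theorem N1b_sub_range : ∀ e ∈ Fm, e ⊆ range 18 := by decide

theorem N1b_zero_or_one : ∀ e ∈ Fm, 0 ∈ e ∨ 1 ∈ e := by decide

theorem N1b_mem_vpart {r v : ℕ} {T : Finset ℕ} : v ∈ vpart r T ↔ v < 18 ∧ r + v ∈ T := by
  unfold vpart
  rw [mem_filter, mem_range]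

theorem mem_Delta0 {r : ℕ} {T : Finset ℕ} :
    T ∈ Delta0 r ↔ T ⊆ range (r + 18) ∧ Ind Fm (vpart r T) := by
  unfold Delta0
  rw [mem_filter, mem_powerset]

theorem Delta0_down {r : ℕ} {T T' : Finset ℕ} (h : T ∈ Delta0 r) (h' : T' ⊆ T) : T' ∈ Delta0 r := by
  rw [mem_Delta0] at h ⊢
  refine ⟨h'.trans h.1, fun e he hsub => h.2 e he (hsub.trans ?_)⟩
  intro v hv
  rw [N1b_mem_vpart] at hv ⊢
  exact ⟨hv.1, h' hv.2⟩

theorem empty_mem_Delta0 (r : ℕ) : ∅ ∈ Delta0 r := by
  rw [mem_Delta0]
  refine ⟨empty_subset _, fun e he hsub => ?_⟩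
  have h1 := N1b_card_ge e he
  have h2 : e ⊆ ∅ := by
    intro v hv
    have := hsub hv
    rw [N1b_mem_vpart] at this
    exact absurd this.2 (notMem_empty _)
  have h3 := card_le_card h2
  rw [card_empty] at h3
  omega

theorem singleton_mem_Delta0 {r i : ℕ} (h : i < r + 18) : {i} ∈ Delta0 r := by
  rw [mem_Delta0]
  refine ⟨singleton_subset_iff.2 (mem_range.2 h), fun e he hsub => ?_⟩
  have h1 := N1b_card_ge e he
  have h2 : e ⊆ {i - r} := by
    intro v hv
    have := hsub hv
    rw [N1b_mem_vpart, mem_singleton] at this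
    rw [mem_singleton]
    omega
  have h3 := card_le_card h2
  rw [card_singleton] at h3
  omega

/-- The free windows. -/
theorem free_mem_Delta0 {r : ℕ} {T : Finset ℕ} (h : T ⊆ range r) : T ∈ Delta0 r := by
  rw [mem_Delta0]
  refine ⟨fun t ht => ?_, fun e he hsub => ?_⟩
  · have := mem_range.1 (h ht)
    rw [mem_range]
    omega
  have h1 := N1b_card_ge e he
  have h2 : e ⊆ ∅ := by
    intro v hv
    have := hsub hv
    rw [N1b_mem_vpart] at this
    have h3 := mem_range.1 (h this.2)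
    omega
  have h3 := card_le_card h2
  rw [card_empty] at h3
  omega

/-- The set of all windows `r + v`, `v ≥ 2`, is a block. -/
theorem V0_mem_Delta0 (r : ℕ) : Ico (r + 2) (r + 18) ∈ Delta0 r := by
  rw [mem_Delta0]
  refine ⟨fun t ht => ?_, fun e he hsub => ?_⟩
  · rw [mem_Ico] at ht
    rw [mem_range]
    omega
  rcases N1b_zero_or_one e he with h0 | h0
  · have := hsub h0
    rw [N1b_mem_vpart, mem_Ico] at this
    omega
  · have := hsub h0
    rw [N1b_mem_vpart, mem_Ico] at this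
    omega

/-- All pairs except `{r, r+1}` are blocks. -/
theorem pair_mem_Delta0 {r i j : ℕ} (hi : i < r + 18) (hj : j < r + 18) (h : {i, j} ≠ ({r, r + 1} : Finset ℕ)) :
    {i, j} ∈ Delta0 r := by
  rw [mem_Delta0]
  refine ⟨fun t ht => ?_, fun e he hsub => h ?_⟩
  · rw [mem_insert, mem_singleton] at ht
    rw [mem_range]
    rcases ht with rfl | rfl
    · exact hi
    · exact hj
  have h2 : e ⊆ {i - r, j - r} := by
    intro v hv
    have := hsub hv
    rw [N1b_mem_vpart, mem_insert, mem_singleton] at this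
    rw [mem_insert, mem_singleton]
    omega
  have h3 : e.card ≤ 2 := (card_le_card h2).trans card_le_two
  have h4 := N1b_card_two e he h3
  have h5 : 0 ∈ vpart r {i, j} := hsub (by rw [h4]; decide)
  have h6 : 1 ∈ vpart r {i, j} := hsub (by rw [h4]; decide)
  rw [N1b_mem_vpart, mem_insert, mem_singleton] at h5 h6
  ext x
  rw [mem_insert, mem_singleton, mem_insert, mem_singleton]
  omega

/-- No block contains an edge of `Fm`. -/
theorem notMem_Delta0 {r : ℕ} {T e : Finset ℕ} (he : e ∈ Fm) (h : e.image (fun v => r + v) ⊆ T) :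
    T ∉ Delta0 r := by
  intro hT
  rw [mem_Delta0] at hT
  refine hT.2 e he (fun v hv => ?_)
  rw [N1b_mem_vpart]
  exact ⟨mem_range.1 (N1b_sub_range e he hv), h (mem_image_of_mem _ hv)⟩

theorem phi_bounds (r B0 : ℕ) : 1 / 2 ^ (r + 18) ≤ phi r B0 ∧ phi r B0 ≤ 1 := by
  constructor
  · have h1 : (1 : ℝ) / 2 ^ (r + 18 + num B0 ∅) ≤ phi r B0 := by
      unfold phi
      exact single_le_sum (f := fun T : Finset ℕ => (1 : ℝ) / 2 ^ (r + 18 + num B0 T))
        (fun T _ => by positivity) (empty_mem_Delta0 r)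
    have h2 : num B0 ∅ = 0 := by
      unfold num
      exact sum_empty
    rwa [h2, Nat.add_zero] at h1
  · unfold phi
    calc ∑ T ∈ Delta0 r, (1 : ℝ) / 2 ^ (r + 18 + num B0 T)
        ≤ ∑ _T ∈ Delta0 r, (1 : ℝ) / 2 ^ (r + 18) := by
          refine sum_le_sum (fun T _ => ?_)
          exact one_div_le_one_div_of_le (by positivity)
            (pow_le_pow_right₀ (by norm_num) (Nat.le_add_right _ _))
      _ = (Delta0 r).card * ((1 : ℝ) / 2 ^ (r + 18)) := by
          rw [sum_const, nsmul_eq_mul]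
      _ ≤ (2 ^ (r + 18) : ℝ) * ((1 : ℝ) / 2 ^ (r + 18)) := by
          refine mul_le_mul_of_nonneg_right ?_ (by positivity)
          have h3 : (Delta0 r).card ≤ 2 ^ (r + 18) := by
            have h4 : Delta0 r ⊆ (range (r + 18)).powerset := by
              intro T hT
              rw [mem_powerset]
              exact (mem_Delta0.1 hT).1
            have h5 := card_le_card h4
            rwa [card_powerset, card_range] at h5
          exact_mod_cast h3
      _ = 1 := by
          rw [mul_one_div, div_self (by positivity)]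

/-- `φ` is a dyadic rational with denominator `2^{r + 18 + num B0 (range (r+18))}`. -/
theorem phi_dyadic (r B0 : ℕ) : ∃ c : ℕ, 0 < c ∧
    phi r B0 = c / 2 ^ (r + 18 + num B0 (range (r + 18))) := by
  have hle : ∀ T ∈ Delta0 r, num B0 T ≤ num B0 (range (r + 18)) := by
    intro T hT
    unfold num
    exact sum_le_sum_of_subset (mem_Delta0.1 hT).1
  refine ⟨∑ T ∈ Delta0 r, 2 ^ (num B0 (range (r + 18)) - num B0 T), ?_, ?_⟩
  · exact sum_pos (fun T _ => by positivity) ⟨∅, empty_mem_Delta0 r⟩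
  · unfold phi
    push_cast
    rw [sum_div]
    refine sum_congr rfl (fun T hT => ?_)
    obtain ⟨k, hk⟩ := Nat.exists_eq_add_of_le (hle T hT)
    rw [hk, Nat.add_sub_cancel_left, ← Nat.add_assoc, pow_add 2 (r + 18 + num B0 T) k]
    field_simp

end Pool.Agent.IDX
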