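import Pool.Agent.IDX.C1
import Pool.Agent.IDX.N1
import Pool.Agent.IDX.G2
import Pool.Agent.IDX.G3
import Pool.Agent.IDX.B5

/-! Row IDX-C2a: the bound for the number of vertices -/

open Finset Filter Topology

namespace Pool.Agent.IDX

theorem C2a_AC {K : HG} {i : ℕ → ℕ} {t : ℕ} (hK : AC K) (hs : ∀ f ∈ K, f ⊆ range t)
    (hi : Set.InjOn i (range t : Set ℕ)) : AC (K.image (Finset.image i)) := by
  intro e he f hf h
  rw [mem_image] at he hf
  obtain ⟨e', he', rfl⟩ := he
  obtain ⟨f', hf', rfl⟩ := hf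
  have h0 : e' ⊆ f' := by
    intro x hx
    have h1 := h (mem_image_of_mem i hx)
    obtain ⟨y, hy, hxy⟩ := mem_image.mp h1
    have h2 : y = x := hi (mem_coe.mpr (hs f' hf' hy)) (mem_coe.mpr (hs e' he' hx)) hxy
    rwa [← h2]
  rw [hK e' he' f' hf' h0]

theorem C2a_vx {K : HG} {t : ℕ} (hs : ∀ f ∈ K, f ⊆ range t) : vx K ⊆ range t := by
  intro x hx
  rw [mem_vx] at hx
  obtain ⟨e, he, hxe⟩ := hx
  exact hs e he hxe

/-- (FK) -/
theorem exists_C (ρ : ℝ) : ∃ C : ℕ, ∀ K : HG, AC K → (∀ e ∈ K, e.card ≤ 3) → dn K = ρ →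
    (vx K).card ≤ C := by
  by_contra hcon
  push Not at hcon
  choose K hK h3 hd hc using hcon
  obtain ⟨θ, t, K0, i, hθ, hK0, hAC, hi, hUp, hlim⟩ := ct_three K h3
  have hd0 : dn K0 = ρ := by
    have h1 : (fun j => dn (K (θ j))) = fun _ => ρ := funext fun j => hd _
    rw [h1] at hlim
    exact (tendsto_nhds_unique hlim tendsto_const_nhds)
  have hs : ∀ f ∈ K0, f ⊆ range t := fun f hf => (hK0 f hf).1
  have h1 : dn (K0.image (Finset.image (i t))) = dn K0 := by
    apply dn_image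
    exact (hi t).mono (by exact_mod_cast C2a_vx hs)
  have h2 := up_of_dn_eq (hUp t) (by rw [hd, h1, hd0])
  have h4 := eq_of_up_up (hUp t) h2 (hK _) (C2a_AC hAC hs (hi t))
  have h5 := hc (θ t)
  rw [h4] at h5
  have h6 : vx (K0.image (Finset.image (i t))) ⊆ (range t).image (i t) := by
    intro x hx
    rw [mem_vx] at hx
    obtain ⟨e, he, hxe⟩ := hx
    obtain ⟨e', he', rfl⟩ := mem_image.mp he
    exact image_subset_image (hs e' he') hxe
  have h7 : (vx (K0.image (Finset.image (i t)))).card ≤ t := by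
    calc _ ≤ ((range t).image (i t)).card := card_le_card h6
      _ ≤ (range t).card := card_image_le
      _ = t := card_range t
  have h8 : t ≤ θ t := hθ.le_apply
  omega

end Pool.Agent.IDX
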