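import Mathlib

/-!
Project IDX (MP_90b0e7_co): a countable 3-uniform hypergraph whose independence density is not the
independence density of a finite 3-uniform hypergraph.  Plan: team-store IDX_proof.md.

Finite hypergraphs are finite sets of finite subsets of `ℕ`.
-/

open Finset

namespace Pool.Agent.IDX

/-- Finite hypergraphs on `ℕ`. -/
abbrev HG := Finset (Finset ℕ)

/-- `R` contains no edge of `H`. -/
def Ind (H : HG) (R : Finset ℕ) : Prop := ∀ e ∈ H, ¬ e ⊆ R

instance (H : HG) : DecidablePred (Ind H) := fun R => by unfold Ind; infer_instance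

/-- The set of all vertices lying in an edge. -/
def vx (H : HG) : Finset ℕ := H.sup id

open Classical in
/-- The proportion of the subsets of `U` with the property `p`. -/
noncomputable def pr (U : Finset ℕ) (p : Finset ℕ → Prop) : ℝ :=
  ((U.powerset.filter p).card : ℝ) / 2 ^ U.card

/-- The independence density. -/
noncomputable def dn (H : HG) : ℝ := pr (vx H) (Ind H)

/-- Every edge of `H` contains an edge of `K`. -/
def Up (H K : HG) : Prop := ∀ e ∈ H, ∃ f ∈ K, f ⊆ e

/-- The edges avoiding `X`. -/
def del (H : HG) (X : Finset ℕ) : HG := H.filter (fun e => Disjoint e X)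

/-- The link of `S ⊆ T`: traces outside `T` of the edges whose part in `T` lies in `S`. -/
def lk (H : HG) (T S : Finset ℕ) : HG :=
  (H.filter (fun e => e ∩ T ⊆ S)).image (fun e => e \ T)

/-- The vertices outside `Γ` that cannot be added to `S` (singly). -/
def kill (H : HG) (Γ S : Finset ℕ) : Finset ℕ :=
  (vx H \ Γ).filter (fun z => ∃ e ∈ H, z ∈ e ∧ e ⊆ insert z S)

/-- Clutters. -/
def AC (K : HG) : Prop := ∀ e ∈ K, ∀ f ∈ K, e ⊆ f → e = f

/-- The number `∑_{i ∈ D} B^{i+1}`. -/
def num (B : ℕ) (D : Finset ℕ) : ℕ := ∑ i ∈ D, B ^ (i + 1)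

/-- `max D + 1`, and `0` if `D` is empty. -/
def top (D : Finset ℕ) : ℕ := D.sup (fun i => i + 1)

end Pool.Agent.IDX
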