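import Pool.Agent.IDX.R3

/-! Row IDX-E1b: the structure of F -/

open Finset

namespace Pool.Agent.IDX

/-- Stage 2 with (S5). -/
theorem structure_R (C r : ℕ) : ∃ b0 : ℕ, ∀ B0 ≥ b0, ∀ (F G : HG) (s' : ℕ),
    (∀ e ∈ F, e.card = 3) → (vx F).card ≤ C → (∀ e ∈ G, e.card = 2) →
    dn (F ∪ G) = 2 ^ s' * phi r B0 →
    ∃ i : ℕ → ℕ, Set.InjOn i (range 18 : Set ℕ) ∧ (∀ v < 18, i v ∈ vx (F ∪ G)) ∧
      (∀ e ∈ Rs, e.image i ∈ F) ∧
      ∀ e ∈ F, e ⊆ (range 18).image i → (∃ e' ∈ Rs, e = e'.image i) ∨ (i 0 ∈ e ∧ i 1 ∈ e) := by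
  set g : ℕ := C + (6 * (r + 18) + 6) with hg
  set N : ℕ := 2 ^ g + 2 ^ C with hN
  set Th : ℕ := g + C + C ^ 2 + (r + 18) + N + (r + 18) + (r + 18) + 10 with hTh
  refine ⟨Th ^ 8, fun B0 hB0 F G s' hF hFC hG hdn => ?_⟩
  have hphi := phi_bounds r B0
  have hdnlow : (1 : ℝ) / 2 ^ (r + 18) ≤ dn (F ∪ G) := by
    rw [hdn]
    have h1 : (1 : ℝ) ≤ 2 ^ s' := one_le_pow₀ (by norm_num)
    have h2 : 0 ≤ phi r B0 := le_trans (by positivity) hphi.1
    nlinarith [hphi.1]
  have hdnG : (1 : ℝ) / 2 ^ (r + 18) ≤ dn G :=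
    le_trans hdnlow (dn_mono (up_of_subset Finset.subset_union_right))
  obtain ⟨T, hT, hTc⟩ := graph_cover hG hdnG
  have hs' : 2 ^ s' ≤ 2 ^ (r + 18) := by
    have h1 := dn_le_one (F ∪ G)
    rw [hdn] at h1
    have h2 : (2 : ℝ) ^ s' * (1 / 2 ^ (r + 18)) ≤ 1 := by
      refine le_trans ?_ h1
      exact mul_le_mul_of_nonneg_left hphi.1 (by positivity)
    have h3 : (2 : ℝ) ^ s' ≤ 2 ^ (r + 18) := by
      rw [mul_one_div, div_le_one (by positivity)] at h2
      exact h2
    exact_mod_cast h3
  have hΓcard : (vx F ∪ T).card ≤ g := by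
    refine le_trans (Finset.card_union_le _ _) ?_
    omega
  let s : Sys :=
    { n := r + 18
      BB := Delta0 r
      B := B0
      P := r + 18
      c := 2 ^ s'
      F := F
      G := G
      K := F
      Γ := vx F ∪ T
      N := N
      q := r + 18
      C := C
      Th := Th
      hBB := fun D hD => (mem_Delta0.mp hD).1
      hBB0 := empty_mem_Delta0 r
      hBB1 := fun i hi => singleton_mem_Delta0 hi
      hF := hF
      hG := hG
      hK := fun e he => Or.inr (hF e he)
      hKa := fun e he f hf hef =>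
        Finset.eq_of_subset_of_card_le hef (by rw [hF e he, hF f hf])
      hUp := up_refl F
      hΓK := Finset.subset_union_left
      hΓG := fun e he => le_trans
        (Finset.card_le_card (Finset.sdiff_subset_sdiff (le_refl _) Finset.subset_union_right))
        (hTc e he)
      hc := by positivity
      hcP := hs'
      heq := by
        rw [hdn, phi, Finset.mul_sum]
        congr 1
        apply Finset.sum_congr rfl
        intro D _
        push_cast
        ring
      hN := by
        have h1 : 2 ^ (vx F ∪ T).card ≤ 2 ^ g := Nat.pow_le_pow_right (by norm_num) hΓcard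
        have h2 : 2 ^ (vx F).card ≤ 2 ^ C := Nat.pow_le_pow_right (by norm_num) hFC
        omega
      hq := hdnlow
      hC := hFC
      hTh := by omega
      hB := hB0 }
  obtain ⟨t, ht⟩ := exists_sysD s
  have htn : t.n = r + 18 := by rw [ht]
  have htBB : t.BB = Delta0 r := by rw [ht]
  have htFK : t.F = t.K := by rw [ht]
  have htP : t.P = r + 18 := by rw [ht]
  have htc : t.c = 2 ^ s' := by rw [ht]
  obtain ⟨u, hu, hur⟩ := stage2 t r s' htn htBB htFK htP htc
  have huF : u.F = F := by rw [hu, ht]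
  have huG : u.G = G := by rw [hu, ht]
  have hun : u.n = r + 18 := by rw [hu, ht]
  refine ⟨fun v => u.vv (r + v), ?_, ?_, ?_, ?_⟩
  · intro a ha b hb hab
    have ha' : a < 18 := by simpa using ha
    have hb' : b < 18 := by simpa using hb
    have h := u.vv_inj (show (r + a) ∈ ((range u.n : Finset ℕ) : Set ℕ) by
        rw [hun]; simp; omega)
      (show (r + b) ∈ ((range u.n : Finset ℕ) : Set ℕ) by rw [hun]; simp; omega) hab
    omega
  · intro v hv
    have h := u.vv_mem_vx (i := r + v) (by rw [hun]; omega)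
    rw [huF, huG] at h
    exact h
  · intro e he
    have h := u.triple_mem he
    rw [huF, hur] at h
    exact h
  · intro e he hsub
    have h := u.triple_cases (e := e) (by rw [huF]; exact he) (by rw [hur]; exact hsub)
    rw [hur] at h
    exact h

end Pool.Agent.IDX
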