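import Pool.Agent.IDX.N1
import Pool.Agent.IDX.G2
import Pool.Agent.IDX.G3
import Pool.Agent.IDX.B5

/-! Row IDX-E1a: the lower bound (L0) -/

open Finset

namespace Pool.Agent.IDX

/-- `(1 + x)^m ≤ 1 + 2^m x` for `0 ≤ x ≤ 1`. -/
theorem E1a_pow_le (x : ℝ) (h0 : 0 ≤ x) (h1 : x ≤ 1) (m : ℕ) : (1 + x) ^ m ≤ 1 + (2 ^ m - 1) * x := by
  induction m with
  | zero => simp
  | succ m ih =>
    have h2 : (1 : ℝ) ≤ 2 ^ m := one_le_pow₀ (by norm_num)
    calc (1 + x) ^ (m + 1) = (1 + x) ^ m * (1 + x) := pow_succ _ _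
      _ ≤ (1 + (2 ^ m - 1) * x) * (1 + x) := mul_le_mul_of_nonneg_right ih (by linarith)
      _ = 1 + (2 ^ m - 1) * x + x + (2 ^ m - 1) * (x * x) := by ring
      _ ≤ 1 + (2 ^ m - 1) * x + x + (2 ^ m - 1) * (1 * x) := by
          have : x * x ≤ 1 * x := mul_le_mul_of_nonneg_right h1 h0
          have h3 : (0 : ℝ) ≤ 2 ^ m - 1 := by linarith
          nlinarith [mul_le_mul_of_nonneg_left this h3]
      _ = 1 + (2 ^ (m + 1) - 1) * x := by ring

/-- The product is `1 + δ` with `0 ≤ δ ≤ 2^m / 2^B`. -/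
theorem E1a_prod (m B : ℕ) (hB : 1 ≤ B) :
    1 ≤ ∏ i ∈ range m, (1 + (1 : ℝ) / 2 ^ (B ^ (i + 1))) ∧
      ∏ i ∈ range m, (1 + (1 : ℝ) / 2 ^ (B ^ (i + 1))) ≤ 1 + 2 ^ m / 2 ^ B := by
  constructor
  · have : ∏ i ∈ range m, (1 : ℝ) ≤ ∏ i ∈ range m, (1 + (1 : ℝ) / 2 ^ (B ^ (i + 1))) := by
      apply Finset.prod_le_prod
      · intro i _; norm_num
      · intro i _
        have : (0 : ℝ) < 1 / 2 ^ (B ^ (i + 1)) := by positivity
        linarith
    simpa using this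
  · have h1 : ∏ i ∈ range m, (1 + (1 : ℝ) / 2 ^ (B ^ (i + 1))) ≤ ∏ i ∈ range m, (1 + (1 : ℝ) / 2 ^ B) := by
      apply Finset.prod_le_prod
      · intro i _; positivity
      · intro i _
        have hle : B ≤ B ^ (i + 1) := by
          calc B = B ^ 1 := (pow_one _).symm
            _ ≤ B ^ (i + 1) := Nat.pow_le_pow_right hB (by omega)
        have h2 : (2 : ℝ) ^ B ≤ 2 ^ (B ^ (i + 1)) := pow_le_pow_right₀ (by norm_num) hle
        have h3 : (1 : ℝ) / 2 ^ (B ^ (i + 1)) ≤ 1 / 2 ^ B :=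
          one_div_le_one_div_of_le (by positivity) h2
        linarith
    rw [Finset.prod_const, card_range] at h1
    have h4 : (1 : ℝ) / 2 ^ B ≤ 1 := by
      rw [div_le_one (by positivity)]
      exact one_le_pow₀ (by norm_num)
    have h5 := E1a_pow_le (1 / 2 ^ B) (by positivity) h4 m
    have h6 : ((2 : ℝ) ^ m - 1) * (1 / 2 ^ B) ≤ 2 ^ m / 2 ^ B := by
      have : (0 : ℝ) < 1 / 2 ^ B := by positivity
      have h7 : (2 : ℝ) ^ m / 2 ^ B = 2 ^ m * (1 / 2 ^ B) := by ring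
      rw [h7]
      nlinarith
    linarith

/-- (L0) -/
theorem lower (C r B0 : ℕ) (hr : C < r) (hB0 : 4 * (2 ^ C + r + 30) ≤ B0) :
    ∀ m : ℕ, ∀ B : ℕ, B0 ^ (r + 2) + m + r + 50 ≤ B → ∀ F G K : HG, (∀ e ∈ F, e.card = 3) →
      (∀ e ∈ K, e.card = 2 ∨ e.card = 3) → Up F K → (vx K).card ≤ C →
      dn F + dn (F ∪ G) = dn K + Psi r B0 m B →
      1 / 2 ^ (m + (r + 20 + B0 ^ (r + 1))) ≤ dn (F ∪ G) := by
  classical
  intro m B hB F G K hF hK hUp hC heq
  by_contra hcon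
  rw [not_le] at hcon
  have hdn0 := dn_nonneg (F ∪ G)
  -- every edge of `F` has at most one vertex outside `T0`
  have hF1 : ∀ e ∈ F, (e \ vx K).card ≤ 1 := by
    intro e he
    obtain ⟨f, hf, hfe⟩ := hUp e he
    have h1 : e \ vx K ⊆ e \ f := Finset.sdiff_subset_sdiff (le_refl _) (subset_vx hf)
    have h2 := Finset.card_le_card h1
    have h3 : (e \ f).card = e.card - f.card := Finset.card_sdiff_of_subset hfe
    have h4 := hF e he
    rcases hK f hf with h5 | h5 <;> omega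
  have heps := core_diff (F := F) (K := K) (T0 := vx K) (le_refl _) hF1 hUp
  set SS := (vx K).powerset.filter (fun S => Ind F S ∧ ¬ Ind K S) with hSS
  set a : Finset ℕ → ℕ := fun S => (vx K).card + (kill F (vx K) S).card with ha
  have hSScard : SS.card ≤ 2 ^ C := by
    calc SS.card ≤ (vx K).powerset.card := Finset.card_filter_le _ _
      _ = 2 ^ (vx K).card := Finset.card_powerset _
      _ ≤ 2 ^ C := Nat.pow_le_pow_right (by norm_num) hC
  obtain ⟨hPi1, hPi2⟩ := E1a_prod m B (by omega)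
  set PP := ∏ i ∈ range m, (1 + (1 : ℝ) / 2 ^ (B ^ (i + 1))) with hPP
  obtain ⟨hphi1, hphi2⟩ := phi_bounds r B0
  -- the blocks
  set BB : Finset (Finset ℕ) := (range r).powerset with hBB
  have hBBD : BB ⊆ Delta0 r := fun T hT => free_mem_Delta0 (Finset.mem_powerset.mp hT)
  set X : Finset (Finset ℕ) := Delta0 r \ BB with hX
  have hsplit : phi r B0 = ∑ T ∈ BB, (1 : ℝ) / 2 ^ (r + 18 + num B0 T) +
      ∑ T ∈ X, (1 : ℝ) / 2 ^ (r + 18 + num B0 T) := by
    unfold phi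
    rw [hX, ← Finset.sum_sdiff hBBD, add_comm]
  -- the tail
  set tail : ℝ := (∑ T ∈ X, (1 : ℝ) / 2 ^ (r + 18 + num B0 T)) / 2 ^ m +
    phi r B0 / 2 ^ m * (PP - 1) - dn (F ∪ G) with htail
  have hB04 : 4 * (2 ^ C + r + 30) ≤ B0 := hB0
  have hB0pos : 1 ≤ B0 := by omega
  have hXsum1 : (1 : ℝ) / 2 ^ (r + 18 + B0 ^ (r + 1)) ≤ ∑ T ∈ X, (1 : ℝ) / 2 ^ (r + 18 + num B0 T) := by
    have hmem : ({r} : Finset ℕ) ∈ X := by
      rw [hX, Finset.mem_sdiff]
      refine ⟨singleton_mem_Delta0 (by omega), ?_⟩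
      rw [hBB, Finset.mem_powerset, Finset.singleton_subset_iff, mem_range]
      exact lt_irrefl r
    have h := Finset.single_le_sum (f := fun T => (1 : ℝ) / 2 ^ (r + 18 + num B0 T))
      (fun T _ => by positivity) hmem
    simp only [num_singleton] at h
    exact h
  have hXnum : ∀ T ∈ X, B0 ^ (r + 1) ≤ num B0 T := by
    intro T hT
    rw [hX, Finset.mem_sdiff, hBB, Finset.mem_powerset] at hT
    obtain ⟨_, hT2⟩ := hT
    rw [Finset.not_subset] at hT2
    obtain ⟨i, hi, hir⟩ := hT2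
    rw [mem_range, not_lt] at hir
    calc B0 ^ (r + 1) ≤ B0 ^ (i + 1) := Nat.pow_le_pow_right hB0pos (by omega)
      _ ≤ num B0 T := by
        unfold num
        exact Finset.single_le_sum (f := fun i => B0 ^ (i + 1)) (fun _ _ => Nat.zero_le _) hi
  have hXcard : X.card ≤ 2 ^ (r + 18) := by
    have h1 : X ⊆ (range (r + 18)).powerset := by
      intro T hT
      rw [hX, Finset.mem_sdiff] at hT
      exact Finset.mem_powerset.mpr (mem_Delta0.mp hT.1).1
    have h2 := Finset.card_le_card h1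
    rwa [Finset.card_powerset, card_range] at h2
  have hXsum2 : ∑ T ∈ X, (1 : ℝ) / 2 ^ (r + 18 + num B0 T) ≤ 1 / 2 ^ (B0 ^ (r + 1)) := by
    calc ∑ T ∈ X, (1 : ℝ) / 2 ^ (r + 18 + num B0 T)
        ≤ ∑ T ∈ X, (1 : ℝ) / 2 ^ (r + 18 + B0 ^ (r + 1)) := by
          apply Finset.sum_le_sum
          intro T hT
          apply one_div_le_one_div_of_le (by positivity)
          apply pow_le_pow_right₀ (by norm_num)
          have := hXnum T hT
          omega
      _ = X.card * (1 / 2 ^ (r + 18 + B0 ^ (r + 1))) := by rw [Finset.sum_const, nsmul_eq_mul]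
      _ ≤ 2 ^ (r + 18) * (1 / 2 ^ (r + 18 + B0 ^ (r + 1))) := by
          apply mul_le_mul_of_nonneg_right _ (by positivity)
          exact_mod_cast hXcard
      _ = 1 / 2 ^ (B0 ^ (r + 1)) := by
          rw [pow_add (2 : ℝ) (r + 18) (B0 ^ (r + 1))]
          field_simp
  have hδ : PP - 1 ≤ 1 / 2 ^ (B0 ^ (r + 1)) := by
    have h1 : PP - 1 ≤ 2 ^ m / 2 ^ B := by linarith
    refine le_trans h1 ?_
    rw [div_le_div_iff₀ (by positivity) (by positivity), one_mul, ← pow_add]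
    apply pow_le_pow_right₀ (by norm_num)
    have : B0 ^ (r + 1) ≤ B0 ^ (r + 2) := Nat.pow_le_pow_right hB0pos (by omega)
    omega
  have htail0 : 0 ≤ tail := by
    have h1 : (1 : ℝ) / 2 ^ (m + (r + 20 + B0 ^ (r + 1))) ≤
        (∑ T ∈ X, (1 : ℝ) / 2 ^ (r + 18 + num B0 T)) / 2 ^ m := by
      calc (1 : ℝ) / 2 ^ (m + (r + 20 + B0 ^ (r + 1))) ≤ 1 / 2 ^ ((r + 18 + B0 ^ (r + 1)) + m) := by
            apply one_div_le_one_div_of_le (by positivity)
            apply pow_le_pow_right₀ (by norm_num)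
            omega
        _ = (1 / 2 ^ (r + 18 + B0 ^ (r + 1))) / 2 ^ m := by
            rw [pow_add (2 : ℝ) (r + 18 + B0 ^ (r + 1)) m, div_div]
        _ ≤ _ := div_le_div_of_nonneg_right hXsum1 (by positivity)
    have h2 : 0 ≤ phi r B0 / 2 ^ m * (PP - 1) := by
      apply mul_nonneg
      · exact div_nonneg (le_trans (by positivity) hphi1) (by positivity)
      · linarith
    rw [htail]
    linarith
  have htail1 : tail ≤ 2 * (1 / 2 ^ (B0 ^ (r + 1)) / 2 ^ m) := by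
    have h1 : (∑ T ∈ X, (1 : ℝ) / 2 ^ (r + 18 + num B0 T)) / 2 ^ m ≤ 1 / 2 ^ (B0 ^ (r + 1)) / 2 ^ m :=
      div_le_div_of_nonneg_right hXsum2 (by positivity)
    have h2 : phi r B0 / 2 ^ m * (PP - 1) ≤ 1 / 2 ^ (B0 ^ (r + 1)) / 2 ^ m := by
      have h3 : phi r B0 / 2 ^ m ≤ 1 / 2 ^ m := div_le_div_of_nonneg_right hphi2 (by positivity)
      have h4 : 0 ≤ PP - 1 := by linarith
      calc phi r B0 / 2 ^ m * (PP - 1) ≤ 1 / 2 ^ m * (1 / 2 ^ (B0 ^ (r + 1))) :=
            mul_le_mul h3 hδ h4 (by positivity)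
        _ = _ := by ring
    rw [htail]
    linarith
  -- the numerical inequality
  have hnum : ∀ D ∈ BB, m + (r + 18) + num B0 D + 2 ^ C + 4 < m + B0 ^ (r + 1) := by
    intro D hD
    have hB2 : 2 ≤ B0 := by omega
    have h1 := num_le (B := B0) (n := r) hB2 (Finset.mem_powerset.mp hD)
    have h4 : 1 ≤ B0 ^ r := Nat.one_le_pow _ _ hB0pos
    rw [pow_succ]
    generalize B0 ^ r = x at h1 h4 ⊢
    generalize 2 ^ C = cc at hB04 ⊢
    have h3 : x * (4 * (cc + r + 30)) ≤ x * B0 := Nat.mul_le_mul_left _ hB04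
    obtain ⟨y, rfl⟩ : ∃ y, x = y + 1 := ⟨x - 1, by omega⟩
    have h7 : (y + 1) * (4 * (cc + r + 30)) = 120 * y + 4 * (y * (cc + r)) + 4 * (cc + r + 30) := by ring
    have h8 : 0 ≤ y * (cc + r) := Nat.zero_le _
    omega
  have hgap : ∀ D ∈ BB, ∀ D' ∈ BB, D ≠ D' →
      (m + (r + 18) + num B0 D) + (0 + 2 ^ C + 1) < m + (r + 18) + num B0 D' ∨
      (m + (r + 18) + num B0 D') + (0 + 2 ^ C + 1) < m + (r + 18) + num B0 D := by
    intro D hD D' hD' hne
    have h3B : 3 ≤ B0 := by omega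
    generalize 2 ^ C = cc at hB04
    rcases num_gap (B := B0) h3B hne with h | h
    · left; omega
    · right; omega
  have htailD : ∀ D ∈ BB, tail < 1 / 2 ^ ((m + (r + 18) + num B0 D) + (0 + 2 ^ C + 2)) := by
    intro D hD
    have h := hnum D hD
    refine lt_of_le_of_lt htail1 ?_
    have h2 : 2 * ((1 : ℝ) / 2 ^ (B0 ^ (r + 1)) / 2 ^ m) = 1 / 2 ^ (m + B0 ^ (r + 1) - 1) := by
      have h3 : m + B0 ^ (r + 1) = (m + B0 ^ (r + 1) - 1) + 1 := by omega
      rw [div_div, ← pow_add, add_comm (B0 ^ (r + 1)) m]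
      conv_lhs => rw [h3]
      rw [pow_succ]
      field_simp
    rw [h2]
    apply one_div_lt_one_div_of_lt (by positivity)
    apply pow_lt_pow_right₀ (by norm_num)
    omega
  have hsum : ∑ S ∈ SS, (1 : ℝ) / 2 ^ (a S) =
      ∑ D ∈ BB, ((1 : ℕ) : ℝ) / 2 ^ (0 + (m + (r + 18) + num B0 D)) + tail := by
    rw [ha, ← heps]
    have h1 : dn F - dn K = Psi r B0 m B - dn (F ∪ G) := by linarith
    rw [h1]
    unfold Psi
    rw [← hPP, htail]
    have h2 : ∑ D ∈ BB, ((1 : ℕ) : ℝ) / 2 ^ (0 + (m + (r + 18) + num B0 D)) =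
        (∑ T ∈ BB, (1 : ℝ) / 2 ^ (r + 18 + num B0 T)) / 2 ^ m := by
      rw [Finset.sum_div]
      apply Finset.sum_congr rfl
      intro D _
      rw [div_div, ← pow_add, Nat.cast_one]
      congr 2
      ring
    rw [h2]
    have h3 : phi r B0 / 2 ^ m = (∑ T ∈ BB, (1 : ℝ) / 2 ^ (r + 18 + num B0 T)) / 2 ^ m +
        (∑ T ∈ X, (1 : ℝ) / 2 ^ (r + 18 + num B0 T)) / 2 ^ m := by
      rw [← add_div, ← hsplit]
    calc phi r B0 / 2 ^ m * PP - dn (F ∪ G)
        = phi r B0 / 2 ^ m + phi r B0 / 2 ^ m * (PP - 1) - dn (F ∪ G) := by ring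
      _ = _ := by rw [h3]; ring
  have hcount := gl_count SS a (2 ^ C) 0 1 BB
    (fun T => m + (r + 18) + num B0 T) tail hSScard Nat.one_pos (le_refl _)
    hgap htail0 htailD hsum
  have h1 : BB.card = 2 ^ r := by rw [hBB, Finset.card_powerset, card_range]
  rw [h1] at hcount
  have h2 : 2 ^ r ≤ 2 ^ C := le_trans hcount hSScard
  have h3 := (Nat.pow_le_pow_iff_right (by norm_num : 1 < 2)).mp h2
  omega

end Pool.Agent.IDX
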