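import Pool.Agent.IDX.N2b

/-! Row IDX-N2d2: the arithmetic -/

open Finset

namespace Pool.Agent.IDX

theorem N2d2_uniq {a b c d : ℕ} (h : 3 ^ a * 2 ^ b = 3 ^ c * 2 ^ d) : a = c ∧ b = d := by
  have h3 : a = c := by
    have h1 := congrArg (fun n => n.factorization 3) h
    simp only [Nat.factorization_mul (pow_ne_zero a (by norm_num : (3 : ℕ) ≠ 0))
        (pow_ne_zero b (by norm_num : (2 : ℕ) ≠ 0)),
      Nat.factorization_mul (pow_ne_zero c (by norm_num : (3 : ℕ) ≠ 0))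
        (pow_ne_zero d (by norm_num : (2 : ℕ) ≠ 0)), Nat.factorization_pow,
      Nat.Prime.factorization Nat.prime_three, Nat.Prime.factorization Nat.prime_two] at h1
    simpa using h1
  subst h3
  refine ⟨rfl, ?_⟩
  have h2 := Nat.eq_of_mul_eq_mul_left (by positivity) h
  exact Nat.pow_right_injective (le_refl 2) h2

theorem N2d2_w (w : Fin 7 → ℝ) (hw : ∀ i, w i = 3 / 4 ∨ w i = 1 / 2 ∨ w i = 1 / 4) :
    ∃ S C : ℕ, 7 + S ≤ C ∧ ∏ i, w i = 3 ^ S / 2 ^ C := by
  have h1 : ∀ i, ∃ b c : ℕ, 1 + b ≤ c ∧ w i = 3 ^ b / 2 ^ c := by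
    intro i
    rcases hw i with h | h | h
    · exact ⟨1, 2, le_refl _, by rw [h]; norm_num⟩
    · exact ⟨0, 1, le_refl _, by rw [h]; norm_num⟩
    · exact ⟨0, 2, by norm_num, by rw [h]; norm_num⟩
  choose b c hbc hw' using h1
  refine ⟨∑ i, b i, ∑ i, c i, ?_, ?_⟩
  · have h2 : ∑ i : Fin 7, (1 + b i) ≤ ∑ i, c i := sum_le_sum fun i _ => hbc i
    rw [sum_add_distrib] at h2
    simpa using h2
  · rw [prod_congr rfl (fun i _ => hw' i), prod_div_distrib, prod_pow_eq_pow_sum,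
      prod_pow_eq_pow_sum]

theorem N2d2_five {a b c d : ℕ} (h : 5 * 3 ^ a * 2 ^ b = 3 ^ c * 2 ^ d) : False := by
  have h1 : 5 ∣ 3 ^ c * 2 ^ d := ⟨3 ^ a * 2 ^ b, by rw [← h]; ring⟩
  rw [Nat.Prime.dvd_mul Nat.prime_five] at h1
  rcases h1 with h1 | h1
  · have := Nat.Prime.dvd_of_dvd_pow Nat.prime_five h1
    omega
  · have := Nat.Prime.dvd_of_dvd_pow Nat.prime_five h1
    omega

/-- The arithmetic: such a product is never `27/512` nor `81/1024`. -/
theorem arith (v : ℝ) (w : Fin 7 → ℝ) (k : ℕ)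
    (hv : v = 5 / 8 ∨ v = 3 / 8 ∨ v = 1 / 2 ∨ v = 1 / 4 ∨ v = 1 / 8)
    (hw : ∀ i, w i = 3 / 4 ∨ w i = 1 / 2 ∨ w i = 1 / 4) :
    v * (∏ i, w i) / 2 ^ k ≠ 27 / 512 ∧ v * (∏ i, w i) / 2 ^ k ≠ 81 / 1024 := by
  obtain ⟨S, C, hSC, hwp⟩ := N2d2_w w hw
  rw [hwp]
  -- general form
  have key : ∀ x y : ℕ, v * (3 ^ S / 2 ^ C) / 2 ^ k = 3 ^ x / 2 ^ y →
      ∃ e f g : ℕ, (e = 0 ∨ e = 1) ∧ 1 ≤ g ∧ (f = 0 ∨ (f = 1 ∧ g = 3)) ∧
        5 ^ e * 3 ^ (f + S) * 2 ^ y = 3 ^ x * 2 ^ (g + C + k) := by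
    intro x y hxy
    obtain ⟨e, f, g, he, hg, hf, hvv⟩ : ∃ e f g : ℕ, (e = 0 ∨ e = 1) ∧ 1 ≤ g ∧
        (f = 0 ∨ (f = 1 ∧ g = 3)) ∧ v = 5 ^ e * 3 ^ f / 2 ^ g := by
      rcases hv with h | h | h | h | h
      · exact ⟨1, 0, 3, by norm_num, by norm_num, by norm_num, by rw [h]; norm_num⟩
      · exact ⟨0, 1, 3, by norm_num, by norm_num, by norm_num, by rw [h]; norm_num⟩
      · exact ⟨0, 0, 1, by norm_num, by norm_num, by norm_num, by rw [h]; norm_num⟩
      · exact ⟨0, 0, 2, by norm_num, by norm_num, by norm_num, by rw [h]; norm_num⟩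
      · exact ⟨0, 0, 3, by norm_num, by norm_num, by norm_num, by rw [h]; norm_num⟩
    refine ⟨e, f, g, he, hg, hf, ?_⟩
    have h1 : (5 : ℝ) ^ e * 3 ^ (f + S) * 2 ^ y = 3 ^ x * 2 ^ (g + C + k) := by
      rw [hvv, eq_div_iff (by positivity)] at hxy
      rw [← hxy]
      field_simp
      ring
    exact_mod_cast h1
  constructor
  · intro h
    obtain ⟨e, f, g, he, hg, hf, h1⟩ := key 3 9 (by rw [h]; norm_num)
    rcases he with rfl | rfl
    · rw [pow_zero, one_mul] at h1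
      obtain ⟨h2, h3⟩ := N2d2_uniq h1
      omega
    · rw [pow_one] at h1
      exact N2d2_five h1
  · intro h
    obtain ⟨e, f, g, he, hg, hf, h1⟩ := key 4 10 (by rw [h]; norm_num)
    rcases he with rfl | rfl
    · rw [pow_zero, one_mul] at h1
      obtain ⟨h2, h3⟩ := N2d2_uniq h1
      omega
    · rw [pow_one] at h1
      exact N2d2_five h1

theorem N2d2_zero {U : Finset ℕ} {q : Finset ℕ → Prop} (h : ∀ R ⊆ U, ¬ q R) : pr U q = 0 := by
  have h1 : pr U q = pr U (fun _ => ¬ True) := by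
    apply pr_congr
    intro R hR
    simp [h R hR]
  rw [h1, pr_not, pr_true, sub_self]

theorem loss_single {F : HG} {a z p : ℕ} (ha : a = 0 ∨ a = 1) (hz : z ∈ Icc 2 17) (hp : 18 ≤ p)
    (hpF : p ∈ vx F) : loss F {{a, z, p}} = 27 / 512 ∨ loss F {{a, z, p}} = 81 / 1024 := by
  rw [mem_Icc] at hz
  have hU : range 18 \ {0, 1} ⊆ UU F := by
    intro x hx
    unfold UU
    rw [mem_sdiff] at hx ⊢
    exact ⟨mem_union_right _ hx.1, hx.2⟩
  have h0U : (0 : ℕ) ∉ UU F := by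
    unfold UU
    simp
  have h1U : (1 : ℕ) ∉ UU F := by
    unfold UU
    simp
  have hzU : z ∈ UU F := by
    apply hU
    simp only [mem_sdiff, mem_range, mem_insert, mem_singleton]
    omega
  have hpU : p ∈ UU F := by
    unfold UU
    simp only [mem_sdiff, mem_union, mem_insert, mem_singleton]
    exact ⟨Or.inl hpF, by omega⟩
  have hzp : z ≠ p := by omega
  rcases ha with rfl | rfl
  · have h1 : pr (UU F) (fun R => ∃ e ∈ ({{0, z, p}} : HG), e ⊆ R) = 0 := by
      apply N2d2_zero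
      rintro R hR ⟨e, he, heR⟩
      rw [mem_singleton] at he
      subst he
      exact h0U (hR (heR (by simp)))
    have h3 : pr (UU F) (fun R => Ind Bm R ∧ ∃ e ∈ ({{0, z, p}} : HG), e ⊆ insert 1 R) = 0 := by
      apply N2d2_zero
      rintro R hR ⟨_, e, he, heR⟩
      rw [mem_singleton] at he
      subst he
      have h4 : (0 : ℕ) ∈ insert 1 R := heR (by simp)
      rw [mem_insert] at h4
      rcases h4 with h4 | h4
      · exact absurd h4 (by norm_num)
      · exact h0U (hR h4)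
    have h2 : pr (UU F) (fun R => Ind Am R ∧ ∃ e ∈ ({{0, z, p}} : HG), e ⊆ insert 0 R) =
        pr (UU F) (fun R => Ind Am R ∧ z ∈ R ∧ p ∈ R) := by
      apply pr_congr
      intro R _
      apply and_congr Iff.rfl
      have hz0 : z ≠ 0 := by omega
      have hp0 : p ≠ 0 := by omega
      simp only [mem_singleton, exists_eq_left, insert_subset_iff, singleton_subset_iff,
        mem_insert, hz0, hp0, false_or, true_or, true_and]
    unfold loss
    rw [h1, h2, h3, zero_add, add_zero]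
    by_cases hz9 : z ∈ Icc 2 9
    · left
      exact pr_Am_own hU hz9 hpU hp
    · right
      exact pr_Am_other hU hzU hpU hzp hz9 (by rw [mem_Icc]; omega)
  · have h1 : pr (UU F) (fun R => ∃ e ∈ ({{1, z, p}} : HG), e ⊆ R) = 0 := by
      apply N2d2_zero
      rintro R hR ⟨e, he, heR⟩
      rw [mem_singleton] at he
      subst he
      exact h1U (hR (heR (by simp)))
    have h2 : pr (UU F) (fun R => Ind Am R ∧ ∃ e ∈ ({{1, z, p}} : HG), e ⊆ insert 0 R) = 0 := by
      apply N2d2_zero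
      rintro R hR ⟨_, e, he, heR⟩
      rw [mem_singleton] at he
      subst he
      have h4 : (1 : ℕ) ∈ insert 0 R := heR (by simp)
      rw [mem_insert] at h4
      rcases h4 with h4 | h4
      · exact absurd h4 (by norm_num)
      · exact h1U (hR h4)
    have h3 : pr (UU F) (fun R => Ind Bm R ∧ ∃ e ∈ ({{1, z, p}} : HG), e ⊆ insert 1 R) =
        pr (UU F) (fun R => Ind Bm R ∧ z ∈ R ∧ p ∈ R) := by
      apply pr_congr
      intro R _
      apply and_congr Iff.rfl
      have hz0 : z ≠ 1 := by omega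
      have hp0 : p ≠ 1 := by omega
      simp only [mem_singleton, exists_eq_left, insert_subset_iff, singleton_subset_iff,
        mem_insert, hz0, hp0, false_or, true_or, true_and]
    unfold loss
    rw [h1, h2, h3, zero_add, zero_add]
    by_cases hz17 : z ∈ Icc 10 17
    · left
      exact pr_Bm_own hU hz17 hpU hp
    · right
      exact pr_Bm_other hU hzU hpU hzp hz17 (by rw [mem_Icc]; omega)

end Pool.Agent.IDX
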