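import Pool.Agent.IDX.N2c
import Pool.Agent.IDX.N2d

/-! Row IDX-N2: (NR). -/

open Finset

namespace Pool.Agent.IDX

/-- A set with three elements containing `a`. -/
theorem N2_three {e : Finset ℕ} (h : e.card = 3) {a : ℕ} (ha : a ∈ e) :
    ∃ x y, x ≠ a ∧ y ≠ a ∧ x ≠ y ∧ e = {a, x, y} := by
  have hc : (e.erase a).card = 2 := by rw [card_erase_of_mem ha, h]
  obtain ⟨x, y, hxy, he⟩ := card_eq_two.mp hc
  have hx : x ∈ e.erase a := by rw [he]; simp
  have hy : y ∈ e.erase a := by rw [he]; simp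
  refine ⟨x, y, (mem_erase.mp hx).1, (mem_erase.mp hy).1, hxy, ?_⟩
  rw [← insert_erase ha, he]

/-- The shape of the extra edges. -/
theorem N2_shape {F : HG} (h3 : ∀ e ∈ F, e.card = 3) (hlg : ¬ gain F (Ex F) (Wd F) < loss F (Ex F))
    {e : Finset ℕ} (he : e ∈ Ex F) :
    ∃ a z p, (a = 0 ∨ a = 1) ∧ z ∈ Icc 2 17 ∧ 18 ≤ p ∧ e = {a, z, p} := by
  obtain ⟨heF, h18, h01⟩ := mem_filter.mp he
  have key : ∀ a, (a = 0 ∨ a = 1) → a ∈ e → ∀ b, (b = 0 ∨ b = 1) → b ≠ a → b ∉ e →
      ∃ a z p, (a = 0 ∨ a = 1) ∧ z ∈ Icc 2 17 ∧ 18 ≤ p ∧ e = {a, z, p} := by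
    intro a ha hae b hb hba hbe
    obtain ⟨x, y, hxa, hya, hxy, hee⟩ := N2_three (h3 e heF) hae
    have hxe : x ∈ e := by rw [hee]; simp
    have hye : y ∈ e := by rw [hee]; simp
    have hxb : x ≠ b := fun h => hbe (h ▸ hxe)
    have hyb : y ≠ b := fun h => hbe (h ▸ hye)
    have hx2 : 2 ≤ x := by omega
    have hy2 : 2 ≤ y := by omega
    by_cases hx : 18 ≤ x
    · by_cases hy : 18 ≤ y
      · exact absurd (case_two_outside h3 ha (hee ▸ he) hxy hx hy) hlg
      · refine ⟨a, y, x, ha, mem_Icc.mpr ⟨hy2, by omega⟩, hx, ?_⟩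
        rw [hee, Finset.pair_comm x y]
    · by_cases hy : 18 ≤ y
      · exact ⟨a, x, y, ha, mem_Icc.mpr ⟨hx2, by omega⟩, hy, hee⟩
      · exfalso
        apply h18
        rw [hee]
        intro t ht
        simp only [mem_insert, mem_singleton] at ht
        rw [mem_range]
        omega
  by_cases h0 : 0 ∈ e
  · exact key 0 (Or.inl rfl) h0 1 (Or.inr rfl) (by decide) (fun h1 => h01 ⟨h0, h1⟩)
  · by_cases h1 : 1 ∈ e
    · exact key 1 (Or.inr rfl) h1 0 (Or.inl rfl) (by decide) h0
    · exact absurd (case_none h3 he h0 h1) hlg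

/-- (NR), with the vertices of `R` labelled `0..17`. -/
theorem nr (F : HG) (h3 : ∀ e ∈ F, e.card = 3) (hR : Rs ⊆ F)
    (hV : ∀ e ∈ F, e ⊆ range 18 → e ∈ Rs ∨ (0 ∈ e ∧ 1 ∈ e)) : dn F ≠ 209 / 512 := by
  intro hd
  have h := dn_loss_gain F h3 hR hV
  rw [hd] at h
  have hg : gain F (Ex F) (Wd F) = loss F (Ex F) := by linarith
  have hlg : ¬ gain F (Ex F) (Wd F) < loss F (Ex F) := by rw [hg]; exact lt_irrefl _
  have hpos := gain_pos F h3
  have hne : (Ex F).Nonempty := by
    rw [nonempty_iff_ne_empty]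
    intro h0
    have hz : ∀ q : Finset ℕ → Prop, (∀ R, ¬ q R) → pr (UU F) q = 0 := by
      intro q hq
      have h1 := pr_not (UU F) q
      have h2 : pr (UU F) (fun R => ¬ q R) = 1 := by
        rw [← pr_true (UU F)]
        apply pr_congr
        intro R _
        exact iff_true_intro (hq R)
      linarith
    have hl : loss F (Ex F) = 0 := by
      unfold loss
      rw [h0, hz, hz, hz]
      · ring
      · simp
      · simp
      · simp
    linarith
  obtain ⟨e, he⟩ := hne
  obtain ⟨a, z, p, ha, hz, hp, hee⟩ := N2_shape h3 hlg he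
  have huniq : ∀ e' ∈ Ex F, e' = e := by
    intro e' he'
    obtain ⟨a', z', p', ha', hz', hp', hee'⟩ := N2_shape h3 hlg he'
    by_contra hne
    have hne2 : a = a' → (z, p) ≠ (z', p') := by
      intro h1 h2
      apply hne
      rw [Prod.mk.injEq] at h2
      rw [hee, hee', h1, h2.1, h2.2]
    rcases ha with rfl | rfl <;> rcases ha' with rfl | rfl
    · exact hlg (case_same0 h3 hz hp hz' hp' (hne2 rfl) (hee ▸ he) (hee' ▸ he'))
    · exact hlg (case_both h3 hz hp hz' hp' (hee ▸ he) (hee' ▸ he'))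
    · exact hlg (case_both h3 hz' hp' hz hp (hee' ▸ he') (hee ▸ he))
    · exact hlg (case_same1 h3 hz hp hz' hp' (hne2 rfl) (hee ▸ he) (hee' ▸ he'))
  have hEx : Ex F = {{a, z, p}} := by
    rw [← hee]
    exact eq_singleton_iff_unique_mem.mpr ⟨he, huniq⟩
  have hpF : p ∈ vx F := mem_vx.mpr ⟨e, (mem_filter.mp he).1, by rw [hee]; simp⟩
  have hW : Wd F ⊆ UU F := by
    intro w hw
    obtain ⟨h1, h2, h4, _⟩ := mem_filter.mp hw
    refine mem_sdiff.mpr ⟨mem_union_left _ h1, ?_⟩
    simp only [mem_insert, mem_singleton]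
    tauto
  obtain ⟨v, w, k, hv, hw, hgv⟩ := gain_single (F := F) ha hz hp hpF (Wd F) hW
  have hA := arith v w k hv hw
  rw [hEx] at hg
  rcases loss_single (F := F) ha hz hp hpF with h1 | h1
  · exact hA.1 (by rw [← hgv, hg, h1])
  · exact hA.2 (by rw [← hgv, hg, h1])

/-- (NR) for any labelling: apply `nr` to the image of `F` under a permutation of `ℕ` sending
`i v` to `v` (`v < 18`), `dn_image`. -/
theorem nr' (F : HG) (h3 : ∀ e ∈ F, e.card = 3) (i : ℕ → ℕ) (hi : Set.InjOn i (range 18 : Set ℕ))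
    (hR : ∀ e ∈ Rs, e.image i ∈ F)
    (hV : ∀ e ∈ F, e ⊆ (range 18).image i → (∃ e' ∈ Rs, e = e'.image i) ∨ (i 0 ∈ e ∧ i 1 ∈ e)) :
    dn F ≠ 209 / 512 := by
  classical
  obtain ⟨σ, hσi, hσinj, hσlt⟩ : ∃ σ : ℕ → ℕ, (∀ v < 18, σ (i v) = v) ∧ Function.Injective σ ∧
      ∀ x, σ x < 18 → x ∈ (range 18).image i := by
    let g : ℕ → ℕ := Function.invFunOn i (range 18 : Set ℕ)
    have g1 : ∀ x ∈ (range 18).image i, g x < 18 ∧ i (g x) = x := by
      intro x hx
      obtain ⟨v, hv, rfl⟩ := mem_image.mp hx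
      have hex : ∃ a ∈ (range 18 : Set ℕ), i a = i v := ⟨v, by exact_mod_cast hv, rfl⟩
      have h1 := Function.invFunOn_mem hex
      have h2 := Function.invFunOn_eq hex
      exact ⟨mem_range.mp (mem_coe.mp h1), h2⟩
    refine ⟨fun x => if x ∈ (range 18).image i then g x else x + 18, ?_, ?_, ?_⟩
    · intro v hv
      have hm : i v ∈ (range 18).image i := mem_image_of_mem i (mem_range.mpr hv)
      simp only [hm, if_true]
      obtain ⟨h1, h2⟩ := g1 _ hm
      exact hi (by simpa using h1) (by simpa using hv) h2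
    · intro x y hxy
      by_cases hx : x ∈ (range 18).image i <;> by_cases hy : y ∈ (range 18).image i
      · simp only [hx, hy, if_true] at hxy
        rw [← (g1 x hx).2, ← (g1 y hy).2, hxy]
      · simp only [hx, hy, if_true, if_false] at hxy
        have := (g1 x hx).1
        omega
      · simp only [hx, hy, if_true, if_false] at hxy
        have := (g1 y hy).1
        omega
      · simp only [hx, hy, if_false] at hxy
        omega
    · intro x hx
      by_contra hx'
      simp only [hx', if_false] at hx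
      omega
  have hRs : ∀ e ∈ Rs, e ⊆ range 18 := by decide
  have himg : ∀ e : Finset ℕ, e ⊆ range 18 → (e.image i).image σ = e := by
    intro e he
    rw [image_image]
    ext x
    constructor
    · intro hx
      obtain ⟨v, hv, rfl⟩ := mem_image.mp hx
      rw [Function.comp, hσi v (mem_range.mp (he hv))]
      exact hv
    · intro hx
      exact mem_image.mpr ⟨x, hx, hσi x (mem_range.mp (he hx))⟩
  rw [← dn_image (H := F) (f := σ) (hσinj.injOn)]
  apply nr
  · intro e he
    obtain ⟨e', he', rfl⟩ := mem_image.mp he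
    rw [card_image_of_injective _ hσinj]
    exact h3 e' he'
  · intro e he
    refine mem_image.mpr ⟨e.image i, hR e he, himg e (hRs e he)⟩
  · intro e he hs
    obtain ⟨f, hf, rfl⟩ := mem_image.mp he
    have hf18 : f ⊆ (range 18).image i := by
      intro x hx
      exact hσlt x (mem_range.mp (hs (mem_image_of_mem σ hx)))
    rcases hV f hf hf18 with ⟨e', he', rfl⟩ | ⟨h0, h1⟩
    · left
      rw [himg e' (hRs e' he')]
      exact he'
    · right
      constructor
      · rw [← hσi 0 (by decide)]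
        exact mem_image_of_mem σ h0
      · rw [← hσi 1 (by decide)]
        exact mem_image_of_mem σ h1

end Pool.Agent.IDX
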