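import Pool.Agent.IDX.M3
import Pool.Agent.IDX.N1

/-! Row IDX-R2b: Stage 2 -/

open Finset

namespace Pool.Agent.IDX

/-- The situation of Stage 2. -/
structure Fin5 extends SysD where
  r : ℕ
  vv : ℕ → ℕ
  hn : n = r + 18
  hBBd : BB = Delta0 r
  hFK : F = K
  hvv : ∀ i < n, vv i ∈ Γ ∧ Df {vv i} = {i}
  hall : ∀ v ∈ Γ, 1 ≤ toSysD.lev v → ∃ i < n, v = vv i

/-- Stage 2: from a density `2^{s'} φ` we get `s' = 0` and exactly one centre for each window. -/
theorem stage2 (s : SysD) (r s' : ℕ) (hn : s.n = r + 18) (hBB : s.BB = Delta0 r) (hFK : s.F = s.K)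
    (hP : s.P = r + 18) (hc : s.c = 2 ^ s') : ∃ t : Fin5, t.toSysD = s ∧ t.r = r := by
  classical
  obtain ⟨hK2, hSe⟩ := s.K2_empty_of_eq hFK
  -- `n ≤ |J|`
  have hlevel : ∀ k < s.n, ∃ v ∈ s.Γ, s.lev v = k + 1 := by
    intro k hk
    rcases s.level_attained hk with h | ⟨Q, hQ, _⟩
    · exact h
    · rw [hK2] at hQ
      simp at hQ
  have hsub : Icc 1 s.n ⊆ s.J.image s.lev := by
    intro k hk
    rw [mem_Icc] at hk
    obtain ⟨v, hv, hvl⟩ := hlevel (k - 1) (by omega)
    have hvk : s.lev v = k := by omega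
    exact Finset.mem_image.mpr ⟨v, Finset.mem_filter.mpr ⟨hv, by omega⟩, hvk⟩
  have himg : (s.J.image s.lev).card ≤ s.J.card := Finset.card_image_le
  have hnJ : s.n ≤ s.J.card := by
    have h := Finset.card_le_card hsub
    rw [Nat.card_Icc] at h
    omega
  -- `|J| ≤ n`
  have hJn : s.J.card ≤ s.n := by
    have hb := s.block_empty hK2 hSe
    have hd := dn_le_one (del (s.F ∪ s.G) s.J)
    rw [hP, hc, ← hn, div_eq_iff (by positivity)] at hb
    rw [hb] at hd
    push_cast at hd
    have h2 : (2 : ℝ) ^ s' * 2 ^ s.J.card ≤ 2 ^ s.n := by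
      rw [div_mul_eq_mul_div, div_le_one (by positivity)] at hd
      exact hd
    have h3 : (2 : ℝ) ^ (s' + s.J.card) ≤ 2 ^ s.n := by
      rw [pow_add]; exact h2
    have h4 := (pow_le_pow_iff_right₀ (by norm_num : (1 : ℝ) < 2)).mp h3
    omega
  -- uniqueness of the centres
  have huniq : ∀ v ∈ s.J, ∀ w ∈ s.J, s.lev v = s.lev w → v = w := by
    have hcard : (s.J.image s.lev).card = s.J.card := by
      have h := Finset.card_le_card hsub
      rw [Nat.card_Icc] at h
      omega
    have hinj := Finset.card_image_iff.mp hcard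
    intro v hv w hw h
    exact hinj hv hw h
  choose vv hvv using hlevel
  set vv' : ℕ → ℕ := fun i => if h : i < s.n then vv i h else 0 with hvv'
  have hvvl : ∀ i < s.n, vv' i ∈ s.Γ ∧ s.lev (vv' i) = i + 1 := by
    intro i hi
    simp only [hvv', dif_pos hi]
    exact hvv i hi
  have hD1 : ∀ i < s.n, s.Df {vv' i} = {i} := by
    intro i hi
    have hBBi : ({i} : Finset ℕ) ∈ s.BB := s.hBB1 i hi
    rcases s.block_attained hBBi with ⟨S, hS, hSD⟩ | ⟨S, hS, _⟩
    · have htop : top (s.Df S) = i + 1 := by rw [hSD, top_singleton]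
      rcases s.top_attained hS htop with ⟨v, hv, hvl⟩ | ⟨Q, hQ, _⟩
      · have hSΓ : S ⊆ s.Γ := (s.mem_St.mp hS).1
        have hvJ : v ∈ s.J := Finset.mem_filter.mpr ⟨hSΓ hv, by omega⟩
        have hvJ' : vv' i ∈ s.J := Finset.mem_filter.mpr ⟨(hvvl i hi).1, by rw [(hvvl i hi).2]; omega⟩
        have hveq : v = vv' i := huniq v hvJ (vv' i) hvJ' (by rw [hvl, (hvvl i hi).2])
        subst hveq
        -- `f {v} ≤ f S`
        have hvS : ({vv' i} : Finset ℕ) ∈ s.St := s.singleton_mem_St (hSΓ hv)
        have hmono := s.f_mono hS (Finset.singleton_subset_iff.mpr hv)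
        have hc1 := s.Df_close hvS
        have hc2 := s.Df_close hS
        rw [hSD, num_singleton] at hc2
        have hge := s.No_ge (hSΓ hv) (by omega)
        rw [(hvvl i hi).2] at hge
        -- `D := Df {v}` has top `i+1`, so contains `i`; and num D ≤ B^{i+1} + 2 Th
        set D := s.Df {vv' i} with hDdef
        have htopD : top D = i + 1 := (hvvl i hi).2
        have hiD : i ∈ D := top_mem htopD
        have hThB : 2 * s.Th < s.B := by
          have h8 := s.hB
          have h10 := s.Th_ge
          have : s.Th * 10 ≤ s.Th ^ 8 := by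
            calc s.Th * 10 ≤ s.Th * s.Th := Nat.mul_le_mul_left _ h10
              _ = s.Th ^ 2 := by ring
              _ ≤ s.Th ^ 8 := Nat.pow_le_pow_right (by omega) (by norm_num)
          omega
        have hnum : num s.B D = num s.B (D.erase i) + s.B ^ (i + 1) := by
          unfold num
          rw [Finset.sum_erase_add _ _ hiD]
        have hle : num s.B (D.erase i) ≤ 2 * s.Th := by omega
        have hempty : D.erase i = ∅ := by
          by_contra hne
          have hne' := Finset.nonempty_iff_ne_empty.mpr hne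
          obtain ⟨j, hj⟩ := hne'
          have h1 : s.B ^ (j + 1) ≤ num s.B (D.erase i) := by
            unfold num
            exact Finset.single_le_sum (f := fun i => s.B ^ (i + 1)) (fun _ _ => Nat.zero_le _) hj
          have h2 : s.B ≤ s.B ^ (j + 1) := by
            have := s.B_ge
            calc s.B = s.B ^ 1 := (pow_one _).symm
              _ ≤ s.B ^ (j + 1) := Nat.pow_le_pow_right (by omega) (by omega)
          omega
        apply Finset.eq_singleton_iff_unique_mem.mpr
        refine ⟨hiD, fun j hj => ?_⟩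
        by_contra hji
        have : j ∈ D.erase i := Finset.mem_erase.mpr ⟨hji, hj⟩
        rw [hempty] at this
        simp at this
      · rw [hK2] at hQ
        simp at hQ
    · rw [hSe] at hS
      simp at hS
  refine ⟨{ toSysD := s, r := r, vv := vv', hn := hn, hBBd := hBB, hFK := hFK, hvv := ?_, hall := ?_ }, rfl, rfl⟩
  · intro i hi
    exact ⟨(hvvl i hi).1, hD1 i hi⟩
  · intro v hv hl
    have hvn := s.lev_le hv
    refine ⟨s.lev v - 1, by omega, ?_⟩
    have hi : s.lev v - 1 < s.n := by omega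
    have h1 := hvvl (s.lev v - 1) hi
    exact huniq v (Finset.mem_filter.mpr ⟨hv, hl⟩) _
      (Finset.mem_filter.mpr ⟨h1.1, by rw [h1.2]; omega⟩) (by rw [h1.2]; omega)

end Pool.Agent.IDX
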