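import Pool.Agent.IDX.R1
import Pool.Agent.IDX.R2
import Pool.Agent.IDX.E1a
import Pool.Agent.IDX.E1b
import Pool.Agent.IDX.N2

/-! Row IDX-E1c: the endgame -/

open Finset

namespace Pool.Agent.IDX

theorem E1c_del_union (F G : HG) (X : Finset ℕ) : del (F ∪ G) X = del F X ∪ del G X := by
  unfold del
  exact Finset.filter_union _ _ _

theorem E1c_vx_mono {F G : HG} (h : F ⊆ G) : vx F ⊆ vx G := by
  intro v hv
  obtain ⟨e, he, hve⟩ := mem_vx.1 hv
  exact mem_vx.2 ⟨e, h he, hve⟩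

theorem E1c_prod (m B : ℕ) :
    ∏ i ∈ range m, (1 + (1 : ℝ) / 2 ^ (B ^ (i + 1))) =
      ∑ D ∈ (range m).powerset, (1 : ℝ) / 2 ^ num B D := by
  rw [Finset.prod_one_add]
  refine Finset.sum_congr rfl fun D _ => ?_
  unfold num
  rw [← Finset.prod_pow_eq_pow_sum, Finset.prod_div_distrib]
  simp

/-- The endgame. -/
theorem endgame (C : ℕ) : ∃ r B0 m0 : ℕ, ∀ m ≥ m0, ∃ b : ℕ, ∀ B ≥ b, ∀ F G K : HG,
    (∀ e ∈ F, e.card = 3) → (∀ e ∈ G, e.card = 2) → (∀ e ∈ K, e.card = 2 ∨ e.card = 3) → AC K →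
    Up F K → (vx K).card ≤ C → dn K = 209 / 512 →
    dn F + dn (F ∪ G) = dn K + Psi r B0 m B → False := by
  obtain ⟨b0, hb0⟩ := structure_R C (C + 1)
  obtain ⟨r, hr⟩ : ∃ r, r = C + 1 := ⟨_, rfl⟩
  rw [← hr] at hb0
  obtain ⟨B0, hB0⟩ : ∃ B0, B0 = max b0 (4 * (2 ^ C + r + 30)) := ⟨_, rfl⟩
  have hB0a : b0 ≤ B0 := by rw [hB0]; exact le_max_left _ _
  have hB0b : 4 * (2 ^ C + r + 30) ≤ B0 := by rw [hB0]; exact le_max_right _ _
  obtain ⟨p, hp⟩ : ∃ p, p = r + 20 + B0 ^ (r + 1) := ⟨_, rfl⟩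
  obtain ⟨M0, hM0⟩ := main_eq C p
  obtain ⟨cc, hcc, hphi⟩ := phi_dyadic r B0
  obtain ⟨P0, hP0⟩ : ∃ P0, P0 = r + 18 + num B0 (range (r + 18)) := ⟨_, rfl⟩
  rw [← hP0] at hphi
  refine ⟨r, B0, M0, fun m hm => ?_⟩
  obtain ⟨g, hg⟩ : ∃ g, g = C + (6 * (m + p) + 6) := ⟨_, rfl⟩
  obtain ⟨N, hN⟩ : ∃ N, N = 2 ^ g + 2 ^ C := ⟨_, rfl⟩
  obtain ⟨Th, hTh⟩ : ∃ Th, Th = g + C + C ^ 2 + (m + P0) + N + (m + p) + m + 10 := ⟨_, rfl⟩
  refine ⟨Th ^ 8 + (B0 ^ (r + 2) + m + r + 50), fun B hB F G K hF hG hK hKa hUp hKC hKd heq => ?_⟩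
  have hB1 : Th ^ 8 ≤ B := by omega
  have hB2 : B0 ^ (r + 2) + m + r + 50 ≤ B := by omega
  have hlow := lower C r B0 (by omega) hB0b m B hB2 F G K hF hK hUp hKC heq
  rw [← hp] at hlow
  have hGd : (1 : ℝ) / 2 ^ (m + p) ≤ dn G :=
    hlow.trans (dn_mono (up_of_subset Finset.subset_union_right))
  obtain ⟨T, hTc, hT⟩ := graph_cover hG hGd
  -- the core
  have hphi1 := (phi_bounds r B0).1
  have hphi2 := (phi_bounds r B0).2
  have hcP0 : (cc : ℝ) ≤ 2 ^ P0 := by
    rw [hphi, div_le_one (by positivity)] at hphi2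
    exact hphi2
  have hcP : (cc : ℝ) / 2 ^ (m + P0) = phi r B0 / 2 ^ m := by
    rw [hphi, pow_add]
    field_simp
  have hPsi : Psi r B0 m B = ∑ D ∈ (range m).powerset, (cc : ℝ) / 2 ^ (m + P0 + num B D) := by
    unfold Psi
    rw [E1c_prod, Finset.mul_sum]
    refine Finset.sum_congr rfl fun D _ => ?_
    rw [← hcP, pow_add 2 (m + P0) (num B D), div_mul_div_comm, mul_one]
  have hΓc : (vx K ∪ T).card ≤ g := by
    refine (Finset.card_union_le _ _).trans ?_
    omega
  let s : Sys :=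
    { n := m
      BB := (range m).powerset
      B := B
      P := m + P0
      c := cc
      F := F
      G := G
      K := K
      Γ := vx K ∪ T
      N := N
      q := m + p
      C := C
      Th := Th
      hBB := fun D hD => Finset.mem_powerset.1 hD
      hBB0 := Finset.empty_mem_powerset _
      hBB1 := fun i hi => by
        rw [Finset.mem_powerset, Finset.singleton_subset_iff]
        exact Finset.mem_range.2 hi
      hF := hF
      hG := hG
      hK := hK
      hKa := hKa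
      hUp := hUp
      hΓK := Finset.subset_union_left
      hΓG := fun e he => by
        refine le_trans (Finset.card_le_card ?_) (hT e he)
        exact Finset.sdiff_subset_sdiff (Finset.Subset.refl _) Finset.subset_union_right
      hc := hcc
      hcP := by
        have h1 : cc ≤ 2 ^ P0 := by exact_mod_cast hcP0
        refine h1.trans (Nat.pow_le_pow_right (by norm_num) (by omega))
      heq := by rw [heq, hPsi]
      hN := by
        rw [hN]
        refine Nat.add_le_add ?_ ?_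
        · exact Nat.pow_le_pow_right (by norm_num) hΓc
        · exact Nat.pow_le_pow_right (by norm_num) hKC
      hq := hlow
      hC := hKC
      hTh := by
        rw [hTh]
        omega
      hB := hB1 }
  have hmain : dn F = dn K := by
    refine hM0 s rfl rfl rfl ?_ ?_ hm
    · show (cc : ℝ) / 2 ^ (m + P0) ≤ 1 / 2 ^ m
      rw [hcP]
      gcongr
    · show (1 : ℝ) / 2 ^ (m + p) ≤ (cc : ℝ) / 2 ^ (m + P0)
      rw [hcP, pow_add, ← div_div, div_right_comm]
      gcongr
      refine le_trans ?_ hphi1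
      apply one_div_le_one_div_of_le (by positivity)
      apply pow_le_pow_right₀ (by norm_num)
      omega
  have hFK : F = K := Sys.eq_of_dn s hmain
  obtain ⟨J, hJ, hJd⟩ := stage1 s hFK
  have hJ' : m ≤ J.card := hJ
  have hJd' : dn (del (F ∪ G) J) = 2 ^ J.card * ((cc : ℝ) / 2 ^ (m + P0)) := hJd
  have hX : dn (del F J ∪ del G J) = 2 ^ (J.card - m) * phi r B0 := by
    rw [← E1c_del_union, hJd', hcP]
    obtain ⟨k, hk⟩ := Nat.exists_eq_add_of_le hJ'
    rw [hk, Nat.add_sub_cancel_left, pow_add]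
    field_simp
  have hFC : (vx (del F J)).card ≤ C := by
    refine le_trans (Finset.card_le_card (E1c_vx_mono (del_subset F J))) ?_
    rw [hFK]
    exact hKC
  obtain ⟨i, hi, hiv, hiR, hiF⟩ := hb0 B0 hB0a (del F J) (del G J) (J.card - m)
    (fun e he => hF e (del_subset F J he)) hFC (fun e he => hG e (del_subset G J he)) hX
  have hne : dn F ≠ 209 / 512 := by
    refine nr' F hF i hi (fun e he => del_subset F J (hiR e he)) ?_
    intro e he hei
    refine hiF e ?_ hei
    unfold del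
    rw [Finset.mem_filter]
    refine ⟨he, ?_⟩
    rw [Finset.disjoint_left]
    intro x hx hxJ
    obtain ⟨v, hv, rfl⟩ := Finset.mem_image.1 (hei hx)
    have h1 := hiv v (Finset.mem_range.1 hv)
    obtain ⟨e', he', hxe'⟩ := mem_vx.1 h1
    have hd : Disjoint e' J := by
      rcases Finset.mem_union.1 he' with h | h
      · exact (Finset.mem_filter.1 h).2
      · exact (Finset.mem_filter.1 h).2
    exact Finset.disjoint_left.1 hd hxe' hxJ
  exact hne (hmain.trans hKd)

end Pool.Agent.IDX
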