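import Pool.Agent.IDX.N1
import Pool.Agent.IDX.B5

/-! Row IDX-T1b: stars -/

open Finset Filter Topology

namespace Pool.Agent.IDX

theorem T1b_mem_le_vx {H : HG} {e : Finset ℕ} (he : e ∈ H) : e ⊆ vx H :=
  Finset.le_sup (f := id) he

theorem T1b_mem {F0 : HG} {n : ℕ} {Pd : ℕ → Finset ℕ} {e : Finset ℕ} :
    e ∈ F0 ∪ (range n).biUnion (fun i => (Pd i).image (fun p => ({i, p} : Finset ℕ))) ↔
      e ∈ F0 ∨ ∃ i < n, ∃ p ∈ Pd i, e = {i, p} := by
  rw [Finset.mem_union, Finset.mem_biUnion]
  constructor
  · rintro (h | ⟨i, hi, h⟩)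
    · exact Or.inl h
    · obtain ⟨p, hp, rfl⟩ := Finset.mem_image.1 h
      exact Or.inr ⟨i, Finset.mem_range.1 hi, p, hp, rfl⟩
  · rintro (h | ⟨i, hi, p, hp, rfl⟩)
    · exact Or.inl h
    · exact Or.inr ⟨i, Finset.mem_range.2 hi, Finset.mem_image.2 ⟨p, hp, rfl⟩⟩

/-- Stars: the vertices `i < n` with pendant edges `{i, p}`, `p ∈ Pd i` (disjoint sets of size `w i`
outside `range n`), on top of a hypergraph `F0` on `range n`. -/
theorem dn_stars (F0 : HG) (n : ℕ) (hF0 : vx F0 ⊆ range n) (w : ℕ → ℕ) (Pd : ℕ → Finset ℕ)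
    (hw : ∀ i < n, (Pd i).card = w i) (h1 : ∀ i < n, ∀ x ∈ Pd i, n ≤ x)
    (h2 : ∀ i < n, ∀ j < n, i ≠ j → Disjoint (Pd i) (Pd j)) :
    dn (F0 ∪ (range n).biUnion (fun i => (Pd i).image (fun p => {i, p}))) =
      ∑ T ∈ (range n).powerset.filter (fun T => Ind F0 T), (1 : ℝ) / 2 ^ (n + ∑ i ∈ T, w i) := by
  classical
  set H : HG := F0 ∪ (range n).biUnion (fun i => (Pd i).image (fun p => {i, p})) with hH
  have hmem : ∀ e, e ∈ H ↔ e ∈ F0 ∨ ∃ i < n, ∃ p ∈ Pd i, e = {i, p} := fun e => by
    rw [hH]
    exact T1b_mem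
  have hΓ : ∀ e ∈ H, (e \ range n).card ≤ 1 := by
    intro e he
    rcases (hmem e).1 he with h | ⟨i, hi, p, hp, rfl⟩
    · have : e \ range n = ∅ := Finset.sdiff_eq_empty_iff_subset.2 ((T1b_mem_le_vx h).trans hF0)
      rw [this]
      simp
    · have : ({i, p} : Finset ℕ) \ range n ⊆ {p} := by
        intro x hx
        rw [Finset.mem_sdiff, Finset.mem_insert, Finset.mem_singleton, Finset.mem_range] at hx
        rw [Finset.mem_singleton]
        omega
      exact (Finset.card_le_card this).trans (by simp)
  rw [core_dn hΓ]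
  have hInd : ∀ S ∈ (range n).powerset, (Ind H S ↔ Ind F0 S) := by
    intro S hS
    have hS' := Finset.mem_powerset.1 hS
    constructor
    · intro h e he
      exact h e ((hmem e).2 (Or.inl he))
    · intro h e he
      rcases (hmem e).1 he with h' | ⟨i, hi, p, hp, rfl⟩
      · exact h e h'
      · intro hsub
        have hp1 : p ∈ S := hsub (by simp)
        have := Finset.mem_range.1 (hS' hp1)
        have := h1 i hi p hp
        omega
  rw [Finset.filter_congr (q := fun S => Ind F0 S) hInd]
  refine Finset.sum_congr rfl ?_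
  intro S hS
  have hS' : S ⊆ range n := Finset.mem_powerset.1 (Finset.mem_filter.1 hS).1
  have hk : kill H (range n) S = S.biUnion Pd := by
    ext z
    unfold kill
    rw [Finset.mem_filter, Finset.mem_sdiff, Finset.mem_biUnion]
    constructor
    · rintro ⟨⟨_, hzn⟩, e, he, hze, hes⟩
      rcases (hmem e).1 he with h' | ⟨i, hi, p, hp, rfl⟩
      · exact absurd (hF0 (T1b_mem_le_vx h' hze)) hzn
      · have hpn := h1 i hi p hp
        rw [Finset.mem_range] at hzn
        rw [Finset.mem_insert, Finset.mem_singleton] at hze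
        have hzp : z = p := by omega
        subst hzp
        have hiS : i ∈ insert z S := hes (by simp)
        rw [Finset.mem_insert] at hiS
        rcases hiS with h | h
        · omega
        · exact ⟨i, h, hp⟩
    · rintro ⟨i, hiS, hz⟩
      have hi : i < n := Finset.mem_range.1 (hS' hiS)
      have he : ({i, z} : Finset ℕ) ∈ H := (hmem _).2 (Or.inr ⟨i, hi, z, hz, rfl⟩)
      refine ⟨⟨T1b_mem_le_vx he (by simp), ?_⟩, {i, z}, he, by simp, ?_⟩
      · rw [Finset.mem_range]
        have := h1 i hi z hz
        omega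
      · intro x hx
        rw [Finset.mem_insert, Finset.mem_singleton] at hx
        rcases hx with rfl | rfl
        · exact Finset.mem_insert_of_mem hiS
        · exact Finset.mem_insert_self _ _
  have hcard : (S.biUnion Pd).card = ∑ i ∈ S, w i := by
    rw [Finset.card_biUnion]
    · exact Finset.sum_congr rfl fun i hi => hw i (Finset.mem_range.1 (hS' hi))
    · intro i hi j hj hij
      exact h2 i (Finset.mem_range.1 (hS' hi)) j (Finset.mem_range.1 (hS' hj)) hij
  rw [hk, hcard, Finset.card_range]

theorem T1b_lt {e : Finset ℕ} (he : e ∈ Fm) : ∀ v ∈ e, v < 18 := by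
  revert e
  decide

/-- The sum over all blocks factorises. -/
theorem sum_blocks (r B0 m B : ℕ) :
    ∑ T ∈ (range (r + 18 + m)).powerset.filter
        (fun T => Ind (Fm.image (Finset.image (fun v => r + v))) T),
      (1 : ℝ) / 2 ^ (r + 18 + m + ∑ i ∈ T,
        (if i < r + 18 then B0 ^ (i + 1) else B ^ (i - (r + 18) + 1))) = Psi r B0 m B := by
  classical
  induction m with
  | zero =>
    unfold Psi phi
    simp only [Finset.range_zero, Finset.prod_empty, mul_one, pow_zero, div_one, add_zero]
    refine Finset.sum_congr ?_ ?_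
    · unfold Delta0
      refine Finset.filter_congr ?_
      intro T hT
      unfold Ind
      constructor
      · intro h e he hsub
        refine h _ (Finset.mem_image_of_mem _ he) ?_
        intro x hx
        obtain ⟨v, hv, rfl⟩ := Finset.mem_image.1 hx
        have := hsub hv
        unfold vpart at this
        exact (Finset.mem_filter.1 this).2
      · intro h e he hsub
        obtain ⟨f, hf, rfl⟩ := Finset.mem_image.1 he
        refine h f hf ?_
        intro v hv
        unfold vpart
        exact Finset.mem_filter.2 ⟨Finset.mem_range.2 (T1b_lt hf v hv),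
          hsub (Finset.mem_image_of_mem _ hv)⟩
    · intro T hT
      have hT' : T ⊆ range (r + 18) := by
        unfold Delta0 at hT
        exact Finset.mem_powerset.1 (Finset.mem_filter.1 hT).1
      unfold num
      congr 3
      refine Finset.sum_congr rfl ?_
      intro i hi
      rw [if_pos (Finset.mem_range.1 (hT' hi))]
  | succ m ih =>
    have hPsi : Psi r B0 (m + 1) B =
        Psi r B0 m B * (1 / 2) * (1 + (1 : ℝ) / 2 ^ (B ^ (m + 1))) := by
      unfold Psi
      rw [Finset.prod_range_succ, pow_succ]
      field_simp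
    rw [hPsi, ← ih, Finset.sum_filter, Finset.sum_filter]
    have hr : range (r + 18 + (m + 1)) = insert (r + 18 + m) (range (r + 18 + m)) := by
      rw [← add_assoc, Finset.range_add_one]
    have hn : r + 18 + m ∉ range (r + 18 + m) := by simp
    rw [hr, Finset.sum_powerset_insert hn, Finset.sum_mul, Finset.sum_mul,
      ← Finset.sum_add_distrib]
    refine Finset.sum_congr rfl ?_
    intro T hT
    have hT' : T ⊆ range (r + 18 + m) := Finset.mem_powerset.1 hT
    have hnT : r + 18 + m ∉ T := fun h => hn (hT' h)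
    have hiff : Ind (Fm.image (Finset.image (fun v => r + v))) (insert (r + 18 + m) T) ↔
        Ind (Fm.image (Finset.image (fun v => r + v))) T := by
      unfold Ind
      constructor
      · intro h e he hsub
        exact h e he (hsub.trans (Finset.subset_insert _ _))
      · intro h e he hsub
        refine h e he ?_
        intro x hx
        obtain ⟨f, hf, rfl⟩ := Finset.mem_image.1 he
        obtain ⟨v, hv, rfl⟩ := Finset.mem_image.1 hx
        have h18 := T1b_lt hf v hv
        rcases Finset.mem_insert.1 (hsub hx) with h' | h'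
        · omega
        · exact h'
    by_cases hI : Ind (Fm.image (Finset.image (fun v => r + v))) T
    · rw [if_pos hI, if_pos (hiff.2 hI), if_pos hI, Finset.sum_insert hnT,
        if_neg (by omega : ¬ (r + 18 + m < r + 18))]
      have e1 : r + 18 + m - (r + 18) + 1 = m + 1 := by omega
      rw [e1]
      set s := ∑ i ∈ T, (if i < r + 18 then B0 ^ (i + 1) else B ^ (i - (r + 18) + 1)) with hs
      have e2 : r + 18 + (m + 1) + s = (r + 18 + m + s) + 1 := by ring
      have e3 : r + 18 + (m + 1) + (B ^ (m + 1) + s) = (r + 18 + m + s) + 1 + B ^ (m + 1) := by ring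
      rw [e2, e3, pow_add _ _ (B ^ (m + 1)), pow_succ]
      field_simp
    · rw [if_neg hI, if_neg (fun h => hI (hiff.1 h)), if_neg hI]
      ring

end Pool.Agent.IDX
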