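import Pool.Agent.IDX.T1b

/-! Row IDX-T1c: the mixed hypergraph -/

open Finset Filter Topology

namespace Pool.Agent.IDX

/-- The weights of the windows. -/
def T1c_w (r B0 B : ℕ) (i : ℕ) : ℕ :=
  if i < r + 18 then B0 ^ (i + 1) else B ^ (i - (r + 18) + 1)

/-- The pendant vertices. -/
def T1c_P (r B0 m B : ℕ) (i : ℕ) : Finset ℕ :=
  (range (T1c_w r B0 B i)).image (fun t => r + 18 + m + 1 + Nat.pair i t)

/-- The shifted mixed hypergraph. -/
def T1c_F (r : ℕ) : HG := Fm.image (Finset.image (fun v => r + v))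

theorem T1c_P_card (r B0 m B i : ℕ) : (T1c_P r B0 m B i).card = T1c_w r B0 B i := by
  unfold T1c_P
  rw [Finset.card_image_of_injective, Finset.card_range]
  intro a b h
  have h1 : Nat.pair i a = Nat.pair i b := by
    have : r + 18 + m + 1 + Nat.pair i a = r + 18 + m + 1 + Nat.pair i b := h
    omega
  exact (Nat.pair_eq_pair.1 h1).2

theorem T1c_P_ge {r B0 m B i x : ℕ} (h : x ∈ T1c_P r B0 m B i) : r + 18 + m + 1 ≤ x := by
  unfold T1c_P at h
  obtain ⟨t, _, rfl⟩ := Finset.mem_image.1 h
  omega

theorem T1c_P_disj (r B0 m B : ℕ) {i j : ℕ} (hij : i ≠ j) :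
    Disjoint (T1c_P r B0 m B i) (T1c_P r B0 m B j) := by
  rw [Finset.disjoint_left]
  intro x hx hy
  unfold T1c_P at hx hy
  obtain ⟨t, _, rfl⟩ := Finset.mem_image.1 hx
  obtain ⟨u, _, hu⟩ := Finset.mem_image.1 hy
  have h1 : Nat.pair j u = Nat.pair i t := by omega
  exact hij (Nat.pair_eq_pair.1 h1).1.symm

theorem T1c_F_lt {r : ℕ} {e : Finset ℕ} (he : e ∈ T1c_F r) : ∀ v ∈ e, v < r + 18 := by
  unfold T1c_F at he
  obtain ⟨f, hf, rfl⟩ := Finset.mem_image.1 he
  intro x hx
  obtain ⟨v, hv, rfl⟩ := Finset.mem_image.1 hx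
  have := T1b_lt hf v hv
  show r + v < r + 18
  omega

theorem T1c_Fm_card {e : Finset ℕ} (he : e ∈ Fm) : e.card = 2 ∨ e.card = 3 := by
  revert e
  decide

theorem T1c_F_card {r : ℕ} {e : Finset ℕ} (he : e ∈ T1c_F r) : e.card = 2 ∨ e.card = 3 := by
  unfold T1c_F at he
  obtain ⟨f, hf, rfl⟩ := Finset.mem_image.1 he
  rw [Finset.card_image_of_injective _ (fun a b h => by
    have : r + a = r + b := h
    omega)]
  exact T1c_Fm_card hf

theorem T1c_dn0 (r : ℕ) : dn (T1c_F r) = 209 / 512 := by
  unfold T1c_F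
  rw [dn_image, dn_Fm]
  intro a _ b _ h
  have : r + a = r + b := h
  omega

theorem T1c_vx0 (F : HG) (n : ℕ) (h : ∀ e ∈ F, ∀ v ∈ e, v < n) : vx F ⊆ range n := by
  intro x hx
  obtain ⟨e, he, hxe⟩ := mem_vx.1 hx
  exact Finset.mem_range.2 (h e he x hxe)

theorem T1c_vx (r m : ℕ) : vx (T1c_F r) ⊆ range (r + 18 + m) :=
  T1c_vx0 (T1c_F r) (r + 18 + m) (fun e he v hv => by
    have := T1c_F_lt he v hv
    omega)

theorem T1c_dn1 (r B0 m B : ℕ) : dn (T1c_F r ∪ (range (r + 18 + m)).biUnion
    (fun i => (T1c_P r B0 m B i).image (fun p => ({i, p} : Finset ℕ)))) = Psi r B0 m B := by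
  have hvx : vx (T1c_F r) ⊆ range (r + 18 + m) := T1c_vx r m
  have h1 : ∀ i < r + 18 + m, ∀ x ∈ T1c_P r B0 m B i, r + 18 + m ≤ x := by
    intro i _ x hx
    have := T1c_P_ge hx
    omega
  have h := dn_stars (T1c_F r) (r + 18 + m) hvx (T1c_w r B0 B) (T1c_P r B0 m B)
    (fun i _ => T1c_P_card r B0 m B i) h1 (fun i _ j _ hij => T1c_P_disj r B0 m B hij)
  rw [h, ← sum_blocks r B0 m B]
  simp only [T1c_w, T1c_F]

/-- The finite mixed hypergraph with the target density. -/
theorem exists_mixed (r B0 m B : ℕ) : ∃ H : HG, (∀ e ∈ H, e.card = 2 ∨ e.card = 3) ∧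
    dn H = (209 / 512 + Psi r B0 m B) / 2 := by
  classical
  set n : ℕ := r + 18 + m with hn
  set H : HG := T1c_F r ∪ (range n).biUnion
    (fun i => (T1c_P r B0 m B i).image (fun p => ({n, i, p} : Finset ℕ))) with hH
  have hmem : ∀ e, e ∈ H ↔ e ∈ T1c_F r ∨ ∃ i < n, ∃ p ∈ T1c_P r B0 m B i, e = {n, i, p} := by
    intro e
    rw [hH, Finset.mem_union, Finset.mem_biUnion]
    constructor
    · rintro (h | ⟨i, hi, h⟩)
      · exact Or.inl h
      · obtain ⟨p, hp, rfl⟩ := Finset.mem_image.1 h
        exact Or.inr ⟨i, Finset.mem_range.1 hi, p, hp, rfl⟩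
    · rintro (h | ⟨i, hi, p, hp, rfl⟩)
      · exact Or.inl h
      · exact Or.inr ⟨i, Finset.mem_range.2 hi, Finset.mem_image.2 ⟨p, hp, rfl⟩⟩
  have hnF : ∀ e ∈ T1c_F r, n ∉ e := by
    intro e he hne
    have := T1c_F_lt he n hne
    omega
  refine ⟨H, ?_, ?_⟩
  · intro e he
    rcases (hmem e).1 he with h | ⟨i, hi, p, hp, rfl⟩
    · exact T1c_F_card h
    · right
      have hp' := T1c_P_ge hp
      rw [Finset.card_insert_of_notMem, Finset.card_insert_of_notMem, Finset.card_singleton]
      · rw [Finset.mem_singleton]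
        omega
      · rw [Finset.mem_insert, Finset.mem_singleton]
        omega
  · have h0 : lk H {n} ∅ = T1c_F r := by
      ext f
      unfold lk
      rw [Finset.mem_image]
      constructor
      · rintro ⟨e, he, rfl⟩
        rw [Finset.mem_filter] at he
        obtain ⟨he1, he2⟩ := he
        have hne : n ∉ e := by
          intro h
          have : n ∈ e ∩ {n} := Finset.mem_inter.2 ⟨h, Finset.mem_singleton_self n⟩
          exact absurd (he2 this) (Finset.notMem_empty n)
        rcases (hmem e).1 he1 with h | ⟨i, hi, p, hp, rfl⟩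
        · rw [Finset.sdiff_singleton_eq_erase, Finset.erase_eq_of_notMem hne]
          exact h
        · exact absurd (by simp) hne
      · intro hf
        have hne := hnF f hf
        refine ⟨f, ?_, ?_⟩
        · rw [Finset.mem_filter]
          refine ⟨(hmem f).2 (Or.inl hf), ?_⟩
          intro x hx
          rw [Finset.mem_inter, Finset.mem_singleton] at hx
          exact absurd (hx.2 ▸ hx.1) hne
        · rw [Finset.sdiff_singleton_eq_erase, Finset.erase_eq_of_notMem hne]
    have h1 : lk H {n} {n} = T1c_F r ∪ (range n).biUnion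
        (fun i => (T1c_P r B0 m B i).image (fun p => ({i, p} : Finset ℕ))) := by
      ext f
      rw [T1b_mem]
      unfold lk
      rw [Finset.mem_image]
      constructor
      · rintro ⟨e, he, rfl⟩
        rw [Finset.mem_filter] at he
        obtain ⟨he1, he2⟩ := he
        rcases (hmem e).1 he1 with h | ⟨i, hi, p, hp, rfl⟩
        · left
          rw [Finset.sdiff_singleton_eq_erase, Finset.erase_eq_of_notMem (hnF e h)]
          exact h
        · right
          refine ⟨i, hi, p, hp, ?_⟩
          have hp' := T1c_P_ge hp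
          ext x
          simp only [Finset.mem_sdiff, Finset.mem_insert, Finset.mem_singleton]
          constructor
          · rintro ⟨h1, h2⟩
            rcases h1 with h1 | h1
            · exact absurd h1 h2
            · exact h1
          · rintro (h1 | h1)
            · exact ⟨Or.inr (Or.inl h1), by omega⟩
            · exact ⟨Or.inr (Or.inr h1), by omega⟩
      · rintro (h | ⟨i, hi, p, hp, rfl⟩)
        · refine ⟨f, ?_, ?_⟩
          · rw [Finset.mem_filter]
            exact ⟨(hmem f).2 (Or.inl h), Finset.inter_subset_right⟩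
          · rw [Finset.sdiff_singleton_eq_erase, Finset.erase_eq_of_notMem (hnF f h)]
        · refine ⟨{n, i, p}, ?_, ?_⟩
          · rw [Finset.mem_filter]
            exact ⟨(hmem _).2 (Or.inr ⟨i, hi, p, hp, rfl⟩), Finset.inter_subset_right⟩
          · have hp' := T1c_P_ge hp
            ext x
            simp only [Finset.mem_sdiff, Finset.mem_insert, Finset.mem_singleton]
            constructor
            · rintro ⟨h1, h2⟩
              rcases h1 with h1 | h1
              · exact absurd h1 h2
              · exact h1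
            · rintro (h1 | h1)
              · exact ⟨Or.inr (Or.inl h1), by omega⟩
              · exact ⟨Or.inr (Or.inr h1), by omega⟩
    have hd0 := T1c_dn0 r
    have hd1 := T1c_dn1 r B0 m B
    rw [← hn] at hd1
    rw [dn_cond H {n}, Finset.card_singleton, pow_one]
    have hps : ({n} : Finset ℕ).powerset = {∅, {n}} := by
      ext T
      rw [Finset.mem_powerset, Finset.subset_singleton_iff, Finset.mem_insert,
        Finset.mem_singleton]
    rw [hps, Finset.sum_pair (by
      intro h
      exact absurd (h ▸ Finset.mem_singleton_self n) (Finset.notMem_empty n)), h0, h1, hd0, hd1]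

end Pool.Agent.IDX
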