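import Pool.Agent.IDX.E1
import Pool.Agent.IDX.C2
import Pool.Agent.IDX.T1

open Finset Filter Topology

namespace Pool.Agent.IDX

theorem Psi_nonneg (r B0 m B : ℕ) : 0 ≤ Psi r B0 m B := by
  unfold Psi
  have h : 0 ≤ phi r B0 := le_trans (by positivity) (phi_bounds r B0).1
  refine mul_nonneg (div_nonneg h (by positivity)) (Finset.prod_nonneg fun i _ => by positivity)

theorem main_result : ∃ (E : Set (Finset ℕ)) (d : ℝ), (∀ e ∈ E, e.card = 3) ∧
    UD.IsDensity E d ∧ 0 < d ∧ ¬ UD.FinUniform 3 d := by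
  by_contra hcon
  push_neg at hcon
  obtain ⟨C, hC⟩ := exists_C (209 / 512)
  obtain ⟨r, B0, m0, hend⟩ := endgame C
  choose! b hb using hend
  set Bf : ℕ → ℕ := fun m => max (b m) (2 ^ m + (m + r + 20 + num B0 (range (r + 18))) + 10 + 1)
    with hBf
  have hx : ∀ m, ∃ H : HG, (∀ e ∈ H, e.card = 3) ∧
      dn H = (209 / 512 + Psi r B0 m (Bf m)) / 2 := by
    intro m
    obtain ⟨M, hM, hMd⟩ := exists_mixed r B0 m (Bf m)
    obtain ⟨E, hE, hEd⟩ := exists_countable M hM
    have hpos : 0 < dn M := by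
      rw [hMd]
      have := Psi_nonneg r B0 m (Bf m)
      linarith
    obtain ⟨H, hH, hHd⟩ := of_finUniform (hcon E (dn M) hE hEd hpos)
    exact ⟨H, hH, by rw [hHd, hMd]⟩
  choose H h3 hd using hx
  obtain ⟨m, hm, F, G, K, hF, hG, hK, hKa, hUp, hKd, heq⟩ := kernel r B0 Bf
    (fun m => by
      have := le_max_right (b m) (2 ^ m + (m + r + 20 + num B0 (range (r + 18))) + 10 + 1)
      simp only [hBf]
      omega) H h3 hd m0
  have hK3 : ∀ e ∈ K, e.card ≤ 3 := fun e he => by rcases hK e he with h | h <;> omega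
  exact hb m hm (Bf m) (le_max_left _ _) F G K hF hG hK hKa hUp (hC K hKa hK3 hKd) hKd heq

end Pool.Agent.IDX
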