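import Pool.Agent.IDX.Defs

/-! Row IDX-G1: the grouping lemma for one cut. -/

open Finset

namespace Pool.Agent.IDX

theorem G1_sum_range (n : ℕ) :
    ∑ i ∈ range n, (2 : ℝ) ^ (-((i : ℤ) + 1)) = 1 - (2 : ℝ) ^ (-(n : ℤ)) := by
  induction n with
  | zero => simp
  | succ n ih =>
    rw [Finset.sum_range_succ, ih]
    have h : (2 : ℝ) ^ (-(n : ℤ)) = 2 * (2 : ℝ) ^ (-((n : ℤ) + 1)) := by
      have : (-(n : ℤ)) = 1 + (-((n : ℤ) + 1)) := by ring
      rw [this, zpow_add₀ (by norm_num : (2 : ℝ) ≠ 0), zpow_one]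
    push_cast
    rw [h]
    ring

theorem G1_sum_lt_one (s : Finset ℤ) (hs : ∀ a ∈ s, 1 ≤ a) : ∑ a ∈ s, (2 : ℝ) ^ (-a) < 1 := by
  classical
  obtain ⟨n, hn⟩ : ∃ n : ℕ, ∀ a ∈ s, a ≤ n := by
    refine ⟨s.sup (fun a => a.toNat), ?_⟩
    intro a ha
    have h1 : a.toNat ≤ s.sup (fun a => a.toNat) := Finset.le_sup (f := fun a : ℤ => a.toNat) ha
    have h2 := hs a ha
    omega
  have hsub : s ⊆ (range n).image (fun i : ℕ => (i : ℤ) + 1) := by
    intro a ha
    have h1 := hs a ha
    have h2 := hn a ha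
    rw [Finset.mem_image]
    refine ⟨(a - 1).toNat, ?_, ?_⟩
    · rw [Finset.mem_range]; omega
    · omega
  have h3 : ∑ a ∈ s, (2 : ℝ) ^ (-a) ≤ ∑ a ∈ (range n).image (fun i : ℕ => (i : ℤ) + 1), (2 : ℝ) ^ (-a) :=
    Finset.sum_le_sum_of_subset_of_nonneg hsub (fun i _ _ => by positivity)
  rw [Finset.sum_image (by intro a _ b _ h; simpa using h)] at h3
  have h4 := G1_sum_range n
  have h5 : (0 : ℝ) < (2 : ℝ) ^ (-(n : ℤ)) := by positivity
  linarith

theorem G1_exists_dup (M : Multiset ℤ) (h : ∀ a ∈ M, 1 ≤ a)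
    (hs : 1 ≤ (M.map (fun a => (2 : ℝ) ^ (-a))).sum) :
    ∃ a : ℤ, ∃ M' : Multiset ℤ, M = a ::ₘ a ::ₘ M' := by
  classical
  by_cases hnd : M.Nodup
  · exfalso
    have h1 := G1_sum_lt_one (⟨M, hnd⟩ : Finset ℤ) (fun a ha => h a ha)
    have h2 : ∑ a ∈ (⟨M, hnd⟩ : Finset ℤ), (2 : ℝ) ^ (-a) = (M.map (fun a => (2 : ℝ) ^ (-a))).sum := rfl
    linarith
  · rw [Multiset.nodup_iff_ne_cons_cons] at hnd
    push Not at hnd
    obtain ⟨a, t, ht⟩ := hnd
    exact ⟨a, t, ht⟩

theorem G1_aux (n : ℕ) : ∀ (M : Multiset ℤ) (θ g : ℕ) (t : ℝ), Multiset.card M = n → n ≤ g → 0 ≤ t →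
    t < (2 : ℝ) ^ (-(g : ℤ)) → (M.map (fun a => (2 : ℝ) ^ (-a))).sum = θ + t →
    (∀ a ∈ M, a ≤ (n : ℤ) ∨ (g : ℤ) < a) ∧
      ((M.filter (fun a => a ≤ (n : ℤ))).map (fun a => (2 : ℝ) ^ (-a))).sum = θ := by
  classical
  induction n with
  | zero =>
    intro M θ g t hM hg ht0 ht hsum
    rw [Multiset.card_eq_zero] at hM
    subst hM
    simp only [Multiset.map_zero, Multiset.sum_zero, Multiset.filter_zero] at hsum ⊢
    refine ⟨by simp, ?_⟩
    have : (0 : ℝ) ≤ θ := Nat.cast_nonneg θ
    linarith
  | succ n ih =>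
    intro M θ g t hM hg ht0 ht hsum
    have ht1 : t < 1 := by
      refine lt_of_lt_of_le ht ?_
      have : (2 : ℝ) ^ (-(g : ℤ)) ≤ (2 : ℝ) ^ (0 : ℤ) := by
        apply zpow_le_zpow_right₀ (by norm_num)
        omega
      simpa using this
    by_cases hneg : ∃ a ∈ M, a ≤ 0
    · obtain ⟨a, haM, ha0⟩ := hneg
      obtain ⟨M', rfl⟩ := Multiset.exists_cons_of_mem haM
      have hc : Multiset.card M' = n := by
        rw [Multiset.card_cons] at hM; omega
      have hpow : (2 : ℝ) ^ (-a) = ((2 ^ (-a).toNat : ℕ) : ℝ) := by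
        push_cast
        rw [← zpow_natCast]
        congr 1
        omega
      rw [Multiset.map_cons, Multiset.sum_cons] at hsum
      have hS0 : 0 ≤ (M'.map (fun a => (2 : ℝ) ^ (-a))).sum := by
        apply Multiset.sum_nonneg
        intro x hx
        rw [Multiset.mem_map] at hx
        obtain ⟨b, _, rfl⟩ := hx
        positivity
      have hle : 2 ^ (-a).toNat ≤ θ := by
        have h1 : ((2 ^ (-a).toNat : ℕ) : ℝ) < (θ : ℝ) + 1 := by
          rw [← hpow]; linarith
        have h2 : 2 ^ (-a).toNat < θ + 1 := by exact_mod_cast h1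
        omega
      have hcast : ((θ - 2 ^ (-a).toNat : ℕ) : ℝ) = (θ : ℝ) - (2 : ℝ) ^ (-a) := by
        rw [Nat.cast_sub hle, hpow]
      obtain ⟨h1, h2⟩ := ih M' (θ - 2 ^ (-a).toNat) g t hc (by omega) ht0 ht (by
        rw [hcast]; linarith)
      constructor
      · intro b hb
        rw [Multiset.mem_cons] at hb
        rcases hb with rfl | hb
        · left; omega
        · rcases h1 b hb with h | h
          · left; push_cast; omega
          · right; exact h
      · have hf : (a ::ₘ M').filter (fun a => a ≤ ((n + 1 : ℕ) : ℤ)) =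
            a ::ₘ (M'.filter (fun a => a ≤ (n : ℤ))) := by
          rw [Multiset.filter_cons_of_pos _ (by push_cast; omega)]
          congr 1
          apply Multiset.filter_congr
          intro b hb
          rcases h1 b hb with h | h
          · push_cast; constructor <;> intro _ <;> omega
          · push_cast
            constructor <;> intro _ <;> omega
        rw [hf, Multiset.map_cons, Multiset.sum_cons, h2, hcast]
        ring
    · push Not at hneg
      have hpos : ∀ a ∈ M, 1 ≤ a := fun a ha => by have := hneg a ha; omega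
      rcases Nat.eq_zero_or_pos θ with hθ | hθ
      · subst hθ
        have hbig : ∀ a ∈ M, (g : ℤ) < a := by
          intro a ha
          obtain ⟨M', rfl⟩ := Multiset.exists_cons_of_mem ha
          rw [Multiset.map_cons, Multiset.sum_cons] at hsum
          have hS0 : 0 ≤ (M'.map (fun a => (2 : ℝ) ^ (-a))).sum := by
            apply Multiset.sum_nonneg
            intro x hx
            rw [Multiset.mem_map] at hx
            obtain ⟨b, _, rfl⟩ := hx
            positivity
          have h1 : (2 : ℝ) ^ (-a) < (2 : ℝ) ^ (-(g : ℤ)) := by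
            push_cast at hsum
            linarith
          have h2 := (zpow_lt_zpow_iff_right₀ (by norm_num : (1 : ℝ) < 2)).1 h1
          omega
        refine ⟨fun a ha => Or.inr (hbig a ha), ?_⟩
        have hf : M.filter (fun a => a ≤ ((n + 1 : ℕ) : ℤ)) = 0 := by
          rw [Multiset.filter_eq_nil]
          intro a ha
          have := hbig a ha
          push_cast
          omega
        rw [hf]
        simp
      · have h1 : 1 ≤ (M.map (fun a => (2 : ℝ) ^ (-a))).sum := by
          rw [hsum]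
          have : (1 : ℝ) ≤ θ := by exact_mod_cast hθ
          linarith
        obtain ⟨a, M', rfl⟩ := G1_exists_dup M hpos h1
        have hc : Multiset.card ((a - 1) ::ₘ M') = n := by
          rw [Multiset.card_cons, Multiset.card_cons] at hM
          rw [Multiset.card_cons]
          omega
        have hdbl : (2 : ℝ) ^ (-(a - 1)) = (2 : ℝ) ^ (-a) + (2 : ℝ) ^ (-a) := by
          have : (-(a - 1)) = 1 + (-a) := by ring
          rw [this, zpow_add₀ (by norm_num : (2 : ℝ) ≠ 0), zpow_one]
          ring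
        obtain ⟨h2, h3⟩ := ih ((a - 1) ::ₘ M') θ g t hc (by omega) ht0 ht (by
          rw [Multiset.map_cons, Multiset.sum_cons, hdbl]
          rw [Multiset.map_cons, Multiset.sum_cons, Multiset.map_cons, Multiset.sum_cons] at hsum
          linarith)
        have ha := h2 (a - 1) (Multiset.mem_cons_self _ _)
        have hM' : ∀ b ∈ M', b ≤ (n : ℤ) ∨ (g : ℤ) < b := fun b hb =>
          h2 b (Multiset.mem_cons_of_mem hb)
        have hfM : M'.filter (fun a => a ≤ ((n + 1 : ℕ) : ℤ)) = M'.filter (fun a => a ≤ (n : ℤ)) := by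
          apply Multiset.filter_congr
          intro b hb
          rcases hM' b hb with h | h
          · push_cast; constructor <;> intro _ <;> omega
          · push_cast
            constructor <;> intro _ <;> omega
        constructor
        · intro b hb
          rw [Multiset.mem_cons, Multiset.mem_cons] at hb
          have haa : a ≤ ((n + 1 : ℕ) : ℤ) ∨ (g : ℤ) < a := by
            push_cast
            rcases ha with h | h
            · left; omega
            · right; omega
          rcases hb with rfl | rfl | hb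
          · exact haa
          · exact haa
          · rcases hM' b hb with h | h
            · left; push_cast; omega
            · right; exact h
        · rcases ha with h | h
          · rw [Multiset.filter_cons_of_pos _ (by push_cast; omega),
              Multiset.filter_cons_of_pos _ (by push_cast; omega), hfM]
            rw [Multiset.filter_cons_of_pos _ (by omega)] at h3
            rw [Multiset.map_cons, Multiset.sum_cons, hdbl] at h3
            rw [Multiset.map_cons, Multiset.sum_cons, Multiset.map_cons, Multiset.sum_cons]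
            linarith
          · rw [Multiset.filter_cons_of_neg _ (by push_cast; omega),
              Multiset.filter_cons_of_neg _ (by push_cast; omega), hfM]
            rw [Multiset.filter_cons_of_neg _ (by omega)] at h3
            exact h3

/-- (GL0) A multiset of `N` integers (exponents) with `∑ 2^{-a} = θ + t`, `θ` a natural number,
`0 ≤ t < 2^{-g}` and `N ≤ g`: every exponent is `≤ N` or `> g`, and the exponents `≤ N` sum up to
`θ` exactly.

Proof by induction on `N = card M` (for all `θ, t, g`).  If some `a ∈ M` is `≤ 0` then `2^{-a}` is a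
natural number, `2^{-a} ≤ θ` (as `θ + t - 2^{-a} ≥ 0` and `t < 1`), remove it.  Otherwise all `a ≥ 1`:
if `θ = 0` then `2^{-a} ≤ t < 2^{-g}`, so all `a > g`.  If `θ ≥ 1` then two exponents are equal
(distinct integers `≥ 1` have `∑ 2^{-a} < 1`); replace `a, a` by `a - 1`: the new multiset has card
`N - 1`; by induction `a - 1 ≤ N - 1` or `a - 1 > g`, in both cases the two copies of `a` are in the
class of `a - 1` and the sums agree (`a - 1 > g` gives `a > g`; `a - 1 ≤ N - 1` gives `a ≤ N`, and
for the other members `b ≤ N - 1` or `b > g`, and since `N ≤ g` no `b` lies in between). -/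
theorem gl_zero (M : Multiset ℤ) (θ g : ℕ) (t : ℝ) (hg : Multiset.card M ≤ g) (ht0 : 0 ≤ t)
    (ht : t < (2 : ℝ) ^ (-(g : ℤ)))
    (hsum : (M.map (fun a => (2 : ℝ) ^ (-a))).sum = θ + t) :
    (∀ a ∈ M, a ≤ (Multiset.card M : ℤ) ∨ (g : ℤ) < a) ∧
      ((M.filter (fun a => a ≤ (Multiset.card M : ℤ))).map (fun a => (2 : ℝ) ^ (-a))).sum = θ := by
  exact G1_aux (Multiset.card M) M θ g t rfl hg ht0 ht hsum

/-- (GL0) in the form used below: exponents `a i` (`i ∈ s`, at most `N` of them), a cut `q`:
`∑ 2^{-a i} = u + t` with `u ∈ 2^{-q} ℕ` and `0 ≤ t < 2^{-(q + g)}`, `N ≤ g`.  Then every exponent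
is `≤ q + N` or `> q + g`, and the exponents `≤ q + N` have sum `u`.
(Apply `gl_zero` to the multiset of the `a i - q`.) -/
theorem gl_cut {ι : Type} (s : Finset ι) (a : ι → ℕ) (N g q c : ℕ) (t : ℝ) (hN : s.card ≤ N)
    (hg : N ≤ g) (ht0 : 0 ≤ t) (ht : t < 1 / 2 ^ (q + g))
    (hsum : ∑ i ∈ s, (1 : ℝ) / 2 ^ (a i) = c / 2 ^ q + t) :
    (∀ i ∈ s, a i ≤ q + N ∨ q + g < a i) ∧
      ∑ i ∈ s.filter (fun i => a i ≤ q + N), (1 : ℝ) / 2 ^ (a i) = c / 2 ^ q := by
  classical
  have hq : (0 : ℝ) < 2 ^ q := by positivity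
  have hterm : ∀ i, (2 : ℝ) ^ (-((a i : ℤ) - q)) = 2 ^ q * (1 / 2 ^ (a i)) := by
    intro i
    have h1 : (-((a i : ℤ) - q)) = (q : ℤ) - (a i : ℤ) := by ring
    rw [h1, zpow_sub₀ (by norm_num : (2 : ℝ) ≠ 0), zpow_natCast, zpow_natCast]
    ring
  have hcard : Multiset.card (s.val.map (fun i => (a i : ℤ) - q)) = s.card := by
    rw [Multiset.card_map]; rfl
  have hsum' : ((s.val.map (fun i => (a i : ℤ) - q)).map (fun a => (2 : ℝ) ^ (-a))).sum =
      (c : ℝ) + 2 ^ q * t := by
    rw [Multiset.map_map]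
    have h1 : (s.val.map ((fun a : ℤ => (2 : ℝ) ^ (-a)) ∘ fun i => (a i : ℤ) - q)).sum =
        ∑ i ∈ s, 2 ^ q * ((1 : ℝ) / 2 ^ (a i)) := by
      rw [Finset.sum_eq_multiset_sum]
      congr 1
      apply Multiset.map_congr rfl
      intro i _
      exact hterm i
    rw [h1, ← Finset.mul_sum, hsum]
    field_simp
  have ht' : 2 ^ q * t < (2 : ℝ) ^ (-(g : ℤ)) := by
    have h1 : (2 : ℝ) ^ (-(g : ℤ)) = 2 ^ q * (1 / 2 ^ (q + g)) := by
      rw [zpow_neg, zpow_natCast, pow_add]
      field_simp
    rw [h1]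
    exact mul_lt_mul_of_pos_left ht hq
  obtain ⟨h1, h2⟩ := gl_zero (s.val.map (fun i => (a i : ℤ) - q)) c g (2 ^ q * t)
    (by rw [hcard]; omega) (by positivity) ht' hsum'
  rw [hcard] at h1 h2
  have h3 : ∀ i ∈ s, (a i : ℤ) - q ≤ (s.card : ℤ) ∨ (g : ℤ) < (a i : ℤ) - q := by
    intro i hi
    exact h1 _ (Multiset.mem_map_of_mem (fun i => (a i : ℤ) - q) hi)
  constructor
  · intro i hi
    rcases h3 i hi with h | h
    · left; omega
    · right; omega
  · have h4 : (((s.val.map (fun i => (a i : ℤ) - q)).filter (fun a => a ≤ (s.card : ℤ))).map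
        (fun a => (2 : ℝ) ^ (-a))).sum =
        ∑ i ∈ s.filter (fun i => a i ≤ q + N), 2 ^ q * ((1 : ℝ) / 2 ^ (a i)) := by
      rw [Multiset.filter_map, Multiset.map_map, Finset.sum_eq_multiset_sum, Finset.filter_val]
      congr 1
      have h5 : s.val.filter ((fun a : ℤ => a ≤ (s.card : ℤ)) ∘ fun i => (a i : ℤ) - q) =
          s.val.filter (fun i => a i ≤ q + N) := by
        apply Multiset.filter_congr
        intro i hi
        show ((a i : ℤ) - q ≤ (s.card : ℤ)) ↔ a i ≤ q + N
        rcases h3 i hi with h | h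
        · constructor <;> intro _ <;> omega
        · constructor <;> intro _ <;> omega
      rw [h5]
      apply Multiset.map_congr rfl
      intro i _
      exact hterm i
    rw [h4, ← Finset.mul_sum] at h2
    field_simp
    linarith

end Pool.Agent.IDX
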