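import Pool.Agent.IDX.Defs

/-! Row IDX-G3a: tops and numbers -/

open Finset

namespace Pool.Agent.IDX

theorem top_empty : top ∅ = 0 := by
  simp [top]

theorem top_le_iff {D : Finset ℕ} {n : ℕ} : top D ≤ n ↔ D ⊆ range n := by
  unfold top
  rw [Finset.sup_le_iff]
  constructor
  · intro h x hx
    have := h x hx
    exact mem_range.mpr (by omega)
  · intro h x hx
    have := mem_range.mp (h hx)
    omega

theorem top_mem {D : Finset ℕ} {k : ℕ} (h : top D = k + 1) : k ∈ D := by
  by_contra hk
  have h1 : D ⊆ range (k + 1) := top_le_iff.mp (le_of_eq h)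
  have h2 : D ⊆ range k := by
    intro x hx
    have h3 := mem_range.mp (h1 hx)
    have h4 : x ≠ k := fun h5 => hk (h5 ▸ hx)
    exact mem_range.mpr (by omega)
  have := top_le_iff.mpr h2
  omega

theorem top_eq_zero {D : Finset ℕ} : top D = 0 ↔ D = ∅ := by
  constructor
  · intro h
    have h1 : D ⊆ range 0 := top_le_iff.mp (le_of_eq h)
    simpa using h1
  · rintro rfl
    exact top_empty

theorem top_singleton (i : ℕ) : top {i} = i + 1 := by
  simp [top]

theorem num_empty (B : ℕ) : num B ∅ = 0 := by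
  simp [num]

theorem num_singleton (B i : ℕ) : num B {i} = B ^ (i + 1) := by
  simp [num]

theorem num_union {B : ℕ} {D E : Finset ℕ} (h : Disjoint D E) : num B (D ∪ E) = num B D + num B E := by
  unfold num
  exact sum_union h

theorem num_mono {B : ℕ} {D E : Finset ℕ} (h : D ⊆ E) : num B D ≤ num B E := by
  unfold num
  exact sum_le_sum_of_subset h

/-- `B^{top D} ≤ num B D` for `D ≠ ∅`. -/
theorem pow_top_le_num {B : ℕ} {D : Finset ℕ} (h : D.Nonempty) : B ^ top D ≤ num B D := by
  obtain ⟨k, hk⟩ : ∃ k, top D = k + 1 := by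
    rcases Nat.eq_zero_or_pos (top D) with h0 | h0
    · exact absurd (top_eq_zero.mp h0) h.ne_empty
    · exact ⟨top D - 1, by omega⟩
  have hm := top_mem hk
  rw [hk, ← num_singleton B k]
  exact num_mono (singleton_subset_iff.mpr hm)

theorem G3a_num_range {B : ℕ} (hB : 2 ≤ B) (n : ℕ) : num B (range n) + 2 ≤ 2 * B ^ n := by
  induction n with
  | zero => simp [num]
  | succ n ih =>
    have h1 : num B (range (n + 1)) = num B (range n) + B ^ (n + 1) := by
      unfold num
      exact sum_range_succ _ _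
    have h2 : B ^ (n + 1) = B ^ n * B := pow_succ B n
    have h3 : B ^ n * 2 ≤ B ^ n * B := Nat.mul_le_mul_left _ hB
    rw [h1]
    omega

/-- `num B D ≤ 2 B^{top D}` (`2 ≤ B`), even `num B D + 2 ≤ 2 B ^ n` for `D ⊆ range n`. -/
theorem num_le {B n : ℕ} (hB : 2 ≤ B) {D : Finset ℕ} (h : D ⊆ range n) :
    num B D + 2 ≤ 2 * B ^ n := by
  have h1 := num_mono (B := B) h
  have h2 := G3a_num_range hB n
  omega

end Pool.Agent.IDX
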