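import Pool.Agent.IDX.B5
import Pool.Agent.IDX.B6
import Pool.Agent.IDX.G2
import Pool.Agent.IDX.G3

/-! The main set-up: `F` is 3-uniform, `G` is a graph, `K` a clutter with edges of size 2, 3 such
that every edge of `F` contains an edge of `K`, and
`dn F + dn (F ∪ G) = dn K + ∑_{D ∈ BB} c 2^{-P - num B D}` with `B` huge. -/

open Finset

namespace Pool.Agent.IDX

structure Sys where
  /-- the number of windows -/
  n : ℕ
  /-- the blocks -/
  BB : Finset (Finset ℕ)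
  B : ℕ
  P : ℕ
  c : ℕ
  F : HG
  G : HG
  K : HG
  /-- the core -/
  Γ : Finset ℕ
  /-- bound for the number of states -/
  N : ℕ
  /-- `2^{-q} ≤ dn (F ∪ G)` -/
  q : ℕ
  /-- bound for the number of vertices of `K` -/
  C : ℕ
  /-- common bound for everything except `B` -/
  Th : ℕ
  hBB : ∀ D ∈ BB, D ⊆ range n
  hBB0 : ∅ ∈ BB
  hBB1 : ∀ i < n, {i} ∈ BB
  hF : ∀ e ∈ F, e.card = 3
  hG : ∀ e ∈ G, e.card = 2
  hK : ∀ e ∈ K, e.card = 2 ∨ e.card = 3
  hKa : AC K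
  hUp : Up F K
  hΓK : vx K ⊆ Γ
  hΓG : ∀ e ∈ G, (e \ Γ).card ≤ 1
  hc : 0 < c
  hcP : c ≤ 2 ^ P
  heq : dn F + dn (F ∪ G) = dn K + ∑ D ∈ BB, (c : ℝ) / 2 ^ (P + num B D)
  hN : 2 ^ Γ.card + 2 ^ (vx K).card ≤ N
  hq : (1 : ℝ) / 2 ^ q ≤ dn (F ∪ G)
  hC : (vx K).card ≤ C
  hTh : Γ.card + C + C ^ 2 + P + N + q + n + 10 ≤ Th
  hB : Th ^ 8 ≤ B

namespace Sys

variable (s : Sys)

/-- The core of `F`. -/
def T0 : Finset ℕ := vx s.K

/-- The states: independent subsets of the core `Γ`. -/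
def St : Finset (Finset ℕ) := s.Γ.powerset.filter (Ind (s.F ∪ s.G))

/-- The number of outer vertices killed by a state. -/
def f (S : Finset ℕ) : ℕ := (kill (s.F ∪ s.G) s.Γ S).card

/-- The states contributing to `dn F - dn K`. -/
def Se : Finset (Finset ℕ) := s.T0.powerset.filter (fun S => Ind s.F S ∧ ¬ Ind s.K S)

def z (S : Finset ℕ) : ℕ := (kill s.F s.T0 S).card

/-- Outer neighbours. -/
def No (v : ℕ) : Finset ℕ := (vx s.G \ s.Γ).filter (fun w => {v, w} ∈ s.G)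

/-- The 2-edges of `K`. -/
def K2 : HG := s.K.filter (fun e => e.card = 2)

/-- The petals of the germ `Q` outside `T0`. -/
def Z (Q : Finset ℕ) : Finset ℕ := (vx s.F \ s.T0).filter (fun w => insert w Q ∈ s.F)

/-- The petals of the germ `Q` outside `Γ`. -/
def Zo (Q : Finset ℕ) : Finset ℕ := s.Z Q \ s.Γ

end Sys

/-- A system together with an assignment of blocks to the states, as given by the grouping
lemma. -/
structure SysD extends Sys where
  Df : Finset ℕ → Finset ℕ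
  Ef : Finset ℕ → Finset ℕ
  hD : ∀ S ∈ toSys.St, Df S ∈ BB ∧ num B (Df S) ≤ Γ.card + toSys.f S ∧
    Γ.card + toSys.f S ≤ num B (Df S) + (P + N)
  hE : ∀ S ∈ toSys.Se, Ef S ∈ BB ∧ num B (Ef S) ≤ toSys.T0.card + toSys.z S ∧
    toSys.T0.card + toSys.z S ≤ num B (Ef S) + (P + N)
  hsum : ∀ D ∈ BB, (∑ S ∈ toSys.St.filter (fun S => Df S = D), (1 : ℝ) / 2 ^ (Γ.card + toSys.f S)) +
    (∑ S ∈ toSys.Se.filter (fun S => Ef S = D), (1 : ℝ) / 2 ^ (toSys.T0.card + toSys.z S)) =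
      (c : ℝ) / 2 ^ (P + num B D)

namespace SysD

variable (s : SysD)

/-- The level of a vertex of the core. -/
def lev (v : ℕ) : ℕ := top (s.Df {v})

/-- The level of a germ. -/
def levQ (Q : Finset ℕ) : ℕ := top (s.Ef Q)

/-- The centres. -/
def J : Finset ℕ := s.Γ.filter (fun v => 1 ≤ s.lev v)

end SysD

end Pool.Agent.IDX
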