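import Pool.Agent.IDX.M1a

/-! Row IDX-M1b: kill sets -/

open Finset

namespace Pool.Agent.IDX

namespace Sys

variable (s : Sys)

theorem M1b_mem_kill {H : HG} {Γ S : Finset ℕ} {z : ℕ} :
    z ∈ kill H Γ S ↔ z ∉ Γ ∧ ∃ e ∈ H, z ∈ e ∧ e ⊆ insert z S := by
  unfold kill
  rw [mem_filter, mem_sdiff]
  constructor
  · rintro ⟨⟨_, h1⟩, h2⟩
    exact ⟨h1, h2⟩
  · rintro ⟨h1, e, he, hz, hsub⟩
    exact ⟨⟨subset_vx he hz, h1⟩, e, he, hz, hsub⟩

theorem M1b_kill_F {S : Finset ℕ} {z : ℕ} (hz0 : z ∉ s.T0) :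
    (∃ e ∈ s.F, z ∈ e ∧ e ⊆ insert z S) ↔ ∃ Q ∈ s.K2, Q ⊆ S ∧ insert z Q ∈ s.F := by
  constructor
  · rintro ⟨e, he, hz, hsub⟩
    refine ⟨e.erase z, s.F_germ he hz hz0, ?_, ?_⟩
    · intro x hx
      rw [mem_erase] at hx
      rcases mem_insert.1 (hsub hx.2) with h | h
      · exact absurd h hx.1
      · exact h
    · rw [insert_erase hz]
      exact he
  · rintro ⟨Q, _, hQS, hQ⟩
    exact ⟨insert z Q, hQ, mem_insert_self z Q, insert_subset_insert z hQS⟩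

theorem kill_St {S : Finset ℕ} (hS : S ∈ s.St) :
    kill (s.F ∪ s.G) s.Γ S =
      S.biUnion s.No ∪ (s.K2.filter (fun Q => Q ⊆ S)).biUnion s.Zo := by
  ext z
  rw [M1b_mem_kill, mem_union, mem_biUnion, mem_biUnion]
  constructor
  · rintro ⟨hzΓ, e, he, hz, hsub⟩
    rcases mem_union.1 he with h | h
    · right
      have hz0 : z ∉ s.T0 := fun h0 => hzΓ (s.T0_subset h0)
      obtain ⟨Q, hQ, hQS, hQF⟩ := (s.M1b_kill_F hz0).1 ⟨e, h, hz, hsub⟩
      refine ⟨Q, mem_filter.2 ⟨hQ, hQS⟩, ?_⟩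
      unfold Zo
      rw [mem_sdiff, mem_Z]
      exact ⟨⟨hz0, hQF⟩, hzΓ⟩
    · left
      have h2 : (e.erase z).card = 1 := by
        rw [card_erase_of_mem hz, s.hG e h]
      obtain ⟨v, hv⟩ := card_eq_one.1 h2
      have hve : v ∈ e.erase z := by
        rw [hv]
        exact mem_singleton_self v
      rw [mem_erase] at hve
      have hvS : v ∈ S := by
        rcases mem_insert.1 (hsub hve.2) with h3 | h3
        · exact absurd h3 hve.1
        · exact h3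
      refine ⟨v, hvS, ?_⟩
      rw [mem_No]
      refine ⟨hzΓ, ?_⟩
      have h4 : ({v, z} : Finset ℕ) = e := by
        rw [pair_comm, ← hv, insert_erase hz]
      rw [h4]
      exact h
  · rintro (⟨v, hv, hz⟩ | ⟨Q, hQ, hz⟩)
    · rw [mem_No] at hz
      refine ⟨hz.1, {v, z}, mem_union_right _ hz.2, mem_insert_of_mem (mem_singleton_self z), ?_⟩
      intro x hx
      rw [mem_insert, mem_singleton] at hx
      rcases hx with rfl | rfl
      · exact mem_insert_of_mem hv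
      · exact mem_insert_self _ _
    · unfold Zo at hz
      rw [mem_sdiff, mem_Z] at hz
      rw [mem_filter] at hQ
      exact ⟨hz.2, insert z Q, mem_union_left _ hz.1.2, mem_insert_self z Q,
        insert_subset_insert z hQ.2⟩

theorem kill_Se {S : Finset ℕ} (hS : S ∈ s.Se) :
    kill s.F s.T0 S = (s.K2.filter (fun Q => Q ⊆ S)).biUnion s.Z := by
  ext z
  rw [M1b_mem_kill, mem_biUnion]
  constructor
  · rintro ⟨hz0, h⟩
    obtain ⟨Q, hQ, hQS, hQF⟩ := (s.M1b_kill_F hz0).1 h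
    exact ⟨Q, mem_filter.2 ⟨hQ, hQS⟩, s.mem_Z.2 ⟨hz0, hQF⟩⟩
  · rintro ⟨Q, hQ, hz⟩
    rw [mem_filter] at hQ
    rw [mem_Z] at hz
    exact ⟨hz.1, (s.M1b_kill_F hz.1).2 ⟨Q, hQ.1, hQ.2, hz.2⟩⟩

theorem f_singleton {v : ℕ} (hv : v ∈ s.Γ) : s.f {v} = (s.No v).card := by
  unfold f
  rw [s.kill_St (s.singleton_mem_St hv), singleton_biUnion]
  have h1 : s.K2.filter (fun Q => Q ⊆ {v}) = ∅ := by
    rw [filter_eq_empty_iff]
    intro Q hQ hsub
    have h2 := (s.mem_K2 hQ).2.1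
    have h3 := card_le_card hsub
    rw [card_singleton] at h3
    omega
  rw [h1, biUnion_empty, union_empty]

theorem z_K2 {Q : Finset ℕ} (hQ : Q ∈ s.K2) : s.z Q = (s.Z Q).card := by
  unfold z
  rw [s.kill_Se (s.K2_mem_Se hQ)]
  have h1 : s.K2.filter (fun Q' => Q' ⊆ Q) = {Q} := by
    ext Q'
    rw [mem_filter, mem_singleton]
    constructor
    · rintro ⟨h2, h3⟩
      refine eq_of_subset_of_card_le h3 ?_
      rw [(s.mem_K2 hQ).2.1, (s.mem_K2 h2).2.1]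
    · rintro rfl
      exact ⟨hQ, Subset.refl _⟩
  rw [h1, singleton_biUnion]

theorem f_mono {S S' : Finset ℕ} (h : S ∈ s.St) (h' : S' ⊆ S) : s.f S' ≤ s.f S := by
  unfold f
  refine card_le_card (fun z hz => ?_)
  rw [M1b_mem_kill] at hz ⊢
  obtain ⟨h1, e, he, hz, hsub⟩ := hz
  exact ⟨h1, e, he, hz, hsub.trans (insert_subset_insert z h')⟩

theorem f_le {S : Finset ℕ} (hS : S ∈ s.St) :
    s.f S ≤ ∑ v ∈ S, (s.No v).card + ∑ Q ∈ s.K2.filter (fun Q => Q ⊆ S), (s.Zo Q).card := by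
  unfold f
  rw [s.kill_St hS]
  exact (card_union_le _ _).trans (Nat.add_le_add card_biUnion_le card_biUnion_le)

theorem Zo_card (Q : Finset ℕ) : (s.Zo Q).card ≤ (s.Z Q).card ∧ (s.Z Q).card ≤ (s.Zo Q).card + s.Γ.card := by
  have h1 : s.Zo Q ⊆ s.Z Q := by
    unfold Zo
    exact sdiff_subset
  have h2 : s.Z Q ⊆ s.Zo Q ∪ s.Γ := by
    intro z hz
    unfold Zo
    rw [mem_union, mem_sdiff]
    by_cases h : z ∈ s.Γ
    · exact Or.inr h
    · exact Or.inl ⟨hz, h⟩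
  exact ⟨card_le_card h1, (card_le_card h2).trans (card_union_le _ _)⟩

end Sys

end Pool.Agent.IDX
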