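import Pool.Agent.IDX.M1a

/-! Row IDX-M1c: the assignment of blocks -/

open Finset

namespace Pool.Agent.IDX

namespace Sys

variable (s : Sys)

/-- The two sums of the states together give the right hand side. -/
theorem sum_states :
    ∑ S ∈ s.St, (1 : ℝ) / 2 ^ (s.Γ.card + s.f S) + ∑ S ∈ s.Se, (1 : ℝ) / 2 ^ (s.T0.card + s.z S) =
      ∑ D ∈ s.BB, (s.c : ℝ) / 2 ^ (s.P + num s.B D) := by
  have h1 := core_dn (H := s.F ∪ s.G) (Γ := s.Γ) s.FG_outside
  have h2 := core_diff (F := s.F) (K := s.K) (T0 := s.T0) (subset_refl _)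
    (fun e he => s.F_outside he) s.hUp
  have h3 := s.heq
  have h4 : ∑ S ∈ s.St, (1 : ℝ) / 2 ^ (s.Γ.card + s.f S) = dn (s.F ∪ s.G) := h1.symm
  have h5 : ∑ S ∈ s.Se, (1 : ℝ) / 2 ^ (s.T0.card + s.z S) = dn s.F - dn s.K := h2.symm
  rw [h4, h5]
  linarith

end Sys

/-- The assignment of blocks exists: `gl` applied to the index set `St ⊕ Se` (use `Sum` or
`Finset.disjSum`), exponents `|Γ| + f S`, `|T0| + z S`, at most `2^|Γ| + 2^|T0| ≤ N` of them, gaps of
the blocks at least `B > P + N + 1` by `num_gap`. -/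
theorem exists_sysD (s : Sys) : ∃ t : SysD, t.toSys = s := by
  classical
  have hTh10 : 10 ≤ s.Th := by
    have := s.hTh
    omega
  have hPN : s.P + s.N + 10 ≤ s.Th := by
    have := s.hTh
    omega
  have hB1 : s.Th ≤ s.B := (Nat.le_self_pow (by norm_num) s.Th).trans s.hB
  obtain ⟨f, hf1, hf2⟩ := gl (ι := Finset ℕ ⊕ Finset ℕ) (s.St.disjSum s.Se)
    (Sum.elim (fun S => s.Γ.card + s.f S) (fun S => s.T0.card + s.z S)) s.N s.P s.c s.BB
    (fun D => num s.B D) ⟨∅, s.hBB0⟩ (by
      rw [card_disjSum]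
      refine le_trans (Nat.add_le_add ?_ ?_) s.hN
      · refine (card_filter_le _ _).trans ?_
        rw [card_powerset]
      · refine (card_filter_le _ _).trans ?_
        rw [card_powerset]
        rfl) s.hc s.hcP (by
      intro D _ D' _ hne
      rcases num_gap (B := s.B) (by omega) hne with h | h
      · left
        show num s.B D + (s.P + s.N + 1) < num s.B D'
        omega
      · right
        show num s.B D' + (s.P + s.N + 1) < num s.B D
        omega) (by
      rw [sum_disjSum]
      simp only [Sum.elim_inl, Sum.elim_inr]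
      exact s.sum_states)
  refine ⟨{ toSys := s, Df := fun S => f (Sum.inl S), Ef := fun S => f (Sum.inr S),
            hD := ?_, hE := ?_, hsum := ?_ }, rfl⟩
  · intro S hS
    have h := hf1 (Sum.inl S) (inl_mem_disjSum.2 hS)
    exact h
  · intro S hS
    have h := hf1 (Sum.inr S) (inr_mem_disjSum.2 hS)
    exact h
  · intro D hD
    have h := hf2 D hD
    rw [sum_filter, sum_disjSum] at h
    simp only [Sum.elim_inl, Sum.elim_inr] at h
    rw [sum_filter, sum_filter]
    exact h

end Pool.Agent.IDX
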