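import Pool.Agent.IDX.M0

/-! Row IDX-M1a: elementary facts on a system -/

open Finset

namespace Pool.Agent.IDX

namespace Sys

variable (s : Sys)

theorem T0_subset : s.T0 ⊆ s.Γ := by
  exact s.hΓK

theorem M1a_exists_sub {e : Finset ℕ} (he : e ∈ s.F) : ∃ f ∈ s.K, f ⊆ e ∧ f ⊆ s.T0 ∧ 2 ≤ f.card := by
  obtain ⟨f, hf, hfe⟩ := s.hUp e he
  refine ⟨f, hf, hfe, subset_vx hf, ?_⟩
  rcases s.hK f hf with h | h <;> omega

/-- An edge of `F` is an edge of `K` or a 2-edge `Q` of `K` plus one vertex outside... in any case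
it has at most one vertex outside `T0`. -/
theorem F_outside {e : Finset ℕ} (he : e ∈ s.F) : (e \ s.T0).card ≤ 1 := by
  obtain ⟨f, hf, hfe, hfT, hfc⟩ := s.M1a_exists_sub he
  have h1 : e \ s.T0 ⊆ e \ f := sdiff_subset_sdiff (Subset.refl e) hfT
  have h2 := card_le_card h1
  rw [card_sdiff_of_subset hfe, s.hF e he] at h2
  omega

/-- An edge of `F` with a vertex outside `T0` is `insert w Q` with `Q ∈ K2`. -/
theorem F_germ {e : Finset ℕ} (he : e ∈ s.F) {w : ℕ} (hw : w ∈ e) (hw0 : w ∉ s.T0) :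
    e.erase w ∈ s.K2 := by
  obtain ⟨f, hf, hfe, hfT, hfc⟩ := s.M1a_exists_sub he
  have hwf : w ∉ f := fun h => hw0 (hfT h)
  have h1 : f ⊆ e.erase w := subset_erase.2 ⟨hfe, hwf⟩
  have h2 : (e.erase w).card = 2 := by
    rw [card_erase_of_mem hw, s.hF e he]
  have h3 : f = e.erase w := eq_of_subset_of_card_le h1 (by omega)
  unfold K2
  rw [mem_filter]
  exact ⟨h3 ▸ hf, h2⟩

theorem FG_outside : ∀ e ∈ s.F ∪ s.G, (e \ s.Γ).card ≤ 1 := by
  intro e he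
  rcases mem_union.1 he with h | h
  · exact (card_le_card (sdiff_subset_sdiff (Subset.refl e) s.hΓK)).trans (s.F_outside h)
  · exact s.hΓG e h

theorem FG_card {e : Finset ℕ} (he : e ∈ s.F ∪ s.G) : 2 ≤ e.card ∧ e.card ≤ 3 := by
  rcases mem_union.1 he with h | h
  · have := s.hF e h
    omega
  · have := s.hG e h
    omega

theorem mem_St {S : Finset ℕ} : S ∈ s.St ↔ S ⊆ s.Γ ∧ Ind (s.F ∪ s.G) S := by
  unfold St
  rw [mem_filter, mem_powerset]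

theorem mem_Se {S : Finset ℕ} : S ∈ s.Se ↔ S ⊆ s.T0 ∧ Ind s.F S ∧ ¬ Ind s.K S := by
  unfold Se
  rw [mem_filter, mem_powerset]

theorem St_down {S S' : Finset ℕ} (h : S ∈ s.St) (h' : S' ⊆ S) : S' ∈ s.St := by
  rw [mem_St] at h ⊢
  exact ⟨h'.trans h.1, fun e he hsub => h.2 e he (hsub.trans h')⟩

theorem empty_mem_St : ∅ ∈ s.St := by
  rw [mem_St]
  refine ⟨empty_subset _, fun e he hsub => ?_⟩
  have h1 := (s.FG_card he).1
  have h2 := card_le_card hsub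
  rw [card_empty] at h2
  omega

theorem singleton_mem_St {v : ℕ} (hv : v ∈ s.Γ) : {v} ∈ s.St := by
  rw [mem_St]
  refine ⟨singleton_subset_iff.2 hv, fun e he hsub => ?_⟩
  have h1 := (s.FG_card he).1
  have h2 := card_le_card hsub
  rw [card_singleton] at h2
  omega

theorem mem_K2 {Q : Finset ℕ} (hQ : Q ∈ s.K2) : Q ∈ s.K ∧ Q.card = 2 ∧ Q ⊆ s.T0 := by
  unfold K2 at hQ
  rw [mem_filter] at hQ
  exact ⟨hQ.1, hQ.2, subset_vx hQ.1⟩

theorem K2_mem_Se {Q : Finset ℕ} (hQ : Q ∈ s.K2) : Q ∈ s.Se := by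
  obtain ⟨h1, h2, h3⟩ := s.mem_K2 hQ
  rw [mem_Se]
  refine ⟨h3, fun e he hsub => ?_, fun h => h Q h1 (Subset.refl Q)⟩
  have h4 := s.hF e he
  have h5 := card_le_card hsub
  omega

theorem K2_card : s.K2.card ≤ s.C ^ 2 := by
  have h1 : s.K2 ⊆ powersetCard 2 s.T0 := by
    intro Q hQ
    obtain ⟨_, h2, h3⟩ := s.mem_K2 hQ
    exact mem_powersetCard.2 ⟨h3, h2⟩
  have h2 := card_le_card h1
  rw [card_powersetCard] at h2
  have h3 : s.T0.card.choose 2 ≤ s.T0.card ^ 2 := Nat.choose_le_pow _ _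
  exact h2.trans (h3.trans (Nat.pow_le_pow_left s.hC 2))

theorem mem_No {v w : ℕ} : w ∈ s.No v ↔ w ∉ s.Γ ∧ {v, w} ∈ s.G := by
  unfold No
  rw [mem_filter, mem_sdiff]
  constructor
  · rintro ⟨⟨_, h1⟩, h2⟩
    exact ⟨h1, h2⟩
  · rintro ⟨h1, h2⟩
    exact ⟨⟨subset_vx h2 (mem_insert_of_mem (mem_singleton_self w)), h1⟩, h2⟩

theorem mem_Z {Q : Finset ℕ} {w : ℕ} : w ∈ s.Z Q ↔ w ∉ s.T0 ∧ insert w Q ∈ s.F := by
  unfold Z
  rw [mem_filter, mem_sdiff]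
  constructor
  · rintro ⟨⟨_, h1⟩, h2⟩
    exact ⟨h1, h2⟩
  · rintro ⟨h1, h2⟩
    exact ⟨⟨subset_vx h2 (mem_insert_self w Q), h1⟩, h2⟩

end Sys

end Pool.Agent.IDX
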