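import Pool.Agent.IDX.M2a

/-! Row IDX-M2b: levels of states -/

open Finset

namespace Pool.Agent.IDX

namespace SysD

variable (s : SysD)

theorem M2b_T0_card : s.T0.card + s.P + s.N + s.Γ.card + 10 ≤ s.Th := by
  have h1 := s.hTh
  have h2 : s.T0.card ≤ s.C := s.hC
  omega

/-- `B` dominates: `Th^8 ≤ B`. -/
theorem M2b_big {a b : ℕ} (h : s.B ^ a ≤ 2 * s.B ^ b + s.Th) (hab : b + 1 ≤ a) :
    False := by
  have hT := s.Th_ge
  have h1 : 1 ≤ s.B ^ b := Nat.one_le_pow _ _ (by have := s.B_ge; omega)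
  have h2 : s.B ^ (b + 1) ≤ s.B ^ a := Nat.pow_le_pow_right (by have := s.B_ge; omega) hab
  have h3 : s.Th ≤ s.Th * s.B ^ b := Nat.le_mul_of_pos_right _ h1
  have h4 : s.B ^ (b + 1) ≤ (s.Th + 2) * s.B ^ b := by
    calc s.B ^ (b + 1) ≤ 2 * s.B ^ b + s.Th * s.B ^ b := by omega
      _ = (s.Th + 2) * s.B ^ b := by ring
  rw [pow_succ, mul_comm] at h4
  have h5 : s.B ≤ s.Th + 2 := Nat.le_of_mul_le_mul_right h4 h1
  have h6 : s.Th ^ 2 ≤ s.B := (Nat.pow_le_pow_right (by omega) (by norm_num)).trans s.hB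
  nlinarith

/-- (W2), upper bounds: the level of an element of a state is at most the level of the state:
`|No v| = f {v} ≤ f S ≤ 2 B^{top} + K0`, while `B^{lev v} ≤ |No v| + |Γ|`. -/
theorem lev_le_top {S : Finset ℕ} (hS : S ∈ s.St) {v : ℕ} (hv : v ∈ S) :
    s.lev v ≤ top (s.Df S) := by
  by_contra hc
  have hvΓ : v ∈ s.Γ := (s.mem_St.1 hS).1 hv
  have h1 := s.No_ge hvΓ (by omega)
  have h2 := s.f_mono hS (singleton_subset_iff.2 hv)
  rw [s.f_singleton hvΓ] at h2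
  have h3 := (s.hD S hS).2.2
  have h4 := s.M2a_num_le (s.Df S)
  have h5 := s.M2b_T0_card
  exact s.M2b_big (a := s.lev v) (b := top (s.Df S)) (by omega) (by omega)

theorem levQ_le_top {S : Finset ℕ} (hS : S ∈ s.St) {Q : Finset ℕ} (hQ : Q ∈ s.K2) (h : Q ⊆ S) :
    s.levQ Q ≤ top (s.Df S) := by
  by_contra hc
  have h1 := s.Z_ge hQ (by omega)
  have h2 := (s.Zo_card Q).2
  have h3 := (s.hD S hS).2.2
  have h4 := s.M2a_num_le (s.Df S)
  have h5 := s.M2b_T0_card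
  have h6 : (s.Zo Q).card ≤ s.f S := by
    unfold Sys.f
    rw [s.kill_St hS]
    refine card_le_card ?_
    refine subset_trans ?_ subset_union_right
    exact subset_biUnion_of_mem s.Zo (mem_filter.2 ⟨hQ, h⟩)
  exact s.M2b_big (a := s.levQ Q) (b := top (s.Df S)) (by omega) (by omega)

theorem levQ_le_top_e {S : Finset ℕ} (hS : S ∈ s.Se) {Q : Finset ℕ} (hQ : Q ∈ s.K2) (h : Q ⊆ S) :
    s.levQ Q ≤ top (s.Ef S) := by
  by_contra hc
  have h1 := s.Z_ge hQ (by omega)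
  have h3 := (s.hE S hS).2.2
  have h4 := s.M2a_num_le (s.Ef S)
  have h5 := s.M2b_T0_card
  have h6 : (s.Z Q).card ≤ s.z S := by
    unfold Sys.z
    rw [s.kill_Se hS]
    refine card_le_card ?_
    exact subset_biUnion_of_mem s.Z (mem_filter.2 ⟨hQ, h⟩)
  exact s.M2b_big (a := s.levQ Q) (b := top (s.Ef S)) (by omega) (by omega)

/-- the sums of at most `|Γ| + C^2` small terms are small -/
theorem M2b_small {a k : ℕ} (ha : a ≤ s.Th)
    (h : s.B ^ (k + 1) ≤ s.Th + a * (2 * s.B ^ k + s.Th)) : False := by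
  have hT := s.Th_ge
  have h1 : 1 ≤ s.B ^ k := Nat.one_le_pow _ _ (by have := s.B_ge; omega)
  have h2 : s.Th ≤ s.Th * s.B ^ k := Nat.le_mul_of_pos_right _ h1
  have h3 : a * (2 * s.B ^ k + s.Th) ≤ s.Th * ((s.Th + 2) * s.B ^ k) := by
    refine Nat.mul_le_mul ha ?_
    calc 2 * s.B ^ k + s.Th ≤ 2 * s.B ^ k + s.Th * s.B ^ k := by omega
      _ = (s.Th + 2) * s.B ^ k := by ring
  have h4 : s.B ^ (k + 1) ≤ (s.Th + s.Th * (s.Th + 2)) * s.B ^ k := by
    calc s.B ^ (k + 1) ≤ s.Th * s.B ^ k + s.Th * ((s.Th + 2) * s.B ^ k) := by omega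
      _ = (s.Th + s.Th * (s.Th + 2)) * s.B ^ k := by ring
  rw [pow_succ, mul_comm] at h4
  have h5 : s.B ≤ s.Th + s.Th * (s.Th + 2) := Nat.le_of_mul_le_mul_right h4 h1
  have h6 : s.Th ^ 3 ≤ s.B := (Nat.pow_le_pow_right (by omega) (by norm_num)).trans s.hB
  nlinarith [Nat.mul_le_mul hT hT, Nat.mul_le_mul (Nat.mul_le_mul hT hT) hT,
    Nat.mul_le_mul hT (le_refl (s.Th * s.Th))]

/-- (W2), the level of a state is attained: if all elements had smaller level then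
`B^{k+1} ≤ |Γ| + f S ≤ |Γ| + (|Γ| + |K2|)(2 B^k + Th)`, impossible. -/
theorem top_attained {S : Finset ℕ} (hS : S ∈ s.St) {k : ℕ} (h : top (s.Df S) = k + 1) :
    (∃ v ∈ S, s.lev v = k + 1) ∨ ∃ Q ∈ s.K2, Q ⊆ S ∧ s.levQ Q = k + 1 := by
  by_contra hc
  push Not at hc
  have hSΓ := (s.mem_St.1 hS).1
  have hB0 : 0 < s.B := by have := s.B_ge; omega
  have h1 : s.B ^ (k + 1) ≤ s.Γ.card + s.f S := by
    have h2 := s.M2a_top_le_num (s.Df S) (by omega)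
    rw [h] at h2
    exact h2.trans (s.hD S hS).2.1
  have h2 : ∀ v ∈ S, (s.No v).card ≤ 2 * s.B ^ k + s.Th := by
    intro v hv
    have h3 := s.lev_le_top hS hv
    have h4 := hc.1 v hv
    have h5 := s.No_le (hSΓ hv)
    have h6 : s.B ^ s.lev v ≤ s.B ^ k := Nat.pow_le_pow_right hB0 (by omega)
    omega
  have h3 : ∀ Q ∈ s.K2.filter (fun Q => Q ⊆ S), (s.Zo Q).card ≤ 2 * s.B ^ k + s.Th := by
    intro Q hQ
    obtain ⟨hQ1, hQ2⟩ := mem_filter.1 hQ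
    have h3 := s.levQ_le_top hS hQ1 hQ2
    have h4 := hc.2 Q hQ1 hQ2
    have h5 := s.Z_le hQ1
    have h6 : s.B ^ s.levQ Q ≤ s.B ^ k := Nat.pow_le_pow_right hB0 (by omega)
    have h7 := (s.Zo_card Q).1
    omega
  have h4 := s.f_le hS
  have h5 : ∑ v ∈ S, (s.No v).card ≤ S.card * (2 * s.B ^ k + s.Th) := by
    have := sum_le_card_nsmul S (fun v => (s.No v).card) _ h2
    simpa using this
  have h6 : ∑ Q ∈ s.K2.filter (fun Q => Q ⊆ S), (s.Zo Q).card ≤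
      (s.K2.filter (fun Q => Q ⊆ S)).card * (2 * s.B ^ k + s.Th) := by
    have := sum_le_card_nsmul (s.K2.filter (fun Q => Q ⊆ S)) (fun Q => (s.Zo Q).card) _ h3
    simpa using this
  have h7 : S.card ≤ s.Γ.card := card_le_card hSΓ
  have h8 : (s.K2.filter (fun Q => Q ⊆ S)).card ≤ s.C ^ 2 :=
    (card_filter_le _ _).trans s.K2_card
  have h9 := s.hTh
  refine s.M2b_small (a := S.card + (s.K2.filter (fun Q => Q ⊆ S)).card) (k := k) (by omega) ?_
  rw [add_mul]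
  omega

theorem top_attained_e {S : Finset ℕ} (hS : S ∈ s.Se) {k : ℕ} (h : top (s.Ef S) = k + 1) :
    ∃ Q ∈ s.K2, Q ⊆ S ∧ s.levQ Q = k + 1 := by
  by_contra hc
  push Not at hc
  have hB0 : 0 < s.B := by have := s.B_ge; omega
  have h1 : s.B ^ (k + 1) ≤ s.T0.card + s.z S := by
    have h2 := s.M2a_top_le_num (s.Ef S) (by omega)
    rw [h] at h2
    exact h2.trans (s.hE S hS).2.1
  have h3 : ∀ Q ∈ s.K2.filter (fun Q => Q ⊆ S), (s.Z Q).card ≤ 2 * s.B ^ k + s.Th := by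
    intro Q hQ
    obtain ⟨hQ1, hQ2⟩ := mem_filter.1 hQ
    have h3 := s.levQ_le_top_e hS hQ1 hQ2
    have h4 := hc Q hQ1 hQ2
    have h5 := s.Z_le hQ1
    have h6 : s.B ^ s.levQ Q ≤ s.B ^ k := Nat.pow_le_pow_right hB0 (by omega)
    omega
  have h4 : s.z S ≤ ∑ Q ∈ s.K2.filter (fun Q => Q ⊆ S), (s.Z Q).card := by
    unfold Sys.z
    rw [s.kill_Se hS]
    exact card_biUnion_le
  have h6 : ∑ Q ∈ s.K2.filter (fun Q => Q ⊆ S), (s.Z Q).card ≤
      (s.K2.filter (fun Q => Q ⊆ S)).card * (2 * s.B ^ k + s.Th) := by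
    have := sum_le_card_nsmul (s.K2.filter (fun Q => Q ⊆ S)) (fun Q => (s.Z Q).card) _ h3
    simpa using this
  have h8 : (s.K2.filter (fun Q => Q ⊆ S)).card ≤ s.C ^ 2 :=
    (card_filter_le _ _).trans s.K2_card
  have h9 := s.hTh
  have h10 := s.M2b_T0_card
  refine s.M2b_small (a := (s.K2.filter (fun Q => Q ⊆ S)).card) (k := k) (by omega) ?_
  omega

/-- (W3) every level is attained. -/
theorem level_attained {k : ℕ} (hk : k < s.n) :
    (∃ v ∈ s.Γ, s.lev v = k + 1) ∨ ∃ Q ∈ s.K2, s.levQ Q = k + 1 := by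
  rcases s.block_attained (s.hBB1 k hk) with ⟨S, hS, h⟩ | ⟨S, hS, h⟩
  · have h1 : top (s.Df S) = k + 1 := by rw [h, top_singleton]
    rcases s.top_attained hS h1 with ⟨v, hv, h2⟩ | ⟨Q, hQ, _, h2⟩
    · exact Or.inl ⟨v, (s.mem_St.1 hS).1 hv, h2⟩
    · exact Or.inr ⟨Q, hQ, h2⟩
  · have h1 : top (s.Ef S) = k + 1 := by rw [h, top_singleton]
    obtain ⟨Q, hQ, _, h2⟩ := s.top_attained_e hS h1
    exact Or.inr ⟨Q, hQ, h2⟩

end SysD

end Pool.Agent.IDX
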