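import Pool.Agent.IDX.M1

/-! Row IDX-M2a: sizes and levels -/

open Finset

namespace Pool.Agent.IDX

namespace SysD

variable (s : SysD)

/-- Arithmetic helper: `10 ≤ Th`, `Th ≤ B`, and `Th^8 ≤ B`. -/
theorem Th_ge : 10 ≤ s.Th := by
  have := s.hTh
  omega

theorem B_ge : 10 ≤ s.B :=
  (s.Th_ge).trans ((Nat.le_self_pow (by norm_num) s.Th).trans s.hB)

theorem M2a_top_le_num (D : Finset ℕ) (h : 1 ≤ top D) : s.B ^ top D ≤ num s.B D := by
  refine pow_top_le_num ?_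
  rw [nonempty_iff_ne_empty]
  intro h0
  rw [top_eq_zero.2 h0] at h
  omega

theorem M2a_num_le (D : Finset ℕ) : num s.B D + 2 ≤ 2 * s.B ^ top D :=
  num_le (by have := s.B_ge; omega) (top_le_iff.1 le_rfl)

/-- (W1) -/
theorem No_le {v : ℕ} (hv : v ∈ s.Γ) : (s.No v).card ≤ 2 * s.B ^ s.lev v + s.Th := by
  have h1 := (s.hD {v} (s.singleton_mem_St hv)).2.2
  rw [s.f_singleton hv] at h1
  have h2 : num s.B (s.Df {v}) + 2 ≤ 2 * s.B ^ s.lev v := s.M2a_num_le (s.Df {v})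
  have h3 := s.hTh
  omega

theorem No_ge {v : ℕ} (hv : v ∈ s.Γ) (h : 1 ≤ s.lev v) :
    s.B ^ s.lev v ≤ (s.No v).card + s.Γ.card := by
  have h1 := (s.hD {v} (s.singleton_mem_St hv)).2.1
  rw [s.f_singleton hv] at h1
  have h2 : s.B ^ s.lev v ≤ num s.B (s.Df {v}) := s.M2a_top_le_num (s.Df {v}) h
  omega

/-- A centre whose block is `{i}` has size `B^{i+1}` up to `P+N`. -/
theorem No_single {v i : ℕ} (hv : v ∈ s.Γ) (h : s.Df {v} = {i}) :
    s.B ^ (i + 1) ≤ s.Γ.card + (s.No v).card ∧ s.Γ.card + (s.No v).card ≤ s.B ^ (i + 1) + (s.P + s.N) := by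
  have h1 := (s.hD {v} (s.singleton_mem_St hv)).2
  rw [s.f_singleton hv, h, num_singleton] at h1
  exact h1

theorem Z_le {Q : Finset ℕ} (hQ : Q ∈ s.K2) : (s.Z Q).card ≤ 2 * s.B ^ s.levQ Q + s.Th := by
  have h1 := (s.hE Q (s.K2_mem_Se hQ)).2.2
  rw [s.z_K2 hQ] at h1
  have h2 : num s.B (s.Ef Q) + 2 ≤ 2 * s.B ^ s.levQ Q := s.M2a_num_le (s.Ef Q)
  have h3 := s.hTh
  omega

theorem Z_ge {Q : Finset ℕ} (hQ : Q ∈ s.K2) (h : 1 ≤ s.levQ Q) :
    s.B ^ s.levQ Q ≤ (s.Z Q).card + s.T0.card := by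
  have h1 := (s.hE Q (s.K2_mem_Se hQ)).2.1
  rw [s.z_K2 hQ] at h1
  have h2 : s.B ^ s.levQ Q ≤ num s.B (s.Ef Q) := s.M2a_top_le_num (s.Ef Q) h
  omega

theorem lev_le {v : ℕ} (hv : v ∈ s.Γ) : s.lev v ≤ s.n :=
  top_le_iff.2 (s.hBB _ (s.hD {v} (s.singleton_mem_St hv)).1)

theorem levQ_le {Q : Finset ℕ} (hQ : Q ∈ s.K2) : s.levQ Q ≤ s.n :=
  top_le_iff.2 (s.hBB _ (s.hE Q (s.K2_mem_Se hQ)).1)

/-- For every block `D` there is a state or an `Se`-state with this block. -/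
theorem block_attained {D : Finset ℕ} (hD : D ∈ s.BB) :
    (∃ S ∈ s.St, s.Df S = D) ∨ ∃ S ∈ s.Se, s.Ef S = D := by
  by_contra hc
  push Not at hc
  have h1 := s.hsum D hD
  rw [filter_false_of_mem (fun S hS => hc.1 S hS), filter_false_of_mem (fun S hS => hc.2 S hS),
    sum_empty, sum_empty, add_zero] at h1
  have h2 : (0 : ℝ) < (s.c : ℝ) / 2 ^ (s.P + num s.B D) := by
    have h3 : (0 : ℝ) < s.c := by exact_mod_cast s.hc
    positivity
  linarith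

/-- The block is determined by the exponent up to a small error: if `|Γ| + f S` is within `e` of
`x` ... -/
theorem Df_close {S : Finset ℕ} (hS : S ∈ s.St) :
    num s.B (s.Df S) ≤ s.f S + s.Th ∧ s.f S ≤ num s.B (s.Df S) + s.Th := by
  have h1 := (s.hD S hS).2
  have h3 := s.hTh
  omega

end SysD

end Pool.Agent.IDX
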