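import Pool.Agent.IDX.M2

/-! Row IDX-M3: the number of centres. -/

open Finset

namespace Pool.Agent.IDX

namespace SysD

variable (s : SysD)

theorem M3_Th_le_B : s.Th ≤ s.B := by
  have h1 := s.hB
  have h2 := s.Th_ge
  calc s.Th = s.Th ^ 1 := (pow_one _).symm
    _ ≤ s.Th ^ 8 := Nat.pow_le_pow_right (by omega) (by norm_num)
    _ ≤ s.B := h1

/-- States meeting `J`, or containing a germ of positive level, have `f S ≥ B - |Γ|`. -/
theorem f_ge_of_level {S : Finset ℕ} (hS : S ∈ s.St) (h : 1 ≤ top (s.Df S)) :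
    s.B ≤ s.Γ.card + s.f S := by
  have h1 := (s.hD S hS).2.1
  have hne : (s.Df S).Nonempty := by
    rw [Finset.nonempty_iff_ne_empty]
    intro h0
    rw [h0, top_empty] at h
    omega
  have h2 := pow_top_le_num (B := s.B) hne
  have h3 : s.B ≤ s.B ^ top (s.Df S) := by
    calc s.B = s.B ^ 1 := (pow_one _).symm
      _ ≤ s.B ^ top (s.Df S) := Nat.pow_le_pow_right (by have := s.B_ge; omega) h
  omega

theorem sum_high_le (p : Finset ℕ → Prop) [DecidablePred p]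
    (hp : ∀ S ∈ s.St, p S → 1 ≤ top (s.Df S)) :
    ∑ S ∈ s.St.filter p, (1 : ℝ) / 2 ^ (s.Γ.card + s.f S) ≤ 1 / 2 ^ (s.q + 1) := by
  have hcard : (s.St.filter p).card ≤ 2 ^ s.Γ.card := by
    refine (Finset.card_filter_le _ _).trans ?_
    unfold Sys.St
    refine (Finset.card_filter_le _ _).trans ?_
    rw [Finset.card_powerset]
  have hterm : ∀ S ∈ s.St.filter p, (1 : ℝ) / 2 ^ (s.Γ.card + s.f S) ≤ 1 / 2 ^ s.B := by
    intro S hS
    rw [Finset.mem_filter] at hS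
    have h := s.f_ge_of_level hS.1 (hp S hS.1 hS.2)
    exact one_div_le_one_div_of_le (by positivity) (pow_le_pow_right₀ (by norm_num) h)
  refine (Finset.sum_le_card_nsmul _ _ _ hterm).trans ?_
  rw [nsmul_eq_mul]
  have hc' : (((s.St.filter p).card : ℕ) : ℝ) ≤ 2 ^ s.Γ.card := by exact_mod_cast hcard
  have hle : s.Γ.card + (s.q + 1) ≤ s.B := by
    have h1 := s.hTh
    have h2 := s.M3_Th_le_B
    omega
  calc (((s.St.filter p).card : ℕ) : ℝ) * (1 / 2 ^ s.B) ≤ 2 ^ s.Γ.card * (1 / 2 ^ s.B) := by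
        gcongr
    _ ≤ 2 ^ s.Γ.card * (1 / 2 ^ (s.Γ.card + (s.q + 1))) := by
        gcongr
        norm_num
    _ = 1 / 2 ^ (s.q + 1) := by
        rw [pow_add (2 : ℝ) s.Γ.card]
        have h0 : (2 : ℝ) ^ s.Γ.card ≠ 0 := by positivity
        have h1 : (2 : ℝ) ^ (s.q + 1) ≠ 0 := by positivity
        field_simp

theorem M3_meet {S : Finset ℕ} (hS : S ∈ s.St) (h : S ∩ s.J ≠ ∅) : 1 ≤ top (s.Df S) := by
  obtain ⟨v, hv⟩ := Finset.nonempty_iff_ne_empty.2 h
  rw [Finset.mem_inter] at hv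
  have h1 : 1 ≤ s.lev v := by
    have := hv.2
    unfold SysD.J at this
    exact (Finset.mem_filter.1 this).2
  exact h1.trans (s.lev_le_top hS hv.1)

theorem M3_J_subset : s.J ⊆ s.Γ := by
  unfold SysD.J
  exact Finset.filter_subset _ _

/-- (W4) `dn (F ∪ G) ≤ 2^{-|J|} + 2^{|Γ| - B}` gives `|J| ≤ q + 1`. -/
theorem J_card_le : s.J.card ≤ s.q + 1 := by
  have hcore : dn (s.F ∪ s.G) = ∑ S ∈ s.St, (1 : ℝ) / 2 ^ (s.Γ.card + s.f S) :=
    core_dn s.toSys.FG_outside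
  have hsplit := Finset.sum_filter_add_sum_filter_not s.St (fun S => S ∩ s.J ≠ ∅)
    (fun S => (1 : ℝ) / 2 ^ (s.Γ.card + s.f S))
  have h1 := s.sum_high_le (fun S => S ∩ s.J ≠ ∅) (fun S hS h => s.M3_meet hS h)
  have h2 : ∑ S ∈ s.St.filter (fun S => ¬ S ∩ s.J ≠ ∅), (1 : ℝ) / 2 ^ (s.Γ.card + s.f S) ≤
      1 / 2 ^ s.J.card := by
    have hterm : ∀ S ∈ s.St.filter (fun S => ¬ S ∩ s.J ≠ ∅),
        (1 : ℝ) / 2 ^ (s.Γ.card + s.f S) ≤ 1 / 2 ^ s.Γ.card := by
      intro S _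
      exact one_div_le_one_div_of_le (by positivity)
        (pow_le_pow_right₀ (by norm_num) (Nat.le_add_right _ _))
    have hsub : s.St.filter (fun S => ¬ S ∩ s.J ≠ ∅) ⊆ (s.Γ \ s.J).powerset := by
      intro S hS
      rw [Finset.mem_filter, not_not] at hS
      rw [Finset.mem_powerset, Finset.subset_sdiff]
      refine ⟨(s.toSys.mem_St.1 hS.1).1, ?_⟩
      rw [Finset.disjoint_iff_inter_eq_empty]
      exact hS.2
    have hcard := Finset.card_le_card hsub
    rw [Finset.card_powerset, Finset.card_sdiff_of_subset s.M3_J_subset] at hcard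
    refine (Finset.sum_le_card_nsmul _ _ _ hterm).trans ?_
    rw [nsmul_eq_mul]
    have hc' : (((s.St.filter (fun S => ¬ S ∩ s.J ≠ ∅)).card : ℕ) : ℝ) ≤
        2 ^ (s.Γ.card - s.J.card) := by exact_mod_cast hcard
    have hJΓ := Finset.card_le_card s.M3_J_subset
    calc (((s.St.filter (fun S => ¬ S ∩ s.J ≠ ∅)).card : ℕ) : ℝ) * (1 / 2 ^ s.Γ.card)
        ≤ 2 ^ (s.Γ.card - s.J.card) * (1 / 2 ^ s.Γ.card) := by gcongr
      _ = 1 / 2 ^ s.J.card := by
        obtain ⟨d, hd⟩ := Nat.exists_eq_add_of_le hJΓ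
        rw [hd, Nat.add_sub_cancel_left, pow_add]
        have h0 : (2 : ℝ) ^ s.J.card ≠ 0 := by positivity
        have h1 : (2 : ℝ) ^ d ≠ 0 := by positivity
        field_simp
  have hq := s.hq
  have h3 : (1 : ℝ) / 2 ^ s.q ≤ 1 / 2 ^ s.J.card + 1 / 2 ^ (s.q + 1) := by
    rw [hcore, ← hsplit] at hq
    linarith
  have h4 : (1 : ℝ) / 2 ^ s.q = 1 / 2 ^ (s.q + 1) + 1 / 2 ^ (s.q + 1) := by
    rw [pow_succ]
    have h0 : (2 : ℝ) ^ s.q ≠ 0 := by positivity
    field_simp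
    norm_num
  have h5 : (1 : ℝ) / 2 ^ (s.q + 1) ≤ 1 / 2 ^ s.J.card := by linarith
  by_contra hcon
  push Not at hcon
  have h6 : (1 : ℝ) / 2 ^ s.J.card < 1 / 2 ^ (s.q + 1) :=
    one_div_lt_one_div_of_lt (by positivity) (pow_lt_pow_right₀ (by norm_num) hcon)
  linarith

/-- If `K` has no 2-edges then the block `∅` is the event that `J` is off. -/
theorem block_empty (h : s.K2 = ∅) (hSe : s.Se = ∅) :
    dn (del (s.F ∪ s.G) s.J) / 2 ^ s.J.card = (s.c : ℝ) / 2 ^ s.P := by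
  classical
  have hsum := s.hsum ∅ s.hBB0
  rw [hSe, Finset.filter_empty, Finset.sum_empty, add_zero, num_empty, add_zero] at hsum
  rw [← hsum]
  have hU : vx (s.F ∪ s.G) ⊆ vx (s.F ∪ s.G) ∪ s.Γ := Finset.subset_union_left
  have hΓU : s.Γ ⊆ vx (s.F ∪ s.G) ∪ s.Γ := Finset.subset_union_right
  rw [← pr_off hU (s.M3_J_subset.trans hΓU)]
  have hcore := core s.toSys.FG_outside hU hΓU (fun S => S ∩ s.J = ∅)
  have h1 : pr (vx (s.F ∪ s.G) ∪ s.Γ) (fun R => Ind (s.F ∪ s.G) R ∧ R ∩ s.J = ∅) =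
      pr (vx (s.F ∪ s.G) ∪ s.Γ) (fun R => Ind (s.F ∪ s.G) R ∧ (R ∩ s.Γ) ∩ s.J = ∅) := by
    apply pr_congr
    intro R _
    rw [Finset.inter_assoc, Finset.inter_eq_right.2 s.M3_J_subset]
  rw [h1, hcore]
  apply Finset.sum_congr
  · ext S
    constructor
    · intro hS0
      have hS := hS0
      simp only [Finset.mem_filter, Finset.mem_powerset] at hS
      have hSt : S ∈ s.St := s.toSys.mem_St.2 ⟨hS.1, hS.2.1⟩
      rw [Finset.mem_filter]
      refine ⟨hSt, ?_⟩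
      rw [← top_eq_zero]
      by_contra hne
      obtain ⟨k, hk⟩ := Nat.exists_eq_succ_of_ne_zero hne
      rcases s.top_attained hSt hk with ⟨v, hv, hlev⟩ | ⟨Q, hQ, _⟩
      · have hvJ : v ∈ S ∩ s.J := by
          rw [Finset.mem_inter]
          refine ⟨hv, ?_⟩
          unfold SysD.J
          rw [Finset.mem_filter]
          exact ⟨hS.1 hv, by omega⟩
        rw [hS.2.2] at hvJ
        exact absurd hvJ (Finset.notMem_empty _)
      · rw [h] at hQ
        exact absurd hQ (Finset.notMem_empty _)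
    · intro hS
      rw [Finset.mem_filter] at hS
      have hm := s.toSys.mem_St.1 hS.1
      simp only [Finset.mem_filter, Finset.mem_powerset]
      refine ⟨hm.1, hm.2, ?_⟩
      by_contra hne
      have := s.M3_meet hS.1 hne
      rw [hS.2, top_empty] at this
      omega
  · intro S _
    rfl

/-- If `F = K` then `K2` and `Se` are empty. -/
theorem K2_empty_of_eq (h : s.F = s.K) : s.K2 = ∅ ∧ s.Se = ∅ := by
  constructor
  · unfold Sys.K2
    rw [Finset.filter_eq_empty_iff]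
    intro e he h2
    have h3 := s.hF e (by rw [h]; exact he)
    omega
  · rw [Finset.eq_empty_iff_forall_notMem]
    intro S hS
    have hm := s.toSys.mem_Se.1 hS
    apply hm.2.2
    rw [← h]
    exact hm.2.1

end SysD

end Pool.Agent.IDX
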