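import Pool.Agent.IDX.B6

/-! The finite hypergraphs of the target. -/

open Finset

namespace Pool.Agent.IDX

/-- The eight 3-edges `c·A ∪ d·B`, `c = 0`, `d = 1`, `A`, `B` perfect matchings on `2..9`, `10..17`. -/
def Rs : HG := {{0, 2, 3}, {0, 4, 5}, {0, 6, 7}, {0, 8, 9}, {1, 10, 11}, {1, 12, 13}, {1, 14, 15},
  {1, 16, 17}}

/-- The mixed hypergraph `R ∪ {cd}`. -/
def Fm : HG := insert {0, 1} Rs

/-- The vertices of `Fm` in a set of windows. -/
def vpart (r : ℕ) (T : Finset ℕ) : Finset ℕ := (range 18).filter (fun v => r + v ∈ T)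

open Classical in
/-- The blocks at the first scale: `r` free windows, then the windows `r + v`, `v < 18`. -/
noncomputable def Delta0 (r : ℕ) : Finset (Finset ℕ) :=
  (range (r + 18)).powerset.filter (fun T => Ind Fm (vpart r T))

/-- `φ` -/
noncomputable def phi (r B0 : ℕ) : ℝ :=
  ∑ T ∈ Delta0 r, (1 : ℝ) / 2 ^ (r + 18 + num B0 T)

/-- `Ψ` -/
noncomputable def Psi (r B0 m B : ℕ) : ℝ :=
  phi r B0 / 2 ^ m * ∏ i ∈ range m, (1 + (1 : ℝ) / 2 ^ (B ^ (i + 1)))

end Pool.Agent.IDX
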