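import Pool.Agent.IDX.N0
import Pool.Agent.IDX.B5

/-! Row IDX-N1a: dn Fm = 209/512 -/

open Finset

namespace Pool.Agent.IDX

/-- The density of a disjoint union is the product. -/
theorem N1a_dn_union {H K : HG} (h : Disjoint (vx H) (vx K)) :
    dn (H ∪ K) = dn H * dn K := by
  have hU : vx (H ∪ K) = vx H ∪ vx K := by
    ext v
    simp only [mem_vx, mem_union]
    constructor
    · rintro ⟨e, he | he, hv⟩
      · exact Or.inl ⟨e, he, hv⟩
      · exact Or.inr ⟨e, he, hv⟩
    · rintro (⟨e, he, hv⟩ | ⟨e, he, hv⟩)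
      · exact ⟨e, Or.inl he, hv⟩
      · exact ⟨e, Or.inr he, hv⟩
  have h1 : dn (H ∪ K) = pr (vx H ∪ vx K) (Ind (H ∪ K)) := by
    rw [← hU]
    rfl
  rw [h1, pr_congr (q := fun R => Ind H (R ∩ vx H) ∧ Ind K (R ∩ vx K)), pr_mul h]
  · rfl
  · intro R _
    constructor
    · intro hI
      refine ⟨fun e he hs => hI e (mem_union_left _ he) (hs.trans inter_subset_left),
        fun e he hs => hI e (mem_union_right _ he) (hs.trans inter_subset_left)⟩
    · rintro ⟨hH, hK⟩ e he hs
      rcases mem_union.mp he with he | he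
      · exact hH e he (subset_inter hs (subset_vx he))
      · exact hK e he (subset_inter hs (subset_vx he))

/-- The density of a single edge. -/
theorem N1a_dn_single (e : Finset ℕ) : dn {e} = 1 - 1 / 2 ^ e.card := by
  have hv : vx {e} = e := by simp [vx]
  have h1 : dn {e} = pr e (Ind {e}) := by
    unfold dn
    rw [hv]
  rw [h1, pr_congr (q := fun R => ¬ (R = e)), pr_not, pr_eq_singleton (Subset.refl e)]
  intro R hR
  constructor
  · intro hI heq
    exact hI e (mem_singleton_self e) (by rw [heq])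
  · intro hne f hf hs
    rw [mem_singleton] at hf
    subst hf
    exact hne (Subset.antisymm hR hs)

/-- The density of a matching with four 2-edges. -/
theorem N1a_dn_match (e1 e2 e3 e4 : Finset ℕ) (c1 : e1.card = 2) (c2 : e2.card = 2)
    (c3 : e3.card = 2) (c4 : e4.card = 2) (d12 : Disjoint e1 (e2 ∪ (e3 ∪ e4)))
    (d23 : Disjoint e2 (e3 ∪ e4)) (d34 : Disjoint e3 e4) :
    dn {e1, e2, e3, e4} = 81 / 256 := by
  have hs : ({e1, e2, e3, e4} : HG) = {e1} ∪ ({e2} ∪ ({e3} ∪ {e4})) := by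
    ext x
    simp only [mem_insert, mem_singleton, mem_union]
  have v1 : ∀ e : Finset ℕ, vx {e} = e := fun e => by simp [vx]
  have v0 : ∀ H K : HG, vx (H ∪ K) = vx H ∪ vx K := fun H K => by
    unfold vx
    rw [sup_union]
    rfl
  have v2 : vx ({e3} ∪ {e4} : HG) = e3 ∪ e4 := by rw [v0, v1, v1]
  have v3 : vx ({e2} ∪ ({e3} ∪ {e4}) : HG) = e2 ∪ (e3 ∪ e4) := by rw [v0, v1, v2]
  rw [hs, N1a_dn_union (by rw [v1, v3]; exact d12), N1a_dn_union (by rw [v1, v2]; exact d23),
    N1a_dn_union (by rw [v1, v1]; exact d34), N1a_dn_single, N1a_dn_single, N1a_dn_single,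
    N1a_dn_single, c1, c2, c3, c4]
  norm_num

/-- Condition on `{0,1}`: the links are: `∅` nothing; `{0}`: the matching `A` and the vertex `1`
off..., so the density is `(1 + α + α + 0)/4` with `α = (3/4)^4`. -/
theorem dn_Fm : dn Fm = 209 / 512 := by
  have l0 : lk Fm {0, 1} ∅ = ∅ := by decide
  have l1 : lk Fm {0, 1} {0} = {{2, 3}, {4, 5}, {6, 7}, {8, 9}} := by decide
  have l2 : lk Fm {0, 1} {1} = {{10, 11}, {12, 13}, {14, 15}, {16, 17}} := by decide
  have l3 : ∅ ∈ lk Fm {0, 1} {0, 1} := by decide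
  have hp : (({0, 1} : Finset ℕ)).powerset = {∅, {0}, {1}, {0, 1}} := by decide
  have d1 : dn (lk Fm {0, 1} {0}) = 81 / 256 := by
    rw [l1]
    apply N1a_dn_match <;> decide
  have d2 : dn (lk Fm {0, 1} {1}) = 81 / 256 := by
    rw [l2]
    apply N1a_dn_match <;> decide
  rw [dn_cond Fm {0, 1}, hp, sum_insert (by decide), sum_insert (by decide),
    sum_insert (by decide), sum_singleton, d1, d2, l0, dn_empty, dn_zero l3]
  norm_num

end Pool.Agent.IDX
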