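import Pool.Agent.IDX.N1
import Pool.Agent.IDX.B4

/-! Rows IDX-N2a .. N2f: (NR).  Notation: `F` finite 3-uniform, `Rs ⊆ F`, every edge of `F` inside
`range 18` is in `Rs` or contains `0` and `1`. -/

open Finset

namespace Pool.Agent.IDX

/-- The matching `A`. -/
def Am : HG := {{2, 3}, {4, 5}, {6, 7}, {8, 9}}
/-- The matching `B`. -/
def Bm : HG := {{10, 11}, {12, 13}, {14, 15}, {16, 17}}

/-- The extra edges. -/
def Ex (F : HG) : HG := F.filter (fun e => ¬ e ⊆ range 18 ∧ ¬ (0 ∈ e ∧ 1 ∈ e))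

/-- The third vertices of the edges containing `0` and `1`. -/
def Wd (F : HG) : Finset ℕ := (vx F).filter (fun w => w ≠ 0 ∧ w ≠ 1 ∧ {0, 1, w} ∈ F)

/-- The ambient set without `0`, `1`. -/
def UU (F : HG) : Finset ℕ := (vx F ∪ range 18) \ {0, 1}

/-- Four times the loss. -/
noncomputable def loss (F E : HG) : ℝ :=
  pr (UU F) (fun R => ∃ e ∈ E, e ⊆ R) +
  pr (UU F) (fun R => Ind Am R ∧ ∃ e ∈ E, e ⊆ insert 0 R) +
  pr (UU F) (fun R => Ind Bm R ∧ ∃ e ∈ E, e ⊆ insert 1 R)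

/-- Four times the gain. -/
noncomputable def gain (F E : HG) (W : Finset ℕ) : ℝ :=
  pr (UU F) (fun R => Ind Am R ∧ Ind Bm R ∧ Disjoint R W ∧ ∀ e ∈ E, ¬ e ⊆ insert 0 (insert 1 R))

theorem N2a_range_subset (F : HG) : range 18 \ {0, 1} ⊆ UU F :=
  sdiff_subset_sdiff subset_union_right (Subset.refl _)

theorem N2a_pr_Am {U : Finset ℕ} (h : range 18 \ {0, 1} ⊆ U) : pr U (Ind Am) = 81 / 256 := by
  have h1 : vx Am ⊆ range 18 \ {0, 1} := by decide
  rw [← dn_eq (h1.trans h)]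
  unfold Am
  apply N1a_dn_match <;> decide

theorem N2a_pr_Bm {U : Finset ℕ} (h : range 18 \ {0, 1} ⊆ U) : pr U (Ind Bm) = 81 / 256 := by
  have h1 : vx Bm ⊆ range 18 \ {0, 1} := by decide
  rw [← dn_eq (h1.trans h)]
  unfold Bm
  apply N1a_dn_match <;> decide

/-- Subtraction form. -/
theorem N2a_pr_and_not (U : Finset ℕ) (p q : Finset ℕ → Prop) :
    pr U (fun R => p R ∧ ¬ q R) = pr U p - pr U (fun R => p R ∧ q R) := by
  have h := pr_add_of_disjoint (U := U) (p := fun R => p R ∧ ¬ q R) (q := fun R => p R ∧ q R)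
    (fun R _ h => h.1.2 h.2.2)
  have h2 : pr U (fun R => (p R ∧ ¬ q R) ∨ (p R ∧ q R)) = pr U p := by
    apply pr_congr
    intro R _
    tauto
  linarith [h.symm.trans h2]

theorem N2a_notMem {F : HG} {R : Finset ℕ} (hR : R ⊆ UU F) : 0 ∉ R ∧ 1 ∉ R := by
  constructor <;> intro h <;> have := hR h <;> simp [UU] at this

/-- Link of nothing. -/
theorem N2a_ind_none {F : HG} (hR : Rs ⊆ F)
    (hV : ∀ e ∈ F, e ⊆ range 18 → e ∈ Rs ∨ (0 ∈ e ∧ 1 ∈ e)) {R : Finset ℕ} (hRU : R ⊆ UU F) :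
    Ind F R ↔ ¬ ∃ e ∈ Ex F, e ⊆ R := by
  obtain ⟨h0, h1⟩ := N2a_notMem hRU
  constructor
  · rintro h ⟨e, he, hs⟩
    exact h e (mem_filter.mp he).1 hs
  · intro h e he hs
    apply h
    refine ⟨e, mem_filter.mpr ⟨he, ?_, fun hh => h0 (hs hh.1)⟩, hs⟩
    intro h18
    rcases hV e he h18 with h2 | h2
    · have : ∀ e ∈ Rs, 0 ∈ e ∨ 1 ∈ e := by decide
      rcases this e h2 with h3 | h3
      · exact h0 (hs h3)
      · exact h1 (hs h3)
    · exact h0 (hs h2.1)

theorem N2a_ind_zero {F : HG} (hR : Rs ⊆ F)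
    (hV : ∀ e ∈ F, e ⊆ range 18 → e ∈ Rs ∨ (0 ∈ e ∧ 1 ∈ e)) {R : Finset ℕ} (hRU : R ⊆ UU F) :
    Ind F (insert 0 R) ↔ Ind Am R ∧ ¬ ∃ e ∈ Ex F, e ⊆ insert 0 R := by
  obtain ⟨h0, h1⟩ := N2a_notMem hRU
  have h1' : 1 ∉ insert 0 R := by simp [h1]
  constructor
  · intro h
    constructor
    · intro a ha hs
      have h2 : ∀ a ∈ Am, insert 0 a ∈ Rs := by decide
      exact h _ (hR (h2 a ha)) (insert_subset_insert 0 hs)
    · rintro ⟨e, he, hs⟩
      exact h e (mem_filter.mp he).1 hs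
  · rintro ⟨hA, h⟩ e he hs
    apply h
    refine ⟨e, mem_filter.mpr ⟨he, ?_, fun hh => h1' (hs hh.2)⟩, hs⟩
    intro h18
    rcases hV e he h18 with h2 | h2
    · have h3 : ∀ e ∈ Rs, 1 ∈ e ∨ e.erase 0 ∈ Am := by decide
      rcases h3 e h2 with h4 | h4
      · exact h1' (hs h4)
      · refine hA _ h4 ?_
        intro x hx
        have hx' := mem_erase.mp hx
        rcases mem_insert.mp (hs hx'.2) with h5 | h5
        · exact absurd h5 hx'.1
        · exact h5
    · exact h1' (hs h2.2)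

theorem N2a_ind_one {F : HG} (hR : Rs ⊆ F)
    (hV : ∀ e ∈ F, e ⊆ range 18 → e ∈ Rs ∨ (0 ∈ e ∧ 1 ∈ e)) {R : Finset ℕ} (hRU : R ⊆ UU F) :
    Ind F (insert 1 R) ↔ Ind Bm R ∧ ¬ ∃ e ∈ Ex F, e ⊆ insert 1 R := by
  obtain ⟨h0, h1⟩ := N2a_notMem hRU
  have h1' : 0 ∉ insert 1 R := by simp [h0]
  constructor
  · intro h
    constructor
    · intro a ha hs
      have h2 : ∀ a ∈ Bm, insert 1 a ∈ Rs := by decide
      exact h _ (hR (h2 a ha)) (insert_subset_insert 1 hs)
    · rintro ⟨e, he, hs⟩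
      exact h e (mem_filter.mp he).1 hs
  · rintro ⟨hA, h⟩ e he hs
    apply h
    refine ⟨e, mem_filter.mpr ⟨he, ?_, fun hh => h1' (hs hh.1)⟩, hs⟩
    intro h18
    rcases hV e he h18 with h2 | h2
    · have h3 : ∀ e ∈ Rs, 0 ∈ e ∨ e.erase 1 ∈ Bm := by decide
      rcases h3 e h2 with h4 | h4
      · exact h1' (hs h4)
      · refine hA _ h4 ?_
        intro x hx
        have hx' := mem_erase.mp hx
        rcases mem_insert.mp (hs hx'.2) with h5 | h5
        · exact absurd h5 hx'.1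
        · exact h5
    · exact h1' (hs h2.1)

theorem N2a_ind_both {F : HG} (h3 : ∀ e ∈ F, e.card = 3) (hR : Rs ⊆ F)
    (hV : ∀ e ∈ F, e ⊆ range 18 → e ∈ Rs ∨ (0 ∈ e ∧ 1 ∈ e)) {R : Finset ℕ} (hRU : R ⊆ UU F) :
    Ind F (insert 0 (insert 1 R)) ↔ Ind Am R ∧ Ind Bm R ∧ Disjoint R (Wd F) ∧
      ∀ e ∈ Ex F, ¬ e ⊆ insert 0 (insert 1 R) := by
  obtain ⟨h0, h1⟩ := N2a_notMem hRU
  constructor
  · intro h
    refine ⟨?_, ?_, ?_, ?_⟩
    · intro a ha hs
      have h2 : ∀ a ∈ Am, insert 0 a ∈ Rs := by decide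
      exact h _ (hR (h2 a ha)) (insert_subset_insert 0 (hs.trans (subset_insert 1 R)))
    · intro a ha hs
      have h2 : ∀ a ∈ Bm, insert 1 a ∈ Rs := by decide
      exact h _ (hR (h2 a ha)) ((insert_subset_insert 1 hs).trans (subset_insert 0 _))
    · rw [Finset.disjoint_left]
      intro w hw hw'
      obtain ⟨_, _, _, h5⟩ := mem_filter.mp hw'
      refine h _ h5 ?_
      intro x hx
      simp only [mem_insert, mem_singleton] at hx ⊢
      rcases hx with rfl | rfl | rfl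
      · exact Or.inl rfl
      · exact Or.inr (Or.inl rfl)
      · exact Or.inr (Or.inr hw)
    · intro e he hs
      exact h e (mem_filter.mp he).1 hs
  · rintro ⟨hA, hB, hW, h⟩ e he hs
    by_cases h01 : 0 ∈ e ∧ 1 ∈ e
    · -- e = {0, 1, w}
      have hc := h3 e he
      have hc2 : ((e.erase 0).erase 1).card = 1 := by
        rw [card_erase_of_mem (mem_erase.mpr ⟨by decide, h01.2⟩), card_erase_of_mem h01.1, hc]
      obtain ⟨w, hw⟩ := card_eq_one.mp hc2
      have hwe : w ∈ (e.erase 0).erase 1 := by rw [hw]; exact mem_singleton_self w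
      have hw1 : w ≠ 1 := (mem_erase.mp hwe).1
      have hw0 : w ≠ 0 := (mem_erase.mp (mem_erase.mp hwe).2).1
      have hw3 : w ∈ e := (mem_erase.mp (mem_erase.mp hwe).2).2
      have he2 : e = {0, 1, w} := by
        rw [← insert_erase h01.1, ← insert_erase (mem_erase.mpr ⟨(by decide : (1 : ℕ) ≠ 0), h01.2⟩), hw]
      have hwR : w ∈ R := by
        rcases mem_insert.mp (hs hw3) with h5 | h5
        · exact absurd h5 hw0
        · rcases mem_insert.mp h5 with h6 | h6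
          · exact absurd h6 hw1
          · exact h6
      refine (Finset.disjoint_left.mp hW) hwR ?_
      refine mem_filter.mpr ⟨mem_vx.mpr ⟨e, he, hw3⟩, hw0, hw1, ?_⟩
      rw [← he2]; exact he
    · by_cases h18 : e ⊆ range 18
      · rcases hV e he h18 with h2 | h2
        · have h5 : ∀ e ∈ Rs, (1 ∉ e ∧ e.erase 0 ∈ Am) ∨ (0 ∉ e ∧ e.erase 1 ∈ Bm) := by decide
          rcases h5 e h2 with ⟨h6, h7⟩ | ⟨h6, h7⟩
          · refine hA _ h7 ?_
            intro x hx
            have hx' := mem_erase.mp hx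
            rcases mem_insert.mp (hs hx'.2) with h8 | h8
            · exact absurd h8 hx'.1
            · rcases mem_insert.mp h8 with h9 | h9
              · exact absurd (h9 ▸ hx'.2) h6
              · exact h9
          · refine hB _ h7 ?_
            intro x hx
            have hx' := mem_erase.mp hx
            rcases mem_insert.mp (hs hx'.2) with h8 | h8
            · exact absurd (h8 ▸ hx'.2) h6
            · rcases mem_insert.mp h8 with h9 | h9
              · exact absurd h9 hx'.1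
              · exact h9
        · exact h01 h2
      · exact h e (mem_filter.mpr ⟨he, h18, h01⟩) hs

/-- `dn F = dn Fm - loss/4 + gain/4` (condition on `{0, 1}`). -/
theorem dn_loss_gain (F : HG) (h3 : ∀ e ∈ F, e.card = 3) (hR : Rs ⊆ F)
    (hV : ∀ e ∈ F, e ⊆ range 18 → e ∈ Rs ∨ (0 ∈ e ∧ 1 ∈ e)) :
    dn F = 209 / 512 - loss F (Ex F) / 4 + gain F (Ex F) (Wd F) / 4 := by
  have hT : ({0, 1} : Finset ℕ) ⊆ vx F ∪ range 18 := by
    intro x hx
    have : x < 18 := by
      simp only [mem_insert, mem_singleton] at hx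
      omega
    exact mem_union_right _ (mem_range.mpr this)
  have hp : (({0, 1} : Finset ℕ)).powerset = {∅, {0}, {1}, {0, 1}} := by decide
  have hU : (vx F ∪ range 18) \ {0, 1} = UU F := rfl
  rw [dn_eq (H := F) (U := vx F ∪ range 18) subset_union_left, pr_split hT, hp,
    sum_insert (by decide), sum_insert (by decide), sum_insert (by decide), sum_singleton, hU]
  have e1 : pr (UU F) (fun R => Ind F (∅ ∪ R)) = 1 - pr (UU F) (fun R => ∃ e ∈ Ex F, e ⊆ R) := by
    rw [← pr_not]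
    apply pr_congr
    intro R hRU
    rw [empty_union]
    exact N2a_ind_none hR hV hRU
  have e2 : pr (UU F) (fun R => Ind F ({0} ∪ R)) =
      81 / 256 - pr (UU F) (fun R => Ind Am R ∧ ∃ e ∈ Ex F, e ⊆ insert 0 R) := by
    rw [← N2a_pr_Am (N2a_range_subset F), ← N2a_pr_and_not]
    apply pr_congr
    intro R hRU
    rw [show ({0} : Finset ℕ) ∪ R = insert 0 R from rfl]
    exact N2a_ind_zero hR hV hRU
  have e3 : pr (UU F) (fun R => Ind F ({1} ∪ R)) =
      81 / 256 - pr (UU F) (fun R => Ind Bm R ∧ ∃ e ∈ Ex F, e ⊆ insert 1 R) := by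
    rw [← N2a_pr_Bm (N2a_range_subset F), ← N2a_pr_and_not]
    apply pr_congr
    intro R hRU
    rw [show ({1} : Finset ℕ) ∪ R = insert 1 R from rfl]
    exact N2a_ind_one hR hV hRU
  have e4 : pr (UU F) (fun R => Ind F ({0, 1} ∪ R)) = gain F (Ex F) (Wd F) := by
    unfold gain
    apply pr_congr
    intro R hRU
    rw [show ({0, 1} : Finset ℕ) ∪ R = insert 0 (insert 1 R) from by
      ext x; simp only [mem_union, mem_insert, mem_singleton]; tauto]
    exact N2a_ind_both h3 hR hV hRU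
  have hc : (({0, 1} : Finset ℕ)).card = 2 := by decide
  rw [e1, e2, e3, e4, hc]
  unfold loss
  ring

theorem loss_mono (F : HG) {E E' : HG} (h : E ⊆ E') : loss F E ≤ loss F E' := by
  unfold loss
  refine add_le_add (add_le_add ?_ ?_) ?_
  · exact pr_mono (fun R _ ⟨e, he, hs⟩ => ⟨e, h he, hs⟩)
  · exact pr_mono (fun R _ ⟨hA, e, he, hs⟩ => ⟨hA, e, h he, hs⟩)
  · exact pr_mono (fun R _ ⟨hA, e, he, hs⟩ => ⟨hA, e, h he, hs⟩)

theorem gain_anti (F : HG) {E E' : HG} {W W' : Finset ℕ} (h : E ⊆ E') (hW : W ⊆ W') :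
    gain F E' W' ≤ gain F E W := by
  unfold gain
  exact pr_mono (fun R _ ⟨h1, h2, h4, h5⟩ => ⟨h1, h2, disjoint_of_subset_right hW h4,
    fun e he => h5 e (h he)⟩)

theorem gain_pos (F : HG) (h3 : ∀ e ∈ F, e.card = 3) : 0 < gain F (Ex F) (Wd F) := by
  unfold gain
  have h := pr_lt (U := UU F) (p := fun _ => False)
    (q := fun R => Ind Am R ∧ Ind Bm R ∧ Disjoint R (Wd F) ∧
      ∀ e ∈ Ex F, ¬ e ⊆ insert 0 (insert 1 R)) (fun R _ h => h.elim) (R := ∅)
    (empty_subset _) ?_ (fun h => h)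
  · have h1 := pr_nonneg (UU F) (fun _ => False)
    have h2 : (0 : ℝ) < 1 / 2 ^ (UU F).card := by positivity
    linarith
  · refine ⟨?_, ?_, disjoint_empty_left _, ?_⟩
    · decide
    · decide
    · intro e he hs
      have hc := h3 e (mem_filter.mp he).1
      have : e.card ≤ 2 := (card_le_card hs).trans (by decide)
      omega

end Pool.Agent.IDX
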