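import Pool.Agent.IDX.N2a

/-! Row IDX-N2b2: one extra edge -/

open Finset

namespace Pool.Agent.IDX

theorem N2b2_countA : ∀ z ∈ Icc 2 9,
    ((Icc 2 9).powerset.filter (fun S => Ind Am S ∧ z ∈ S)).card = 27 := by
  decide +kernel

theorem N2b2_countA0 : ((Icc 2 9).powerset.filter (fun S => Ind Am S)).card = 81 := by
  decide +kernel

theorem N2b2_countB : ∀ z ∈ Icc 10 17,
    ((Icc 10 17).powerset.filter (fun S => Ind Bm S ∧ z ∈ S)).card = 27 := by
  decide +kernel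

theorem N2b2_countB0 : ((Icc 10 17).powerset.filter (fun S => Ind Bm S)).card = 81 := by
  decide +kernel

theorem N2b2_pr {W : Finset ℕ} (p : Finset ℕ → Prop) [DecidablePred p] {n : ℕ}
    (h : (W.powerset.filter p).card = n) : pr W p = (n : ℝ) / 2 ^ W.card := by
  unfold pr
  have h1 : (@Finset.filter _ p (fun a => Classical.propDecidable (p a)) W.powerset) =
      W.powerset.filter p := by
    ext x
    simp only [Finset.mem_filter]
  rw [h1, h]

/-- A set is contained with probability `2^{-|X|}`. -/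
theorem N2b2_sub {V X : Finset ℕ} (h : X ⊆ V) : pr V (fun R => X ⊆ R) = 1 / 2 ^ X.card := by
  have h1 : pr V (fun R => X ⊆ R) = pr V (fun R => R ∩ X = X) :=
    pr_congr (fun R _ => Finset.inter_eq_right.symm)
  rw [h1, pr_extend h (fun S => S = X), pr_eq_singleton (le_refl X)]

/-- Product form. -/
theorem N2b2_prod {U W X : Finset ℕ} (hW : W ⊆ U) (hX : X ⊆ U) (hXW : Disjoint X W)
    (q : Finset ℕ → Prop) :
    pr U (fun R => q (R ∩ W) ∧ X ⊆ R) = pr W q * (1 / 2 ^ X.card) := by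
  have hXV : X ⊆ U \ W := by
    intro x hx
    exact Finset.mem_sdiff.2 ⟨hX hx, Finset.disjoint_left.1 hXW hx⟩
  have h1 := pr_mul (U := W) (V := U \ W) Finset.disjoint_sdiff q (fun S => X ⊆ S)
  rw [Finset.union_sdiff_of_subset hW, N2b2_sub hXV] at h1
  rw [← h1]
  refine pr_congr (fun R _ => ?_)
  refine and_congr_right (fun _ => ⟨fun h x hx => ?_, fun h x hx => ?_⟩)
  · exact Finset.mem_inter.2 ⟨h hx, hXV hx⟩
  · exact (Finset.mem_inter.1 (h hx)).1

theorem N2b2_indA (R : Finset ℕ) : Ind Am R ↔ Ind Am (R ∩ Icc 2 9) := by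
  have hA : ∀ e ∈ Am, e ⊆ Icc 2 9 := by decide
  exact ⟨fun h e he hs => h e he (hs.trans Finset.inter_subset_left),
    fun h e he hs => h e he (Finset.subset_inter hs (hA e he))⟩

theorem N2b2_indB (R : Finset ℕ) : Ind Bm R ↔ Ind Bm (R ∩ Icc 10 17) := by
  have hA : ∀ e ∈ Bm, e ⊆ Icc 10 17 := by decide
  exact ⟨fun h e he hs => h e he (hs.trans Finset.inter_subset_left),
    fun h e he hs => h e he (Finset.subset_inter hs (hA e he))⟩

/-- `z ∈ {2..9}`, `p` outside: `pr (A independent, z, p ∈ R) = 27/512`. -/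
theorem pr_Am_own {U : Finset ℕ} (h : range 18 \ {0, 1} ⊆ U) {z p : ℕ} (hz : z ∈ Icc 2 9)
    (hp : p ∈ U) (hp' : 18 ≤ p) : pr U (fun R => Ind Am R ∧ z ∈ R ∧ p ∈ R) = 27 / 512 := by
  have hW : Icc 2 9 ⊆ U := fun x hx => h (by
    have := Finset.mem_Icc.1 hx
    simp only [Finset.mem_sdiff, Finset.mem_range, Finset.mem_insert, Finset.mem_singleton]
    omega)
  have hX : ({p} : Finset ℕ) ⊆ U := Finset.singleton_subset_iff.2 hp
  have hd : Disjoint ({p} : Finset ℕ) (Icc 2 9) := by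
    rw [Finset.disjoint_singleton_left, Finset.mem_Icc]
    omega
  have h1 := N2b2_prod hW hX hd (fun S => Ind Am S ∧ z ∈ S)
  rw [N2b2_pr (fun S => Ind Am S ∧ z ∈ S) (N2b2_countA z hz)] at h1
  have h2 : pr U (fun R => Ind Am R ∧ z ∈ R ∧ p ∈ R) =
      pr U (fun R => (Ind Am (R ∩ Icc 2 9) ∧ z ∈ R ∩ Icc 2 9) ∧ {p} ⊆ R) := by
    refine pr_congr (fun R _ => ?_)
    rw [N2b2_indA R, Finset.mem_inter, Finset.singleton_subset_iff]
    tauto
  rw [h2, h1]
  norm_num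

/-- `x ≠ y` outside `{2..9}`: `pr (A independent, x, y ∈ R) = 81/1024`. -/
theorem pr_Am_other {U : Finset ℕ} (h : range 18 \ {0, 1} ⊆ U) {x y : ℕ} (hx : x ∈ U) (hy : y ∈ U)
    (hxy : x ≠ y) (hx' : x ∉ Icc 2 9) (hy' : y ∉ Icc 2 9) :
    pr U (fun R => Ind Am R ∧ x ∈ R ∧ y ∈ R) = 81 / 1024 := by
  have hW : Icc 2 9 ⊆ U := fun x hx => h (by
    have := Finset.mem_Icc.1 hx
    simp only [Finset.mem_sdiff, Finset.mem_range, Finset.mem_insert, Finset.mem_singleton]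
    omega)
  have hX : ({x, y} : Finset ℕ) ⊆ U := by
    intro w hw
    rcases Finset.mem_insert.1 hw with h' | h'
    · exact h' ▸ hx
    · exact (Finset.mem_singleton.1 h') ▸ hy
  have hd : Disjoint ({x, y} : Finset ℕ) (Icc 2 9) := by
    rw [Finset.disjoint_left]
    intro w hw
    rcases Finset.mem_insert.1 hw with h' | h'
    · exact h' ▸ hx'
    · exact (Finset.mem_singleton.1 h') ▸ hy'
  have h1 := N2b2_prod hW hX hd (fun S => Ind Am S)
  rw [N2b2_pr (fun S => Ind Am S) N2b2_countA0, Finset.card_pair hxy] at h1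
  have h2 : pr U (fun R => Ind Am R ∧ x ∈ R ∧ y ∈ R) =
      pr U (fun R => (Ind Am (R ∩ Icc 2 9)) ∧ {x, y} ⊆ R) := by
    refine pr_congr (fun R _ => ?_)
    rw [N2b2_indA R, Finset.insert_subset_iff, Finset.singleton_subset_iff]
  rw [h2, h1]
  norm_num

theorem pr_Bm_own {U : Finset ℕ} (h : range 18 \ {0, 1} ⊆ U) {z p : ℕ} (hz : z ∈ Icc 10 17)
    (hp : p ∈ U) (hp' : 18 ≤ p) : pr U (fun R => Ind Bm R ∧ z ∈ R ∧ p ∈ R) = 27 / 512 := by
  have hW : Icc 10 17 ⊆ U := fun x hx => h (by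
    have := Finset.mem_Icc.1 hx
    simp only [Finset.mem_sdiff, Finset.mem_range, Finset.mem_insert, Finset.mem_singleton]
    omega)
  have hX : ({p} : Finset ℕ) ⊆ U := Finset.singleton_subset_iff.2 hp
  have hd : Disjoint ({p} : Finset ℕ) (Icc 10 17) := by
    rw [Finset.disjoint_singleton_left, Finset.mem_Icc]
    omega
  have h1 := N2b2_prod hW hX hd (fun S => Ind Bm S ∧ z ∈ S)
  rw [N2b2_pr (fun S => Ind Bm S ∧ z ∈ S) (N2b2_countB z hz)] at h1
  have h2 : pr U (fun R => Ind Bm R ∧ z ∈ R ∧ p ∈ R) =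
      pr U (fun R => (Ind Bm (R ∩ Icc 10 17) ∧ z ∈ R ∩ Icc 10 17) ∧ {p} ⊆ R) := by
    refine pr_congr (fun R _ => ?_)
    rw [N2b2_indB R, Finset.mem_inter, Finset.singleton_subset_iff]
    tauto
  rw [h2, h1]
  norm_num

theorem pr_Bm_other {U : Finset ℕ} (h : range 18 \ {0, 1} ⊆ U) {x y : ℕ} (hx : x ∈ U) (hy : y ∈ U)
    (hxy : x ≠ y) (hx' : x ∉ Icc 10 17) (hy' : y ∉ Icc 10 17) :
    pr U (fun R => Ind Bm R ∧ x ∈ R ∧ y ∈ R) = 81 / 1024 := by
  have hW : Icc 10 17 ⊆ U := fun x hx => h (by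
    have := Finset.mem_Icc.1 hx
    simp only [Finset.mem_sdiff, Finset.mem_range, Finset.mem_insert, Finset.mem_singleton]
    omega)
  have hX : ({x, y} : Finset ℕ) ⊆ U := by
    intro w hw
    rcases Finset.mem_insert.1 hw with h' | h'
    · exact h' ▸ hx
    · exact (Finset.mem_singleton.1 h') ▸ hy
  have hd : Disjoint ({x, y} : Finset ℕ) (Icc 10 17) := by
    rw [Finset.disjoint_left]
    intro w hw
    rcases Finset.mem_insert.1 hw with h' | h'
    · exact h' ▸ hx'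
    · exact (Finset.mem_singleton.1 h') ▸ hy'
  have h1 := N2b2_prod hW hX hd (fun S => Ind Bm S)
  rw [N2b2_pr (fun S => Ind Bm S) N2b2_countB0, Finset.card_pair hxy] at h1
  have h2 : pr U (fun R => Ind Bm R ∧ x ∈ R ∧ y ∈ R) =
      pr U (fun R => (Ind Bm (R ∩ Icc 10 17)) ∧ {x, y} ⊆ R) := by
    refine pr_congr (fun R _ => ?_)
    rw [N2b2_indB R, Finset.insert_subset_iff, Finset.singleton_subset_iff]
  rw [h2, h1]
  norm_num

end Pool.Agent.IDX
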