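import Pool.Agent.IDX.N2a

/-! Row IDX-N2b3: independence -/

open Finset

namespace Pool.Agent.IDX

theorem n2b3_cardB : ((Icc 10 17).powerset.filter (fun R => ∀ e ∈ Bm, ¬ e ⊆ R)).card = 81 := by
  decide +kernel

theorem n2b3_cardA : ((Icc 2 9).powerset.filter (fun R => ∀ e ∈ Am, ¬ e ⊆ R)).card = 81 := by
  decide +kernel

theorem n2b3_prB : pr (Icc 10 17) (Ind Bm) = 81 / 256 := by
  have h2 : (Icc 10 17).card = 8 := by decide
  have h3 : ∀ inst : DecidablePred (Ind Bm),
      (@Finset.filter _ (Ind Bm) inst (Icc 10 17).powerset).card = 81 := by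
    intro inst
    convert n2b3_cardB
    exact Iff.rfl
  unfold pr
  rw [h3, h2]
  norm_num

theorem n2b3_prA : pr (Icc 2 9) (Ind Am) = 81 / 256 := by
  have h2 : (Icc 2 9).card = 8 := by decide
  have h3 : ∀ inst : DecidablePred (Ind Am),
      (@Finset.filter _ (Ind Am) inst (Icc 2 9).powerset).card = 81 := by
    intro inst
    convert n2b3_cardA
    exact Iff.rfl
  unfold pr
  rw [h3, h2]
  norm_num

theorem n2b3_subB {e : Finset ℕ} (he : e ∈ Bm) : e ⊆ Icc 10 17 := by
  intro x hx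
  simp only [Bm, Finset.mem_insert, Finset.mem_singleton] at he
  rcases he with rfl | rfl | rfl | rfl <;>
    (simp only [Finset.mem_insert, Finset.mem_singleton] at hx; rw [Finset.mem_Icc]; omega)

theorem n2b3_subA {e : Finset ℕ} (he : e ∈ Am) : e ⊆ Icc 2 9 := by
  intro x hx
  simp only [Am, Finset.mem_insert, Finset.mem_singleton] at he
  rcases he with rfl | rfl | rfl | rfl <;>
    (simp only [Finset.mem_insert, Finset.mem_singleton] at hx; rw [Finset.mem_Icc]; omega)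

theorem n2b3_indep {U V : Finset ℕ} (hV : V ⊆ U) (q : Finset ℕ → Prop)
    (hq : ∀ R, q R ↔ q (R \ V)) {M : HG} (hM : ∀ e ∈ M, e ⊆ V) :
    pr U (fun R => q R ∧ Ind M R) = pr U q * pr V (Ind M) := by
  have hU : (U \ V) ∪ V = U := Finset.sdiff_union_of_subset hV
  have e1 : pr U q = pr (U \ V) q := by
    rw [← pr_extend (U := U \ V) (W := U) Finset.sdiff_subset q]
    refine pr_congr (fun R hR => ?_)
    rw [hq R]
    have : R \ V = R ∩ (U \ V) := by
      ext x
      rw [Finset.mem_sdiff, Finset.mem_inter, Finset.mem_sdiff]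
      exact ⟨fun h => ⟨h.1, hR h.1, h.2⟩, fun h => ⟨h.1, h.2.2⟩⟩
    rw [this]
  rw [e1, ← pr_mul (U := U \ V) (V := V) Finset.sdiff_disjoint q (Ind M), hU]
  refine pr_congr (fun R hR => ?_)
  have h1 : R \ V = R ∩ (U \ V) := by
    ext x
    rw [Finset.mem_sdiff, Finset.mem_inter, Finset.mem_sdiff]
    exact ⟨fun h => ⟨h.1, hR h.1, h.2⟩, fun h => ⟨h.1, h.2.2⟩⟩
  rw [hq R, h1]
  refine and_congr_right (fun _ => ?_)
  unfold Ind
  refine forall₂_congr (fun e he => not_congr ?_)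
  exact ⟨fun h => Finset.subset_inter h (hM e he), fun h => h.trans Finset.inter_subset_left⟩

theorem n2b3_VB {U : Finset ℕ} (h : range 18 \ {0, 1} ⊆ U) : Icc 10 17 ⊆ U := by
  intro x hx
  rw [Finset.mem_Icc] at hx
  apply h
  rw [Finset.mem_sdiff, Finset.mem_range]
  refine ⟨by omega, ?_⟩
  simp only [Finset.mem_insert, Finset.mem_singleton]; omega

theorem n2b3_VA {U : Finset ℕ} (h : range 18 \ {0, 1} ⊆ U) : Icc 2 9 ⊆ U := by
  intro x hx
  rw [Finset.mem_Icc] at hx
  apply h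
  rw [Finset.mem_sdiff, Finset.mem_range]
  refine ⟨by omega, ?_⟩
  simp only [Finset.mem_insert, Finset.mem_singleton]; omega

/-- `B` is independent of a property of the trace outside `{10..17}`: for a property `q` of
`R \ {10..17}`. -/
theorem pr_indep_B {U : Finset ℕ} (h : range 18 \ {0, 1} ⊆ U) (q : Finset ℕ → Prop)
    (hq : ∀ R, q R ↔ q (R \ Icc 10 17)) :
    pr U (fun R => q R ∧ Ind Bm R) = pr U q * (81 / 256) := by
  rw [n2b3_indep (n2b3_VB h) q hq (fun e he => n2b3_subB he), n2b3_prB]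

theorem pr_indep_A {U : Finset ℕ} (h : range 18 \ {0, 1} ⊆ U) (q : Finset ℕ → Prop)
    (hq : ∀ R, q R ↔ q (R \ Icc 2 9)) :
    pr U (fun R => q R ∧ Ind Am R) = pr U q * (81 / 256) := by
  rw [n2b3_indep (n2b3_VA h) q hq (fun e he => n2b3_subA he), n2b3_prA]

/-- `A` and `B` independent and not both of `p ≠ q` outside `range 18` in `R`. -/
theorem pr_AB_pq {U : Finset ℕ} (h : range 18 \ {0, 1} ⊆ U) {p q : ℕ} (hp : p ∈ U) (hq : q ∈ U)
    (hpq : p ≠ q) (hp' : 18 ≤ p) (hq' : 18 ≤ q) :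
    pr U (fun R => Ind Am R ∧ Ind Bm R ∧ ¬ (p ∈ R ∧ q ∈ R)) = 3 / 4 * (6561 / 65536) := by
  have e0 : pr U (fun R => Ind Am R ∧ Ind Bm R ∧ ¬ (p ∈ R ∧ q ∈ R)) =
      pr U (fun R => (¬ (p ∈ R ∧ q ∈ R) ∧ Ind Am R) ∧ Ind Bm R) :=
    pr_congr (fun R _ => by tauto)
  have m : ∀ (V : Finset ℕ) (x : ℕ) (R : Finset ℕ), x ∉ V → (x ∈ R \ V ↔ x ∈ R) := by
    intro V x R hx
    rw [Finset.mem_sdiff]; exact ⟨fun h => h.1, fun h => ⟨h, hx⟩⟩
  have pB : p ∉ Icc 10 17 := by rw [Finset.mem_Icc]; omega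
  have qB : q ∉ Icc 10 17 := by rw [Finset.mem_Icc]; omega
  have pA : p ∉ Icc 2 9 := by rw [Finset.mem_Icc]; omega
  have qA : q ∉ Icc 2 9 := by rw [Finset.mem_Icc]; omega
  rw [e0, pr_indep_B h (fun R => ¬ (p ∈ R ∧ q ∈ R) ∧ Ind Am R) (by
    intro R
    have hA : Ind Am R ↔ Ind Am (R \ Icc 10 17) := by
      unfold Ind
      refine forall₂_congr (fun e he => not_congr ?_)
      constructor
      · intro hs x hx
        rw [Finset.mem_sdiff, Finset.mem_Icc]
        have := n2b3_subA he hx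
        rw [Finset.mem_Icc] at this
        exact ⟨hs hx, by omega⟩
      · intro hs; exact hs.trans Finset.sdiff_subset
    rw [m _ p R pB, m _ q R qB, ← hA]),
    pr_indep_A h (fun R => ¬ (p ∈ R ∧ q ∈ R)) (by
      intro R
      rw [m _ p R pA, m _ q R qA]), pr_not]
  have e1 : pr U (fun R => p ∈ R ∧ q ∈ R) = 1 / 4 := by
    have hs : ({p, q} : Finset ℕ) ⊆ U := by
      intro x hx
      simp only [Finset.mem_insert, Finset.mem_singleton] at hx
      rcases hx with rfl | rfl <;> assumption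
    have hc : ({p, q} : Finset ℕ).card = 2 := Finset.card_pair hpq
    have := pr_eq_singleton (U := {p, q}) (S := {p, q}) (Finset.Subset.refl _)
    rw [← pr_extend hs (fun R => R = {p, q}), hc] at this
    rw [show (1 : ℝ) / 4 = 1 / 2 ^ 2 by norm_num, ← this]
    refine pr_congr (fun R _ => ?_)
    rw [Finset.inter_eq_right]
    constructor
    · rintro ⟨h1, h2⟩ x hx
      simp only [Finset.mem_insert, Finset.mem_singleton] at hx
      rcases hx with rfl | rfl <;> assumption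
    · intro h'
      exact ⟨h' (by simp), h' (by simp)⟩
  rw [e1]
  norm_num

end Pool.Agent.IDX
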