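import Pool.Agent.IDX.N2a

/-! Row IDX-N2b1: probabilities for the matchings -/

open Finset

namespace Pool.Agent.IDX

theorem pr_Am {U : Finset ℕ} (h : range 18 \ {0, 1} ⊆ U) : pr U (Ind Am) = 81 / 256 :=
  N2a_pr_Am h

theorem pr_Bm {U : Finset ℕ} (h : range 18 \ {0, 1} ⊆ U) : pr U (Ind Bm) = 81 / 256 :=
  N2a_pr_Bm h

theorem pr_AB {U : Finset ℕ} (h : range 18 \ {0, 1} ⊆ U) :
    pr U (fun R => Ind Am R ∧ Ind Bm R) = 6561 / 65536 := by
  have h1 : vx (Am ∪ Bm) ⊆ range 18 \ {0, 1} := by decide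
  have hd : Disjoint (vx Am) (vx Bm) := by decide
  have hA : dn Am = 81 / 256 := by
    rw [dn_eq (H := Am) (U := range 18 \ {0, 1}) (by decide)]
    exact N2a_pr_Am (Subset.refl _)
  have hB : dn Bm = 81 / 256 := by
    rw [dn_eq (H := Bm) (U := range 18 \ {0, 1}) (by decide)]
    exact N2a_pr_Bm (Subset.refl _)
  have h2 : pr U (fun R => Ind Am R ∧ Ind Bm R) = pr U (Ind (Am ∪ Bm)) := by
    apply pr_congr
    intro R _
    constructor
    · rintro ⟨hA, hB⟩ e he hs
      rcases mem_union.mp he with he | he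
      · exact hA e he hs
      · exact hB e he hs
    · intro hI
      exact ⟨fun e he => hI e (mem_union_left _ he), fun e he => hI e (mem_union_right _ he)⟩
  rw [h2, ← dn_eq (h1.trans h), N1a_dn_union hd, hA, hB]
  norm_num

/-- Three vertices are in `R` with probability 1/8. -/
theorem pr_three {U e : Finset ℕ} (h : e ⊆ U) (he : e.card = 3) : pr U (fun R => e ⊆ R) = 1 / 8 := by
  have h1 : pr U (fun R => e ⊆ R) = pr U (fun R => (fun S => S = e) (R ∩ e)) := by
    apply pr_congr
    intro R _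
    exact (inter_eq_right (s := e) (t := R)).symm
  rw [h1, pr_extend h (fun S => S = e), pr_eq_singleton (Subset.refl e), he]
  norm_num

/-- Removing a vertex: for an `A`-independence type property (stable under removing elements)
adding a further vertex has conditional probability at most 1/2. -/
theorem pr_half {U : Finset ℕ} (q : Finset ℕ → Prop) (v : ℕ) (hv : v ∈ U)
    (hq : ∀ R ⊆ U, v ∈ R → q R → q (R.erase v)) :
    pr U (fun R => q R ∧ v ∈ R) ≤ pr U q / 2 := by
  have hT : ({v} : Finset ℕ) ⊆ U := singleton_subset_iff.mpr hv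
  have hp : (({v} : Finset ℕ)).powerset = {∅, {v}} := by
    ext x
    simp [subset_singleton_iff]
  have hne : (∅ : Finset ℕ) ∉ ({{v}} : Finset (Finset ℕ)) := by
    rw [mem_singleton]
    exact (singleton_ne_empty v).symm
  rw [pr_split hT, pr_split hT q, hp, sum_insert hne, sum_singleton, sum_insert hne, sum_singleton,
    card_singleton]
  have e1 : pr (U \ {v}) (fun R => q (∅ ∪ R) ∧ v ∈ ∅ ∪ R) = 0 := by
    have : pr (U \ {v}) (fun R => q (∅ ∪ R) ∧ v ∈ ∅ ∪ R) ≤ pr (U \ {v}) (fun _ => False) := by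
      apply pr_mono
      intro R hR h
      rw [empty_union] at h
      have := hR h.2
      simp at this
    have h0 : pr (U \ {v}) (fun _ => False) = 0 := by
      have h1 := pr_not (U \ {v}) (fun _ => True)
      rw [pr_true] at h1
      rw [← pr_congr (p := fun _ => ¬ True) (q := fun _ => False) (fun _ _ => by simp), h1]
      ring
    exact le_antisymm (h0 ▸ this) (pr_nonneg _ _)
  have e2 : pr (U \ {v}) (fun R => q ({v} ∪ R) ∧ v ∈ {v} ∪ R) ≤ pr (U \ {v}) (fun R => q ({v} ∪ R)) :=
    pr_mono (fun R _ h => h.1)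
  have e3 : pr (U \ {v}) (fun R => q ({v} ∪ R)) ≤ pr (U \ {v}) (fun R => q (∅ ∪ R)) := by
    apply pr_mono
    intro R hR h
    have hvR : v ∉ R := fun h' => by have := hR h'; simp at this
    have h1 := hq ({v} ∪ R) (union_subset hT (hR.trans sdiff_subset)) (by simp) h
    rw [show ({v} ∪ R).erase v = R from by
      rw [show ({v} : Finset ℕ) ∪ R = insert v R from rfl, erase_insert hvR]] at h1
    rw [empty_union]
    exact h1
  rw [e1]
  have : pr (U \ {v}) (fun R => q (∅ ∪ R)) ≥ pr (U \ {v}) (fun R => q ({v} ∪ R) ∧ v ∈ {v} ∪ R) := e2.trans e3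
  have h5 : pr (U \ {v}) (fun R => q ({v} ∪ R)) ≥ pr (U \ {v}) (fun R => q ({v} ∪ R) ∧ v ∈ {v} ∪ R) := e2
  rw [pow_one, zero_add]
  linarith

end Pool.Agent.IDX
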