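import Pool.Agent.IDX.N2b

/-! Row IDX-N2c: the extra edges are all of the form `{0, z, p}` or `{1, z, p}`; two extra edges are
impossible. -/

open Finset

namespace Pool.Agent.IDX

variable {F : HG}

theorem n2c_UU (F : HG) : range 18 \ {0, 1} ⊆ UU F := by
  intro x hx
  unfold UU
  rw [Finset.mem_sdiff] at hx ⊢
  exact ⟨Finset.mem_union_right _ hx.1, hx.2⟩

theorem n2c_mem {F : HG} {e : Finset ℕ} (he : e ∈ Ex F) {x : ℕ} (hx : x ∈ e) (h0 : x ≠ 0)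
    (h1 : x ≠ 1) : x ∈ UU F := by
  unfold UU
  rw [Finset.mem_sdiff, Finset.mem_union]
  refine ⟨Or.inl (mem_vx.2 ⟨e, (Finset.mem_filter.1 he).1, hx⟩), ?_⟩
  simp [h0, h1]

/-- Bounds: `gain ≤ 6561/65536`. -/
theorem gain_le (F E : HG) (W : Finset ℕ) : gain F E W ≤ 6561 / 65536 := by
  rw [← pr_AB (n2c_UU F)]
  exact pr_mono (fun R _ h => ⟨h.1, h.2.1⟩)

theorem loss_ge0 (F E : HG) :
    pr (UU F) (fun R => Ind Am R ∧ ∃ e ∈ E, e ⊆ insert 0 R) ≤ loss F E := by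
  unfold loss
  have h1 := pr_nonneg (UU F) (fun R => ∃ e ∈ E, e ⊆ R)
  have h2 := pr_nonneg (UU F) (fun R => Ind Bm R ∧ ∃ e ∈ E, e ⊆ insert 1 R)
  linarith

theorem loss_ge1 (F E : HG) :
    pr (UU F) (fun R => Ind Bm R ∧ ∃ e ∈ E, e ⊆ insert 1 R) ≤ loss F E := by
  unfold loss
  have h1 := pr_nonneg (UU F) (fun R => ∃ e ∈ E, e ⊆ R)
  have h2 := pr_nonneg (UU F) (fun R => Ind Am R ∧ ∃ e ∈ E, e ⊆ insert 0 R)
  linarith

/-- An extra edge without `0` and `1`: `loss ≥ 1/8 > gain`. -/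
theorem case_none (h3 : ∀ e ∈ F, e.card = 3) {e : Finset ℕ} (he : e ∈ Ex F) (h0 : 0 ∉ e)
    (h1 : 1 ∉ e) : gain F (Ex F) (Wd F) < loss F (Ex F) := by
  have hg := gain_le F (Ex F) (Wd F)
  have hU : e ⊆ UU F := fun x hx => n2c_mem he hx (fun h => h0 (h ▸ hx)) (fun h => h1 (h ▸ hx))
  have h8 := pr_three hU (h3 e (Finset.mem_filter.1 he).1)
  have h2 : pr (UU F) (fun R => e ⊆ R) ≤ pr (UU F) (fun R => ∃ e ∈ Ex F, e ⊆ R) :=
    pr_mono (fun R _ h => ⟨e, he, h⟩)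
  have h4 := pr_nonneg (UU F) (fun R => Ind Am R ∧ ∃ e ∈ Ex F, e ⊆ insert 0 R)
  have h5 := pr_nonneg (UU F) (fun R => Ind Bm R ∧ ∃ e ∈ Ex F, e ⊆ insert 1 R)
  have h6 : (1 : ℝ) / 8 ≤ loss F (Ex F) := by unfold loss; linarith
  have : (6561 / 65536 : ℝ) < 1 / 8 := by norm_num
  linarith

theorem sub_insert3 {a p q : ℕ} {R : Finset ℕ} (hp : p ∈ R) (hq : q ∈ R) :
    ({a, p, q} : Finset ℕ) ⊆ insert a R := by
  intro x hx
  simp only [Finset.mem_insert, Finset.mem_singleton] at hx ⊢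
  rcases hx with rfl | rfl | rfl
  · exact Or.inl rfl
  · exact Or.inr hp
  · exact Or.inr hq

theorem sub_insert01 {a p q : ℕ} (ha : a = 0 ∨ a = 1) {R : Finset ℕ} (hp : p ∈ R) (hq : q ∈ R) :
    ({a, p, q} : Finset ℕ) ⊆ insert 0 (insert 1 R) := by
  intro x hx
  simp only [Finset.mem_insert, Finset.mem_singleton] at hx ⊢
  rcases hx with rfl | rfl | rfl
  · rcases ha with h | h
    · exact Or.inl h
    · exact Or.inr (Or.inl h)
  · exact Or.inr (Or.inr hp)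
  · exact Or.inr (Or.inr hq)

/-- An extra edge `{0, p, q}` or `{1, p, q}` with `p, q ≥ 18`:
`loss ≥ 81/1024 > (3/4) 6561/65536 ≥ gain`. -/
theorem case_two_outside (h3 : ∀ e ∈ F, e.card = 3) {a p q : ℕ} (ha : a = 0 ∨ a = 1)
    (he : {a, p, q} ∈ Ex F) (hpq : p ≠ q) (hp : 18 ≤ p) (hq : 18 ≤ q) :
    gain F (Ex F) (Wd F) < loss F (Ex F) := by
  have hpU : p ∈ UU F := n2c_mem he (by simp) (by omega) (by omega)
  have hqU : q ∈ UU F := n2c_mem he (by simp) (by omega) (by omega)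
  have hU := n2c_UU F
  have hg : gain F (Ex F) (Wd F) ≤ 3 / 4 * (6561 / 65536) := by
    rw [← pr_AB_pq hU hpU hqU hpq hp hq]
    refine pr_mono (fun R _ h => ⟨h.1, h.2.1, ?_⟩)
    rintro ⟨h1, h2⟩
    exact h.2.2.2 _ he (sub_insert01 ha h1 h2)
  have hl : (81 : ℝ) / 1024 ≤ loss F (Ex F) := by
    rcases ha with rfl | rfl
    · rw [← pr_Am_other hU hpU hqU hpq (by simp only [Finset.mem_Icc]; omega)
        (by simp only [Finset.mem_Icc]; omega)]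
      exact le_trans (pr_mono (fun R _ h => ⟨h.1, _, he, sub_insert3 h.2.1 h.2.2⟩)) (loss_ge0 F _)
    · rw [← pr_Bm_other hU hpU hqU hpq (by simp only [Finset.mem_Icc]; omega)
        (by simp only [Finset.mem_Icc]; omega)]
      exact le_trans (pr_mono (fun R _ h => ⟨h.1, _, he, sub_insert3 h.2.1 h.2.2⟩)) (loss_ge1 F _)
  have : (3 / 4 * (6561 / 65536) : ℝ) < 81 / 1024 := by norm_num
  linarith

theorem Am_ge {U : Finset ℕ} (h : range 18 \ {0, 1} ⊆ U) {z p : ℕ} (hz : z ∈ Icc 2 17)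
    (hp : p ∈ U) (hp' : 18 ≤ p) :
    27 / 512 ≤ pr U (fun R => Ind Am R ∧ z ∈ R ∧ p ∈ R) ∧
    (z ∈ Icc 10 17 → pr U (fun R => Ind Am R ∧ z ∈ R ∧ p ∈ R) = 81 / 1024) := by
  rw [Finset.mem_Icc] at hz
  have hzU : z ∈ U := h (by
    rw [Finset.mem_sdiff, Finset.mem_range]; refine ⟨by omega, ?_⟩
    simp only [Finset.mem_insert, Finset.mem_singleton]; omega)
  have h2 : z ∈ Icc 10 17 → pr U (fun R => Ind Am R ∧ z ∈ R ∧ p ∈ R) = 81 / 1024 := by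
    intro hz'
    rw [Finset.mem_Icc] at hz'
    exact pr_Am_other h hzU hp (by omega) (by simp only [Finset.mem_Icc]; omega)
      (by simp only [Finset.mem_Icc]; omega)
  refine ⟨?_, h2⟩
  by_cases h9 : z ≤ 9
  · rw [pr_Am_own h (Finset.mem_Icc.2 ⟨hz.1, h9⟩) hp hp']
  · rw [h2 (Finset.mem_Icc.2 ⟨by omega, hz.2⟩)]; norm_num

theorem Bm_ge {U : Finset ℕ} (h : range 18 \ {0, 1} ⊆ U) {z p : ℕ} (hz : z ∈ Icc 2 17)
    (hp : p ∈ U) (hp' : 18 ≤ p) :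
    27 / 512 ≤ pr U (fun R => Ind Bm R ∧ z ∈ R ∧ p ∈ R) ∧
    (z ∈ Icc 2 9 → pr U (fun R => Ind Bm R ∧ z ∈ R ∧ p ∈ R) = 81 / 1024) := by
  rw [Finset.mem_Icc] at hz
  have hzU : z ∈ U := h (by
    rw [Finset.mem_sdiff, Finset.mem_range]; refine ⟨by omega, ?_⟩
    simp only [Finset.mem_insert, Finset.mem_singleton]; omega)
  have h2 : z ∈ Icc 2 9 → pr U (fun R => Ind Bm R ∧ z ∈ R ∧ p ∈ R) = 81 / 1024 := by
    intro hz'
    rw [Finset.mem_Icc] at hz'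
    exact pr_Bm_other h hzU hp (by omega) (by simp only [Finset.mem_Icc]; omega)
      (by simp only [Finset.mem_Icc]; omega)
  refine ⟨?_, h2⟩
  by_cases h9 : z ≤ 9
  · rw [h2 (Finset.mem_Icc.2 ⟨hz.1, h9⟩)]; norm_num
  · rw [pr_Bm_own h (Finset.mem_Icc.2 ⟨by omega, hz.2⟩) hp hp']

/-- Two extra edges `{0, z, p}`, `{1, z', p'}`: `loss ≥ 27/512 + 27/512 > gain`. -/
theorem case_both (h3 : ∀ e ∈ F, e.card = 3) {z p z' p' : ℕ} (hz : z ∈ Icc 2 17) (hp : 18 ≤ p)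
    (hz' : z' ∈ Icc 2 17) (hp' : 18 ≤ p') (he : {0, z, p} ∈ Ex F) (he' : {1, z', p'} ∈ Ex F) :
    gain F (Ex F) (Wd F) < loss F (Ex F) := by
  have hU := n2c_UU F
  have hpU : p ∈ UU F := n2c_mem he (by simp) (by omega) (by omega)
  have hpU' : p' ∈ UU F := n2c_mem he' (by simp) (by omega) (by omega)
  have hg := gain_le F (Ex F) (Wd F)
  have h1 := (Am_ge hU hz hpU hp).1
  have h2 := (Bm_ge hU hz' hpU' hp').1
  have h4 : pr (UU F) (fun R => Ind Am R ∧ z ∈ R ∧ p ∈ R) ≤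
      pr (UU F) (fun R => Ind Am R ∧ ∃ e ∈ Ex F, e ⊆ insert 0 R) :=
    pr_mono (fun R _ h => ⟨h.1, _, he, sub_insert3 h.2.1 h.2.2⟩)
  have h5 : pr (UU F) (fun R => Ind Bm R ∧ z' ∈ R ∧ p' ∈ R) ≤
      pr (UU F) (fun R => Ind Bm R ∧ ∃ e ∈ Ex F, e ⊆ insert 1 R) :=
    pr_mono (fun R _ h => ⟨h.1, _, he', sub_insert3 h.2.1 h.2.2⟩)
  have h6 := pr_nonneg (UU F) (fun R => ∃ e ∈ Ex F, e ⊆ R)
  have h7 : (27 / 512 + 27 / 512 : ℝ) ≤ loss F (Ex F) := by unfold loss; linarith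
  have : (6561 / 65536 : ℝ) < 27 / 512 + 27 / 512 := by norm_num
  linarith

/-- the probability of a union of two pair events -/
theorem union_ge {U : Finset ℕ} (M : HG) {x y x' y' v : ℕ} (hv : v = x ∨ v = y) (hvU : v ∈ U)
    (h1 : v ≠ x') (h2 : v ≠ y') :
    pr U (fun R => Ind M R ∧ x ∈ R ∧ y ∈ R) + pr U (fun R => Ind M R ∧ x' ∈ R ∧ y' ∈ R) / 2 ≤
    pr U (fun R => Ind M R ∧ ((x ∈ R ∧ y ∈ R) ∨ (x' ∈ R ∧ y' ∈ R))) := by
  have e1 : pr U (fun R => Ind M R ∧ ((x ∈ R ∧ y ∈ R) ∨ (x' ∈ R ∧ y' ∈ R))) =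
      pr U (fun R => (Ind M R ∧ x ∈ R ∧ y ∈ R) ∨
        ((Ind M R ∧ x' ∈ R ∧ y' ∈ R) ∧ ¬ (x ∈ R ∧ y ∈ R))) := by
    apply pr_congr
    intro R _
    tauto
  rw [e1, pr_add_of_disjoint (p := fun R => Ind M R ∧ x ∈ R ∧ y ∈ R)
    (q := fun R => (Ind M R ∧ x' ∈ R ∧ y' ∈ R) ∧ ¬ (x ∈ R ∧ y ∈ R))
    (fun R _ h => h.2.2 h.1.2)]
  have e2 : pr U (fun R => Ind M R ∧ x' ∈ R ∧ y' ∈ R) ≤
      pr U (fun R => (Ind M R ∧ x' ∈ R ∧ y' ∈ R) ∧ ¬ (x ∈ R ∧ y ∈ R)) +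
      pr U (fun R => (Ind M R ∧ x' ∈ R ∧ y' ∈ R) ∧ v ∈ R) := by
    refine le_trans (pr_mono ?_) (pr_or_le U _ _)
    intro R _ h
    by_cases hvR : v ∈ R
    · exact Or.inr ⟨h, hvR⟩
    · refine Or.inl ⟨h, fun h' => hvR ?_⟩
      rcases hv with rfl | rfl
      · exact h'.1
      · exact h'.2
  have e3 := pr_half (U := U) (fun R => Ind M R ∧ x' ∈ R ∧ y' ∈ R) v hvU (by
    intro R _ _ h
    refine ⟨fun e he hsub => h.1 e he (hsub.trans (Finset.erase_subset _ _)),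
      Finset.mem_erase.2 ⟨h1.symm, h.2.1⟩, Finset.mem_erase.2 ⟨h2.symm, h.2.2⟩⟩)
  have e3' : pr U (fun R => (Ind M R ∧ x' ∈ R ∧ y' ∈ R) ∧ v ∈ R) ≤
      pr U (fun R => Ind M R ∧ x' ∈ R ∧ y' ∈ R) / 2 := e3
  linarith

theorem exists_sep {z p z' p' : ℕ} (hz : z ∈ Icc 2 17) (hp : 18 ≤ p) (hz' : z' ∈ Icc 2 17)
    (hp' : 18 ≤ p') (hne : (z, p) ≠ (z', p')) : ∃ v, (v = z ∨ v = p) ∧ v ≠ z' ∧ v ≠ p' := by
  rw [Finset.mem_Icc] at hz hz'
  by_cases h : z = z'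
  · refine ⟨p, Or.inr rfl, by omega, fun h' => hne (by rw [h, h'])⟩
  · exact ⟨z, Or.inl rfl, h, by omega⟩

theorem mem_UU_z (F : HG) {z : ℕ} (hz : z ∈ Icc 2 17) : z ∈ UU F := by
  rw [Finset.mem_Icc] at hz
  exact n2c_UU F (by
    rw [Finset.mem_sdiff, Finset.mem_range]; refine ⟨by omega, ?_⟩
    simp only [Finset.mem_insert, Finset.mem_singleton]; omega)

/-- Two different extra edges `{0, z, p}`, `{0, z', p'}`.  If `z` or `z'` is in `{10..17}` then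
`loss ≥ 81/1024 + (1/2)(27/512) = 108/1024 > 6561/65536`.  Otherwise
`loss ≥ (3/2) 27/512 = 81/1024` and, as `E = {{0,z,p},{0,z',p'}}` does not involve `{10..17}`,
`gain ≤ (81/256) · pr (A independent, no e in E inside R + 0) ≤ (81/256)(81/256 - 81/1024) < 81/1024`. -/
theorem case_same0 (h3 : ∀ e ∈ F, e.card = 3) {z p z' p' : ℕ} (hz : z ∈ Icc 2 17) (hp : 18 ≤ p)
    (hz' : z' ∈ Icc 2 17) (hp' : 18 ≤ p') (hne : (z, p) ≠ (z', p')) (he : {0, z, p} ∈ Ex F)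
    (he' : {0, z', p'} ∈ Ex F) : gain F (Ex F) (Wd F) < loss F (Ex F) := by
  have hU := n2c_UU F
  have hpU : p ∈ UU F := n2c_mem he (by simp) (by omega) (by omega)
  have hpU' : p' ∈ UU F := n2c_mem he' (by simp) (by omega) (by omega)
  have hzU := mem_UU_z F hz
  have hzU' := mem_UU_z F hz'
  have hg := gain_le F (Ex F) (Wd F)
  have hl : pr (UU F) (fun R => Ind Am R ∧ ((z ∈ R ∧ p ∈ R) ∨ (z' ∈ R ∧ p' ∈ R))) ≤
      loss F (Ex F) := by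
    refine le_trans (pr_mono ?_) (loss_ge0 F _)
    rintro R _ ⟨h1, h2 | h2⟩
    · exact ⟨h1, _, he, sub_insert3 h2.1 h2.2⟩
    · exact ⟨h1, _, he', sub_insert3 h2.1 h2.2⟩
  obtain ⟨v, hv, hv1, hv2⟩ := exists_sep hz hp hz' hp' hne
  obtain ⟨w, hw, hw1, hw2⟩ := exists_sep hz' hp' hz hp (fun h => hne h.symm)
  have hvU : v ∈ UU F := by rcases hv with rfl | rfl <;> assumption
  have hwU : w ∈ UU F := by rcases hw with rfl | rfl <;> assumption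
  have k1 := union_ge (U := UU F) Am hv hvU hv1 hv2
  have k2 := union_ge (U := UU F) Am hw hwU hw1 hw2
  have k2' : pr (UU F) (fun R => Ind Am R ∧ ((z' ∈ R ∧ p' ∈ R) ∨ (z ∈ R ∧ p ∈ R))) =
      pr (UU F) (fun R => Ind Am R ∧ ((z ∈ R ∧ p ∈ R) ∨ (z' ∈ R ∧ p' ∈ R))) :=
    pr_congr (fun R _ => by tauto)
  rw [k2'] at k2
  obtain ⟨a1, b1⟩ := Am_ge hU hz hpU hp
  obtain ⟨a2, b2⟩ := Am_ge hU hz' hpU' hp'
  have hnum : (6561 / 65536 : ℝ) < 108 / 1024 := by norm_num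
  by_cases c1 : z ∈ Icc 10 17
  · have := b1 c1; linarith
  by_cases c2 : z' ∈ Icc 10 17
  · have := b2 c2; linarith
  rw [Finset.mem_Icc] at hz hz' c1 c2
  have hg2 : gain F (Ex F) (Wd F) ≤ pr (UU F) (fun R => Ind Am R ∧
      ¬ ((z ∈ R ∧ p ∈ R) ∨ (z' ∈ R ∧ p' ∈ R))) * (81 / 256) := by
    rw [← pr_indep_B hU (fun R => Ind Am R ∧ ¬ ((z ∈ R ∧ p ∈ R) ∨ (z' ∈ R ∧ p' ∈ R))) (by
      intro R
      have hA : Ind Am R ↔ Ind Am (R \ Icc 10 17) := by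
        unfold Ind
        refine forall₂_congr (fun e he => not_congr ?_)
        constructor
        · intro hs x hx
          rw [Finset.mem_sdiff, Finset.mem_Icc]
          refine ⟨hs hx, ?_⟩
          have : x ∈ Icc 2 9 := by
            simp only [Am, Finset.mem_insert, Finset.mem_singleton] at he
            rcases he with rfl | rfl | rfl | rfl <;>
              (simp only [Finset.mem_insert, Finset.mem_singleton] at hx;
               rw [Finset.mem_Icc]; omega)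
          rw [Finset.mem_Icc] at this
          omega
        · intro hs; exact hs.trans Finset.sdiff_subset
      have m : ∀ x : ℕ, ¬ (10 ≤ x ∧ x ≤ 17) → (x ∈ R \ Icc 10 17 ↔ x ∈ R) := by
        intro x hx
        rw [Finset.mem_sdiff, Finset.mem_Icc]; tauto
      rw [← hA, m z c1, m z' c2, m p (by omega), m p' (by omega)])]
    refine pr_mono (fun R _ h => ⟨⟨h.1, ?_⟩, h.2.1⟩)
    rintro (h' | h')
    · exact h.2.2.2 _ he (sub_insert01 (Or.inl rfl) h'.1 h'.2)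
    · exact h.2.2.2 _ he' (sub_insert01 (Or.inl rfl) h'.1 h'.2)
  have hsum : pr (UU F) (fun R => Ind Am R ∧ ((z ∈ R ∧ p ∈ R) ∨ (z' ∈ R ∧ p' ∈ R))) +
      pr (UU F) (fun R => Ind Am R ∧ ¬ ((z ∈ R ∧ p ∈ R) ∨ (z' ∈ R ∧ p' ∈ R))) = 81 / 256 := by
    rw [← pr_add_of_disjoint (fun R _ h => h.2.2 h.1.2), ← pr_Am hU]
    exact pr_congr (fun R _ => by tauto)
  linarith

theorem case_same1 (h3 : ∀ e ∈ F, e.card = 3) {z p z' p' : ℕ} (hz : z ∈ Icc 2 17) (hp : 18 ≤ p)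
    (hz' : z' ∈ Icc 2 17) (hp' : 18 ≤ p') (hne : (z, p) ≠ (z', p')) (he : {1, z, p} ∈ Ex F)
    (he' : {1, z', p'} ∈ Ex F) : gain F (Ex F) (Wd F) < loss F (Ex F) := by
  have hU := n2c_UU F
  have hpU : p ∈ UU F := n2c_mem he (by simp) (by omega) (by omega)
  have hpU' : p' ∈ UU F := n2c_mem he' (by simp) (by omega) (by omega)
  have hzU := mem_UU_z F hz
  have hzU' := mem_UU_z F hz'
  have hg := gain_le F (Ex F) (Wd F)
  have hl : pr (UU F) (fun R => Ind Bm R ∧ ((z ∈ R ∧ p ∈ R) ∨ (z' ∈ R ∧ p' ∈ R))) ≤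
      loss F (Ex F) := by
    refine le_trans (pr_mono ?_) (loss_ge1 F _)
    rintro R _ ⟨h1, h2 | h2⟩
    · exact ⟨h1, _, he, sub_insert3 h2.1 h2.2⟩
    · exact ⟨h1, _, he', sub_insert3 h2.1 h2.2⟩
  obtain ⟨v, hv, hv1, hv2⟩ := exists_sep hz hp hz' hp' hne
  obtain ⟨w, hw, hw1, hw2⟩ := exists_sep hz' hp' hz hp (fun h => hne h.symm)
  have hvU : v ∈ UU F := by rcases hv with rfl | rfl <;> assumption
  have hwU : w ∈ UU F := by rcases hw with rfl | rfl <;> assumption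
  have k1 := union_ge (U := UU F) Bm hv hvU hv1 hv2
  have k2 := union_ge (U := UU F) Bm hw hwU hw1 hw2
  have k2' : pr (UU F) (fun R => Ind Bm R ∧ ((z' ∈ R ∧ p' ∈ R) ∨ (z ∈ R ∧ p ∈ R))) =
      pr (UU F) (fun R => Ind Bm R ∧ ((z ∈ R ∧ p ∈ R) ∨ (z' ∈ R ∧ p' ∈ R))) :=
    pr_congr (fun R _ => by tauto)
  rw [k2'] at k2
  obtain ⟨a1, b1⟩ := Bm_ge hU hz hpU hp
  obtain ⟨a2, b2⟩ := Bm_ge hU hz' hpU' hp'
  have hnum : (6561 / 65536 : ℝ) < 108 / 1024 := by norm_num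
  by_cases c1 : z ∈ Icc 2 9
  · have := b1 c1; linarith
  by_cases c2 : z' ∈ Icc 2 9
  · have := b2 c2; linarith
  rw [Finset.mem_Icc] at hz hz' c1 c2
  have hg2 : gain F (Ex F) (Wd F) ≤ pr (UU F) (fun R => Ind Bm R ∧
      ¬ ((z ∈ R ∧ p ∈ R) ∨ (z' ∈ R ∧ p' ∈ R))) * (81 / 256) := by
    rw [← pr_indep_A hU (fun R => Ind Bm R ∧ ¬ ((z ∈ R ∧ p ∈ R) ∨ (z' ∈ R ∧ p' ∈ R))) (by
      intro R
      have hA : Ind Bm R ↔ Ind Bm (R \ Icc 2 9) := by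
        unfold Ind
        refine forall₂_congr (fun e he => not_congr ?_)
        constructor
        · intro hs x hx
          rw [Finset.mem_sdiff, Finset.mem_Icc]
          refine ⟨hs hx, ?_⟩
          have : x ∈ Icc 10 17 := by
            simp only [Bm, Finset.mem_insert, Finset.mem_singleton] at he
            rcases he with rfl | rfl | rfl | rfl <;>
              (simp only [Finset.mem_insert, Finset.mem_singleton] at hx;
               rw [Finset.mem_Icc]; omega)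
          rw [Finset.mem_Icc] at this
          omega
        · intro hs; exact hs.trans Finset.sdiff_subset
      have m : ∀ x : ℕ, ¬ (2 ≤ x ∧ x ≤ 9) → (x ∈ R \ Icc 2 9 ↔ x ∈ R) := by
        intro x hx
        rw [Finset.mem_sdiff, Finset.mem_Icc]; tauto
      rw [← hA, m z c1, m z' c2, m p (by omega), m p' (by omega)])]
    refine pr_mono (fun R _ h => ⟨⟨h.2.1, ?_⟩, h.1⟩)
    rintro (h' | h')
    · exact h.2.2.2 _ he (sub_insert01 (Or.inr rfl) h'.1 h'.2)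
    · exact h.2.2.2 _ he' (sub_insert01 (Or.inr rfl) h'.1 h'.2)
  have hsum : pr (UU F) (fun R => Ind Bm R ∧ ((z ∈ R ∧ p ∈ R) ∨ (z' ∈ R ∧ p' ∈ R))) +
      pr (UU F) (fun R => Ind Bm R ∧ ¬ ((z ∈ R ∧ p ∈ R) ∨ (z' ∈ R ∧ p' ∈ R))) = 81 / 256 := by
    rw [← pr_add_of_disjoint (fun R _ h => h.2.2 h.1.2), ← pr_Bm hU]
    exact pr_congr (fun R _ => by tauto)
  linarith

end Pool.Agent.IDX
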