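import Pool.Agent.IDX.N2b

/-! Row IDX-N2d1: the gain for one extra edge -/

open Finset

namespace Pool.Agent.IDX

theorem N2d1_peel {U : Finset ℕ} {v : ℕ} (hv : v ∉ U) (q : Finset ℕ → Prop) :
    pr (insert v U) q = (pr U q + pr U (fun R => q (insert v R))) / 2 := by
  have h := pr_split (U := insert v U) (T := {v}) (singleton_subset_iff.mpr (mem_insert_self v U)) q
  have h1 : (insert v U) \ {v} = U := by
    rw [sdiff_singleton_eq_erase, erase_insert hv]
  have h2 : ({v} : Finset ℕ).powerset = {∅, {v}} := by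
    ext s
    rw [mem_powerset, mem_insert, mem_singleton, subset_singleton_iff]
  rw [h1, h2, sum_pair (singleton_ne_empty v).symm, card_singleton, pow_one] at h
  simp only [empty_union, singleton_union] at h
  exact h

open Classical in
theorem N2d1_empty (q : Finset ℕ → Prop) : pr ∅ q = if q ∅ then 1 else 0 := by
  unfold pr
  rw [powerset_empty, filter_singleton]
  split_ifs <;> simp

/-- A pair and a set: the probability that not both of `x ≠ y` are in `R` and `R` avoids `W`. -/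
theorem pr_pair {x y : ℕ} (h : x ≠ y) (W : Finset ℕ) :
    let v := pr {x, y} (fun R => ¬ (x ∈ R ∧ y ∈ R) ∧ Disjoint R W)
    v = 3 / 4 ∨ v = 1 / 2 ∨ v = 1 / 4 := by
  intro v
  have hv : v = pr {x, y} (fun R => ¬ (x ∈ R ∧ y ∈ R) ∧ Disjoint R W) := rfl
  have e1 : ({x, y} : Finset ℕ) = insert x (insert y ∅) := by simp
  have k1 : x ∉ (insert y ∅ : Finset ℕ) := by simp [h]
  have k2 : y ∉ (∅ : Finset ℕ) := by simp
  rw [e1] at hv
  simp only [N2d1_peel k1, N2d1_peel k2] at hv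
  simp only [N2d1_empty] at hv
  by_cases hx : x ∈ W <;> by_cases hy : y ∈ W <;>
    simp [hx, hy, h, h.symm] at hv <;> rw [hv] <;> norm_num

/-- A triple: not `z, z'` both, not `z, p` both, `R` avoids `W`. -/
theorem pr_triple {z z' p : ℕ} (h1 : z ≠ z') (h2 : z ≠ p) (h3 : z' ≠ p) (W : Finset ℕ) :
    let v := pr {z, z', p} (fun R => ¬ (z ∈ R ∧ z' ∈ R) ∧ ¬ (z ∈ R ∧ p ∈ R) ∧ Disjoint R W)
    v = 5 / 8 ∨ v = 3 / 8 ∨ v = 1 / 2 ∨ v = 1 / 4 ∨ v = 1 / 8 := by
  intro v
  have hv : v = pr {z, z', p}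
    (fun R => ¬ (z ∈ R ∧ z' ∈ R) ∧ ¬ (z ∈ R ∧ p ∈ R) ∧ Disjoint R W) := rfl
  have e1 : ({z, z', p} : Finset ℕ) = insert z (insert z' (insert p ∅)) := by simp
  have k1 : z ∉ (insert z' (insert p ∅) : Finset ℕ) := by simp [h1, h2]
  have k2 : z' ∉ (insert p ∅ : Finset ℕ) := by simp [h3]
  have k3 : p ∉ (∅ : Finset ℕ) := by simp
  rw [e1] at hv
  simp only [N2d1_peel k1, N2d1_peel k2, N2d1_peel k3] at hv
  simp only [N2d1_empty] at hv
  by_cases hz : z ∈ W <;> by_cases hz' : z' ∈ W <;> by_cases hp : p ∈ W <;>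
    simp [hz, hz', hp, h1, h2, h3, h1.symm, h2.symm, h3.symm] at hv <;> rw [hv] <;> norm_num

theorem N2d1_prod {n : ℕ} (B : Fin n → Finset ℕ) (q : Fin n → Finset ℕ → Prop)
    (hd : ∀ i j, i ≠ j → Disjoint (B i) (B j)) (s : Finset (Fin n)) :
    pr (s.biUnion B) (fun R => ∀ i ∈ s, q i (R ∩ B i)) = ∏ i ∈ s, pr (B i) (q i) := by
  induction s using Finset.induction_on with
  | empty =>
    rw [prod_empty, ← pr_true (∅ : Finset ℕ)]
    rw [biUnion_empty]
    apply pr_congr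
    intro R _
    simp
  | insert a s ha ih =>
    have hdis : Disjoint (B a) (s.biUnion B) := by
      rw [disjoint_biUnion_right]
      intro i hi
      apply hd
      rintro rfl
      exact ha hi
    rw [biUnion_insert, prod_insert ha, ← ih, ← pr_mul hdis]
    apply pr_congr
    intro R _
    rw [forall_mem_insert]
    apply and_congr Iff.rfl
    apply forall₂_congr
    intro i hi
    have h1 : R ∩ s.biUnion B ∩ B i = R ∩ B i := by
      rw [inter_assoc, inter_eq_right.mpr (subset_biUnion_of_mem B hi)]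
    rw [h1]

theorem N2d1_avoid (U W : Finset ℕ) : pr U (fun R => Disjoint R W) = 1 / 2 ^ (U ∩ W).card := by
  rw [← pr_inter_empty (U := U) (X := U ∩ W) inter_subset_left]
  apply pr_congr
  intro R hR
  rw [disjoint_iff_inter_eq_empty, ← inter_assoc, inter_eq_left.mpr hR]

theorem N2d1_Am {R : Finset ℕ} : Ind Am R ↔ ¬ (2 ∈ R ∧ 3 ∈ R) ∧ ¬ (4 ∈ R ∧ 5 ∈ R) ∧
    ¬ (6 ∈ R ∧ 7 ∈ R) ∧ ¬ (8 ∈ R ∧ 9 ∈ R) := by
  unfold Ind Am
  simp [insert_subset_iff]

theorem N2d1_Bm {R : Finset ℕ} : Ind Bm R ↔ ¬ (10 ∈ R ∧ 11 ∈ R) ∧ ¬ (12 ∈ R ∧ 13 ∈ R) ∧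
    ¬ (14 ∈ R ∧ 15 ∈ R) ∧ ¬ (16 ∈ R ∧ 17 ∈ R) := by
  unfold Ind Bm
  simp [insert_subset_iff]

theorem N2d1_AB {R : Finset ℕ} : (Ind Am R ∧ Ind Bm R) ↔
    ∀ i : Fin 8, ¬ (2 + 2 * i.val ∈ R ∧ 3 + 2 * i.val ∈ R) := by
  rw [N2d1_Am, N2d1_Bm, Fin.forall_fin_succ, Fin.forall_fin_succ, Fin.forall_fin_succ,
    Fin.forall_fin_succ, Fin.forall_fin_succ, Fin.forall_fin_succ, Fin.forall_fin_succ,
    Fin.forall_fin_succ]
  simp
  tauto

/-- The product formula: seven pairs, one triple, and the other vertices of `W`. -/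
theorem gain_single {F : HG} {a z p : ℕ} (ha : a = 0 ∨ a = 1) (hz : z ∈ Icc 2 17) (hp : 18 ≤ p)
    (hpF : p ∈ vx F) (W : Finset ℕ) (hW : W ⊆ UU F) :
    ∃ (v : ℝ) (w : Fin 7 → ℝ) (k : ℕ), (v = 5 / 8 ∨ v = 3 / 8 ∨ v = 1 / 2 ∨ v = 1 / 4 ∨ v = 1 / 8) ∧
      (∀ i, w i = 3 / 4 ∨ w i = 1 / 2 ∨ w i = 1 / 4) ∧
      gain F {{a, z, p}} W = v * (∏ i, w i) / 2 ^ k := by
  rw [mem_Icc] at hz
  -- the pair of `z`
  obtain ⟨i0, z', hz', hz'2, hpair⟩ : ∃ (i0 : Fin 8) (z' : ℕ), z ≠ z' ∧ (2 ≤ z' ∧ z' ≤ 17) ∧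
      (({z, z'} : Finset ℕ) = {2 + 2 * i0.val, 3 + 2 * i0.val}) := by
    rcases Nat.even_or_odd z with h | h
    · obtain ⟨c, hc⟩ := h
      refine ⟨⟨c - 1, by omega⟩, z + 1, by omega, by omega, ?_⟩
      have h1 : 2 + 2 * (c - 1) = z := by omega
      have h2 : 3 + 2 * (c - 1) = z + 1 := by omega
      rw [h1, h2]
    · obtain ⟨c, hc⟩ := h
      refine ⟨⟨c - 1, by omega⟩, z - 1, by omega, by omega, ?_⟩
      have h1 : 2 + 2 * (c - 1) = z - 1 := by omega
      have h2 : 3 + 2 * (c - 1) = z := by omega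
      rw [h1, h2, pair_comm]
  have hzp : z ≠ p := by omega
  have hzp' : z' ≠ p := by omega
  set B : Fin 8 → Finset ℕ := fun i =>
    if i = i0 then {z, z', p} else {2 + 2 * i.val, 3 + 2 * i.val} with hB
  set q : Fin 8 → Finset ℕ → Prop := fun i S =>
    if i = i0 then (¬ (z ∈ S ∧ z' ∈ S) ∧ ¬ (z ∈ S ∧ p ∈ S) ∧ Disjoint S W) else
      (¬ (2 + 2 * i.val ∈ S ∧ 3 + 2 * i.val ∈ S) ∧ Disjoint S W) with hq
  set Re : Finset ℕ := UU F \ univ.biUnion B with hRe
  have hB0 : B i0 = {z, z', p} := by simp [hB]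
  have hB1 : ∀ i, i ≠ i0 → B i = {2 + 2 * i.val, 3 + 2 * i.val} := by
    intro i hi
    simp [hB, hi]
  have hBsub : ∀ i : Fin 8, ({2 + 2 * i.val, 3 + 2 * i.val} : Finset ℕ) ⊆ B i := by
    intro i
    by_cases hi : i = i0
    · subst hi
      rw [hB0, ← hpair]
      intro x hx
      rw [mem_insert, mem_singleton] at hx
      rcases hx with rfl | rfl <;> simp
    · rw [hB1 i hi]
  have hBlt : ∀ i : Fin 8, ∀ x ∈ B i, x ∈ ({2 + 2 * i.val, 3 + 2 * i.val} : Finset ℕ) ∨
      (i = i0 ∧ x = p) := by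
    intro i x hx
    by_cases hi : i = i0
    · subst hi
      rw [hB0] at hx
      rw [← hpair]
      simp only [mem_insert, mem_singleton] at hx ⊢
      tauto
    · rw [hB1 i hi] at hx
      exact Or.inl hx
  have hdB : ∀ i j, i ≠ j → Disjoint (B i) (B j) := by
    intro i j hij
    rw [disjoint_left]
    intro x hxi hxj
    have hij' : i.val ≠ j.val := fun h => hij (Fin.ext h)
    have hi8 := i.isLt
    have hj8 := j.isLt
    rcases hBlt i x hxi with h1 | ⟨h1, h1'⟩ <;> rcases hBlt j x hxj with h2 | ⟨h2, h2'⟩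
    · simp only [mem_insert, mem_singleton] at h1 h2
      omega
    · simp only [mem_insert, mem_singleton] at h1
      omega
    · simp only [mem_insert, mem_singleton] at h2
      omega
    · exact hij (h1.trans h2.symm)
  have hBU : univ.biUnion B ⊆ UU F := by
    intro x hx
    rw [mem_biUnion] at hx
    obtain ⟨i, _, hxi⟩ := hx
    have hi8 := i.isLt
    unfold UU
    rw [mem_sdiff, mem_union]
    rcases hBlt i x hxi with h1 | ⟨_, h1'⟩
    · simp only [mem_insert, mem_singleton] at h1 ⊢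
      rw [mem_range]
      omega
    · rw [h1']
      refine ⟨Or.inl hpF, ?_⟩
      simp only [mem_insert, mem_singleton]
      omega
  have hU : UU F = univ.biUnion B ∪ Re := by
    rw [hRe, union_sdiff_of_subset hBU]
  have hdis : Disjoint (univ.biUnion B) Re := disjoint_sdiff
  have hmain : gain F {{a, z, p}} W =
      (∏ i ∈ (univ : Finset (Fin 8)), pr (B i) (q i)) * pr Re (fun R => Disjoint R W) := by
    rw [← N2d1_prod B q hdB univ, ← pr_mul hdis, ← hU]
    unfold gain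
    apply pr_congr
    intro R hR
    have hR01 : 0 ∉ R ∧ 1 ∉ R := by
      constructor
      · intro h
        have := hR h
        unfold UU at this
        simp at this
      · intro h
        have := hR h
        unfold UU at this
        simp at this
    have hedge : (∀ e ∈ ({{a, z, p}} : HG), ¬ e ⊆ insert 0 (insert 1 R)) ↔ ¬ (z ∈ R ∧ p ∈ R) := by
      have hz0 : z ≠ 0 ∧ z ≠ 1 := by omega
      have hp0 : p ≠ 0 ∧ p ≠ 1 := by omega
      simp only [mem_singleton, forall_eq, insert_subset_iff, singleton_subset_iff, mem_insert]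
      constructor
      · intro h h'
        exact h ⟨by tauto, Or.inr (Or.inr h'.1), Or.inr (Or.inr h'.2)⟩
      · rintro h ⟨_, h1, h2⟩
        exact h ⟨by tauto, by tauto⟩
    rw [hedge, ← and_assoc, N2d1_AB]
    have hB_iff : ∀ i : Fin 8, (q i (R ∩ univ.biUnion B ∩ B i) ↔
        (¬ (2 + 2 * i.val ∈ R ∧ 3 + 2 * i.val ∈ R) ∧ Disjoint (R ∩ B i) W ∧
          (i = i0 → ¬ (z ∈ R ∧ p ∈ R)))) := by
      intro i
      have h1 : R ∩ univ.biUnion B ∩ B i = R ∩ B i := by
        rw [inter_assoc, inter_eq_right.mpr (subset_biUnion_of_mem B (mem_univ i))]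
      rw [h1]
      have hpq : (2 + 2 * i.val ∈ R ∧ 3 + 2 * i.val ∈ R) ↔
          (({2 + 2 * i.val, 3 + 2 * i.val} : Finset ℕ) ⊆ R) := by
        rw [insert_subset_iff, singleton_subset_iff]
      by_cases hi : i = i0
      · subst hi
        have hq0 : q i (R ∩ B i) ↔ (¬ (z ∈ R ∩ B i ∧ z' ∈ R ∩ B i) ∧
          ¬ (z ∈ R ∩ B i ∧ p ∈ R ∩ B i) ∧ Disjoint (R ∩ B i) W) := by
          simp [hq]
        rw [hq0, hpq, ← hpair, insert_subset_iff, singleton_subset_iff]
        have hzB : z ∈ B i := by rw [hB0]; simp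
        have hzB' : z' ∈ B i := by rw [hB0]; simp
        have hpB : p ∈ B i := by rw [hB0]; simp
        simp only [mem_inter, hzB, hzB', hpB, and_true, forall_true_left, true_imp_iff]
        tauto
      · have hq1 : q i (R ∩ B i) ↔ (¬ (2 + 2 * i.val ∈ R ∩ B i ∧ 3 + 2 * i.val ∈ R ∩ B i) ∧
          Disjoint (R ∩ B i) W) := by
          simp [hq, hi]
        rw [hq1]
        have h2 : 2 + 2 * i.val ∈ B i := hBsub i (by simp)
        have h3 : 3 + 2 * i.val ∈ B i := hBsub i (by simp)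
        simp only [mem_inter, h2, h3, and_true, hi, false_imp_iff, true_and]
    constructor
    · rintro ⟨h1, h2, h3⟩
      refine ⟨?_, h2.mono_left inter_subset_left⟩
      intro i _
      exact (hB_iff i).mpr ⟨h1 i, h2.mono_left inter_subset_left, fun _ => h3⟩
    · rintro ⟨h1, h2⟩
      have h1' := fun i => (hB_iff i).mp (h1 i (mem_univ i))
      refine ⟨fun i => (h1' i).1, ?_, (h1' i0).2.2 rfl⟩
      rw [disjoint_left]
      intro x hxR hxW
      have hxU := hR hxR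
      rw [hU, mem_union] at hxU
      rcases hxU with h | h
      · rw [mem_biUnion] at h
        obtain ⟨i, _, hi⟩ := h
        exact disjoint_left.mp (h1' i).2.1 (mem_inter.mpr ⟨hxR, hi⟩) hxW
      · exact disjoint_left.mp h2 (mem_inter.mpr ⟨hxR, h⟩) hxW
  refine ⟨pr (B i0) (q i0), fun i => pr (B (i0.succAbove i)) (q (i0.succAbove i)), (Re ∩ W).card,
    ?_, ?_, ?_⟩
  · have h1 := pr_triple hz' hzp hzp' W
    have h2 : pr (B i0) (q i0) =
        pr {z, z', p} (fun R => ¬ (z ∈ R ∧ z' ∈ R) ∧ ¬ (z ∈ R ∧ p ∈ R) ∧ Disjoint R W) := by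
      rw [hB0]
      apply pr_congr
      intro R _
      simp [hq]
    rw [h2]
    exact h1
  · intro i
    have hi : i0.succAbove i ≠ i0 := Fin.succAbove_ne i0 i
    have h1 := pr_pair (x := 2 + 2 * (i0.succAbove i).val) (y := 3 + 2 * (i0.succAbove i).val)
      (by omega) W
    have h2 : pr (B (i0.succAbove i)) (q (i0.succAbove i)) =
        pr {2 + 2 * (i0.succAbove i).val, 3 + 2 * (i0.succAbove i).val}
          (fun R => ¬ (2 + 2 * (i0.succAbove i).val ∈ R ∧ 3 + 2 * (i0.succAbove i).val ∈ R) ∧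
            Disjoint R W) := by
      rw [hB1 _ hi]
      apply pr_congr
      intro R _
      simp [hq, hi]
    show pr (B (i0.succAbove i)) (q (i0.succAbove i)) = 3 / 4 ∨ pr (B (i0.succAbove i)) (q (i0.succAbove i)) = 1 / 2 ∨
      pr (B (i0.succAbove i)) (q (i0.succAbove i)) = 1 / 4
    rw [h2]
    exact h1
  · rw [hmain, Fin.prod_univ_succAbove _ i0, N2d1_avoid]
    ring

end Pool.Agent.IDX
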