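import Pool.Agent.IDX.M3

/-! The set-up of the main theorem: all subsets of `range n` are blocks; a segment
`A = [sg, el)` of good windows. -/

open Finset

namespace Pool.Agent.IDX

/-- A segment of good windows. -/
structure Seg extends SysD where
  /-- `q = n + p` -/
  p : ℕ
  /-- lower end of the segment -/
  sg : ℕ
  /-- upper end of the segment -/
  el : ℕ
  /-- the centre of a window of the segment -/
  vv : ℕ → ℕ
  hpow : BB = (range n).powerset
  hp : q = n + p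
  hk1 : (c : ℝ) / 2 ^ P ≤ 1 / 2 ^ n
  hk2 : 1 / 2 ^ (n + p) ≤ (c : ℝ) / 2 ^ P
  hse : sg < el
  hel : el ≤ n
  hvv : ∀ i ∈ Ico sg el, vv i ∈ Γ ∧ toSysD.lev (vv i) = i + 1 ∧ vv i ∉ toSys.T0
  huniq : ∀ i ∈ Ico sg el, ∀ v ∈ Γ, toSysD.lev v = i + 1 → v = vv i
  hQ : ∀ i ∈ Ico sg el, ∀ Q ∈ toSys.K2, toSysD.levQ Q ≠ i + 1

namespace Seg

variable (s : Seg)

/-- The windows of the segment. -/
def A : Finset ℕ := Ico s.sg s.el

/-- The centres of the segment. -/
def JA : Finset ℕ := s.A.image s.vv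

/-- The centres above the segment. -/
def Jg : Finset ℕ := s.Γ.filter (fun v => s.el < s.lev v)

/-- The germs above the segment. -/
def Qg : HG := s.K2.filter (fun Q => s.el < s.levQ Q)

def JJ : Finset ℕ := s.JA ∪ s.Jg

/-- Neighbours of the centre `vv j` outside `JJ`. -/
def Nf (j : ℕ) : Finset ℕ := (vx s.G \ s.JJ).filter (fun w => {s.vv j, w} ∈ s.G)

/-- Germs having the centre `vv j` as a petal. -/
def Lam (j : ℕ) : HG := s.K2.filter (fun Q => Disjoint Q s.JJ ∧ insert (s.vv j) Q ∈ s.F)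

/-- The rest of the hypergraph. -/
def HH : HG := del (s.F ∪ s.G ∪ s.Qg) s.JJ

/-- `g(T)` -/
noncomputable def gg (T : Finset ℕ) : ℝ := dn (del (s.HH ∪ T.biUnion s.Lam) (T.biUnion s.Nf))

/-- `κ Π_s` -/
noncomputable def kap : ℝ := (s.c : ℝ) / 2 ^ s.P * ∑ D ∈ (range s.sg).powerset, (1 : ℝ) / 2 ^ num s.B D

/-- The part of `dn F - dn K` at levels `≤ sg`. -/
noncomputable def eps0 : ℝ :=
  ∑ S ∈ s.Se.filter (fun S => top (s.Ef S) ≤ s.sg), (1 : ℝ) / 2 ^ (s.T0.card + s.z S)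

end Seg

end Pool.Agent.IDX
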