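import Pool.Agent.IDX.P1a

/-! Row IDX-P1b: digits of low states -/

open Finset

namespace Pool.Agent.IDX

namespace Seg

variable (s : Seg)

/-- the arithmetic of the error terms -/
theorem P1b_arith {Th B X : ℕ} (h10 : 10 ≤ Th) (hB : Th ^ 8 ≤ B) (hX : 1 ≤ X) :
    4 * (Th ^ 2 * (3 * X + 3 * Th) + X) + 4 * X < X * B := by
  have h1 : 12 * Th ^ 2 + 12 * Th ^ 3 + 8 < Th ^ 8 := by
    have h3 : 10 * Th ^ 2 ≤ Th ^ 3 := by
      calc 10 * Th ^ 2 ≤ Th * Th ^ 2 := Nat.mul_le_mul_right _ h10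
        _ = Th ^ 3 := by ring
    have h4 : 10 * Th ^ 3 ≤ Th ^ 4 := by
      calc 10 * Th ^ 3 ≤ Th * Th ^ 3 := Nat.mul_le_mul_right _ h10
        _ = Th ^ 4 := by ring
    have h5 : 10 * Th ^ 4 ≤ Th ^ 5 := by
      calc 10 * Th ^ 4 ≤ Th * Th ^ 4 := Nat.mul_le_mul_right _ h10
        _ = Th ^ 5 := by ring
    have h8 : Th ^ 5 ≤ Th ^ 8 := Nat.pow_le_pow_right (by omega) (by norm_num)
    have h2 : 100 ≤ Th ^ 2 := by
      calc 100 = 10 ^ 2 := by norm_num
        _ ≤ Th ^ 2 := Nat.pow_le_pow_left h10 2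
    omega
  have h2 : 4 * (Th ^ 2 * (3 * X + 3 * Th) + X) + 4 * X ≤ X * (12 * Th ^ 2 + 12 * Th ^ 3 + 8) := by
    have h3 : 12 * Th ^ 3 ≤ X * (12 * Th ^ 3) := Nat.le_mul_of_pos_left _ hX
    calc 4 * (Th ^ 2 * (3 * X + 3 * Th) + X) + 4 * X
        = X * (12 * Th ^ 2 + 8) + 12 * Th ^ 3 := by ring
      _ ≤ X * (12 * Th ^ 2 + 8) + X * (12 * Th ^ 3) := Nat.add_le_add_left h3 _
      _ = X * (12 * Th ^ 2 + 12 * Th ^ 3 + 8) := by ring
  calc _ ≤ X * (12 * Th ^ 2 + 12 * Th ^ 3 + 8) := h2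
    _ < X * Th ^ 8 := Nat.mul_lt_mul_of_pos_left h1 hX
    _ ≤ X * B := Nat.mul_le_mul_left X hB

theorem P1b_bounds : s.Γ.card + s.C ^ 2 ≤ s.Th ∧ s.n ≤ s.Th ∧ s.P + s.N ≤ s.Th ∧ s.Γ.card ≤ s.Th := by
  have := s.hTh
  refine ⟨?_, ?_, ?_, ?_⟩ <;> omega

/-- the sizes of the elements of a low state -/
theorem P1b_upper {S : Finset ℕ} (hS : S ∈ s.St) (h : top (s.Df S) ≤ s.el) :
    s.f S ≤ num s.B (s.A.filter (fun i => s.vv i ∈ S)) +
      s.Th ^ 2 * (3 * s.B ^ s.sg + 3 * s.Th) := by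
  classical
  obtain ⟨hb1, hb2, hb3, hb4⟩ := s.P1b_bounds
  have hSΓ : S ⊆ s.Γ := (s.mem_St.mp hS).1
  have h10 : 10 ≤ s.Th := s.Th_ge
  have hBpos : 1 ≤ s.B := by
    have := s.B_ge
    omega
  -- vertices
  have hV : ∑ v ∈ S, (s.No v).card ≤ num s.B (s.A.filter (fun i => s.vv i ∈ S)) + s.n * s.Th +
      s.Γ.card * (2 * s.B ^ s.sg + s.Th) := by
    rw [← Finset.sum_filter_add_sum_filter_not S (fun v => s.lev v ≤ s.sg)]
    have h1 : ∑ v ∈ S.filter (fun v => s.lev v ≤ s.sg), (s.No v).card ≤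
        s.Γ.card * (2 * s.B ^ s.sg + s.Th) := by
      calc ∑ v ∈ S.filter (fun v => s.lev v ≤ s.sg), (s.No v).card
          ≤ ∑ v ∈ S.filter (fun v => s.lev v ≤ s.sg), (2 * s.B ^ s.sg + s.Th) := by
            refine Finset.sum_le_sum fun v hv => ?_
            rw [Finset.mem_filter] at hv
            have h2 := s.No_le (hSΓ hv.1)
            have h3 : s.B ^ s.lev v ≤ s.B ^ s.sg := Nat.pow_le_pow_right hBpos hv.2
            omega
        _ = (S.filter (fun v => s.lev v ≤ s.sg)).card * (2 * s.B ^ s.sg + s.Th) := by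
            rw [Finset.sum_const, smul_eq_mul]
        _ ≤ s.Γ.card * (2 * s.B ^ s.sg + s.Th) := by
            refine Nat.mul_le_mul_right _ (Finset.card_le_card ?_)
            exact (Finset.filter_subset _ _).trans hSΓ
    have h2 : ∑ v ∈ S.filter (fun v => ¬ s.lev v ≤ s.sg), (s.No v).card ≤
        num s.B (s.A.filter (fun i => s.vv i ∈ S)) + s.n * s.Th := by
      have hsub : S.filter (fun v => ¬ s.lev v ≤ s.sg) ⊆
          (s.A.filter (fun i => s.vv i ∈ S)).image s.vv := by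
        intro v hv
        rw [Finset.mem_filter] at hv
        have h3 := s.lev_le_top hS hv.1
        obtain ⟨i, hi⟩ := Nat.exists_eq_succ_of_ne_zero (show s.lev v ≠ 0 by omega)
        have hi' : i ∈ Ico s.sg s.el := by
          rw [Finset.mem_Ico]
          have : s.lev v = i + 1 := hi
          omega
        have h4 : v = s.vv i := s.huniq i hi' v (hSΓ hv.1) hi
        rw [Finset.mem_image]
        exact ⟨i, Finset.mem_filter.mpr ⟨hi', h4 ▸ hv.1⟩, h4.symm⟩
      calc ∑ v ∈ S.filter (fun v => ¬ s.lev v ≤ s.sg), (s.No v).card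
          ≤ ∑ v ∈ (s.A.filter (fun i => s.vv i ∈ S)).image s.vv, (s.No v).card :=
            Finset.sum_le_sum_of_subset hsub
        _ = ∑ i ∈ s.A.filter (fun i => s.vv i ∈ S), (s.No (s.vv i)).card := by
            rw [Finset.sum_image]
            intro i hi j hj hij
            rw [Finset.mem_coe, Finset.mem_filter] at hi hj
            exact s.vv_inj (Finset.mem_coe.mpr hi.1) (Finset.mem_coe.mpr hj.1) hij
        _ ≤ ∑ i ∈ s.A.filter (fun i => s.vv i ∈ S), (s.B ^ (i + 1) + s.Th) := by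
            refine Finset.sum_le_sum fun i hi => ?_
            rw [Finset.mem_filter] at hi
            have h5 := (s.No_single (hSΓ hi.2) (s.Df_vv hi.1)).2
            omega
        _ = num s.B (s.A.filter (fun i => s.vv i ∈ S)) +
              (s.A.filter (fun i => s.vv i ∈ S)).card * s.Th := by
            rw [Finset.sum_add_distrib, Finset.sum_const, smul_eq_mul]
            rfl
        _ ≤ num s.B (s.A.filter (fun i => s.vv i ∈ S)) + s.n * s.Th := by
            refine Nat.add_le_add_left (Nat.mul_le_mul_right _ ?_) _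
            calc (s.A.filter (fun i => s.vv i ∈ S)).card ≤ s.A.card := Finset.card_filter_le _ _
              _ ≤ (range s.n).card := by
                refine Finset.card_le_card fun i hi => ?_
                have h6 := s.mem_A.mp hi
                have h7 := s.hel
                rw [Finset.mem_range]
                omega
              _ = s.n := Finset.card_range _
    omega
  -- germs
  have hQ : ∑ Q ∈ s.K2.filter (fun Q => Q ⊆ S), (s.Zo Q).card ≤
      s.C ^ 2 * (2 * s.B ^ s.sg + s.Th) := by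
    calc ∑ Q ∈ s.K2.filter (fun Q => Q ⊆ S), (s.Zo Q).card
        ≤ ∑ Q ∈ s.K2.filter (fun Q => Q ⊆ S), (2 * s.B ^ s.sg + s.Th) := by
          refine Finset.sum_le_sum fun Q hQ => ?_
          rw [Finset.mem_filter] at hQ
          have h3 := s.levQ_le_top hS hQ.1 hQ.2
          have h4 : s.levQ Q ≤ s.sg := by
            by_contra hcon
            obtain ⟨i, hi⟩ := Nat.exists_eq_succ_of_ne_zero (show s.levQ Q ≠ 0 by omega)
            have hi2 : s.levQ Q = i + 1 := hi
            exact s.hQ i (by rw [Finset.mem_Ico]; omega) Q hQ.1 hi2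
          have h5 := s.Z_le hQ.1
          have h6 := (s.Zo_card Q).1
          have h7 : s.B ^ s.levQ Q ≤ s.B ^ s.sg := Nat.pow_le_pow_right hBpos h4
          omega
      _ = (s.K2.filter (fun Q => Q ⊆ S)).card * (2 * s.B ^ s.sg + s.Th) := by
          rw [Finset.sum_const, smul_eq_mul]
      _ ≤ s.C ^ 2 * (2 * s.B ^ s.sg + s.Th) := by
          refine Nat.mul_le_mul_right _ ?_
          exact (Finset.card_filter_le _ _).trans s.K2_card
  have hf := s.f_le hS
  have h1 : s.Γ.card * (2 * s.B ^ s.sg + s.Th) + s.C ^ 2 * (2 * s.B ^ s.sg + s.Th) ≤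
      s.Th * (2 * s.B ^ s.sg + s.Th) := by
    rw [← Nat.add_mul]
    exact Nat.mul_le_mul_right _ hb1
  have h2 : s.n * s.Th ≤ s.Th * s.Th := Nat.mul_le_mul_right _ hb2
  have h3 : s.Th * s.Th + s.Th * (2 * s.B ^ s.sg + s.Th) ≤ s.Th ^ 2 * (3 * s.B ^ s.sg + 3 * s.Th) := by
    have h4 : s.Th ≤ s.Th ^ 2 := by
      rw [sq]
      exact Nat.le_mul_of_pos_left _ (by omega)
    have h5 : s.Th * (2 * s.B ^ s.sg) ≤ s.Th ^ 2 * (2 * s.B ^ s.sg) := Nat.mul_le_mul_right _ h4
    have h6 : s.Th * s.Th ≤ s.Th ^ 2 * s.Th := Nat.mul_le_mul_right _ h4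
    calc s.Th * s.Th + s.Th * (2 * s.B ^ s.sg + s.Th)
        = s.Th * (2 * s.B ^ s.sg) + (s.Th * s.Th + s.Th * s.Th) := by ring
      _ ≤ s.Th ^ 2 * (2 * s.B ^ s.sg) + (s.Th ^ 2 * s.Th + s.Th ^ 2 * s.Th) := by
        exact Nat.add_le_add h5 (Nat.add_le_add h6 h6)
      _ ≤ s.Th ^ 2 * (2 * s.B ^ s.sg) + (s.Th ^ 2 * s.Th + s.Th ^ 2 * s.Th) +
            (s.Th ^ 2 * s.B ^ s.sg + s.Th ^ 2 * s.Th) := Nat.le_add_right _ _
      _ = s.Th ^ 2 * (3 * s.B ^ s.sg + 3 * s.Th) := by ring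
  omega

/-- (A4) A state of level `≤ el` has digit `i ∈ A` iff it contains `vv i`. -/
theorem digits_low {S : Finset ℕ} (hS : S ∈ s.St) (h : top (s.Df S) ≤ s.el) :
    (s.Df S).filter (fun i => s.sg ≤ i) = s.A.filter (fun i => s.vv i ∈ S) := by
  classical
  have h10 : 10 ≤ s.Th := s.Th_ge
  have hTB : s.Th ^ 8 ≤ s.B := s.hB
  have hB10 : 10 ≤ s.B := s.B_ge
  have hTA : s.A.filter (fun i => s.vv i ∈ S) ⊆ s.A := Finset.filter_subset _ _
  have hlow : num s.B (s.A.filter (fun i => s.vv i ∈ S)) ≤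
      s.f S + s.Th ^ 2 * (3 * s.B ^ s.sg + 3 * s.Th) := by
    refine (s.union_ge hTA).trans (Nat.add_le_add_right ?_ _)
    show _ ≤ (kill (s.F ∪ s.G) s.Γ S).card
    rw [s.kill_St hS]
    refine Finset.card_le_card ?_
    refine subset_trans ?_ Finset.subset_union_left
    intro w hw
    rw [Finset.mem_biUnion] at hw ⊢
    obtain ⟨i, hi, hw⟩ := hw
    exact ⟨s.vv i, (Finset.mem_filter.mp hi).2, hw⟩
  have hup := s.P1b_upper hS h
  obtain ⟨hc1, hc2⟩ := s.Df_close hS
  have hThe : s.Th ≤ s.Th ^ 2 * (3 * s.B ^ s.sg + 3 * s.Th) := by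
    have h1 : 1 ≤ s.Th ^ 2 := Nat.one_le_pow _ _ (by omega)
    calc s.Th ≤ 3 * s.B ^ s.sg + 3 * s.Th := by omega
      _ ≤ s.Th ^ 2 * (3 * s.B ^ s.sg + 3 * s.Th) := Nat.le_mul_of_pos_left _ h1
  have hX : 1 ≤ s.B ^ s.sg := Nat.one_le_pow _ _ (by omega)
  have key := digits_eq_of_close (B := s.B) (s := s.sg) (m := s.el) (x := s.f S)
    (e := s.Th ^ 2 * (3 * s.B ^ s.sg + 3 * s.Th)) (by omega)
    (D := s.Df S) (E := s.A.filter (fun i => s.vv i ∈ S)) (top_le_iff.mp h) (by
      intro i hi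
      have := s.mem_A.mp (hTA hi)
      rw [Finset.mem_range]
      exact this.2) (by omega) (by omega) hlow hup (by
      rw [pow_succ]
      exact P1b_arith h10 hTB hX)
  rw [key]
  apply Finset.filter_true_of_mem
  intro i hi
  exact (s.mem_A.mp (hTA hi)).1

theorem P1b_Df_empty : s.Df ∅ = ∅ := by
  classical
  have hS := s.empty_mem_St
  have h10 : 10 ≤ s.Th := s.Th_ge
  have hTB : s.Th ^ 8 ≤ s.B := s.hB
  obtain ⟨hc1, hc2⟩ := s.Df_close hS
  have hf : s.f ∅ = 0 := by
    have h1 := s.f_le hS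
    rw [Finset.sum_empty, zero_add] at h1
    have h2 : s.K2.filter (fun Q => Q ⊆ ∅) = ∅ := by
      apply Finset.filter_false_of_mem
      intro Q hQ hsub
      have h3 := (s.mem_K2 hQ).2.1
      rw [Finset.subset_empty.mp hsub, Finset.card_empty] at h3
      omega
    rw [h2, Finset.sum_empty] at h1
    omega
  by_contra hne
  have hne' : (s.Df ∅).Nonempty := Finset.nonempty_iff_ne_empty.mpr hne
  have h1 := pow_top_le_num (B := s.B) hne'
  have h2 : 1 ≤ top (s.Df ∅) := by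
    rcases Nat.eq_zero_or_pos (top (s.Df ∅)) with h | h
    · exact absurd (top_eq_zero.mp h) hne
    · exact h
  have h3 : s.B ≤ s.B ^ top (s.Df ∅) := by
    calc s.B = s.B ^ 1 := (pow_one _).symm
      _ ≤ s.B ^ top (s.Df ∅) := Nat.pow_le_pow_right (by have := s.B_ge; omega) h2
  have h4 : s.Th < s.Th ^ 8 := by
    calc s.Th = s.Th ^ 1 := (pow_one _).symm
      _ < s.Th ^ 8 := Nat.pow_lt_pow_right (by omega) (by norm_num)
  omega

/-- The block of `vv(T)` is `T`: the state `S` with block `T` contains `vv(T)` by `digits_low`. -/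
theorem Df_image {T : Finset ℕ} (hT : T ⊆ s.A) : s.Df (T.image s.vv) = T := by
  classical
  rcases T.eq_empty_or_nonempty with rfl | hne
  · rw [Finset.image_empty]
    exact s.P1b_Df_empty
  have h10 : 10 ≤ s.Th := s.Th_ge
  have hTB : s.Th ^ 8 ≤ s.B := s.hB
  have hB10 : 10 ≤ s.B := s.B_ge
  have h2Th : 4 * s.Th < s.B := by
    have h4 : 10 * s.Th ≤ s.Th ^ 2 := by
      rw [sq]
      exact Nat.mul_le_mul_right _ h10
    have h5 : s.Th ^ 2 ≤ s.Th ^ 8 := Nat.pow_le_pow_right (by omega) (by norm_num)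
    omega
  have hTel : T ⊆ range s.el := by
    intro i hi
    rw [Finset.mem_range]
    exact (s.mem_A.mp (hT hi)).2
  have hTn : T ∈ s.BB := by
    rw [s.hpow, Finset.mem_powerset]
    intro i hi
    have h1 := (s.mem_A.mp (hT hi)).2
    have h2 := s.hel
    rw [Finset.mem_range]
    omega
  have htop1 : top T ≤ s.el := top_le_iff.mpr hTel
  have htop2 : s.sg < top T := by
    by_contra hcon
    obtain ⟨i, hi⟩ := hne
    have h1 := top_le_iff.mp (not_lt.mp hcon) hi
    rw [Finset.mem_range] at h1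
    have h2 := (s.mem_A.mp (hT hi)).1
    omega
  have hfilt : T.filter (fun i => s.sg ≤ i) = T := by
    apply Finset.filter_true_of_mem
    intro i hi
    exact (s.mem_A.mp (hT hi)).1
  rcases s.block_attained hTn with ⟨S, hS, hST⟩ | ⟨S, hS, hST⟩
  · have hd := s.digits_low hS (by rw [hST]; exact htop1)
    rw [hST, hfilt] at hd
    have hsub : T.image s.vv ⊆ S := by
      intro v hv
      rw [Finset.mem_image] at hv
      obtain ⟨i, hi, rfl⟩ := hv
      rw [hd, Finset.mem_filter] at hi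
      exact hi.2
    have hS0 := s.image_mem hT
    have hf := s.f_mono hS hsub
    obtain ⟨hc1, hc2⟩ := s.Df_close hS
    obtain ⟨hc3, hc4⟩ := s.Df_close hS0
    rw [hST] at hc1 hc2
    have hnum : num s.B (s.Df (T.image s.vv)) ≤ num s.B T + 2 * s.Th := by omega
    have hnl := num_le (B := s.B) (by omega) hTel
    have htop : top (s.Df (T.image s.vv)) ≤ s.el := by
      by_contra hcon
      have hne2 : (s.Df (T.image s.vv)).Nonempty := by
        rw [Finset.nonempty_iff_ne_empty]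
        intro h0
        rw [h0, top_empty] at hcon
        omega
      have h1 := pow_top_le_num (B := s.B) hne2
      have h2 : s.B ^ (s.el + 1) ≤ s.B ^ top (s.Df (T.image s.vv)) :=
        Nat.pow_le_pow_right (by omega) (by omega)
      rw [pow_succ] at h2
      have h3 : 1 ≤ s.B ^ s.el := Nat.one_le_pow _ _ (by omega)
      have h4 : s.B ^ s.el * 10 ≤ s.B ^ s.el * s.B := Nat.mul_le_mul_left _ hB10
      have h5 : 1 * s.B ≤ s.B ^ s.el * s.B := Nat.mul_le_mul_right _ h3
      have h6 : s.B ^ s.el * s.B ≤ 2 * s.B ^ s.el + 2 * s.Th := by omega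
      omega
    have hd2 := s.digits_low hS0 htop
    have hfil2 : s.A.filter (fun i => s.vv i ∈ T.image s.vv) = T := by
      ext i
      rw [Finset.mem_filter, Finset.mem_image]
      constructor
      · rintro ⟨hi, j, hj, hji⟩
        have : j = i := s.vv_inj (Finset.mem_coe.mpr (hT hj)) (Finset.mem_coe.mpr hi) hji
        exact this ▸ hj
      · intro hi
        exact ⟨hT hi, i, hi, rfl⟩
    rw [hfil2] at hd2
    have hTsub : T ⊆ s.Df (T.image s.vv) := by
      intro i hi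
      rw [← hd2] at hi
      exact (Finset.mem_filter.mp hi).1
    have hmono := num_mono (B := s.B) hTsub
    by_contra hne3
    rcases num_gap (B := s.B) (by omega) hne3 with h7 | h7 <;> omega
  · exfalso
    have h1 := s.top_Ef hS
    rw [hST] at h1
    omega

/-- A state has level `≤ el` iff it avoids `Jg` and contains no germ of `Qg`. -/
theorem low_iff {S : Finset ℕ} (hS : S ∈ s.St) :
    top (s.Df S) ≤ s.el ↔ Disjoint S s.Jg ∧ ∀ Q ∈ s.Qg, ¬ Q ⊆ S := by
  classical
  have hSΓ : S ⊆ s.Γ := (s.mem_St.mp hS).1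
  constructor
  · intro h
    refine ⟨?_, ?_⟩
    · rw [Finset.disjoint_left]
      intro v hv hvJ
      have h1 := s.lev_le_top hS hv
      have h2 := (Finset.mem_filter.mp hvJ).2
      omega
    · intro Q hQ hQS
      have h0 := Finset.mem_filter.mp hQ
      have h1 := s.levQ_le_top hS h0.1 hQS
      have h2 := h0.2
      omega
  · rintro ⟨h1, h2⟩
    by_contra hcon
    obtain ⟨k, hk⟩ := Nat.exists_eq_succ_of_ne_zero (show top (s.Df S) ≠ 0 by omega)
    have hk' : top (s.Df S) = k + 1 := hk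
    rcases s.top_attained hS hk' with ⟨v, hv, hlv⟩ | ⟨Q, hQ, hQS, hlQ⟩
    · refine Finset.disjoint_left.mp h1 hv (Finset.mem_filter.mpr ⟨hSΓ hv, ?_⟩)
      omega
    · refine h2 Q (Finset.mem_filter.mpr ⟨hQ, ?_⟩) hQS
      omega

end Seg

end Pool.Agent.IDX
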