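import Pool.Agent.IDX.P0

/-! Row IDX-P1a: the centres of the segment -/

open Finset

namespace Pool.Agent.IDX

namespace Seg

variable (s : Seg)

theorem mem_A {i : ℕ} : i ∈ s.A ↔ s.sg ≤ i ∧ i < s.el := by
  simp [A]

theorem vv_inj : Set.InjOn s.vv s.A := by
  intro i hi j hj h
  have hi' : i ∈ Ico s.sg s.el := by simpa [A] using hi
  have hj' : j ∈ Ico s.sg s.el := by simpa [A] using hj
  have h1 := (s.hvv i hi').2.1
  have h2 := (s.hvv j hj').2.1
  rw [h] at h1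
  omega

/-- `Se`-states have no digit in the segment as top digit: no germ has its level there. -/
theorem top_Ef {S : Finset ℕ} (hS : S ∈ s.Se) : top (s.Ef S) ≤ s.sg ∨ s.el < top (s.Ef S) := by
  by_contra hcon
  push Not at hcon
  obtain ⟨h1, h2⟩ := hcon
  obtain ⟨k, hk⟩ : ∃ k, top (s.Ef S) = k + 1 := ⟨top (s.Ef S) - 1, by omega⟩
  obtain ⟨Q, hQ, _, hl⟩ := s.top_attained_e hS hk
  exact s.hQ k (mem_Ico.2 ⟨by omega, by omega⟩) Q hQ hl

theorem P1a_Th : s.Γ.card + s.K2.card ≤ s.Th ∧ s.n ≤ s.Th ∧ s.P + s.N < s.Th ∧ 10 ≤ s.Th ∧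
    s.Γ.card ≤ s.Th := by
  have h := s.hTh
  have h2 : s.K2.card ≤ s.C ^ 2 := s.K2_card
  refine ⟨?_, ?_, ?_, ?_, ?_⟩ <;> omega

theorem P1a_B : s.Th < s.B ∧ s.Th + 2 * s.Th ^ 2 + 2 * s.Th < s.B := by
  have h0 := (s.P1a_Th).2.2.2.1
  have h := s.hB
  have e2 : s.Th ^ 2 = s.Th * s.Th := sq _
  have h2 : 10 * s.Th ≤ s.Th ^ 2 := by rw [e2]; exact Nat.mul_le_mul_right _ h0
  have e3 : s.Th ^ 3 = s.Th * s.Th ^ 2 := by ring
  have h3 : 10 * s.Th ^ 2 ≤ s.Th ^ 3 := by rw [e3]; exact Nat.mul_le_mul_right _ h0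
  have h8 : s.Th ^ 3 ≤ s.Th ^ 8 := Nat.pow_le_pow_right (by omega) (by omega)
  constructor
  · omega
  · omega

/-- (A1) The block of the centre `vv i` is `{i}`: the block `{i}` contains a state `S` (no
`Se`-state by `top_Ef`), `S` has an element of level `i + 1`, which is `vv i`, and
`f {vv i} ≤ f S`. -/
theorem Df_vv {i : ℕ} (hi : i ∈ s.A) : s.Df {s.vv i} = {i} := by
  have hi1 := s.mem_A.1 hi
  have hiI : i ∈ Ico s.sg s.el := mem_Ico.2 hi1
  have hin : i < s.n := lt_of_lt_of_le hi1.2 s.hel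
  obtain ⟨S, hS, hDS⟩ | ⟨S, hS, hES⟩ := s.block_attained (s.hBB1 i hin)
  swap
  · exfalso
    have h := s.top_Ef hS
    rw [hES, top_singleton] at h
    omega
  have htop : top (s.Df S) = i + 1 := by rw [hDS, top_singleton]
  have hvS : s.vv i ∈ S := by
    obtain ⟨v, hv, hl⟩ | ⟨Q, hQ, _, hl⟩ := s.top_attained hS htop
    · have hvΓ : v ∈ s.Γ := (s.mem_St.1 hS).1 hv
      have := s.huniq i hiI v hvΓ hl
      rwa [← this]
    · exact absurd hl (s.hQ i hiI Q hQ)
  have hsub : ({s.vv i} : Finset ℕ) ⊆ S := by simpa using hvS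
  have hf := s.f_mono hS hsub
  have hlev : top (s.Df {s.vv i}) = i + 1 := (s.hvv i hiI).2.1
  have himem : i ∈ s.Df {s.vv i} := top_mem hlev
  have hst : ({s.vv i} : Finset ℕ) ∈ s.St := s.St_down hS hsub
  have h1 := (s.hD _ hst).2.1
  have h2 := (s.hD _ hS).2.2
  rw [hDS, num_singleton] at h2
  have hPN := (s.P1a_Th).2.2.1
  have hBT := (s.P1a_B).1
  by_contra hne
  obtain ⟨j, hj, hji⟩ : ∃ j ∈ s.Df {s.vv i}, j ≠ i := by
    by_contra hcon
    push Not at hcon
    exact hne (Finset.eq_singleton_iff_unique_mem.2 ⟨himem, hcon⟩)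
  have hpair : ({i, j} : Finset ℕ) ⊆ s.Df {s.vv i} := by
    intro x hx
    rcases Finset.mem_insert.1 hx with rfl | hx
    · exact himem
    · rw [Finset.mem_singleton.1 hx]; exact hj
  have hnum := num_mono (B := s.B) hpair
  have hnp : num s.B {i, j} = s.B ^ (i + 1) + s.B ^ (j + 1) := by
    unfold num
    rw [Finset.sum_pair (Ne.symm hji)]
  have hBj : s.B ≤ s.B ^ (j + 1) := Nat.le_self_pow (by omega) _
  omega

theorem P1a_No_vv {i : ℕ} (hi : i ∈ s.A) : (s.No (s.vv i)).card ≤ s.B ^ (i + 1) + s.Th := by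
  have hiI : i ∈ Ico s.sg s.el := mem_Ico.2 (s.mem_A.1 hi)
  have h := (s.No_single (s.hvv i hiI).1 (s.Df_vv hi)).2
  have := (s.P1a_Th).2.2.1
  omega

/-- The kill set of a low state, up to the part of low level. -/
theorem P1a_f_le {S : Finset ℕ} (hS : S ∈ s.St) (htop : top (s.Df S) ≤ s.el) :
    s.f S ≤ ((s.A.filter (fun i => s.vv i ∈ S)).biUnion (fun i => s.No (s.vv i))).card +
      s.Th * (2 * s.B ^ s.sg + s.Th) := by
  classical
  have hSΓ : S ⊆ s.Γ := (s.mem_St.1 hS).1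
  set T' := s.A.filter (fun i => s.vv i ∈ S) with hT'
  set E := 2 * s.B ^ s.sg + s.Th with hE
  set S0 := S.filter (fun v => s.lev v ≤ s.sg) with hS0
  set KS := s.K2.filter (fun Q => Q ⊆ S) with hKS
  have hsub : kill (s.F ∪ s.G) s.Γ S ⊆
      (T'.biUnion (fun i => s.No (s.vv i)) ∪ S0.biUnion s.No) ∪ KS.biUnion s.Zo := by
    rw [s.kill_St hS]
    apply Finset.union_subset_union _ (Finset.Subset.refl _)
    intro z hz
    obtain ⟨v, hv, hzv⟩ := Finset.mem_biUnion.1 hz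
    by_cases hl : s.lev v ≤ s.sg
    · exact Finset.mem_union_right _ (Finset.mem_biUnion.2 ⟨v, Finset.mem_filter.2 ⟨hv, hl⟩, hzv⟩)
    · push Not at hl
      have h1 := s.lev_le_top hS hv
      obtain ⟨k, hk⟩ : ∃ k, s.lev v = k + 1 := ⟨s.lev v - 1, by omega⟩
      have hkI : k ∈ Ico s.sg s.el := mem_Ico.2 ⟨by omega, by omega⟩
      have hvk := s.huniq k hkI v (hSΓ hv) hk
      refine Finset.mem_union_left _ (Finset.mem_biUnion.2 ⟨k, ?_, ?_⟩)
      · exact Finset.mem_filter.2 ⟨s.mem_A.2 (mem_Ico.1 hkI), by rw [← hvk]; exact hv⟩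
      · rw [← hvk]; exact hzv
  have h1 : s.f S ≤ (T'.biUnion (fun i => s.No (s.vv i))).card + (S0.biUnion s.No).card +
      (KS.biUnion s.Zo).card := by
    refine (Finset.card_le_card hsub).trans ((Finset.card_union_le _ _).trans ?_)
    exact Nat.add_le_add_right (Finset.card_union_le _ _) _
  have h2 : (S0.biUnion s.No).card ≤ s.Γ.card * E := by
    refine (Finset.card_biUnion_le_card_mul _ _ E ?_).trans
      (Nat.mul_le_mul_right _ (Finset.card_le_card ((Finset.filter_subset _ _).trans hSΓ)))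
    intro v hv
    obtain ⟨hvS, hl⟩ := Finset.mem_filter.1 hv
    refine (s.No_le (hSΓ hvS)).trans ?_
    have hB := s.B_ge
    have : s.B ^ s.lev v ≤ s.B ^ s.sg := Nat.pow_le_pow_right (by omega) hl
    omega
  have h3 : (KS.biUnion s.Zo).card ≤ s.K2.card * E := by
    refine (Finset.card_biUnion_le_card_mul _ _ E ?_).trans
      (Nat.mul_le_mul_right _ (Finset.card_le_card (Finset.filter_subset _ _)))
    intro Q hQ
    obtain ⟨hQK, hQS⟩ := Finset.mem_filter.1 hQ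
    have hl1 := s.levQ_le_top hS hQK hQS
    have hl : s.levQ Q ≤ s.sg := by
      by_contra hcon
      push Not at hcon
      obtain ⟨k, hk⟩ : ∃ k, s.levQ Q = k + 1 := ⟨s.levQ Q - 1, by omega⟩
      exact s.hQ k (mem_Ico.2 ⟨by omega, by omega⟩) Q hQK hk
    refine ((s.Zo_card Q).1.trans (s.Z_le hQK)).trans ?_
    have hB := s.B_ge
    have : s.B ^ s.levQ Q ≤ s.B ^ s.sg := Nat.pow_le_pow_right (by omega) hl
    omega
  have h4 : s.Γ.card * E + s.K2.card * E ≤ s.Th * E := by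
    rw [← Nat.add_mul]
    exact Nat.mul_le_mul_right _ (s.P1a_Th).1
  omega

theorem P1a_top_A : top s.A = s.el := by
  have hse := s.hse
  apply le_antisymm
  · rw [top_le_iff]
    intro i hi
    exact mem_range.2 (s.mem_A.1 hi).2
  · have : (s.el - 1) + 1 ≤ top s.A :=
      Finset.le_sup (f := fun i => i + 1) (s.mem_A.2 ⟨by omega, by omega⟩)
    omega

/-- A state with block `A`. -/
theorem P1a_exists : ∃ S ∈ s.St, s.Df S = s.A := by
  have hA : s.A ∈ s.BB := by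
    rw [s.hpow, Finset.mem_powerset]
    intro i hi
    exact mem_range.2 (lt_of_lt_of_le (s.mem_A.1 hi).2 s.hel)
  obtain ⟨S, hS, hDS⟩ | ⟨S, hS, hES⟩ := s.block_attained hA
  · exact ⟨S, hS, hDS⟩
  · exfalso
    have h := s.top_Ef hS
    have hse := s.hse
    rw [hES, s.P1a_top_A] at h
    omega

theorem P1a_union_le {T : Finset ℕ} (hT : T ⊆ s.A) :
    (T.biUnion (fun i => s.No (s.vv i))).card ≤ num s.B T + s.Th * s.Th := by
  have hTn : T.card ≤ s.Th := by
    have h1 : T ⊆ range s.n := fun i hi =>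
      mem_range.2 (lt_of_lt_of_le (s.mem_A.1 (hT hi)).2 s.hel)
    have h2 := Finset.card_le_card h1
    rw [card_range] at h2
    exact h2.trans (s.P1a_Th).2.1
  calc (T.biUnion (fun i => s.No (s.vv i))).card ≤ ∑ i ∈ T, (s.No (s.vv i)).card :=
        Finset.card_biUnion_le
    _ ≤ ∑ i ∈ T, (s.B ^ (i + 1) + s.Th) := Finset.sum_le_sum (fun i hi => s.P1a_No_vv (hT hi))
    _ = num s.B T + T.card * s.Th := by
        rw [Finset.sum_add_distrib, Finset.sum_const, smul_eq_mul]; rfl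
    _ ≤ num s.B T + s.Th * s.Th := Nat.add_le_add_left (Nat.mul_le_mul_right _ hTn) _

/-- (A2) Let `S` be a state with block `A`.  Then `S` contains all `vv i`: with
`T' = {i ∈ A : vv i ∈ S}`, all other elements of `S` have level `≤ sg` or are... (elements have level
`≤ el`; those of level in `(sg, el]` are centres `vv i`), so
`num A ≤ |Γ| + f S ≤ ∑_{i ∈ T'} (B^{i+1} + Th) + Th + Th (2 B^{sg} + Th)`, hence
`num A - num T' < B^{sg+1}`, so `T' = A`. -/
theorem image_A_mem : s.A.image s.vv ∈ s.St := by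
  classical
  obtain ⟨S, hS, hDS⟩ := s.P1a_exists
  have htop : top (s.Df S) ≤ s.el := by rw [hDS, s.P1a_top_A]
  have hf := s.P1a_f_le hS htop
  have hT'A : s.A.filter (fun i => s.vv i ∈ S) ⊆ s.A := Finset.filter_subset _ _
  have hu := s.P1a_union_le hT'A
  have hd := (s.hD _ hS).2.1
  rw [hDS] at hd
  refine s.St_down hS ?_
  intro v hv
  obtain ⟨k, hk, rfl⟩ := Finset.mem_image.1 hv
  by_contra hkS
  have hins : insert k (s.A.filter (fun i => s.vv i ∈ S)) ⊆ s.A :=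
    Finset.insert_subset hk hT'A
  have hknot : k ∉ s.A.filter (fun i => s.vv i ∈ S) := fun h => hkS (Finset.mem_filter.1 h).2
  have hnum := num_mono (B := s.B) hins
  have hnum2 : num s.B (insert k (s.A.filter (fun i => s.vv i ∈ S))) =
      s.B ^ (k + 1) + num s.B (s.A.filter (fun i => s.vv i ∈ S)) := by
    unfold num
    rw [Finset.sum_insert hknot]
  have hB := s.B_ge
  have hpk : s.B ^ (s.sg + 1) ≤ s.B ^ (k + 1) :=
    Nat.pow_le_pow_right (by omega) (by have := (s.mem_A.1 hk).1; omega)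
  have hps : s.B ^ (s.sg + 1) = s.B * s.B ^ s.sg := by ring
  have hb1 : 1 ≤ s.B ^ s.sg := Nat.one_le_pow _ _ (by omega)
  have hTh := s.P1a_Th
  have hBB := (s.P1a_B).2
  have key : (s.Th + 2 * s.Th ^ 2 + 2 * s.Th) * s.B ^ s.sg < s.B * s.B ^ s.sg :=
    Nat.mul_lt_mul_of_pos_right hBB hb1
  have key2 : s.Th + 2 * s.Th ^ 2 + 2 * s.Th * s.B ^ s.sg ≤
      (s.Th + 2 * s.Th ^ 2 + 2 * s.Th) * s.B ^ s.sg := by
    rw [Nat.add_mul (s.Th + 2 * s.Th ^ 2)]
    exact Nat.add_le_add_right (Nat.le_mul_of_pos_right _ hb1) _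
  have e1 : s.Th * (2 * s.B ^ s.sg + s.Th) = 2 * s.Th * s.B ^ s.sg + s.Th ^ 2 := by ring
  have e2 : s.Th * s.Th = s.Th ^ 2 := by ring
  omega

theorem image_mem {T : Finset ℕ} (hT : T ⊆ s.A) : T.image s.vv ∈ s.St :=
  s.St_down s.image_A_mem (Finset.image_subset_image hT)

/-- (A3) The stars of the segment overlap little:
`num T ≤ |⋃_{i ∈ T} No (vv i)| + 2 Th (2 B^{sg} + 2 Th)`. -/
theorem union_ge {T : Finset ℕ} (hT : T ⊆ s.A) :
    num s.B T ≤ (T.biUnion (fun i => s.No (s.vv i))).card + s.Th ^ 2 * (3 * s.B ^ s.sg + 3 * s.Th) := by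
  classical
  obtain ⟨S, hS, hDS⟩ := s.P1a_exists
  have htop : top (s.Df S) ≤ s.el := by rw [hDS, s.P1a_top_A]
  have hf := s.P1a_f_le hS htop
  have hd := (s.hD _ hS).2.1
  rw [hDS] at hd
  have hAT : s.A \ T ⊆ s.A := Finset.sdiff_subset
  have hu := s.P1a_union_le hAT
  have hsplit : num s.B s.A = num s.B (s.A \ T) + num s.B T := by
    rw [← num_union Finset.sdiff_disjoint, Finset.sdiff_union_of_subset hT]
  have hU : ((s.A.filter (fun i => s.vv i ∈ S)).biUnion (fun i => s.No (s.vv i))).card ≤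
      (T.biUnion (fun i => s.No (s.vv i))).card +
        ((s.A \ T).biUnion (fun i => s.No (s.vv i))).card := by
    refine le_trans (Finset.card_le_card ?_) (Finset.card_union_le _ _)
    intro z hz
    obtain ⟨i, hi, hzi⟩ := Finset.mem_biUnion.1 hz
    by_cases hiT : i ∈ T
    · exact Finset.mem_union_left _ (Finset.mem_biUnion.2 ⟨i, hiT, hzi⟩)
    · exact Finset.mem_union_right _ (Finset.mem_biUnion.2
        ⟨i, Finset.mem_sdiff.2 ⟨(Finset.mem_filter.1 hi).1, hiT⟩, hzi⟩)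
  have hTh := s.P1a_Th
  have hB := s.B_ge
  have hb1 : 1 ≤ s.B ^ s.sg := Nat.one_le_pow _ _ (by omega)
  have e1 : s.Th * (2 * s.B ^ s.sg + s.Th) = 2 * (s.Th * s.B ^ s.sg) + s.Th ^ 2 := by ring
  have e2 : s.Th * s.Th = s.Th ^ 2 := by ring
  have e3 : s.Th ^ 2 * (3 * s.B ^ s.sg + 3 * s.Th) =
      3 * (s.Th ^ 2 * s.B ^ s.sg) + 3 * (s.Th ^ 2 * s.Th) := by ring
  have k1 : s.Th ≤ s.Th ^ 2 := Nat.le_self_pow (by omega) _
  have k2 : s.Th * s.B ^ s.sg ≤ s.Th ^ 2 * s.B ^ s.sg := Nat.mul_le_mul_right _ k1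
  have k3 : s.Th ^ 2 ≤ s.Th ^ 2 * s.Th := Nat.le_mul_of_pos_right _ (by omega)
  omega

end Seg

end Pool.Agent.IDX
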