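import Pool.Agent.IDX.P1

/-! Row IDX-P2b: the link of the centres -/

open Finset

namespace Pool.Agent.IDX

namespace Seg

variable (s : Seg)

theorem P2b_JJ_sub : s.JJ ⊆ s.Γ := by
  intro v hv
  unfold JJ JA Jg at hv
  rw [mem_union, mem_image, mem_filter] at hv
  rcases hv with ⟨i, hi, rfl⟩ | hv
  · exact (s.hvv i hi).1
  · exact hv.1

theorem P2b_vv_JJ {j : ℕ} (hj : j ∈ s.A) : s.vv j ∈ s.JJ :=
  mem_union_left _ (mem_image_of_mem _ hj)

theorem mem_Nf {j w : ℕ} : w ∈ s.Nf j ↔ w ∉ s.JJ ∧ {s.vv j, w} ∈ s.G := by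
  unfold Nf
  rw [mem_filter, mem_sdiff]
  constructor
  · rintro ⟨⟨_, h1⟩, h2⟩
    exact ⟨h1, h2⟩
  · rintro ⟨h1, h2⟩
    refine ⟨⟨?_, h1⟩, h2⟩
    unfold vx
    rw [Finset.mem_sup]
    exact ⟨_, h2, by simp⟩

/-- Relation between `Nf` and `No`: `No (vv j) ⊆ Nf j ⊆ No (vv j) ∪ Γ`. -/
theorem No_subset_Nf {j : ℕ} (hj : j ∈ s.A) : s.No (s.vv j) ⊆ s.Nf j := by
  intro w hw
  rw [s.mem_No] at hw
  rw [mem_Nf]
  exact ⟨fun h => hw.1 (s.P2b_JJ_sub h), hw.2⟩

theorem Nf_subset {j : ℕ} (hj : j ∈ s.A) : s.Nf j ⊆ s.No (s.vv j) ∪ s.Γ := by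
  intro w hw
  rw [mem_Nf] at hw
  rw [mem_union, s.mem_No]
  by_cases h : w ∈ s.Γ
  · exact Or.inr h
  · exact Or.inl ⟨h, hw.2⟩

theorem HH_card {e : Finset ℕ} (he : e ∈ s.HH) : 2 ≤ e.card ∧ e.card ≤ 3 := by
  unfold HH del Qg at he
  rw [mem_filter, mem_union, mem_union, mem_filter] at he
  rcases he.1 with (h | h) | h
  · have := s.hF e h
    omega
  · have := s.hG e h
    omega
  · have := (s.mem_K2 h.1).2.1
    omega

/-- The link of `vv(T)` in `F ∪ G ∪ Qg` (the rest of `JJ` off). -/
theorem lk_eq {T : Finset ℕ} (hT : T ⊆ s.A) :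
    lk (s.F ∪ s.G ∪ s.Qg) s.JJ (T.image s.vv) =
      (s.HH ∪ T.biUnion s.Lam) ∪ (T.biUnion s.Nf).image (fun v => {v}) := by
  have hind := ((s.mem_St).1 (s.image_mem hT)).2
  have hvJ : ∀ j ∈ T, s.vv j ∈ s.JJ := fun j hj => s.P2b_vv_JJ (hT hj)
  have hv0 : ∀ j ∈ T, s.vv j ∉ s.T0 := fun j hj => (s.hvv j (hT hj)).2.2
  ext e'
  constructor
  · intro h
    unfold lk at h
    rw [mem_image] at h
    obtain ⟨e, he, rfl⟩ := h
    rw [mem_filter] at he
    obtain ⟨he, hsub⟩ := he
    by_cases h0 : Disjoint e s.JJ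
    · have h1 : e \ s.JJ = e := sdiff_eq_self_of_disjoint h0
      rw [h1]
      refine mem_union_left _ (mem_union_left _ ?_)
      unfold HH del
      rw [mem_filter]
      exact ⟨he, h0⟩
    · rw [Finset.not_disjoint_iff] at h0
      obtain ⟨a, hae, haJ⟩ := h0
      obtain ⟨j, hj, rfl⟩ := mem_image.1 (hsub (mem_inter.2 ⟨hae, haJ⟩))
      rw [mem_union, mem_union] at he
      rcases he with (he | he) | he
      · -- an edge of `F`
        have hQ := s.F_germ he hae (hv0 j hj)
        have hQ0 := (s.mem_K2 hQ).2.2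
        have hdis : Disjoint (e.erase (s.vv j)) s.JJ := by
          rw [Finset.disjoint_left]
          intro b hb hbJ
          obtain ⟨i, hi, rfl⟩ := mem_image.1 (hsub (mem_inter.2 ⟨mem_of_mem_erase hb, hbJ⟩))
          exact hv0 i hi (hQ0 hb)
        have h1 : e \ s.JJ = e.erase (s.vv j) := by
          ext b
          rw [mem_sdiff, mem_erase]
          constructor
          · rintro ⟨h1, h2⟩
            exact ⟨fun h3 => h2 (h3 ▸ haJ), h1⟩
          · rintro ⟨h1, h2⟩
            exact ⟨h2, Finset.disjoint_left.1 hdis (mem_erase.2 ⟨h1, h2⟩)⟩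
        rw [h1]
        refine mem_union_left _ (mem_union_right _ (mem_biUnion.2 ⟨j, hj, ?_⟩))
        unfold Lam
        rw [mem_filter]
        exact ⟨hQ, hdis, by rw [insert_erase hae]; exact he⟩
      · -- an edge of `G`
        have h2 := s.hG e he
        obtain ⟨w, hw⟩ : ∃ w, e.erase (s.vv j) = {w} := by
          rw [← card_eq_one, card_erase_of_mem hae, h2]
        have hww : w ∈ e.erase (s.vv j) := by rw [hw]; exact mem_singleton_self w
        have hwe := mem_of_mem_erase hww
        have he2 : e = {s.vv j, w} := by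
          rw [← insert_erase hae, hw]
        have hwJ : w ∉ s.JJ := by
          intro hwJ
          refine hind e (mem_union_right _ he) ?_
          rw [he2]
          intro b hb
          rw [mem_insert, mem_singleton] at hb
          rcases hb with rfl | rfl
          · exact mem_image_of_mem _ hj
          · exact hsub (mem_inter.2 ⟨hwe, hwJ⟩)
        have h1 : e \ s.JJ = {w} := by
          ext b
          rw [mem_sdiff, mem_singleton, he2, mem_insert, mem_singleton]
          constructor
          · rintro ⟨rfl | h1, h2⟩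
            · exact absurd haJ h2
            · exact h1
          · rintro rfl
            exact ⟨Or.inr rfl, hwJ⟩
        rw [h1]
        refine mem_union_right _ (mem_image.2 ⟨w, mem_biUnion.2 ⟨j, hj, ?_⟩, rfl⟩)
        rw [mem_Nf]
        exact ⟨hwJ, by rw [← he2]; exact he⟩
      · -- a germ
        exfalso
        unfold Qg at he
        rw [mem_filter] at he
        exact hv0 j hj ((s.mem_K2 he.1).2.2 hae)
  · intro h
    unfold lk
    rw [mem_image]
    rw [mem_union, mem_union] at h
    rcases h with (h | h) | h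
    · unfold HH del at h
      rw [mem_filter] at h
      refine ⟨e', ?_, sdiff_eq_self_of_disjoint h.2⟩
      rw [mem_filter]
      refine ⟨h.1, ?_⟩
      rw [Finset.disjoint_iff_inter_eq_empty.1 h.2]
      exact empty_subset _
    · obtain ⟨j, hj, h⟩ := mem_biUnion.1 h
      unfold Lam at h
      rw [mem_filter] at h
      obtain ⟨hQ, hd, hF⟩ := h
      refine ⟨insert (s.vv j) e', ?_, ?_⟩
      · rw [mem_filter]
        refine ⟨mem_union_left _ (mem_union_left _ hF), ?_⟩
        intro b hb
        rw [mem_inter, mem_insert] at hb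
        rcases hb.1 with rfl | h1
        · exact mem_image_of_mem _ hj
        · exact absurd hb.2 (Finset.disjoint_left.1 hd h1)
      · ext b
        rw [mem_sdiff, mem_insert]
        constructor
        · rintro ⟨rfl | h1, h2⟩
          · exact absurd (hvJ j hj) h2
          · exact h1
        · intro h1
          exact ⟨Or.inr h1, Finset.disjoint_left.1 hd h1⟩
    · obtain ⟨w, hw, rfl⟩ := mem_image.1 h
      obtain ⟨j, hj, hw⟩ := mem_biUnion.1 hw
      rw [mem_Nf] at hw
      refine ⟨{s.vv j, w}, ?_, ?_⟩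
      · rw [mem_filter]
        refine ⟨mem_union_left _ (mem_union_right _ hw.2), ?_⟩
        intro b hb
        rw [mem_inter, mem_insert, mem_singleton] at hb
        rcases hb.1 with rfl | rfl
        · exact mem_image_of_mem _ hj
        · exact absurd hb.2 hw.1
      · ext b
        rw [mem_sdiff, mem_insert, mem_singleton]
        constructor
        · rintro ⟨rfl | h1, h2⟩
          · exact absurd (hvJ j hj) h2
          · exact h1
        · rintro rfl
          exact ⟨Or.inr rfl, hw.1⟩

end Seg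

end Pool.Agent.IDX
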