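import Pool.Agent.IDX.P2a
import Pool.Agent.IDX.P2b

/-! Row IDX-P2c: the block sums as densities -/

open Finset

namespace Pool.Agent.IDX

namespace Seg

variable (s : Seg)

theorem P2c_JJ_subset : s.JJ ⊆ s.Γ := by
  intro v hv
  unfold JJ at hv
  rcases mem_union.mp hv with h | h
  · unfold JA at h
    obtain ⟨i, hi, rfl⟩ := mem_image.mp h
    exact (s.hvv i hi).1
  · unfold Jg at h
    exact (mem_filter.mp h).1

theorem P2c_disj : Disjoint s.JA s.Jg := by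
  rw [disjoint_left]
  intro v hv hv'
  unfold JA at hv
  obtain ⟨i, hi, rfl⟩ := mem_image.mp hv
  unfold Jg at hv'
  have h1 := (mem_filter.mp hv').2
  have h2 := (s.hvv i hi).2.1
  have h3 := (mem_Ico.mp hi).2
  omega

theorem P2c_inter {T S : Finset ℕ} (hT : T ⊆ s.A) :
    S ∩ s.JJ = T.image s.vv ↔ Disjoint S s.Jg ∧ S ∩ s.JA = T.image s.vv := by
  have hTJ : T.image s.vv ⊆ s.JA := image_subset_image hT
  have hd := s.P2c_disj
  constructor
  · intro h
    constructor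
    · rw [disjoint_left]
      intro v hv hv'
      have h1 : v ∈ S ∩ s.JJ := mem_inter.mpr ⟨hv, by unfold JJ; exact mem_union_right _ hv'⟩
      rw [h] at h1
      exact (disjoint_left.mp hd) (hTJ h1) hv'
    · ext v
      rw [← h]
      unfold JJ
      simp only [mem_inter, mem_union]
      constructor
      · rintro ⟨h1, h2⟩
        exact ⟨h1, Or.inl h2⟩
      · rintro ⟨h1, h2⟩
        refine ⟨h1, ?_⟩
        have h3 : v ∈ S ∩ s.JJ := mem_inter.mpr ⟨h1, by unfold JJ; exact mem_union.mpr h2⟩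
        rw [h] at h3
        exact hTJ h3
  · rintro ⟨h1, h2⟩
    rw [← h2]
    ext v
    unfold JJ
    simp only [mem_inter, mem_union]
    constructor
    · rintro ⟨h3, h4 | h4⟩
      · exact ⟨h3, h4⟩
      · exact absurd h4 ((disjoint_left.mp h1) h3)
    · rintro ⟨h3, h4⟩
      exact ⟨h3, Or.inl h4⟩

/-- (A6) -/
theorem sum_low_eq {T : Finset ℕ} (hT : T ⊆ s.A) :
    ∑ S ∈ s.St.filter (fun S => top (s.Df S) ≤ s.el ∧ S ∩ s.JA = T.image s.vv),
        (1 : ℝ) / 2 ^ (s.Γ.card + s.f S) = s.gg T / 2 ^ (s.JJ.card + (T.biUnion s.Nf).card) := by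
  classical
  set U : Finset ℕ := vx (s.F ∪ s.G ∪ s.Qg) ∪ s.Γ with hU
  have hvxFG : vx (s.F ∪ s.G) ⊆ U := by
    intro v hv
    obtain ⟨e, he, hve⟩ := mem_vx.mp hv
    exact mem_union_left _ (mem_vx.mpr ⟨e, mem_union_left _ he, hve⟩)
  have hΓU : s.Γ ⊆ U := subset_union_right
  have hvx : vx (s.F ∪ s.G ∪ s.Qg) ⊆ U := subset_union_left
  have hJU : s.JJ ⊆ U := s.P2c_JJ_subset.trans hΓU
  have hTJ : T.image s.vv ⊆ s.JJ := by
    have : T.image s.vv ⊆ s.JA := image_subset_image hT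
    exact this.trans (by unfold JJ; exact subset_union_left)
  have hQg : ∀ Q ∈ s.Qg, Q ⊆ s.Γ := by
    intro Q hQ
    have h1 : Q ∈ s.K2 := (mem_filter.mp hQ).1
    exact (s.mem_K2 h1).2.2.trans s.T0_subset
  have h1 := core (H := s.F ∪ s.G) (Γ := s.Γ) (U := U) s.FG_outside hvxFG hΓU
    (fun S => (∀ Q ∈ s.Qg, ¬ Q ⊆ S) ∧ S ∩ s.JJ = T.image s.vv)
  have h2 : pr U (fun R => Ind (s.F ∪ s.G) R ∧ (∀ Q ∈ s.Qg, ¬ Q ⊆ R ∩ s.Γ) ∧
      (R ∩ s.Γ) ∩ s.JJ = T.image s.vv) =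
      pr U (fun R => Ind (s.F ∪ s.G ∪ s.Qg) R ∧ R ∩ s.JJ = T.image s.vv) := by
    refine pr_congr fun R _ => ?_
    have h3 : (R ∩ s.Γ) ∩ s.JJ = R ∩ s.JJ := by
      rw [inter_assoc, inter_eq_right.mpr s.P2c_JJ_subset]
    rw [h3]
    constructor
    · rintro ⟨h4, h5, h6⟩
      refine ⟨?_, h6⟩
      intro e he
      rcases mem_union.mp he with he | he
      · exact h4 e he
      · intro h7
        exact h5 e he (subset_inter h7 (hQg e he))
    · rintro ⟨h4, h6⟩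
      refine ⟨fun e he => h4 e (mem_union_left _ he), ?_, h6⟩
      intro Q hQ h7
      exact h4 Q (mem_union_right _ hQ) (h7.trans inter_subset_left)
  rw [h2, pr_cond hvx hJU hTJ, s.lk_eq hT, dn_singletons] at h1
  have h8 : s.gg T / 2 ^ (s.JJ.card + (T.biUnion s.Nf).card) =
      dn (del (s.HH ∪ T.biUnion s.Lam) (T.biUnion s.Nf)) / 2 ^ (T.biUnion s.Nf).card /
        2 ^ s.JJ.card := by
    unfold gg
    rw [div_div, pow_add, mul_comm]
  rw [h8, h1]
  refine Finset.sum_congr ?_ fun S _ => rfl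
  ext S
  simp only [mem_filter, mem_powerset]
  constructor
  · rintro ⟨h3, h4, h5⟩
    have h6 := (s.low_iff h3).mp h4
    have h7 := s.mem_St.mp h3
    exact ⟨h7.1, h7.2, h6.2, (s.P2c_inter hT).mpr ⟨h6.1, h5⟩⟩
  · rintro ⟨h3, h4, h5, h6⟩
    have h7 : S ∈ s.St := s.mem_St.mpr ⟨h3, h4⟩
    have h9 := (s.P2c_inter hT).mp h6
    exact ⟨h7, (s.low_iff h7).mpr ⟨h9.1, h5⟩, h9.2⟩

/-- (A7) -/
theorem key {T : Finset ℕ} (hT : T ⊆ s.A) :
    s.gg T / 2 ^ (s.JJ.card + (T.biUnion s.Nf).card) + (if T = ∅ then s.eps0 else 0) =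
      s.kap / 2 ^ num s.B T := by
  rw [← s.sum_low_eq hT, s.sum_low hT]

theorem gg_empty : s.gg ∅ = dn s.HH := by
  unfold gg
  simp [del]

theorem eps0_nonneg : 0 ≤ s.eps0 := by
  unfold eps0
  exact Finset.sum_nonneg fun S _ => by positivity

theorem P2c_sum_bounds : 1 ≤ ∑ D ∈ (range s.sg).powerset, (1 : ℝ) / 2 ^ num s.B D ∧
    ∑ D ∈ (range s.sg).powerset, (1 : ℝ) / 2 ^ num s.B D ≤ 2 := by
  constructor
  · have h1 : (1 : ℝ) / 2 ^ num s.B ∅ ≤ ∑ D ∈ (range s.sg).powerset, (1 : ℝ) / 2 ^ num s.B D :=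
      Finset.single_le_sum (f := fun D => (1 : ℝ) / 2 ^ num s.B D) (fun D _ => by positivity)
        (empty_mem_powerset _)
    rwa [num_empty, pow_zero, div_one] at h1
  · have hB : 3 ≤ s.B := le_trans (by norm_num) s.B_ge
    have h2 : ∑ D ∈ (range s.sg).powerset, (1 : ℝ) / 2 ^ num s.B D =
        ∑ k ∈ (range s.sg).powerset.image (num s.B), (1 / 2 : ℝ) ^ k := by
      rw [Finset.sum_image (fun D _ E _ h => num_inj hB h)]
      refine Finset.sum_congr rfl fun D _ => ?_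
      rw [one_div_pow]
    rw [h2]
    have h3 : ((range s.sg).powerset.image (num s.B)) ⊆
        range (((range s.sg).powerset.image (num s.B)).sup id + 1) := by
      intro k hk
      rw [mem_range, Nat.lt_succ_iff]
      exact Finset.le_sup (f := id) hk
    refine le_trans (Finset.sum_le_sum_of_subset_of_nonneg h3 fun k _ _ => by positivity) ?_
    exact sum_geometric_two_le _

theorem kap_bounds : 1 / 2 ^ (s.n + s.p) ≤ s.kap ∧ s.kap ≤ 2 / 2 ^ s.n := by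
  obtain ⟨h1, h2⟩ := s.P2c_sum_bounds
  have hx := s.hk1
  have hy := s.hk2
  have h0 : (0 : ℝ) ≤ (s.c : ℝ) / 2 ^ s.P := by positivity
  unfold kap
  constructor
  · calc (1 : ℝ) / 2 ^ (s.n + s.p) ≤ (s.c : ℝ) / 2 ^ s.P * 1 := by rw [mul_one]; exact hy
      _ ≤ _ := mul_le_mul_of_nonneg_left h1 h0
  · calc (s.c : ℝ) / 2 ^ s.P * ∑ D ∈ (range s.sg).powerset, (1 : ℝ) / 2 ^ num s.B D
        ≤ 1 / 2 ^ s.n * 2 := mul_le_mul hx h2 (le_trans zero_le_one h1) (by positivity)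
      _ = 2 / 2 ^ s.n := by ring

end Seg

end Pool.Agent.IDX
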