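import Pool.Agent.IDX.P1

/-! Row IDX-P2a: block sums of the segment -/

open Finset

namespace Pool.Agent.IDX

namespace Seg

variable (s : Seg)

theorem P2a_low {T : Finset ℕ} (hT : T ⊆ s.A) {S : Finset ℕ} (hS : S ∈ s.St) :
    (top (s.Df S) ≤ s.el ∧ S ∩ s.JA = T.image s.vv) ↔
      s.Df S = T ∪ (s.Df S).filter (fun i => i < s.sg) := by
  constructor
  · rintro ⟨h1, h2⟩
    have h3 := s.digits_low hS h1
    have h4 : s.A.filter (fun i => s.vv i ∈ S) = T := by
      ext i
      rw [Finset.mem_filter]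
      constructor
      · rintro ⟨hi, hv⟩
        have h5 : s.vv i ∈ S ∩ s.JA :=
          Finset.mem_inter.2 ⟨hv, Finset.mem_image.2 ⟨i, hi, rfl⟩⟩
        rw [h2] at h5
        obtain ⟨j, hj, hji⟩ := Finset.mem_image.1 h5
        rw [← s.vv_inj (Finset.mem_coe.2 (hT hj)) (Finset.mem_coe.2 hi) hji]
        exact hj
      · intro hi
        have h5 : s.vv i ∈ T.image s.vv := Finset.mem_image.2 ⟨i, hi, rfl⟩
        rw [← h2] at h5
        exact ⟨hT hi, (Finset.mem_inter.1 h5).1⟩
    rw [h4] at h3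
    ext i
    rw [Finset.mem_union, Finset.mem_filter]
    constructor
    · intro hi
      rcases Nat.lt_or_ge i s.sg with h5 | h5
      · exact Or.inr ⟨hi, h5⟩
      · left
        rw [← h3]
        exact Finset.mem_filter.2 ⟨hi, h5⟩
    · rintro (hi | hi)
      · rw [← h3] at hi
        exact (Finset.mem_filter.1 hi).1
      · exact hi.1
  · intro h
    have hmem : ∀ i ∈ s.Df S, i ∈ T ∨ i < s.sg := by
      intro i hi
      rw [h] at hi
      rcases Finset.mem_union.1 hi with h1 | h1
      · exact Or.inl h1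
      · exact Or.inr (Finset.mem_filter.1 h1).2
    have hTD : ∀ i ∈ T, i ∈ s.Df S := by
      intro i hi
      rw [h]
      exact Finset.mem_union_left _ hi
    have h1 : top (s.Df S) ≤ s.el := by
      rw [top_le_iff]
      intro i hi
      rw [Finset.mem_range]
      rcases hmem i hi with h2 | h2
      · exact (s.mem_A.1 (hT h2)).2
      · exact lt_trans h2 s.hse
    refine ⟨h1, ?_⟩
    have h3 := s.digits_low hS h1
    have h4 : (s.Df S).filter (fun i => s.sg ≤ i) = T := by
      ext i
      rw [Finset.mem_filter]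
      constructor
      · rintro ⟨hi, hi2⟩
        rcases hmem i hi with h5 | h5
        · exact h5
        · omega
      · intro hi
        exact ⟨hTD i hi, (s.mem_A.1 (hT hi)).1⟩
    rw [h4] at h3
    ext x
    rw [Finset.mem_inter, Finset.mem_image]
    constructor
    · rintro ⟨hx, hx2⟩
      obtain ⟨i, hi, hix⟩ := Finset.mem_image.1 hx2
      refine ⟨i, ?_, hix⟩
      rw [h3]
      refine Finset.mem_filter.2 ⟨hi, ?_⟩
      rw [hix]
      exact hx
    · rintro ⟨i, hi, hix⟩
      rw [h3] at hi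
      obtain ⟨h5, h6⟩ := Finset.mem_filter.1 hi
      rw [hix] at h6
      exact ⟨h6, Finset.mem_image.2 ⟨i, h5, hix⟩⟩

theorem P2a_mem {T D : Finset ℕ} (hT : T ⊆ s.A) (hD : D ⊆ range s.sg) : T ∪ D ∈ s.BB := by
  rw [s.hpow, Finset.mem_powerset]
  intro i hi
  rw [Finset.mem_range]
  have hse := s.hse
  have hel := s.hel
  rcases Finset.mem_union.1 hi with h2 | h2
  · exact lt_of_lt_of_le (s.mem_A.1 (hT h2)).2 hel
  · have := Finset.mem_range.1 (hD h2)
    omega

theorem P2a_disj {T D : Finset ℕ} (hT : T ⊆ s.A) (hD : D ⊆ range s.sg) : Disjoint T D := by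
  rw [Finset.disjoint_left]
  intro i hi hi2
  have h1 := (s.mem_A.1 (hT hi)).1
  have h2 := Finset.mem_range.1 (hD hi2)
  omega

theorem P2a_St {T : Finset ℕ} (hT : T ⊆ s.A) (g : Finset ℕ → ℝ) :
    ∑ S ∈ s.St.filter (fun S => top (s.Df S) ≤ s.el ∧ S ∩ s.JA = T.image s.vv), g S =
      ∑ D ∈ (range s.sg).powerset, ∑ S ∈ s.St.filter (fun S => s.Df S = T ∪ D), g S := by
  have hmap : ∀ S ∈ s.St.filter (fun S => top (s.Df S) ≤ s.el ∧ S ∩ s.JA = T.image s.vv),
      (s.Df S).filter (fun i => i < s.sg) ∈ (range s.sg).powerset := by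
    intro S _
    rw [Finset.mem_powerset]
    intro i hi
    exact Finset.mem_range.2 (Finset.mem_filter.1 hi).2
  rw [← Finset.sum_fiberwise_of_maps_to hmap]
  apply Finset.sum_congr rfl
  intro D hD
  have hD' := Finset.mem_powerset.1 hD
  apply Finset.sum_congr
  · ext S
    rw [Finset.mem_filter, Finset.mem_filter, Finset.mem_filter]
    constructor
    · rintro ⟨⟨hS, h1⟩, h2⟩
      have h3 := (s.P2a_low hT hS).1 h1
      rw [h2] at h3
      exact ⟨hS, h3⟩
    · rintro ⟨hS, h1⟩
      have h2 : (s.Df S).filter (fun i => i < s.sg) = D := by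
        ext i
        rw [Finset.mem_filter, h1, Finset.mem_union]
        constructor
        · rintro ⟨h3 | h3, h4⟩
          · have := (s.mem_A.1 (hT h3)).1
            omega
          · exact h3
        · intro h3
          exact ⟨Or.inr h3, Finset.mem_range.1 (hD' h3)⟩
      refine ⟨⟨hS, (s.P2a_low hT hS).2 ?_⟩, h2⟩
      rw [h2]
      exact h1
  · intro S _
    rfl

theorem P2a_Se {T : Finset ℕ} (hT : T ⊆ s.A) :
    ∑ D ∈ (range s.sg).powerset, ∑ S ∈ s.Se.filter (fun S => s.Ef S = T ∪ D),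
      (1 : ℝ) / 2 ^ (s.T0.card + s.z S) = if T = ∅ then s.eps0 else 0 := by
  by_cases h0 : T = ∅
  · rw [if_pos h0, h0]
    unfold eps0
    have hmap : ∀ S ∈ s.Se.filter (fun S => top (s.Ef S) ≤ s.sg),
        s.Ef S ∈ (range s.sg).powerset := by
      intro S hS
      rw [Finset.mem_powerset]
      exact top_le_iff.1 (Finset.mem_filter.1 hS).2
    rw [← Finset.sum_fiberwise_of_maps_to hmap]
    apply Finset.sum_congr rfl
    intro D hD
    have hD' := Finset.mem_powerset.1 hD
    apply Finset.sum_congr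
    · ext S
      rw [Finset.mem_filter, Finset.mem_filter, Finset.mem_filter, Finset.empty_union]
      constructor
      · rintro ⟨hS, h1⟩
        refine ⟨⟨hS, ?_⟩, h1⟩
        rw [h1, top_le_iff]
        exact hD'
      · rintro ⟨⟨hS, _⟩, h1⟩
        exact ⟨hS, h1⟩
    · intro S _
      rfl
  · rw [if_neg h0]
    apply Finset.sum_eq_zero
    intro D hD
    have hD' := Finset.mem_powerset.1 hD
    rw [Finset.filter_eq_empty_iff.2, Finset.sum_empty]
    intro S hS h1
    obtain ⟨i, hi⟩ := Finset.nonempty_iff_ne_empty.2 h0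
    have hse := s.hse
    rcases s.top_Ef hS with h2 | h2
    · rw [h1, top_le_iff] at h2
      have h3 := Finset.mem_range.1 (h2 (Finset.mem_union_left _ hi))
      have h4 := (s.mem_A.1 (hT hi)).1
      omega
    · have h3 : top (s.Ef S) ≤ s.el := by
        rw [h1, top_le_iff]
        intro j hj
        rw [Finset.mem_range]
        rcases Finset.mem_union.1 hj with h4 | h4
        · exact (s.mem_A.1 (hT h4)).2
        · have := Finset.mem_range.1 (hD' h4)
          omega
      omega

/-- (A5) The sum over the low states with `A`-part `vv(T)`. -/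
theorem sum_low {T : Finset ℕ} (hT : T ⊆ s.A) :
    ∑ S ∈ s.St.filter (fun S => top (s.Df S) ≤ s.el ∧ S ∩ s.JA = T.image s.vv),
        (1 : ℝ) / 2 ^ (s.Γ.card + s.f S) + (if T = ∅ then s.eps0 else 0) =
      s.kap / 2 ^ num s.B T := by
  rw [s.P2a_St hT, ← s.P2a_Se hT, ← Finset.sum_add_distrib]
  unfold kap
  rw [Finset.mul_sum, Finset.sum_div]
  apply Finset.sum_congr rfl
  intro D hD
  have hD' := Finset.mem_powerset.1 hD
  have h1 := s.hsum (T ∪ D) (s.P2a_mem hT hD')
  rw [h1, num_union (s.P2a_disj hT hD')]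
  have e1 : (2 : ℝ) ^ (s.P + (num s.B T + num s.B D)) =
      2 ^ s.P * 2 ^ num s.B D * 2 ^ num s.B T := by
    rw [pow_add, pow_add]
    ring
  rw [e1]
  field_simp

end Seg

end Pool.Agent.IDX
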