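import Pool.Agent.IDX.P3a

/-! Row IDX-P3b: upper bound for N_T -/

open Finset

namespace Pool.Agent.IDX

namespace Seg

variable (s : Seg)

theorem P3b_JJ_sub : s.JJ ⊆ s.Γ := by
  intro v hv
  rcases mem_union.1 hv with h | h
  · obtain ⟨i, hi, rfl⟩ := mem_image.1 h
    exact (s.hvv i hi).1
  · exact (mem_filter.1 h).1

theorem P3b_pow_le {a b : ℕ} (h : (1 : ℝ) / 2 ^ a ≤ 1 / 2 ^ b) : b ≤ a := by
  by_contra hc
  push Not at hc
  have h1 : (2 : ℝ) ^ a < 2 ^ b := pow_lt_pow_right₀ (by norm_num) hc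
  have h2 : (1 : ℝ) / 2 ^ b < 1 / 2 ^ a := one_div_lt_one_div_of_lt (by positivity) h1
  linarith

/-- `g(T) ≤ 2 · 2^{-|L|}`, by `bigstar`. -/
theorem gg_le {T : Finset ℕ} (hT : T ⊆ s.A) (hT0 : T.Nonempty) :
    s.gg T ≤ 2 * 2 ^ s.K2.card / 2 ^ s.sg := by
  obtain ⟨L, hL, h1, h2, h3, h4⟩ := s.exists_big hT hT0
  have hb := bigstar (H := del (s.HH ∪ T.biUnion s.Lam) (T.biUnion s.Nf)) (L := L)
    (fun v => s.No v \ T.biUnion s.Nf) (b := 2 * s.Γ.card + 2) h4 (by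
      intro v hv z hz
      obtain ⟨hz1, hz2⟩ := mem_sdiff.1 hz
      obtain ⟨hz3, hz4⟩ := (s.toSys.mem_No).1 hz1
      have hvJ : v ∉ s.JJ := fun h => disjoint_left.1 h2 hv h
      have hvN : v ∉ T.biUnion s.Nf := fun h => disjoint_left.1 h3 hv h
      have hzJ : z ∉ s.JJ := fun h => hz3 (s.P3b_JJ_sub h)
      refine mem_filter.2 ⟨mem_union_left _ (mem_filter.2 ⟨?_, ?_⟩), ?_⟩
      · exact mem_union_left _ (mem_union_right _ hz4)
      · rw [disjoint_left]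
        intro w hw
        rcases mem_insert.1 hw with rfl | hw
        · exact hvJ
        · rw [mem_singleton.1 hw]; exact hzJ
      · rw [disjoint_left]
        intro w hw
        rcases mem_insert.1 hw with rfl | hw
        · exact hvN
        · rw [mem_singleton.1 hw]; exact hz2)
  have hLc : L.card ≤ s.Γ.card := card_le_card hL
  have e1 : (L.card : ℝ) / 2 ^ (2 * s.Γ.card + 2) ≤ 1 / 2 ^ L.card := by
    rw [div_le_div_iff₀ (by positivity) (by positivity), one_mul]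
    have g1 : (L.card : ℝ) ≤ 2 ^ L.card := by exact_mod_cast (Nat.lt_two_pow_self (n := L.card)).le
    calc (L.card : ℝ) * 2 ^ L.card ≤ 2 ^ L.card * 2 ^ L.card :=
          mul_le_mul_of_nonneg_right g1 (by positivity)
      _ = 2 ^ (L.card + L.card) := by rw [pow_add]
      _ ≤ 2 ^ (2 * s.Γ.card + 2) := pow_le_pow_right₀ (by norm_num) (by omega)
  have e2 : s.gg T ≤ 2 / 2 ^ L.card := by
    have : (2 : ℝ) / 2 ^ L.card = 1 / 2 ^ L.card + 1 / 2 ^ L.card := by ring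
    rw [this]
    exact hb.trans (by linarith)
  refine e2.trans ?_
  rw [div_le_div_iff₀ (by positivity) (by positivity)]
  have g2 : (2 : ℝ) ^ s.sg ≤ 2 ^ s.K2.card * 2 ^ L.card := by
    rw [← pow_add]
    exact pow_le_pow_right₀ (by norm_num) (by omega)
  calc (2 : ℝ) * 2 ^ s.sg ≤ 2 * (2 ^ s.K2.card * 2 ^ L.card) := by linarith
    _ = 2 * 2 ^ s.K2.card * 2 ^ L.card := by ring

/-- (A8) -/
theorem NN_le {T : Finset ℕ} (hT : T ⊆ s.A) (hT0 : T.Nonempty) :
    (T.biUnion s.Nf).card ≤ num s.B T + (s.p + 1 + 2 * s.K2.card) := by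
  have hk := s.key hT
  rw [if_neg hT0.ne_empty, add_zero] at hk
  have hb := s.kap_bounds.1
  have hg := s.gg_le hT hT0
  set a := (T.biUnion s.Nf).card with ha
  have h1 : (1 : ℝ) / 2 ^ (s.n + s.p + num s.B T) ≤ s.kap / 2 ^ num s.B T := by
    rw [pow_add, ← div_div]
    exact div_le_div_of_nonneg_right hb (by positivity)
  have h2 : s.gg T / 2 ^ (s.JJ.card + a) ≤ 2 * 2 ^ s.K2.card / 2 ^ s.sg / 2 ^ (s.JJ.card + a) :=
    div_le_div_of_nonneg_right hg (by positivity)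
  rw [hk] at h2
  have h3 : (1 : ℝ) / 2 ^ (s.n + s.p + num s.B T) ≤ 2 * 2 ^ s.K2.card / 2 ^ s.sg / 2 ^ (s.JJ.card + a) :=
    h1.trans h2
  rw [div_div, div_le_div_iff₀ (by positivity) (by positivity), one_mul, ← pow_add] at h3
  have h4 : (2 : ℝ) ^ (s.sg + (s.JJ.card + a)) ≤ 2 ^ (1 + s.K2.card + (s.n + s.p + num s.B T)) := by
    refine h3.trans (le_of_eq ?_)
    ring
  have h5 := (pow_le_pow_iff_right₀ (show (1 : ℝ) < 2 by norm_num)).1 h4
  have h6 := s.JJ_card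
  have h7 := s.Jg_ge
  have h8 := s.hse
  omega

end Seg

end Pool.Agent.IDX
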