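import Pool.Agent.IDX.P2

/-! Row IDX-P3c: lower bound for Nf -/

open Finset

namespace Pool.Agent.IDX

namespace Seg

variable (s : Seg)

/-- `dn HH` is not too small: `2^{-q} ≤ dn (F ∪ G)` and the states which are not low or meet `JA`
contribute at most `2^{-q-1}`. -/
theorem dn_HH_ge : 1 / 2 ^ (s.n + s.p + 1) ≤ dn s.HH / 2 ^ s.JJ.card := by
  classical
  have h1 := s.hq
  rw [s.hp] at h1
  have h2 : dn (s.F ∪ s.G) = ∑ S ∈ s.St, (1 : ℝ) / 2 ^ (s.Γ.card + s.f S) :=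
    core_dn s.toSys.FG_outside
  rw [h2, ← sum_filter_add_sum_filter_not s.St
    (fun S => top (s.Df S) ≤ s.el ∧ S ∩ s.JA = (∅ : Finset ℕ).image s.vv)] at h1
  rw [s.sum_low_eq (empty_subset _)] at h1
  have h3 := s.toSysD.sum_high_le (fun S => ¬ (top (s.Df S) ≤ s.el ∧ S ∩ s.JA = (∅ : Finset ℕ).image s.vv)) (by
    intro S hS hn
    by_contra hc
    push Not at hc
    have h0 : top (s.Df S) = 0 := by omega
    refine hn ⟨by omega, ?_⟩
    rw [image_empty, eq_empty_iff_forall_notMem]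
    intro v hv
    obtain ⟨hv1, hv2⟩ := mem_inter.1 hv
    obtain ⟨i, hi, rfl⟩ := mem_image.1 hv2
    have h4 := s.toSysD.lev_le_top hS hv1
    have h5 := (s.hvv i hi).2.1
    omega)
  rw [s.hp] at h3
  rw [s.gg_empty, biUnion_empty, card_empty, add_zero] at h1
  have h5 : (1 : ℝ) / 2 ^ (s.n + s.p) = 1 / 2 ^ (s.n + s.p + 1) + 1 / 2 ^ (s.n + s.p + 1) := by
    rw [pow_succ]; field_simp; ring
  rw [h5] at h1
  linarith

/-- (A9): `g({j}) ≥ dn (HH ∪ Lam j) ≥ 2^{-|T0|} dn (del HH T0) ≥ 2^{-C} dn HH`. -/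
theorem Nf_ge {j : ℕ} (hj : j ∈ s.A) : s.B ^ (j + 1) ≤ (s.Nf j).card + (s.C + s.p + 2) := by
  have hk := s.key (T := {j}) (singleton_subset_iff.2 hj)
  rw [if_neg (singleton_ne_empty j), add_zero, singleton_biUnion] at hk
  have hn : num s.B {j} = s.B ^ (j + 1) := by simp [num]
  rw [hn] at hk
  have hgg : dn s.HH / 2 ^ s.C ≤ s.gg {j} := by
    have e1 : s.gg {j} = dn (del (s.HH ∪ s.Lam j) (s.Nf j)) := by
      unfold gg
      rw [singleton_biUnion, singleton_biUnion]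
    rw [e1]
    refine le_trans ?_ (dn_le_del _ _)
    refine le_trans ?_ (dn_del_ge _ s.T0)
    have e2 : del (s.HH ∪ s.Lam j) s.T0 = del s.HH s.T0 := by
      ext e
      simp only [del, mem_filter, mem_union]
      constructor
      · rintro ⟨h | h, h'⟩
        · exact ⟨h, h'⟩
        · exfalso
          obtain ⟨h1, h2, h3⟩ := s.toSys.mem_K2 (mem_filter.1 h).1
          have h4 : e = ∅ := disjoint_self.1 (h'.mono_right h3)
          rw [h4] at h2
          simp at h2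
      · rintro ⟨h, h'⟩
        exact ⟨Or.inl h, h'⟩
    rw [e2]
    have h1 : dn s.HH ≤ dn (del s.HH s.T0) := dn_le_del _ _
    have h2 : s.T0.card ≤ s.C := s.hC
    calc dn s.HH / 2 ^ s.C ≤ dn (del s.HH s.T0) / 2 ^ s.C :=
          div_le_div_of_nonneg_right h1 (by positivity)
      _ ≤ dn (del s.HH s.T0) / 2 ^ s.T0.card :=
          div_le_div_of_nonneg_left (dn_nonneg _) (by positivity)
            (pow_le_pow_right₀ (by norm_num) h2)
  have h1 := s.dn_HH_ge
  have h2 := s.kap_bounds.2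
  set a := (s.Nf j).card with ha
  have h3 : (1 : ℝ) / 2 ^ (s.n + s.p + 1 + s.C + a) ≤ s.gg {j} / 2 ^ (s.JJ.card + a) := by
    have e3 : s.gg {j} / 2 ^ (s.JJ.card + a) ≥ dn s.HH / 2 ^ s.C / 2 ^ (s.JJ.card + a) :=
      div_le_div_of_nonneg_right hgg (by positivity)
    refine le_trans ?_ e3
    have e4 : dn s.HH / 2 ^ s.C / 2 ^ (s.JJ.card + a) = dn s.HH / 2 ^ s.JJ.card / 2 ^ (s.C + a) := by
      rw [div_div, div_div]
      congr 1
      rw [← pow_add, ← pow_add]
      congr 1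
      omega
    rw [e4]
    have e5 : (1 : ℝ) / 2 ^ (s.n + s.p + 1 + s.C + a) = 1 / 2 ^ (s.n + s.p + 1) / 2 ^ (s.C + a) := by
      rw [div_div, ← pow_add]
      congr 2
      omega
    rw [e5]
    exact div_le_div_of_nonneg_right h1 (by positivity)
  rw [hk] at h3
  have h4 : s.kap / 2 ^ (s.B ^ (j + 1)) ≤ 2 / 2 ^ s.n / 2 ^ (s.B ^ (j + 1)) :=
    div_le_div_of_nonneg_right h2 (by positivity)
  have h5 := h3.trans h4
  rw [div_div, div_le_div_iff₀ (by positivity) (by positivity), one_mul, ← pow_add, ← pow_succ'] at h5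
  have h6 := (pow_le_pow_iff_right₀ (show (1 : ℝ) < 2 by norm_num)).1 h5
  omega

end Seg

end Pool.Agent.IDX
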