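import Pool.Agent.IDX.P2

/-! Row IDX-P3a: vertices with big residual stars -/

open Finset

namespace Pool.Agent.IDX

namespace Seg

variable (s : Seg)

/-- Every level `> el` has a centre or a germ: `n - el ≤ |Jg| + |K2|`. -/
theorem Jg_ge : s.n ≤ s.el + s.Jg.card + s.K2.card := by
  have h1 : Ico s.el s.n ⊆ s.Jg.image (fun v => s.lev v - 1) ∪
      s.K2.image (fun Q => s.levQ Q - 1) := by
    intro k hk
    rw [mem_Ico] at hk
    rw [mem_union, mem_image, mem_image]
    rcases s.level_attained hk.2 with ⟨v, hv, h⟩ | ⟨Q, hQ, h⟩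
    · refine Or.inl ⟨v, ?_, by omega⟩
      rw [Jg, mem_filter]
      exact ⟨hv, by omega⟩
    · exact Or.inr ⟨Q, hQ, by omega⟩
  have h2 := (card_le_card h1).trans (card_union_le _ _)
  have h3 : (s.Jg.image (fun v => s.lev v - 1)).card ≤ s.Jg.card := card_image_le
  have h4 : (s.K2.image (fun Q => s.levQ Q - 1)).card ≤ s.K2.card := card_image_le
  rw [Nat.card_Ico] at h2
  omega

theorem JA_card : s.JA.card = s.el - s.sg := by
  rw [JA, card_image_of_injOn s.vv_inj, A, Nat.card_Ico]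

theorem JJ_card : s.JJ.card = (s.el - s.sg) + s.Jg.card := by
  rw [JJ, card_union_of_disjoint, s.JA_card]
  rw [Finset.disjoint_left]
  intro v h1 h2
  rw [JA, mem_image] at h1
  obtain ⟨i, hi, rfl⟩ := h1
  rw [Jg, mem_filter] at h2
  have h3 := (s.hvv i hi).2.1
  have h4 := (s.mem_A.1 hi).2
  omega

theorem P3a_num {t B : ℕ} (h10 : 10 ≤ t) (hB : t ^ 8 ≤ B) : t * (2 * t) + t < B := by
  refine lt_of_lt_of_le ?_ hB
  have h1 : t ^ 8 = t * t * t ^ 6 := by ring
  have h2 : 10 ≤ t ^ 6 := h10.trans (Nat.le_self_pow (by norm_num) t)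
  rw [h1]
  have h3 : t * t * 10 ≤ t * t * t ^ 6 := Nat.mul_le_mul_left _ h2
  nlinarith

theorem P3a_JJ : s.JJ ⊆ s.Γ := by
  intro v hv
  rw [JJ, mem_union] at hv
  rcases hv with hv | hv
  · rw [JA, mem_image] at hv
    obtain ⟨j, hj, rfl⟩ := hv
    exact (s.hvv j hj).1
  · rw [Jg, mem_filter] at hv
    exact hv.1

/-- the properties of the element chosen for the window `i` -/
structure P3a_ok (T X : Finset ℕ) (res : ℕ ⊕ Finset ℕ → ℕ) (i : ℕ) (e : ℕ ⊕ Finset ℕ) :
    Prop where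
  cases : (∃ v S, e = Sum.inl v ∧ S ∈ s.St ∧ v ∈ S ∧ top (s.Df S) ≤ s.el ∧
    ∀ j ∈ s.A, (s.vv j ∈ S ↔ j ∈ T)) ∨ ∃ Q, e = Sum.inr Q ∧ Q ∈ s.K2
  ge : s.B ^ (i + 1) ≤ s.Th * res e + (s.P + s.N)
  le : res e ≤ s.B ^ (i + 1) + (s.P + s.N)

theorem P3a_pigeon {U : Finset ℕ} {I : Finset (ℕ ⊕ Finset ℕ)} {g : ℕ ⊕ Finset ℕ → Finset ℕ}
    {t m : ℕ} (hU : U ⊆ I.biUnion g) (hI : I.card ≤ t) (ht : 0 < t) (hm : 0 < m)
    (hUm : m ≤ U.card) : ∃ e ∈ I, m ≤ t * (g e).card := by
  by_contra hc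
  push Not at hc
  have h1 : U.card ≤ ∑ e ∈ I, (g e).card := (card_le_card hU).trans card_biUnion_le
  have h2 : t * ∑ e ∈ I, (g e).card ≤ ∑ e ∈ I, (m - 1) := by
    rw [mul_sum]
    refine sum_le_sum fun e he => ?_
    have := hc e he
    omega
  rw [sum_const, smul_eq_mul] at h2
  have h3 : I.card * (m - 1) ≤ t * (m - 1) := Nat.mul_le_mul_right _ hI
  have h4 : t * m ≤ t * (m - 1) :=
    (Nat.mul_le_mul_left t (hUm.trans h1)).trans (h2.trans h3)
  have h5 := Nat.le_of_mul_le_mul_left h4 ht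
  omega

theorem P3a_top {T : Finset ℕ} (hT : T ⊆ s.A) (hT0 : T.Nonempty) {i : ℕ} (hi : i < s.sg) :
    s.sg < top (insert i T) ∧ top (insert i T) ≤ s.el := by
  constructor
  · obtain ⟨j, hj⟩ := hT0
    have h1 := (s.mem_A.1 (hT hj)).1
    have h2 : j + 1 ≤ top (insert i T) := by
      rw [top]
      exact Finset.le_sup (f := fun i => i + 1) (mem_insert_of_mem hj)
    omega
  · rw [top_le_iff]
    intro j hj
    rw [mem_insert] at hj
    rw [mem_range]
    have h3 := s.hse
    rcases hj with rfl | hj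
    · omega
    · exact (s.mem_A.1 (hT hj)).2

theorem P3a_exists {T : Finset ℕ} (hT : T ⊆ s.A) (hT0 : T.Nonempty) {X : Finset ℕ}
    (hX : X = T.biUnion (fun j => s.No (s.vv j))) {res : ℕ ⊕ Finset ℕ → ℕ}
    (hres : res = Sum.elim (fun v => (s.No v \ X).card) (fun Q => (s.Zo Q \ X).card)) {i : ℕ}
    (hi : i < s.sg) : ∃ e, P3a_ok s T X res i e := by
  have h10 : 10 ≤ s.Th := s.Th_ge
  have hTh := s.hTh
  have hK0 : s.P + s.N ≤ s.Th := by omega
  have hB1 : s.Th * (2 * s.Th) + s.Th < s.B := P3a_num h10 s.hB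
  have hBpos : 0 < s.B := by omega
  have htop := s.P3a_top hT hT0 hi
  have hse := s.hse
  have hel := s.hel
  have hiT : i ∉ T := by
    intro h
    have := (s.mem_A.1 (hT h)).1
    omega
  -- the state
  have hBB : insert i T ∈ s.BB := by
    rw [s.hpow, mem_powerset]
    intro j hj
    rw [mem_insert] at hj
    rw [mem_range]
    rcases hj with rfl | hj
    · omega
    · have := (s.mem_A.1 (hT hj)).2
      omega
  obtain ⟨S, hS, hDS⟩ : ∃ S ∈ s.St, s.Df S = insert i T := by
    rcases s.block_attained hBB with h | ⟨S, hS, hE⟩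
    · exact h
    · exfalso
      have h1 := s.top_Ef hS
      rw [hE] at h1
      omega
  have hlow : top (s.Df S) ≤ s.el := by
    rw [hDS]
    exact htop.2
  have hdig := s.digits_low hS hlow
  have hmem : ∀ j ∈ s.A, (s.vv j ∈ S ↔ j ∈ T) := by
    intro j hj
    have h1 : j ∈ s.A.filter (fun i => s.vv i ∈ S) ↔
        j ∈ (s.Df S).filter (fun i => s.sg ≤ i) := by rw [hdig]
    rw [mem_filter, mem_filter, hDS, mem_insert] at h1
    have h2 := (s.mem_A.1 hj).1
    constructor
    · intro h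
      rcases (h1.1 ⟨hj, h⟩).1 with h3 | h3
      · omega
      · exact h3
    · intro h
      exact (h1.2 ⟨Or.inr h, h2⟩).2
  have himg : T.image s.vv ∈ s.St := s.image_mem hT
  have hDT : s.Df (T.image s.vv) = T := s.Df_image hT
  have hsub : T.image s.vv ⊆ S := by
    intro x hx
    rw [mem_image] at hx
    obtain ⟨j, hj, rfl⟩ := hx
    exact (hmem j (hT hj)).2 hj
  have hfS := s.hD S hS
  have hfT := s.hD _ himg
  have hnum : num s.B (insert i T) = s.B ^ (i + 1) + num s.B T := by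
    rw [num, num, sum_insert hiT]
  rw [hDS, hnum] at hfS
  rw [hDT] at hfT
  obtain ⟨-, hfS1, hfS2⟩ := hfS
  obtain ⟨-, hfT1, hfT2⟩ := hfT
  -- the kill set of vv(T) is X
  have hkT : kill (s.F ∪ s.G) s.Γ (T.image s.vv) = X := by
    rw [s.kill_St himg, hX, image_biUnion]
    have h1 : s.K2.filter (fun Q => Q ⊆ T.image s.vv) = ∅ := by
      rw [filter_eq_empty_iff]
      intro Q hQ hQT
      obtain ⟨-, hc, hQ0⟩ := s.mem_K2 hQ
      have h2 : Q.Nonempty := by
        rw [← card_pos]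
        omega
      obtain ⟨x, hx⟩ := h2
      have h3 := hQT hx
      rw [mem_image] at h3
      obtain ⟨j, hj, rfl⟩ := h3
      exact (s.hvv j (hT hj)).2.2 (hQ0 hx)
    rw [h1, biUnion_empty, union_empty]
  have hfX : s.f (T.image s.vv) = X.card := by
    rw [Sys.f, hkT]
  have hkS := s.kill_St hS
  obtain ⟨Y, hY⟩ : ∃ Y : Finset ℕ, Y = kill (s.F ∪ s.G) s.Γ S := ⟨_, rfl⟩
  have hfY : s.f S = Y.card := by rw [Sys.f, hY]
  have hXY : X ⊆ Y := by
    rw [hY, hkS, hX]
    intro w hw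
    rw [mem_biUnion] at hw
    obtain ⟨j, hj, hw⟩ := hw
    rw [mem_union, mem_biUnion]
    exact Or.inl ⟨_, (hmem j (hT hj)).2 hj, hw⟩
  have hcard : (Y \ X).card + X.card = Y.card := card_sdiff_add_card_eq_card hXY
  rw [hfY] at hfS1 hfS2
  rw [hfX] at hfT1 hfT2
  have hBi : s.B ≤ s.B ^ (i + 1) := by
    calc s.B = s.B ^ 1 := (pow_one _).symm
      _ ≤ s.B ^ (i + 1) := Nat.pow_le_pow_right hBpos (by omega)
  obtain ⟨g, hg⟩ : ∃ g : ℕ ⊕ Finset ℕ → Finset ℕ, g = Sum.elim
    (fun v => s.No v \ X) (fun Q => s.Zo Q \ X) := ⟨_, rfl⟩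
  have hres' : ∀ e, res e = (g e).card := by
    intro e
    rw [hres, hg]
    rcases e with v | Q <;> rfl
  have hSΓ := (s.mem_St.1 hS).1
  obtain ⟨e, heI, he⟩ := P3a_pigeon (U := Y \ X)
    (I := S.disjSum (s.K2.filter (fun Q => Q ⊆ S))) (g := g) (t := s.Th)
    (m := s.B ^ (i + 1) - (s.P + s.N)) (by
      intro w hw
      rw [mem_sdiff, hY, hkS, mem_union, mem_biUnion, mem_biUnion] at hw
      rw [mem_biUnion]
      obtain ⟨hw1, hw2⟩ := hw
      rcases hw1 with ⟨v, hv, hw1⟩ | ⟨Q, hQ, hw1⟩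
      · refine ⟨Sum.inl v, inl_mem_disjSum.2 hv, ?_⟩
        rw [hg]
        exact mem_sdiff.2 ⟨hw1, hw2⟩
      · refine ⟨Sum.inr Q, inr_mem_disjSum.2 hQ, ?_⟩
        rw [hg]
        exact mem_sdiff.2 ⟨hw1, hw2⟩) (by
      rw [card_disjSum]
      have h1 := card_le_card hSΓ
      have h2 := card_filter_le s.K2 (fun Q => Q ⊆ S)
      have h3 := s.K2_card
      omega) (by omega) (by omega) (by omega)
  refine ⟨e, ?_, ?_, ?_⟩
  · rcases e with v | Q
    · rw [inl_mem_disjSum] at heI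
      exact Or.inl ⟨v, S, rfl, hS, heI, hlow, hmem⟩
    · rw [inr_mem_disjSum, mem_filter] at heI
      exact Or.inr ⟨Q, rfl, heI.1⟩
  · rw [hres']
    omega
  · rw [hres']
    have h1 : g e ⊆ Y \ X := by
      rw [hg]
      rcases e with v | Q
      · rw [inl_mem_disjSum] at heI
        refine sdiff_subset_sdiff ?_ le_rfl
        rw [hY, hkS]
        exact (subset_biUnion_of_mem s.No heI).trans subset_union_left
      · rw [inr_mem_disjSum] at heI
        refine sdiff_subset_sdiff ?_ le_rfl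
        rw [hY, hkS]
        exact (subset_biUnion_of_mem s.Zo heI).trans subset_union_right
    have h2 := card_le_card h1
    omega

/-- The vertices with big residual stars: for nonempty `T ⊆ A` there is a set `L` of at least
`sg - |K2|` vertices of `Γ`, outside `JJ` and `N_T`, each with at least `2 |Γ| + 2` neighbours
outside `Γ ∪ N_T`.

Proof.  For `i < sg` the block `{i} ∪ T` contains a state `S` (no `Se`-state, by `top_Ef`, as the top
is in the segment); `S` is low and by `digits_low` its `A`-part is `vv(T)`; moreover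
`|Γ| + f (vv(T)) ∈ [num T, num T + K0]` by `Df_image`, `|Γ| + f S ∈ [num T + B^{i+1}, .. + K0]`.  So the
vertices killed by `S` and not by `vv(T)` are at least `B^{i+1} - K0` and at most `B^{i+1} + K0`; they
are in the union of the sets `No v` (`v ∈ S`, `v ∉ vv(T)`) and `Zo Q` (`Q ⊆ S`, `Q ∈ K2`) minus
`⋃_{j∈T} No (vv j)`, at most `Th` sets; choose the one (`e_i`) with the largest residual: residual in
`[(B^{i+1} - K0)/Th, B^{i+1} + K0]`.  These intervals are disjoint for different `i`, so the `e_i` are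
distinct.  At most `|K2|` of them are germs; the others are vertices `v ∈ Γ`, not in `JA` (the `A`-part
of `S` is `vv(T)`), not in `Jg` (low), not in `N_T` (`S` independent), with residual star
`≥ (B - K0)/Th ≥ 2 |Γ| + 2`.  (`No v \ ⋃ No (vv j)` is the set of outer neighbours of `v` not in
`N_T`.) -/
theorem exists_big {T : Finset ℕ} (hT : T ⊆ s.A) (hT0 : T.Nonempty) :
    ∃ L ⊆ s.Γ, s.sg ≤ L.card + s.K2.card ∧ Disjoint L s.JJ ∧ Disjoint L (T.biUnion s.Nf) ∧
      ∀ v ∈ L, 2 * s.Γ.card + 2 ≤ (s.No v \ T.biUnion s.Nf).card := by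
  obtain ⟨X, hX⟩ : ∃ X : Finset ℕ, X = T.biUnion (fun j => s.No (s.vv j)) := ⟨_, rfl⟩
  obtain ⟨res, hres⟩ : ∃ res : ℕ ⊕ Finset ℕ → ℕ, res = Sum.elim
    (fun v => (s.No v \ X).card) (fun Q => (s.Zo Q \ X).card) := ⟨_, rfl⟩
  have h10 : 10 ≤ s.Th := s.Th_ge
  have hTh := s.hTh
  have hK0 : s.P + s.N ≤ s.Th := by omega
  have hBT : s.Th ^ 8 ≤ s.B := s.hB
  have hB1 : s.Th * (2 * s.Th) + s.Th < s.B := P3a_num h10 hBT
  have hBpos : 0 < s.B := by omega
  have key : ∀ i, ∃ e : ℕ ⊕ Finset ℕ, i < s.sg → P3a_ok s T X res i e := by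
    intro i
    by_cases hi : i < s.sg
    · obtain ⟨e, he⟩ := s.P3a_exists hT hT0 hX hres hi
      exact ⟨e, fun _ => he⟩
    · exact ⟨Sum.inl 0, fun h => absurd h hi⟩
  choose e he using key
  have hinj : ∀ i < s.sg, ∀ i' < s.sg, i < i' → e i ≠ e i' := by
    intro i hi i' hi' hlt heq
    have h1 := (he i hi).le
    have h2 := (he i' hi').ge
    rw [← heq] at h2
    have h3 : s.B ^ (i + 1 + 1) ≤ s.B ^ (i' + 1) := Nat.pow_le_pow_right hBpos (by omega)
    have h4 : s.B ≤ s.B ^ (i + 1) := by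
      calc s.B = s.B ^ 1 := (pow_one _).symm
        _ ≤ s.B ^ (i + 1) := Nat.pow_le_pow_right hBpos (by omega)
    have h5 : s.Th * res (e i) ≤ s.Th * (s.B ^ (i + 1) + s.Th) :=
      Nat.mul_le_mul_left _ (by omega)
    have h6 : s.B ^ (i + 1 + 1) = s.B * s.B ^ (i + 1) := pow_succ' _ _
    have h7 : (s.Th * (2 * s.Th) + s.Th + 1) * s.B ^ (i + 1) ≤ s.B * s.B ^ (i + 1) :=
      Nat.mul_le_mul_right _ (by omega)
    nlinarith [Nat.mul_le_mul_left (s.Th * s.Th) (Nat.one_le_iff_ne_zero.2 (show s.B ^ (i + 1) ≠ 0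
      by positivity)), Nat.mul_le_mul_left s.Th h10]
  refine ⟨s.Γ.filter (fun v => ∃ i < s.sg, e i = Sum.inl v), filter_subset _ _, ?_, ?_, ?_, ?_⟩
  · have h1 : (range s.sg).image e ⊆
        (s.Γ.filter (fun v => ∃ i < s.sg, e i = Sum.inl v)).disjSum s.K2 := by
      intro x hx
      rw [mem_image] at hx
      obtain ⟨i, hi, rfl⟩ := hx
      rw [mem_range] at hi
      rcases (he i hi).cases with ⟨v, S, h2, h3, h4, -⟩ | ⟨Q, h2, h3⟩
      · rw [h2, inl_mem_disjSum, mem_filter]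
        exact ⟨(s.mem_St.1 h3).1 h4, i, hi, h2⟩
      · rw [h2, inr_mem_disjSum]
        exact h3
    have h2 := card_le_card h1
    rw [card_disjSum, card_image_of_injOn, card_range] at h2
    · exact h2
    · intro i hi i' hi' heq
      rw [mem_coe, mem_range] at hi hi'
      rcases lt_trichotomy i i' with h | h | h
      · exact absurd heq (hinj i hi i' hi' h)
      · exact h
      · exact absurd heq.symm (hinj i' hi' i hi h)
  · rw [Finset.disjoint_left]
    intro v hv hv'
    rw [mem_filter] at hv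
    obtain ⟨hvΓ, i, hi, hei⟩ := hv
    have hk := he i hi
    rcases hk.cases with ⟨v', S, h2, h3, h4, h5, h6⟩ | ⟨Q, h2, -⟩
    · rw [hei] at h2
      have h7 : v = v' := Sum.inl_injective h2
      subst h7
      rw [JJ, mem_union] at hv'
      rcases hv' with hv' | hv'
      · rw [JA, mem_image] at hv'
        obtain ⟨j, hj, hjv⟩ := hv'
        have h8 : j ∈ T := (h6 j hj).1 (by rw [hjv]; exact h4)
        have h9 : res (e i) = 0 := by
          rw [hei, hres]
          show (s.No v \ X).card = 0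
          rw [card_eq_zero, sdiff_eq_empty_iff_subset, hX, ← hjv]
          exact subset_biUnion_of_mem (fun j => s.No (s.vv j)) h8
        have h10' := hk.ge
        rw [h9, mul_zero, zero_add] at h10'
        have h11 : s.B ≤ s.B ^ (i + 1) := by
          calc s.B = s.B ^ 1 := (pow_one _).symm
            _ ≤ s.B ^ (i + 1) := Nat.pow_le_pow_right hBpos (by omega)
        omega
      · rw [Jg, mem_filter] at hv'
        have h8 := s.lev_le_top h3 h4
        omega
    · rw [hei] at h2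
      exact absurd h2 (by simp)
  · rw [Finset.disjoint_left]
    intro v hv hv'
    rw [mem_filter] at hv
    obtain ⟨hvΓ, i, hi, hei⟩ := hv
    have hk := he i hi
    rcases hk.cases with ⟨v', S, h2, h3, h4, h5, h6⟩ | ⟨Q, h2, -⟩
    · rw [hei] at h2
      have h7 : v = v' := Sum.inl_injective h2
      subst h7
      rw [mem_biUnion] at hv'
      obtain ⟨j, hj, hjv⟩ := hv'
      rw [Nf, mem_filter] at hjv
      have h8 : s.vv j ∈ S := (h6 j (hT hj)).2 hj
      refine (s.mem_St.1 h3).2 _ (mem_union_right _ hjv.2) ?_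
      intro x hx
      rw [mem_insert, mem_singleton] at hx
      rcases hx with rfl | rfl
      · exact h8
      · exact h4
    · rw [hei] at h2
      exact absurd h2 (by simp)
  · intro v hv
    rw [mem_filter] at hv
    obtain ⟨hvΓ, i, hi, hei⟩ := hv
    have hk := he i hi
    have h1 : s.No v \ T.biUnion s.Nf = s.No v \ X := by
      ext w
      rw [mem_sdiff, mem_sdiff, and_congr_right_iff]
      intro hw
      rw [not_iff_not, hX, mem_biUnion, mem_biUnion]
      refine exists_congr fun j => and_congr_right fun hj => ?_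
      have hw1 := (s.mem_No.1 hw).1
      rw [s.mem_No, Nf, mem_filter, mem_sdiff]
      constructor
      · rintro ⟨-, h⟩
        exact ⟨hw1, h⟩
      · rintro ⟨-, h⟩
        refine ⟨⟨?_, fun h' => hw1 (s.P3a_JJ h')⟩, h⟩
        rw [mem_vx]
        exact ⟨_, h, mem_insert_of_mem (mem_singleton_self w)⟩
    rw [h1]
    have h2 : res (e i) = (s.No v \ X).card := by
      rw [hei, hres]
      rfl
    have h3 := hk.ge
    rw [h2] at h3
    have h4 : s.B ≤ s.B ^ (i + 1) := by
      calc s.B = s.B ^ 1 := (pow_one _).symm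
        _ ≤ s.B ^ (i + 1) := Nat.pow_le_pow_right hBpos (by omega)
    by_contra hc
    have h5 : (s.No v \ X).card ≤ 2 * s.Th := by omega
    have h6 : s.Th * (s.No v \ X).card ≤ s.Th * (2 * s.Th) := Nat.mul_le_mul_left _ h5
    omega

end Seg

end Pool.Agent.IDX
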