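import Pool.Agent.IDX.B4

/-! Row IDX-P4b: densities in Step A -/

open Finset

namespace Pool.Agent.IDX

/-- An edge of size at most 3 cannot meet four disjoint sets; the densities of
`del H (Y ∪ ⋃_{j∈T} N' j)` for nonempty `T ⊆ A'` are all equal; so no minimal edge of `del H Y` meets
`N' i`, and `dn (del H Y)` has the same value. -/
theorem stepA_dens {H : HG} (hH : ∀ e ∈ H, 2 ≤ e.card ∧ e.card ≤ 3) {Y A' : Finset ℕ}
    {N : ℕ → Finset ℕ} (hA' : A'.card = 5)
    (hdis : ∀ i ∈ A', ∀ k ∈ A', i ≠ k → Disjoint (N i \ Y) (N k \ Y))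
    (hY : ∀ i ∈ A', Y ⊆ N i) (x : ℝ)
    (hx : ∀ T ⊆ A', T.Nonempty → dn (del H (T.biUnion N)) = x) :
    dn (del H Y) = x := by
  classical
  obtain ⟨i0, hi0⟩ : A'.Nonempty := by rw [← Finset.card_pos]; omega
  have g1 : ∀ i ∈ A', dn (del H (N i)) = x := by
    intro i hi
    have h1 := hx {i} (by simpa using hi) (by simp)
    rwa [Finset.singleton_biUnion] at h1
  have g2 : ∀ i ∈ A', ∀ k ∈ A', dn (del H (N k ∪ N i)) = x := by
    intro i hi k hk
    have h1 := hx {k, i} (by
      intro z hz
      simp only [Finset.mem_insert, Finset.mem_singleton] at hz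
      rcases hz with rfl | rfl
      · exact hk
      · exact hi) (by simp)
    rwa [Finset.biUnion_insert, Finset.singleton_biUnion] at h1
  have hup : Up (del H Y) (del H (N i0)) := by
    intro e he
    have he' := Finset.mem_filter.1 he
    by_cases hdj : Disjoint e (N i0)
    · exact ⟨e, Finset.mem_filter.2 ⟨he'.1, hdj⟩, le_rfl⟩
    by_cases hall : ∃ k ∈ A', Disjoint e (N k)
    · obtain ⟨k, hk, hk2⟩ := hall
      have e1 : dn (del (del H (N k)) (N i0)) = dn (del H (N k)) := by
        rw [del_del, g2 i0 hi0 k hk, g1 k hk]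
      obtain ⟨f, hf, hfe, hfd⟩ := avoid_of_dn_del_eq e1 e (Finset.mem_filter.2 ⟨he'.1, hk2⟩)
      exact ⟨f, Finset.mem_filter.2 ⟨(Finset.mem_filter.1 hf).1, hfd⟩, hfe⟩
    · exfalso
      push Not at hall
      have h1 : ∀ k ∈ A', (e ∩ (N k \ Y)).Nonempty := by
        intro k hk
        obtain ⟨z, hz, hz'⟩ := Finset.not_disjoint_iff.1 (hall k hk)
        exact ⟨z, Finset.mem_inter.2 ⟨hz, Finset.mem_sdiff.2 ⟨hz',
          Finset.disjoint_left.1 he'.2 hz⟩⟩⟩
      have h2 : A'.card ≤ e.card := by
        calc A'.card = ∑ k ∈ A', 1 := by simp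
          _ ≤ ∑ k ∈ A', (e ∩ (N k \ Y)).card :=
              Finset.sum_le_sum fun k hkB => Finset.card_pos.2 (h1 k hkB)
          _ = (A'.biUnion fun k => e ∩ (N k \ Y)).card := by
              rw [Finset.card_biUnion]
              intro a ha b hb hab
              exact (hdis a ha b hb hab).mono Finset.inter_subset_right Finset.inter_subset_right
          _ ≤ e.card := Finset.card_le_card (Finset.biUnion_subset.2 fun k _ =>
              Finset.inter_subset_left)
      have h3 := (hH e he'.1).2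
      omega
  rw [← g1 i0 hi0]
  apply le_antisymm
  · apply dn_mono
    apply up_of_subset
    intro e he
    have he' := Finset.mem_filter.1 he
    exact Finset.mem_filter.2 ⟨he'.1, he'.2.mono_right (hY i0 hi0)⟩
  · exact dn_mono hup

end Pool.Agent.IDX
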