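import Pool.Agent.IDX.P4a
import Pool.Agent.IDX.P4b

/-! Row IDX-P4c: the abstract Step A -/

open Finset

namespace Pool.Agent.IDX

/-- (STEPA) -/
theorem stepA (qq dmax dmin : ℕ) :
    ∃ N1 : ℕ, ∀ (H QQ : HG) (A : Finset ℕ) (N : ℕ → Finset ℕ) (L : ℕ → HG) (n : ℕ → ℕ) (x : ℝ),
      (∀ e ∈ H, 2 ≤ e.card ∧ e.card ≤ 3) → (∀ e ∈ QQ, 2 ≤ e.card ∧ e.card ≤ 3) →
      QQ.card ≤ qq → (∀ j ∈ A, L j ⊆ QQ) → 0 < x → dn H ≤ x →
      (∀ T ⊆ A, T.Nonempty →
        dn (del (H ∪ T.biUnion L) (T.biUnion N)) * 2 ^ (∑ j ∈ T, n j) = x * 2 ^ (T.biUnion N).card) →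
      (∀ T ⊆ A, T.Nonempty → (T.biUnion N).card ≤ ∑ j ∈ T, n j + dmax) →
      (∀ j ∈ A, n j ≤ (N j).card + dmin) →
      N1 ≤ A.card → dn H = x ∧ ∃ j ∈ A, (N j).card = n j := by
  classical
  obtain ⟨N1, hN1⟩ := stepA_comb dmax dmin
  refine ⟨2 ^ qq * N1, fun H QQ A0 N Lm n x hH hQ hq hLm hx0 hk hg0 hmax0 hmin0 hA0 => ?_⟩
  obtain ⟨L, hL, hLc⟩ : ∃ L ∈ QQ.powerset, N1 ≤ (A0.filter fun j => Lm j = L).card := by
    apply Finset.exists_le_card_fiber_of_mul_le_card_of_maps_to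
    · intro j hj
      exact Finset.mem_powerset.2 (hLm j hj)
    · exact ⟨∅, by simp⟩
    · rw [Finset.card_powerset]
      exact (Nat.mul_le_mul_right _ (Nat.pow_le_pow_right (by norm_num) hq)).trans hA0
  set A := A0.filter fun j => Lm j = L with hAdef
  have hAA0 : A ⊆ A0 := Finset.filter_subset _ _
  have hbi : ∀ T ⊆ A, T.Nonempty → T.biUnion Lm = L := by
    intro T hT hne
    ext z
    rw [Finset.mem_biUnion]
    constructor
    · rintro ⟨j, hj, hz⟩
      rwa [(Finset.mem_filter.1 (hT hj)).2] at hz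
    · intro hz
      obtain ⟨j, hj⟩ := hne
      exact ⟨j, hj, by rwa [(Finset.mem_filter.1 (hT hj)).2]⟩
  have hg : ∀ T ⊆ A, T.Nonempty →
      dn (del (H ∪ L) (T.biUnion N)) * 2 ^ (∑ j ∈ T, n j) = x * 2 ^ (T.biUnion N).card := by
    intro T hT hne
    have := hg0 T (hT.trans hAA0) hne
    rwa [hbi T hT hne] at this
  have hmono : ∀ T ⊆ A, ∀ T' ⊆ A, T.Nonempty → T ⊆ T' →
      (T.biUnion N).card + ∑ j ∈ T', n j ≤ (T'.biUnion N).card + ∑ j ∈ T, n j := by
    intro T hT T' hT' hTne hTT'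
    have h1 := hg T hT hTne
    have h2 := hg T' hT' (hTne.mono hTT')
    have h3 : dn (del (H ∪ L) (T.biUnion N)) ≤ dn (del (H ∪ L) (T'.biUnion N)) := by
      apply dn_mono
      apply up_of_subset
      intro e he
      have he' := Finset.mem_filter.1 he
      exact Finset.mem_filter.2 ⟨he'.1,
        he'.2.mono_right (Finset.biUnion_subset_biUnion_of_subset_left _ hTT')⟩
    by_contra hcon
    push Not at hcon
    have h5 : (2 : ℝ) ^ ((T'.biUnion N).card + ∑ j ∈ T, n j) <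
        2 ^ ((T.biUnion N).card + ∑ j ∈ T', n j) := pow_lt_pow_right₀ (by norm_num) hcon
    rw [pow_add, pow_add] at h5
    have h6 : x * 2 ^ (T.biUnion N).card * 2 ^ (∑ j ∈ T', n j) ≤
        x * 2 ^ (T'.biUnion N).card * 2 ^ (∑ j ∈ T, n j) := by
      rw [← h1, ← h2]
      have : (0 : ℝ) < 2 ^ (∑ j ∈ T, n j) * 2 ^ (∑ j ∈ T', n j) := by positivity
      nlinarith
    have h7 := mul_lt_mul_of_pos_left h5 hx0
    nlinarith
  obtain ⟨Y, B, hBA, hB5, hYN, hBd⟩ := hN1 A N n hmono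
    (fun T hT hne => hmax0 T (hT.trans hAA0) hne) (fun j hj => hmin0 j (hAA0 hj)) hLc
  have hcardHL : ∀ e ∈ H ∪ L, 2 ≤ e.card ∧ e.card ≤ 3 := by
    intro e he
    rcases Finset.mem_union.1 he with h | h
    · exact hH e h
    · exact hQ e (Finset.mem_powerset.1 hL h)
  -- cardinalities of unions
  have hsd : ∀ i ∈ B, (N i \ Y).card = n i := by
    intro i hi
    have h1 := Finset.card_sdiff_add_card_eq_card (hYN i hi).1
    have h2 := (hYN i hi).2
    omega
  have hucard : ∀ T ⊆ B, T.Nonempty → (T.biUnion N).card = Y.card + ∑ j ∈ T, n j := by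
    intro T hT hne
    have e1 : T.biUnion N = Y ∪ T.biUnion fun j => N j \ Y := by
      ext z
      simp only [Finset.mem_biUnion, Finset.mem_union, Finset.mem_sdiff]
      constructor
      · rintro ⟨j, hj, hz⟩
        by_cases hzY : z ∈ Y
        · exact Or.inl hzY
        · exact Or.inr ⟨j, hj, hz, hzY⟩
      · rintro (hz | ⟨j, hj, hz, -⟩)
        · obtain ⟨j, hj⟩ := hne
          exact ⟨j, hj, (hYN j (hT hj)).1 hz⟩
        · exact ⟨j, hj, hz⟩
    rw [e1, Finset.card_union_of_disjoint, Finset.card_biUnion]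
    · congr 1
      exact Finset.sum_congr rfl fun j hj => hsd j (hT hj)
    · intro a ha b hb hab
      exact hBd a (hT ha) b (hT hb) hab
    · rw [Finset.disjoint_biUnion_right]
      exact fun j _ => Finset.disjoint_sdiff
  have hdens : dn (del (H ∪ L) Y) = x * 2 ^ Y.card := by
    apply stepA_dens hcardHL hB5 hBd (fun i hi => (hYN i hi).1)
    intro T hT hne
    have h1 := hg T (hT.trans hBA) hne
    rw [hucard T hT hne, pow_add, ← mul_assoc] at h1
    exact mul_right_cancel₀ (by positivity) h1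
  have hHL : dn (H ∪ L) ≤ dn H := dn_mono (up_of_subset Finset.subset_union_left)
  obtain ⟨i0, hi0⟩ : B.Nonempty := by rw [← Finset.card_pos]; omega
  have hYe : Y = ∅ := by
    by_contra hne
    have h1 := dn_del_gt (fun e he => (hcardHL e he).1) (Finset.nonempty_iff_ne_empty.2 hne)
    rw [hdens, mul_div_assoc, div_self (by positivity), mul_one] at h1
    linarith
  subst hYe
  have h1 := dn_del_ge (H ∪ L) ∅
  rw [hdens] at h1
  simp only [Finset.card_empty, pow_zero, mul_one, div_one] at h1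
  refine ⟨le_antisymm hk (h1.trans hHL), i0, hAA0 (hBA hi0), ?_⟩
  have := (hYN i0 hi0).2
  simpa using this

end Pool.Agent.IDX
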