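import Pool.Agent.IDX.B4

/-! Row IDX-P4a: combinatorial core of Step A -/

open Finset

namespace Pool.Agent.IDX

/-- `|N_T| - n(T)`. -/
private def dd (N : ℕ → Finset ℕ) (n : ℕ → ℕ) (T : Finset ℕ) : ℤ :=
  ((T.biUnion N).card : ℤ) - ∑ j ∈ T, (n j : ℤ)

private theorem dd_insert (N : ℕ → Finset ℕ) (n : ℕ → ℕ) {T : Finset ℕ} {x : ℕ} (hx : x ∉ T) :
    dd N n (insert x T) = dd N n T + (((N x) \ T.biUnion N).card : ℤ) - n x := by
  unfold dd
  rw [Finset.biUnion_insert, Finset.sum_insert hx]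
  have h1 : N x ∪ T.biUnion N = (N x \ T.biUnion N) ∪ T.biUnion N := by
    rw [Finset.sdiff_union_self_eq_union]
  rw [h1, Finset.card_union_of_disjoint Finset.sdiff_disjoint]
  push_cast
  ring

private theorem dd_singleton (N : ℕ → Finset ℕ) (n : ℕ → ℕ) (j : ℕ) :
    dd N n {j} = ((N j).card : ℤ) - n j := by
  simp [dd]

/-- A small maximiser of `dd`. -/
private theorem exists_max (N : ℕ → Finset ℕ) (n : ℕ → ℕ) (A : Finset ℕ) (dmax dmin : ℕ)
    (hA : A.Nonempty)
    (hmono : ∀ T ⊆ A, T.Nonempty → ∀ T' ⊆ A, T ⊆ T' → dd N n T ≤ dd N n T')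
    (hmax : ∀ T ⊆ A, T.Nonempty → dd N n T ≤ dmax)
    (hmin : ∀ j ∈ A, -(dmin : ℤ) ≤ dd N n {j}) :
    ∃ T ⊆ A, T.Nonempty ∧ T.card ≤ dmax + dmin + 1 ∧
      (∀ i ∈ A, i ∉ T → (N i \ T.biUnion N).card = n i) ∧
      (∀ i ∈ A, i ∉ T → ∀ k ∈ A, k ∉ T → i ≠ k → N i ∩ N k ⊆ T.biUnion N) := by
  classical
  set P := A.powerset.filter fun T => T.Nonempty with hP
  have hPne : P.Nonempty := ⟨A, by simp [hP, hA]⟩
  obtain ⟨T0, hT0, hT0max⟩ := P.exists_max_image (dd N n) hPne
  set Q := P.filter fun T => dd N n T0 ≤ dd N n T with hQ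
  have hQne : Q.Nonempty := ⟨T0, by simp [hQ, hT0]⟩
  obtain ⟨T, hT, hTmin⟩ := Q.exists_min_image Finset.card hQne
  have hTQ := Finset.mem_filter.1 hT
  have hTP := Finset.mem_filter.1 hTQ.1
  have hTA : T ⊆ A := Finset.mem_powerset.1 hTP.1
  have hTne : T.Nonempty := hTP.2
  have hTmax : ∀ S ⊆ A, S.Nonempty → dd N n S ≤ dd N n T := by
    intro S hS hSne
    exact (hT0max S (by simp [hP, hS, hSne])).trans hTQ.2
  have hstrict : ∀ x ∈ T, (T.erase x).Nonempty → dd N n (T.erase x) + 1 ≤ dd N n T := by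
    intro x hx hne
    by_contra hcon
    have h1 : dd N n T ≤ dd N n (T.erase x) := by omega
    have h2 : T.erase x ∈ Q := by
      simp only [hQ, hP, Finset.mem_filter, Finset.mem_powerset]
      exact ⟨⟨(Finset.erase_subset _ _).trans hTA, hne⟩, hTQ.2.trans h1⟩
    have h3 := hTmin _ h2
    rw [Finset.card_erase_of_mem hx] at h3
    have := hTne.card_pos
    omega
  have hmarg : ∀ x ∈ T, ∀ S ⊆ T.erase x, S.Nonempty →
      dd N n S + 1 ≤ dd N n (insert x S) := by
    intro x hx S hS hSne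
    have hxS : x ∉ S := fun h => by simpa using hS h
    have hne : (T.erase x).Nonempty := hSne.mono hS
    have h1 := hstrict x hx hne
    have h2 := dd_insert N n (T := T.erase x) (x := x) (by simp)
    rw [Finset.insert_erase hx] at h2
    have h3 := dd_insert N n hxS
    have h4 : (N x \ (T.erase x).biUnion N).card ≤ (N x \ S.biUnion N).card := by
      apply Finset.card_le_card
      apply Finset.sdiff_subset_sdiff le_rfl
      exact Finset.biUnion_subset_biUnion_of_subset_left _ hS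
    omega
  have hcard : ∀ S ⊆ T, S.Nonempty → -(dmin : ℤ) + S.card - 1 ≤ dd N n S := by
    intro S
    induction S using Finset.induction_on with
    | empty => intro _ h; exact absurd h (by simp)
    | insert x S hx ih =>
      intro hS _
      by_cases hSne : S.Nonempty
      · have h1 := ih ((Finset.subset_insert _ _).trans hS) hSne
        have h2 := hmarg x (hS (Finset.mem_insert_self _ _)) S (by
          intro y hy
          rw [Finset.mem_erase]
          exact ⟨fun h => hx (h ▸ hy), hS (Finset.mem_insert_of_mem hy)⟩) hSne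
        rw [Finset.card_insert_of_notMem hx]
        push_cast
        omega
      · rw [Finset.not_nonempty_iff_eq_empty] at hSne
        subst hSne
        have := hmin x (hTA (hS (Finset.mem_insert_self _ _)))
        simpa using this
  refine ⟨T, hTA, hTne, ?_, ?_, ?_⟩
  · have h1 := hcard T le_rfl hTne
    have h2 := hmax T hTA hTne
    omega
  · intro i hi hiT
    have h1 := hTmax (insert i T) (Finset.insert_subset hi hTA) (Finset.insert_nonempty _ _)
    have h2 := hmono T hTA hTne (insert i T) (Finset.insert_subset hi hTA)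
      (Finset.subset_insert _ _)
    have h3 := dd_insert N n hiT
    omega
  · intro i hi hiT k hk hkT hik
    have e1 : (N k \ T.biUnion N).card = n k := by
      have h1 := hTmax (insert k T) (Finset.insert_subset hk hTA) (Finset.insert_nonempty _ _)
      have h2 := hmono T hTA hTne (insert k T) (Finset.insert_subset hk hTA)
        (Finset.subset_insert _ _)
      have h3 := dd_insert N n hkT
      omega
    have hkT' : k ∉ insert i T := by
      rw [Finset.mem_insert]
      rintro (h | h)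
      · exact hik h.symm
      · exact hkT h
    have hs : insert k (insert i T) ⊆ A :=
      Finset.insert_subset hk (Finset.insert_subset hi hTA)
    have h1 := hTmax _ hs (Finset.insert_nonempty _ _)
    have h2 := hTmax (insert i T) (Finset.insert_subset hi hTA) (Finset.insert_nonempty _ _)
    have h2' := hmono T hTA hTne (insert i T) (Finset.insert_subset hi hTA)
      (Finset.subset_insert _ _)
    have h2'' := hmono T hTA hTne _ hs
      ((Finset.subset_insert _ _).trans (Finset.subset_insert _ _))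
    have h3 := dd_insert N n hkT'
    rw [Finset.biUnion_insert] at h3
    have e2 : (N k \ (N i ∪ T.biUnion N)).card = n k := by omega
    have e3 : N k \ (N i ∪ T.biUnion N) ⊆ N k \ T.biUnion N :=
      Finset.sdiff_subset_sdiff le_rfl Finset.subset_union_right
    have e4 := Finset.eq_of_subset_of_card_le e3 (by omega)
    intro z hz
    rw [Finset.mem_inter] at hz
    by_contra hzT
    have : z ∈ N k \ T.biUnion N := Finset.mem_sdiff.2 ⟨hz.2, hzT⟩
    rw [← e4, Finset.mem_sdiff, Finset.mem_union] at this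
    exact this.2 (Or.inl hz.1)

/-- Size that suffices in the combinatorial part. -/
private def N0 (dmax dmin : ℕ) : ℕ :=
  2 * (dmax + dmin + 1) + 4 * 2 ^ ((dmax + dmin + 1) * dmax) + 1

/-- The combinatorial part of STEPA: more than four indices with a common kernel `Y`. -/
private theorem comb (N : ℕ → Finset ℕ) (n : ℕ → ℕ) (A : Finset ℕ) (dmax dmin : ℕ)
    (hA : N0 dmax dmin ≤ A.card)
    (hmono : ∀ T ⊆ A, T.Nonempty → ∀ T' ⊆ A, T ⊆ T' → dd N n T ≤ dd N n T')
    (hmax : ∀ T ⊆ A, T.Nonempty → dd N n T ≤ dmax)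
    (hmin : ∀ j ∈ A, -(dmin : ℤ) ≤ dd N n {j}) :
    ∃ Y : Finset ℕ, ∃ B ⊆ A, 4 < B.card ∧ (∀ i ∈ B, Y ⊆ N i) ∧
      (∀ i ∈ B, (N i \ Y).card = n i) ∧
      (∀ i ∈ B, ∀ k ∈ B, i ≠ k → Disjoint (N i \ Y) (N k \ Y)) := by
  classical
  set tm := dmax + dmin + 1 with htm
  have hApos : A.Nonempty := by
    rw [← Finset.card_pos]
    unfold N0 at hA
    omega
  obtain ⟨T1, hT1, hT1ne, hT1c, hT1n, hT1d⟩ := exists_max N n A dmax dmin hApos hmono hmax hmin
  have hA1 : tm + 4 * 2 ^ (tm * dmax) + 1 ≤ (A \ T1).card := by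
    have := Finset.le_card_sdiff T1 A
    unfold N0 at hA
    rw [← htm] at hA
    omega
  have hs1 : A \ T1 ⊆ A := Finset.sdiff_subset
  obtain ⟨T2, hT2, hT2ne, hT2c, hT2n, hT2d⟩ := exists_max N n (A \ T1) dmax dmin (by
      rw [← Finset.card_pos]; omega)
    (fun T hT hTne T' hT' h => hmono T (hT.trans hs1) hTne T' (hT'.trans hs1) h)
    (fun T hT hTne => hmax T (hT.trans hs1) hTne) (fun j hj => hmin j (hs1 hj))
  set Y0 := T1.biUnion N ∩ T2.biUnion N with hY0
  have hY0c : Y0.card ≤ tm * dmax := by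
    have h1 : Y0 ⊆ T2.biUnion fun k => N k ∩ T1.biUnion N := by
      intro z hz
      rw [hY0, Finset.mem_inter, Finset.mem_biUnion (s := T2)] at hz
      obtain ⟨h1, k, hk, hzk⟩ := hz
      exact Finset.mem_biUnion.2 ⟨k, hk, Finset.mem_inter.2 ⟨hzk, h1⟩⟩
    have h2 : ∀ k ∈ T2, (N k ∩ T1.biUnion N).card ≤ dmax := by
      intro k hk
      have hkA := Finset.mem_sdiff.1 (hT2 hk)
      have h3 := hT1n k hkA.1 hkA.2
      have h4 := Finset.card_inter_add_card_sdiff (N k) (T1.biUnion N)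
      have h5 := hmax {k} (by simpa using hkA.1) (by simp)
      rw [dd_singleton] at h5
      omega
    calc Y0.card ≤ _ := Finset.card_le_card h1
      _ ≤ T2.card * dmax := Finset.card_biUnion_le_card_mul _ _ _ h2
      _ ≤ tm * dmax := Nat.mul_le_mul_right _ hT2c
  set A2 := (A \ T1) \ T2 with hA2
  have hA2c : 4 * 2 ^ (tm * dmax) < A2.card := by
    have h1 := Finset.le_card_sdiff T2 (A \ T1)
    rw [← hA2] at h1
    rw [← htm] at hT2c
    omega
  have key : ∀ i ∈ A2, N i ∩ T1.biUnion N ⊆ Y0 := by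
    intro i hi
    rw [hA2, Finset.mem_sdiff, Finset.mem_sdiff] at hi
    obtain ⟨⟨hiA, hi1⟩, hi2⟩ := hi
    have h1 := hT1n i hiA hi1
    have h2 := hT2n i (Finset.mem_sdiff.2 ⟨hiA, hi1⟩) hi2
    have h3 := Finset.card_inter_add_card_sdiff (N i) (T1.biUnion N)
    have h4 := Finset.card_inter_add_card_sdiff (N i) (T2.biUnion N)
    have h5 : N i ∩ T2.biUnion N ⊆ N i ∩ T1.biUnion N := by
      intro z hz
      rw [Finset.mem_inter, Finset.mem_biUnion] at hz
      obtain ⟨hzi, k, hk, hzk⟩ := hz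
      have hkA := Finset.mem_sdiff.1 (hT2 hk)
      have hne : i ≠ k := fun h => hi2 (h ▸ hk)
      exact Finset.mem_inter.2 ⟨hzi, hT1d i hiA hi1 k hkA.1 hkA.2 hne
        (Finset.mem_inter.2 ⟨hzi, hzk⟩)⟩
    have h6 := Finset.eq_of_subset_of_card_le h5 (by omega)
    intro z hz
    have hz' := hz
    rw [← h6] at hz'
    exact Finset.mem_inter.2 ⟨(Finset.mem_inter.1 hz).2, (Finset.mem_inter.1 hz').2⟩
  obtain ⟨Y, -, hY⟩ : ∃ Y ∈ Y0.powerset, 4 < (A2.filter fun i => N i ∩ T1.biUnion N = Y).card := by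
    apply Finset.exists_lt_card_fiber_of_mul_lt_card_of_maps_to
    · intro i hi
      exact Finset.mem_powerset.2 (key i hi)
    · rw [Finset.card_powerset]
      calc 2 ^ Y0.card * 4 ≤ 2 ^ (tm * dmax) * 4 :=
            Nat.mul_le_mul_right _ (Nat.pow_le_pow_right (by norm_num) hY0c)
        _ < A2.card := by omega
  refine ⟨Y, A2.filter fun i => N i ∩ T1.biUnion N = Y, ?_, hY, ?_, ?_, ?_⟩
  · intro i hi
    exact (Finset.mem_sdiff.1 (Finset.mem_sdiff.1 (Finset.mem_filter.1 hi).1).1).1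
  · intro i hi
    rw [← (Finset.mem_filter.1 hi).2]
    exact Finset.inter_subset_left
  · intro i hi
    have hi' := Finset.mem_sdiff.1 (Finset.mem_sdiff.1 (Finset.mem_filter.1 hi).1).1
    rw [← (Finset.mem_filter.1 hi).2, Finset.sdiff_inter_self_left]
    exact hT1n i hi'.1 hi'.2
  · intro i hi k hk hik
    have hi' := Finset.mem_sdiff.1 (Finset.mem_sdiff.1 (Finset.mem_filter.1 hi).1).1
    have hk' := Finset.mem_sdiff.1 (Finset.mem_sdiff.1 (Finset.mem_filter.1 hk).1).1
    have ei : N i \ Y = N i \ T1.biUnion N := by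
      rw [← (Finset.mem_filter.1 hi).2, Finset.sdiff_inter_self_left]
    have ek : N k \ Y = N k \ T1.biUnion N := by
      rw [← (Finset.mem_filter.1 hk).2, Finset.sdiff_inter_self_left]
    rw [ei, ek, Finset.disjoint_left]
    intro z hz hz'
    rw [Finset.mem_sdiff] at hz hz'
    exact hz.2 (hT1d i hi'.1 hi'.2 k hk'.1 hk'.2 hik (Finset.mem_inter.2 ⟨hz.1, hz'.1⟩))

/-- Combinatorial core of Step A.  `N : ℕ → Finset ℕ` a family of finite sets, `n : ℕ → ℕ`,
`d T = |⋃_{j ∈ T} N j| - n(T)` (written additively).  Suppose `d` is nondecreasing on nonempty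
subsets of `A`, at most `dmax`, and `n j ≤ |N j| + dmin`.  If `A` is large there are a set `Y` and
`A' ⊆ A` with 5 elements such that for `i ∈ A'`: `Y ⊆ N i`, `|N i| = n i + |Y|`, and the sets `N i \ Y`
(`i ∈ A'`) are pairwise disjoint.

Proof.  `d` is submodular in the sense that marginals decrease.  Let `T1` be a nonempty subset of
`A` maximising `d`, with the smallest cardinality; every `t ∈ T1` has
`d T1 - d (T1 \ t) ≥ 1` (if `|T1| ≥ 2`), so by submodularity, adding the elements of `T1` one by one,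
`d T1 ≥ d {t} + |T1| - 1`, `|T1| ≤ dmax + dmin + 1 = tm`.  Let `T2` be the same for `A \ T1`.
For `i, k ∉ T1`: `d (T1 ∪ i) = d (T1 ∪ {i,k}) = d T1`, so `|N i \ N_{T1}| = n i` and `N i \ N_{T1}`,
`N k \ N_{T1}` are disjoint.  For `i ∉ T1 ∪ T2` also `|N i \ N_{T2}| = n i`.  Then
`N i ∩ N_{T2} ⊆ N_{T1}` (disjointness), of the same size `|N i| - n i` as `N i ∩ N_{T1}`, so
`N i ∩ N_{T1} = N i ∩ N_{T2} ⊆ N_{T2} ∩ N_{T1}  = Y0` and `|Y0| ≤ ∑_{k ∈ T2} (|N k| - n k) ≤ tm dmax`.
By the pigeonhole principle five `i ∈ A \ (T1 ∪ T2)` have the same `Y = N i ∩ N_{T1}`. -/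
theorem stepA_comb (dmax dmin : ℕ) :
    ∃ N1 : ℕ, ∀ (A : Finset ℕ) (N : ℕ → Finset ℕ) (n : ℕ → ℕ),
      (∀ T ⊆ A, ∀ T' ⊆ A, T.Nonempty → T ⊆ T' →
        (T.biUnion N).card + ∑ j ∈ T', n j ≤ (T'.biUnion N).card + ∑ j ∈ T, n j) →
      (∀ T ⊆ A, T.Nonempty → (T.biUnion N).card ≤ ∑ j ∈ T, n j + dmax) →
      (∀ j ∈ A, n j ≤ (N j).card + dmin) →
      N1 ≤ A.card →
      ∃ Y : Finset ℕ, ∃ A' ⊆ A, A'.card = 5 ∧
        (∀ i ∈ A', Y ⊆ N i ∧ (N i).card = n i + Y.card) ∧
        ∀ i ∈ A', ∀ k ∈ A', i ≠ k → Disjoint (N i \ Y) (N k \ Y) := by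
  classical
  refine ⟨N0 dmax dmin, fun A N n h1 h2 h3 hA => ?_⟩
  obtain ⟨Y, B, hBA, hB4, hYN, hBn, hBd⟩ := comb N n A dmax dmin hA (by
      intro T hT hTne T' hT' hTT'
      have := h1 T hT T' hT' hTne hTT'
      unfold dd
      have h : ((T.biUnion N).card : ℤ) + ∑ j ∈ T', (n j : ℤ) ≤
          (T'.biUnion N).card + ∑ j ∈ T, (n j : ℤ) := by exact_mod_cast this
      linarith) (by
      intro T hT hTne
      have := h2 T hT hTne
      unfold dd
      have h : ((T.biUnion N).card : ℤ) ≤ ∑ j ∈ T, (n j : ℤ) + dmax := by exact_mod_cast this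
      linarith) (by
      intro j hj
      have := h3 j hj
      rw [dd_singleton]
      omega)
  obtain ⟨A', hA'B, hA'5⟩ := Finset.exists_subset_card_eq (show 5 ≤ B.card by omega)
  refine ⟨Y, A', hA'B.trans hBA, hA'5, fun i hi => ⟨hYN i (hA'B hi), ?_⟩,
    fun i hi k hk hik => hBd i (hA'B hi) k (hA'B hk) hik⟩
  have h4 := Finset.card_sdiff_add_card_eq_card (hYN i (hA'B hi))
  have h5 := hBn i (hA'B hi)
  omega

end Pool.Agent.IDX
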