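import Pool.Agent.IDX.P3
import Pool.Agent.IDX.P4

/-! Row IDX-P5b: clean windows -/

open Finset

namespace Pool.Agent.IDX

namespace Seg

variable (s : Seg)

theorem P5b_eps0 (h : dn s.HH / 2 ^ s.JJ.card = s.kap) : s.eps0 = 0 := by
  have hk := s.key (T := ∅) (Finset.empty_subset _)
  rw [if_pos rfl, s.gg_empty, num_empty, Finset.biUnion_empty, Finset.card_empty, add_zero,
    pow_zero, div_one, h] at hk
  linarith

/-- If `dn HH / 2^|JJ| = κ` then `eps0 = 0`, and no germ has level `≤ el`. -/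
theorem Qg_eq (h : dn s.HH / 2 ^ s.JJ.card = s.kap) : s.Qg = s.K2 := by
  apply Finset.filter_true_of_mem
  intro Q hQ
  by_contra hlt
  have he := s.P5b_eps0 h
  have hS := s.K2_mem_Se hQ
  have htop : top (s.Ef Q) ≤ s.sg := by
    rcases s.top_Ef hS with h1 | h1
    · exact h1
    · exact absurd h1 hlt
  unfold eps0 at he
  rw [Finset.sum_eq_zero_iff_of_nonneg (fun S _ => by positivity)] at he
  have := he Q (Finset.mem_filter.2 ⟨hS, htop⟩)
  have hpos : (0 : ℝ) < 1 / 2 ^ (s.T0.card + s.z Q) := by positivity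
  linarith

theorem P5b_Lam (h : dn s.HH / 2 ^ s.JJ.card = s.kap) (T : Finset ℕ) :
    s.HH ∪ T.biUnion s.Lam = s.HH := by
  rw [Finset.union_eq_left]
  intro Q hQ
  obtain ⟨j, -, hQj⟩ := Finset.mem_biUnion.1 hQ
  unfold Lam at hQj
  rw [Finset.mem_filter] at hQj
  have hQg : Q ∈ s.Qg := by
    rw [s.Qg_eq h]; exact hQj.1
  unfold HH del
  rw [Finset.mem_filter]
  exact ⟨Finset.mem_union_right _ hQg, hQj.2.1⟩

theorem P5b_pos (h : dn s.HH / 2 ^ s.JJ.card = s.kap) : 0 < dn s.HH := by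
  have hk := s.kap_bounds.1
  have h1 : (0 : ℝ) < 1 / 2 ^ (s.n + s.p) := by positivity
  have h2 : 0 < dn s.HH / 2 ^ s.JJ.card := by rw [h]; linarith
  have h3 : (0 : ℝ) < 2 ^ s.JJ.card := by positivity
  have h4 := mul_pos h2 h3
  rwa [div_mul_cancel₀ _ h3.ne'] at h4

/-- ... and the germs created by centres of the segment are in `HH` already. -/
theorem key' (h : dn s.HH / 2 ^ s.JJ.card = s.kap) {T : Finset ℕ} (hT : T ⊆ s.A) :
    dn (del s.HH (T.biUnion s.Nf)) * 2 ^ num s.B T = dn s.HH * 2 ^ (T.biUnion s.Nf).card := by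
  have hk := s.key hT
  rw [s.P5b_eps0 h, ite_self, add_zero, ← h] at hk
  unfold gg at hk
  rw [s.P5b_Lam h T] at hk
  have h1 : (0 : ℝ) < 2 ^ s.JJ.card := by positivity
  have h2 : (0 : ℝ) < 2 ^ (T.biUnion s.Nf).card := by positivity
  have h3 : (0 : ℝ) < 2 ^ num s.B T := by positivity
  rw [pow_add, div_eq_div_iff (by positivity) (by positivity), div_mul_eq_mul_div,
    eq_div_iff (by positivity)] at hk
  have : dn (del s.HH (T.biUnion s.Nf)) * 2 ^ num s.B T * 2 ^ s.JJ.card =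
      dn s.HH * 2 ^ (T.biUnion s.Nf).card * 2 ^ s.JJ.card := by
    rw [hk]; ring
  exact mul_right_cancel₀ h1.ne' this

/-- (CLEAN) -/
theorem clean (h : dn s.HH / 2 ^ s.JJ.card = s.kap) {j : ℕ} (hj : j ∈ s.A)
    (hc : (s.Nf j).card = s.B ^ (j + 1)) :
    (∀ e ∈ s.HH, ∃ f ∈ s.HH, f ⊆ e ∧ Disjoint f (s.Nf j)) ∧
      ∀ k ∈ s.A, k ≠ j → Disjoint (s.Nf j) (s.Nf k) := by
  have hpos := s.P5b_pos h
  constructor
  · apply avoid_of_dn_del_eq
    have hk := s.key' h (T := {j}) (Finset.singleton_subset_iff.2 hj)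
    rw [Finset.singleton_biUnion, num_singleton, hc] at hk
    exact mul_right_cancel₀ (by positivity) hk
  · intro k hk hkj
    have h1 := s.key' h (T := {k}) (Finset.singleton_subset_iff.2 hk)
    have h2 := s.key' h (T := {j} ∪ {k}) (by
      intro x hx
      rw [Finset.mem_union, Finset.mem_singleton, Finset.mem_singleton] at hx
      rcases hx with rfl | rfl
      · exact hj
      · exact hk)
    rw [Finset.singleton_biUnion, num_singleton] at h1
    rw [num_union (by simpa using fun h => hkj h.symm), num_singleton, num_singleton] at h2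
    have hun : ({j} ∪ {k} : Finset ℕ).biUnion s.Nf = s.Nf k ∪ s.Nf j := by
      ext x
      simp only [Finset.mem_biUnion, Finset.mem_union, Finset.mem_singleton]
      constructor
      · rintro ⟨i, rfl | rfl, hx⟩
        · exact Or.inr hx
        · exact Or.inl hx
      · rintro (hx | hx)
        · exact ⟨k, Or.inr rfl, hx⟩
        · exact ⟨j, Or.inl rfl, hx⟩
    rw [hun] at h2
    have h3 : dn (del s.HH (s.Nf k)) ≤ dn (del s.HH (s.Nf k ∪ s.Nf j)) := by
      rw [← del_del]; exact dn_le_del _ _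
    -- `dn HH * 2 ^ (|Nf k| + B^(j+1)) ≤ dn HH * 2 ^ |Nf k ∪ Nf j|`
    have h4 : dn s.HH * 2 ^ ((s.Nf k).card + s.B ^ (j + 1)) ≤
        dn s.HH * 2 ^ (s.Nf k ∪ s.Nf j).card := by
      have e1 : dn s.HH * (2 : ℝ) ^ ((s.Nf k).card + s.B ^ (j + 1)) =
          dn (del s.HH (s.Nf k)) * 2 ^ (s.B ^ (j + 1) + s.B ^ (k + 1)) := by
        rw [pow_add 2 (s.Nf k).card, ← mul_assoc, ← h1, pow_add 2 (s.B ^ (j + 1))]
        ring
      rw [e1, ← h2]
      exact mul_le_mul_of_nonneg_right h3 (by positivity)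
    have h5 : (s.Nf k).card + s.B ^ (j + 1) ≤ (s.Nf k ∪ s.Nf j).card := by
      have h6 : (2 : ℝ) ^ ((s.Nf k).card + s.B ^ (j + 1)) ≤ 2 ^ (s.Nf k ∪ s.Nf j).card :=
        le_of_mul_le_mul_left h4 hpos
      exact (pow_le_pow_iff_right₀ (by norm_num : (1 : ℝ) < 2)).1 h6
    have h7 := Finset.card_union_add_card_inter (s.Nf k) (s.Nf j)
    rw [disjoint_comm, Finset.disjoint_iff_inter_eq_empty, ← Finset.card_eq_zero]
    omega

end Seg

end Pool.Agent.IDX
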