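import Pool.Agent.IDX.P3
import Pool.Agent.IDX.P4

/-! Row IDX-P5a: Step A for the segment -/

open Finset

namespace Pool.Agent.IDX

/-- The constant of Step A. -/
theorem exists_NA (C p : ℕ) : ∃ NA : ℕ, ∀ s : Seg, s.C = C → s.p = p →
    ∀ A' ⊆ s.A, NA ≤ A'.card →
      dn s.HH / 2 ^ s.JJ.card = s.kap ∧ ∃ j ∈ A', (s.Nf j).card = s.B ^ (j + 1) := by
  obtain ⟨N1, hN1⟩ := stepA (C ^ 2) (p + 1 + 2 * C ^ 2) (C + p + 2)
  refine ⟨N1, fun s hC hp A' hA' hcard => ?_⟩
  have hkap : 0 < s.kap := lt_of_lt_of_le (by positivity) s.kap_bounds.1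
  have hJ : (0 : ℝ) < 2 ^ s.JJ.card := by positivity
  have hK2 : s.K2.card ≤ C ^ 2 := by rw [← hC]; exact s.K2_card
  have hmain := hN1 s.HH s.K2 A' s.Nf s.Lam (fun j => s.B ^ (j + 1)) (s.kap * 2 ^ s.JJ.card)
    (fun e he => s.HH_card he)
    (fun e he => by
      have := (s.mem_K2 he).2.1
      omega)
    hK2 (fun j _ => Finset.filter_subset _ _) (mul_pos hkap hJ) ?_ ?_ ?_ ?_ hcard
  · obtain ⟨h1, j, hj, h2⟩ := hmain
    refine ⟨?_, j, hj, h2⟩
    rw [h1, mul_div_assoc, div_self hJ.ne', mul_one]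
  · have hk := s.key (T := ∅) (Finset.empty_subset _)
    rw [if_pos rfl, s.gg_empty, num_empty, Finset.biUnion_empty, Finset.card_empty, add_zero,
      pow_zero, div_one] at hk
    have h0 := s.eps0_nonneg
    rw [← div_le_iff₀ hJ]
    linarith
  · intro T hT hT0
    have hk := s.key (hT.trans hA')
    rw [if_neg hT0.ne_empty, add_zero] at hk
    unfold Seg.gg at hk
    have h2 : (0 : ℝ) < 2 ^ (T.biUnion s.Nf).card := by positivity
    have h3 : (0 : ℝ) < 2 ^ num s.B T := by positivity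
    rw [div_eq_div_iff (by positivity) h3.ne', pow_add] at hk
    show _ * 2 ^ num s.B T = _
    rw [hk]; ring
  · intro T hT hT0
    have h1 := s.NN_le (hT.trans hA') hT0
    show _ ≤ num s.B T + _
    refine h1.trans ?_
    rw [hp]
    have : 2 * s.K2.card ≤ 2 * C ^ 2 := Nat.mul_le_mul_left _ hK2
    omega
  · intro j hj
    have h1 := s.Nf_ge (hA' hj)
    rw [hC, hp] at h1
    exact h1

end Pool.Agent.IDX
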