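import Pool.Agent.IDX.P5

/-! A segment with a set `DD` of clean windows. -/

open Finset

namespace Pool.Agent.IDX

structure Cln extends Seg where
  /-- clean windows -/
  DD : Finset ℕ
  hDD : DD ⊆ toSeg.A
  hQg : toSeg.Qg = toSys.K2
  hcl1 : ∀ j ∈ DD, ∀ e ∈ toSeg.HH, ∃ f ∈ toSeg.HH, f ⊆ e ∧ Disjoint f (toSeg.Nf j)
  hcl2 : ∀ j ∈ DD, Disjoint (toSeg.Nf j) toSys.T0
  hcl3 : ∀ j ∈ DD, ∀ k ∈ toSeg.A, k ≠ j → Disjoint (toSeg.Nf j) (toSeg.Nf k)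

namespace Cln

variable (s : Cln)

/-- The bounded exceptional set. -/
def Xi : Finset ℕ := s.T0 ∪ s.Jg ∪ (s.A \ s.DD).image s.vv

/-- The vertices killed by `τ`. -/
def kl (τ : Finset ℕ) : Finset ℕ :=
  (vx (s.F ∪ s.G)).filter (fun z => ∃ e ∈ s.F ∪ s.G, z ∈ e ∧ e ⊆ insert z τ)

/-- The types. -/
def TT : Finset (Finset ℕ) := s.Xi.powerset.filter (Ind (s.F ∪ s.G))

/-- The clean windows allowed by `τ`. -/
def Al (τ : Finset ℕ) : Finset ℕ := s.DD.filter (fun j => s.vv j ∉ s.kl τ)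

/-- The total weight of the states of type `(τ, J')`. -/
noncomputable def PP (τ J' : Finset ℕ) : ℝ :=
  ∑ S ∈ s.St.filter (fun S => S ∩ s.Xi = τ ∧ s.DD.filter (fun j => s.vv j ∈ S) = J'),
    (1 : ℝ) / 2 ^ (s.Γ.card + s.f S)

end Cln

end Pool.Agent.IDX
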