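import Pool.Agent.IDX.Q1a

/-! Row IDX-Q1b: independence criterion -/

open Finset

namespace Pool.Agent.IDX

namespace Cln

variable (s : Cln)

/-- `R` with trace `τ` on `Xi` is independent iff `R \ τ` avoids `kl τ`, the star conditions hold,
and `R` minus the blocks is independent. -/
theorem ind_iff {τ R : Finset ℕ} (hτ : τ ∈ s.TT) (hR : R ∩ s.Xi = τ) :
    Ind (s.F ∪ s.G) R ↔ Disjoint R (s.kl τ) ∧
      (∀ j ∈ s.DD, s.vv j ∈ R → Disjoint R (s.Nf j)) ∧
      Ind (s.F ∪ s.G) (R \ s.DD.biUnion (fun j => insert (s.vv j) (s.Nf j))) := by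
  have hτR : τ ⊆ R := hR ▸ Finset.inter_subset_left
  constructor
  · intro h
    refine ⟨?_, ?_, ?_⟩
    · rw [Finset.disjoint_left]
      intro z hz hzk
      obtain ⟨-, e, he, -, hez⟩ := Finset.mem_filter.1 hzk
      exact h e he (hez.trans (Finset.insert_subset hz hτR))
    · intro j _ hjR
      rw [Finset.disjoint_right]
      intro w hw hwR
      refine h {s.vv j, w} (Finset.mem_union_right _ (s.toSeg.mem_Nf.1 hw).2) ?_
      rw [Finset.insert_subset_iff, Finset.singleton_subset_iff]
      exact ⟨hjR, hwR⟩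
    · intro e he hs
      exact h e he (hs.trans Finset.sdiff_subset)
  · rintro ⟨h1, h2, h3⟩ e he hs
    by_cases hd : ∃ b ∈ e, b ∈ s.DD.biUnion (fun j => insert (s.vv j) (s.Nf j))
    · obtain ⟨b, hb, hbB⟩ := hd
      obtain ⟨j, hj, hbj⟩ := Finset.mem_biUnion.1 hbB
      rcases s.edge_block hj he hb hbj with ⟨w, hw, rfl⟩ | hX
      · rw [Finset.insert_subset_iff, Finset.singleton_subset_iff] at hs
        exact Finset.disjoint_left.1 (h2 j hj hs.1) hs.2 hw
      · have h4 : e ⊆ insert b τ := by
          rw [← Finset.insert_erase hb]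
          apply Finset.insert_subset_insert
          rw [← hR]
          exact Finset.subset_inter ((Finset.erase_subset _ _).trans hs) hX
        refine Finset.disjoint_left.1 h1 (hs hb) (Finset.mem_filter.2 ⟨?_, e, he, hb, h4⟩)
        exact subset_vx he hb
    · push Not at hd
      exact h3 e he fun z hz => Finset.mem_sdiff.2 ⟨hs hz, hd z hz⟩

end Cln

end Pool.Agent.IDX
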