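import Pool.Agent.IDX.Q1b

/-! Row IDX-Q1c: the product formula -/

open Finset

namespace Pool.Agent.IDX

namespace Cln

variable (s : Cln)

private theorem Q1c_ind {τ R : Finset ℕ} {j : ℕ} (hR : R ∩ s.Xi = τ) (hj : j ∈ s.DD) :
    Ind (s.F ∪ s.G) R ↔ Ind (s.F ∪ s.G) (R \ insert (s.vv j) (s.Nf j)) ∧
      Disjoint (R ∩ insert (s.vv j) (s.Nf j)) (s.kl τ) ∧
      (s.vv j ∈ R → Disjoint (R ∩ insert (s.vv j) (s.Nf j)) (s.Nf j)) := by
  have hτR : τ ⊆ R := hR ▸ Finset.inter_subset_left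
  constructor
  · intro h
    refine ⟨?_, ?_, ?_⟩
    · intro e he hs
      exact h e he (hs.trans Finset.sdiff_subset)
    · rw [Finset.disjoint_left]
      intro z hz hzk
      obtain ⟨-, e, he, -, hez⟩ := Finset.mem_filter.1 hzk
      exact h e he (hez.trans (Finset.insert_subset (Finset.mem_inter.1 hz).1 hτR))
    · intro hjR
      rw [Finset.disjoint_right]
      intro w hw hwR
      refine h {s.vv j, w} (Finset.mem_union_right _ (s.toSeg.mem_Nf.1 hw).2) ?_
      rw [Finset.insert_subset_iff, Finset.singleton_subset_iff]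
      exact ⟨hjR, (Finset.mem_inter.1 hwR).1⟩
  · rintro ⟨h1, h2, h3⟩ e he hs
    by_cases hd : ∃ b ∈ e, b ∈ insert (s.vv j) (s.Nf j)
    · obtain ⟨b, hb, hbj⟩ := hd
      rcases s.edge_block hj he hb hbj with ⟨w, hw, rfl⟩ | hX
      · rw [Finset.insert_subset_iff, Finset.singleton_subset_iff] at hs
        exact Finset.disjoint_left.1 (h3 hs.1)
          (Finset.mem_inter.2 ⟨hs.2, Finset.mem_insert_of_mem hw⟩) hw
      · have h4 : e ⊆ insert b τ := by
          rw [← Finset.insert_erase hb]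
          apply Finset.insert_subset_insert
          rw [← hR]
          exact Finset.subset_inter ((Finset.erase_subset _ _).trans hs) hX
        refine Finset.disjoint_left.1 h2 (Finset.mem_inter.2 ⟨hs hb, hbj⟩)
          (Finset.mem_filter.2 ⟨?_, e, he, hb, h4⟩)
        exact subset_vx he hb
    · push Not at hd
      exact h1 e he fun z hz => Finset.mem_sdiff.2 ⟨hs hz, hd z hz⟩

private theorem Q1c_filter {R : Finset ℕ} {j : ℕ} (hj : j ∈ s.DD) :
    s.DD.filter (fun k => s.vv k ∈ R \ insert (s.vv j) (s.Nf j)) =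
      (s.DD.filter (fun k => s.vv k ∈ R)).erase j := by
  ext k
  simp only [Finset.mem_filter, Finset.mem_erase, Finset.mem_sdiff]
  constructor
  · rintro ⟨h1, h2, h3⟩
    refine ⟨?_, h1, h2⟩
    rintro rfl
    exact h3 (Finset.mem_insert_self _ _)
  · rintro ⟨h1, h2, h3⟩
    exact ⟨h2, h3, Finset.disjoint_left.1 (s.block_block h2 hj h1) (Finset.mem_insert_self _ _)⟩

private theorem Q1c_Xi {R : Finset ℕ} {j : ℕ} (hj : j ∈ s.DD) :
    (R \ insert (s.vv j) (s.Nf j)) ∩ s.Xi = R ∩ s.Xi := by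
  ext z
  simp only [Finset.mem_inter, Finset.mem_sdiff]
  constructor
  · rintro ⟨⟨h1, -⟩, h2⟩
    exact ⟨h1, h2⟩
  · rintro ⟨h1, h2⟩
    exact ⟨⟨h1, fun h => Finset.disjoint_left.1 (s.block_Xi hj) h h2⟩, h2⟩

private theorem Q1c_PP (τ J' : Finset ℕ) :
    s.PP τ J' = pr (vx (s.F ∪ s.G) ∪ s.Γ) (fun R => Ind (s.F ∪ s.G) R ∧
      (R ∩ s.Xi = τ ∧ s.DD.filter (fun j => s.vv j ∈ R) = J')) := by
  classical
  have h1 := core (H := s.F ∪ s.G) (Γ := s.Γ) (U := vx (s.F ∪ s.G) ∪ s.Γ)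
    s.toSeg.toSysD.toSys.FG_outside Finset.subset_union_left Finset.subset_union_right
    (fun S => S ∩ s.Xi = τ ∧ s.DD.filter (fun j => s.vv j ∈ S) = J')
  have h2 : pr (vx (s.F ∪ s.G) ∪ s.Γ) (fun R => Ind (s.F ∪ s.G) R ∧
      (R ∩ s.Xi = τ ∧ s.DD.filter (fun j => s.vv j ∈ R) = J')) =
      pr (vx (s.F ∪ s.G) ∪ s.Γ) (fun R => Ind (s.F ∪ s.G) R ∧
      ((R ∩ s.Γ) ∩ s.Xi = τ ∧ s.DD.filter (fun j => s.vv j ∈ R ∩ s.Γ) = J')) := by
    apply pr_congr
    intro R _
    have e1 : (R ∩ s.Γ) ∩ s.Xi = R ∩ s.Xi := by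
      rw [Finset.inter_assoc, Finset.inter_eq_right.2 s.Xi_subset]
    have e2 : s.DD.filter (fun j => s.vv j ∈ R ∩ s.Γ) = s.DD.filter (fun j => s.vv j ∈ R) := by
      apply Finset.filter_congr
      intro j hj
      rw [Finset.mem_inter]
      exact ⟨fun h => h.1, fun h => ⟨h, (s.hvv j (s.hDD hj)).1⟩⟩
    rw [e1, e2]
  rw [h2, h1]
  unfold Cln.PP Sys.St Sys.f
  rw [Finset.filter_filter]
  apply Finset.sum_congr
  · ext S
    simp only [Finset.mem_filter]
  · intro S _
    rfl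

private theorem Q1c_step {τ J' : Finset ℕ} {j : ℕ} (hj : j ∈ s.DD) (hjJ : j ∉ J') :
    s.PP τ (insert j J') = s.PP τ J' *
      (if s.vv j ∈ s.kl τ then (0 : ℝ) else 1 / 2 ^ (s.Nf j \ s.kl τ).card) := by
  classical
  set U := vx (s.F ∪ s.G) ∪ s.Γ with hU
  set Bj := insert (s.vv j) (s.Nf j) with hBj
  have hBU : Bj ⊆ U := by
    rw [hBj, Finset.insert_subset_iff]
    refine ⟨Finset.mem_union_right _ (s.hvv j (s.hDD hj)).1, fun z hz => ?_⟩
    apply Finset.mem_union_left
    exact subset_vx (Finset.mem_union_right _ (s.toSeg.mem_Nf.1 hz).2)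
      (Finset.mem_insert_of_mem (Finset.mem_singleton_self z))
  have hUU : Bj ∪ (U \ Bj) = U := Finset.union_sdiff_of_subset hBU
  have hdis : Disjoint Bj (U \ Bj) := Finset.disjoint_sdiff
  have hRU : ∀ R ⊆ U, R ∩ (U \ Bj) = R \ Bj := by
    intro R hR
    ext z
    simp only [Finset.mem_inter, Finset.mem_sdiff]
    exact ⟨fun h => ⟨h.1, h.2.2⟩, fun h => ⟨h.1, hR h.1, h.2⟩⟩
  have hjB : s.vv j ∈ Bj := Finset.mem_insert_self _ _
  have hmemj : ∀ R, s.vv j ∈ R ∩ Bj ↔ s.vv j ∈ R := fun R =>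
    ⟨fun h => (Finset.mem_inter.1 h).1, fun h => Finset.mem_inter.2 ⟨h, hjB⟩⟩
  set b : Finset ℕ → Prop := fun Y => Ind (s.F ∪ s.G) Y ∧
      (Y ∩ s.Xi = τ ∧ s.DD.filter (fun k => s.vv k ∈ Y) = J') with hb
  set a0 : Finset ℕ → Prop := fun X => X ∩ (insert (s.vv j) (Bj ∩ s.kl τ)) = ∅ with ha0
  set a1 : Finset ℕ → Prop := fun X => s.vv j ∈ X ∧ Disjoint X (s.kl τ) ∧
    Disjoint X (s.Nf j) with ha1
  have hE0 : s.PP τ J' = pr Bj a0 * pr (U \ Bj) b := by
    rw [Q1c_PP, ← pr_mul hdis, hUU]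
    apply pr_congr
    intro R hR
    rw [hRU R hR]
    have hf := Q1c_filter s (R := R) hj
    have hX := Q1c_Xi s (R := R) hj
    rw [← hBj] at hf hX
    simp only [hb, ha0]
    rw [hf, hX]
    constructor
    · rintro ⟨h1, h2, h3⟩
      have hi := (Q1c_ind s h2 hj).1 h1
      rw [← hBj] at hi
      have hjR : s.vv j ∉ R := by
        intro h
        apply hjJ
        rw [← h3]
        exact Finset.mem_filter.2 ⟨hj, h⟩
      refine ⟨?_, hi.1, h2, ?_⟩
      · rw [Finset.eq_empty_iff_forall_notMem]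
        intro z hz
        rw [Finset.mem_inter, Finset.mem_insert] at hz
        obtain ⟨hz1, rfl | hz2⟩ := hz
        · exact hjR ((hmemj R).1 hz1)
        · exact Finset.disjoint_left.1 hi.2.1 hz1 (Finset.mem_inter.1 hz2).2
      · rw [h3, Finset.erase_eq_of_notMem hjJ]
    · rintro ⟨h1, h2, h3, h4⟩
      have hjR : s.vv j ∉ R := by
        intro h
        have : s.vv j ∈ R ∩ Bj ∩ insert (s.vv j) (Bj ∩ s.kl τ) :=
          Finset.mem_inter.2 ⟨(hmemj R).2 h, Finset.mem_insert_self _ _⟩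
        rw [h1] at this
        exact absurd this (Finset.notMem_empty _)
      refine ⟨(Q1c_ind s h3 hj).2 ⟨h2, ?_, fun h => absurd h hjR⟩, h3, ?_⟩
      · rw [Finset.disjoint_left]
        intro z hz hzk
        have : z ∈ R ∩ Bj ∩ insert (s.vv j) (Bj ∩ s.kl τ) :=
          Finset.mem_inter.2 ⟨hz, Finset.mem_insert_of_mem
            (Finset.mem_inter.2 ⟨(Finset.mem_inter.1 hz).2, hzk⟩)⟩
        rw [h1] at this
        exact absurd this (Finset.notMem_empty _)
      · rw [← h4, Finset.erase_eq_of_notMem]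
        exact fun h => hjR (Finset.mem_filter.1 h).2
  have hE1 : s.PP τ (insert j J') = pr Bj a1 * pr (U \ Bj) b := by
    rw [Q1c_PP, ← pr_mul hdis, hUU]
    apply pr_congr
    intro R hR
    rw [hRU R hR]
    have hf := Q1c_filter s (R := R) hj
    have hX := Q1c_Xi s (R := R) hj
    rw [← hBj] at hf hX
    simp only [hb, ha1]
    rw [hf, hX, hmemj]
    constructor
    · rintro ⟨h1, h2, h3⟩
      have hi := (Q1c_ind s h2 hj).1 h1
      rw [← hBj] at hi
      have hjR : s.vv j ∈ R := by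
        have : j ∈ s.DD.filter (fun k => s.vv k ∈ R) := by
          rw [h3]; exact Finset.mem_insert_self _ _
        exact (Finset.mem_filter.1 this).2
      refine ⟨⟨hjR, hi.2.1, hi.2.2 hjR⟩, hi.1, h2, ?_⟩
      rw [h3, Finset.erase_insert hjJ]
    · rintro ⟨⟨h0, h1, h1'⟩, h2, h3, h4⟩
      refine ⟨(Q1c_ind s h3 hj).2 ⟨h2, h1, fun _ => h1'⟩, h3, ?_⟩
      rw [← h4, Finset.insert_erase]
      exact Finset.mem_filter.2 ⟨hj, h0⟩
  have hjN := s.vv_notMem_Nf hj
  have hp0 : pr Bj a0 = 1 / 2 ^ (insert (s.vv j) (Bj ∩ s.kl τ)).card :=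
    pr_inter_empty (Finset.insert_subset hjB Finset.inter_subset_left)
  have hcard : (insert (s.vv j) (Bj ∩ s.kl τ)).card = (s.Nf j ∩ s.kl τ).card + 1 := by
    have : insert (s.vv j) (Bj ∩ s.kl τ) = insert (s.vv j) (s.Nf j ∩ s.kl τ) := by
      ext z
      simp only [hBj, Finset.mem_insert, Finset.mem_inter]
      tauto
    rw [this, Finset.card_insert_of_notMem]
    exact fun h => hjN (Finset.mem_inter.1 h).1
  have hcard2 := Finset.card_inter_add_card_sdiff (s.Nf j) (s.kl τ)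
  have hcard3 : Bj.card = (s.Nf j).card + 1 := Finset.card_insert_of_notMem hjN
  rw [hE1, hE0, hp0, hcard]
  split_ifs with hk
  · have : pr Bj a1 = 0 := by
      have h1 : pr Bj a1 = pr Bj (fun _ => ¬ True) := by
        apply pr_congr
        intro R _
        simp only [ha1, not_true_eq_false, iff_false]
        rintro ⟨h1, h2, -⟩
        exact Finset.disjoint_left.1 h2 h1 hk
      rw [h1, pr_not, pr_true, sub_self]
    rw [this]
    ring
  · have : pr Bj a1 = 1 / 2 ^ Bj.card := by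
      rw [← pr_eq_singleton (Finset.singleton_subset_iff.2 hjB)]
      apply pr_congr
      intro R hR
      simp only [ha1]
      constructor
      · rintro ⟨h1, -, h3⟩
        ext z
        rw [Finset.mem_singleton]
        constructor
        · intro hz
          rcases Finset.mem_insert.1 (hR hz) with h | h
          · exact h
          · exact absurd h (Finset.disjoint_left.1 h3 hz)
        · rintro rfl
          exact h1
      · rintro rfl
        refine ⟨Finset.mem_singleton_self _, ?_, ?_⟩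
        · rw [Finset.disjoint_singleton_left]; exact hk
        · rw [Finset.disjoint_singleton_left]; exact hjN
    rw [this, hcard3, ← hcard2]
    have e : (s.Nf j ∩ s.kl τ).card + (s.Nf j \ s.kl τ).card + 1 =
        ((s.Nf j ∩ s.kl τ).card + 1) + (s.Nf j \ s.kl τ).card := by ring
    rw [e, pow_add]
    field_simp

/-- (FACT) -/
theorem fact {τ J' : Finset ℕ} (hτ : τ ∈ s.TT) (hJ : J' ⊆ s.DD) :
    s.PP τ J' = s.PP τ ∅ *
      ∏ j ∈ J', (if s.vv j ∈ s.kl τ then (0 : ℝ) else 1 / 2 ^ (s.Nf j \ s.kl τ).card) := by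
  classical
  induction J' using Finset.induction_on with
  | empty => simp
  | insert j J' hjJ ih =>
    have h1 := ih ((Finset.subset_insert _ _).trans hJ)
    rw [Q1c_step s (hJ (Finset.mem_insert_self _ _)) hjJ, h1, Finset.prod_insert hjJ]
    ring

end Cln

end Pool.Agent.IDX
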