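import Pool.Agent.IDX.Q0

/-! Row IDX-Q1a: blocks and edges -/

open Finset

namespace Pool.Agent.IDX

namespace Cln

variable (s : Cln)

theorem Xi_subset : s.Xi ⊆ s.Γ := by
  intro v hv
  rw [Cln.Xi, Finset.mem_union, Finset.mem_union] at hv
  rcases hv with (hv | hv) | hv
  · exact s.toSeg.toSysD.toSys.T0_subset hv
  · exact (Finset.mem_filter.1 hv).1
  · obtain ⟨j, hj, rfl⟩ := Finset.mem_image.1 hv
    exact (s.hvv j (Finset.mem_sdiff.1 hj).1).1

private theorem Q1a_T0 {j b : ℕ} (hj : j ∈ s.DD) (hbB : b ∈ insert (s.vv j) (s.Nf j)) :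
    b ∉ s.T0 := by
  rcases Finset.mem_insert.1 hbB with rfl | h
  · exact (s.hvv j (s.hDD hj)).2.2
  · exact Finset.disjoint_left.1 (s.hcl2 j hj) h

private theorem Q1a_inj {j k : ℕ} (hj : j ∈ s.A) (hk : k ∈ s.A) (h : s.vv j = s.vv k) : j = k := by
  have h1 := (s.hvv j hj).2.1
  have h2 := (s.hvv k hk).2.1
  rw [h, h2] at h1
  omega

private theorem Q1a_JJ {j : ℕ} (hj : j ∈ s.A) : s.vv j ∈ s.JJ :=
  Finset.mem_union_left _ (Finset.mem_image_of_mem _ hj)

private theorem Q1a_Jg {j : ℕ} (hj : j ∈ s.A) : s.vv j ∉ s.Jg := by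
  intro h
  have h1 := (Finset.mem_filter.1 h).2
  have h2 := (s.hvv j hj).2.1
  have h3 := (Finset.mem_Ico.1 hj).2
  rw [h2] at h1
  omega

/-- The blocks `B_j = {vv j} ∪ Nf j` (`j ∈ DD`) are disjoint from `Xi`... -/
theorem block_Xi {j : ℕ} (hj : j ∈ s.DD) : Disjoint (insert (s.vv j) (s.Nf j)) s.Xi := by
  rw [Finset.disjoint_left]
  intro b hb hbX
  have hT := Q1a_T0 s hj hb
  rw [Cln.Xi, Finset.mem_union, Finset.mem_union] at hbX
  rcases Finset.mem_insert.1 hb with rfl | h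
  · rcases hbX with (hbX | hbX) | hbX
    · exact hT hbX
    · exact Q1a_Jg s (s.hDD hj) hbX
    · obtain ⟨k, hk, hkj⟩ := Finset.mem_image.1 hbX
      rw [Finset.mem_sdiff] at hk
      have := Q1a_inj s hk.1 (s.hDD hj) hkj
      exact hk.2 (this ▸ hj)
  · have hJJ : b ∉ s.JJ := (s.toSeg.mem_Nf.1 h).1
    rcases hbX with (hbX | hbX) | hbX
    · exact hT hbX
    · exact hJJ (Finset.mem_union_right _ hbX)
    · obtain ⟨k, hk, rfl⟩ := Finset.mem_image.1 hbX
      exact hJJ (Q1a_JJ s (Finset.mem_sdiff.1 hk).1)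

/-- ... and pairwise disjoint. -/
theorem block_block {j k : ℕ} (hj : j ∈ s.DD) (hk : k ∈ s.DD) (h : j ≠ k) :
    Disjoint (insert (s.vv j) (s.Nf j)) (insert (s.vv k) (s.Nf k)) := by
  rw [Finset.disjoint_left]
  intro b hb hb'
  rcases Finset.mem_insert.1 hb with rfl | h1 <;> rcases Finset.mem_insert.1 hb' with h2 | h2
  · exact h (Q1a_inj s (s.hDD hj) (s.hDD hk) h2)
  · exact (s.toSeg.mem_Nf.1 h2).1 (Q1a_JJ s (s.hDD hj))
  · subst h2
    exact (s.toSeg.mem_Nf.1 h1).1 (Q1a_JJ s (s.hDD hk))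
  · exact Finset.disjoint_left.1 (s.hcl3 j hj k (s.hDD hk) h.symm) h1 h2

theorem vv_notMem_Nf {j : ℕ} (hj : j ∈ s.DD) : s.vv j ∉ s.Nf j := fun h =>
  (s.toSeg.mem_Nf.1 h).1 (Q1a_JJ s (s.hDD hj))

/-- An edge of `F ∪ G` meeting a block `B_j` at `b` is `{vv j, w}` with `w ∈ Nf j`, or all its
other vertices are in `Xi`.

Proof.  Edge of `G`, `{b, x}`: if `b = vv j` then `x ∈ Nf j` or `x ∈ JJ`; `x ∈ JA` is impossible (the
centres of the segment are independent), so `x ∈ Jg ⊆ Xi`.  If `b ∈ Nf j`: `x ∈ Jg ⊆ Xi` fine;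
`x = vv k ∈ JA`: then `b ∈ Nf k`, so `k = j` by `hcl3`; `x ∉ JJ`: then `{b,x} ∈ HH` and by `hcl1`
contains an edge of `HH` avoiding `Nf j`, of size `≥ 2`, so `{b,x}` itself avoids `Nf j`,
contradiction.  Edge of `F`: `b ∉ T0` (`vv j ∉ T0`, `hcl2`), so `e.erase b ∈ K2`, `⊆ T0 ⊆ Xi`. -/
theorem edge_block {j b : ℕ} (hj : j ∈ s.DD) {e : Finset ℕ} (he : e ∈ s.F ∪ s.G) (hb : b ∈ e)
    (hbB : b ∈ insert (s.vv j) (s.Nf j)) :
    (∃ w ∈ s.Nf j, e = {s.vv j, w}) ∨ e.erase b ⊆ s.Xi := by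
  have hT := Q1a_T0 s hj hbB
  rcases Finset.mem_union.1 he with heF | heG
  · right
    have h1 := s.toSeg.toSysD.toSys.F_germ heF hb hT
    have h2 := (s.toSeg.toSysD.toSys.mem_K2 h1).2.2
    intro z hz
    exact Finset.mem_union_left _ (Finset.mem_union_left _ (h2 hz))
  · have hcard := s.hG e heG
    have h1 : (e.erase b).card = 1 := by rw [Finset.card_erase_of_mem hb, hcard]
    obtain ⟨x, hx⟩ := Finset.card_eq_one.1 h1
    have hex : e = {b, x} := by rw [← hx, Finset.insert_erase hb]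
    have hbx : b ≠ x := by
      rintro rfl
      have : b ∈ e.erase b := by rw [hx]; exact Finset.mem_singleton_self b
      simp at this
    have hJg : x ∈ s.Jg → e.erase b ⊆ s.Xi := by
      intro h
      rw [hx, Finset.singleton_subset_iff]
      exact Finset.mem_union_left _ (Finset.mem_union_right _ h)
    rcases Finset.mem_insert.1 hbB with hbj | hbN
    · by_cases hxJ : x ∈ s.JJ
      · rcases Finset.mem_union.1 hxJ with hxA | hxg
        · exfalso
          have h2 := (s.toSeg.toSysD.toSys.mem_St.1 s.toSeg.image_A_mem).2 e he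
          apply h2
          rw [hex, Finset.insert_subset_iff, Finset.singleton_subset_iff]
          exact ⟨hbj ▸ Finset.mem_image_of_mem _ (s.hDD hj), hxA⟩
        · exact Or.inr (hJg hxg)
      · left
        refine ⟨x, s.toSeg.mem_Nf.2 ⟨hxJ, ?_⟩, ?_⟩
        · rw [← hbj, ← hex]; exact heG
        · rw [← hbj]; exact hex
    · have hbJ := (s.toSeg.mem_Nf.1 hbN).1
      by_cases hxJ : x ∈ s.JJ
      · rcases Finset.mem_union.1 hxJ with hxA | hxg
        · obtain ⟨k, hk, rfl⟩ := Finset.mem_image.1 hxA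
          left
          have hbk : b ∈ s.Nf k := s.toSeg.mem_Nf.2 ⟨hbJ, by
            rw [Finset.pair_comm, ← hex]; exact heG⟩
          have hkj : k = j := by
            by_contra hne
            exact Finset.disjoint_left.1 (s.hcl3 j hj k hk hne) hbN hbk
          subst hkj
          exact ⟨b, hbk, by rw [Finset.pair_comm]; exact hex⟩
        · exact Or.inr (hJg hxg)
      · exfalso
        have heH : e ∈ s.HH := by
          refine Finset.mem_filter.2 ⟨Finset.mem_union_left _ he, ?_⟩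
          rw [hex, Finset.disjoint_insert_left, Finset.disjoint_singleton_left]
          exact ⟨hbJ, hxJ⟩
        obtain ⟨f, hf, hfe, hfd⟩ := s.hcl1 j hj e heH
        have h2 := (s.toSeg.HH_card hf).1
        have h3 := Finset.eq_of_subset_of_card_le hfe (by omega)
        exact Finset.disjoint_left.1 hfd (h3 ▸ hb) hbN

end Cln

end Pool.Agent.IDX
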