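import Pool.Agent.IDX.Q2a

/-! Row IDX-Q2b: additivity of the digits -/

open Finset

namespace Pool.Agent.IDX

namespace Cln

variable (s : Cln)

theorem Q2b_TT_St {τ : Finset ℕ} (hτ : τ ∈ s.TT) : τ ∈ s.St := by
  unfold TT at hτ
  rw [mem_filter, mem_powerset] at hτ
  rw [s.mem_St]
  exact ⟨hτ.1.trans s.Xi_subset, hτ.2⟩

theorem Q2b_Al_DD {j : ℕ} {T : Finset ℕ} (hj : j ∈ s.Al T) : j ∈ s.DD := by
  unfold Al at hj
  exact (mem_filter.mp hj).1

theorem Q2b_vv_T0 {j : ℕ} (hj : j ∈ s.DD) : s.vv j ∉ s.T0 := by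
  have h := s.hDD hj
  rw [s.mem_A] at h
  exact (s.hvv j (mem_Ico.mpr h)).2.2

theorem Q2b_kill {τ J' : Finset ℕ} (hτ : τ ∈ s.TT) (hJ : J' ⊆ s.Al τ) :
    kill (s.F ∪ s.G) s.Γ (τ ∪ J'.image s.vv) =
      kill (s.F ∪ s.G) s.Γ τ ∪ J'.biUnion (fun j => s.No (s.vv j)) := by
  rw [s.kill_St (s.state_mem hτ hJ), s.kill_St (s.Q2b_TT_St hτ)]
  have h1 : s.K2.filter (fun Q => Q ⊆ τ ∪ J'.image s.vv) = s.K2.filter (fun Q => Q ⊆ τ) := by
    apply filter_congr
    intro Q hQ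
    constructor
    · intro h x hx
      rcases mem_union.mp (h hx) with h2 | h2
      · exact h2
      · exfalso
        obtain ⟨j, hj, rfl⟩ := mem_image.mp h2
        have hjD : j ∈ s.DD := by
          have := hJ hj
          unfold Al at this
          exact (mem_filter.mp this).1
        exact s.Q2b_vv_T0 hjD ((s.mem_K2 hQ).2.2 hx)
    · intro h
      exact h.trans subset_union_left
  rw [h1, union_biUnion, image_biUnion, union_right_comm]

theorem Q2b_card {K : Finset ℕ} {J' : Finset ℕ} (N : ℕ → Finset ℕ)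
    (hd : ∀ i ∈ J', ∀ j ∈ J', i ≠ j → Disjoint (N i) (N j)) :
    (K ∪ J'.biUnion N).card = K.card + ∑ j ∈ J', (N j \ K).card := by
  have h1 : K ∪ J'.biUnion N = K ∪ J'.biUnion (fun j => N j \ K) := by
    ext x
    simp only [mem_union, mem_biUnion, mem_sdiff]
    by_cases hx : x ∈ K
    · simp [hx]
    · simp [hx]
  rw [h1, card_union_of_disjoint, card_biUnion]
  · intro i hi j hj hij
    exact (hd i hi j hj hij).mono sdiff_subset sdiff_subset
  · rw [disjoint_biUnion_right]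
    intro j _
    exact disjoint_sdiff

/-- `f (τ ∪ vv(J')) = f τ + ∑_{j ∈ J'} |No (vv j) \ kill τ|`. -/
theorem f_add {τ J' : Finset ℕ} (hτ : τ ∈ s.TT) (hJ : J' ⊆ s.Al τ) :
    s.f (τ ∪ J'.image s.vv) = s.f τ + ∑ j ∈ J', (s.No (s.vv j) \ kill (s.F ∪ s.G) s.Γ τ).card := by
  unfold Sys.f
  rw [s.Q2b_kill hτ hJ]
  apply Q2b_card
  intro i hi j hj hij
  have hiD : i ∈ s.DD := by
    have := hJ hi
    unfold Al at this
    exact (mem_filter.mp this).1
  have hjD : j ∈ s.DD := by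
    have := hJ hj
    unfold Al at this
    exact (mem_filter.mp this).1
  exact (s.hcl3 i hiD j (s.hDD hjD) (Ne.symm hij)).mono (s.No_subset_Nf (s.hDD hiD))
    (s.No_subset_Nf (s.hDD hjD))

theorem Q2b_num (B n : ℕ) {D : Finset ℕ} (h : D ⊆ range n) :
    (num B D : ℤ) = ∑ i ∈ range n, (if i ∈ D then (1 : ℤ) else 0) * (B : ℤ) ^ (i + 1) := by
  unfold num
  push_cast
  rw [← sum_subset h]
  · apply sum_congr rfl
    intro i hi
    rw [if_pos hi, one_mul]
  · intro i _ hi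
    rw [if_neg hi, zero_mul]

/-- (DIG) -/
theorem digits_add {τ J' : Finset ℕ} (hτ : τ ∈ s.TT) (hJ : J' ⊆ s.Al τ) {k : ℕ} (hk : s.sg ≤ k) :
    (if k ∈ s.Df (τ ∪ J'.image s.vv) then (1 : ℤ) else 0) =
      (if k ∈ s.Df τ then (1 : ℤ) else 0) +
        ∑ j ∈ J', ((if k ∈ s.Df (insert (s.vv j) τ) then (1 : ℤ) else 0) -
          (if k ∈ s.Df τ then (1 : ℤ) else 0)) := by
  classical
  have hSt : τ ∪ J'.image s.vv ∈ s.St := s.state_mem hτ hJ
  have hτSt : τ ∈ s.St := s.Q2b_TT_St hτ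
  have hins : ∀ j, insert (s.vv j) τ = τ ∪ ({j} : Finset ℕ).image s.vv := by
    intro j
    rw [image_singleton, union_comm, insert_eq]
  have hj0 : ∀ j ∈ J', ({j} : Finset ℕ) ⊆ s.Al τ := by
    intro j hj
    rw [singleton_subset_iff]
    exact hJ hj
  have hj1 : ∀ j ∈ J', insert (s.vv j) τ ∈ s.St := by
    intro j hj
    rw [hins]
    exact s.state_mem hτ (hj0 j hj)
  have hfj : ∀ j ∈ J', s.f (insert (s.vv j) τ) =
      s.f τ + (s.No (s.vv j) \ kill (s.F ∪ s.G) s.Γ τ).card := by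
    intro j hj
    rw [hins, s.f_add hτ (hj0 j hj), sum_singleton]
  have hf := s.f_add hτ hJ
  have hrange : ∀ S ∈ s.St, s.Df S ⊆ range s.n := fun S hS => s.hBB _ (s.hD S hS).1
  by_cases hkn : k < s.n
  swap
  · have hz : ∀ S ∈ s.St, k ∉ s.Df S := by
      intro S hS h
      exact hkn (mem_range.mp (hrange S hS h))
    rw [if_neg (hz _ hSt), if_neg (hz _ hτSt), sum_eq_zero]
    · simp
    · intro j hj
      rw [if_neg (hz _ (hj1 j hj))]
      simp
  -- the coefficients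
  set c : ℕ → ℤ := fun i => (if i ∈ s.Df (τ ∪ J'.image s.vv) then (1 : ℤ) else 0) -
      (if i ∈ s.Df τ then (1 : ℤ) else 0) -
        ∑ j ∈ J', ((if i ∈ s.Df (insert (s.vv j) τ) then (1 : ℤ) else 0) -
          (if i ∈ s.Df τ then (1 : ℤ) else 0)) with hc
  have hJcard : J'.card ≤ s.n := by
    have h1 : J' ⊆ range s.n := by
      intro j hj
      have h2 := hJ hj
      unfold Al at h2
      have h3 := s.hDD (mem_filter.mp h2).1
      rw [s.mem_A] at h3
      have := s.hel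
      exact mem_range.mpr (by omega)
    simpa using card_le_card h1
  have hcb : ∀ i, |c i| ≤ ((J'.card + 1 : ℕ) : ℤ) := by
    intro i
    have h1 : |(if i ∈ s.Df (τ ∪ J'.image s.vv) then (1 : ℤ) else 0) -
      (if i ∈ s.Df τ then (1 : ℤ) else 0)| ≤ 1 := by
      split_ifs <;> simp
    have h2 : |∑ j ∈ J', ((if i ∈ s.Df (insert (s.vv j) τ) then (1 : ℤ) else 0) -
          (if i ∈ s.Df τ then (1 : ℤ) else 0))| ≤ J'.card := by
      refine (abs_sum_le_sum_abs _ _).trans ?_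
      have h3 : ∀ j ∈ J', |((if i ∈ s.Df (insert (s.vv j) τ) then (1 : ℤ) else 0) -
          (if i ∈ s.Df τ then (1 : ℤ) else 0))| ≤ 1 := by
        intro j _
        split_ifs <;> simp
      refine (sum_le_sum h3).trans ?_
      simp
    have h3 := abs_sub ((if i ∈ s.Df (τ ∪ J'.image s.vv) then (1 : ℤ) else 0) -
      (if i ∈ s.Df τ then (1 : ℤ) else 0)) (∑ j ∈ J', ((if i ∈ s.Df (insert (s.vv j) τ) then (1 : ℤ) else 0) -
          (if i ∈ s.Df τ then (1 : ℤ) else 0)))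
    push_cast
    simp only [hc]
    linarith
  -- the total sum
  have htot : ∑ i ∈ range s.n, c i * (s.B : ℤ) ^ (i + 1) =
      (num s.B (s.Df (τ ∪ J'.image s.vv)) : ℤ) - num s.B (s.Df τ) -
        ∑ j ∈ J', ((num s.B (s.Df (insert (s.vv j) τ)) : ℤ) - num s.B (s.Df τ)) := by
    rw [Q2b_num s.B s.n (hrange _ hSt), Q2b_num s.B s.n (hrange _ hτSt)]
    have h1 : ∀ j ∈ J', ((num s.B (s.Df (insert (s.vv j) τ)) : ℤ) -
        ∑ i ∈ range s.n, (if i ∈ s.Df τ then (1 : ℤ) else 0) * (s.B : ℤ) ^ (i + 1)) =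
        ∑ i ∈ range s.n, ((if i ∈ s.Df (insert (s.vv j) τ) then (1 : ℤ) else 0) -
          (if i ∈ s.Df τ then (1 : ℤ) else 0)) * (s.B : ℤ) ^ (i + 1) := by
      intro j hj
      rw [Q2b_num s.B s.n (hrange _ (hj1 j hj)), ← sum_sub_distrib]
      apply sum_congr rfl
      intro i _
      ring
    rw [sum_congr rfl h1, sum_comm, ← sum_sub_distrib, ← sum_sub_distrib]
    apply sum_congr rfl
    intro i _
    simp only [hc]
    rw [sub_mul, sub_mul, sum_mul]
  have hTh := s.hTh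
  have hB := s.hB
  have hTh10 : 10 ≤ s.Th := s.Th_ge
  have herr : |∑ i ∈ range s.n, c i * (s.B : ℤ) ^ (i + 1)| ≤ (2 * J'.card + 2) * s.Th := by
    rw [htot]
    have e1 := s.Df_close hSt
    have e2 := s.Df_close hτSt
    have e3 : ∀ j ∈ J', |((num s.B (s.Df (insert (s.vv j) τ)) : ℤ) - num s.B (s.Df τ)) -
        (s.No (s.vv j) \ kill (s.F ∪ s.G) s.Γ τ).card| ≤ 2 * s.Th := by
      intro j hj
      have e4 := s.Df_close (hj1 j hj)
      have e5 := hfj j hj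
      rw [abs_le]
      constructor <;> omega
    have e6 : |(∑ j ∈ J', ((num s.B (s.Df (insert (s.vv j) τ)) : ℤ) - num s.B (s.Df τ))) -
        ∑ j ∈ J', ((s.No (s.vv j) \ kill (s.F ∪ s.G) s.Γ τ).card : ℤ)| ≤ J'.card * (2 * s.Th) := by
      rw [← sum_sub_distrib]
      refine (abs_sum_le_sum_abs _ _).trans ?_
      refine (sum_le_sum e3).trans ?_
      simp
    have e7 : (s.f (τ ∪ J'.image s.vv) : ℤ) = s.f τ +
        ∑ j ∈ J', ((s.No (s.vv j) \ kill (s.F ∪ s.G) s.Γ τ).card : ℤ) := by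
      rw [hf]
      push_cast
      rfl
    obtain ⟨e11, e12⟩ := e1
    obtain ⟨e21, e22⟩ := e2
    have e11' : (num s.B (s.Df (τ ∪ J'.image s.vv)) : ℤ) ≤ s.f (τ ∪ J'.image s.vv) + s.Th := by
      exact_mod_cast e11
    have e12' : (s.f (τ ∪ J'.image s.vv) : ℤ) ≤ num s.B (s.Df (τ ∪ J'.image s.vv)) + s.Th := by
      exact_mod_cast e12
    have e21' : (num s.B (s.Df τ) : ℤ) ≤ s.f τ + s.Th := by exact_mod_cast e21
    have e22' : (s.f τ : ℤ) ≤ num s.B (s.Df τ) + s.Th := by exact_mod_cast e22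
    rw [abs_le] at e6 ⊢
    constructor <;> nlinarith [e6.1, e6.2]
  -- the low part
  have hlow : |∑ i ∈ range s.sg, c i * (s.B : ℤ) ^ (i + 1)| ≤ (J'.card + 1) * (2 * (s.B : ℤ) ^ s.sg) := by
    refine (abs_sum_le_sum_abs _ _).trans ?_
    have h1 : ∀ i ∈ range s.sg, |c i * (s.B : ℤ) ^ (i + 1)| ≤ (J'.card + 1) * (s.B : ℤ) ^ (i + 1) := by
      intro i _
      rw [abs_mul]
      have h2 : |(s.B : ℤ) ^ (i + 1)| = (s.B : ℤ) ^ (i + 1) := abs_of_nonneg (by positivity)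
      rw [h2]
      have h3 := hcb i
      push_cast at h3
      exact mul_le_mul_of_nonneg_right h3 (by positivity)
    refine (sum_le_sum h1).trans ?_
    rw [← mul_sum]
    have h4 : num s.B (range s.sg) + 2 ≤ 2 * s.B ^ s.sg := by
      apply num_le _ (subset_refl _)
      have := s.B_ge
      omega
    have h5 : ∑ i ∈ range s.sg, (s.B : ℤ) ^ (i + 1) ≤ 2 * (s.B : ℤ) ^ s.sg := by
      unfold num at h4
      have h6 : ∑ i ∈ range s.sg, s.B ^ (i + 1) ≤ 2 * s.B ^ s.sg := by omega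
      exact_mod_cast h6
    exact mul_le_mul_of_nonneg_left h5 (by positivity)
  have hsgn : s.sg ≤ s.n := by
    have := s.hse
    have := s.hel
    omega
  have hsplit : ∑ i ∈ range s.n, c i * (s.B : ℤ) ^ (i + 1) =
      ∑ i ∈ range s.sg, c i * (s.B : ℤ) ^ (i + 1) + ∑ i ∈ Ico s.sg s.n, c i * (s.B : ℤ) ^ (i + 1) := by
    rw [range_eq_Ico, range_eq_Ico, sum_Ico_consecutive _ (Nat.zero_le _) hsgn]
  have hB2 : (s.Th : ℤ) ^ 8 ≤ s.B := by exact_mod_cast hB
  have hTh2 : (10 : ℤ) ≤ s.Th := by exact_mod_cast hTh10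
  have hnTh : (J'.card : ℤ) + 3 ≤ s.Th := by
    have : J'.card + 3 ≤ s.Th := by
      have : s.n + 10 ≤ s.Th := by
        have := hTh
        omega
      omega
    exact_mod_cast this
  have hTh3 : (1000 : ℤ) * s.Th ^ 2 ≤ s.Th ^ 8 := by
    have h1 : (1000 : ℤ) ≤ s.Th ^ 6 := by
      calc (1000 : ℤ) ≤ 10 ^ 6 := by norm_num
        _ ≤ s.Th ^ 6 := pow_le_pow_left₀ (by norm_num) hTh2 6
    calc (1000 : ℤ) * s.Th ^ 2 ≤ s.Th ^ 6 * s.Th ^ 2 := mul_le_mul_of_nonneg_right h1 (by positivity)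
      _ = s.Th ^ 8 := by ring
  have hbpos : (1 : ℤ) ≤ (s.B : ℤ) ^ s.sg := by
    have : 1 ≤ s.B := by
      have := s.B_ge
      omega
    exact_mod_cast Nat.one_le_pow _ _ this
  have hmain := digits_unique (B := s.B) (M := J'.card + 1) (s := s.sg) (m := s.n) (by
      have h1 : (4 : ℤ) * (J'.card + 1 + 1) ≤ s.B := by nlinarith
      exact_mod_cast h1) c (fun i _ => hcb i) (by
      have h1 : |∑ i ∈ Ico s.sg s.n, c i * (s.B : ℤ) ^ (i + 1)| ≤
          (2 * J'.card + 2) * s.Th + (J'.card + 1) * (2 * (s.B : ℤ) ^ s.sg) := by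
        rw [abs_le] at herr hlow ⊢
        constructor <;> linarith [herr.1, herr.2, hlow.1, hlow.2]
      have h2 : ((2 * J'.card + 2) * s.Th + (J'.card + 1) * (2 * (s.B : ℤ) ^ s.sg)) * 2 <
          (s.B : ℤ) ^ (s.sg + 1) := by
        rw [pow_succ]
        have h3 : ((2 * J'.card + 2) * s.Th : ℤ) ≤ 2 * s.Th ^ 2 := by nlinarith
        have h4 : ((J'.card : ℤ) + 1) * (2 * (s.B : ℤ) ^ s.sg) ≤ s.Th * (2 * (s.B : ℤ) ^ s.sg) := by
          apply mul_le_mul_of_nonneg_right _ (by positivity)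
          linarith
        have h5 : (2 : ℤ) * s.Th ^ 2 ≤ 2 * s.Th ^ 2 * (s.B : ℤ) ^ s.sg :=
          le_mul_of_one_le_right (by positivity) hbpos
        have h6 : (s.Th : ℤ) * (2 * (s.B : ℤ) ^ s.sg) ≤ 2 * s.Th ^ 2 * (s.B : ℤ) ^ s.sg := by
          nlinarith
        have h7 : (1000 : ℤ) * s.Th ^ 2 * (s.B : ℤ) ^ s.sg ≤ (s.B : ℤ) ^ s.sg * s.B := by
          rw [mul_comm ((s.B : ℤ) ^ s.sg)]
          exact mul_le_mul_of_nonneg_right (hTh3.trans hB2) (by positivity)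
        have h8 : (0 : ℤ) < s.Th ^ 2 * (s.B : ℤ) ^ s.sg := by positivity
        nlinarith
      linarith)
  have hk0 := hmain k (mem_Ico.mpr ⟨hk, hkn⟩)
  simp only [hc] at hk0
  linarith

end Cln

end Pool.Agent.IDX
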