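import Pool.Agent.IDX.Q1

/-! Row IDX-Q2a: states and types -/

open Finset

namespace Pool.Agent.IDX

namespace Cln

variable (s : Cln)

theorem Q2a_ind_mono {H : HG} {R R' : Finset ℕ} (h : Ind H R) (h' : R' ⊆ R) : Ind H R' :=
  fun e he hs => h e he (hs.trans h')

theorem Q2a_vv_inj {j k : ℕ} (hj : j ∈ s.A) (hk : k ∈ s.A) (h : s.vv j = s.vv k) : j = k := by
  have h1 := (s.hvv j hj).2.1
  have h2 := (s.hvv k hk).2.1
  rw [h] at h1
  have h3 := h1.symm.trans h2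
  omega

theorem Q2a_vv_notMem_Xi {j : ℕ} (hj : j ∈ s.DD) : s.vv j ∉ s.Xi :=
  Finset.disjoint_left.1 (s.block_Xi hj) (Finset.mem_insert_self _ _)

theorem state_mem {τ J' : Finset ℕ} (hτ : τ ∈ s.TT) (hJ : J' ⊆ s.Al τ) :
    τ ∪ J'.image s.vv ∈ s.St := by
  have hτ' := Finset.mem_filter.1 hτ
  have hτX : τ ⊆ s.Xi := Finset.mem_powerset.1 hτ'.1
  have hJD : J' ⊆ s.DD := fun j hj => (Finset.mem_filter.1 (hJ hj)).1
  have hR : (τ ∪ J'.image s.vv) ∩ s.Xi = τ := by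
    ext x
    rw [Finset.mem_inter, Finset.mem_union]
    constructor
    · rintro ⟨h1 | h1, h2⟩
      · exact h1
      · obtain ⟨j, hj, rfl⟩ := Finset.mem_image.1 h1
        exact absurd h2 (s.Q2a_vv_notMem_Xi (hJD hj))
    · intro h
      exact ⟨Or.inl h, hτX h⟩
  have hInd : Ind (s.F ∪ s.G) (τ ∪ J'.image s.vv) := by
    rw [s.ind_iff hτ hR]
    refine ⟨?_, ?_, ?_⟩
    · rw [Finset.disjoint_left]
      intro x hx hk
      rcases Finset.mem_union.1 hx with h | h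
      · obtain ⟨e, he, hxe, hes⟩ := (Finset.mem_filter.1 hk).2
        rw [Finset.insert_eq_of_mem h] at hes
        exact hτ'.2 e he hes
      · obtain ⟨j, hj, rfl⟩ := Finset.mem_image.1 h
        exact (Finset.mem_filter.1 (hJ hj)).2 hk
    · intro j hj _
      rw [Finset.disjoint_left]
      intro x hx hN
      rcases Finset.mem_union.1 hx with h | h
      · exact Finset.disjoint_left.1 (s.block_Xi hj) (Finset.mem_insert_of_mem hN) (hτX h)
      · obtain ⟨k, hk, rfl⟩ := Finset.mem_image.1 h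
        by_cases hkj : j = k
        · subst hkj
          exact s.vv_notMem_Nf hj hN
        · exact Finset.disjoint_left.1 (s.block_block hj (hJD hk) hkj)
            (Finset.mem_insert_of_mem hN) (Finset.mem_insert_self _ _)
    · refine Q2a_ind_mono hτ'.2 ?_
      intro x hx
      obtain ⟨h1, h2⟩ := Finset.mem_sdiff.1 hx
      rcases Finset.mem_union.1 h1 with h | h
      · exact h
      · obtain ⟨j, hj, rfl⟩ := Finset.mem_image.1 h
        exact absurd (Finset.mem_biUnion.2 ⟨j, hJD hj, Finset.mem_insert_self _ _⟩) h2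
  refine Finset.mem_filter.2 ⟨Finset.mem_powerset.2 ?_, hInd⟩
  refine Finset.union_subset (hτX.trans s.Xi_subset) ?_
  intro x hx
  obtain ⟨j, hj, rfl⟩ := Finset.mem_image.1 hx
  exact (s.hvv j (s.hDD (hJD hj))).1

/-- The part of a state. -/
theorem state_part {S : Finset ℕ} (hS : S ∈ s.St) :
    S ∩ s.Xi ∈ s.TT ∧ s.DD.filter (fun j => s.vv j ∈ S) ⊆ s.Al (S ∩ s.Xi) := by
  have hS' := Finset.mem_filter.1 hS
  refine ⟨?_, ?_⟩
  · exact Finset.mem_filter.2 ⟨Finset.mem_powerset.2 Finset.inter_subset_right,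
      Q2a_ind_mono hS'.2 Finset.inter_subset_left⟩
  · intro j hj
    obtain ⟨h1, h2⟩ := Finset.mem_filter.1 hj
    refine Finset.mem_filter.2 ⟨h1, fun hk => ?_⟩
    obtain ⟨e, he, -, hes⟩ := (Finset.mem_filter.1 hk).2
    refine hS'.2 e he (hes.trans ?_)
    exact Finset.insert_subset h2 Finset.inter_subset_left

/-- The digits `≥ sg` of a state depend only on its type: the other elements of the state are
vertices of level `≤ sg`, with stars of size at most `2 B^{sg} + Th`; there are at most `Th`. -/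
theorem digits_type {S : Finset ℕ} (hS : S ∈ s.St) :
    (s.Df S).filter (fun i => s.sg ≤ i) =
      (s.Df ((S ∩ s.Xi) ∪ (s.DD.filter (fun j => s.vv j ∈ S)).image s.vv)).filter
        (fun i => s.sg ≤ i) := by
  have hS0 := Finset.mem_filter.1 hS
  have hSΓ : S ⊆ s.Γ := Finset.mem_powerset.1 hS0.1
  set J' := s.DD.filter (fun j => s.vv j ∈ S) with hJ'
  set S' := (S ∩ s.Xi) ∪ J'.image s.vv with hS'
  have hsub : S' ⊆ S := by
    refine Finset.union_subset Finset.inter_subset_left ?_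
    intro x hx
    obtain ⟨j, hj, rfl⟩ := Finset.mem_image.1 hx
    exact (Finset.mem_filter.1 hj).2
  have hS'St : S' ∈ s.St := Finset.mem_filter.2
    ⟨Finset.mem_powerset.2 (hsub.trans hSΓ), Q2a_ind_mono hS0.2 hsub⟩
  have hT0 : s.T0 ⊆ s.Xi := by
    intro x hx
    exact Finset.mem_union.2 (Or.inl (Finset.mem_union.2 (Or.inl hx)))
  have hJg : s.Jg ⊆ s.Xi := by
    intro x hx
    exact Finset.mem_union.2 (Or.inl (Finset.mem_union.2 (Or.inr hx)))
  have hB1 : 1 ≤ s.B := le_trans (by norm_num) s.B_ge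
  -- the other elements have small level
  have hlow : ∀ v ∈ S \ S', (s.No v).card ≤ 2 * s.B ^ s.sg + s.Th := by
    intro v hv
    obtain ⟨h1, h2⟩ := Finset.mem_sdiff.1 hv
    have hvX : v ∉ s.Xi := fun h => h2 (Finset.mem_union.2 (Or.inl (Finset.mem_inter.2 ⟨h1, h⟩)))
    have hvΓ := hSΓ h1
    have hel : s.lev v ≤ s.el := by
      by_contra hlt
      exact hvX (hJg (Finset.mem_filter.2 ⟨hvΓ, not_le.1 hlt⟩))
    have hsg : s.lev v ≤ s.sg := by
      by_contra hlt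
      have hi : s.lev v - 1 ∈ Ico s.sg s.el := Finset.mem_Ico.2 ⟨by omega, by omega⟩
      have hv' := s.huniq (s.lev v - 1) hi v hvΓ (by omega)
      have hiA : s.lev v - 1 ∈ s.A := hi
      by_cases hD : s.lev v - 1 ∈ s.DD
      · refine h2 (Finset.mem_union.2 (Or.inr (Finset.mem_image.2 ⟨s.lev v - 1, ?_, hv'.symm⟩)))
        exact Finset.mem_filter.2 ⟨hD, hv' ▸ h1⟩
      · refine hvX (Finset.mem_union.2 (Or.inr (Finset.mem_image.2 ⟨s.lev v - 1, ?_, hv'.symm⟩)))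
        exact Finset.mem_sdiff.2 ⟨hiA, hD⟩
    have h3 := s.No_le hvΓ
    have h4 : s.B ^ s.lev v ≤ s.B ^ s.sg := Nat.pow_le_pow_right hB1 hsg
    omega
  have hkill : kill (s.F ∪ s.G) s.Γ S ⊆
      kill (s.F ∪ s.G) s.Γ S' ∪ (S \ S').biUnion s.No := by
    rw [s.kill_St hS, s.kill_St hS'St]
    intro x hx
    rcases Finset.mem_union.1 hx with h | h
    · obtain ⟨v, hv, hxv⟩ := Finset.mem_biUnion.1 h
      by_cases hvS : v ∈ S'
      · exact Finset.mem_union.2 (Or.inl (Finset.mem_union.2 (Or.inl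
          (Finset.mem_biUnion.2 ⟨v, hvS, hxv⟩))))
      · exact Finset.mem_union.2 (Or.inr (Finset.mem_biUnion.2
          ⟨v, Finset.mem_sdiff.2 ⟨hv, hvS⟩, hxv⟩))
    · obtain ⟨Q, hQ, hxQ⟩ := Finset.mem_biUnion.1 h
      obtain ⟨hQK, hQS⟩ := Finset.mem_filter.1 hQ
      refine Finset.mem_union.2 (Or.inl (Finset.mem_union.2 (Or.inr
        (Finset.mem_biUnion.2 ⟨Q, Finset.mem_filter.2 ⟨hQK, ?_⟩, hxQ⟩))))
      have hQT : Q ⊆ s.T0 := by
        have hQK' : Q ∈ s.K := (Finset.mem_filter.1 hQK).1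
        exact Finset.le_sup (f := id) hQK'
      intro x hx
      exact Finset.mem_union.2 (Or.inl (Finset.mem_inter.2 ⟨hQS hx, hT0 (hQT hx)⟩))
  have hΓTh : s.Γ.card ≤ s.Th := by
    have := s.hTh
    omega
  have hf1 : s.f S' ≤ s.f S := s.f_mono hS hsub
  have hf2 : s.f S ≤ s.f S' + s.Th * (2 * s.B ^ s.sg + s.Th) := by
    have h1 := Finset.card_le_card hkill
    have h2 := Finset.card_union_le (kill (s.F ∪ s.G) s.Γ S') ((S \ S').biUnion s.No)
    have h3 : ((S \ S').biUnion s.No).card ≤ (S \ S').card * (2 * s.B ^ s.sg + s.Th) :=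
      Finset.card_biUnion_le_card_mul _ _ _ hlow
    have h4 : (S \ S').card ≤ s.Th :=
      ((Finset.card_le_card (Finset.sdiff_subset.trans hSΓ))).trans hΓTh
    have h5 := Nat.mul_le_mul_right (2 * s.B ^ s.sg + s.Th) h4
    have h6 : s.f S = (kill (s.F ∪ s.G) s.Γ S).card := rfl
    have h7 : s.f S' = (kill (s.F ∪ s.G) s.Γ S').card := rfl
    omega
  obtain ⟨a1, a2⟩ := s.Df_close hS
  obtain ⟨b1, b2⟩ := s.Df_close hS'St
  have hB8 : 8 ≤ s.B := le_trans (by norm_num) s.B_ge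
  refine digits_eq_of_close (B := s.B) (s := s.sg) (m := s.n) (x := s.f S)
    (e := s.Th * (2 * s.B ^ s.sg + s.Th) + s.Th) hB8 (s.hBB _ (s.hD S hS).1)
    (s.hBB _ (s.hD S' hS'St).1) (by omega) (by omega) (by omega) (by omega) ?_
  have hTh := s.Th_ge
  have hBTh := s.hB
  have hb1 : 1 ≤ s.B ^ s.sg := Nat.one_le_pow _ _ hB1
  have h8 : 4 * s.Th ^ 2 + 12 * s.Th + 8 < s.Th ^ 8 := by
    have e1 : s.Th ^ 8 = s.Th ^ 2 * s.Th ^ 6 := by ring
    have e2 : 10 ^ 6 ≤ s.Th ^ 6 := Nat.pow_le_pow_left hTh 6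
    have e3 : s.Th ^ 2 * 10 ^ 6 ≤ s.Th ^ 2 * s.Th ^ 6 := Nat.mul_le_mul_left _ e2
    have e4 : 10 * s.Th ≤ s.Th ^ 2 := by nlinarith
    nlinarith
  have h9 : (4 * s.Th ^ 2 + 12 * s.Th + 8) * s.B ^ s.sg < s.B * s.B ^ s.sg :=
    Nat.mul_lt_mul_of_pos_right (lt_of_lt_of_le h8 hBTh) hb1
  have h10 : s.B ^ (s.sg + 1) = s.B * s.B ^ s.sg := by ring
  rw [h10]
  refine lt_of_le_of_lt ?_ h9
  have h11 : (s.Th ^ 2 + s.Th) * 1 ≤ (s.Th ^ 2 + s.Th) * s.B ^ s.sg := Nat.mul_le_mul_left _ hb1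
  nlinarith

end Cln

end Pool.Agent.IDX
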