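import Pool.Agent.IDX.Q3a

/-! Row IDX-Q3b: non-free digits -/

open Finset

namespace Pool.Agent.IDX

/-- Toggling one element. -/
def tog (E : Finset ℕ) (k : ℕ) : Finset ℕ := if k ∈ E then E.erase k else insert k E

section cubeAux

variable {K : Type*} [Field K] [LinearOrder K] [IsStrictOrderedRing K]

/-- The pattern of the configuration `J` on `A` is the indicator of `E`. -/
private def PatQ (A : Finset ℕ) (b : ℕ → ℤ) (Dl : ℕ → ℕ → ℤ) (E J : Finset ℕ) : Prop :=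
  ∀ k ∈ A, b k + ∑ j ∈ J, Dl j k = if k ∈ E then 1 else 0

open Classical in
/-- The weight of the pattern `E`. -/
private noncomputable def WW (A Al : Finset ℕ) (b : ℕ → ℤ) (Dl : ℕ → ℕ → ℤ) (c : K) (x : ℕ → K)
    (E : Finset ℕ) : K :=
  c * ∑ J ∈ Al.powerset with PatQ A b Dl E J, ∏ j ∈ J, x j

variable {A Al : Finset ℕ} {b : ℕ → ℤ} {Dl : ℕ → ℕ → ℤ} {c : K} {x : ℕ → K}

private def ZOq (A Al : Finset ℕ) (b : ℕ → ℤ) (Dl : ℕ → ℕ → ℤ) : Prop :=
  ∀ J ⊆ Al, ∀ k ∈ A, b k + ∑ j ∈ J, Dl j k = 0 ∨ b k + ∑ j ∈ J, Dl j k = 1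

private theorem ZOq.base (h : ZOq A Al b Dl) {k : ℕ} (hk : k ∈ A) : b k = 0 ∨ b k = 1 := by
  simpa using h ∅ (by simp) k hk

private theorem ZOq.one (h : ZOq A Al b Dl) {j k : ℕ} (hj : j ∈ Al) (hk : k ∈ A) :
    b k + Dl j k = 0 ∨ b k + Dl j k = 1 := by
  simpa using h {j} (by simpa using hj) k hk

private theorem ZOq.disj (h : ZOq A Al b Dl) {j l k : ℕ} (hj : j ∈ Al) (hl : l ∈ Al) (hk : k ∈ A)
    (hjl : j ≠ l) (h1 : Dl j k ≠ 0) : Dl l k = 0 := by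
  by_contra h2
  have h3 := h {j, l} (by intro y hy; simp at hy; rcases hy with rfl | rfl <;> assumption) k hk
  rw [Finset.sum_pair hjl] at h3
  have h4 := h.base hk
  have h5 := h.one hj hk
  have h6 := h.one hl hk
  omega

private theorem ZOq.coord (h : ZOq A Al b Dl) {j k : ℕ} (hj : j ∈ Al) (hk : k ∈ A) (h1 : Dl j k ≠ 0)
    {J : Finset ℕ} (hJ : J ⊆ Al) : ∑ i ∈ J, Dl i k = if j ∈ J then Dl j k else 0 := by
  split_ifs with hjJ
  · rw [← Finset.add_sum_erase _ _ hjJ]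
    rw [Finset.sum_eq_zero, add_zero]
    intro i hi
    rw [Finset.mem_erase] at hi
    exact h.disj hj (hJ hi.2) hk (Ne.symm hi.1) h1
  · apply Finset.sum_eq_zero
    intro i hi
    exact h.disj hj (hJ hi) hk (by rintro rfl; exact hjJ hi) h1

/-- `k` is free if some move changes exactly the coordinate `k`. -/
private def FreeG (A Al : Finset ℕ) (Dl : ℕ → ℕ → ℤ) (k : ℕ) : Prop :=
  ∃ j ∈ Al, Dl j k ≠ 0 ∧ ∀ k' ∈ A, k' ≠ k → Dl j k' = 0

omit [LinearOrder K] [IsStrictOrderedRing K] in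
private theorem WW_ne {E : Finset ℕ} (h : WW A Al b Dl c x E ≠ 0) :
    ∃ J ⊆ Al, PatQ A b Dl E J := by
  classical
  by_contra hcon
  apply h
  unfold WW
  rw [Finset.sum_eq_zero, mul_zero]
  intro J hJ
  rw [Finset.mem_filter, Finset.mem_powerset] at hJ
  exact absurd ⟨J, hJ.1, hJ.2⟩ hcon

private theorem WW_nonneg (hc : 0 ≤ c) (hx : ∀ j ∈ Al, 0 < x j) (E : Finset ℕ) :
    0 ≤ WW A Al b Dl c x E := by
  classical
  unfold WW
  apply mul_nonneg hc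
  apply Finset.sum_nonneg
  intro J hJ
  rw [Finset.mem_filter, Finset.mem_powerset] at hJ
  exact Finset.prod_nonneg fun j hj => (hx j (hJ.1 hj)).le

/-- Two patterns differ exactly where their sets differ; if a configuration differs in a
coordinate there is a move in exactly one of them. -/
private theorem exists_move (h : ZOq A Al b Dl) {E E' J J' : Finset ℕ} (hJ : J ⊆ Al) (hJ' : J' ⊆ Al)
    (hE : PatQ A b Dl E J) (hE' : PatQ A b Dl E' J') {k : ℕ} (hk : k ∈ A)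
    (hkE : ¬ (k ∈ E ↔ k ∈ E')) : ∃ j ∈ Al, Dl j k ≠ 0 ∧ ¬ (j ∈ J ↔ j ∈ J') := by
  by_contra hcon
  push Not at hcon
  have h1 := hE k hk
  have h2 := hE' k hk
  have h3 : ∑ j ∈ J, Dl j k = ∑ j ∈ J', Dl j k := by
    by_cases hz : ∃ j ∈ Al, Dl j k ≠ 0
    · obtain ⟨j, hj, hj0⟩ := hz
      rw [h.coord hj hk hj0 hJ, h.coord hj hk hj0 hJ']
      simp only [hcon j hj hj0]
    · push Not at hz
      rw [Finset.sum_eq_zero fun j hj => hz j (hJ hj),
        Finset.sum_eq_zero fun j hj => hz j (hJ' hj)]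
  rw [h3] at h1
  rw [h1] at h2
  apply hkE
  by_cases a : k ∈ E <;> by_cases a' : k ∈ E' <;> simp_all

private theorem same_coord (h : ZOq A Al b Dl) {E E' J J' : Finset ℕ} (hJ : J ⊆ Al) (hJ' : J' ⊆ Al)
    (hE : PatQ A b Dl E J) (hE' : PatQ A b Dl E' J') {j k : ℕ} (hj : j ∈ Al) (hk : k ∈ A)
    (h0 : Dl j k ≠ 0) (hjJ : ¬ (j ∈ J ↔ j ∈ J')) : ¬ (k ∈ E ↔ k ∈ E') := by
  intro hkE
  have h1 := hE k hk
  have h2 := hE' k hk
  rw [h.coord hj hk h0 hJ] at h1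
  rw [h.coord hj hk h0 hJ'] at h2
  by_cases a : k ∈ E <;> by_cases a' : k ∈ E' <;> by_cases d : j ∈ J <;> by_cases d' : j ∈ J' <;>
    simp_all

private theorem two_nonfree (h : ZOq A Al b Dl) (E : Finset ℕ) [DecidablePred fun k =>
      ¬ FreeG A Al Dl k ∧ WW A Al b Dl c x (symmDiff E {k}) ≠ 0] :
    (A.filter fun k => ¬ FreeG A Al Dl k ∧ WW A Al b Dl c x (symmDiff E {k}) ≠ 0).card ≤ 2 := by
  by_contra hcon
  push Not at hcon
  rw [Finset.two_lt_card] at hcon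
  obtain ⟨k, hk, k', hk', k'', hk'', h12, h13, h23⟩ := hcon
  rw [Finset.mem_filter] at hk hk' hk''
  obtain ⟨hkA, hkf, hkW⟩ := hk
  obtain ⟨hkA', hkf', hkW'⟩ := hk'
  obtain ⟨hkA'', hkf'', hkW''⟩ := hk''
  obtain ⟨J, hJ, hP⟩ := WW_ne hkW
  obtain ⟨J', hJ', hP'⟩ := WW_ne hkW'
  obtain ⟨J'', hJ'', hP''⟩ := WW_ne hkW''
  have key : ∀ {k' : ℕ} {J' : Finset ℕ}, k ≠ k' → J' ⊆ Al →
      PatQ A b Dl (symmDiff E {k'}) J' →
      ∃ j ∈ Al, Dl j k ≠ 0 ∧ Dl j k' ≠ 0 ∧ ¬ (j ∈ J ↔ j ∈ J') := by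
    intro k' J' hne hJ' hP'
    obtain ⟨j, hj, hj0, hjJ⟩ := exists_move h hJ hJ' hP hP' hkA (by
      simp [Finset.mem_symmDiff, hne])
    refine ⟨j, hj, hj0, ?_, hjJ⟩
    have : ∃ k3 ∈ A, k3 ≠ k ∧ Dl j k3 ≠ 0 := by
      by_contra hc
      push Not at hc
      exact hkf ⟨j, hj, hj0, hc⟩
    obtain ⟨k3, hk3, hne3, h03⟩ := this
    have := same_coord h hJ hJ' hP hP' hj hk3 h03 hjJ
    have h4 : k3 = k' := by
      by_contra h5
      apply this
      simp [Finset.mem_symmDiff, hne3, h5]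
    rwa [h4] at h03
  obtain ⟨j, hj, hjk, hjk', hjJ⟩ := key h12 hJ' hP'
  obtain ⟨l, hl, hlk, hlk'', hlJ⟩ := key h13 hJ'' hP''
  have hjl : j = l := by
    by_contra hne
    exact hlk (h.disj hj hl hkA hne hjk)
  subst hjl
  have := same_coord h hJ hJ' hP hP' hj hkA'' hlk'' hjJ
  apply this
  simp [Finset.mem_symmDiff, Ne.symm h13, Ne.symm h23]

end cubeAux

private theorem W_eq {A : Finset ℕ} (Q : Cube A) (E : Finset ℕ) :
    Q.W E = WW A Q.Al Q.b Q.De Q.c0 Q.x E := by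
  classical
  unfold Cube.W WW
  congr 1
  exact Finset.sum_congr (Finset.filter_congr fun J _ => Iff.rfl) fun _ _ => rfl

private theorem tog_eq (E : Finset ℕ) (k : ℕ) : tog E k = symmDiff E {k} := by
  ext z
  unfold tog
  split_ifs with h
  · simp only [Finset.mem_erase, Finset.mem_symmDiff, Finset.mem_singleton]
    constructor
    · rintro ⟨h1, h2⟩
      exact Or.inl ⟨h2, h1⟩
    · rintro (⟨h1, h2⟩ | ⟨h1, h2⟩)
      · exact ⟨h2, h1⟩
      · exact absurd (h1 ▸ h) h2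
  · simp only [Finset.mem_insert, Finset.mem_symmDiff, Finset.mem_singleton]
    constructor
    · rintro (h1 | h1)
      · exact Or.inr ⟨h1, h1 ▸ h⟩
      · exact Or.inl ⟨h1, fun h2 => h (h2 ▸ h1)⟩
    · rintro (⟨h1, _⟩ | ⟨h1, _⟩)
      · exact Or.inr h1
      · exact Or.inl h1

/-- Non-free digits: for given `E ⊆ A` at most two non-free `k ∈ A` have `W (tog E k) ≠ 0`; if there
were three, `k, k', k''`, the set `{k, k'}` and the set `{k, k''}` would both be supports of increments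
(the difference of the two representing sets `J'` is a union of disjoint supports, none of which is
a singleton of a non-free digit). -/
theorem Cube.nonfree {A : Finset ℕ} (Q : Cube A) {E : Finset ℕ} (hE : E ⊆ A) :
    ¬ ∃ k ∈ A, ∃ k' ∈ A, ∃ k'' ∈ A, k ≠ k' ∧ k ≠ k'' ∧ k' ≠ k'' ∧ ¬ Q.Free k ∧ ¬ Q.Free k' ∧
      ¬ Q.Free k'' ∧ Q.W (tog E k) ≠ 0 ∧ Q.W (tog E k') ≠ 0 ∧ Q.W (tog E k'') ≠ 0 := by
  classical
  rintro ⟨k, hk, k', hk', k'', hk'', h1, h2, h3, f1, f2, f3, w1, w2, w3⟩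
  have h := two_nonfree (c := Q.c0) (x := Q.x) (show ZOq A Q.Al Q.b Q.De from Q.hval) E
  rw [tog_eq, W_eq] at w1 w2 w3
  have : 2 < (A.filter fun k => ¬ FreeG A Q.Al Q.De k ∧
      WW A Q.Al Q.b Q.De Q.c0 Q.x (symmDiff E {k}) ≠ 0).card := by
    rw [Finset.two_lt_card]
    exact ⟨k, Finset.mem_filter.2 ⟨hk, f1, w1⟩, k', Finset.mem_filter.2 ⟨hk', f2, w2⟩, k'',
      Finset.mem_filter.2 ⟨hk'', f3, w3⟩, h1, h2, h3⟩
  omega

end Pool.Agent.IDX
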