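import Pool.Agent.IDX.Q3a

/-! Row IDX-Q3c: a convexity argument -/

open Finset

namespace Pool.Agent.IDX

/-- (LA) A small convexity argument. -/
theorem la_three {ι : Type} (s : Finset ι) (v : ι → ℝ) (Y1 Y2 Y3 : ι → ℝ)
    (hv : ∀ i ∈ s, 0 ≤ v i) (h1 : ∀ i ∈ s, 0 < Y1 i)
    (hsgn : ∀ i ∈ s, (Y1 i < 1 ∧ Y2 i < 1 ∧ Y3 i < 1) ∨ (Y1 i = 1 ∧ Y2 i = 1 ∧ Y3 i = 1) ∨
      (1 < Y1 i ∧ 1 < Y2 i ∧ 1 < Y3 i))
    (e1 : ∑ i ∈ s, v i * Y1 i = 1) (e12 : ∑ i ∈ s, v i * (Y1 i * Y2 i) = 1)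
    (e13 : ∑ i ∈ s, v i * (Y1 i * Y3 i) = 1) (e123 : ∑ i ∈ s, v i * (Y1 i * Y2 i * Y3 i) = 1) :
    ∑ i ∈ s, v i = 1 := by
  have hz : ∀ i ∈ s, v i * Y1 i * ((Y2 i - 1) * (Y3 i - 1)) = 0 := by
    apply (Finset.sum_eq_zero_iff_of_nonneg ?_).1
    · have : ∑ i ∈ s, v i * Y1 i * ((Y2 i - 1) * (Y3 i - 1)) =
          ∑ i ∈ s, v i * (Y1 i * Y2 i * Y3 i) - ∑ i ∈ s, v i * (Y1 i * Y2 i) -
            ∑ i ∈ s, v i * (Y1 i * Y3 i) + ∑ i ∈ s, v i * Y1 i := by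
        rw [← Finset.sum_sub_distrib, ← Finset.sum_sub_distrib, ← Finset.sum_add_distrib]
        exact Finset.sum_congr rfl fun i _ => by ring
      rw [this, e1, e12, e13, e123]
      norm_num
    · intro i hi
      apply mul_nonneg (mul_nonneg (hv i hi) (h1 i hi).le)
      rcases hsgn i hi with ⟨-, h2, h3⟩ | ⟨-, h2, h3⟩ | ⟨-, h2, h3⟩
      · exact (mul_pos_of_neg_of_neg (by linarith) (by linarith)).le
      · rw [h2, h3]; norm_num
      · exact (mul_pos (by linarith) (by linarith)).le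
  rw [← e1]
  apply Finset.sum_congr rfl
  intro i hi
  have hp := h1 i hi
  rcases hsgn i hi with ⟨-, h2, h3⟩ | ⟨h2, -, -⟩ | ⟨-, h2, h3⟩
  · have h4 : 0 < (Y2 i - 1) * (Y3 i - 1) := mul_pos_of_neg_of_neg (by linarith) (by linarith)
    have h5 := hz i hi
    have h6 : v i = 0 := by
      rcases mul_eq_zero.1 h5 with h | h
      · rcases mul_eq_zero.1 h with h | h
        · exact h
        · linarith
      · linarith
    rw [h6]; ring
  · rw [h2, mul_one]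
  · have h4 : 0 < (Y2 i - 1) * (Y3 i - 1) := mul_pos (by linarith) (by linarith)
    have h5 := hz i hi
    have h6 : v i = 0 := by
      rcases mul_eq_zero.1 h5 with h | h
      · rcases mul_eq_zero.1 h with h | h
        · exact h
        · linarith
      · linarith
    rw [h6]; ring

end Pool.Agent.IDX
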