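import Pool.Agent.IDX.Q3b
import Pool.Agent.IDX.Q3c

/-! Row IDX-Q3d: the cube lemma -/

open Finset

namespace Pool.Agent.IDX

theorem tog_sub {A E : Finset ℕ} {k : ℕ} (hE : E ⊆ A) (hk : k ∈ A) : tog E k ⊆ A := by
  unfold tog
  split_ifs
  · exact (erase_subset _ _).trans hE
  · exact insert_subset hk hE

theorem tog_mem {E : Finset ℕ} {k l : ℕ} (h : l ≠ k) : l ∈ tog E k ↔ l ∈ E := by
  unfold tog
  split_ifs
  · rw [mem_erase]; exact ⟨fun h => h.2, fun h' => ⟨h, h'⟩⟩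
  · rw [mem_insert]; exact ⟨fun h' => h'.resolve_left h, fun h' => Or.inr h'⟩

theorem tog_self {E : Finset ℕ} {k : ℕ} : k ∈ tog E k ↔ k ∉ E := by
  unfold tog
  split_ifs with h
  · constructor
    · intro h'; exact absurd rfl (mem_erase.1 h').1
    · intro h'; exact absurd h h'
  · exact ⟨fun _ => h, fun _ => mem_insert_self _ _⟩

theorem tog_inj (E : Finset ℕ) : Function.Injective (tog E) := by
  intro k l h
  by_contra hkl
  have h1 : k ∈ tog E k ↔ k ∈ tog E l := by rw [h]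
  rw [tog_self, tog_mem hkl] at h1
  by_cases h2 : k ∈ E
  · exact (h1.2 h2) h2
  · exact h2 (h1.1 h2)

/-- at most two -/
theorem card_le_two_of_no_three (B : Finset ℕ)
    (h : ¬ ∃ k ∈ B, ∃ k' ∈ B, ∃ k'' ∈ B, k ≠ k' ∧ k ≠ k'' ∧ k' ≠ k'') : B.card ≤ 2 := by
  by_contra hc
  rw [not_le, two_lt_card] at hc
  obtain ⟨a, ha, b, hb, c, hc, h1, h2, h3⟩ := hc
  exact h ⟨a, ha, b, hb, c, hc, h1, h2, h3⟩

open Classical in
/-- bad digits -/
noncomputable def badk {A : Finset ℕ} (TT : Finset (Finset ℕ)) (Q : Finset ℕ → Cube A)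
    (eps : Finset ℕ → ℝ) (E : Finset ℕ) : Finset ℕ :=
  A.filter (fun k => eps (tog E k) ≠ 0) ∪
    TT.biUnion (fun τ => A.filter (fun k => ¬ (Q τ).Free k ∧ (Q τ).W (tog E k) ≠ 0))

theorem badk_card {A : Finset ℕ} (TT : Finset (Finset ℕ)) (Q : Finset ℕ → Cube A)
    (eps : Finset ℕ → ℝ) {R M : ℕ} (hR : TT.card ≤ R)
    (hM : (A.powerset.filter (fun E => eps E ≠ 0)).card ≤ M) {E : Finset ℕ} (hE : E ⊆ A) :
    (badk TT Q eps E).card ≤ M + 2 * R := by
  classical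
  unfold badk
  refine (card_union_le _ _).trans (Nat.add_le_add ?_ ?_)
  · refine le_trans ?_ hM
    refine card_le_card_of_injOn (tog E) ?_ ((tog_inj E).injOn)
    intro k hk
    have hk' := mem_filter.1 (mem_coe.1 hk)
    exact mem_coe.2 (mem_filter.2 ⟨mem_powerset.2 (tog_sub hE hk'.1), hk'.2⟩)
  · refine card_biUnion_le.trans ?_
    refine (sum_le_card_nsmul TT _ 2 ?_).trans ?_
    · intro τ _
      apply card_le_two_of_no_three
      rintro ⟨k, hk, k', hk', k'', hk'', h1, h2, h3⟩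
      rw [mem_filter] at hk hk' hk''
      exact (Q τ).nonfree hE ⟨k, hk.1, k', hk'.1, k'', hk''.1, h1, h2, h3, hk.2.1, hk'.2.1,
        hk''.2.1, hk.2.2, hk'.2.2, hk''.2.2⟩
    · rw [smul_eq_mul, Nat.mul_comm]
      exact Nat.mul_le_mul_left 2 hR

theorem notbad {A : Finset ℕ} {TT : Finset (Finset ℕ)} {Q : Finset ℕ → Cube A}
    {eps : Finset ℕ → ℝ} {E : Finset ℕ} {k : ℕ} (hk : k ∈ A) (h : k ∉ badk TT Q eps E) :
    eps (tog E k) = 0 ∧ ∀ τ ∈ TT, ¬ (Q τ).Free k → (Q τ).W (tog E k) = 0 := by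
  classical
  unfold badk at h
  rw [mem_union, not_or] at h
  constructor
  · by_contra h0
    exact h.1 (mem_filter.2 ⟨hk, h0⟩)
  · intro τ hτ hf
    by_contra h0
    exact h.2 (mem_biUnion.2 ⟨τ, hτ, mem_filter.2 ⟨hk, hf, h0⟩⟩)

/-- (CUBE) -/
theorem cube (R M : ℕ) : ∃ NC : ℕ, ∀ (A : Finset ℕ) (TT : Finset (Finset ℕ))
    (Q : Finset ℕ → Cube A) (eps : Finset ℕ → ℝ) (u : ℕ → ℝ) (ka : ℝ),
    TT.card ≤ R → (∀ E ⊆ A, 0 ≤ eps E) → (A.powerset.filter (fun E => eps E ≠ 0)).card ≤ M →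
    (∀ k ∈ A, 0 < u k) → 0 < ka →
    (∀ E ⊆ A, ∑ τ ∈ TT, (Q τ).W E + eps E = ka * ∏ k ∈ E, u k) →
    NC ≤ A.card → ∀ E ⊆ A, eps E = 0 := by
  classical
  refine ⟨(2 * 4 ^ R) * (2 * (M + 2 * R) + 2) + 1, ?_⟩
  intro A TT Q eps u ka hR heps hM hu hka hsum hA E1 hE1
  -- ratios
  have hX : ∀ τ k, ∃ X : ℝ, (k ∈ A → (Q τ).Free k →
      0 < X ∧ ∀ E ⊆ A, (Q τ).W (insert k E) = X * (Q τ).W (E.erase k)) := by
    intro τ k
    by_cases h : k ∈ A ∧ (Q τ).Free k
    · obtain ⟨X, hX⟩ := (Q τ).free_ratio h.1 h.2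
      exact ⟨X, fun _ _ => hX⟩
    · exact ⟨1, fun h1 h2 => absurd ⟨h1, h2⟩ h⟩
  choose X hX using hX
  set Y : Finset ℕ → ℕ → ℝ := fun τ k => if k ∈ E1 then u k / X τ k else X τ k / u k with hY
  set V : Finset ℕ → Finset ℕ → ℝ := fun τ E => (Q τ).W E / (ka * ∏ k ∈ E, u k) with hV
  have hup : ∀ E ⊆ A, 0 < ∏ k ∈ E, u k := fun E hE => prod_pos (fun k hk => hu k (hE hk))
  have hYpos : ∀ τ k, k ∈ A → (Q τ).Free k → 0 < Y τ k := by
    intro τ k hk hf
    have h1 := (hX τ k hk hf).1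
    have h2 := hu k hk
    simp only [hY]
    split_ifs
    · exact div_pos h2 h1
    · exact div_pos h1 h2
  have hstep : ∀ τ k, k ∈ A → (Q τ).Free k → ∀ E ⊆ A, (k ∈ E ↔ k ∈ E1) →
      V τ (tog E k) = Y τ k * V τ E := by
    intro τ k hk hf E hE hiff
    obtain ⟨h1, h2⟩ := hX τ k hk hf
    have h3 := h2 E hE
    have h4 := hu k hk
    have h5 := hup E hE
    by_cases hkE : k ∈ E
    · have h6 : tog E k = E.erase k := by unfold tog; rw [if_pos hkE]
      have h7 : Y τ k = u k / X τ k := by simp only [hY]; rw [if_pos (hiff.1 hkE)]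
      rw [insert_eq_of_mem hkE] at h3
      have h8 : u k * ∏ j ∈ E.erase k, u j = ∏ j ∈ E, u j := mul_prod_erase E u hkE
      have h9 : 0 < ∏ j ∈ E.erase k, u j := hup _ ((erase_subset _ _).trans hE)
      simp only [hV]
      rw [h6, h7, h3, ← h8]
      field_simp
    · have h6 : tog E k = insert k E := by unfold tog; rw [if_neg hkE]
      have h7 : Y τ k = X τ k / u k := by
        simp only [hY]; rw [if_neg (fun h => hkE (hiff.2 h))]
      rw [erase_eq_of_notMem hkE] at h3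
      simp only [hV]
      rw [h6, h7, h3, prod_insert hkE]
      field_simp
  -- colouring
  let col : ℕ → Bool × ({τ // τ ∈ TT} → Fin 4) := fun k =>
    (decide (k ∈ E1), fun τ => if ¬ (Q τ.1).Free k then 0 else
      if Y τ.1 k < 1 then 1 else if Y τ.1 k = 1 then 2 else 3)
  have hcard : (univ : Finset (Bool × ({τ // τ ∈ TT} → Fin 4))).card ≤ 2 * 4 ^ R := by
    rw [card_univ, Fintype.card_prod, Fintype.card_bool, Fintype.card_fun, Fintype.card_fin,
      Fintype.card_coe]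
    exact Nat.mul_le_mul_left 2 (Nat.pow_le_pow_right (by norm_num) hR)
  have hlt : (univ : Finset (Bool × ({τ // τ ∈ TT} → Fin 4))).card * (2 * (M + 2 * R) + 2) <
      A.card := by
    have := Nat.mul_le_mul_right (2 * (M + 2 * R) + 2) hcard
    omega
  obtain ⟨y, -, hy⟩ := exists_lt_card_fiber_of_mul_lt_card_of_maps_to
    (f := col) (s := A) (t := univ) (fun _ _ => mem_univ _) hlt
  set Cl := A.filter (fun k => col k = y) with hCl
  have hpick : ∀ B : Finset ℕ, B.card ≤ 2 * (M + 2 * R) + 2 → ∃ k ∈ Cl, k ∉ B := by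
    intro B hB
    by_contra hc
    push Not at hc
    exact absurd (card_le_card (show Cl ⊆ B from hc)) (by omega)
  have hClA : ∀ k ∈ Cl, k ∈ A := fun k hk => (mem_filter.1 hk).1
  have hCly : ∀ k ∈ Cl, col k = y := fun k hk => (mem_filter.1 hk).2
  have hb0 := badk_card TT Q eps hR hM hE1
  obtain ⟨k, hkC, hkB⟩ := hpick (badk TT Q eps E1) (by omega)
  have hkA := hClA k hkC
  have hE2 : tog E1 k ⊆ A := tog_sub hE1 hkA
  have hb1 := badk_card TT Q eps hR hM hE2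
  obtain ⟨l, hlC, hlB⟩ := hpick (insert k (badk TT Q eps (tog E1 k)))
    ((card_insert_le _ _).trans (by omega))
  have hlA := hClA l hlC
  rw [mem_insert, not_or] at hlB
  have hE3 : tog (tog E1 k) l ⊆ A := tog_sub hE2 hlA
  have hb2 := badk_card TT Q eps hR hM hE3
  obtain ⟨q, hqC, hqB⟩ := hpick (insert k (insert l (badk TT Q eps (tog E1 k) ∪
    badk TT Q eps (tog (tog E1 k) l)))) (by
      refine (card_insert_le _ _).trans ?_
      have h1 := card_insert_le l (badk TT Q eps (tog E1 k) ∪ badk TT Q eps (tog (tog E1 k) l))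
      have h2 := card_union_le (badk TT Q eps (tog E1 k)) (badk TT Q eps (tog (tog E1 k) l))
      omega)
  have hqA := hClA q hqC
  rw [mem_insert, mem_insert, mem_union, not_or, not_or, not_or] at hqB
  obtain ⟨hqk, hql, hqB1, hqB2⟩ := hqB
  have hlk : l ≠ k := hlB.1
  -- the free types
  set Fr := TT.filter (fun τ => (Q τ).Free k) with hFr
  have hfree : ∀ τ ∈ TT, ∀ j ∈ Cl, ((Q τ).Free j ↔ (Q τ).Free k) := by
    intro τ hτ j hj
    have h1 : (col j).2 ⟨τ, hτ⟩ = (col k).2 ⟨τ, hτ⟩ := by rw [hCly j hj, hCly k hkC]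
    simp only [col] at h1
    by_cases ha : (Q τ).Free j <;> by_cases hb : (Q τ).Free k <;> simp only [ha, hb] at h1 ⊢
    · exfalso
      simp only [not_true_eq_false, if_false, not_false_eq_true, if_true] at h1
      split_ifs at h1 <;> simp at h1
    · exfalso
      simp only [not_true_eq_false, if_false, not_false_eq_true, if_true] at h1
      split_ifs at h1 <;> simp at h1
  have hmem : ∀ j ∈ Cl, (j ∈ E1 ↔ k ∈ E1) := by
    intro j hj
    have h1 : (col j).1 = (col k).1 := by rw [hCly j hj, hCly k hkC]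
    simpa [col] using h1
  have hsgn : ∀ τ ∈ Fr, (Y τ k < 1 ∧ Y τ l < 1 ∧ Y τ q < 1) ∨
      (Y τ k = 1 ∧ Y τ l = 1 ∧ Y τ q = 1) ∨ (1 < Y τ k ∧ 1 < Y τ l ∧ 1 < Y τ q) := by
    intro τ hτ
    obtain ⟨hτT, hfk⟩ := mem_filter.1 hτ
    have hfl := (hfree τ hτT l hlC).2 hfk
    have hfq := (hfree τ hτT q hqC).2 hfk
    have h1 : (col l).2 ⟨τ, hτT⟩ = (col k).2 ⟨τ, hτT⟩ := by rw [hCly l hlC, hCly k hkC]
    have h2 : (col q).2 ⟨τ, hτT⟩ = (col k).2 ⟨τ, hτT⟩ := by rw [hCly q hqC, hCly k hkC]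
    simp only [col, hfk, hfl, hfq, not_true_eq_false, if_false] at h1 h2
    rcases lt_trichotomy (Y τ k) 1 with h3 | h3 | h3
    · left
      rw [if_pos h3] at h1 h2
      refine ⟨h3, ?_, ?_⟩
      · by_contra h; rw [if_neg h] at h1; split_ifs at h1 <;> simp at h1
      · by_contra h; rw [if_neg h] at h2; split_ifs at h2 <;> simp at h2
    · right; left
      rw [if_neg (not_lt.2 h3.ge), if_pos h3] at h1 h2
      refine ⟨h3, ?_, ?_⟩
      · by_contra h; rw [if_neg h] at h1; split_ifs at h1 <;> simp at h1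
      · by_contra h; rw [if_neg h] at h2; split_ifs at h2 <;> simp at h2
    · right; right
      rw [if_neg (not_lt.2 h3.le), if_neg h3.ne'] at h1 h2
      refine ⟨h3, ?_, ?_⟩
      · by_contra h
        rcases lt_or_eq_of_le (not_lt.1 h) with h' | h'
        · rw [if_pos h'] at h1; simp at h1
        · rw [if_neg (not_lt.2 h'.ge), if_pos h'] at h1; simp at h1
      · by_contra h
        rcases lt_or_eq_of_le (not_lt.1 h) with h' | h'
        · rw [if_pos h'] at h2; simp at h2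
        · rw [if_neg (not_lt.2 h'.ge), if_pos h'] at h2; simp at h2
  -- the sums
  have hS : ∀ E ⊆ A, eps E = 0 → (∀ τ ∈ TT, ¬ (Q τ).Free k → (Q τ).W E = 0) →
      ∑ τ ∈ Fr, V τ E = 1 := by
    intro E hE he hw
    have h1 := hsum E hE
    have h2 := hup E hE
    have h3 : ∑ τ ∈ Fr, (Q τ).W E = ∑ τ ∈ TT, (Q τ).W E := by
      rw [hFr, sum_filter]
      refine sum_congr rfl (fun τ hτ => ?_)
      split_ifs with h
      · rfl
      · exact (hw τ hτ h).symm
    simp only [hV]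
    rw [← sum_div, h3]
    rw [he, add_zero] at h1
    rw [h1]
    exact div_self (ne_of_gt (mul_pos hka h2))
  have hnk := notbad hkA hkB
  have hnl := notbad hlA hlB.2
  have hnq1 := notbad hqA hqB1
  have hnq2 := notbad hqA hqB2
  have hv : ∀ τ ∈ Fr, 0 ≤ V τ E1 := fun τ _ =>
    div_nonneg ((Q τ).W_nonneg E1) (mul_pos hka (hup E1 hE1)).le
  have c1 : ∀ τ ∈ Fr, V τ (tog E1 k) = V τ E1 * Y τ k := by
    intro τ hτ
    rw [hstep τ k hkA (mem_filter.1 hτ).2 E1 hE1 Iff.rfl, mul_comm]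
  have hFl : ∀ τ ∈ Fr, (Q τ).Free l := fun τ hτ =>
    (hfree τ (mem_filter.1 hτ).1 l hlC).2 (mem_filter.1 hτ).2
  have hFq : ∀ τ ∈ Fr, (Q τ).Free q := fun τ hτ =>
    (hfree τ (mem_filter.1 hτ).1 q hqC).2 (mem_filter.1 hτ).2
  have c12 : ∀ τ ∈ Fr, V τ (tog (tog E1 k) l) = V τ E1 * (Y τ k * Y τ l) := by
    intro τ hτ
    rw [hstep τ l hlA (hFl τ hτ) _ hE2 (tog_mem hlk), c1 τ hτ]
    ring
  have c13 : ∀ τ ∈ Fr, V τ (tog (tog E1 k) q) = V τ E1 * (Y τ k * Y τ q) := by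
    intro τ hτ
    rw [hstep τ q hqA (hFq τ hτ) _ hE2 (tog_mem hqk), c1 τ hτ]
    ring
  have c123 : ∀ τ ∈ Fr, V τ (tog (tog (tog E1 k) l) q) = V τ E1 * (Y τ k * Y τ l * Y τ q) := by
    intro τ hτ
    rw [hstep τ q hqA (hFq τ hτ) _ hE3 ((tog_mem hql).trans (tog_mem hqk)), c12 τ hτ]
    ring
  have key := la_three Fr (fun τ => V τ E1) (fun τ => Y τ k) (fun τ => Y τ l) (fun τ => Y τ q)
    hv (fun τ hτ => hYpos τ k hkA (mem_filter.1 hτ).2) hsgn
    (by
      rw [← hS (tog E1 k) hE2 hnk.1 hnk.2]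
      exact sum_congr rfl (fun τ hτ => (c1 τ hτ).symm))
    (by
      rw [← hS (tog (tog E1 k) l) hE3 hnl.1
        (fun τ hτ h => hnl.2 τ hτ (fun h' => h ((hfree τ hτ l hlC).1 h')))]
      exact sum_congr rfl (fun τ hτ => (c12 τ hτ).symm))
    (by
      rw [← hS (tog (tog E1 k) q) (tog_sub hE2 hqA) hnq1.1
        (fun τ hτ h => hnq1.2 τ hτ (fun h' => h ((hfree τ hτ q hqC).1 h')))]
      exact sum_congr rfl (fun τ hτ => (c13 τ hτ).symm))
    (by
      rw [← hS (tog (tog (tog E1 k) l) q) (tog_sub hE3 hqA) hnq2.1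
        (fun τ hτ h => hnq2.2 τ hτ (fun h' => h ((hfree τ hτ q hqC).1 h')))]
      exact sum_congr rfl (fun τ hτ => (c123 τ hτ).symm))
  -- conclusion
  have hpos : 0 < ka * ∏ k ∈ E1, u k := mul_pos hka (hup E1 hE1)
  have h1 : ∑ τ ∈ Fr, (Q τ).W E1 = ka * ∏ k ∈ E1, u k := by
    simp only [hV] at key
    rw [← sum_div, div_eq_one_iff_eq hpos.ne'] at key
    exact key
  have h2 : ∑ τ ∈ Fr, (Q τ).W E1 ≤ ∑ τ ∈ TT, (Q τ).W E1 :=
    sum_le_sum_of_subset_of_nonneg (filter_subset _ _) (fun τ _ _ => (Q τ).W_nonneg E1)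
  have h3 := hsum E1 hE1
  have h4 := heps E1 hE1
  linarith

end Pool.Agent.IDX
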