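import Pool.Agent.IDX.Defs

/-! Row IDX-Q3a: cubes -/

open Finset

namespace Pool.Agent.IDX

/-- The 0/1-vector of a set. -/
def ind01 (E : Finset ℕ) (k : ℕ) : ℤ := if k ∈ E then 1 else 0

/-- A weight on the subsets of `A` of the cube form: base `b`, increments `Δ j` (`j ∈ Al`), all
partial sums 0/1 on `A`, factors `x j > 0`. -/
structure Cube (A : Finset ℕ) where
  Al : Finset ℕ
  b : ℕ → ℤ
  De : ℕ → ℕ → ℤ
  x : ℕ → ℝ
  c0 : ℝ
  hx : ∀ j ∈ Al, 0 < x j
  hc0 : 0 ≤ c0
  hval : ∀ J' ⊆ Al, ∀ k ∈ A, b k + ∑ j ∈ J', De j k = 0 ∨ b k + ∑ j ∈ J', De j k = 1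

open Classical in
/-- The weight. -/
noncomputable def Cube.W {A : Finset ℕ} (Q : Cube A) (E : Finset ℕ) : ℝ :=
  Q.c0 * ∑ J' ∈ Q.Al.powerset.filter (fun J' => ∀ k ∈ A, Q.b k + ∑ j ∈ J', Q.De j k = ind01 E k),
    ∏ j ∈ J', Q.x j

section cubeAux

variable {K : Type*} [Field K] [LinearOrder K] [IsStrictOrderedRing K]

/-- The pattern of the configuration `J` on `A` is the indicator of `E`. -/
private def PatQ (A : Finset ℕ) (b : ℕ → ℤ) (Dl : ℕ → ℕ → ℤ) (E J : Finset ℕ) : Prop :=
  ∀ k ∈ A, b k + ∑ j ∈ J, Dl j k = if k ∈ E then 1 else 0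

open Classical in
/-- The weight of the pattern `E`. -/
private noncomputable def WW (A Al : Finset ℕ) (b : ℕ → ℤ) (Dl : ℕ → ℕ → ℤ) (c : K) (x : ℕ → K)
    (E : Finset ℕ) : K :=
  c * ∑ J ∈ Al.powerset with PatQ A b Dl E J, ∏ j ∈ J, x j

variable {A Al : Finset ℕ} {b : ℕ → ℤ} {Dl : ℕ → ℕ → ℤ} {c : K} {x : ℕ → K}

private def ZOq (A Al : Finset ℕ) (b : ℕ → ℤ) (Dl : ℕ → ℕ → ℤ) : Prop :=
  ∀ J ⊆ Al, ∀ k ∈ A, b k + ∑ j ∈ J, Dl j k = 0 ∨ b k + ∑ j ∈ J, Dl j k = 1

private theorem ZOq.base (h : ZOq A Al b Dl) {k : ℕ} (hk : k ∈ A) : b k = 0 ∨ b k = 1 := by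
  simpa using h ∅ (by simp) k hk

private theorem ZOq.one (h : ZOq A Al b Dl) {j k : ℕ} (hj : j ∈ Al) (hk : k ∈ A) :
    b k + Dl j k = 0 ∨ b k + Dl j k = 1 := by
  simpa using h {j} (by simpa using hj) k hk

private theorem ZOq.disj (h : ZOq A Al b Dl) {j l k : ℕ} (hj : j ∈ Al) (hl : l ∈ Al) (hk : k ∈ A)
    (hjl : j ≠ l) (h1 : Dl j k ≠ 0) : Dl l k = 0 := by
  by_contra h2
  have h3 := h {j, l} (by intro y hy; simp at hy; rcases hy with rfl | rfl <;> assumption) k hk
  rw [Finset.sum_pair hjl] at h3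
  have h4 := h.base hk
  have h5 := h.one hj hk
  have h6 := h.one hl hk
  omega

private theorem ZOq.coord (h : ZOq A Al b Dl) {j k : ℕ} (hj : j ∈ Al) (hk : k ∈ A) (h1 : Dl j k ≠ 0)
    {J : Finset ℕ} (hJ : J ⊆ Al) : ∑ i ∈ J, Dl i k = if j ∈ J then Dl j k else 0 := by
  split_ifs with hjJ
  · rw [← Finset.add_sum_erase _ _ hjJ]
    rw [Finset.sum_eq_zero, add_zero]
    intro i hi
    rw [Finset.mem_erase] at hi
    exact h.disj hj (hJ hi.2) hk (Ne.symm hi.1) h1
  · apply Finset.sum_eq_zero
    intro i hi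
    exact h.disj hj (hJ hi) hk (by rintro rfl; exact hjJ hi) h1

/-- `k` is free if some move changes exactly the coordinate `k`. -/
private def FreeG (A Al : Finset ℕ) (Dl : ℕ → ℕ → ℤ) (k : ℕ) : Prop :=
  ∃ j ∈ Al, Dl j k ≠ 0 ∧ ∀ k' ∈ A, k' ≠ k → Dl j k' = 0

omit [LinearOrder K] [IsStrictOrderedRing K] in
private theorem WW_ne {E : Finset ℕ} (h : WW A Al b Dl c x E ≠ 0) :
    ∃ J ⊆ Al, PatQ A b Dl E J := by
  classical
  by_contra hcon
  apply h
  unfold WW
  rw [Finset.sum_eq_zero, mul_zero]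
  intro J hJ
  rw [Finset.mem_filter, Finset.mem_powerset] at hJ
  exact absurd ⟨J, hJ.1, hJ.2⟩ hcon

private theorem WW_nonneg (hc : 0 ≤ c) (hx : ∀ j ∈ Al, 0 < x j) (E : Finset ℕ) :
    0 ≤ WW A Al b Dl c x E := by
  classical
  unfold WW
  apply mul_nonneg hc
  apply Finset.sum_nonneg
  intro J hJ
  rw [Finset.mem_filter, Finset.mem_powerset] at hJ
  exact Finset.prod_nonneg fun j hj => (hx j (hJ.1 hj)).le

/-- Two patterns differ exactly where their sets differ; if a configuration differs in a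
coordinate there is a move in exactly one of them. -/
private theorem exists_move (h : ZOq A Al b Dl) {E E' J J' : Finset ℕ} (hJ : J ⊆ Al) (hJ' : J' ⊆ Al)
    (hE : PatQ A b Dl E J) (hE' : PatQ A b Dl E' J') {k : ℕ} (hk : k ∈ A)
    (hkE : ¬ (k ∈ E ↔ k ∈ E')) : ∃ j ∈ Al, Dl j k ≠ 0 ∧ ¬ (j ∈ J ↔ j ∈ J') := by
  by_contra hcon
  push Not at hcon
  have h1 := hE k hk
  have h2 := hE' k hk
  have h3 : ∑ j ∈ J, Dl j k = ∑ j ∈ J', Dl j k := by
    by_cases hz : ∃ j ∈ Al, Dl j k ≠ 0
    · obtain ⟨j, hj, hj0⟩ := hz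
      rw [h.coord hj hk hj0 hJ, h.coord hj hk hj0 hJ']
      simp only [hcon j hj hj0]
    · push Not at hz
      rw [Finset.sum_eq_zero fun j hj => hz j (hJ hj),
        Finset.sum_eq_zero fun j hj => hz j (hJ' hj)]
  rw [h3] at h1
  rw [h1] at h2
  apply hkE
  by_cases a : k ∈ E <;> by_cases a' : k ∈ E' <;> simp_all

private theorem same_coord (h : ZOq A Al b Dl) {E E' J J' : Finset ℕ} (hJ : J ⊆ Al) (hJ' : J' ⊆ Al)
    (hE : PatQ A b Dl E J) (hE' : PatQ A b Dl E' J') {j k : ℕ} (hj : j ∈ Al) (hk : k ∈ A)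
    (h0 : Dl j k ≠ 0) (hjJ : ¬ (j ∈ J ↔ j ∈ J')) : ¬ (k ∈ E ↔ k ∈ E') := by
  intro hkE
  have h1 := hE k hk
  have h2 := hE' k hk
  rw [h.coord hj hk h0 hJ] at h1
  rw [h.coord hj hk h0 hJ'] at h2
  by_cases a : k ∈ E <;> by_cases a' : k ∈ E' <;> by_cases d : j ∈ J <;> by_cases d' : j ∈ J' <;>
    simp_all

private theorem free_ratioG (h : ZOq A Al b Dl) (hx : ∀ j ∈ Al, 0 < x j) {k : ℕ} (hk : k ∈ A)
    (hf : FreeG A Al Dl k) : ∃ X : K, 0 < X ∧ ∀ E ⊆ A, k ∉ E →
      WW A Al b Dl c x (insert k E) = X * WW A Al b Dl c x E := by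
  classical
  obtain ⟨j, hj, hj0, hjz⟩ := hf
  have hAl : insert j (Al.erase j) = Al := Finset.insert_erase hj
  have hjn : j ∉ Al.erase j := by simp
  have split : ∀ E : Finset ℕ, WW A Al b Dl c x E =
      c * ((∑ J ∈ (Al.erase j).powerset, if PatQ A b Dl E J then ∏ i ∈ J, x i else 0) +
        ∑ J ∈ (Al.erase j).powerset,
          if PatQ A b Dl E (insert j J) then x j * ∏ i ∈ J, x i else 0) := by
    intro E
    unfold WW
    rw [Finset.sum_filter]
    congr 1
    conv_lhs => rw [← hAl]
    rw [Finset.sum_powerset_insert hjn]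
    congr 1
    apply Finset.sum_congr rfl
    intro J hJ
    rw [Finset.mem_powerset] at hJ
    have : j ∉ J := fun hh => hjn (hJ hh)
    rw [Finset.prod_insert this]
  have hsum : ∀ J ∈ (Al.erase j).powerset, ∀ k' ∈ A,
      (∑ i ∈ insert j J, Dl i k') = Dl j k' + ∑ i ∈ J, Dl i k' := by
    intro J hJ k' _
    rw [Finset.mem_powerset] at hJ
    exact Finset.sum_insert (fun hh => hjn (hJ hh))
  have hzero : ∀ J ∈ (Al.erase j).powerset, ∑ i ∈ J, Dl i k = 0 := by
    intro J hJ
    rw [Finset.mem_powerset] at hJ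
    rw [h.coord hj hk hj0 (hJ.trans (Finset.erase_subset _ _)), if_neg]
    exact fun hh => hjn (hJ hh)
  have hb := h.base hk
  have h1 := h.one hj hk
  rcases hb with hb | hb
  · -- `b k = 0`, `Dl j k = 1`
    have hd : Dl j k = 1 := by omega
    refine ⟨x j, hx j hj, fun E _ hkE => ?_⟩
    rw [split, split]
    have e1 : ∀ J ∈ (Al.erase j).powerset,
        (if PatQ A b Dl (insert k E) J then ∏ i ∈ J, x i else 0) = 0 := by
      intro J hJ
      rw [if_neg]
      intro hP
      have := hP k hk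
      rw [hzero J hJ, hb] at this
      simp at this
    have e2 : ∀ J ∈ (Al.erase j).powerset,
        (if PatQ A b Dl E (insert j J) then x j * ∏ i ∈ J, x i else 0) = 0 := by
      intro J hJ
      rw [if_neg]
      intro hP
      have := hP k hk
      rw [hsum J hJ k hk, hzero J hJ, hb, hd] at this
      simp [hkE] at this
    rw [Finset.sum_congr rfl e1, Finset.sum_congr rfl e2]
    simp only [Finset.sum_const_zero, zero_add, add_zero]
    rw [Finset.sum_congr rfl (g := fun J => x j * if PatQ A b Dl E J then ∏ i ∈ J, x i else 0)]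
    · rw [← Finset.mul_sum]
      ring
    · intro J hJ
      have : PatQ A b Dl (insert k E) (insert j J) ↔ PatQ A b Dl E J := by
        constructor
        · intro hP k' hk'
          have := hP k' hk'
          rw [hsum J hJ k' hk'] at this
          by_cases hkk : k' = k
          · subst hkk
            rw [hd] at this
            simp only [Finset.mem_insert_self, if_true] at this
            rw [if_neg hkE]
            omega
          · rw [hjz k' hk' hkk] at this
            simp only [Finset.mem_insert, hkk, false_or, zero_add] at this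
            exact this
        · intro hP k' hk'
          have := hP k' hk'
          rw [hsum J hJ k' hk']
          by_cases hkk : k' = k
          · subst hkk
            rw [hd]
            simp only [Finset.mem_insert_self, if_true]
            rw [if_neg hkE] at this
            omega
          · rw [hjz k' hk' hkk]
            simp only [Finset.mem_insert, hkk, false_or, zero_add]
            exact this
      by_cases hP : PatQ A b Dl E J
      · rw [if_pos (this.2 hP), if_pos hP]
      · rw [if_neg (fun hh => hP (this.1 hh)), if_neg hP, mul_zero]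
  · have hd : Dl j k = -1 := by omega
    refine ⟨(x j)⁻¹, inv_pos.2 (hx j hj), fun E _ hkE => ?_⟩
    rw [split, split]
    have e1 : ∀ J ∈ (Al.erase j).powerset,
        (if PatQ A b Dl E J then ∏ i ∈ J, x i else 0) = 0 := by
      intro J hJ
      rw [if_neg]
      intro hP
      have := hP k hk
      rw [hzero J hJ, hb] at this
      simp [hkE] at this
    have e2 : ∀ J ∈ (Al.erase j).powerset,
        (if PatQ A b Dl (insert k E) (insert j J) then x j * ∏ i ∈ J, x i else 0) = 0 := by
      intro J hJ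
      rw [if_neg]
      intro hP
      have := hP k hk
      rw [hsum J hJ k hk, hzero J hJ, hb, hd] at this
      simp at this
    rw [Finset.sum_congr rfl e1, Finset.sum_congr rfl e2]
    simp only [Finset.sum_const_zero, zero_add, add_zero]
    rw [Finset.sum_congr rfl (g := fun J =>
      (x j)⁻¹ * (x j * if PatQ A b Dl (insert k E) J then ∏ i ∈ J, x i else 0))]
    · rw [← Finset.mul_sum]
      rw [Finset.sum_congr rfl (g := fun J =>
        if PatQ A b Dl E (insert j J) then x j * ∏ i ∈ J, x i else 0)]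
      · ring
      · intro J hJ
        have : PatQ A b Dl E (insert j J) ↔ PatQ A b Dl (insert k E) J := by
          constructor
          · intro hP k' hk'
            have := hP k' hk'
            rw [hsum J hJ k' hk'] at this
            by_cases hkk : k' = k
            · subst hkk
              rw [hd] at this
              simp only [Finset.mem_insert_self, if_true]
              rw [if_neg hkE] at this
              omega
            · rw [hjz k' hk' hkk] at this
              simp only [Finset.mem_insert, hkk, false_or]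
              rw [zero_add] at this
              exact this
          · intro hP k' hk'
            have := hP k' hk'
            rw [hsum J hJ k' hk']
            by_cases hkk : k' = k
            · subst hkk
              rw [hd]
              simp only [Finset.mem_insert_self, if_true] at this
              rw [if_neg hkE]
              omega
            · rw [hjz k' hk' hkk]
              simp only [Finset.mem_insert, hkk, false_or] at this
              rw [zero_add]
              exact this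
        by_cases hP : PatQ A b Dl (insert k E) J
        · rw [if_pos (this.2 hP), if_pos hP]
        · rw [if_neg (fun hh => hP (this.1 hh)), if_neg hP, mul_zero]
    · intro J _
      rw [← mul_assoc, inv_mul_cancel₀ (hx j hj).ne', one_mul]

end cubeAux

private theorem W_eq {A : Finset ℕ} (Q : Cube A) (E : Finset ℕ) :
    Q.W E = WW A Q.Al Q.b Q.De Q.c0 Q.x E := by
  classical
  unfold Cube.W WW
  congr 1
  exact Finset.sum_congr (Finset.filter_congr fun J _ => Iff.rfl) fun _ _ => rfl

private theorem Q_zo {A : Finset ℕ} (Q : Cube A) : ZOq A Q.Al Q.b Q.De := Q.hval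

theorem Cube.W_nonneg {A : Finset ℕ} (Q : Cube A) (E : Finset ℕ) : 0 ≤ Q.W E := by
  rw [W_eq]
  exact WW_nonneg Q.hc0 Q.hx E

/-- Supports of the increments are disjoint: if `De j k ≠ 0` and `De l k ≠ 0`, `j ≠ l`, then both are
`1` (if `b k = 0`) or both `-1`, and `b k + De j k + De l k` is not 0/1. -/
theorem Cube.disjoint {A : Finset ℕ} (Q : Cube A) {j l k : ℕ} (hj : j ∈ Q.Al) (hl : l ∈ Q.Al)
    (hjl : j ≠ l) (hk : k ∈ A) : Q.De j k = 0 ∨ Q.De l k = 0 := by
  by_cases h : Q.De j k = 0
  · exact Or.inl h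
  · exact Or.inr ((Q_zo Q).disj hj hl hk hjl h)

/-- `k` is free: some increment is nonzero exactly at `k` (on `A`). -/
def Cube.Free {A : Finset ℕ} (Q : Cube A) (k : ℕ) : Prop :=
  ∃ j ∈ Q.Al, Q.De j k ≠ 0 ∧ ∀ i ∈ A, i ≠ k → Q.De j i = 0

/-- Free digits: toggling `k` multiplies the weight by a constant. -/
theorem Cube.free_ratio {A : Finset ℕ} (Q : Cube A) {k : ℕ} (hk : k ∈ A) (h : Q.Free k) :
    ∃ X : ℝ, 0 < X ∧ ∀ E ⊆ A, Q.W (insert k E) = X * Q.W (E.erase k) := by
  obtain ⟨X, hX, h2⟩ := free_ratioG (c := Q.c0) (Q_zo Q) Q.hx hk h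
  refine ⟨X, hX, fun E hE => ?_⟩
  rw [W_eq, W_eq, ← h2 (E.erase k) ((Finset.erase_subset _ _).trans hE) (by simp)]
  congr 1
  ext z
  simp only [Finset.mem_insert, Finset.mem_erase]
  tauto

end Pool.Agent.IDX
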