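import Pool.Agent.IDX.Q4a

/-! Row IDX-Q4b: the equation for given digits -/

open Finset

namespace Pool.Agent.IDX

namespace Cln

variable (s : Cln)

theorem Q4b_types (E : Finset ℕ) :
    ∑ τ ∈ s.TT, ∑ S ∈ s.St.filter (fun S => S ∩ s.Xi = τ ∧ s.Df S ∩ s.A = E),
      (1 : ℝ) / 2 ^ (s.Γ.card + s.f S) =
    ∑ S ∈ s.St.filter (fun S => s.Df S ∩ s.A = E), (1 : ℝ) / 2 ^ (s.Γ.card + s.f S) := by
  rw [← Finset.sum_fiberwise_of_maps_to (s := s.St.filter (fun S => s.Df S ∩ s.A = E))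
    (t := s.TT) (g := fun S => S ∩ s.Xi)
    (fun S hS => (s.state_part (Finset.mem_filter.1 hS).1).1)]
  refine Finset.sum_congr rfl fun τ _ => Finset.sum_congr ?_ fun _ _ => rfl
  ext S
  simp only [Finset.mem_filter]
  tauto

theorem Q4b_fiber (X : Finset (Finset ℕ)) (D : Finset ℕ → Finset ℕ) (w : Finset ℕ → ℝ)
    (hD : ∀ S ∈ X, D S ∈ s.BB) (E : Finset ℕ) :
    ∑ S ∈ X.filter (fun S => D S ∩ s.A = E), w S =
      ∑ D' ∈ s.BB.filter (fun D' => D' ∩ s.A = E), ∑ S ∈ X.filter (fun S => D S = D'), w S := by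
  rw [← Finset.sum_fiberwise_of_maps_to (s := X.filter (fun S => D S ∩ s.A = E))
    (t := s.BB.filter (fun D' => D' ∩ s.A = E)) (g := D) (fun S hS => by
      rw [Finset.mem_filter] at hS ⊢
      exact ⟨hD S hS.1, hS.2⟩)]
  refine Finset.sum_congr rfl fun D' hD' => Finset.sum_congr ?_ fun _ _ => rfl
  rw [Finset.mem_filter] at hD'
  ext S
  simp only [Finset.mem_filter]
  constructor
  · rintro ⟨⟨h1, -⟩, h3⟩
    exact ⟨h1, h3⟩
  · rintro ⟨h1, h3⟩
    exact ⟨⟨h1, by rw [h3]; exact hD'.2⟩, h3⟩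

theorem Q4b_blocks {E : Finset ℕ} (hE : E ⊆ s.A) :
    ∑ D ∈ s.BB.filter (fun D => D ∩ s.A = E), (s.c : ℝ) / 2 ^ (s.P + num s.B D) =
      ((s.c : ℝ) / 2 ^ s.P * ∑ D ∈ (range s.n \ s.A).powerset, (1 : ℝ) / 2 ^ num s.B D) *
        ∏ k ∈ E, (1 : ℝ) / 2 ^ (s.B ^ (k + 1)) := by
  have hA : s.A ⊆ range s.n := by
    intro i hi
    have h1 := (s.toSeg.mem_A.1 hi).2
    have h2 := s.hel
    rw [Finset.mem_range]
    omega
  have hprod : ∏ k ∈ E, (1 : ℝ) / 2 ^ (s.B ^ (k + 1)) = 1 / 2 ^ num s.B E := by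
    unfold num
    rw [Finset.prod_div_distrib, Finset.prod_const_one, Finset.prod_pow_eq_pow_sum]
  rw [hprod]
  rw [Finset.mul_sum, Finset.sum_mul]
  symm
  refine Finset.sum_bij' (fun D' _ => E ∪ D') (fun D _ => D \ s.A) ?_ ?_ ?_ ?_ ?_
  · intro D' hD'
    rw [Finset.mem_powerset] at hD'
    rw [Finset.mem_filter, s.hpow, Finset.mem_powerset]
    constructor
    · exact Finset.union_subset (hE.trans hA) (hD'.trans Finset.sdiff_subset)
    · ext x
      simp only [Finset.mem_inter, Finset.mem_union]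
      constructor
      · rintro ⟨h1 | h1, h2⟩
        · exact h1
        · exact absurd h2 (Finset.mem_sdiff.1 (hD' h1)).2
      · intro h1
        exact ⟨Or.inl h1, hE h1⟩
  · intro D hD
    rw [Finset.mem_filter, s.hpow, Finset.mem_powerset] at hD
    rw [Finset.mem_powerset]
    exact Finset.sdiff_subset_sdiff hD.1 (Finset.Subset.refl _)
  · intro D' hD'
    rw [Finset.mem_powerset] at hD'
    ext x
    simp only [Finset.mem_sdiff, Finset.mem_union]
    constructor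
    · rintro ⟨h1 | h1, h2⟩
      · exact absurd (hE h1) h2
      · exact h1
    · intro h1
      exact ⟨Or.inr h1, (Finset.mem_sdiff.1 (hD' h1)).2⟩
  · intro D hD
    rw [Finset.mem_filter] at hD
    show E ∪ D \ s.A = D
    rw [← hD.2]
    ext x
    simp only [Finset.mem_sdiff, Finset.mem_union, Finset.mem_inter]
    tauto
  · intro D' hD'
    rw [Finset.mem_powerset] at hD'
    have hdis : Disjoint E D' := by
      rw [Finset.disjoint_left]
      intro x hx hx'
      exact (Finset.mem_sdiff.1 (hD' hx')).2 (hE hx)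
    show _ = (s.c : ℝ) / 2 ^ (s.P + num s.B (E ∪ D'))
    rw [num_union hdis, pow_add, pow_add]
    field_simp

/-- The equation for given `A`-digits. -/
theorem eq_digits {E : Finset ℕ} (hE : E ⊆ s.A) :
    ∑ τ ∈ s.TT, (s.cubes τ).W E +
        ∑ S ∈ s.Se.filter (fun S => s.Ef S ∩ s.A = E), (1 : ℝ) / 2 ^ (s.T0.card + s.z S) =
      ((s.c : ℝ) / 2 ^ s.P * ∑ D ∈ (range s.n \ s.A).powerset, (1 : ℝ) / 2 ^ num s.B D) *
        ∏ k ∈ E, (1 : ℝ) / 2 ^ (s.B ^ (k + 1)) := by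
  rw [← s.Q4b_blocks hE, Finset.sum_congr rfl fun τ hτ => s.W_eq hτ hE, s.Q4b_types E,
    s.Q4b_fiber s.St s.Df _ (fun S hS => (s.hD S hS).1) E,
    s.Q4b_fiber s.Se s.Ef _ (fun S hS => (s.hE S hS).1) E, ← Finset.sum_add_distrib]
  refine Finset.sum_congr rfl fun D hD => ?_
  exact s.hsum D (Finset.mem_filter.1 hD).1

theorem TT_card : s.TT.card ≤ 2 ^ s.Xi.card := by
  rw [← Finset.card_powerset]
  exact Finset.card_le_card (Finset.filter_subset _ _)

theorem Se_card : s.Se.card ≤ 2 ^ s.C := by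
  refine (Finset.card_le_card (Finset.filter_subset _ _)).trans ?_
  rw [Finset.card_powerset]
  exact Nat.pow_le_pow_right (by norm_num) s.hC

end Cln

end Pool.Agent.IDX
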