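import Pool.Agent.IDX.Q4b

/-! Row IDX-Q4c: conclusion for a clean segment -/

open Finset

namespace Pool.Agent.IDX

/-- The conclusion: if the clean segment is long compared with `|Xi|` then `Se` is empty. -/
theorem exists_NX (C X : ℕ) : ∃ NX : ℕ, ∀ s : Cln, s.C = C → s.Xi.card ≤ X → NX ≤ s.A.card →
    s.Se = ∅ := by
  classical
  obtain ⟨NC, hNC⟩ := cube (2 ^ X) (2 ^ C)
  refine ⟨NC, fun s hC hX hA => ?_⟩
  set eps : Finset ℕ → ℝ := fun E =>
    ∑ S ∈ s.Se.filter (fun S => s.Ef S ∩ s.A = E), (1 : ℝ) / 2 ^ (s.T0.card + s.z S) with heps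
  have hnn : ∀ E, 0 ≤ eps E := fun E => by
    simp only [heps]
    exact Finset.sum_nonneg fun S _ => by positivity
  have hcard : (s.A.powerset.filter (fun E => eps E ≠ 0)).card ≤ 2 ^ C := by
    have h1 : (s.A.powerset.filter (fun E => eps E ≠ 0)) ⊆ s.Se.image (fun S => s.Ef S ∩ s.A) := by
      intro E hE
      have h2 := (mem_filter.mp hE).2
      simp only [heps] at h2
      obtain ⟨S, hS, -⟩ := Finset.exists_ne_zero_of_sum_ne_zero h2
      obtain ⟨h3, h4⟩ := mem_filter.mp hS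
      exact mem_image.mpr ⟨S, h3, h4⟩
    calc _ ≤ (s.Se.image (fun S => s.Ef S ∩ s.A)).card := card_le_card h1
      _ ≤ s.Se.card := card_image_le
      _ ≤ 2 ^ s.C := s.Se_card
      _ = 2 ^ C := by rw [hC]
  have hTT : s.TT.card ≤ 2 ^ X :=
    s.TT_card.trans (Nat.pow_le_pow_right (by norm_num) hX)
  have hka : 0 < (s.c : ℝ) / 2 ^ s.P *
      ∑ D ∈ (range s.n \ s.A).powerset, (1 : ℝ) / 2 ^ num s.B D := by
    have hc : (0 : ℝ) < s.c := by exact_mod_cast s.hc
    refine mul_pos (by positivity) ?_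
    exact Finset.sum_pos (fun D _ => by positivity) ⟨∅, empty_mem_powerset _⟩
  have key := hNC s.A s.TT s.cubes eps (fun k => (1 : ℝ) / 2 ^ (s.B ^ (k + 1))) _ hTT
    (fun E _ => hnn E) (by convert hcard) (fun k _ => by positivity) hka
    (fun E hE => s.eq_digits hE) hA
  rw [Finset.eq_empty_iff_forall_notMem]
  intro S hS
  have h1 := key (s.Ef S ∩ s.A) inter_subset_right
  simp only [heps] at h1
  have h2 : S ∈ s.Se.filter (fun S' => s.Ef S' ∩ s.A = s.Ef S ∩ s.A) := mem_filter.mpr ⟨hS, rfl⟩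
  have h3 : (1 : ℝ) / 2 ^ (s.T0.card + s.z S) ≤
      ∑ S' ∈ s.Se.filter (fun S' => s.Ef S' ∩ s.A = s.Ef S ∩ s.A),
        (1 : ℝ) / 2 ^ (s.T0.card + s.z S') :=
    Finset.single_le_sum (f := fun S' => (1 : ℝ) / 2 ^ (s.T0.card + s.z S'))
      (fun S' _ => by positivity) h2
  have h4 : (0 : ℝ) < 1 / 2 ^ (s.T0.card + s.z S) := by positivity
  linarith

theorem dn_eq_of_Se (s : Sys) (h : s.Se = ∅) : dn s.F = dn s.K := by
  have h1 := core_diff (F := s.F) (K := s.K) (T0 := s.T0) (by unfold Sys.T0; exact subset_rfl)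
    (fun e he => s.F_outside he) s.hUp
  have h2 : s.T0.powerset.filter (fun S => Ind s.F S ∧ ¬ Ind s.K S) = ∅ := by
    have h3 : s.Se = s.T0.powerset.filter (fun S => Ind s.F S ∧ ¬ Ind s.K S) := by
      unfold Sys.Se
      congr
    rw [← h3, h]
  rw [h2, Finset.sum_empty] at h1
  linarith

end Pool.Agent.IDX
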