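import Pool.Agent.IDX.Q1
import Pool.Agent.IDX.Q2
import Pool.Agent.IDX.Q3

/-! Row IDX-Q4a: the cube of a type -/

open Finset

namespace Pool.Agent.IDX

namespace Cln

variable (s : Cln)

/-- The cube of a type `τ`: `Al = Al τ`, base the digits of `Df τ`, increments
`Df (insert (vv j) τ) - Df τ`, factors `x j = 2^{-|Nf j \ kl τ|}`, constant `PP τ ∅`. -/
noncomputable def cubeOf (τ : Finset ℕ) (hτ : τ ∈ s.TT) : Cube s.A where
  Al := s.Al τ
  b := fun k => if k ∈ s.Df τ then 1 else 0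
  De := fun j k => (if k ∈ s.Df (insert (s.vv j) τ) then (1 : ℤ) else 0) -
    (if k ∈ s.Df τ then (1 : ℤ) else 0)
  x := fun j => 1 / 2 ^ (s.Nf j \ s.kl τ).card
  c0 := s.PP τ ∅
  hx := fun j _ => by positivity
  hc0 := by
    unfold PP
    exact Finset.sum_nonneg fun S _ => by positivity
  hval := by
    intro J' hJ k hk
    have hk' : s.sg ≤ k := (s.toSeg.mem_A.1 hk).1
    have := s.digits_add hτ hJ hk'
    rw [← this]
    split_ifs
    · exact Or.inr rfl
    · exact Or.inl rfl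

/-- The trivial cube with weight 0. -/
noncomputable def cube0 : Cube s.A where
  Al := ∅
  b := fun _ => 0
  De := fun _ _ => 0
  x := fun _ => 1
  c0 := 0
  hx := fun j hj => by simp at hj
  hc0 := le_refl _
  hval := fun J' _ k _ => Or.inl (by simp)

open Classical in
noncomputable def cubes (τ : Finset ℕ) : Cube s.A := if h : τ ∈ s.TT then s.cubeOf τ h else s.cube0

theorem Q4a_digits {τ J' : Finset ℕ} (hτ : τ ∈ s.TT) (hJ : J' ⊆ s.Al τ) {E : Finset ℕ}
    (hE : E ⊆ s.A) :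
    (∀ k ∈ s.A, (s.cubeOf τ hτ).b k + ∑ j ∈ J', (s.cubeOf τ hτ).De j k = ind01 E k) ↔
      s.Df (τ ∪ J'.image s.vv) ∩ s.A = E := by
  have key : ∀ k ∈ s.A, (s.cubeOf τ hτ).b k + ∑ j ∈ J', (s.cubeOf τ hτ).De j k =
      if k ∈ s.Df (τ ∪ J'.image s.vv) then (1 : ℤ) else 0 := by
    intro k hk
    have hk' : s.sg ≤ k := (s.toSeg.mem_A.1 hk).1
    rw [s.digits_add hτ hJ hk']
    rfl
  constructor
  · intro h
    ext k
    rw [Finset.mem_inter]
    constructor
    · rintro ⟨h1, h2⟩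
      have h3 := h k h2
      rw [key k h2, if_pos h1] at h3
      unfold ind01 at h3
      by_contra hcon
      rw [if_neg hcon] at h3
      exact one_ne_zero h3
    · intro h1
      have h2 := hE h1
      refine ⟨?_, h2⟩
      have h3 := h k h2
      rw [key k h2] at h3
      unfold ind01 at h3
      rw [if_pos h1] at h3
      by_contra hcon
      rw [if_neg hcon] at h3
      exact zero_ne_one h3
  · intro h k hk
    rw [key k hk]
    unfold ind01
    rw [← h]
    simp only [Finset.mem_inter, hk, and_true]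

theorem Q4a_PP {τ J' : Finset ℕ} (hτ : τ ∈ s.TT) (hJ : J' ⊆ s.Al τ) :
    s.PP τ J' = (s.cubeOf τ hτ).c0 * ∏ j ∈ J', (s.cubeOf τ hτ).x j := by
  have hAl : s.Al τ ⊆ s.DD := by
    unfold Al
    exact Finset.filter_subset _ _
  rw [s.fact hτ (hJ.trans hAl)]
  have h1 : (s.cubeOf τ hτ).c0 = s.PP τ ∅ := rfl
  rw [h1]
  congr 1
  apply Finset.prod_congr rfl
  intro j hj
  have h2 : s.vv j ∉ s.kl τ := by
    have := hJ hj
    unfold Al at this
    exact (Finset.mem_filter.1 this).2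
  rw [if_neg h2]
  rfl

theorem Q4a_inter_A {S : Finset ℕ} (hS : S ∈ s.St) :
    s.Df S ∩ s.A =
      s.Df ((S ∩ s.Xi) ∪ (s.DD.filter (fun j => s.vv j ∈ S)).image s.vv) ∩ s.A := by
  have h := s.digits_type hS
  ext k
  rw [Finset.mem_inter, Finset.mem_inter]
  constructor
  · rintro ⟨h1, h2⟩
    have h3 : k ∈ (s.Df S).filter (fun i => s.sg ≤ i) :=
      Finset.mem_filter.2 ⟨h1, (s.toSeg.mem_A.1 h2).1⟩
    rw [h] at h3
    exact ⟨(Finset.mem_filter.1 h3).1, h2⟩
  · rintro ⟨h1, h2⟩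
    have h3 : k ∈ (s.Df ((S ∩ s.Xi) ∪ (s.DD.filter (fun j => s.vv j ∈ S)).image s.vv)).filter
        (fun i => s.sg ≤ i) := Finset.mem_filter.2 ⟨h1, (s.toSeg.mem_A.1 h2).1⟩
    rw [← h] at h3
    exact ⟨(Finset.mem_filter.1 h3).1, h2⟩

/-- The weight of the cube of `τ` is the total weight of the states of type `τ` with given
`A`-digits. -/
theorem W_eq {τ E : Finset ℕ} (hτ : τ ∈ s.TT) (hE : E ⊆ s.A) :
    (s.cubes τ).W E = ∑ S ∈ s.St.filter (fun S => S ∩ s.Xi = τ ∧ s.Df S ∩ s.A = E),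
      (1 : ℝ) / 2 ^ (s.Γ.card + s.f S) := by
  classical
  have hc : s.cubes τ = s.cubeOf τ hτ := by
    unfold cubes
    rw [dif_pos hτ]
  rw [hc]
  unfold Cube.W
  rw [Finset.mul_sum]
  have hmaps : ∀ S ∈ s.St.filter (fun S => S ∩ s.Xi = τ ∧ s.Df S ∩ s.A = E),
      s.DD.filter (fun j => s.vv j ∈ S) ∈
        (s.Al τ).powerset.filter (fun J' => s.Df (τ ∪ J'.image s.vv) ∩ s.A = E) := by
    intro S hS
    rw [Finset.mem_filter] at hS
    obtain ⟨hSt, hX, hD⟩ := hS
    have hp := (s.state_part hSt).2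
    rw [hX] at hp
    rw [Finset.mem_filter, Finset.mem_powerset]
    refine ⟨hp, ?_⟩
    rw [← hD, s.Q4a_inter_A hSt, hX]
  rw [← Finset.sum_fiberwise_of_maps_to hmaps]
  refine Finset.sum_congr ?_ ?_
  · ext J'
    constructor
    · intro h
      have h0 := h
      simp only [Finset.mem_filter, Finset.mem_powerset] at h0
      rw [Finset.mem_filter, Finset.mem_powerset]
      have hJ : J' ⊆ s.Al τ := h0.1
      exact ⟨hJ, (s.Q4a_digits hτ hJ hE).1 h0.2⟩
    · intro h
      rw [Finset.mem_filter, Finset.mem_powerset] at h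
      simp only [Finset.mem_filter, Finset.mem_powerset]
      exact ⟨h.1, (s.Q4a_digits hτ h.1 hE).2 h.2⟩
  · intro J' hJ'
    have hJ : J' ⊆ s.Al τ := by
      have h0 := hJ'
      simp only [Finset.mem_filter, Finset.mem_powerset] at h0
      exact h0.1
    have hD : s.Df (τ ∪ J'.image s.vv) ∩ s.A = E := by
      have h0 := hJ'
      simp only [Finset.mem_filter, Finset.mem_powerset] at h0
      exact h0.2
    rw [← s.Q4a_PP hτ hJ]
    unfold PP
    apply Finset.sum_congr _ (fun _ _ => rfl)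
    ext S
    simp only [Finset.mem_filter]
    constructor
    · rintro ⟨hSt, hX, hV⟩
      refine ⟨⟨hSt, hX, ?_⟩, hV⟩
      rw [s.Q4a_inter_A hSt, hX, hV]
      exact hD
    · rintro ⟨⟨hSt, hX, _⟩, hV⟩
      exact ⟨hSt, hX, hV⟩

end Cln

end Pool.Agent.IDX
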