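import Pool.Agent.IDX.Q4

/-! Row IDX-R1b: bad levels -/

open Finset

namespace Pool.Agent.IDX

namespace SysD

variable (s : SysD)

/-- The bad levels. -/
noncomputable def Bad : Finset ℕ := by
  classical
  exact (Icc 1 s.n).filter (fun k => ¬ ((∃ v ∈ s.Γ, s.lev v = k ∧ v ∉ s.T0 ∧
    ∀ w ∈ s.Γ, s.lev w = k → w = v) ∧ ∀ Q ∈ s.K2, s.levQ Q ≠ k))

/-- (W5) `|Bad| ≤ (q + 1 - n) + 3 |K2| + |T0|`: levels with a germ (`≤ |K2|`), levels without centre
(they have a germ), levels with two centres (`≤ |J| - (number of levels with a centre)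
≤ q + 1 - (n - |K2|)`), levels with a centre in `T0`. -/
theorem Bad_card {p : ℕ} (hp : s.q = s.n + p) : s.Bad.card ≤ p + 1 + 3 * s.C ^ 2 + s.C := by
  classical
  have hK2 := s.K2_card
  have hJ := s.J_card_le
  have hT0 : s.T0.card ≤ s.C := s.hC
  -- the three kinds of bad levels
  set A1 : Finset ℕ := s.K2.image s.levQ with hA1
  set A3 : Finset ℕ := (Icc 1 s.n).filter (fun k => 2 ≤ (s.J.filter (fun v => s.lev v = k)).card) with hA3
  set A4 : Finset ℕ := s.T0.image s.lev with hA4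
  have h1 : A1.card ≤ s.C ^ 2 := le_trans Finset.card_image_le hK2
  have h4 : A4.card ≤ s.C := le_trans Finset.card_image_le hT0
  have hmaps : ∀ v ∈ s.J, s.lev v ∈ Icc 1 s.n := by
    intro v hv
    have hv' := (Finset.mem_filter.mp hv)
    exact mem_Icc.mpr ⟨hv'.2, s.lev_le hv'.1⟩
  have hcardJ : s.J.card = ∑ k ∈ Icc 1 s.n, (s.J.filter (fun v => s.lev v = k)).card :=
    Finset.card_eq_sum_card_fiberwise hmaps
  have h3 : s.n + A3.card ≤ s.J.card + s.C ^ 2 := by
    have hle : ∑ k ∈ Icc 1 s.n, (1 + if k ∈ A3 then 1 else 0) ≤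
        ∑ k ∈ Icc 1 s.n, ((s.J.filter (fun v => s.lev v = k)).card + if k ∈ A1 then 1 else 0) := by
      apply Finset.sum_le_sum
      intro k hk
      by_cases hk3 : k ∈ A3
      · rw [if_pos hk3]
        have := (Finset.mem_filter.mp hk3).2
        omega
      · rw [if_neg hk3]
        rw [mem_Icc] at hk
        rcases s.level_attained (k := k - 1) (by omega) with ⟨v, hv, hvl⟩ | ⟨Q, hQ, hQl⟩
        · have hvk : s.lev v = k := by omega
          have hvJ : v ∈ s.J.filter (fun v => s.lev v = k) :=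
            Finset.mem_filter.mpr ⟨Finset.mem_filter.mpr ⟨hv, by omega⟩, hvk⟩
          have := Finset.card_pos.mpr ⟨v, hvJ⟩
          omega
        · have hQk : k ∈ A1 := Finset.mem_image.mpr ⟨Q, hQ, by omega⟩
          rw [if_pos hQk]
          omega
    rw [Finset.sum_add_distrib, Finset.sum_add_distrib] at hle
    have e1 : ∑ k ∈ Icc 1 s.n, 1 = s.n := by simp
    have e2 : ∑ k ∈ Icc 1 s.n, (if k ∈ A3 then 1 else 0) = A3.card := by
      rw [← Finset.sum_filter, Finset.sum_const, smul_eq_mul, mul_one]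
      congr 1
      ext k
      simp only [Finset.mem_filter, hA3]
      tauto
    have e3 : ∑ k ∈ Icc 1 s.n, (if k ∈ A1 then 1 else 0) ≤ A1.card := by
      rw [← Finset.sum_filter, Finset.sum_const, smul_eq_mul, mul_one]
      apply Finset.card_le_card
      intro k hk
      exact (Finset.mem_filter.mp hk).2
    rw [e1, e2, ← hcardJ] at hle
    omega
  have hsub : s.Bad ⊆ A1 ∪ (A3 ∪ A4) := by
    intro k hk
    unfold Bad at hk
    rw [Finset.mem_filter] at hk
    obtain ⟨hkI, hk2⟩ := hk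
    by_contra hcon
    rw [Finset.mem_union, Finset.mem_union, not_or, not_or] at hcon
    obtain ⟨c1, c3, c4⟩ := hcon
    apply hk2
    have hnoQ : ∀ Q ∈ s.K2, s.levQ Q ≠ k := fun Q hQ hQk =>
      c1 (Finset.mem_image.mpr ⟨Q, hQ, hQk⟩)
    refine ⟨?_, hnoQ⟩
    rw [mem_Icc] at hkI
    rcases s.level_attained (k := k - 1) (by omega) with ⟨v, hv, hvl⟩ | ⟨Q, hQ, hQl⟩
    · have hvk : s.lev v = k := by omega
      refine ⟨v, hv, hvk, ?_, ?_⟩
      · intro hvT
        exact c4 (Finset.mem_image.mpr ⟨v, hvT, hvk⟩)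
      · intro w hw hwk
        by_contra hne
        apply c3
        rw [hA3, Finset.mem_filter]
        refine ⟨mem_Icc.mpr hkI, ?_⟩
        have hvJ : v ∈ s.J.filter (fun v => s.lev v = k) :=
          Finset.mem_filter.mpr ⟨Finset.mem_filter.mpr ⟨hv, by omega⟩, hvk⟩
        have hwJ : w ∈ s.J.filter (fun v => s.lev v = k) :=
          Finset.mem_filter.mpr ⟨Finset.mem_filter.mpr ⟨hw, by omega⟩, hwk⟩
        exact Finset.one_lt_card.mpr ⟨w, hwJ, v, hvJ, hne⟩
    · exact absurd (by omega) (hnoQ Q hQ)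
  have hcard := Finset.card_le_card hsub
  have hu1 := Finset.card_union_le A1 (A3 ∪ A4)
  have hu2 := Finset.card_union_le A3 A4
  omega

end SysD

end Pool.Agent.IDX
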