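import Pool.Agent.IDX.R1a
import Pool.Agent.IDX.R1b

/-! Row IDX-R1c: the main theorem -/

open Finset

namespace Pool.Agent.IDX

/-- Pairwise disjoint sets meeting a given set. -/
theorem R1c_meet (T0 : Finset ℕ) (N : ℕ → Finset ℕ) (X : Finset ℕ)
    (hd : ∀ j ∈ X, ∀ k ∈ X, k ≠ j → Disjoint (N j) (N k))
    (hm : ∀ j ∈ X, ¬ Disjoint (N j) T0) : X.card ≤ T0.card := by
  classical
  have h1 : ∀ j ∈ X, ∃ w ∈ T0, w ∈ N j := by
    intro j hj
    obtain ⟨w, hw, hw0⟩ := Finset.not_disjoint_iff.1 (hm j hj)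
    exact ⟨w, hw0, hw⟩
  choose! g hg0 hg1 using h1
  apply Finset.card_le_card_of_injOn g (fun j hj => hg0 j hj)
  intro j hj k hk hjk
  by_contra hne
  exact (Finset.disjoint_left.1 (hd j hj k hk (Ne.symm hne))) (hg1 j hj) (hjk ▸ hg1 k hk)

/-- The number of centres above the segment. -/
theorem R1c_Jg (s : Seg) (h : s.Qg = s.K2) : s.Jg.card + s.el ≤ s.n + s.p + 1 := by
  classical
  have hJ : s.J.card ≤ s.q + 1 := s.toSysD.J_card_le
  have hlev : ∀ k ∈ range s.el, ∃ v ∈ s.Γ, s.lev v = k + 1 := by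
    intro k hk
    have hk' : k < s.el := Finset.mem_range.1 hk
    rcases s.toSysD.level_attained (k := k) (lt_of_lt_of_le hk' s.hel) with h1 | ⟨Q, hQ, hQl⟩
    · exact h1
    · exfalso
      have : Q ∈ s.Qg := by rw [h]; exact hQ
      have h2 := (Finset.mem_filter.1 this).2
      have h3 : s.el < s.levQ Q := h2
      omega
  choose! g hg0 hg1 using hlev
  have hgi : Set.InjOn g (range s.el) := by
    intro i hi j hj hij
    have h1 := hg1 i hi
    have h2 := hg1 j hj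
    rw [hij] at h1
    omega
  have hsub : (range s.el).image g ∪ s.Jg ⊆ s.J := by
    intro v hv
    rcases Finset.mem_union.1 hv with h1 | h1
    · obtain ⟨i, hi, rfl⟩ := Finset.mem_image.1 h1
      refine Finset.mem_filter.2 ⟨hg0 i hi, ?_⟩
      have := hg1 i hi
      omega
    · have h2 := Finset.mem_filter.1 h1
      refine Finset.mem_filter.2 ⟨h2.1, ?_⟩
      have : s.el < s.lev v := h2.2
      omega
  have hdisj : Disjoint ((range s.el).image g) s.Jg := by
    rw [Finset.disjoint_left]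
    intro v hv hv'
    obtain ⟨i, hi, rfl⟩ := Finset.mem_image.1 hv
    have h1 := hg1 i hi
    have h2 : s.el < s.lev (g i) := (Finset.mem_filter.1 hv').2
    have h3 := Finset.mem_range.1 hi
    omega
  have hc := Finset.card_le_card hsub
  rw [Finset.card_union_of_disjoint hdisj, Finset.card_image_of_injOn hgi, Finset.card_range] at hc
  have := s.hp
  omega

/-- (MAIN) -/
theorem main_eq (C p : ℕ) : ∃ M0 : ℕ, ∀ s : Sys, s.C = C → s.q = s.n + p →
    s.BB = (range s.n).powerset → (s.c : ℝ) / 2 ^ s.P ≤ 1 / 2 ^ s.n →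
    1 / 2 ^ (s.n + p) ≤ (s.c : ℝ) / 2 ^ s.P → M0 ≤ s.n → dn s.F = dn s.K := by
  classical
  obtain ⟨NA, hNA⟩ := exists_NA C p
  choose NX hNX using fun X => exists_NX C X
  obtain ⟨M0, hM0⟩ := seg_exists
    (fun h => NA + C + 1 + NX (C + (h + p + 1) + (NA + C))) (p + 1 + 3 * C ^ 2 + C)
  refine ⟨M0, ?_⟩
  intro s0 hC hq hBB hk1 hk2 hn
  obtain ⟨t, rfl⟩ := exists_sysD s0
  have hbad := t.Bad_card hq
  rw [hC] at hbad
  obtain ⟨a, l, hal, hln, hFn, hgood⟩ := hM0 t.n hn t.Bad hbad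
  have hgood' : ∀ i ∈ Ico a l, (∃ v ∈ t.Γ, t.lev v = i + 1 ∧ v ∉ t.T0 ∧
      ∀ w ∈ t.Γ, t.lev w = i + 1 → w = v) ∧ ∀ Q ∈ t.K2, t.levQ Q ≠ i + 1 := by
    intro i hi
    have hi' := Finset.mem_Ico.1 hi
    have h1 := hgood (i + 1) (Finset.mem_Ioc.2 ⟨by omega, by omega⟩)
    by_contra hcon
    apply h1
    unfold SysD.Bad
    exact Finset.mem_filter.2 ⟨Finset.mem_Icc.2 ⟨by omega, by omega⟩, hcon⟩
  have hgv : ∀ i ∈ Ico a l, ∃ v ∈ t.Γ, t.lev v = i + 1 ∧ v ∉ t.T0 ∧
      ∀ w ∈ t.Γ, t.lev w = i + 1 → w = v := fun i hi => (hgood' i hi).1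
  choose! vv hv0 hv1 hv2 hv3 using hgv
  let s : Seg :=
    { toSysD := t
      p := p
      sg := a
      el := l
      vv := vv
      hpow := hBB
      hp := hq
      hk1 := hk1
      hk2 := hk2
      hse := hal
      hel := hln
      hvv := fun i hi => ⟨hv0 i hi, hv1 i hi, hv2 i hi⟩
      huniq := fun i hi v hv hl => hv3 i hi v hv hl
      hQ := fun i hi => (hgood' i hi).2 }
  have hsC : s.C = C := hC
  have hsp : s.p = p := rfl
  have hAc : s.A.card = l - a := by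
    show (Ico a l).card = l - a
    simp
  have hNAle : NA ≤ s.A.card := by
    rw [hAc]
    have : NA + C + 1 + NX (C + (t.n - l + p + 1) + (NA + C)) ≤ l - a := hFn
    omega
  have hkap : dn s.HH / 2 ^ s.JJ.card = s.kap := (hNA s hsC hsp s.A (Finset.Subset.refl _) hNAle).1
  have hQg : s.Qg = s.K2 := s.Qg_eq hkap
  have hJg := R1c_Jg s hQg
  -- clean windows
  have hT0C : s.T0.card ≤ C := by
    have : (vx s.K).card ≤ s.C := s.hC
    rw [hsC] at this
    exact this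
  let Ac : Finset ℕ := s.A.filter (fun j => (s.Nf j).card = s.B ^ (j + 1))
  let DD : Finset ℕ := Ac.filter (fun j => Disjoint (s.Nf j) s.T0)
  have hAcA : Ac ⊆ s.A := Finset.filter_subset _ _
  have hDDAc : DD ⊆ Ac := Finset.filter_subset _ _
  have hAc_clean : ∀ j ∈ Ac, (∀ e ∈ s.HH, ∃ f ∈ s.HH, f ⊆ e ∧ Disjoint f (s.Nf j)) ∧
      ∀ k ∈ s.A, k ≠ j → Disjoint (s.Nf j) (s.Nf k) := by
    intro j hj
    have h1 := Finset.mem_filter.1 hj
    exact s.clean hkap h1.1 h1.2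
  have h1 : (s.A \ Ac).card ≤ NA := by
    by_contra hcon
    have hcon' : NA ≤ (s.A \ Ac).card := by omega
    obtain ⟨j, hj, hjc⟩ := (hNA s hsC hsp (s.A \ Ac) Finset.sdiff_subset hcon').2
    have h2 := Finset.mem_sdiff.1 hj
    exact h2.2 (Finset.mem_filter.2 ⟨h2.1, hjc⟩)
  have h2 : (Ac \ DD).card ≤ C := by
    refine le_trans (R1c_meet s.T0 s.Nf (Ac \ DD) ?_ ?_) hT0C
    · intro j hj k hk hkj
      exact (hAc_clean j (Finset.mem_sdiff.1 hj).1).2 k (hAcA (Finset.mem_sdiff.1 hk).1) hkj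
    · intro j hj hd
      have h3 := Finset.mem_sdiff.1 hj
      exact h3.2 (Finset.mem_filter.2 ⟨h3.1, hd⟩)
  have h3 : (s.A \ DD).card ≤ NA + C := by
    have hsub : s.A \ DD ⊆ (s.A \ Ac) ∪ (Ac \ DD) := by
      intro x hx
      have hx' := Finset.mem_sdiff.1 hx
      by_cases hxc : x ∈ Ac
      · exact Finset.mem_union_right _ (Finset.mem_sdiff.2 ⟨hxc, hx'.2⟩)
      · exact Finset.mem_union_left _ (Finset.mem_sdiff.2 ⟨hx'.1, hxc⟩)
    exact le_trans (Finset.card_le_card hsub) (le_trans (Finset.card_union_le _ _) (by omega))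
  let u : Cln :=
    { toSeg := s
      DD := DD
      hDD := hDDAc.trans hAcA
      hQg := hQg
      hcl1 := fun j hj => (hAc_clean j (hDDAc hj)).1
      hcl2 := fun j hj => (Finset.mem_filter.1 hj).2
      hcl3 := fun j hj => (hAc_clean j (hDDAc hj)).2 }
  have hXi : u.Xi.card ≤ C + (t.n - l + p + 1) + (NA + C) := by
    have h4 : u.Xi.card ≤ (s.T0.card + s.Jg.card) + (s.A \ DD).card := by
      show (s.T0 ∪ s.Jg ∪ (s.A \ DD).image s.vv).card ≤ _
      refine le_trans (Finset.card_union_le _ _) ?_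
      exact Nat.add_le_add (Finset.card_union_le _ _) Finset.card_image_le
    have h5 : s.Jg.card + l ≤ t.n + p + 1 := hJg
    omega
  have hNXle : NX (C + (t.n - l + p + 1) + (NA + C)) ≤ u.A.card := by
    show _ ≤ s.A.card
    rw [hAc]
    have : NA + C + 1 + NX (C + (t.n - l + p + 1) + (NA + C)) ≤ l - a := hFn
    omega
  have hSe : u.Se = ∅ := hNX _ u hC hXi hNXle
  exact dn_eq_of_Se t.toSys hSe

end Pool.Agent.IDX
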