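import Pool.Agent.IDX.Q4

/-! Row IDX-R1a: choice of the segment -/

open Finset

namespace Pool.Agent.IDX

/-- (SEG) For every function `Fn` and every bound `E` there is `M0` such that for `m ≥ M0` and every
set `Bad` of at most `E` levels there are `a < l ≤ m` with `Fn (m - l) ≤ l - a` and no bad level in
`(a, l]`.  Proof: induction on `E` (look at the largest bad level). -/
theorem seg_exists (Fn : ℕ → ℕ) (E : ℕ) : ∃ M0 : ℕ, ∀ m ≥ M0, ∀ Bad : Finset ℕ, Bad.card ≤ E →
    ∃ a l : ℕ, a < l ∧ l ≤ m ∧ Fn (m - l) ≤ l - a ∧ ∀ k ∈ Ioc a l, k ∉ Bad := by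
  induction E generalizing Fn with
  | zero =>
    refine ⟨Fn 0 + 1, fun m hm Bad hB => ⟨0, m, by omega, le_refl _, ?_, ?_⟩⟩
    · rw [Nat.sub_self]
      omega
    · intro k _ hk
      have : Bad = ∅ := Finset.card_eq_zero.mp (by omega)
      rw [this] at hk
      simp at hk
  | succ E ih =>
    obtain ⟨M0, hM0⟩ := ih (fun h => Fn (h + (Fn 0 + 1)))
    refine ⟨M0 + (Fn 0 + 1), fun m hm Bad hB => ?_⟩
    by_cases hb : ∃ b ∈ Ioc (m - (Fn 0 + 1)) m, b ∈ Bad
    · obtain ⟨b, hb1, hb2⟩ := hb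
      have hcard : (Bad.erase b).card ≤ E := by
        rw [Finset.card_erase_of_mem hb2]
        omega
      obtain ⟨a, l, hal, hlm, hF, hk⟩ := hM0 (m - (Fn 0 + 1)) (by omega) (Bad.erase b) hcard
      refine ⟨a, l, hal, by omega, ?_, ?_⟩
      · have : m - (Fn 0 + 1) - l + (Fn 0 + 1) = m - l := by omega
        simp only [this] at hF
        exact hF
      · intro k hkm hkB
        rw [mem_Ioc] at hb1
        have hk1 := hkm
        rw [mem_Ioc] at hk1
        exact hk k hkm (Finset.mem_erase.mpr ⟨by omega, hkB⟩)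
    · refine ⟨m - (Fn 0 + 1), m, by omega, le_refl _, ?_, ?_⟩
      · rw [Nat.sub_self]
        omega
      · intro k hkm hkB
        exact hb ⟨k, hkm, hkB⟩

end Pool.Agent.IDX
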