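import Pool.Agent.IDX.M3

/-! Row IDX-R2a: Stage 1 -/

open Finset

namespace Pool.Agent.IDX

/-- If `dn F = dn K` then `F = K`. -/
theorem Sys.eq_of_dn (s : Sys) (h : dn s.F = dn s.K) : s.F = s.K := by
  refine eq_of_up_up s.hUp (up_of_dn_eq s.hUp h) ?_ s.hKa
  intro e he f hf hef
  exact Finset.eq_of_subset_of_card_le hef (by rw [s.hF e he, s.hF f hf])

/-- Without germs there are at least as many centres as levels. -/
theorem R2a_n_le_J (t : SysD) (hK2 : t.K2 = ∅) : t.n ≤ t.J.card := by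
  classical
  have hsub : Icc 1 t.n ⊆ t.J.image t.lev := by
    intro k hk
    rw [mem_Icc] at hk
    rcases t.level_attained (k := k - 1) (by omega) with ⟨v, hv, hvl⟩ | ⟨Q, hQ, _⟩
    · have hvk : t.lev v = k := by omega
      exact Finset.mem_image.mpr ⟨v, Finset.mem_filter.mpr ⟨hv, by omega⟩, hvk⟩
    · rw [hK2] at hQ
      simp at hQ
  have h := Finset.card_le_card hsub
  have h2 : (t.J.image t.lev).card ≤ t.J.card := Finset.card_image_le
  rw [Nat.card_Icc] at h
  omega

/-- Stage 1: every level has a centre, and the block `∅` is the event that `J` is off. -/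
theorem stage1 (s : Sys) (h : s.F = s.K) :
    ∃ J : Finset ℕ, s.n ≤ J.card ∧
      dn (del (s.F ∪ s.G) J) = 2 ^ J.card * ((s.c : ℝ) / 2 ^ s.P) := by
  obtain ⟨t, rfl⟩ := exists_sysD s
  obtain ⟨hK2, hSe⟩ := t.K2_empty_of_eq h
  refine ⟨t.J, R2a_n_le_J t hK2, ?_⟩
  have hb := t.block_empty hK2 hSe
  rw [div_eq_iff (by positivity)] at hb
  rw [hb]
  ring

end Pool.Agent.IDX
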