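import Pool.Agent.IDX.R3a

/-! Row IDX-R3b: the pairs -/

open Finset

namespace Pool.Agent.IDX

namespace Fin5

variable (s : Fin5)

theorem card_biUnion_pair (a b : ℕ) :
    (({a, b} : Finset ℕ).biUnion (fun i => s.No (s.vv i))).card =
      (s.No (s.vv b)).card + (s.No (s.vv a) \ s.No (s.vv b)).card := by
  classical
  have h : (({a, b} : Finset ℕ).biUnion (fun i => s.No (s.vv i))) =
      s.No (s.vv b) ∪ (s.No (s.vv a) \ s.No (s.vv b)) := by
    ext z
    simp only [mem_biUnion, mem_insert, mem_singleton, exists_eq_or_imp, exists_eq_left, mem_union,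
      mem_sdiff]
    tauto
  rw [h, card_union_of_disjoint disjoint_sdiff]

/-- The windows of a state with a given block, below `r + 2`. -/
theorem num_rest {S X : Finset ℕ} (hS : S ∈ s.St) {k : ℕ} (_hk : k ≤ s.r + 2)
    (hX : ∀ i, s.r + 2 ≤ i → i ∈ s.Df S → i ∈ X)
    (hlow : ∀ i, k ≤ i → i < s.r + 2 → s.vv i ∈ S → i ∈ X) :
    num s.B (s.Tt S \ X) ≤ 2 * s.B ^ k := by
  have h : s.Tt S \ X ⊆ (s.Tt S).filter (fun i => i < k) := by
    intro i hi
    have h1 := mem_sdiff.1 hi
    have h2 := s.mem_Tt.1 h1.1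
    refine mem_filter.2 ⟨h1.1, ?_⟩
    by_contra hc
    have hki : k ≤ i := by omega
    by_cases h3 : i < s.r + 2
    · exact h1.2 (hlow i hki h3 h2.2)
    · have h4 : s.r + 2 ≤ i := by omega
      have h5 : i < s.r + 18 := by rw [s.hr_lt]; exact h2.1
      exact h1.2 (hX i h4 ((s.digits_V0 hS h4 h5).2 h2.2))
  exact (num_mono h).trans (s.num_low _ _)

theorem num_pair {a b : ℕ} (h : a ≠ b) : num s.B {a, b} = s.B ^ (a + 1) + s.B ^ (b + 1) := by
  unfold num
  rw [sum_pair h]

/-- Upper bound for the number of a block. -/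
theorem num_Df_le {S X : Finset ℕ} (k : ℕ)
    (hX : ∀ i, k ≤ i → i ∈ s.Df S → i ∈ X) :
    num s.B (s.Df S) ≤ num s.B X + 2 * s.B ^ k := by
  rw [s.num_split (s.Df S) k]
  have h1 : (s.Df S).filter (fun i => k ≤ i) ⊆ X := by
    intro i hi
    have := mem_filter.1 hi
    exact hX i this.2 this.1
  have h2 := num_mono (B := s.B) h1
  have h3 := s.num_low (s.Df S) k
  omega

/-- (ii) for `d`: the pair `{vv (r+1), vv i}` is independent and its stars overlap little. -/
theorem pair_d {i : ℕ} (h1 : s.r + 2 ≤ i) (h2 : i < s.r + 18) :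
    {s.vv (s.r + 1), s.vv i} ∈ s.St ∧
      s.B ^ (s.r + 2) ≤ (s.No (s.vv (s.r + 1)) \ s.No (s.vv i)).card + s.Th ^ 2 * (3 * s.B ^ s.r + 3) := by
  classical
  have hr := s.hr_lt
  have hsc := s.scales
  have hpair : ({s.r + 1, i} : Finset ℕ) ∈ Delta0 s.r := by
    refine pair_mem_Delta0 (by omega) h2 ?_
    intro h
    have : i ∈ ({s.r, s.r + 1} : Finset ℕ) := by rw [← h]; simp
    simp only [mem_insert, mem_singleton] at this
    omega
  obtain ⟨S, hS, hSD⟩ := s.exists_state hpair
  have hi : s.vv i ∈ S := (s.digits_V0 hS h1 h2).1 (by rw [hSD]; simp)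
  have hD := (SysD.Df_close s.toSysD hS).1
  rw [hSD, s.num_pair (by omega)] at hD
  have hNi := s.No_vv (i := i) (by omega)
  -- `v_d ∈ S`
  have hd : s.vv (s.r + 1) ∈ S := by
    by_contra hc
    have hu := s.f_le_X hS {s.r, i}
    have hrest : num s.B (s.Tt S \ {s.r, i}) ≤ 2 * s.B ^ s.r := by
      refine s.num_rest hS (by omega) ?_ ?_
      · intro j hj hjD
        rw [hSD] at hjD
        simp only [mem_insert, mem_singleton] at hjD ⊢
        omega
      · intro j hj1 hj2 hjS
        have : j ≠ s.r + 1 := by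
          rintro rfl
          exact hc hjS
        simp only [mem_insert, mem_singleton]
        omega
    rw [s.card_biUnion_pair s.r i] at hu
    have hNr := (s.No_vv (i := s.r) (by omega)).2
    have hNr' : (s.No (s.vv s.r) \ s.No (s.vv i)).card ≤ (s.No (s.vv s.r)).card :=
      card_le_card sdiff_subset
    have e1 : s.B ^ (s.r + 1 + 1) = s.B ^ (s.r + 2) := rfl
    omega
  have hS' : {s.vv (s.r + 1), s.vv i} ∈ s.St := by
    refine Sys.St_down s.toSys hS ?_
    intro v hv
    simp only [mem_insert, mem_singleton] at hv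
    rcases hv with rfl | rfl
    · exact hd
    · exact hi
  refine ⟨hS', ?_⟩
  -- first bound of the residual
  have hres : s.B ^ (s.r + 2) ≤ (s.No (s.vv (s.r + 1)) \ s.No (s.vv i)).card + s.B ^ (s.r + 1) +
      2 * s.B ^ s.r + s.Th ^ 2 + 3 * s.Th := by
    have hu := s.f_le_X hS {s.r + 1, s.r, i}
    have hrest : num s.B (s.Tt S \ {s.r + 1, s.r, i}) ≤ 2 * s.B ^ s.r := by
      refine s.num_rest hS (by omega) ?_ ?_
      · intro j hj hjD
        rw [hSD] at hjD
        simp only [mem_insert, mem_singleton] at hjD ⊢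
        omega
      · intro j hj1 hj2 hjS
        simp only [mem_insert, mem_singleton]
        omega
    have hcard : (({s.r + 1, s.r, i} : Finset ℕ).biUnion (fun i => s.No (s.vv i))).card ≤
        (s.No (s.vv s.r)).card + ((s.No (s.vv i)).card +
          (s.No (s.vv (s.r + 1)) \ s.No (s.vv i)).card) := by
      rw [← s.card_biUnion_pair (s.r + 1) i]
      have : (({s.r + 1, s.r, i} : Finset ℕ).biUnion (fun i => s.No (s.vv i))) ⊆
          s.No (s.vv s.r) ∪ (({s.r + 1, i} : Finset ℕ).biUnion (fun i => s.No (s.vv i))) := by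
        intro z hz
        simp only [mem_biUnion, mem_insert, mem_singleton, exists_eq_or_imp, exists_eq_left,
          mem_union] at hz ⊢
        tauto
      exact (card_le_card this).trans (card_union_le _ _)
    have hNr := (s.No_vv (i := s.r) (by omega)).2
    have e1 : s.B ^ (s.r + 1 + 1) = s.B ^ (s.r + 2) := rfl
    omega
  -- the block of the pair contains `r + 1`
  have hf' : s.f {s.vv (s.r + 1), s.vv i} = (s.No (s.vv i)).card +
      (s.No (s.vv (s.r + 1)) \ s.No (s.vv i)).card := by
    rw [s.f_eq hS', ← s.card_biUnion_pair (s.r + 1) i]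
    congr 1
    ext z
    simp
  have hD' := SysD.Df_close s.toSysD hS'
  rw [hf'] at hD'
  have hDi : i ∈ s.Df {s.vv (s.r + 1), s.vv i} := (s.digits_V0 hS' h1 h2).2 (by simp)
  have hDj : ∀ j, s.r + 2 ≤ j → j ∈ s.Df {s.vv (s.r + 1), s.vv i} → j = i := by
    intro j hj hjD
    have hjn : j < s.n := by
      have := s.hBB _ (s.hD _ hS').1 hjD
      exact mem_range.1 this
    have h := (s.digits_V0 hS' hj (by omega)).1 hjD
    simp only [mem_insert, mem_singleton] at h
    rcases h with h | h
    · have := s.vv_inj (by simpa using hjn) (by simp; omega) h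
      omega
    · exact s.vv_inj (by simpa using hjn) (by simp; omega) h
  have hmem : s.r + 1 ∈ s.Df {s.vv (s.r + 1), s.vv i} := by
    by_contra hc
    have hle := s.num_Df_le (S := {s.vv (s.r + 1), s.vv i}) (X := {i}) (s.r + 1) (by
      intro j hj hjD
      by_cases h3 : s.r + 2 ≤ j
      · rw [hDj j h3 hjD]; simp
      · have : j = s.r + 1 := by omega
        rw [this] at hjD
        exact absurd hjD hc)
    rw [num_singleton] at hle
    omega
  have hsub : ({s.r + 1, i} : Finset ℕ) ⊆ s.Df {s.vv (s.r + 1), s.vv i} := by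
    intro j hj
    simp only [mem_insert, mem_singleton] at hj
    rcases hj with rfl | rfl
    · exact hmem
    · exact hDi
  have hnum := num_mono (B := s.B) hsub
  rw [s.num_pair (by omega)] at hnum
  have e1 : s.B ^ (s.r + 1 + 1) = s.B ^ (s.r + 2) := rfl
  have e2 : s.Th ^ 2 * (3 * s.B ^ s.r + 3) = 3 * (s.Th ^ 2 * s.B ^ s.r) + 3 * s.Th ^ 2 := by ring
  rw [e2]
  omega

/-- (ii) for `c`. -/
theorem pair_c {i : ℕ} (h1 : s.r + 2 ≤ i) (h2 : i < s.r + 18) :
    {s.vv s.r, s.vv i} ∈ s.St ∧
      s.B ^ (s.r + 1) ≤ (s.No (s.vv s.r) \ s.No (s.vv i)).card + s.Th ^ 2 * (3 * s.B ^ s.r + 3) := by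
  classical
  have hr := s.hr_lt
  have hsc := s.scales
  have hpair : ({s.r, i} : Finset ℕ) ∈ Delta0 s.r := by
    refine pair_mem_Delta0 (by omega) h2 ?_
    intro h
    have : i ∈ ({s.r, s.r + 1} : Finset ℕ) := by rw [← h]; simp
    simp only [mem_insert, mem_singleton] at this
    omega
  obtain ⟨S, hS, hSD⟩ := s.exists_state hpair
  have hi : s.vv i ∈ S := (s.digits_V0 hS h1 h2).1 (by rw [hSD]; simp)
  have hD := SysD.Df_close s.toSysD hS
  rw [hSD, s.num_pair (by omega)] at hD
  have hNi := s.No_vv (i := i) (by omega)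
  have e2 : s.Th ^ 2 * (3 * s.B ^ s.r + 3) = 3 * (s.Th ^ 2 * s.B ^ s.r) + 3 * s.Th ^ 2 := by ring
  -- `v_d ∉ S`
  have hd : s.vv (s.r + 1) ∉ S := by
    intro hc
    have hpd := (s.pair_d h1 h2).2
    have hl := s.f_ge_X hS (X := {s.r + 1, i}) (by
      intro j hj
      simp only [mem_insert, mem_singleton] at hj
      rcases hj with rfl | rfl
      · exact hc
      · exact hi)
    rw [s.card_biUnion_pair (s.r + 1) i] at hl
    rw [e2] at hpd
    omega
  -- `v_c ∈ S`
  have hc : s.vv s.r ∈ S := by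
    by_contra hc
    have hu := s.f_le_X hS {i}
    have hrest : num s.B (s.Tt S \ {i}) ≤ 2 * s.B ^ s.r := by
      refine s.num_rest hS (by omega) ?_ ?_
      · intro j hj hjD
        rw [hSD] at hjD
        simp only [mem_insert, mem_singleton] at hjD ⊢
        omega
      · intro j hj1 hj2 hjS
        have h3 : j ≠ s.r + 1 := by
          rintro rfl
          exact hd hjS
        have h4 : j ≠ s.r := by
          rintro rfl
          exact hc hjS
        omega
    have hcard : (({i} : Finset ℕ).biUnion (fun i => s.No (s.vv i))).card =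
        (s.No (s.vv i)).card := by simp
    rw [hcard] at hu
    omega
  have hS' : {s.vv s.r, s.vv i} ∈ s.St := by
    refine Sys.St_down s.toSys hS ?_
    intro v hv
    simp only [mem_insert, mem_singleton] at hv
    rcases hv with rfl | rfl
    · exact hc
    · exact hi
  refine ⟨hS', ?_⟩
  have hu := s.f_le_X hS {s.r, i}
  have hrest : num s.B (s.Tt S \ {s.r, i}) ≤ 2 * s.B ^ s.r := by
    refine s.num_rest hS (by omega) ?_ ?_
    · intro j hj hjD
      rw [hSD] at hjD
      simp only [mem_insert, mem_singleton] at hjD ⊢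
      omega
    · intro j hj1 hj2 hjS
      have h3 : j ≠ s.r + 1 := by
        rintro rfl
        exact hd hjS
      simp only [mem_insert, mem_singleton]
      omega
  rw [s.card_biUnion_pair s.r i] at hu
  rw [e2]
  omega

end Fin5

end Pool.Agent.IDX
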