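import Pool.Agent.IDX.R3b

/-! Row IDX-R3c: blocks are independent -/

open Finset

namespace Pool.Agent.IDX

namespace Fin5

variable (s : Fin5)

theorem image_V0_mem {T : Finset ℕ} (h : T ⊆ Ico (s.r + 2) (s.r + 18)) : T.image s.vv ∈ s.St := by
  classical
  obtain ⟨S, hS, hSD⟩ := s.exists_state (V0_mem_Delta0 s.r)
  refine Sys.St_down s.toSys hS ?_
  intro v hv
  obtain ⟨i, hi, rfl⟩ := mem_image.1 hv
  have hi' := mem_Ico.1 (h hi)
  refine (s.digits_V0 hS hi'.1 hi'.2).1 ?_
  rw [hSD]
  exact h hi

theorem f_image {T : Finset ℕ} (hT : T.image s.vv ∈ s.St) :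
    s.f (T.image s.vv) = (T.biUnion (fun i => s.No (s.vv i))).card := by
  classical
  rw [s.f_eq hT]
  congr 1
  ext z
  simp

/-- The stars of a subset of `V0` are nearly disjoint. -/
theorem union_ge {T : Finset ℕ} (h : T ⊆ Ico (s.r + 2) (s.r + 18)) :
    num s.B T ≤ (T.biUnion (fun i => s.No (s.vv i))).card + s.Th := by
  classical
  have hT := s.image_V0_mem h
  have hsub : T ⊆ s.Df (T.image s.vv) := by
    intro i hi
    have hi' := mem_Ico.1 (h hi)
    exact (s.digits_V0 hT hi'.1 hi'.2).2 (mem_image_of_mem _ hi)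
  have h1 := num_mono (B := s.B) hsub
  have h2 := (SysD.Df_close s.toSysD hT).1
  rw [s.f_image hT] at h2
  omega

theorem union_le {T : Finset ℕ} (h : T ⊆ Ico (s.r + 2) (s.r + 18)) :
    (T.biUnion (fun i => s.No (s.vv i))).card ≤ num s.B T + 16 * s.Th := by
  classical
  have hr := s.hr_lt
  refine card_biUnion_le.trans ?_
  have h42 : ∑ i ∈ T, (s.No (s.vv i)).card ≤ ∑ i ∈ T, (s.B ^ (i + 1) + s.Th) := by
    refine sum_le_sum ?_
    intro i hi
    have := mem_Ico.1 (h hi)
    exact (s.No_vv (by omega)).2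
  refine h42.trans ?_
  rw [sum_add_distrib, sum_const, smul_eq_mul]
  have h43 : T.card ≤ 16 := by
    refine (card_le_card h).trans ?_
    rw [Nat.card_Ico]
    omega
  have := Nat.mul_le_mul_right s.Th h43
  have hnum : num s.B T = ∑ i ∈ T, s.B ^ (i + 1) := rfl
  omega

/-- A set nearly disjoint from the stars of the elements of `T`. -/
theorem union_add {T : Finset ℕ} (h : T ⊆ Ico (s.r + 2) (s.r + 18)) {M : Finset ℕ} {e : ℕ}
    (hM : ∀ i ∈ T, (M ∩ s.No (s.vv i)).card ≤ e) :
    (T.biUnion (fun i => s.No (s.vv i))).card + M.card ≤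
      (M ∪ T.biUnion (fun i => s.No (s.vv i))).card + 16 * e := by
  classical
  have h1 := card_union_add_card_inter M (T.biUnion (fun i => s.No (s.vv i)))
  have h2 : (M ∩ T.biUnion (fun i => s.No (s.vv i))).card ≤ 16 * e := by
    rw [inter_biUnion]
    refine card_biUnion_le.trans ?_
    have h42 : ∑ i ∈ T, (M ∩ s.No (s.vv i)).card ≤ ∑ i ∈ T, e := sum_le_sum hM
    refine h42.trans ?_
    rw [sum_const, smul_eq_mul]
    have h43 : T.card ≤ 16 := by
      refine (card_le_card h).trans ?_
      rw [Nat.card_Ico]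
      omega
    exact Nat.mul_le_mul_right e h43
  omega

/-- `No v_d` meets the stars of `V0` in few vertices. -/
theorem inter_d {i : ℕ} (h1 : s.r + 2 ≤ i) (h2 : i < s.r + 18) :
    (s.No (s.vv (s.r + 1)) ∩ s.No (s.vv i)).card ≤
      s.Th + (3 * (s.Th ^ 2 * s.B ^ s.r) + 3 * s.Th ^ 2) := by
  have hr := s.hr_lt
  have h := (s.pair_d h1 h2).2
  have e2 : s.Th ^ 2 * (3 * s.B ^ s.r + 3) = 3 * (s.Th ^ 2 * s.B ^ s.r) + 3 * s.Th ^ 2 := by ring
  rw [e2] at h
  have h3 := card_sdiff_add_card_inter (s.No (s.vv (s.r + 1))) (s.No (s.vv i))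
  have h4 := (s.No_vv (i := s.r + 1) (by omega)).2
  have e1 : s.B ^ (s.r + 1 + 1) = s.B ^ (s.r + 2) := rfl
  omega

theorem inter_c {i : ℕ} (h1 : s.r + 2 ≤ i) (h2 : i < s.r + 18) :
    (s.No (s.vv s.r) ∩ s.No (s.vv i)).card ≤
      s.Th + (3 * (s.Th ^ 2 * s.B ^ s.r) + 3 * s.Th ^ 2) := by
  have hr := s.hr_lt
  have h := (s.pair_c h1 h2).2
  have e2 : s.Th ^ 2 * (3 * s.B ^ s.r + 3) = 3 * (s.Th ^ 2 * s.B ^ s.r) + 3 * s.Th ^ 2 := by ring
  rw [e2] at h
  have h3 := card_sdiff_add_card_inter (s.No (s.vv s.r)) (s.No (s.vv i))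
  have h4 := (s.No_vv (i := s.r) (by omega)).2
  omega

/-- (iii) For a block `T ⊆ [r, r+18)` the centres of `T` are independent. -/
theorem image_mem {T : Finset ℕ} (hT : T ∈ Delta0 s.r) (h : T ⊆ Ico s.r (s.r + 18)) :
    T.image s.vv ∈ s.St := by
  classical
  have hr := s.hr_lt
  have hsc := s.scales
  obtain ⟨S, hS, hSD⟩ := s.exists_state hT
  set T1 := T.filter (fun i => s.r + 2 ≤ i) with hT1
  have hT1V : T1 ⊆ Ico (s.r + 2) (s.r + 18) := by
    intro i hi
    have hi' := mem_filter.1 hi
    exact mem_Ico.2 ⟨hi'.2, (mem_Ico.1 (h hi'.1)).2⟩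
  have hS1 : ∀ i ∈ T1, s.vv i ∈ S := by
    intro i hi
    have hi' := mem_Ico.1 (hT1V hi)
    refine (s.digits_V0 hS hi'.1 hi'.2).1 ?_
    rw [hSD]
    exact (mem_filter.1 hi).1
  have hXV : ∀ i, s.r + 2 ≤ i → i ∈ s.Df S → i ∈ T1 := by
    intro i hi hiD
    rw [hSD] at hiD
    exact mem_filter.2 ⟨hiD, hi⟩
  have hD := SysD.Df_close s.toSysD hS
  rw [hSD] at hD
  have hub := s.union_ge hT1V
  have hul := s.union_le hT1V
  have hnot : ¬ (s.r ∈ T ∧ s.r + 1 ∈ T) := by
    rintro ⟨ha, hb⟩
    refine notMem_Delta0 (r := s.r) (T := T) (e := {0, 1}) (by simp [Fm]) ?_ hT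
    intro j hj
    simp only [image_insert, image_singleton, mem_insert, mem_singleton] at hj
    rcases hj with rfl | rfl
    · simpa using ha
    · exact hb
  -- it suffices that the centres of `T` are in `S`
  suffices hsuff : ∀ i ∈ T, s.vv i ∈ S by
    refine Sys.St_down s.toSys hS ?_
    intro v hv
    obtain ⟨i, hi, rfl⟩ := mem_image.1 hv
    exact hsuff i hi
  have e1 : s.B ^ (s.r + 1 + 1) = s.B ^ (s.r + 2) := rfl
  by_cases hc : s.r ∈ T
  · have hd : s.r + 1 ∉ T := fun hb => hnot ⟨hc, hb⟩
    have hTeq : T = insert s.r T1 := by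
      ext i
      simp only [mem_insert]
      constructor
      · intro hi
        have hi' := mem_Ico.1 (h hi)
        by_cases h3 : s.r + 2 ≤ i
        · exact Or.inr (mem_filter.2 ⟨hi, h3⟩)
        · left
          by_contra h4
          have : i = s.r + 1 := by omega
          rw [this] at hi
          exact hd hi
      · rintro (rfl | hi)
        · exact hc
        · exact (mem_filter.1 hi).1
    have hrT1 : s.r ∉ T1 := by
      intro hm
      have := (mem_filter.1 hm).2
      omega
    have hnumT : num s.B T = s.B ^ (s.r + 1) + num s.B T1 := by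
      rw [hTeq]
      unfold num
      rw [sum_insert hrT1]
    rw [hnumT] at hD
    -- `v_d ∉ S`
    have hdS : s.vv (s.r + 1) ∉ S := by
      intro hm
      have hl := s.f_ge_X hS (X := insert (s.r + 1) T1) (by
        intro j hj
        rcases mem_insert.1 hj with rfl | hj
        · exact hm
        · exact hS1 j hj)
      rw [biUnion_insert] at hl
      have ha := s.union_add hT1V (M := s.No (s.vv (s.r + 1))) (fun i hi => by
        have hi' := mem_Ico.1 (hT1V hi)
        exact s.inter_d hi'.1 hi'.2)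
      have hNd := (s.No_vv (i := s.r + 1) (by omega)).1
      omega
    -- `v_c ∈ S`
    have hcS : s.vv s.r ∈ S := by
      by_contra hm
      have hu := s.f_le_X hS T1
      have hrest : num s.B (s.Tt S \ T1) ≤ 2 * s.B ^ s.r := by
        refine s.num_rest hS (by omega) hXV ?_
        intro j hj1 hj2 hjS
        exfalso
        have h3 : j ≠ s.r + 1 := by
          rintro rfl
          exact hdS hjS
        have h4 : j ≠ s.r := by
          rintro rfl
          exact hm hjS
        omega
      omega
    intro i hi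
    rw [hTeq] at hi
    rcases mem_insert.1 hi with rfl | hi
    · exact hcS
    · exact hS1 i hi
  · by_cases hd : s.r + 1 ∈ T
    · have hTeq : T = insert (s.r + 1) T1 := by
        ext i
        simp only [mem_insert]
        constructor
        · intro hi
          have hi' := mem_Ico.1 (h hi)
          by_cases h3 : s.r + 2 ≤ i
          · exact Or.inr (mem_filter.2 ⟨hi, h3⟩)
          · left
            by_contra h4
            have : i = s.r := by omega
            rw [this] at hi
            exact hc hi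
        · rintro (rfl | hi)
          · exact hd
          · exact (mem_filter.1 hi).1
      have hrT1 : s.r + 1 ∉ T1 := by
        intro hm
        have := (mem_filter.1 hm).2
        omega
      have hnumT : num s.B T = s.B ^ (s.r + 2) + num s.B T1 := by
        rw [hTeq]
        unfold num
        rw [sum_insert hrT1]
      rw [hnumT] at hD
      have hdS : s.vv (s.r + 1) ∈ S := by
        by_contra hm
        have hu := s.f_le_X hS T1
        have hrest : num s.B (s.Tt S \ T1) ≤ 2 * s.B ^ (s.r + 1) := by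
          refine s.num_rest hS (by omega) hXV ?_
          intro j hj1 hj2 hjS
          exfalso
          have : j = s.r + 1 := by omega
          rw [this] at hjS
          exact hm hjS
        omega
      intro i hi
      rw [hTeq] at hi
      rcases mem_insert.1 hi with rfl | hi
      · exact hdS
      · exact hS1 i hi
    · intro i hi
      have hi' := mem_Ico.1 (h hi)
      have h3 : s.r + 2 ≤ i := by
        by_contra h4
        rcases (show i = s.r ∨ i = s.r + 1 by omega) with rfl | rfl
        · exact hc hi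
        · exact hd hi
      exact hS1 i (mem_filter.2 ⟨hi, h3⟩)

end Fin5

end Pool.Agent.IDX
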