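import Pool.Agent.IDX.R3c

/-! Row IDX-R3d: triples -/

open Finset

namespace Pool.Agent.IDX

theorem Rs_form {e : Finset ℕ} (he : e ∈ Rs) : ∃ c x y : ℕ, c ≤ 1 ∧ 2 ≤ x ∧ x < 18 ∧ 2 ≤ y ∧
    y < 18 ∧ x ≠ y ∧ e = {c, x, y} := by
  simp only [Rs, mem_insert, mem_singleton] at he
  rcases he with rfl | rfl | rfl | rfl | rfl | rfl | rfl | rfl
  · exact ⟨0, 2, 3, by norm_num⟩
  · exact ⟨0, 4, 5, by norm_num⟩
  · exact ⟨0, 6, 7, by norm_num⟩
  · exact ⟨0, 8, 9, by norm_num⟩
  · exact ⟨1, 10, 11, by norm_num⟩
  · exact ⟨1, 12, 13, by norm_num⟩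
  · exact ⟨1, 14, 15, by norm_num⟩
  · exact ⟨1, 16, 17, by norm_num⟩

theorem Rs_card {e : Finset ℕ} (he : e ∈ Rs) : e.card = 3 := by
  obtain ⟨c, x, y, hc, hx, _, hy, _, hxy, rfl⟩ := Rs_form he
  rw [card_insert_of_notMem, card_insert_of_notMem, card_singleton]
  · simp [hxy]
  · simp only [mem_insert, mem_singleton]
    omega

namespace Fin5

variable (s : Fin5)

theorem vr_inj {a b : ℕ} (ha : a < 18) (hb : b < 18) (h : s.vv (s.r + a) = s.vv (s.r + b)) : a = b := by
  have hr := s.hr_lt
  have := s.vv_inj (by simp; omega) (by simp; omega) h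
  omega

/-- Pairs of centres are states unless the pair is `{v_c, v_d}`. -/
theorem pair_mem {a b : ℕ} (ha : a < 18) (hb : b < 18) (h : 2 ≤ a ∨ 2 ≤ b) :
    ({s.vv (s.r + a), s.vv (s.r + b)} : Finset ℕ) ∈ s.St := by
  classical
  have hp : ({s.r + a, s.r + b} : Finset ℕ) ∈ Delta0 s.r := by
    refine pair_mem_Delta0 (by omega) (by omega) ?_
    intro heq
    have h1 : s.r + a ∈ ({s.r, s.r + 1} : Finset ℕ) := by rw [← heq]; simp
    have h2 : s.r + b ∈ ({s.r, s.r + 1} : Finset ℕ) := by rw [← heq]; simp
    simp only [mem_insert, mem_singleton] at h1 h2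
    omega
  have h2 := s.image_mem hp (by
    intro i hi
    simp only [mem_insert, mem_singleton] at hi
    rw [mem_Ico]
    omega)
  rwa [image_insert, image_singleton] at h2

/-- (iv) The triples of `Rs` are edges. -/
theorem triple_mem {e : Finset ℕ} (he : e ∈ Rs) : e.image (fun v => s.vv (s.r + v)) ∈ s.F := by
  classical
  have hr := s.hr_lt
  have hsc := s.scales
  have heFm : e ∈ Fm := by
    unfold Fm
    exact mem_insert_of_mem he
  obtain ⟨c, x, y, hc, hx, hx', hy, hy', hxy, rfl⟩ := Rs_form he
  rw [image_insert, image_insert, image_singleton]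
  by_contra hF
  set S : Finset ℕ := {s.vv (s.r + c), s.vv (s.r + x), s.vv (s.r + y)} with hSdef
  have hcx : s.vv (s.r + c) ≠ s.vv (s.r + x) := by
    intro h
    have := s.vr_inj (by omega) hx' h
    omega
  have hcy : s.vv (s.r + c) ≠ s.vv (s.r + y) := by
    intro h
    have := s.vr_inj (by omega) hy' h
    omega
  have hxyv : s.vv (s.r + x) ≠ s.vv (s.r + y) := by
    intro h
    exact hxy (s.vr_inj hx' hy' h)
  have hScard : S.card = 3 := by
    rw [hSdef, card_insert_of_notMem, card_insert_of_notMem, card_singleton]
    · simpa using hxyv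
    · simp only [mem_insert, mem_singleton, not_or]
      exact ⟨hcx, hcy⟩
  -- the triple is a state
  have hSt : S ∈ s.St := by
    rw [Sys.mem_St]
    constructor
    · intro v hv
      simp only [hSdef, mem_insert, mem_singleton] at hv
      rcases hv with rfl | rfl | rfl
      · exact (s.hvv (s.r + c) (by omega)).1
      · exact (s.hvv (s.r + x) (by omega)).1
      · exact (s.hvv (s.r + y) (by omega)).1
    · intro g hg hgS
      rcases mem_union.1 hg with hgF | hgG
      · have h3 := s.hF g hgF
        have : g = S := eq_of_subset_of_card_le hgS (by omega)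
        rw [this] at hgF
        exact hF hgF
      · have h2 := s.hG g hgG
        -- a pair inside the triple
        have hpair : ∀ a b : ℕ, a < 18 → b < 18 → (2 ≤ a ∨ 2 ≤ b) →
            g ⊆ {s.vv (s.r + a), s.vv (s.r + b)} → False := by
          intro a b ha hb hab hsub
          have hst := ((Sys.mem_St s.toSys).1 (s.pair_mem ha hb hab)).2
          exact hst g hg hsub
        -- some element of the triple is missing
        have hne : ∃ v ∈ S, v ∉ g := by
          by_contra hcon
          push Not at hcon
          have := card_le_card (show S ⊆ g from hcon)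
          omega
        obtain ⟨v, hv, hvg⟩ := hne
        simp only [hSdef, mem_insert, mem_singleton] at hv
        rcases hv with rfl | rfl | rfl
        · refine hpair x y hx' hy' (Or.inl hx) ?_
          intro w hw
          have := hgS hw
          simp only [hSdef, mem_insert, mem_singleton] at this ⊢
          rcases this with rfl | h | h
          · exact absurd hw hvg
          · exact Or.inl h
          · exact Or.inr h
        · refine hpair c y (by omega) hy' (Or.inr hy) ?_
          intro w hw
          have := hgS hw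
          simp only [hSdef, mem_insert, mem_singleton] at this ⊢
          rcases this with h | rfl | h
          · exact Or.inl h
          · exact absurd hw hvg
          · exact Or.inr h
        · refine hpair c x (by omega) hx' (Or.inr hx) ?_
          intro w hw
          have := hgS hw
          simp only [hSdef, mem_insert, mem_singleton] at this ⊢
          rcases this with h | h | rfl
          · exact Or.inl h
          · exact Or.inr h
          · exact absurd hw hvg
  -- its block
  have hDxy : ∀ j, s.r + 2 ≤ j → j ∈ s.Df S → j = s.r + x ∨ j = s.r + y := by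
    intro j hj hjD
    have hjn : j < s.n := mem_range.1 (s.hBB _ (s.hD _ hSt).1 hjD)
    have h := (s.digits_V0 hSt hj (by omega)).1 hjD
    simp only [hSdef, mem_insert, mem_singleton] at h
    rcases h with h | h | h
    · have := s.vv_inj (by simpa using hjn) (by simp; omega) h
      omega
    · left
      exact s.vv_inj (by simpa using hjn) (by simp; omega) h
    · right
      exact s.vv_inj (by simpa using hjn) (by simp; omega) h
  have hxD : s.r + x ∈ s.Df S := (s.digits_V0 hSt (by omega) (by omega)).2 (by simp [hSdef])
  have hyD : s.r + y ∈ s.Df S := (s.digits_V0 hSt (by omega) (by omega)).2 (by simp [hSdef])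
  have hcD : s.r + c ∉ s.Df S := by
    intro hcD
    have h1 : s.Df S ∉ Delta0 s.r := by
      refine notMem_Delta0 (r := s.r) heFm ?_
      intro j hj
      simp only [image_insert, image_singleton, mem_insert, mem_singleton] at hj
      rcases hj with rfl | rfl | rfl
      · exact hcD
      · exact hxD
      · exact hyD
    have h2 : s.Df S ∈ s.BB := (s.hD S hSt).1
    rw [s.hBBd] at h2
    exact h1 h2
  have hclose := SysD.Df_close s.toSysD hSt
  -- size of the union of the stars
  have hTV : ({s.r + x, s.r + y} : Finset ℕ) ⊆ Ico (s.r + 2) (s.r + 18) := by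
    intro j hj
    simp only [mem_insert, mem_singleton] at hj
    rw [mem_Ico]
    omega
  have hl := s.f_ge_X hSt (X := insert (s.r + c) {s.r + x, s.r + y}) (by
    intro j hj
    simp only [mem_insert, mem_singleton] at hj
    rcases hj with rfl | rfl | rfl <;> simp [hSdef])
  rw [biUnion_insert] at hl
  have hge := s.union_ge hTV
  have hle := s.union_le hTV
  have hNc := s.No_vv (i := s.r + c) (by omega)
  have hupper : s.f S ≤ (s.No (s.vv (s.r + c))).card +
      (({s.r + x, s.r + y} : Finset ℕ).biUnion (fun i => s.No (s.vv i))).card := by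
    rw [s.f_eq hSt]
    have : S.biUnion s.No = s.No (s.vv (s.r + c)) ∪
        (({s.r + x, s.r + y} : Finset ℕ).biUnion (fun i => s.No (s.vv i))) := by
      ext z
      simp [hSdef]
    rw [this]
    exact card_union_le _ _
  rcases (show c = 0 ∨ c = 1 by omega) with rfl | rfl
  · have ha := s.union_add hTV (M := s.No (s.vv (s.r + 0))) (fun i hi => by
      have hi' := mem_Ico.1 (hTV hi)
      exact s.inter_c hi'.1 hi'.2)
    have e0 : s.B ^ (s.r + 0 + 1) = s.B ^ (s.r + 1) := rfl
    by_cases hd : s.r + 1 ∈ s.Df S
    · -- too big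
      have hsub : insert (s.r + 1) ({s.r + x, s.r + y} : Finset ℕ) ⊆ s.Df S := by
        intro j hj
        simp only [mem_insert, mem_singleton] at hj
        rcases hj with rfl | rfl | rfl
        · exact hd
        · exact hxD
        · exact hyD
      have hnum := num_mono (B := s.B) hsub
      have hins : num s.B (insert (s.r + 1) ({s.r + x, s.r + y} : Finset ℕ)) =
          s.B ^ (s.r + 2) + num s.B {s.r + x, s.r + y} := by
        unfold num
        rw [sum_insert]
        simp only [mem_insert, mem_singleton]
        omega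
      rw [hins] at hnum
      omega
    · -- too small
      have hnum := s.num_Df_le (S := S) (X := {s.r + x, s.r + y}) s.r (by
        intro j hj hjD
        simp only [mem_insert, mem_singleton]
        by_cases h3 : s.r + 2 ≤ j
        · exact hDxy j h3 hjD
        · exfalso
          rcases (show j = s.r ∨ j = s.r + 1 by omega) with rfl | rfl
          · exact hcD hjD
          · exact hd hjD)
      omega
  · have ha := s.union_add hTV (M := s.No (s.vv (s.r + 1))) (fun i hi => by
      have hi' := mem_Ico.1 (hTV hi)
      exact s.inter_d hi'.1 hi'.2)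
    have e1 : s.B ^ (s.r + 1 + 1) = s.B ^ (s.r + 2) := rfl
    have hnum := s.num_Df_le (S := S) (X := {s.r + x, s.r + y}) (s.r + 1) (by
      intro j hj hjD
      simp only [mem_insert, mem_singleton]
      by_cases h3 : s.r + 2 ≤ j
      · exact hDxy j h3 hjD
      · exfalso
        have : j = s.r + 1 := by omega
        rw [this] at hjD
        exact hcD hjD)
    omega

/-- The other triples are not edges unless they contain `c` and `d`. -/
theorem triple_cases {e : Finset ℕ} (he : e ∈ s.F)
    (h : e ⊆ (range 18).image (fun v => s.vv (s.r + v))) :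
    (∃ e' ∈ Rs, e = e'.image (fun v => s.vv (s.r + v))) ∨
      (s.vv s.r ∈ e ∧ s.vv (s.r + 1) ∈ e) := by
  classical
  have hr := s.hr_lt
  -- the preimage of `e`
  set e' : Finset ℕ := (range 18).filter (fun v => s.vv (s.r + v) ∈ e) with he'
  have hee : e = e'.image (fun v => s.vv (s.r + v)) := by
    ext w
    constructor
    · intro hw
      obtain ⟨v, hv, rfl⟩ := mem_image.1 (h hw)
      exact mem_image.2 ⟨v, mem_filter.2 ⟨hv, hw⟩, rfl⟩
    · intro hw
      obtain ⟨v, hv, rfl⟩ := mem_image.1 hw
      exact (mem_filter.1 hv).2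
  have hcard : e.card = 3 := s.hF e he
  have hcard' : e'.card = 3 := by
    rw [← hcard]
    conv_rhs => rw [hee]
    refine (card_image_of_injOn ?_).symm
    intro a ha b hb hab
    have ha' := mem_range.1 (mem_filter.1 (mem_coe.1 ha)).1
    have hb' := mem_range.1 (mem_filter.1 (mem_coe.1 hb)).1
    exact s.vr_inj ha' hb' hab
  -- the shifted set
  set T : Finset ℕ := e'.image (fun v => s.r + v) with hTdef
  have hTI : T ⊆ Ico s.r (s.r + 18) := by
    intro i hi
    obtain ⟨v, hv, rfl⟩ := mem_image.1 hi
    have := mem_range.1 (mem_filter.1 hv).1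
    rw [mem_Ico]
    omega
  have heT : T.image s.vv = e := by
    rw [hTdef, image_image]
    exact hee.symm
  have hTn : T ∉ Delta0 s.r := by
    intro hT
    have h1 := s.image_mem hT hTI
    rw [heT] at h1
    exact ((Sys.mem_St s.toSys).1 h1).2 e (mem_union_left _ he) (Subset.refl _)
  rw [mem_Delta0] at hTn
  have hTr : T ⊆ range (s.r + 18) := by
    intro i hi
    have := mem_Ico.1 (hTI hi)
    exact mem_range.2 this.2
  have hv : vpart s.r T = e' := by
    ext v
    simp only [vpart, mem_filter, hTdef, mem_image]
    constructor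
    · rintro ⟨_, u, hu, huv⟩
      have : u = v := by omega
      rw [← this]
      exact hu
    · intro hv
      exact ⟨(mem_filter.1 hv).1, v, hv, rfl⟩
  have hni : ¬ Ind Fm e' := by
    intro hind
    exact hTn ⟨hTr, by rw [hv]; exact hind⟩
  unfold Ind at hni
  push Not at hni
  obtain ⟨g, hg, hge⟩ := hni
  unfold Fm at hg
  rcases mem_insert.1 hg with rfl | hgR
  · right
    have h0 : 0 ∈ e' := hge (by simp)
    have h1 : 1 ∈ e' := hge (by simp)
    have h0' := (mem_filter.1 h0).2
    have h1' := (mem_filter.1 h1).2
    exact ⟨by simpa using h0', h1'⟩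
  · left
    have h3 := Rs_card hgR
    have : g = e' := eq_of_subset_of_card_le hge (by omega)
    exact ⟨g, hgR, by rw [this]; exact hee⟩

/-- The centres of the windows are vertices of `F ∪ G`. -/
theorem vv_mem_vx {i : ℕ} (hi : i < s.n) : s.vv i ∈ vx (s.F ∪ s.G) := by
  have h := (s.No_vv hi).1
  have hsc := s.scales
  have hTh : 10 ≤ s.Th := SysD.Th_ge s.toSysD
  have hB : s.Th ^ 8 ≤ s.B := s.hB
  have h1 : s.Th < s.B ^ (i + 1) := by
    have h2 : s.B ≤ s.B ^ (i + 1) := Nat.le_self_pow (by omega) _
    have h3 : s.Th ^ 2 ≤ s.Th ^ 8 := Nat.pow_le_pow_right (by omega) (by norm_num)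
    have h4 : s.Th < s.Th ^ 2 := by nlinarith
    omega
  have hpos : 0 < (s.No (s.vv i)).card := by omega
  obtain ⟨w, hw⟩ := card_pos.1 hpos
  have hw' := ((Sys.mem_No s.toSys).1 hw).2
  rw [mem_vx]
  exact ⟨{s.vv i, w}, mem_union_right _ hw', by simp⟩

end Fin5

end Pool.Agent.IDX
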