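import Pool.Agent.IDX.R2b

/-! Row IDX-R3a: the windows of V0 -/

open Finset

namespace Pool.Agent.IDX

namespace Fin5

variable (s : Fin5)

/-- No germs: `f S = |⋃_{v ∈ S} No v|`. -/
theorem f_eq {S : Finset ℕ} (hS : S ∈ s.St) : s.f S = (S.biUnion s.No).card := by
  have h := (SysD.K2_empty_of_eq s.toSysD s.hFK).1
  unfold Sys.f
  rw [Sys.kill_St s.toSys hS, h]
  simp

theorem vv_inj : Set.InjOn s.vv (range s.n : Set ℕ) := by
  intro i hi j hj hij
  have hi' := (s.hvv i (by simpa using hi)).2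
  have hj' := (s.hvv j (by simpa using hj)).2
  rw [hij, hj'] at hi'
  have := Finset.singleton_injective hi'
  exact this.symm

/-- Sizes: `B^{i+1} ≤ |Γ| + |No (vv i)| ≤ B^{i+1} + K0`; a vertex of `Γ` which is not a centre has
`|No v| ≤ Th`. -/
theorem No_vv {i : ℕ} (hi : i < s.n) :
    s.B ^ (i + 1) ≤ s.Th + (s.No (s.vv i)).card ∧ (s.No (s.vv i)).card ≤ s.B ^ (i + 1) + s.Th := by
  have h := SysD.No_single s.toSysD (s.hvv i hi).1 (s.hvv i hi).2
  have hTh := s.hTh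
  constructor
  · have := h.1
    omega
  · have := h.2
    omega

theorem No_small {v : ℕ} (hv : v ∈ s.Γ) (h : ∀ i < s.n, v ≠ s.vv i) : (s.No v).card ≤ s.Th := by
  by_cases hl : 1 ≤ s.toSysD.lev v
  · obtain ⟨i, hi, hvi⟩ := s.hall v hv hl
    exact absurd hvi (h i hi)
  · have h0 : s.toSysD.lev v = 0 := by omega
    have h1 : s.Df {v} = ∅ := by
      unfold SysD.lev at h0
      exact top_eq_zero.1 h0
    have hS : {v} ∈ s.St := Sys.singleton_mem_St s.toSys hv
    have h2 := (s.hD {v} hS).2.2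
    rw [h1, num_empty, Sys.f_singleton s.toSys hv] at h2
    have hTh := s.hTh
    omega

/-- Every block is the block of a state. -/
theorem exists_state {D : Finset ℕ} (hD : D ∈ Delta0 s.r) : ∃ S ∈ s.St, s.Df S = D := by
  have hD' : D ∈ s.BB := by rw [s.hBBd]; exact hD
  rcases SysD.block_attained s.toSysD hD' with h | ⟨S, hS, _⟩
  · exact h
  · have h := (SysD.K2_empty_of_eq s.toSysD s.hFK).2
    rw [h] at hS
    simp at hS

/-- The windows of the centres contained in `S`. -/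
def Tt (S : Finset ℕ) : Finset ℕ := (range s.n).filter (fun i => s.vv i ∈ S)

theorem mem_Tt {S : Finset ℕ} {i : ℕ} : i ∈ s.Tt S ↔ i < s.n ∧ s.vv i ∈ S := by
  simp [Tt]

/-- Upper bound for `f S`. -/
theorem f_le_X {S : Finset ℕ} (hS : S ∈ s.St) (X : Finset ℕ) :
    s.f S ≤ (X.biUnion (fun i => s.No (s.vv i))).card + num s.B (s.Tt S \ X) + s.Th ^ 2 := by
  classical
  have hSΓ : S ⊆ s.Γ := ((Sys.mem_St s.toSys).1 hS).1
  rw [s.f_eq hS]
  set W : Finset ℕ := S.filter (fun v => ∀ i < s.n, v ≠ s.vv i) with hW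
  have hsub : S.biUnion s.No ⊆ (X.biUnion (fun i => s.No (s.vv i))) ∪
      ((s.Tt S \ X).biUnion (fun i => s.No (s.vv i)) ∪ W.biUnion s.No) := by
    intro z hz
    obtain ⟨v, hv, hzv⟩ := mem_biUnion.1 hz
    by_cases hc : ∃ i < s.n, v = s.vv i
    · obtain ⟨i, hi, rfl⟩ := hc
      by_cases hX : i ∈ X
      · exact mem_union_left _ (mem_biUnion.2 ⟨i, hX, hzv⟩)
      · refine mem_union_right _ (mem_union_left _ (mem_biUnion.2 ⟨i, ?_, hzv⟩))
        exact mem_sdiff.2 ⟨s.mem_Tt.2 ⟨hi, hv⟩, hX⟩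
    · refine mem_union_right _ (mem_union_right _ (mem_biUnion.2 ⟨v, ?_, hzv⟩))
      refine mem_filter.2 ⟨hv, ?_⟩
      intro i hi h
      exact hc ⟨i, hi, h⟩
  have h1 := (card_le_card hsub).trans (card_union_le _ _)
  have h2 := card_union_le ((s.Tt S \ X).biUnion (fun i => s.No (s.vv i))) (W.biUnion s.No)
  have h3 : ((s.Tt S \ X).biUnion (fun i => s.No (s.vv i))).card ≤
      num s.B (s.Tt S \ X) + (s.Tt S \ X).card * s.Th := by
    refine card_biUnion_le.trans ?_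
    have : ∑ i ∈ s.Tt S \ X, (s.No (s.vv i)).card ≤ ∑ i ∈ s.Tt S \ X, (s.B ^ (i + 1) + s.Th) := by
      refine sum_le_sum ?_
      intro i hi
      exact (s.No_vv (s.mem_Tt.1 (mem_sdiff.1 hi).1).1).2
    refine this.trans ?_
    rw [sum_add_distrib, sum_const, smul_eq_mul]
    rfl
  have h4 : (W.biUnion s.No).card ≤ W.card * s.Th := by
    refine card_biUnion_le.trans ?_
    have : ∑ v ∈ W, (s.No v).card ≤ ∑ v ∈ W, s.Th := by
      refine sum_le_sum ?_
      intro v hv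
      have hv' := mem_filter.1 hv
      exact s.No_small (hSΓ hv'.1) hv'.2
    refine this.trans ?_
    rw [sum_const, smul_eq_mul]
  have h5 : (s.Tt S \ X).card ≤ s.n := by
    have h51 : s.Tt S \ X ⊆ range s.n := by
      intro i hi
      exact mem_range.2 (s.mem_Tt.1 (mem_sdiff.1 hi).1).1
    simpa using card_le_card h51
  have h6 : W.card ≤ s.Γ.card := card_le_card ((filter_subset _ _).trans hSΓ)
  have hTh := s.hTh
  have h7 : (s.Tt S \ X).card * s.Th + W.card * s.Th ≤ s.Th ^ 2 := by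
    rw [← add_mul, pow_two]
    exact Nat.mul_le_mul_right _ (by omega)
  omega

/-- Lower bound for `f S`. -/
theorem f_ge_X {S : Finset ℕ} (hS : S ∈ s.St) {X : Finset ℕ} (hX : ∀ i ∈ X, s.vv i ∈ S) :
    (X.biUnion (fun i => s.No (s.vv i))).card ≤ s.f S := by
  rw [s.f_eq hS]
  refine card_le_card ?_
  intro z hz
  obtain ⟨i, hi, hzi⟩ := mem_biUnion.1 hz
  exact mem_biUnion.2 ⟨s.vv i, hX i hi, hzi⟩

theorem hr_lt : s.r + 18 = s.n := s.hn.symm

/-- Arithmetic of the scales. -/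
theorem scales : s.Th ≤ s.Th ^ 2 ∧ s.Th ^ 2 ≤ s.Th ^ 2 * s.B ^ s.r ∧ s.B ^ s.r ≤ s.Th ^ 2 * s.B ^ s.r ∧
    1000000 * (s.Th ^ 2 * s.B ^ s.r) ≤ s.B ^ (s.r + 1) ∧
    1000000 * s.B ^ (s.r + 1) ≤ s.B ^ (s.r + 2) ∧ 1000000 * s.B ^ (s.r + 2) ≤ s.B ^ (s.r + 3) ∧
    1 ≤ s.B ^ s.r ∧ 1000000 ≤ s.B := by
  have hTh : 10 ≤ s.Th := SysD.Th_ge s.toSysD
  have hB : s.Th ^ 8 ≤ s.B := s.hB
  have h6 : 10 ^ 6 ≤ s.Th ^ 6 := Nat.pow_le_pow_left hTh 6
  have h2 : 1 ≤ s.Th ^ 2 := Nat.one_le_pow _ _ (by omega)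
  have hBig : 1000000 * s.Th ^ 2 ≤ s.B := by
    refine le_trans ?_ hB
    calc 1000000 * s.Th ^ 2 = 10 ^ 6 * s.Th ^ 2 := by norm_num
      _ ≤ s.Th ^ 6 * s.Th ^ 2 := Nat.mul_le_mul_right _ h6
      _ = s.Th ^ 8 := by ring
  have hB1 : 1000000 ≤ s.B := by
    refine le_trans ?_ hBig
    calc 1000000 = 1000000 * 1 := by norm_num
      _ ≤ 1000000 * s.Th ^ 2 := Nat.mul_le_mul_left _ h2
  have hb : 1 ≤ s.B ^ s.r := Nat.one_le_pow _ _ (by omega)
  refine ⟨?_, ?_, ?_, ?_, ?_, ?_, hb, hB1⟩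
  · exact Nat.le_self_pow (by norm_num) _
  · exact Nat.le_mul_of_pos_right _ hb
  · exact Nat.le_mul_of_pos_left _ h2
  · calc 1000000 * (s.Th ^ 2 * s.B ^ s.r) = (1000000 * s.Th ^ 2) * s.B ^ s.r := by ring
      _ ≤ s.B * s.B ^ s.r := Nat.mul_le_mul_right _ hBig
      _ = s.B ^ (s.r + 1) := by ring
  · calc 1000000 * s.B ^ (s.r + 1) ≤ s.B * s.B ^ (s.r + 1) := Nat.mul_le_mul_right _ hB1
      _ = s.B ^ (s.r + 2) := by ring
  · calc 1000000 * s.B ^ (s.r + 2) ≤ s.B * s.B ^ (s.r + 2) := Nat.mul_le_mul_right _ hB1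
      _ = s.B ^ (s.r + 3) := by ring

/-- Splitting of `num` at a cut. -/
theorem num_split (D : Finset ℕ) (k : ℕ) :
    num s.B D = num s.B (D.filter (fun i => k ≤ i)) + num s.B (D.filter (fun i => i < k)) := by
  have h := Finset.sum_filter_add_sum_filter_not D (fun i => k ≤ i) (fun i => s.B ^ (i + 1))
  have h2 : D.filter (fun i => ¬ k ≤ i) = D.filter (fun i => i < k) := by
    refine filter_congr ?_
    intro i _
    omega
  rw [h2] at h
  exact h.symm

theorem num_low (D : Finset ℕ) (k : ℕ) : num s.B (D.filter (fun i => i < k)) ≤ 2 * s.B ^ k := by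
  have hB := s.scales.2.2.2.2.2.2.2
  have h := num_le (B := s.B) (n := k) (by omega) (D := D.filter (fun i => i < k)) (by
    intro i hi
    exact mem_range.2 (mem_filter.1 hi).2)
  omega

/-- If the state `S` has the block `D` then the set of windows of `S` is not below `D`. -/
theorem top_down {S : Finset ℕ} (hS : S ∈ s.St) {k : ℕ}
    (h : ∀ i, k ≤ i → i < s.n → i ∈ s.Df S) : ∀ i, k ≤ i → i < s.n → s.vv i ∈ S := by
  by_contra hcon
  push Not at hcon
  obtain ⟨i0, hi0k, hi0n, hi0⟩ := hcon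
  -- the largest missing window
  have hex : ((Ico k s.n).filter (fun i => s.vv i ∉ S)).Nonempty :=
    ⟨i0, by simp [hi0k, hi0n, hi0]⟩
  set j := ((Ico k s.n).filter (fun i => s.vv i ∉ S)).max' hex with hj
  have hjm : j ∈ (Ico k s.n).filter (fun i => s.vv i ∉ S) := Finset.max'_mem _ _
  have hjk : k ≤ j := (mem_Ico.1 (mem_filter.1 hjm).1).1
  have hjn : j < s.n := (mem_Ico.1 (mem_filter.1 hjm).1).2
  have hjS : s.vv j ∉ S := (mem_filter.1 hjm).2
  have hmax : ∀ i, j < i → i < s.n → s.vv i ∈ S := by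
    intro i hi hin
    by_contra hc
    have : i ≤ j := Finset.le_max' _ _ (by simp [hc, hin]; omega)
    omega
  -- numbers
  have h1 := (SysD.Df_close s.toSysD hS).1
  have h2 := s.f_le_X hS ∅
  have hsc := s.scales
  have hDsub : Ico j s.n ⊆ s.Df S := by
    intro i hi
    exact h i (by have := (mem_Ico.1 hi).1; omega) (mem_Ico.1 hi).2
  have h3 : num s.B (Ico j s.n) ≤ num s.B (s.Df S) := num_mono hDsub
  have h4 : num s.B (Ico j s.n) = s.B ^ (j + 1) + num s.B (Ico (j + 1) s.n) := by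
    unfold num
    rw [Finset.sum_eq_sum_Ico_succ_bot hjn]
  have h5 : num s.B (s.Tt S \ ∅) ≤ num s.B (Ico (j + 1) s.n) + 2 * s.B ^ j := by
    have hs : s.Tt S \ ∅ = s.Tt S := by simp
    rw [hs, s.num_split (s.Tt S) (j + 1)]
    have h51 : (s.Tt S).filter (fun i => j + 1 ≤ i) ⊆ Ico (j + 1) s.n := by
      intro i hi
      have := mem_filter.1 hi
      have h' := (s.mem_Tt.1 this.1).1
      exact mem_Ico.2 ⟨this.2, h'⟩
    have h52 : (s.Tt S).filter (fun i => i < j + 1) ⊆ (s.Tt S).filter (fun i => i < j) := by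
      intro i hi
      have := mem_filter.1 hi
      have hij : i ≠ j := by
        rintro rfl
        exact hjS (s.mem_Tt.1 this.1).2
      exact mem_filter.2 ⟨this.1, by omega⟩
    have h53 := num_mono (B := s.B) h51
    have h54 := num_mono (B := s.B) h52
    have h55 := s.num_low (s.Tt S) j
    omega
  have hemp : ((∅ : Finset ℕ).biUnion (fun i => s.No (s.vv i))).card = 0 := by simp
  rw [hemp] at h2
  -- B^{j+1} ≤ 2 B^j + Th^2 + Th
  have h6 : s.B ^ (j + 1) ≤ 2 * s.B ^ j + s.Th ^ 2 + s.Th := by omega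
  have h7 : 1 ≤ s.B ^ j := Nat.one_le_pow _ _ (by omega)
  have hTh : 10 ≤ s.Th := SysD.Th_ge s.toSysD
  have hB : s.Th ^ 8 ≤ s.B := s.hB
  have h8 : 1000000 * s.Th ^ 2 ≤ s.B := by
    refine le_trans ?_ hB
    have h6 : 10 ^ 6 ≤ s.Th ^ 6 := Nat.pow_le_pow_left hTh 6
    calc 1000000 * s.Th ^ 2 = 10 ^ 6 * s.Th ^ 2 := by norm_num
      _ ≤ s.Th ^ 6 * s.Th ^ 2 := Nat.mul_le_mul_right _ h6
      _ = s.Th ^ 8 := by ring
  have h9 : s.B ^ (j + 1) = s.B * s.B ^ j := by ring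
  have h10 : 2 * s.B ^ j + s.Th ^ 2 + s.Th ≤ (2 + s.Th ^ 2 + s.Th) * s.B ^ j := by
    have : (2 + s.Th ^ 2 + s.Th) * s.B ^ j = 2 * s.B ^ j + (s.Th ^ 2 + s.Th) * s.B ^ j := by ring
    rw [this]
    have : (s.Th ^ 2 + s.Th) * 1 ≤ (s.Th ^ 2 + s.Th) * s.B ^ j := Nat.mul_le_mul_left _ h7
    omega
  have h11 : 2 + s.Th ^ 2 + s.Th < s.B := by
    have : s.Th ≤ s.Th ^ 2 := hsc.1
    omega
  have h12 : (2 + s.Th ^ 2 + s.Th) * s.B ^ j < s.B * s.B ^ j :=
    Nat.mul_lt_mul_of_pos_right h11 (by omega)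
  omega

/-- The stars of the windows of `V0` overlap little. -/
theorem union_V0 {T : Finset ℕ} (hT : T ⊆ Ico (s.r + 2) (s.r + 18)) :
    num s.B T ≤ (T.biUnion (fun i => s.No (s.vv i))).card + 2 * s.B ^ (s.r + 2) := by
  classical
  obtain ⟨S, hS, hSD⟩ := s.exists_state (V0_mem_Delta0 s.r)
  have hr := s.hr_lt
  have hall : ∀ i, s.r + 2 ≤ i → i < s.n → s.vv i ∈ S := by
    refine s.top_down hS ?_
    intro i h1 h2
    rw [hSD]
    exact mem_Ico.2 ⟨h1, by omega⟩
  set V := Ico (s.r + 2) (s.r + 18) with hV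
  have h1 := (SysD.Df_close s.toSysD hS).1
  rw [hSD] at h1
  have h2 := s.f_le_X hS V
  have h3 : num s.B (s.Tt S \ V) ≤ s.B ^ (s.r + 2) + s.B ^ (s.r + 1) + 2 * s.B ^ s.r := by
    have h31 : s.Tt S \ V ⊆ insert (s.r + 1) (insert s.r (range s.r)) := by
      intro i hi
      have hi1 := mem_sdiff.1 hi
      have hi2 := (s.mem_Tt.1 hi1.1).1
      have hi3 : ¬ (s.r + 2 ≤ i ∧ i < s.r + 18) := by
        intro h
        exact hi1.2 (mem_Ico.2 h)
      simp only [mem_insert, mem_range]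
      omega
    refine (num_mono h31).trans ?_
    unfold num
    rw [sum_insert (by simp), sum_insert (by simp)]
    have h33 : s.B ^ (s.r + 1 + 1) = s.B ^ (s.r + 2) := rfl
    have h32 := num_le (B := s.B) (n := s.r) (by have := s.scales.2.2.2.2.2.2.2; omega)
      (D := range s.r) (Subset.refl _)
    unfold num at h32
    omega
  -- |⋃_V| ≤ |⋃_T| + num (V \ T) + |V \ T| Th
  have h4 : (V.biUnion (fun i => s.No (s.vv i))).card ≤
      (T.biUnion (fun i => s.No (s.vv i))).card + (num s.B (V \ T) + 16 * s.Th) := by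
    have h41 : V.biUnion (fun i => s.No (s.vv i)) ⊆
        T.biUnion (fun i => s.No (s.vv i)) ∪ (V \ T).biUnion (fun i => s.No (s.vv i)) := by
      intro z hz
      obtain ⟨i, hi, hzi⟩ := mem_biUnion.1 hz
      by_cases hiT : i ∈ T
      · exact mem_union_left _ (mem_biUnion.2 ⟨i, hiT, hzi⟩)
      · exact mem_union_right _ (mem_biUnion.2 ⟨i, mem_sdiff.2 ⟨hi, hiT⟩, hzi⟩)
    refine (card_le_card h41).trans ((card_union_le _ _).trans ?_)
    refine Nat.add_le_add_left ?_ _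
    refine card_biUnion_le.trans ?_
    have h42 : ∑ i ∈ V \ T, (s.No (s.vv i)).card ≤ ∑ i ∈ V \ T, (s.B ^ (i + 1) + s.Th) := by
      refine sum_le_sum ?_
      intro i hi
      have := mem_Ico.1 (mem_sdiff.1 hi).1
      exact (s.No_vv (by omega)).2
    refine h42.trans ?_
    rw [sum_add_distrib, sum_const, smul_eq_mul]
    have h43 : (V \ T).card ≤ 16 := by
      refine (card_le_card sdiff_subset).trans ?_
      rw [hV, Nat.card_Ico]
      omega
    have := Nat.mul_le_mul_right s.Th h43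
    have hnum : num s.B (V \ T) = ∑ i ∈ V \ T, s.B ^ (i + 1) := rfl
    omega
  have h5 : num s.B V = num s.B T + num s.B (V \ T) := by
    rw [← num_union (disjoint_sdiff)]
    congr 1
    exact (union_sdiff_of_subset hT).symm
  have hsc := s.scales
  omega

/-- (i) The windows `≥ r + 2`: let `S0` be a state with block `[r+2, r+18)`.  Top-down (as for `A` in P1)
`S0` contains all `vv i`, `r + 2 ≤ i`; the stars overlap by at most
`B^{r+1} + B^{r+2} + Th (2 B^r + Th) + ..`; hence for all states. -/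
theorem digits_V0 {S : Finset ℕ} (hS : S ∈ s.St) {i : ℕ} (h1 : s.r + 2 ≤ i) (h2 : i < s.r + 18) :
    i ∈ s.Df S ↔ s.vv i ∈ S := by
  classical
  have hr := s.hr_lt
  set E := (s.Tt S).filter (fun i => s.r + 2 ≤ i) with hE
  have hEV : E ⊆ Ico (s.r + 2) (s.r + 18) := by
    intro j hj
    have hj' := mem_filter.1 hj
    have := (s.mem_Tt.1 hj'.1).1
    exact mem_Ico.2 ⟨hj'.2, by omega⟩
  have hu := s.union_V0 hEV
  have hl := s.f_ge_X hS (X := E) (by
    intro j hj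
    exact (s.mem_Tt.1 (mem_filter.1 hj).1).2)
  have hup := s.f_le_X hS ∅
  have hemp : ((∅ : Finset ℕ).biUnion (fun i => s.No (s.vv i))).card = 0 := by simp
  have hs0 : s.Tt S \ ∅ = s.Tt S := by simp
  rw [hemp, hs0, s.num_split (s.Tt S) (s.r + 2), ← hE] at hup
  have hlow := s.num_low (s.Tt S) (s.r + 2)
  have hc := SysD.Df_close s.toSysD hS
  have hsc := s.scales
  have hDr : s.Df S ⊆ range s.n := s.hBB _ (s.hD S hS).1
  have hEr : E ⊆ range s.n := by
    intro j hj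
    exact mem_range.2 (s.mem_Tt.1 (mem_filter.1 hj).1).1
  have hB3 : s.B ^ (s.r + 2 + 1) = s.B ^ (s.r + 3) := rfl
  have key := digits_eq_of_close (B := s.B) (s := s.r + 2) (m := s.n) (x := num s.B E)
    (e := 4 * s.B ^ (s.r + 2)) (by omega) hDr hEr (by omega) (by omega) (by omega) (by omega)
    (by omega)
  have hEE : E.filter (fun i => s.r + 2 ≤ i) = E := by
    rw [hE, filter_filter]
    refine filter_congr ?_
    intro j _
    simp
  rw [hEE] at key
  constructor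
  · intro h
    have : i ∈ (s.Df S).filter (fun i => s.r + 2 ≤ i) := mem_filter.2 ⟨h, h1⟩
    rw [key] at this
    exact (s.mem_Tt.1 (mem_filter.1 this).1).2
  · intro h
    have : i ∈ E := mem_filter.2 ⟨s.mem_Tt.2 ⟨by omega, h⟩, h1⟩
    rw [← key] at this
    exact (mem_filter.1 this).1

end Fin5

end Pool.Agent.IDX
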