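import Pool.Agent.IDX.N1
import Pool.Agent.IDX.B5
import Pool.Agent.MP_90b0e7_co.UdDefs
import Pool.Agent.MP_90b0e7_co.UdCons
import Pool.Agent.MP_90b0e7_co.UdRat

/-! Row IDX-T1a: countable hypergraphs -/

open Finset Filter Topology

namespace Pool.Agent.IDX

/-- `dens` of helper22's definitions on a finite hypergraph. -/
theorem ud_dens_eq {H : HG} {U : Finset ℕ} (h : vx H ⊆ U) :
    UD.dens (H : Set (Finset ℕ)) U = dn H := by
  classical
  rw [dn_eq h, UD.dens_eq]
  unfold pr
  congr 2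

open Classical in
theorem T1a_mono {E F : Set (Finset ℕ)} (h : ∀ e ∈ E, ∃ f ∈ F, f ⊆ e) (S : Finset ℕ) :
    UD.dens F S ≤ UD.dens E S := by
  rw [UD.dens_eq, UD.dens_eq]
  refine div_le_div_of_nonneg_right ?_ (by positivity)
  have : (S.powerset.filter (fun X => ∀ e ∈ F, ¬ e ⊆ X)) ⊆
      S.powerset.filter (fun X => ∀ e ∈ E, ¬ e ⊆ X) := by
    intro X hX
    rw [Finset.mem_filter] at hX ⊢
    refine ⟨hX.1, fun e he hs => ?_⟩
    obtain ⟨f, hf, hfe⟩ := h e he
    exact hX.2 f hf (hfe.trans hs)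
  exact_mod_cast Finset.card_le_card this

/-- Replacing the 2-edges by infinite germs: a countable 3-uniform hypergraph with the same
density. -/
theorem exists_countable (H : HG) (hH : ∀ e ∈ H, e.card = 2 ∨ e.card = 3) :
    ∃ E : Set (Finset ℕ), (∀ e ∈ E, e.card = 3) ∧ UD.IsDensity E (dn H) := by
  classical
  obtain ⟨N, hN⟩ : ∃ N, vx H ⊆ Finset.range N := by
    refine ⟨(vx H).sup id + 1, fun v hv => ?_⟩
    rw [Finset.mem_range]
    exact Nat.lt_succ_of_le (Finset.le_sup (f := id) hv)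
  set E : Set (Finset ℕ) := {e | (e ∈ H ∧ e.card = 3) ∨
    ∃ Q ∈ H, Q.card = 2 ∧ ∃ z, N ≤ z ∧ e = insert z Q} with hE
  have hEF : ∀ e ∈ E, ∃ f ∈ (H : Set (Finset ℕ)), f ⊆ e := by
    rintro e (⟨h1, -⟩ | ⟨Q, hQ, -, z, -, rfl⟩)
    · exact ⟨e, h1, Finset.Subset.refl _⟩
    · exact ⟨Q, hQ, Finset.subset_insert _ _⟩
  have hcard : ∀ e ∈ E, e.card = 3 := by
    rintro e (⟨-, h1⟩ | ⟨Q, hQ, hQ2, z, hz, rfl⟩)
    · exact h1
    · have hzQ : z ∉ Q := fun h => by
        have h1 := hN (subset_vx hQ h)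
        rw [Finset.mem_range] at h1
        omega
      rw [Finset.card_insert_of_notMem hzQ, hQ2]
  refine ⟨E, hcard, ?_⟩
  have hlow : ∀ S, dn H ≤ UD.dens E S := by
    intro S
    have h1 := UD.dens_anti (H : Set (Finset ℕ)) (Finset.subset_union_left (s₁ := S) (s₂ := vx H))
    rw [ud_dens_eq (Finset.subset_union_right (s₁ := S) (s₂ := vx H))] at h1
    exact h1.trans (T1a_mono hEF S)
  have hup : ∀ M : ℕ, UD.dens E (Finset.range (N + M)) ≤ dn H + (1 / 2) ^ M := by
    intro M
    have hsub : vx H ⊆ Finset.range (N + M) :=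
      hN.trans (Finset.range_subset_range.2 (Nat.le_add_right N M))
    rw [← ud_dens_eq hsub, UD.dens_eq, UD.dens_eq]
    have h1 : ((Finset.range (N + M)).powerset.filter (fun X => ∀ e ∈ E, ¬ e ⊆ X)) ⊆
        ((Finset.range (N + M)).powerset.filter (fun X => ∀ e ∈ (H : Set (Finset ℕ)), ¬ e ⊆ X)) ∪
          (Finset.range N).powerset := by
      intro X hX
      rw [Finset.mem_filter, Finset.mem_powerset] at hX
      rw [Finset.mem_union, Finset.mem_filter, Finset.mem_powerset, Finset.mem_powerset]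
      by_cases hall : ∀ e ∈ (H : Set (Finset ℕ)), ¬ e ⊆ X
      · exact Or.inl ⟨hX.1, hall⟩
      · right
        push Not at hall
        obtain ⟨e, he, hs⟩ := hall
        intro z hz
        rw [Finset.mem_range]
        by_contra hzN
        rcases hH e he with h2 | h3
        · exact hX.2 (insert z e) (Or.inr ⟨e, he, h2, z, by omega, rfl⟩)
            (Finset.insert_subset hz hs)
        · exact hX.2 e (Or.inl ⟨he, h3⟩) hs
    have h2 := (Finset.card_le_card h1).trans (Finset.card_union_le _ _)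
    rw [Finset.card_powerset, Finset.card_range] at h2
    have h3 : (((Finset.range (N + M)).powerset.filter (fun X => ∀ e ∈ E, ¬ e ⊆ X)).card : ℝ) ≤
        (((Finset.range (N + M)).powerset.filter
          (fun X => ∀ e ∈ (H : Set (Finset ℕ)), ¬ e ⊆ X)).card : ℝ) + 2 ^ N := by
      exact_mod_cast h2
    have h4 : ((1 : ℝ) / 2) ^ M = 2 ^ N / 2 ^ (Finset.range (N + M)).card := by
      rw [Finset.card_range, pow_add, one_div, inv_pow]
      field_simp
    rw [h4, ← add_div]
    refine div_le_div_of_nonneg_right ?_ (by positivity)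
    refine le_trans (le_of_eq ?_) (le_trans h3 (le_of_eq ?_)) <;> congr!
  have heq : UD.idens E = dn H := by
    refine le_antisymm ?_ (le_ciInf hlow)
    have h5 : Tendsto (fun M : ℕ => dn H + ((1 : ℝ) / 2) ^ M) atTop (𝓝 (dn H + 0)) :=
      tendsto_const_nhds.add (tendsto_pow_atTop_nhds_zero_of_lt_one (by norm_num) (by norm_num))
    rw [add_zero] at h5
    exact ge_of_tendsto' h5 (fun M => (UD.idens_le E _).trans (hup M))
  rw [← heq]
  exact UD.isDensity_idens E

/-- A finite 3-uniform hypergraph on `Fin n` gives one on `ℕ`. -/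
theorem of_finUniform {d : ℝ} (h : UD.FinUniform 3 d) :
    ∃ H : HG, (∀ e ∈ H, e.card = 3) ∧ dn H = d := by
  classical
  obtain ⟨n, F, hF, rfl⟩ := h
  set H : HG := (Set.toFinite F).toFinset.image (fun e => e.map Fin.valEmbedding) with hH
  have hmem : ∀ e, e ∈ H ↔ ∃ f ∈ F, f.map Fin.valEmbedding = e := by
    intro e
    rw [hH, Finset.mem_image]
    simp only [Set.Finite.mem_toFinset]
  refine ⟨H, ?_, ?_⟩
  · intro e he
    obtain ⟨f, hf, rfl⟩ := (hmem e).1 he
    rw [Finset.card_map]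
    exact hF f hf
  · have hU : vx H ⊆ (Finset.univ : Finset (Fin n)).map Fin.valEmbedding := by
      intro v hv
      obtain ⟨e, he, hve⟩ := mem_vx.1 hv
      obtain ⟨f, hf, rfl⟩ := (hmem e).1 he
      exact Finset.map_subset_map.2 (Finset.subset_univ f) hve
    rw [← ud_dens_eq hU, ← UD.dens_map]
    congr 1
    ext f
    show f.map Fin.valEmbedding ∈ H ↔ f ∈ F
    rw [hmem]
    constructor
    · rintro ⟨g, hg, hgf⟩
      exact (Finset.map_injective _ hgf) ▸ hg
    · exact fun hf => ⟨f, hf, rfl⟩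

end Pool.Agent.IDX
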